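import Pool.Agent.Lib.MP_2392aa_gt.O.RatO

/-!
MP_2392aa_gt, formal linearization, outer type, module ComO (about 330 lines): commensurability.

PROOFS (compare the header of L/ArCom).
`congO`: for `M ≥ 1` let `Γ(M)` be the subgroup of the `g ∈ G0O O` with `(g, op g⁻¹) - 1 ∈ M O` and
`(g⁻¹, op g) - 1 ∈ M O`. It has finite index in `G0O O`: if `x = (g, op g⁻¹)` and `y = (h, op h⁻¹)` satisfy
`x - y ∈ M O` and `x' - y' ∈ M O` (`x'`, `y'` the pairs of the inverses) then `g⁻¹ h ∈ Γ(M)`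
(`x' y - 1 = x' (y - x) ∈ M O`), and `O / M O` is finite (`O` is finitely generated as a group:
`h.ord`; e.g. `Submodule.finiteQuotient...`, or: the coordinates modulo `M` take finitely many
values).
`cco_conj`: let `N` be such that `N (q, op q⁻¹)`, `N (q⁻¹, op q) ∈ O`. For `g ∈ Γ(N ^ 2)`: `(q g q⁻¹, op (q g q⁻¹)⁻¹) =
1 + (N (q, op q⁻¹)) (((g, op g⁻¹) - 1) / N ^ 2) (N (q⁻¹, op q)) ∈ O`, the same for `g⁻¹`; the determinant is one;
so `q g q⁻¹ ∈ G0O O`. So `cjG q (G0O O)` (the group of all `g` with `q g q⁻¹ ∈ G0O O`) has finite index in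
`G0O O`; `(cjG q G).relIndex (cjG q (G0O O)) = G.relIndex (G0O O)`, transitivity.
`cco_inf`: `Subgroup.relIndex_inf_ne_zero`. `cco_pow`: among the cosets of `1, g, g ^ 2, ..` two coincide;
`M := (relIndex)!`. `cco_te`: `RR O a (-a)`, `a ^ 3 = 0`: for `m` divisible by a suitable `M`: `(m a, - m a) ∈ O`
and `(m ^ 2 / 2) (a ^ 2, a ^ 2) ∈ O`, so `(te (m a), op (te (m a))⁻¹) = 1 + (m a, - m a) + (m ^ 2 / 2) (a ^ 2, op a ^ 2)` is in
`O`, the same for the inverse, the determinant is one (`te a = (te (a / 2)) ^ 2`, so it is the square of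
a number `≥ 0`.. more simply: the determinant of `te (s a)` is a homomorphism in `s`, polynomial in `s`,
bounded away from `0`; or `te a - 1` is nilpotent, so the determinant is `1`), so `te (m a) ∈ G0O O`;
then `cco_pow` (`te_nat`).
`g0o_fin`: a subgroup of finite relative index: the elements `g ∈ G` for `G ∈ CCO O`.
-/

open scoped ContDiff Topology Nat
open MulOpposite

namespace LatLin

section
variable {E : Type*} [NormedAddCommGroup E] [InnerProductSpace ℝ E] [FiniteDimensional ℝ E]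
  {O : Subring (DE E)}

/-- the pair of an invertible operator and its inverse -/
private noncomputable abbrev PG (g : GE E) : DE E :=
  (((g : E →L[ℝ] E), op ((g⁻¹ : GE E) : E →L[ℝ] E)) : DE E)

omit [FiniteDimensional ℝ E] in
private theorem pg_mul (g h : GE E) : PG (g * h) = PG g * PG h := by
  have e1 : ((((g * h)⁻¹ : GE E)) : E →L[ℝ] E) =
      ((h⁻¹ : GE E) : E →L[ℝ] E) * ((g⁻¹ : GE E) : E →L[ℝ] E) := by
    rw [mul_inv_rev]
    rfl
  rw [PG, PG, PG, Prod.mk_mul_mk, ← op_mul, e1]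
  rfl

omit [FiniteDimensional ℝ E] in
private theorem pg_one : PG (1 : GE E) = 1 := by
  rw [PG, inv_one]
  rfl

omit [FiniteDimensional ℝ E] in
private theorem pg_inv_mul (g : GE E) : PG g⁻¹ * PG g = 1 := by
  rw [← pg_mul, inv_mul_cancel, pg_one]

omit [FiniteDimensional ℝ E] in
private theorem pg_mul_inv (g : GE E) : PG g * PG g⁻¹ = 1 := by
  rw [← pg_mul, mul_inv_cancel, pg_one]

omit [FiniteDimensional ℝ E] in
private theorem mem_G0O {g : GE E} :
    g ∈ G0O O ↔ PG g ∈ O ∧ PG g⁻¹ ∈ O ∧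
      LinearMap.det ((g : E →L[ℝ] E) : E →ₗ[ℝ] E) = 1 := by
  rw [PG, PG, inv_inv]
  exact Iff.rfl

/-- principal congruence subgroups have finite index -/
theorem congO (h : OX O) (M : ℕ) (hM : M ≠ 0) (K : Subgroup (GE E))
    (hK : ∀ g ∈ G0O O,
      (∃ y ∈ O, (((g : E →L[ℝ] E), op ((g⁻¹ : GE E) : E →L[ℝ] E)) : DE E) - 1 = (M : ℤ) • y) →
      (∃ y ∈ O, ((((g⁻¹ : GE E) : E →L[ℝ] E), op (g : E →L[ℝ] E)) : DE E) - 1 = (M : ℤ) • y) →
      g ∈ K) : K.relIndex (G0O O) ≠ 0 := by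
  classical
  obtain ⟨n, b, hb⟩ := h.ord
  have : NeZero M := ⟨hM⟩
  have hM' : (M : ℝ) ≠ 0 := Nat.cast_ne_zero.2 hM
  let f : (G0O O ⧸ K.subgroupOf (G0O O)) → (Fin n → ZMod M) := fun c p =>
    ((⌊b.repr (PG (c.out : GE E)) p⌋ : ℤ) : ZMod M)
  have hf : Function.Injective f := by
    intro c c' hcc
    have hint : ∀ x ∈ O, ∀ p, b.repr x p = ((⌊b.repr x p⌋ : ℤ) : ℝ) := by
      intro x hx p
      obtain ⟨n, hn⟩ := (b.mem_span_iff_repr_mem ℤ x).1 ((hb x).1 hx) p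
      rw [← hn]
      simp
    have hg := mem_G0O.1 (c.out).2
    have hg' := mem_G0O.1 (c'.out).2
    set g : GE E := (c.out : GE E) with hgdef
    set g' : GE E := (c'.out : GE E) with hgdef'
    obtain ⟨z, hz, hz'⟩ : ∃ z ∈ O, PG g' - PG g = (M : ℤ) • z := by
      refine ⟨(M : ℝ)⁻¹ • (PG g' - PG g), ?_, ?_⟩
      · rw [hb, b.mem_span_iff_repr_mem ℤ]
        intro p
        have e := congrFun hcc p
        have e1 : ((⌊b.repr (PG g') p⌋ - ⌊b.repr (PG g) p⌋ : ℤ) : ZMod M) = 0 := by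
          rw [Int.cast_sub, sub_eq_zero]
          exact e.symm
        rw [ZMod.intCast_zmod_eq_zero_iff_dvd] at e1
        obtain ⟨k, hk⟩ := e1
        refine ⟨k, ?_⟩
        rw [map_smul, map_sub, Finsupp.smul_apply, Finsupp.sub_apply, hint _ hg'.1 p,
          hint _ hg.1 p, ← Int.cast_sub, hk]
        simp only [algebraMap_int_eq, eq_intCast, Int.cast_mul, Int.cast_natCast, smul_eq_mul]
        field_simp
      · rw [← Int.cast_smul_eq_zsmul ℝ, smul_smul, Int.cast_natCast, mul_inv_cancel₀ hM', one_smul]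
    have hmem : g⁻¹ * g' ∈ K := by
      refine hK _ ((G0O O).mul_mem ((G0O O).inv_mem (c.out).2) (c'.out).2)
        ⟨PG g⁻¹ * z, O.mul_mem hg.2.1 hz, ?_⟩ ⟨-(PG g'⁻¹ * z), O.neg_mem (O.mul_mem hg'.2.1 hz), ?_⟩
      · change PG (g⁻¹ * g') - 1 = _
        rw [pg_mul, ← mul_smul_comm, ← hz', mul_sub, pg_inv_mul]
      · have e1 : ((((g⁻¹ * g')⁻¹ : GE E) : E →L[ℝ] E), op ((g⁻¹ * g' : GE E) : E →L[ℝ] E)) =
            PG (g'⁻¹ * g) := by
          have e2 : (g⁻¹ * g')⁻¹ = g'⁻¹ * g := by group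
          have e3 : (g'⁻¹ * g)⁻¹ = g⁻¹ * g' := by group
          rw [PG, e2, e3]
        rw [e1, pg_mul, smul_neg, ← mul_smul_comm, ← hz', mul_sub, pg_inv_mul, neg_sub]
    have e2 : (QuotientGroup.mk c.out : G0O O ⧸ K.subgroupOf (G0O O)) =
        QuotientGroup.mk c'.out := by
      rw [QuotientGroup.eq, Subgroup.mem_subgroupOf]
      exact hmem
    rw [QuotientGroup.out_eq', QuotientGroup.out_eq'] at e2
    exact e2
  have : Finite (G0O O ⧸ K.subgroupOf (G0O O)) := Finite.of_injective f hf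
  exact Subgroup.index_ne_zero_of_finite

theorem cco_conj (h : OX O) {q : GE E} (hq : q ∈ GQO O) {G : Subgroup (GE E)}
    (hG : G ∈ CCO O) : cjG q G ∈ CCO O := by
  have hq' : q⁻¹ ∈ GQO O := gqo_inv hq
  refine ⟨fun g hg => ?_, ?_⟩
  · rw [mem_cjG] at hg
    have h1 := gqo_mul (gqo_mul hq' (hG.1 _ hg)) hq
    have h2 : q⁻¹ * (q * g * q⁻¹) * q = g := by group
    rwa [h2] at h1
  · obtain ⟨⟨M1, hM1, h1⟩, ⟨M2, hM2, h2⟩⟩ := hq
    have h1' : M1 • PG q ∈ O := h1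
    have h2' : M2 • PG q⁻¹ ∈ O := by
      rw [PG, inv_inv]
      exact h2
    have key : (cjG q (G0O O)).relIndex (G0O O) ≠ 0 := by
      refine congO h (M1 * M2).natAbs (Int.natAbs_ne_zero.2 (mul_ne_zero hM1 hM2)) _ ?_
      rintro g hg ⟨z, hz, hz'⟩ ⟨w, hw, hw'⟩
      have hg0 := mem_G0O.1 hg
      rw [mem_cjG, mem_G0O]
      have hgz : PG g = 1 + (((M1 * M2).natAbs : ℕ) : ℤ) • z := by
        rw [← hz']
        change PG g = 1 + (PG g - 1)
        abel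
      have hgw : PG g⁻¹ = 1 + (((M1 * M2).natAbs : ℕ) : ℤ) • w := by
        rw [← hw', PG, inv_inv]
        abel
      have hA : ∀ w : DE E, w ∈ O →
          PG q * (1 + (((M1 * M2).natAbs : ℕ) : ℤ) • w) * PG q⁻¹ ∈ O := by
        intro w hw
        have e : PG q * (1 + (M1 * M2) • w) * PG q⁻¹ =
            1 + (M1 • PG q) * w * (M2 • PG q⁻¹) := by
          rw [mul_add, mul_one, add_mul, pg_mul_inv]
          congr 1
          simp only [mul_smul_comm, smul_mul_assoc, smul_smul]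
          rw [mul_comm M1]
        have e' : PG q * (1 + (-(M1 * M2)) • w) * PG q⁻¹ =
            1 + (M1 • PG q) * (-w) * (M2 • PG q⁻¹) := by
          rw [mul_add, mul_one, add_mul, pg_mul_inv]
          congr 1
          simp only [mul_smul_comm, smul_mul_assoc, smul_smul, mul_neg, neg_mul, smul_neg, neg_smul]
          rw [mul_comm M1]
        rcases Int.natAbs_eq (M1 * M2) with h3 | h3
        · rw [← h3, e]
          exact O.add_mem O.one_mem (O.mul_mem (O.mul_mem h1' hw) h2')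
        · have h4 : (((M1 * M2).natAbs : ℕ) : ℤ) = -(M1 * M2) := by omega
          rw [h4, e']
          exact O.add_mem O.one_mem (O.mul_mem (O.mul_mem h1' (O.neg_mem hw)) h2')
      refine ⟨?_, ?_, ?_⟩
      · rw [pg_mul, pg_mul, hgz]
        exact hA z hz
      · have e3 : (q * g * q⁻¹)⁻¹ = q * g⁻¹ * q⁻¹ := by group
        rw [e3, pg_mul, pg_mul, hgw]
        exact hA w hw
      · have e1 : (((q * g * q⁻¹ : GE E) : E →L[ℝ] E) : E →ₗ[ℝ] E) =
            ((q : E →L[ℝ] E) : E →ₗ[ℝ] E) * ((g : E →L[ℝ] E) : E →ₗ[ℝ] E) *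
              (((q⁻¹ : GE E) : E →L[ℝ] E) : E →ₗ[ℝ] E) := rfl
        have e2 : ((q : E →L[ℝ] E) : E →ₗ[ℝ] E) *
              (((q⁻¹ : GE E) : E →L[ℝ] E) : E →ₗ[ℝ] E) = 1 := by
          apply LinearMap.ext
          intro x
          exact q.apply_symm_apply x
        have e3 := congrArg LinearMap.det e2
        rw [map_mul, map_one] at e3
        rw [e1, map_mul, map_mul, hg0.2.2, mul_one, e3]
    refine Subgroup.relIndex_ne_zero_trans ?_ key
    have hinj : Function.Injective (MulAut.conj q⁻¹).toMonoidHom := (MulAut.conj q⁻¹).injective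
    rw [cjG, cjG, Subgroup.relIndex_map_map_of_injective _ _ hinj]
    exact hG.2

theorem cco_inf {G G' : Subgroup (GE E)} (hG : G ∈ CCO O) (hG' : G' ∈ CCO O) :
    G ⊓ G' ∈ CCO O :=
  ⟨fun g hg => hG.1 g hg.1, Subgroup.relIndex_inf_ne_zero hG.2 hG'.2⟩

theorem cco_pow {G : Subgroup (GE E)} (hG : G ∈ CCO O) :
    ∃ M : ℕ, M ≠ 0 ∧ ∀ g ∈ G0O O, g ^ M ∈ G :=
  ⟨(G.relIndex (G0O O))!, Nat.factorial_ne_zero _, fun _ hg =>
    (Subgroup.pow_mem_of_relIndex_ne_zero_of_dvd hG.2 hg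
      (fun _ h1 h2 => Nat.dvd_factorial h1 h2)).1⟩

private theorem det_te {a : E →L[ℝ] E} (ha : a ∘L a ∘L a = 0) :
    LinearMap.det ((te a : E →L[ℝ] E) : E →ₗ[ℝ] E) = 1 := by
  have h1 : ∀ x, a (a (a x)) = 0 := fun x => by
    simpa using congrArg (fun f => f x) ha
  let N : Module.End ℝ E := -((a : E →ₗ[ℝ] E) + (1 / 2 : ℝ) • ((a : E →ₗ[ℝ] E) * (a : E →ₗ[ℝ] E)))
  have hN : IsNilpotent N := by
    refine ⟨3, ?_⟩
    apply LinearMap.ext
    intro x
    have hNx : ∀ y, N y = -(a y + (1 / 2 : ℝ) • a (a y)) := fun y => rfl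
    rw [pow_succ, pow_two, Module.End.mul_apply, Module.End.mul_apply, hNx, hNx, hNx]
    simp only [map_neg, map_add, map_smul, h1, map_zero, smul_zero, add_zero, neg_zero,
      LinearMap.zero_apply]
  have h2 := LinearMap.eval_charpoly N (1 : ℝ)
  rw [hN.charpoly_eq_X_pow_finrank, Polynomial.eval_pow, Polynomial.eval_X, one_pow] at h2
  rw [h2]
  congr 1
  apply LinearMap.ext
  intro x
  change te a x = (algebraMap ℝ (Module.End ℝ E) 1 - N) x
  rw [te_apply ha, map_one, LinearMap.sub_apply]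
  change x + a x + (1 / 2 : ℝ) • a (a x) = x - -(a x + (1 / 2 : ℝ) • a (a x))
  abel

theorem g0_te (h : OX O) {a : E →L[ℝ] E} (ha : a ∘L a ∘L a = 0) (hr : RR O a (-a)) :
    ∃ M : ℕ, M ≠ 0 ∧ ∀ m : ℤ, (M : ℤ) ∣ m → te ((m : ℝ) • a) ∈ G0O O := by
  obtain ⟨M1, hM1, h1⟩ := rr_ex hr
  have hs : RR O (((1 / 2 : ℚ) : ℝ) • (a * a)) (((1 / 2 : ℚ) : ℝ) • (a * a)) := by
    have h3 := rr_rat (rr_mul hr hr) (1 / 2)
    rwa [neg_mul_neg] at h3
  obtain ⟨M2, hM2, h2⟩ := rr_ex hs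
  have key : ∀ m : ℤ, ((M1 * M2 : ℕ) : ℤ) ∣ m → PG (te ((m : ℝ) • a)) ∈ O := by
    intro m hm
    have hm1 : (M1 : ℤ) ∣ m := (Dvd.intro _ (by push_cast; rfl)).trans hm
    have hm2 : (M2 : ℤ) ∣ m * m :=
      ((Dvd.intro_left _ (by push_cast; rfl)).trans hm).trans (Dvd.intro _ rfl)
    have h3 := O.add_mem (O.add_mem O.one_mem (h1 m hm1)) (h2 _ hm2)
    have hc := te_smul_cube ha (m : ℝ)
    have e : PG (te ((m : ℝ) • a)) = 1 + (((m : ℝ) • a, op ((m : ℝ) • (-a))) : DE E) +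
        (((((m * m : ℤ) : ℝ)) • (((1 / 2 : ℚ) : ℝ) • (a * a)),
          op ((((m * m : ℤ) : ℝ)) • (((1 / 2 : ℚ) : ℝ) • (a * a)))) : DE E) := by
      refine Prod.ext ?_ ?_
      · change ((te ((m : ℝ) • a) : GE E) : E →L[ℝ] E) = 1 + (m : ℝ) • a +
          (((m * m : ℤ) : ℝ)) • (((1 / 2 : ℚ) : ℝ) • (a * a))
        ext1 x
        change te ((m : ℝ) • a) x = x + (m : ℝ) • a x +
          (((m * m : ℤ) : ℝ)) • (((1 / 2 : ℚ) : ℝ) • (a (a x)))
        rw [te_apply hc]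
        simp only [smul_apply, map_smul, smul_smul]
        push_cast
        congr 2
        ring
      · apply unop_injective
        change (((te ((m : ℝ) • a))⁻¹ : GE E) : E →L[ℝ] E) = 1 + (m : ℝ) • (-a) +
          (((m * m : ℤ) : ℝ)) • (((1 / 2 : ℚ) : ℝ) • (a * a))
        ext1 x
        change (te ((m : ℝ) • a))⁻¹ x = x + (m : ℝ) • (-(a x)) +
          (((m * m : ℤ) : ℝ)) • (((1 / 2 : ℚ) : ℝ) • (a (a x)))
        rw [te_inv_apply hc]
        simp only [smul_apply, map_smul, smul_smul, smul_neg, sub_eq_add_neg]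
        push_cast
        congr 2
        ring
    rw [e]
    exact h3
  refine ⟨M1 * M2, mul_ne_zero hM1 hM2, fun m hm => ?_⟩
  have hc := te_smul_cube ha (m : ℝ)
  refine mem_G0O.2 ⟨key m hm, ?_, det_te hc⟩
  have h3 := key (-m) ((dvd_neg).2 hm)
  rw [← te_neg hc]
  have e : ((-m : ℤ) : ℝ) • a = -((m : ℝ) • a) := by
    rw [Int.cast_neg, neg_smul]
  rwa [e] at h3

theorem cco_te (h : OX O) {G : Subgroup (GE E)} (hG : G ∈ CCO O) {a : E →L[ℝ] E}
    (ha : a ∘L a ∘L a = 0) (hr : RR O a (-a)) :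
    ∃ M : ℕ, M ≠ 0 ∧ ∀ m : ℤ, (M : ℤ) ∣ m → te ((m : ℝ) • a) ∈ G := by
  obtain ⟨M1, hM1, h1⟩ := g0_te h ha hr
  obtain ⟨M2, hM2, h2⟩ := cco_pow hG
  refine ⟨M1 * M2, mul_ne_zero hM1 hM2, fun m hm => ?_⟩
  obtain ⟨k, rfl⟩ := hm
  have h3 := h2 _ (h1 ((M1 : ℤ) * k) (Dvd.intro _ rfl))
  rw [← te_nat (te_smul_cube ha _), smul_smul] at h3
  have e : (((M1 * M2 : ℕ) : ℤ) * k : ℤ) = (M2 : ℤ) * ((M1 : ℤ) * k) := by
    push_cast
    ring
  have e' : ((((M1 * M2 : ℕ) : ℤ) * k : ℤ) : ℝ) = (M2 : ℝ) * (((M1 : ℤ) * k : ℤ) : ℝ) := by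
    rw [e, Int.cast_mul, Int.cast_natCast]
  rw [e']
  exact h3

end
end LatLin
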