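import Pool.Agent.Lib.MP_2392aa_gt.O.IdemO
import Pool.Agent.Lib.MP_2392aa_gt.O.ComO
import Pool.Agent.Lib.MP_2392aa_gt.L.ArDef
import Pool.Agent.Lib.MP_2392aa_gt.L.ArBas

/-!
MP_2392aa_gt, formal linearization, outer type, module UnipO (about 450 lines): from orders of
matrices with a nontrivial unipotent element to the data `OD` on Euclidean space.

DEFINITIONS. `opO O'`: the subring of `DE (En ν)` of all `(om a, op (om a'))` with `(a, op a') ∈ O'`. `cjO L O`: the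
subring of all `(L a L⁻¹, op (L a' L⁻¹))` with `(a, op a') ∈ O` (`L ∈ GE E`).
PROOFS. `om` is a ring isomorphism, linear (`Matrix.toEuclideanCLM`), so `ox_op`, `cco_op`: for `G1 ≤ unitO O'` of
finite relative index: `slG` is injective, `(unitO O').map (slG ν) = G0O (opO O')`
(`det (om a) = det a`; `(slG g)⁻¹ = om g⁻¹`; an element of `G0O (opO O')` is `om` of a matrix of determinant
one), `Subgroup.relIndex_map_map_of_injective`; elements of `G0O` are in `GQO` (`g0o_gqo`).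
`ox_cj`: conjugation `(a, op a') ↦ (L a L⁻¹, op (L a' L⁻¹))` is a linear ring automorphism of `DE E`; it maps
scalars to scalars and commutes with the exchange. `cco_cj`: `cjG L⁻¹ G = L G L⁻¹`; determinants are
invariant under conjugation; `G0O (cjO L O) = cjG L⁻¹ (G0O O)`, `GQO (cjO L O) = L (GQO O) L⁻¹`; relative
index is invariant under an automorphism.
`orth_ex`: idempotents `e, e'` with `e e' = e' e = 0`. `E = V ⊕ V' ⊕ N`, `V = range e`, `V' = range e'`,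
`N = range (1 - e - e')` (direct sum). Choose an orthonormal basis `(b i)` of `E` indexed by
`Fin d ⊕ Fin d' ⊕ Fin m`, `d, d', m` the dimensions, and `L` := the linear isomorphism which maps a basis of
`V` to the first group, of `V'` to the second, of `N` to the third. Then `L e L⁻¹` is the orthogonal
projection onto the span of the first group, `L e' L⁻¹` that onto the span of the second group.
(Alternatively: `S := e† e + e'† e' + f† f` is positive definite, `L := S ^ (1/2)`.)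
`unip_O`. `O0 := opO O'`, `x := g.1 - g⁻¹.1`, the pair `(om x, op (om (-x)))` is in `O0` (difference of
`(g, op g⁻¹)` and `(g⁻¹, op g)`). `x = (g - 1) (1 + g⁻¹)` is nilpotent (the factors commute) and not zero:
`g⁻¹` is unipotent, so `1 + g⁻¹ = 2 + (g⁻¹ - 1)` is invertible, and `g ≠ 1`. Let `s ≥ 1` be maximal with
`x ^ s ≠ 0`, `y := om (x ^ s)`: `y y = 0` (`2 s ≥ s + 1`), second component `(± 1) y` (power of the pair), so
`idem_ex` applies: `e, e'`. `orth_ex`: `L`. `O := cjO L O0`, with `L e L⁻¹`, `L e' L⁻¹`: `OD` (`RR` and the division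
property are transported by the conjugation).
-/

open scoped ContDiff Topology
open MulOpposite
open LatN (En DM OutO unitO)

namespace LatLin

section
variable {ν : Type*} [Fintype ν] [DecidableEq ν]

/-- the ring of operators of an order of matrices -/
noncomputable def opO (O' : Subring (DM ν)) : Subring (DE (En ν)) where
  carrier := {x | ∃ y ∈ O', x = (om y.1, op (om (unop y.2)))}
  mul_mem' := by
    rintro _ _ ⟨y, hy, rfl⟩ ⟨z, hz, rfl⟩
    refine ⟨y * z, O'.mul_mem hy hz, ?_⟩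
    rw [Prod.mk_mul_mk, ← op_mul]
    change _ = (om (y.1 * z.1), op (om (unop (y.2 * z.2))))
    rw [unop_mul, om, om, om, om, om, om, map_mul, map_mul]
  one_mem' := ⟨1, O'.one_mem, by
    change _ = (om (1 : Matrix ν ν ℝ), op (om (1 : Matrix ν ν ℝ)))
    rw [om, map_one]
    rfl⟩
  add_mem' := by
    rintro _ _ ⟨y, hy, rfl⟩ ⟨z, hz, rfl⟩
    refine ⟨y + z, O'.add_mem hy hz, ?_⟩
    rw [Prod.mk_add_mk, ← op_add]
    change _ = (om (y.1 + z.1), op (om (unop (y.2 + z.2))))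
    rw [unop_add, om, om, om, om, om, om, map_add, map_add]
  zero_mem' := ⟨0, O'.zero_mem, by
    change _ = (om (0 : Matrix ν ν ℝ), op (om (0 : Matrix ν ν ℝ)))
    rw [om, map_zero]
    rfl⟩
  neg_mem' := by
    rintro _ ⟨y, hy, rfl⟩
    refine ⟨-y, O'.neg_mem hy, ?_⟩
    change (-om y.1, -op (om (unop y.2))) = (om (-y.1), op (om (unop (-y.2))))
    rw [unop_neg, om, om, om, om, map_neg, map_neg]
    rfl

end

section
variable {E : Type*} [NormedAddCommGroup E] [InnerProductSpace ℝ E]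

/-- conjugation of a ring of pairs by an invertible operator -/
noncomputable def cjO (L : GE E) (O : Subring (DE E)) : Subring (DE E) where
  carrier := {x | ((((L⁻¹ : GE E) : E →L[ℝ] E) * x.1 * (L : E →L[ℝ] E),
    op (((L⁻¹ : GE E) : E →L[ℝ] E) * unop x.2 * (L : E →L[ℝ] E))) : DE E) ∈ O}
  mul_mem' := by
    intro x y hx hy
    have h := O.mul_mem hx hy
    have hL : ∀ a c : E →L[ℝ] E, (((L⁻¹ : GE E) : E →L[ℝ] E) * a * (L : E →L[ℝ] E)) *
        (((L⁻¹ : GE E) : E →L[ℝ] E) * c * (L : E →L[ℝ] E)) =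
        ((L⁻¹ : GE E) : E →L[ℝ] E) * (a * c) * (L : E →L[ℝ] E) := by
      intro a c
      ext v
      change (L⁻¹ : GE E) (a (L ((L⁻¹ : GE E) (c (L v))))) = (L⁻¹ : GE E) (a (c (L v)))
      congr 2
      exact L.apply_symm_apply _
    rw [Prod.mk_mul_mk, ← op_mul, hL, hL] at h
    exact h
  one_mem' := by
    have h1 : ((L⁻¹ : GE E) : E →L[ℝ] E) * 1 * (L : E →L[ℝ] E) = 1 := by
      ext v
      exact L.symm_apply_apply v
    change ((((L⁻¹ : GE E) : E →L[ℝ] E) * 1 * (L : E →L[ℝ] E),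
      op (((L⁻¹ : GE E) : E →L[ℝ] E) * 1 * (L : E →L[ℝ] E))) : DE E) ∈ O
    rw [h1]
    exact O.one_mem
  add_mem' := by
    intro x y hx hy
    have h := O.add_mem hx hy
    rw [Prod.mk_add_mk, ← op_add, ← add_mul, ← mul_add, ← add_mul, ← mul_add] at h
    exact h
  zero_mem' := by
    change ((((L⁻¹ : GE E) : E →L[ℝ] E) * 0 * (L : E →L[ℝ] E),
      op (((L⁻¹ : GE E) : E →L[ℝ] E) * 0 * (L : E →L[ℝ] E))) : DE E) ∈ O
    rw [mul_zero, zero_mul]
    exact O.zero_mem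
  neg_mem' := by
    intro x hx
    have h := O.neg_mem hx
    have e1 : (-((((L⁻¹ : GE E) : E →L[ℝ] E) * x.1 * (L : E →L[ℝ] E),
      op (((L⁻¹ : GE E) : E →L[ℝ] E) * unop x.2 * (L : E →L[ℝ] E))) : DE E)) =
      ((((L⁻¹ : GE E) : E →L[ℝ] E) * (-x).1 * (L : E →L[ℝ] E),
      op (((L⁻¹ : GE E) : E →L[ℝ] E) * unop (-x).2 * (L : E →L[ℝ] E))) : DE E) := by
      ext1
      · change -(((L⁻¹ : GE E) : E →L[ℝ] E) * x.1 * (L : E →L[ℝ] E)) =
          ((L⁻¹ : GE E) : E →L[ℝ] E) * (-x.1) * (L : E →L[ℝ] E)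
        rw [mul_neg, neg_mul]
      · apply unop_injective
        change -(((L⁻¹ : GE E) : E →L[ℝ] E) * unop x.2 * (L : E →L[ℝ] E)) =
          ((L⁻¹ : GE E) : E →L[ℝ] E) * (-unop x.2) * (L : E →L[ℝ] E)
        rw [mul_neg, neg_mul]
    rw [e1] at h
    exact h

private theorem cl_li (L : GE E) : ((L⁻¹ : GE E) : E →L[ℝ] E) * (L : E →L[ℝ] E) = 1 := by
  ext v
  exact L.symm_apply_apply v

private theorem cl_il (L : GE E) : (L : E →L[ℝ] E) * ((L⁻¹ : GE E) : E →L[ℝ] E) = 1 := by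
  ext v
  exact L.apply_symm_apply v

private theorem cl_1 (L : GE E) (a : E →L[ℝ] E) : (L : E →L[ℝ] E) *
    (((L⁻¹ : GE E) : E →L[ℝ] E) * a * (L : E →L[ℝ] E)) * ((L⁻¹ : GE E) : E →L[ℝ] E) = a := by
  calc _ = ((L : E →L[ℝ] E) * ((L⁻¹ : GE E) : E →L[ℝ] E)) * a *
        ((L : E →L[ℝ] E) * ((L⁻¹ : GE E) : E →L[ℝ] E)) := by simp only [mul_assoc]
    _ = a := by rw [cl_il, one_mul, mul_one]

private theorem cl_2 (L : GE E) (a : E →L[ℝ] E) : ((L⁻¹ : GE E) : E →L[ℝ] E) *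
    ((L : E →L[ℝ] E) * a * ((L⁻¹ : GE E) : E →L[ℝ] E)) * (L : E →L[ℝ] E) = a := by
  calc _ = (((L⁻¹ : GE E) : E →L[ℝ] E) * (L : E →L[ℝ] E)) * a *
        (((L⁻¹ : GE E) : E →L[ℝ] E) * (L : E →L[ℝ] E)) := by simp only [mul_assoc]
    _ = a := by rw [cl_li, one_mul, mul_one]

private theorem cl_mul (L : GE E) (a c : E →L[ℝ] E) : ((L : E →L[ℝ] E) * a *
    ((L⁻¹ : GE E) : E →L[ℝ] E)) * ((L : E →L[ℝ] E) * c * ((L⁻¹ : GE E) : E →L[ℝ] E)) =
      (L : E →L[ℝ] E) * (a * c) * ((L⁻¹ : GE E) : E →L[ℝ] E) := by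
  calc _ = (L : E →L[ℝ] E) * a * (((L⁻¹ : GE E) : E →L[ℝ] E) * (L : E →L[ℝ] E)) * c *
        ((L⁻¹ : GE E) : E →L[ℝ] E) := by simp only [mul_assoc]
    _ = _ := by rw [cl_li, mul_one]; simp only [mul_assoc]

private theorem cl_mul' (L : GE E) (a c : E →L[ℝ] E) : (((L⁻¹ : GE E) : E →L[ℝ] E) * a *
    (L : E →L[ℝ] E)) * (((L⁻¹ : GE E) : E →L[ℝ] E) * c * (L : E →L[ℝ] E)) =
      ((L⁻¹ : GE E) : E →L[ℝ] E) * (a * c) * (L : E →L[ℝ] E) := by
  calc _ = ((L⁻¹ : GE E) : E →L[ℝ] E) * a * ((L : E →L[ℝ] E) * ((L⁻¹ : GE E) : E →L[ℝ] E)) * c *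
        (L : E →L[ℝ] E) := by simp only [mul_assoc]
    _ = _ := by rw [cl_il, mul_one]; simp only [mul_assoc]

/-- the conjugation of pairs -/
private noncomputable def cjE (L : GE E) : DE E ≃ₗ[ℝ] DE E where
  toFun x := (((L⁻¹ : GE E) : E →L[ℝ] E) * x.1 * (L : E →L[ℝ] E),
    op (((L⁻¹ : GE E) : E →L[ℝ] E) * unop x.2 * (L : E →L[ℝ] E)))
  invFun x := ((L : E →L[ℝ] E) * x.1 * ((L⁻¹ : GE E) : E →L[ℝ] E),
    op ((L : E →L[ℝ] E) * unop x.2 * ((L⁻¹ : GE E) : E →L[ℝ] E)))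
  map_add' x y := by
    refine Prod.ext ?_ ?_
    · change ((L⁻¹ : GE E) : E →L[ℝ] E) * (x.1 + y.1) * (L : E →L[ℝ] E) = _ + _
      rw [mul_add, add_mul]
    · apply unop_injective
      change ((L⁻¹ : GE E) : E →L[ℝ] E) * (unop x.2 + unop y.2) * (L : E →L[ℝ] E) = _ + _
      rw [mul_add, add_mul]
      rfl
  map_smul' c x := by
    refine Prod.ext ?_ ?_
    · change ((L⁻¹ : GE E) : E →L[ℝ] E) * (c • x.1) * (L : E →L[ℝ] E) = c • _
      rw [mul_smul_comm, smul_mul_assoc]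
    · apply unop_injective
      change ((L⁻¹ : GE E) : E →L[ℝ] E) * (c • unop x.2) * (L : E →L[ℝ] E) = c • _
      rw [mul_smul_comm, smul_mul_assoc]
      rfl
  left_inv x := Prod.ext (cl_1 L x.1) (unop_injective (cl_1 L (unop x.2)))
  right_inv x := Prod.ext (cl_2 L x.1) (unop_injective (cl_2 L (unop x.2)))

private theorem mem_cjO {L : GE E} {O : Subring (DE E)} {x : DE E} :
    x ∈ cjO L O ↔ cjE L x ∈ O := Iff.rfl

theorem ox_cj [FiniteDimensional ℝ E] {O : Subring (DE E)} (h : OX O) (L : GE E) :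
    OX (cjO L O) := by
  refine ⟨?_, ?_, ?_⟩
  · obtain ⟨n, b, hb⟩ := h.ord
    refine ⟨n, b.map (cjE L).symm, fun x => ?_⟩
    rw [mem_cjO, hb, b.mem_span_iff_repr_mem ℤ, (b.map (cjE L).symm).mem_span_iff_repr_mem ℤ]
    rfl
  · obtain ⟨D, hD, h1⟩ := h.sqrt
    refine ⟨D, hD, ?_⟩
    rw [mem_cjO]
    convert h1 using 1
    refine Prod.ext ?_ ?_
    · change ((L⁻¹ : GE E) : E →L[ℝ] E) * (Real.sqrt D • (1 : E →L[ℝ] E)) * (L : E →L[ℝ] E) = _
      rw [mul_smul_comm, mul_one, smul_mul_assoc, cl_li]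
    · apply unop_injective
      change ((L⁻¹ : GE E) : E →L[ℝ] E) * (-(Real.sqrt D • (1 : E →L[ℝ] E))) *
        (L : E →L[ℝ] E) = -(Real.sqrt D • (1 : E →L[ℝ] E))
      rw [mul_neg, neg_mul, mul_smul_comm, mul_one, smul_mul_assoc, cl_li]
  · obtain ⟨N, hN, h1⟩ := h.swap
    refine ⟨N, hN, fun x hx => ?_⟩
    rw [mem_cjO] at hx ⊢
    have h2 := h1 _ hx
    convert h2 using 1
    rw [map_zsmul]
    rfl

theorem rr_cj {O : Subring (DE E)} (L : GE E) {a a' : E →L[ℝ] E} :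
    RR (cjO L O) a a' ↔ RR O (((L⁻¹ : GE E) : E →L[ℝ] E) * a * (L : E →L[ℝ] E))
      (((L⁻¹ : GE E) : E →L[ℝ] E) * a' * (L : E →L[ℝ] E)) := by
  have key : ∀ M : ℤ, (M • ((a, op a') : DE E) ∈ cjO L O ↔
      M • ((((L⁻¹ : GE E) : E →L[ℝ] E) * a * (L : E →L[ℝ] E),
        op (((L⁻¹ : GE E) : E →L[ℝ] E) * a' * (L : E →L[ℝ] E))) : DE E) ∈ O) := by
    intro M
    rw [mem_cjO, map_zsmul]
    rfl
  constructor
  · rintro ⟨M, hM, h1⟩
    exact ⟨M, hM, (key M).1 h1⟩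
  · rintro ⟨M, hM, h1⟩
    exact ⟨M, hM, (key M).2 h1⟩

private theorem cl_conj (L g : GE E) : ((L⁻¹ * g * L⁻¹⁻¹ : GE E) : E →L[ℝ] E) =
    ((L⁻¹ : GE E) : E →L[ℝ] E) * (g : E →L[ℝ] E) * (L : E →L[ℝ] E) := by
  rw [inv_inv]
  rfl

private theorem cl_conj_inv (L g : GE E) : (((L⁻¹ * g * L⁻¹⁻¹)⁻¹ : GE E) : E →L[ℝ] E) =
    ((L⁻¹ : GE E) : E →L[ℝ] E) * ((g⁻¹ : GE E) : E →L[ℝ] E) * (L : E →L[ℝ] E) := by
  have e : (L⁻¹ * g * L⁻¹⁻¹)⁻¹ = L⁻¹ * g⁻¹ * L⁻¹⁻¹ := by group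
  rw [e, cl_conj]

private theorem g0_cj [FiniteDimensional ℝ E] (O : Subring (DE E)) (L : GE E) :
    G0O (cjO L O) = cjG L⁻¹ (G0O O) := by
  ext g
  rw [mem_cjG]
  have hdet : LinearMap.det (((L⁻¹ * g * L⁻¹⁻¹ : GE E) : E →L[ℝ] E) : E →ₗ[ℝ] E) =
      LinearMap.det ((g : E →L[ℝ] E) : E →ₗ[ℝ] E) := by
    have e1 : (((L⁻¹ * g * L⁻¹⁻¹ : GE E) : E →L[ℝ] E) : E →ₗ[ℝ] E) =
        (((L⁻¹ : GE E) : E →L[ℝ] E) : E →ₗ[ℝ] E) * ((g : E →L[ℝ] E) : E →ₗ[ℝ] E) *
          ((L : E →L[ℝ] E) : E →ₗ[ℝ] E) := by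
      rw [cl_conj]
      rfl
    have e2 : (((L⁻¹ : GE E) : E →L[ℝ] E) : E →ₗ[ℝ] E) *
        ((L : E →L[ℝ] E) : E →ₗ[ℝ] E) = 1 := by
      apply LinearMap.ext
      intro x
      exact L.symm_apply_apply x
    have e3 := congrArg LinearMap.det e2
    rw [map_mul, map_one] at e3
    rw [e1, map_mul, map_mul, mul_right_comm, e3, one_mul]
  constructor
  · rintro ⟨h1, h2, h3⟩
    refine ⟨?_, ?_, ?_⟩
    · rw [cl_conj, cl_conj_inv]
      exact h1
    · rw [cl_conj, cl_conj_inv]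
      exact h2
    · rw [hdet]
      exact h3
  · rintro ⟨h1, h2, h3⟩
    rw [cl_conj, cl_conj_inv] at h1 h2
    rw [hdet] at h3
    exact ⟨h1, h2, h3⟩

theorem cco_cj [FiniteDimensional ℝ E] {O : Subring (DE E)} (L : GE E) {G : Subgroup (GE E)}
    (hG : G ∈ CCO O) : cjG L⁻¹ G ∈ CCO (cjO L O) := by
  refine ⟨fun g hg => ?_, ?_⟩
  · rw [mem_cjG] at hg
    obtain ⟨h1, h2⟩ := hG.1 _ hg
    rw [cl_conj, cl_conj_inv] at h1 h2
    exact ⟨(rr_cj L).2 h1, (rr_cj L).2 h2⟩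
  · rw [g0_cj]
    have hinj : Function.Injective (MulAut.conj (L⁻¹)⁻¹).toMonoidHom :=
      (MulAut.conj (L⁻¹)⁻¹).injective
    rw [cjG, cjG, Subgroup.relIndex_map_map_of_injective _ _ hinj]
    exact hG.2

/-- a positive definite form given by three operators is the pull back of the inner product -/
private theorem gram_ex [FiniteDimensional ℝ E] (T : Fin 3 → (E →L[ℝ] E))
    (hT : ∀ x, (∀ i, T i x = 0) → x = 0) :
    ∃ L : GE E, ∀ x y, (inner ℝ (L x) (L y) : ℝ) = ∑ i, inner ℝ (T i x) (T i y) := by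
  let F : E →ₗ[ℝ] PiLp 2 (fun _ : Fin 3 => E) :=
    { toFun := fun x => WithLp.toLp 2 fun i => T i x
      map_add' := fun x y => by
        ext i
        simp
      map_smul' := fun c x => by
        ext i
        simp }
  have hF : Function.Injective F := by
    rw [← LinearMap.ker_eq_bot, LinearMap.ker_eq_bot']
    intro x hx
    refine hT x fun i => ?_
    exact congrArg (fun w : PiLp 2 (fun _ : Fin 3 => E) => w i) hx
  let e1 : E ≃ₗ[ℝ] LinearMap.range F := LinearEquiv.ofInjective F hF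
  have hfr : Module.finrank ℝ (LinearMap.range F) = Module.finrank ℝ E := e1.finrank_eq.symm
  let e2 : LinearMap.range F ≃ₗᵢ[ℝ] E :=
    (stdOrthonormalBasis ℝ (LinearMap.range F)).equiv (stdOrthonormalBasis ℝ E) (finCongr hfr)
  refine ⟨(e1.trans e2.toLinearEquiv).toContinuousLinearEquiv, fun x y => ?_⟩
  change (inner ℝ (e2 (e1 x)) (e2 (e1 y)) : ℝ) = _
  rw [e2.inner_map_map]
  change (inner ℝ (F x) (F y) : ℝ) = _
  rw [PiLp.inner_apply]
  rfl

theorem orth_ex [FiniteDimensional ℝ E] {e e' : E →L[ℝ] E} (h1 : e * e = e) (h2 : e' * e' = e')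
    (h3 : e * e' = 0) (h4 : e' * e = 0) :
    ∃ L : GE E, PP ((L : E →L[ℝ] E) * e * ((L⁻¹ : GE E) : E →L[ℝ] E))
      ((L : E →L[ℝ] E) * e' * ((L⁻¹ : GE E) : E →L[ℝ] E)) := by
  have h1' : ∀ x, e (e x) = e x := fun x => congrArg (fun f => f x) h1
  have h2' : ∀ x, e' (e' x) = e' x := fun x => congrArg (fun f => f x) h2
  have h3' : ∀ x, e (e' x) = 0 := fun x => congrArg (fun f => f x) h3
  have h4' : ∀ x, e' (e x) = 0 := fun x => congrArg (fun f => f x) h4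
  obtain ⟨L, hL⟩ := gram_ex ![e, e', 1 - e - e'] (by
    intro x hx
    have a0 : e x = 0 := hx 0
    have a1 : e' x = 0 := hx 1
    have a2 : x - e x - e' x = 0 := hx 2
    rwa [a0, a1, sub_zero, sub_zero] at a2)
  have hL' : ∀ x y, (inner ℝ (L x) (L y) : ℝ) = inner ℝ (e x) (e y) + inner ℝ (e' x) (e' y) +
      inner ℝ (x - e x - e' x) (y - e y - e' y) := by
    intro x y
    rw [hL, Fin.sum_univ_three]
    rfl
  have hLL : ∀ x, L ((L⁻¹ : GE E) x) = x := fun x => L.apply_symm_apply x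
  have hLL' : ∀ x, (L⁻¹ : GE E) (L x) = x := fun x => L.symm_apply_apply x
  have hs : ∀ x y, (inner ℝ (L (e ((L⁻¹ : GE E) x))) y : ℝ) =
      inner ℝ x (L (e ((L⁻¹ : GE E) y))) := by
    intro x y
    conv_lhs => rw [← hLL y]
    conv_rhs => rw [← hLL x]
    rw [hL', hL', h1', h1', h4', h4']
    simp
  have hs' : ∀ x y, (inner ℝ (L (e' ((L⁻¹ : GE E) x))) y : ℝ) =
      inner ℝ x (L (e' ((L⁻¹ : GE E) y))) := by
    intro x y
    conv_lhs => rw [← hLL y]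
    conv_rhs => rw [← hLL x]
    rw [hL', hL', h2', h2', h3', h3']
    simp
  refine ⟨L, ⟨fun x => ?_, hs⟩, ⟨fun x => ?_, hs'⟩, fun x => ?_, fun x => ?_⟩
  · change L (e ((L⁻¹ : GE E) (L (e ((L⁻¹ : GE E) x))))) = L (e ((L⁻¹ : GE E) x))
    rw [hLL', h1']
  · change L (e' ((L⁻¹ : GE E) (L (e' ((L⁻¹ : GE E) x))))) = L (e' ((L⁻¹ : GE E) x))
    rw [hLL', h2']
  · change L (e ((L⁻¹ : GE E) (L (e' ((L⁻¹ : GE E) x))))) = 0
    rw [hLL', h3', map_zero]
  · change L (e' ((L⁻¹ : GE E) (L (e ((L⁻¹ : GE E) x))))) = 0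
    rw [hLL', h4', map_zero]

end

section
variable {ν : Type*} [Fintype ν] [DecidableEq ν] {O' : Subring (DM ν)}

/-- pairs of matrices as pairs of operators -/
private noncomputable def omE (ν : Type*) [Fintype ν] [DecidableEq ν] :
    DM ν ≃ₗ[ℝ] DE (En ν) where
  toFun x := (om x.1, op (om (unop x.2)))
  invFun x := (mt x.1, op (mt (unop x.2)))
  map_add' x y := by
    refine Prod.ext ?_ ?_
    · exact map_add (Matrix.toEuclideanCLM (n := ν) (𝕜 := ℝ)) _ _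
    · apply unop_injective
      exact map_add (Matrix.toEuclideanCLM (n := ν) (𝕜 := ℝ)) _ _
  map_smul' c x := by
    refine Prod.ext ?_ ?_
    · exact map_smul (Matrix.toEuclideanCLM (n := ν) (𝕜 := ℝ)) _ _
    · apply unop_injective
      exact map_smul (Matrix.toEuclideanCLM (n := ν) (𝕜 := ℝ)) _ _
  left_inv x := Prod.ext (mt_om x.1) (unop_injective (mt_om (unop x.2)))
  right_inv x := Prod.ext (om_mt x.1) (unop_injective (om_mt (unop x.2)))

private theorem mem_opO {x : DE (En ν)} : x ∈ opO O' ↔ (omE ν).symm x ∈ O' := by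
  constructor
  · rintro ⟨y, hy, rfl⟩
    have e : (omE ν).symm (om y.1, op (om (unop y.2))) = y := (omE ν).symm_apply_apply y
    rw [e]
    exact hy
  · intro h
    exact ⟨_, h, ((omE ν).apply_symm_apply x).symm⟩

private theorem omE_mem {y : DM ν} (hy : y ∈ O') : omE ν y ∈ opO O' := ⟨y, hy, rfl⟩

private theorem om_scal (c : ℝ) : om (c • (1 : Matrix ν ν ℝ)) = c • (1 : En ν →L[ℝ] En ν) := by
  have e1 : om (c • (1 : Matrix ν ν ℝ)) = c • om (1 : Matrix ν ν ℝ) :=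
    map_smul (Matrix.toEuclideanCLM (n := ν) (𝕜 := ℝ)) _ _
  have e2 : om (1 : Matrix ν ν ℝ) = 1 := map_one (Matrix.toEuclideanCLM (n := ν) (𝕜 := ℝ))
  rw [e1, e2]

private theorem om_ng (a : Matrix ν ν ℝ) : om (-a) = -om a :=
  map_neg (Matrix.toEuclideanCLM (n := ν) (𝕜 := ℝ)) _

theorem ox_op (h : OutO ν O') : OX (opO O') := by
  refine ⟨?_, ?_, ?_⟩
  · obtain ⟨b, hb⟩ := h.ord
    refine ⟨_, (b.reindex (Fintype.equivFin _)).map (omE ν), fun x => ?_⟩
    rw [mem_opO, hb, b.mem_span_iff_repr_mem ℤ, Module.Basis.mem_span_iff_repr_mem ℤ]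
    constructor
    · intro h1 i
      exact h1 _
    · intro h1 i
      have h2 := h1 (Fintype.equivFin _ i)
      simpa using h2
  · obtain ⟨D, hD, h1⟩ := h.sqrt
    refine ⟨D, hD, ?_⟩
    have h2 := omE_mem h1
    convert h2 using 1
    refine Prod.ext ?_ ?_
    · exact (om_scal _).symm
    · apply unop_injective
      change -(Real.sqrt D • (1 : En ν →L[ℝ] En ν)) = om (-(Real.sqrt D • (1 : Matrix ν ν ℝ)))
      rw [om_ng, om_scal]
  · obtain ⟨N, hN, h1⟩ := h.swap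
    refine ⟨N, hN, fun x hx => ?_⟩
    rw [mem_opO] at hx ⊢
    have h2 := h1 _ hx
    rw [map_zsmul]
    exact h2

private theorem slG_coe (g : Matrix.SpecialLinearGroup ν ℝ) :
    ((slG ν g : GE (En ν)) : En ν →L[ℝ] En ν) = om g.1 := rfl

private theorem slG_inv_coe (g : Matrix.SpecialLinearGroup ν ℝ) :
    (((slG ν g)⁻¹ : GE (En ν)) : En ν →L[ℝ] En ν) = om g⁻¹.1 := rfl

private theorem slG_inj : Function.Injective (slG ν) := by
  intro g g' h
  have h1 : om g.1 = om g'.1 := by rw [← slG_coe, h, slG_coe]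
  have h2 := congrArg mt h1
  rw [mt_om, mt_om] at h2
  exact Subtype.ext h2

private theorem om_det (A : Matrix ν ν ℝ) :
    LinearMap.det ((om A : En ν →L[ℝ] En ν) : En ν →ₗ[ℝ] En ν) = A.det := by
  rw [om, Matrix.coe_toEuclideanCLM_eq_toEuclideanLin]
  exact LinearMap.det_toLpLin 2 A

private theorem g0_op : (unitO O').map (slG ν) = G0O (opO O') := by
  ext g
  constructor
  · rintro ⟨x, ⟨h1, h2⟩, rfl⟩
    have k1 : (((slG ν x : GE (En ν)) : En ν →L[ℝ] En ν),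
        op (((slG ν x)⁻¹ : GE (En ν)) : En ν →L[ℝ] En ν)) ∈ opO O' := by
      rw [slG_coe, slG_inv_coe]
      exact ⟨_, h1, rfl⟩
    have k2 : ((((slG ν x)⁻¹ : GE (En ν)) : En ν →L[ℝ] En ν),
        op ((slG ν x : GE (En ν)) : En ν →L[ℝ] En ν)) ∈ opO O' := by
      rw [slG_coe, slG_inv_coe]
      exact ⟨_, h2, rfl⟩
    have k3 : LinearMap.det ((((slG ν x : GE (En ν)) : En ν →L[ℝ] En ν)) : En ν →ₗ[ℝ] En ν) = 1 := by
      rw [slG_coe, om_det]
      exact x.2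
    exact ⟨k1, k2, k3⟩
  · rintro ⟨h1, h2, h3⟩
    obtain ⟨y, hy, hy'⟩ := h1
    obtain ⟨z, hz, hz'⟩ := h2
    have e1 : (g : En ν →L[ℝ] En ν) = om y.1 := congrArg Prod.fst hy'
    have e2 : ((g⁻¹ : GE (En ν)) : En ν →L[ℝ] En ν) = om (unop y.2) :=
      congrArg (fun w => unop (Prod.snd w)) hy'
    have e3 : ((g⁻¹ : GE (En ν)) : En ν →L[ℝ] En ν) = om z.1 := congrArg Prod.fst hz'
    have e4 : (g : En ν →L[ℝ] En ν) = om (unop z.2) :=
      congrArg (fun w => unop (Prod.snd w)) hz'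
    have hd : y.1.det = 1 := by
      rw [← om_det, ← e1]
      exact h3
    have i1 : om y.1 = om (unop z.2) := e1.symm.trans e4
    have i2 : om (unop y.2) = om z.1 := e2.symm.trans e3
    have i1' : y.1 = unop z.2 := by rw [← mt_om y.1, i1, mt_om]
    have i2' : unop y.2 = z.1 := by rw [← mt_om (unop y.2), i2, mt_om]
    obtain ⟨x, hx⟩ : ∃ x : Matrix.SpecialLinearGroup ν ℝ, x.1 = y.1 := ⟨⟨y.1, hd⟩, rfl⟩
    have hgx : slG ν x = g := by
      ext1
      funext v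
      change om x.1 v = g v
      rw [hx, ← e1]
      rfl
    have hi : x⁻¹.1 = z.1 := by
      rw [← mt_om x⁻¹.1, ← slG_inv_coe, hgx, e3, mt_om]
    refine ⟨x, ⟨?_, ?_⟩, hgx⟩
    · have e5 : ((x.1, op x⁻¹.1) : DM ν) = y := by
        rw [hx, hi, ← i2']
        rfl
      rw [e5]
      exact hy
    · have e5 : ((x⁻¹.1, op x.1) : DM ν) = z := by
        rw [hx, hi, i1']
        rfl
      rw [e5]
      exact hz

theorem cco_op {G1 : Subgroup (Matrix.SpecialLinearGroup ν ℝ)} (h1 : G1 ≤ unitO O')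
    (h2 : G1.relIndex (unitO O') ≠ 0) : G1.map (slG ν) ∈ CCO (opO O') := by
  refine ⟨fun g hg => ?_, ?_⟩
  · apply g0o_gqo
    rw [← g0_op]
    exact Subgroup.map_mono h1 hg
  · rw [← g0_op, Subgroup.relIndex_map_map_of_injective _ _ slG_inj]
    exact h2

private theorem rr_pow {E : Type*} [NormedAddCommGroup E] [InnerProductSpace ℝ E]
    {O : Subring (DE E)} {a a' : E →L[ℝ] E} (h : RR O a a') (n : ℕ) :
    RR O (a ^ n) (a' ^ n) := by
  induction n with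
  | zero =>
    rw [pow_zero, pow_zero]
    exact rr_one O
  | succ n ih =>
    rw [pow_succ a, pow_succ' a']
    exact rr_mul ih h

theorem unip_O (h : OutO ν O') {g : Matrix.SpecialLinearGroup ν ℝ} (hg : g ∈ unitO O')
    (h1 : g ≠ 1) (hn : IsNilpotent (g.1 - 1)) :
    ∃ (O : Subring (DE (En ν))) (e e' : En ν →L[ℝ] En ν) (L : GE (En ν)), OD O e e' ∧
      ∀ G1 : Subgroup (Matrix.SpecialLinearGroup ν ℝ), G1 ≤ unitO O' →
        G1.relIndex (unitO O') ≠ 0 → cjG L⁻¹ (G1.map (slG ν)) ∈ CCO O := by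
  have hgi : g.1 * g⁻¹.1 = 1 := by
    rw [← Matrix.SpecialLinearGroup.coe_mul, mul_inv_cancel, Matrix.SpecialLinearGroup.coe_one]
  have hig : g⁻¹.1 * g.1 = 1 := by
    rw [← Matrix.SpecialLinearGroup.coe_mul, inv_mul_cancel, Matrix.SpecialLinearGroup.coe_one]
  set x : Matrix ν ν ℝ := g.1 - g⁻¹.1 with hx
  have hxf : x = (g.1 - 1) * (1 + g⁻¹.1) := by
    rw [hx, sub_mul, mul_add, mul_add, hgi]
    noncomm_ring
  have hcom : Commute (g.1 - 1) (1 + g⁻¹.1) := by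
    rw [commute_iff_eq, sub_mul, mul_add, mul_sub, add_mul, hgi, hig]
    noncomm_ring
  have hxn : IsNilpotent x := by
    rw [hxf]
    exact hcom.isNilpotent_mul_right hn
  have hx0 : x ≠ 0 := by
    intro h0
    have hu : IsUnit (2 + (g.1 - 1) : Matrix ν ν ℝ) := by
      refine IsNilpotent.isUnit_add_left_of_commute hn ?_ ?_
      · have h2 := (IsUnit.mk0 (2 : ℝ) two_ne_zero).map (algebraMap ℝ (Matrix ν ν ℝ))
        rwa [map_ofNat] at h2
      · exact Commute.ofNat_right _ 2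
    have h2 : (g.1 - 1) * (2 + (g.1 - 1)) = 0 := by
      have h3 : (g.1 - 1) * (2 + (g.1 - 1)) = x * g.1 := by
        calc (g.1 - 1) * (2 + (g.1 - 1)) = g.1 * g.1 - 1 := by noncomm_ring
          _ = g.1 * g.1 - g⁻¹.1 * g.1 := by rw [hig]
          _ = x * g.1 := by rw [hx, sub_mul]
      rw [h3, h0, zero_mul]
    have h3 : g.1 - 1 = 0 := by
      have h4 := (hu.mul_left_eq_zero).1 h2
      exact h4
    apply h1
    apply Subtype.ext
    rw [Matrix.SpecialLinearGroup.coe_one]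
    exact sub_eq_zero.1 h3
  have : Nontrivial (Matrix ν ν ℝ) := ⟨x, 0, hx0⟩
  obtain ⟨s, hs1, hs2⟩ : ∃ s, x ^ s ≠ 0 ∧ x ^ (s + s) = 0 := by
    have h2 := pow_pred_nilpotencyClass hxn
    refine ⟨_, h2, ?_⟩
    have h3 := pow_nilpotencyClass hxn
    have h4 : nilpotencyClass x ≠ 1 := by
      intro h5
      rw [h5, pow_one] at h3
      exact hx0 h3
    have h5 : nilpotencyClass x ≠ 0 := (pos_nilpotencyClass_iff.2 hxn).ne'
    exact pow_eq_zero_of_le (by omega) h3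
  have hO0 := ox_op h
  have hrx : RR (opO O') (om x) (-om x) := by
    refine ⟨1, one_ne_zero, ?_⟩
    rw [one_smul]
    have h2 := omE_mem (O'.sub_mem hg.1 hg.2)
    convert h2 using 1
    refine Prod.ext rfl ?_
    apply unop_injective
    change -om x = om (g⁻¹.1 - g.1)
    rw [← om_ng, hx, neg_sub]
  have hpow : ∀ n : ℕ, om (x ^ n) = (om x) ^ n := fun n =>
    map_pow (Matrix.toEuclideanCLM (n := ν) (𝕜 := ℝ)) _ _
  obtain ⟨e, e', hr, hne, he, he', hee, hee', hdiv⟩ := idem_ex hO0 (rr_pow hrx s) (by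
    rw [← hpow]
    intro h0
    apply hs1
    rw [← mt_om (x ^ s), h0]
    exact map_zero (Matrix.toEuclideanCLM (n := ν) (𝕜 := ℝ)).symm) (by
    rw [← pow_add, ← hpow, hs2]
    exact map_zero (Matrix.toEuclideanCLM (n := ν) (𝕜 := ℝ))) (by
    rcases neg_one_pow_eq_or (En ν →L[ℝ] En ν) s with h2 | h2
    · left
      rw [neg_pow, h2, one_mul]
    · right
      rw [neg_pow, h2, neg_one_mul])
  obtain ⟨L, hL⟩ := orth_ex he he' hee hee'
  refine ⟨cjO L (opO O'), _, _, L, ⟨ox_cj hO0 L, hL, ?_, ?_, ?_⟩, fun G1 h2 h3 =>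
    cco_cj L (cco_op h2 h3)⟩
  · intro h0
    apply hne
    rw [← cl_2 L e, h0, mul_zero, zero_mul]
  · rw [rr_cj, cl_2, cl_2]
    exact hr
  · intro a a' ha h2 h3 h4
    rw [rr_cj] at ha
    have h5 : e * (((L⁻¹ : GE (En ν)) : En ν →L[ℝ] En ν) * a * (L : En ν →L[ℝ] En ν)) * e =
        ((L⁻¹ : GE (En ν)) : En ν →L[ℝ] En ν) * a * (L : En ν →L[ℝ] En ν) := by
      conv_rhs => rw [← h2]
      rw [← cl_mul', ← cl_mul', cl_2]
    have h6 : e' * (((L⁻¹ : GE (En ν)) : En ν →L[ℝ] En ν) * a' * (L : En ν →L[ℝ] En ν)) * e' =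
        ((L⁻¹ : GE (En ν)) : En ν →L[ℝ] En ν) * a' * (L : En ν →L[ℝ] En ν) := by
      conv_rhs => rw [← h3]
      rw [← cl_mul', ← cl_mul', cl_2]
    obtain ⟨c, c', hc, h7, h8, h9, h10⟩ := hdiv _ _ ha h5 h6 (by
      intro h0
      apply h4
      rw [← cl_1 L a, h0, mul_zero, zero_mul])
    refine ⟨(L : En ν →L[ℝ] En ν) * c * ((L⁻¹ : GE (En ν)) : En ν →L[ℝ] En ν),
      (L : En ν →L[ℝ] En ν) * c' * ((L⁻¹ : GE (En ν)) : En ν →L[ℝ] En ν), ?_, ?_, ?_, ?_, ?_⟩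
    · rw [rr_cj, cl_2, cl_2]
      exact hc
    · rw [cl_mul, cl_mul, h7]
    · rw [cl_mul, cl_mul, h8]
    · conv_lhs => rw [← cl_1 L a]
      rw [cl_mul, h9]
    · conv_lhs => rw [← cl_1 L a]
      rw [cl_mul, h10]

end
end LatLin
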