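import Pool.Agent.Lib.MP_2392aa_gt.O.RatO

/-!
MP_2392aa_gt, formal linearization, outer type, module CornO (about 300 lines): the corners of the
rational algebra.

Pairs: `(a, op a') (c, op c') = (a c, op (c' a'))`. `ε = (e, op e')`, `ε* = (e', op e)`.
PROOFS. `corn_inv` (`β : V → V'`): let `β2` be the second component; `e' β2 e = β2` by `rr_uniq2` (the pair
`(e', op e) (β, op β2) (e, op e') = (e' β e, op (e' β2 e))` has the same first component `β`). There is a rational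
`(z, op z')` with `(e z e') β ≠ 0`: otherwise (`rr_corner1` applied to `x ↦ f (e x e' β)`, all functionals `f`)
`e x e' β = 0` for all operators `x`, and `β = e' β ≠ 0` gives a contradiction (`x := ro (β v) (v0)` with
`β v ≠ 0` and `v0 ∈ V`, `v0 ≠ 0`; `e ≠ 0`). `ζ := e z e'`, second component `e z' e'` (with `RR O ζ ..` by `rr_mul`).
`ζ β` is in the corner `ε A ε`, not zero; `h.div` gives `c` with `c (ζ β) = e`. `γ := c ζ`: `γ β = e`,
`e γ e' = γ`. `β γ` is idempotent (`β γ β γ = β e γ = β γ`), in the corner `ε* A ε*`, not zero (`γ β γ β = e`), and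
this corner is a division algebra (`h.symm.div`), so `β γ = e'`. The second components: `γ2 := ` that of `γ`:
`(γ, op γ2) (β, op β2) = (γ β, op (β2 γ2)) = (e, ..)`, so `β2 γ2 = e'` (`rr_uniq2`, `h.rat`); `(β, ..) (γ, ..) =
(β γ, op (γ2 β2)) = (e', ..)`, so `γ2 β2 = e`.
`corn_skew`: let `(z, op z')` be rational with `t := e z e' ≠ 0` (exists by `rr_corner1`: `e x e' ≠ 0` for some `x`
since `e, e' ≠ 0`), `t' := e z' e'`. `s := t - t'` satisfies `RR O s (-s)` (`rr_swap`). If `s = 0` then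
`t = t'` and `s := r t` with `r` from `rr_sqrt` satisfies `RR O (r t) (- r t)`. So there is `s ≠ 0`, `e s e' = s`,
`RR O s (-s)`. Inverse: `corn_inv` for `h.symm` (exchange the roles: `s : V' → V`) gives `γ : V → V'` with `γ s = e'`,
`s γ = e`, `RR O γ γ2`, and `(-s) γ2 = e`.. so (uniqueness of the inverse) `γ2 = - γ`; `s' := - γ`.
`corn_vec`: `x ↦ (e' x f) y` does not vanish identically for `f y ≠ 0`, `e' ≠ 0` (`f = mid e e'`).
`corn_dim`: `s : V' → V` and `s' : V → V'` are inverse to each other up to sign.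
-/

open scoped ContDiff Topology
open MulOpposite

namespace LatLin

section
variable {E : Type*} [NormedAddCommGroup E] [InnerProductSpace ℝ E] {O : Subring (DE E)}
  {e e' : E →L[ℝ] E}

private theorem pp1 (h : PP e e') : e * e = e := by
  ext x
  exact h.pr.idem x

private theorem pp2 (h : PP e e') : e' * e' = e' := by
  ext x
  exact h.pr'.idem x

private theorem pp3 (h : PP e e') : e * e' = 0 := by
  ext x
  exact h.o x

private theorem pp4 (h : PP e e') : e' * e = 0 := by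
  ext x
  exact h.o' x

private theorem mid_idem (h : PP e e') : mid e e' * mid e e' = mid e e' := by
  ext x
  show mid e e' (mid e e' x) = mid e e' x
  simp only [mid_apply, map_sub, h.pr.idem, h.pr'.idem, h.o, h.o']
  abel

/-- a nonzero vector of the range -/
private theorem ran_ex (h : PP e e') (h0 : e ≠ 0) : ∃ v : E, e v = v ∧ v ≠ 0 := by
  by_contra hc
  push Not at hc
  apply h0
  ext x
  exact hc (e x) (h.pr.idem x)

/-- a rational element with nonzero corner -/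
private theorem rat_ex (h : OX O) (p q : E →L[ℝ] E) (hx : ∃ x, p * x * q ≠ 0) :
    ∃ z z' : E →L[ℝ] E, RR O z z' ∧ p * z * q ≠ 0 := by
  by_contra hc
  push Not at hc
  obtain ⟨x, hx⟩ := hx
  apply hx
  rw [← Module.forall_dual_apply_eq_zero_iff ℝ]
  intro f
  exact rr_corner1 h f p q (fun a a' ha => by rw [hc a a' ha, map_zero]) x

theorem corn_inv (h : OD O e e') {β β2 : E →L[ℝ] E} (hr : RR O β β2) (hβ : e' * β * e = β)
    (h0 : β ≠ 0) : ∃ γ γ2 : E →L[ℝ] E, RR O γ γ2 ∧ e * γ * e' = γ ∧ e * γ2 * e' = γ2 ∧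
      γ * β = e ∧ β * γ = e' ∧ β2 * γ2 = e' ∧ γ2 * β2 = e := by
  have ee := pp1 h.pp
  have ee' := pp2 h.pp
  have hsw := rr_swap h.ox h.rat
  have hβ2 : e' * β2 * e = β2 := by
    have h1 := rr_mul (rr_mul hsw hr) h.rat
    rw [hβ] at h1
    rw [mul_assoc]
    exact rr_uniq2 h.ox h1 hr
  have b1 : e' * β = β := by
    rw [← hβ, ← mul_assoc, ← mul_assoc, ee']
  have b2 : β * e = β := by
    rw [← hβ, mul_assoc, ee]
  have b3 : e' * β2 = β2 := by
    rw [← hβ2, ← mul_assoc, ← mul_assoc, ee']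
  have b4 : β2 * e = β2 := by
    rw [← hβ2, mul_assoc, ee]
  obtain ⟨z, z', hz, hz0⟩ := rat_ex h.ox e (e' * β) (by
    obtain ⟨v0, hv0, hv1⟩ := ran_ex h.pp h.ne
    obtain ⟨v, hv⟩ : ∃ v, β v ≠ 0 := by
      by_contra hc
      push Not at hc
      apply h0
      ext x
      exact hc x
    refine ⟨ro (β v) v0, fun hc => ?_⟩
    have h1 : e (ro (β v) v0 (e' (β v))) = 0 := congrArg (fun f => f v) hc
    have h2 : e' (β v) = β v := congrArg (fun f => f v) b1
    rw [h2, ro_apply, map_smul, hv0] at h1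
    rcases smul_eq_zero.1 h1 with h3 | h3
    · exact hv (inner_self_eq_zero.1 h3)
    · exact hv1 h3)
  have hζ := rr_mul (rr_mul h.rat hz) hsw
  rw [← mul_assoc e z' e'] at hζ
  have hζ0 : e * z * e' * β ≠ 0 := by
    rw [mul_assoc (e * z)]
    exact hz0
  set ζ := e * z * e' with hζd
  set ζ2 := e * z' * e' with hζ2d
  have z1 : e * ζ = ζ := by rw [hζd, ← mul_assoc, ← mul_assoc, ee]
  have z2 : ζ * e' = ζ := by rw [hζd, mul_assoc, ee']
  have z3 : e * ζ2 = ζ2 := by rw [hζ2d, ← mul_assoc, ← mul_assoc, ee]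
  have z4 : ζ2 * e' = ζ2 := by rw [hζ2d, mul_assoc, ee']
  obtain ⟨c, c', hc, hc1, hc2, hc3, hc4⟩ := h.div (ζ * β) (β2 * ζ2) (rr_mul hζ hr)
    (by rw [← mul_assoc, z1, mul_assoc, b2]) (by rw [← mul_assoc, b3, mul_assoc, z4]) hζ0
  have c1 : e * c = c := by rw [← hc1, ← mul_assoc, ← mul_assoc, ee]
  have c2 : c' * e' = c' := by rw [← hc2, mul_assoc, ee']
  have g1 : RR O (c * ζ) (ζ2 * c') := rr_mul hc hζ
  have g2 : c * ζ * β = e := by rw [mul_assoc, hc4]
  have g3 : c * ζ * e' = c * ζ := by rw [mul_assoc, z2]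
  have g4 : e * (c * ζ) = c * ζ := by rw [← mul_assoc, c1]
  have g5 : e * (ζ2 * c') = ζ2 * c' := by rw [← mul_assoc, z3]
  have g6 : ζ2 * c' * e' = ζ2 * c' := by rw [mul_assoc, c2]
  have g7 : β * (c * ζ) = e' := by
    have h1 : RR O (β * (c * ζ)) (ζ2 * c' * β2) := rr_mul hr g1
    have hid : β * (c * ζ) * (β * (c * ζ)) = β * (c * ζ) := by
      rw [mul_assoc, ← mul_assoc (c * ζ) β, g2, g4]
    obtain ⟨d, d', -, -, -, hd, -⟩ := h.symm.div _ _ h1
      (by rw [← mul_assoc, b1, mul_assoc, g3]) (by rw [← mul_assoc, g5, mul_assoc, b4])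
      (fun hc0 => by
        apply h.ne
        have h2 : c * ζ * (β * (c * ζ)) * β = e := by
          rw [← mul_assoc, g2, g4, g2]
        rw [← h2, hc0, mul_zero, zero_mul])
    have h3 : β * (c * ζ) * e' = e' := by
      rw [← hd, ← mul_assoc, hid]
    rw [← h3, mul_assoc, g3]
  refine ⟨c * ζ, ζ2 * c', g1, ?_, ?_, g2, g7, ?_, ?_⟩
  · rw [g4, g3]
  · rw [g5, g6]
  · have h1 := rr_mul g1 hr
    rw [g2] at h1
    exact rr_uniq2 h.ox h1 h.rat
  · have h1 := rr_mul hr g1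
    rw [g7] at h1
    exact rr_uniq2 h.ox h1 hsw

theorem corn_skew (h : OD O e e') : ∃ s s' : E →L[ℝ] E, s ≠ 0 ∧ s' ≠ 0 ∧ RR O s (-s) ∧
    RR O s' (-s') ∧ e * s * e' = s ∧ e' * s' * e = s' ∧ s * s' = -e ∧ s' * s = -e' := by
  have ee := pp1 h.pp
  have ee' := pp2 h.pp
  have hsw := rr_swap h.ox h.rat
  obtain ⟨s, hs0, hs1, hs2⟩ : ∃ s : E →L[ℝ] E, s ≠ 0 ∧ e * s * e' = s ∧ RR O s (-s) := by
    obtain ⟨z, z', hz, hz0⟩ := rat_ex h.ox e e' (by
      obtain ⟨v0, hv0, hv1⟩ := ran_ex h.pp h.ne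
      obtain ⟨v, hv, hv'⟩ := ran_ex h.pp.symm h.symm.ne
      refine ⟨ro v v0, fun hc => ?_⟩
      have h1 : e (ro v v0 (e' v)) = 0 := congrArg (fun f => f v) hc
      rw [hv, ro_apply, map_smul, hv0] at h1
      rcases smul_eq_zero.1 h1 with h3 | h3
      · exact hv' (inner_self_eq_zero.1 h3)
      · exact hv1 h3)
    have hζ := rr_mul (rr_mul h.rat hz) hsw
    rw [← mul_assoc e z' e'] at hζ
    have t1 : e * (e * z * e') * e' = e * z * e' := by
      rw [← mul_assoc, ← mul_assoc, ee, mul_assoc, ee']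
    have t2 : e * (e * z' * e') * e' = e * z' * e' := by
      rw [← mul_assoc, ← mul_assoc, ee, mul_assoc, ee']
    by_cases hs : e * z * e' - e * z' * e' = 0
    · obtain ⟨r, hr, hr'⟩ := rr_sqrt h.ox
      refine ⟨r • (e * z * e'), smul_ne_zero hr.ne' hz0, ?_, ?_⟩
      · rw [mul_smul_comm, smul_mul_assoc, t1]
      · have h1 := hr' _ _ hζ
        rw [← sub_eq_zero.1 hs] at h1
        exact h1
    · refine ⟨e * z * e' - e * z' * e', hs, ?_, ?_⟩
      · rw [mul_sub, sub_mul, t1, t2]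
      · rw [neg_sub]
        exact rr_sub hζ (rr_swap h.ox hζ)
  obtain ⟨γ, γ2, hγ, hγ1, hγ2, k1, k2, k3, k4⟩ := corn_inv h.symm hs2 hs1 hs0
  have hg : γ2 = -γ := by
    have h1 : e' * γ2 = γ2 := by rw [← hγ2, ← mul_assoc, ← mul_assoc, ee']
    have h2 : γ * e = γ := by rw [← hγ1, mul_assoc, ee]
    have h3 : s * γ2 = -e := by
      rw [neg_mul] at k3
      rw [← k3, neg_neg]
    rw [← h1, ← k1, mul_assoc, h3, mul_neg, h2]
  rw [hg] at hγ
  refine ⟨s, -γ, hs0, ?_, hs2, rr_neg hγ, hs1, ?_, ?_, ?_⟩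
  · intro hc
    rw [neg_eq_zero] at hc
    rw [hc, mul_zero] at k2
    exact h.ne k2.symm
  · rw [mul_neg, neg_mul, hγ1]
  · rw [mul_neg, k2]
  · rw [neg_mul, k1]

theorem corn_vec (h : OD O e e') {y : E} (hy : mid e e' y ≠ 0) : ∃ r r' : E →L[ℝ] E, RR O r r' ∧
    e' * r * mid e e' = r ∧ mid e e' * r' * e = r' ∧ r y ≠ 0 := by
  have ee := pp1 h.pp
  have ee' := pp2 h.pp
  have ff := mid_idem h.pp
  have hsw := rr_swap h.ox h.rat
  obtain ⟨z, z', hz, hz0⟩ : ∃ z z' : E →L[ℝ] E, RR O z z' ∧ (e' * z * mid e e') y ≠ 0 := by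
    by_contra hc
    push Not at hc
    obtain ⟨v, hv, hv'⟩ := ran_ex h.pp.symm h.symm.ne
    have h1 := rr_corner1 h.ox (O := O)
      { toFun := fun A : E →L[ℝ] E => (inner ℝ v (A y) : ℝ)
        map_add' := fun A B => by
          rw [add_apply, inner_add_right]
        map_smul' := fun c A => by
          rw [smul_apply, inner_smul_right]
          rfl } e' (mid e e') (fun a a' ha => by
        show (inner ℝ v ((e' * a * mid e e') y) : ℝ) = 0
        rw [hc a a' ha, inner_zero_right]) (ro (mid e e' y) v)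
    have h2 : (inner ℝ v (e' (ro (mid e e' y) v (mid e e' y))) : ℝ) = 0 := h1
    rw [ro_apply, map_smul, hv, inner_smul_right] at h2
    rcases mul_eq_zero.1 h2 with h3 | h3
    · exact hy (inner_self_eq_zero.1 h3)
    · exact hv' (inner_self_eq_zero.1 h3)
  refine ⟨e' * z * mid e e', mid e e' * (z' * e), rr_mul (rr_mul hsw hz) (rr_mid h), ?_, ?_, hz0⟩
  · rw [← mul_assoc, ← mul_assoc, ee', mul_assoc, ff]
  · rw [← mul_assoc, ff, mul_assoc, mul_assoc, ee]

theorem corn_dim [FiniteDimensional ℝ E] (h : OD O e e') :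
    Module.finrank ℝ (LinearMap.range (e : E →ₗ[ℝ] E)) =
      Module.finrank ℝ (LinearMap.range (e' : E →ₗ[ℝ] E)) := by
  obtain ⟨s, s', -, -, -, -, hs, hs', h1, h2⟩ := corn_skew h
  have ee := pp1 h.pp
  have ee' := pp2 h.pp
  have key : ∀ (p p' t t' : E →L[ℝ] E), t * p' = t → t * t' = -p →
      p' * t' = t' → Module.finrank ℝ (LinearMap.range (p : E →ₗ[ℝ] E)) ≤
        Module.finrank ℝ (LinearMap.range (p' : E →ₗ[ℝ] E)) := by
    intro p p' t t' k1 k2 k3
    have h3 : LinearMap.range (p : E →ₗ[ℝ] E) ≤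
        (LinearMap.range (p' : E →ₗ[ℝ] E)).map (t : E →ₗ[ℝ] E) := by
      rintro _ ⟨x, rfl⟩
      refine ⟨p' (-(t' x)), ⟨-(t' x), rfl⟩, ?_⟩
      show t (p' (-(t' x))) = p x
      have h4 : p' (t' x) = t' x := congrArg (fun f => f x) k3
      have h5 : t (t' x) = -(p x) := congrArg (fun f => f x) k2
      rw [map_neg, map_neg, h4, h5, neg_neg]
    exact (Submodule.finrank_mono h3).trans (Submodule.finrank_map_le _ _)
  refine le_antisymm (key e e' s s' ?_ h1 ?_) (key e' e s' s ?_ h2 ?_)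
  · rw [← hs, mul_assoc, ee']
  · rw [← hs', ← mul_assoc, ← mul_assoc, ee']
  · rw [← hs', mul_assoc, ee]
  · rw [← hs, ← mul_assoc, ← mul_assoc, ee]

end
end LatLin
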