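import Pool.Agent.Lib.MP_2392aa_gt.O.Te
import Pool.Agent.Lib.MP_2392aa_gt.L.Scheme

/-!
MP_2392aa_gt, formal linearization, outer type: arithmetic definitions (helper69).

`O` is a subring of `End E × (End E)ᵒᵖ`. `RR O a a'` says that a nonzero integer multiple of `(a, op a')`
is in `O`. The involution is the exchange of the two components: `(a, op a')* = (a', op a)`. For an
idempotent `ε = (e, op e')` the corner `ε A ε` consists of the pairs `(a, op a')` with `e a e = a`,
`e' a' e' = a'`, the corner `ε A ε*` of the pairs with `e a e' = a`, `e a' e' = a'` (operators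
`V' → V`), the corner `ε* A ε` of the pairs with `e' a e = a`, `e' a' e = a'` (operators `V → V'`).
-/

open scoped ContDiff Topology
open MulOpposite

namespace LatLin

section
variable {E : Type*} [NormedAddCommGroup E] [InnerProductSpace ℝ E]

/-- pairs of operators, the second one in the opposite ring -/
abbrev DE (E : Type*) [NormedAddCommGroup E] [InnerProductSpace ℝ E] :=
  (E →L[ℝ] E) × (E →L[ℝ] E)ᵐᵒᵖ

/-- some nonzero multiple of the pair is in `O` -/
def RR (O : Subring (DE E)) (a a' : E →L[ℝ] E) : Prop :=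
  ∃ M : ℤ, M ≠ 0 ∧ M • ((a, op a') : DE E) ∈ O

/-- `O` is an order stable up to a factor under the exchange of the components, with a real
quadratic centre -/
structure OX (O : Subring (DE E)) : Prop where
  ord : ∃ (n : ℕ) (b : Module.Basis (Fin n) ℝ (DE E)),
    ∀ x, x ∈ O ↔ x ∈ Submodule.span ℤ (Set.range b)
  sqrt : ∃ D : ℕ, ¬ IsSquare D ∧
    ((Real.sqrt D • (1 : E →L[ℝ] E), op (-(Real.sqrt D • (1 : E →L[ℝ] E)))) : DE E) ∈ O
  swap : ∃ N : ℤ, N ≠ 0 ∧ ∀ x : DE E, x ∈ O → (N • (unop x.2, op x.1) : DE E) ∈ O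

/-- outer type: moreover `ε = (e, op e')` is a rational idempotent with `ε ε* = ε* ε = 0`, and the
corner `ε A ε` is a division algebra -/
structure OD (O : Subring (DE E)) (e e' : E →L[ℝ] E) : Prop where
  ox : OX O
  pp : PP e e'
  ne : e ≠ 0
  rat : RR O e e'
  div : ∀ a a' : E →L[ℝ] E, RR O a a' → e * a * e = a → e' * a' * e' = a' → a ≠ 0 →
    ∃ c c' : E →L[ℝ] E, RR O c c' ∧ e * c * e = c ∧ e' * c' * e' = c' ∧ a * c = e ∧ c * a = e

/-- rational unitary elements -/
def GQO (O : Subring (DE E)) : Set (GE E) :=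
  {g | RR O (g : E →L[ℝ] E) ((g⁻¹ : GE E) : E →L[ℝ] E) ∧
    RR O ((g⁻¹ : GE E) : E →L[ℝ] E) (g : E →L[ℝ] E)}

/-- the arithmetic group -/
def G0O (O : Subring (DE E)) : Subgroup (GE E) where
  carrier := {g | (((g : E →L[ℝ] E), op ((g⁻¹ : GE E) : E →L[ℝ] E)) : DE E) ∈ O ∧
    ((((g⁻¹ : GE E) : E →L[ℝ] E), op (g : E →L[ℝ] E)) : DE E) ∈ O ∧
    LinearMap.det ((g : E →L[ℝ] E) : E →ₗ[ℝ] E) = 1}
  mul_mem' := by
    rintro a b ⟨h1, h2, h3⟩ ⟨h4, h5, h6⟩
    refine ⟨?_, ?_, ?_⟩
    · have h := O.mul_mem h1 h4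
      rw [Prod.mk_mul_mk, ← op_mul] at h
      have e1 : ((((a * b)⁻¹ : GE E)) : E →L[ℝ] E) =
          ((b⁻¹ : GE E) : E →L[ℝ] E) * ((a⁻¹ : GE E) : E →L[ℝ] E) := by
        rw [mul_inv_rev]
        rfl
      rw [e1]
      exact h
    · have h := O.mul_mem h5 h2
      rw [Prod.mk_mul_mk, ← op_mul] at h
      have e1 : ((((a * b)⁻¹ : GE E)) : E →L[ℝ] E) =
          ((b⁻¹ : GE E) : E →L[ℝ] E) * ((a⁻¹ : GE E) : E →L[ℝ] E) := by
        rw [mul_inv_rev]
        rfl
      rw [e1]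
      exact h
    · have e1 : (((a * b : GE E) : E →L[ℝ] E) : E →ₗ[ℝ] E) =
          ((a : E →L[ℝ] E) : E →ₗ[ℝ] E) * ((b : E →L[ℝ] E) : E →ₗ[ℝ] E) := rfl
      rw [e1, map_mul, h3, h6, mul_one]
  one_mem' := by
    refine ⟨?_, ?_, ?_⟩
    · rw [inv_one]
      exact O.one_mem
    · rw [inv_one]
      exact O.one_mem
    · exact LinearMap.det_id
  inv_mem' := by
    rintro a ⟨h1, h2, h3⟩
    refine ⟨?_, ?_, ?_⟩
    · rw [inv_inv]
      exact h2
    · rw [inv_inv]
      exact h1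
    · have e1 : (((a⁻¹ : GE E) : E →L[ℝ] E) : E →ₗ[ℝ] E) * ((a : E →L[ℝ] E) : E →ₗ[ℝ] E) = 1 := by
        apply LinearMap.ext
        intro x
        exact a.symm_apply_apply x
      have e2 := congrArg LinearMap.det e1
      rw [map_mul, h3, mul_one, map_one] at e2
      exact e2

/-- subgroups of the group of rational unitary elements which contain a subgroup of finite index of
the arithmetic group -/
def CCO (O : Subring (DE E)) : Set (Subgroup (GE E)) :=
  {G | (∀ g ∈ G, g ∈ GQO O) ∧ G.relIndex (G0O O) ≠ 0}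

/-- generators of the group of rational unitary elements -/
def GenO (O : Subring (DE E)) (e e' : E →L[ℝ] E) : Set (GE E) :=
  {g | g ∈ GQO O ∧ (g ∈ tes (uO e e') ∨ g ∈ tes (uO e' e) ∨ g ∈ blkL e e')}

end
end LatLin
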