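import Pool.Agent.Lib.MP_2392aa_gt.O.FixO

/-!
MP_2392aa_gt, formal linearization, outer type, module CommonO (about 220 lines): blocks of dimension
at least two, common fixed point of the two opposite unipotent groups, and block diagonal elements.

PROOF of `commonO` (compare L/Delta). `fixO` for `(e, e')` gives `a0`, `fixO` for `(e', e)` gives `b0`
(`Dn2 G e' e` is the same statement, `sc_symm`, `e' x + e x = x`). `B := kil k (uO e e') ⊔ kil k (uO e' e)`,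
`δ := a0 - b0`. For `g ∈ blkL e e'`: `pi k g` preserves both summands (`uO_conj` for `g` and `g⁻¹`, `pi_xd3`).
For `γ ∈ G ∩ blkL e e'`: `defect2` for `uO e e'` and `uO e' e`: `pi k γ δ - δ = (pi k γ a0 + b γ - a0) -
(pi k γ b0 + b γ - b0) ∈ B`. So this holds for `τ` and by `Dn2` (`X = HM E k`, `prep_pi`) for the
transvections of `V` and of `V'`. `cr` with `exists_ip` (the set `S` as in FixO) gives `y ∈ B` with `δ - y`
fixed by all of them, `δ = y` by `inv_O2`; `y = α + α'`. `w := a0 - α = b0 + α'`. `α ∈ kil k (uO e e')` is fixed by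
the elements of `tes (uO e e')` (`pi_of_xd3`), so `Triv b w` on `G ∩ tes (uO e e')`; the same for `α'`.
`trivLO`: for `g ∈ G ∩ blkL e e'` the element `pi k g w + b g - w` is in both `kil` (`defect2`), so it is `0`
(`inv_opp`).
-/

open scoped ContDiff Topology

namespace LatLin

section
universe u
variable {E : Type u} [NormedAddCommGroup E] [InnerProductSpace ℝ E] [FiniteDimensional ℝ E] {k : ℕ}

omit [FiniteDimensional ℝ E] in
private theorem co_sw {e e' : E →L[ℝ] E} {g : GE E} (hg : g ∈ blkL e e') : g ∈ blkL e' e :=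
  ⟨hg.2, hg.1⟩

omit [FiniteDimensional ℝ E] in
private theorem co_cj {e e' : E →L[ℝ] E} (h : PP e e') {g : GE E} (hg : g ∈ blkL e e')
    (a : E →L[ℝ] E) (ha : a ∈ uO e e') :
    ((g⁻¹ : GE E) : E →L[ℝ] E) ∘L a ∘L (g : E →L[ℝ] E) ∈ uO e e' := by
  have h1 := uO_conj h (blkL_inv hg) ha
  rwa [inv_inv] at h1

private theorem co_kil {u : Submodule ℝ (E →L[ℝ] E)} {g : GE E}
    (hn : ∀ a ∈ u, ((g⁻¹ : GE E) : E →L[ℝ] E) ∘L a ∘L (g : E →L[ℝ] E) ∈ u) (y : HM E k)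
    (hy : y ∈ kil k u) : pi k g y ∈ kil k u := by
  intro a ha
  rw [← pi_xd, hy _ (hn a ha), map_zero]

omit [FiniteDimensional ℝ E] in
private theorem co_tv1 {e e' : E →L[ℝ] E} (h : PP e e') {q u : E} (hqu : inner ℝ q u = (0 : ℝ))
    (hq : e q = q) (hu : e u = u) : tv q u ∈ blkL e e' := by
  refine ⟨fun x => ?_, fun x => ?_⟩
  · rw [tv_apply hqu, tv_apply hqu, map_add, map_smul, hu, ← h.pr.sym, hq]
  · have h1 : e' u = 0 := by rw [← hu, h.o']
    have h2 : inner ℝ q (e' x) = (0 : ℝ) := by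
      rw [← h.pr'.sym, ← hq, h.o', inner_zero_left]
    rw [tv_apply hqu, tv_apply hqu, map_add, map_smul, h1, h2, smul_zero, zero_smul]

omit [FiniteDimensional ℝ E] in
private theorem co_tv {e e' : E →L[ℝ] E} (h : PP e e') {q u : E} (hqu : inner ℝ q u = (0 : ℝ))
    (hc : (e q = q ∧ e u = u) ∨ (e' q = q ∧ e' u = u)) : tv q u ∈ blkL e e' := by
  rcases hc with ⟨hq, hu⟩ | ⟨hq, hu⟩
  · exact co_tv1 h hqu hq hu
  · exact co_sw (co_tv1 h.symm hqu hq hu)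

private theorem co_adj_tv {q u : E} (h : inner ℝ q u = (0 : ℝ)) :
    ContinuousLinearMap.adjoint ((tv q u : GE E) : E →L[ℝ] E) = ((tv u q : GE E) : E →L[ℝ] E) := by
  have h' : inner ℝ u q = (0 : ℝ) := by rw [real_inner_comm]; exact h
  symm
  rw [ContinuousLinearMap.eq_adjoint_iff]
  intro x y
  change inner ℝ (tv u q x) y = inner ℝ x (tv q u y)
  rw [tv_apply h, tv_apply h', inner_add_left, inner_add_right, inner_smul_left,
    inner_smul_right]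
  simp only [conj_trivial]
  rw [real_inner_comm x u, real_inner_comm y q]
  ring

private theorem co_adj_tv_inv {q u : E} (h : inner ℝ q u = (0 : ℝ)) :
    ContinuousLinearMap.adjoint (((tv q u)⁻¹ : GE E) : E →L[ℝ] E) =
      (((tv u q)⁻¹ : GE E) : E →L[ℝ] E) := by
  have h' : inner ℝ u q = (0 : ℝ) := by rw [real_inner_comm]; exact h
  symm
  rw [ContinuousLinearMap.eq_adjoint_iff]
  intro x y
  change inner ℝ ((tv u q)⁻¹ x) y = inner ℝ x ((tv q u)⁻¹ y)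
  rw [tv_inv_apply h, tv_inv_apply h', inner_sub_left, inner_sub_right, inner_smul_left,
    inner_smul_right]
  simp only [conj_trivial]
  rw [real_inner_comm x u, real_inner_comm y q]
  ring

omit [FiniteDimensional ℝ E] in
private theorem co_sym {e e' : E →L[ℝ] E} (h : PP e e') (α β : ℝ) (x y : E) :
    inner ℝ (α • (e x + e' x) + β • (x - e x - e' x)) y =
      (inner ℝ x (α • (e y + e' y) + β • (y - e y - e' y)) : ℝ) := by
  simp only [inner_add_left, inner_add_right, inner_sub_left, inner_sub_right,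
    real_inner_smul_left, real_inner_smul_right, h.pr.sym, h.pr'.sym]

private theorem co_adj_sc {e e' : E →L[ℝ] E} (h : PP e e') {α β : ℝ} (hα : α ≠ 0) (hβ : β ≠ 0) :
    ContinuousLinearMap.adjoint ((sc e e' α β : GE E) : E →L[ℝ] E) =
      ((sc e e' α β : GE E) : E →L[ℝ] E) := by
  symm
  rw [ContinuousLinearMap.eq_adjoint_iff]
  intro x y
  change inner ℝ (sc e e' α β x) y = inner ℝ x (sc e e' α β y)
  rw [sc_apply h hα hβ, sc_apply h hα hβ]
  exact co_sym h α β x y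

private theorem co_adj_sc_inv {e e' : E →L[ℝ] E} (h : PP e e') {α β : ℝ} (hα : α ≠ 0)
    (hβ : β ≠ 0) :
    ContinuousLinearMap.adjoint (((sc e e' α β)⁻¹ : GE E) : E →L[ℝ] E) =
      (((sc e e' α β)⁻¹ : GE E) : E →L[ℝ] E) := by
  symm
  rw [ContinuousLinearMap.eq_adjoint_iff]
  intro x y
  change inner ℝ ((sc e e' α β)⁻¹ x) y = inner ℝ x ((sc e e' α β)⁻¹ y)
  rw [sc_inv h hα hβ, sc_inv h hα hβ]
  exact co_sym h α⁻¹ β⁻¹ x y

omit [FiniteDimensional ℝ E] in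
private theorem co_pj (g : GE E) (p : HM E k) :
    pi k g p = pj (g : E →L[ℝ] E) ((g⁻¹ : GE E) : E →L[ℝ] E) p := rfl

private theorem co_add {e e' : E →L[ℝ] E} (h : PP e e') (G : Subgroup (GE E))
    (b : GE E → HM E k) (w α : HM E k)
    (hw : Triv b w {g | g ∈ G ∧ g ∈ tes (uO e e')}) (hα : α ∈ kil k (uO e e')) :
    Triv b (w + α) {g | g ∈ G ∧ g ∈ tes (uO e e')} := by
  rintro _ ⟨hG, a, ha, rfl⟩
  rw [hw _ ⟨hG, a, ha, rfl⟩, map_add,
    pi_of_xd3 ((uO_N3 h).cube a ha a ha a ha) α (hα a ha)]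
  abel

theorem commonO (hk : 2 ≤ k) {e e' : E →L[ℝ] E} (h : PP e e') (hbig : Big e) (hbig' : Big e')
    (G : Subgroup (GE E)) (b : GE E → HM E k) (hb : IsCoc G b) (hL : Lat2 G (uO e e'))
    (hL' : Lat2 G (uO e' e)) (hD : Dn2 G e e')
    (hN : (∀ x, e x + e' x = x) ∨ ∃ (A : ℝ) (p q : ℕ), 1 < A ∧ 1 ≤ p ∧ 1 ≤ q ∧
      sc e e' (A ^ p) ((A ^ q)⁻¹) ∈ G) :
    ∃ w : HM E k, Triv b w {g | g ∈ G ∧ g ∈ tes (uO e e')} ∧
      Triv b w {g | g ∈ G ∧ g ∈ tes (uO e' e)} := by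
  obtain ⟨a0, ha0⟩ := fixO hk h hbig hbig' G b hb hL hD hN
  have hD' : Dn2 G e' e := by
    intro X _ _ _ π hπ B hB x hx q u hqu hc
    have hsw : ∀ g : GE E, g ∈ blk2 e e' → g ∈ blk2 e' e := fun g hg =>
      ⟨co_sw hg.1, fun x h1 h2 => hg.2 x h2 h1⟩
    exact hD X π hπ B (fun g hg => hB g (hsw g hg)) x (fun γ hγ hγ' => hx γ hγ (hsw γ hγ')) q u
      hqu hc.symm
  have hN' : (∀ x, e' x + e x = x) ∨ ∃ (A : ℝ) (p q : ℕ), 1 < A ∧ 1 ≤ p ∧ 1 ≤ q ∧
      sc e' e (A ^ p) ((A ^ q)⁻¹) ∈ G := by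
    rcases hN with hN | ⟨A, p, q, h1, h2, h3, h4⟩
    · exact Or.inl fun x => by rw [add_comm]; exact hN x
    · exact Or.inr ⟨A, p, q, h1, h2, h3, by rw [← sc_symm]; exact h4⟩
  obtain ⟨b0, hb0⟩ := fixO hk h.symm hbig' hbig G b hb hL' hD' hN'
  have hst : ∀ g ∈ blkL e e', ∀ y ∈ kil k (uO e e') ⊔ kil k (uO e' e),
      pi k g y ∈ kil k (uO e e') ⊔ kil k (uO e' e) := by
    intro g hg y hy
    obtain ⟨y1, hy1, y2, hy2, rfl⟩ := Submodule.mem_sup.1 hy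
    rw [map_add]
    exact Submodule.add_mem_sup (co_kil (co_cj h hg) y1 hy1)
      (co_kil (co_cj h.symm (co_sw hg)) y2 hy2)
  have hdef : ∀ g ∈ G, g ∈ blkL e e' →
      pi k g (a0 - b0) - (a0 - b0) ∈ kil k (uO e e') ⊔ kil k (uO e' e) := by
    intro g hg hc
    have h1 := defect2 G b hb (uO e e') (uO_N3 h) hL a0 ha0 hg (co_cj h hc)
    have h2 := defect2 G b hb (uO e' e) (uO_N3 h.symm) hL' b0 hb0 hg
      (co_cj h.symm (co_sw hc))
    have h3 : pi k g (a0 - b0) - (a0 - b0) =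
        (pi k g a0 + b g - a0) + -(pi k g b0 + b g - b0) := by
      rw [map_sub]
      abel
    rw [h3]
    exact Submodule.add_mem_sup h1 (Submodule.neg_mem _ h2)
  have hmain : ∀ q u : E, inner ℝ q u = (0 : ℝ) →
      ((e q = q ∧ e u = u) ∨ (e' q = q ∧ e' u = u)) →
      pi k (tv q u) (a0 - b0) - (a0 - b0) ∈ kil k (uO e e') ⊔ kil k (uO e' e) := by
    intro q u hqu hc
    exact hD (HM E k) (pi k) prep_pi _ (fun g hg => hst g hg.1) (a0 - b0)
      (fun g hg hg' => hdef g hg hg'.1) q u hqu hc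
  obtain ⟨ip, i1, i2, i3⟩ := exists_ip (E := E) k
  obtain ⟨y, hy, hy'⟩ := cr ip i1 i2
    {T | (∃ q u : E, inner ℝ q u = (0 : ℝ) ∧ ((e q = q ∧ e u = u) ∨ (e' q = q ∧ e' u = u)) ∧
      T = pi k (tv q u)) ∨
      ∃ α β : ℝ, α ≠ 0 ∧ β ≠ 0 ∧ sc e e' α β ∈ G ∧ T = pi k (sc e e' α β)}
    (by
      rintro T (⟨q, u, hqu, hc, rfl⟩ | ⟨α, β, hα, hβ, hG, rfl⟩)
      · refine ⟨pi k (tv u q), Or.inl ⟨u, q, by rw [real_inner_comm]; exact hqu,
          hc.imp (fun hh => ⟨hh.2, hh.1⟩) (fun hh => ⟨hh.2, hh.1⟩), rfl⟩, fun x z => ?_⟩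
        rw [co_pj, i3, co_adj_tv hqu, co_adj_tv_inv hqu, ← co_pj]
      · refine ⟨pi k (sc e e' α β), Or.inr ⟨α, β, hα, hβ, hG, rfl⟩, fun x z => ?_⟩
        rw [co_pj, i3, co_adj_sc h hα hβ, co_adj_sc_inv h hα hβ, ← co_pj])
    (kil k (uO e e') ⊔ kil k (uO e' e))
    (by
      rintro T (⟨q, u, hqu, hc, rfl⟩ | ⟨α, β, hα, hβ, hG, rfl⟩) z hz
      · exact hst _ (co_tv h hqu hc) z hz
      · exact hst _ (sc_mem h hα hβ) z hz)
    (a0 - b0)
    (by
      rintro T (⟨q, u, hqu, hc, rfl⟩ | ⟨α, β, hα, hβ, hG, rfl⟩)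
      · exact hmain q u hqu hc
      · exact hdef _ hG (sc_mem h hα hβ))
  have h0 : a0 - b0 - y = 0 := by
    refine inv_O2 hk h hbig hbig' _ (fun q u hqu hc => hy' _ (Or.inl ⟨q, u, hqu, hc, rfl⟩)) ?_
    rcases hN with hN | ⟨A, p, q, h1, h2, h3, h4⟩
    · exact Or.inl hN
    · have hA : 0 < A := lt_trans one_pos h1
      have hp : 1 < A ^ p := one_lt_pow₀ h1 (by omega)
      have hq : 1 < A ^ q := one_lt_pow₀ h1 (by omega)
      exact Or.inr ⟨A ^ p, (A ^ q)⁻¹, hp, inv_pos.2 (pow_pos hA q), inv_lt_one_of_one_lt₀ hq,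
        hy' _ (Or.inr ⟨A ^ p, (A ^ q)⁻¹, (pow_pos hA p).ne', (inv_pos.2 (pow_pos hA q)).ne',
          h4, rfl⟩)⟩
  obtain ⟨α, hα, α', hα', rfl⟩ := Submodule.mem_sup.1 hy
  have e1 : a0 + -α = b0 + α' := by
    have h5 : a0 + -α = (a0 - b0 - (α + α')) + (b0 + α') := by abel
    rw [h5, h0, zero_add]
  refine ⟨a0 + -α, co_add h G b a0 (-α) ha0 (Submodule.neg_mem _ hα), ?_⟩
  rw [e1]
  exact co_add h.symm G b b0 α' hb0 hα'

theorem trivLO (hk : 2 ≤ k) {e e' : E →L[ℝ] E} (h : PP e e') (hne : e ≠ 0) (hne' : e' ≠ 0)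
    (G : Subgroup (GE E)) (b : GE E → HM E k) (hb : IsCoc G b) (hL : Lat2 G (uO e e'))
    (hL' : Lat2 G (uO e' e)) (w : HM E k) (h1 : Triv b w {g | g ∈ G ∧ g ∈ tes (uO e e')})
    (h2 : Triv b w {g | g ∈ G ∧ g ∈ tes (uO e' e)}) :
    Triv b w {g | g ∈ G ∧ g ∈ blkL e e'} := by
  rintro g ⟨hg, hc⟩
  have e1 := defect2 G b hb (uO e e') (uO_N3 h) hL w h1 hg (co_cj h hc)
  have e2 := defect2 G b hb (uO e' e) (uO_N3 h.symm) hL' w h2 hg (co_cj h.symm (co_sw hc))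
  have e3 := inv_opp hk h hne hne' _ e1 e2
  have e4 : b g = (pi k g w + b g - w) + (w - pi k g w) := by abel
  rw [e4, e3, zero_add]

end
end LatLin
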