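import Pool.Agent.Lib.MP_2392aa_gt.O.ComO

/-!
MP_2392aa_gt, outer type, module CurvO (about 260 lines): a unipotent one parameter family with a curve of
opposite flags.

Put `e = ro v v`, `e' = ro v' v'`, `f = mid e e'`.

PROOF. (a) There is a rational pair `(a, a')` (`RR O a a'`) with `e a f = a`, `f a' e' = a'` and `a a' ≠ 0`. Suppose not.
Let `(a, a')` and `(c, c')` be two such pairs (in the corner `ε A φ`, `φ = (f, op f)`, `rr_mid`; the corner consists
of the pairs `(e x f, op (f x' e'))`, `RR O x x'`). From `(a + c) (a' + c') = 0`: `a c' + c a' = 0`. With `r > 0` from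
`rr_sqrt` the pair `(r c, - r c')` is again in the corner: `- r a c' + r c a' = 0`. So `a c' = 0` for all such pairs,
i.e. `e x f y' e' = 0` for all rational `(x, x')`, `(y, y')`. By `rr_corner1` (for `x`, with a linear form
`g`: `z ↦ g (z y' e')`) `e z f y' e' = 0` for all operators `z`, and then (for the pairs `(y', y)`, `rr_swap`)
`e z f w e' = 0` for all operators `z, w`: impossible, since `f ≠ 0` (`3 ≤ n`: there is a unit vector `y0` orthogonal to
`v, v'`; take `w = ro v' y0`, `z = ro y0 v`).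
(b) `X := a - a'`: `RR O X (- X)` (`(a, op a') - (a', op a)`, `rr_swap`), `a = ro q v` with `q` orthogonal to `v, v'`
(`e a f = a`), `a' = ro v' η0` with `η0` orthogonal to `v, v'` (`f a' e' = a'`); `a a' = ⟪q, η0⟫ ro v' v ≠ 0`. So
`X = ro q v + ro v' (- η0)`, `X X = - ⟪q, η0⟫ ro v' v`, `X X X = 0`. By `cco_te` there is `M ≠ 0` with
`te ((m : ℝ) • X) ∈ G` for all integers `m` divisible by `M`. Replace `X` by `M X`: now
`X = ro q v + ro v' η` (`q, η` orthogonal to `v, v'`, `⟪q, η⟫ ≠ 0`) and `g i := te ((i : ℝ) • X) ∈ G` for all natural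
`i`; `g 0 = te 0 = 1`.
(c) `te_apply`: `g i v' = v' + i X v' + (i² / 2) X X v' = v' + i η + (i² / 2) ⟪q, η⟫ v`, and `te_inv_apply`:
`(g i)⁻¹ x = x - i X x + (i² / 2) X X x`, `⟪v, X x⟫ = ⟪q, x⟫` (`⟪v, η⟫ = 0`), `X X x = ⟪v', x⟫ ⟪q, η⟫ v`.
-/

open scoped ContDiff Topology
open MulOpposite

namespace LatLin

section
variable {E : Type*} [NormedAddCommGroup E] [InnerProductSpace ℝ E] [FiniteDimensional ℝ E]
  {O : Subring (DE E)}

omit [FiniteDimensional ℝ E] in
private theorem mx (a b : E →L[ℝ] E) (x : E) : (a * b) x = a (b x) := rfl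

omit [FiniteDimensional ℝ E] in
private theorem curv_dual (x : E →L[ℝ] E) (h : ∀ g : (E →L[ℝ] E) →ₗ[ℝ] ℝ, g x = 0) : x = 0 :=
  (Module.forall_dual_apply_eq_zero_iff ℝ x).1 h

private theorem curv_orth {v v' : E} (hn : 3 ≤ Module.finrank ℝ E) :
    ∃ y : E, y ≠ 0 ∧ inner ℝ v y = (0 : ℝ) ∧ inner ℝ v' y = (0 : ℝ) := by
  classical
  set W : Submodule ℝ E := Submodule.span ℝ {v, v'} with hW
  have h1 : Module.finrank ℝ W ≤ 2 := by
    have h2 := finrank_span_finset_le_card (R := ℝ) ({v, v'} : Finset E)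
    have h3 : ((({v, v'} : Finset E) : Set E)) = {v, v'} := by simp
    rw [h3] at h2
    exact h2.trans Finset.card_le_two
  have h2 : Wᗮ ≠ ⊥ := by
    intro h3
    have h4 := Submodule.finrank_add_finrank_orthogonal W
    rw [h3, finrank_bot] at h4
    omega
  obtain ⟨y, hy, hy0⟩ := Submodule.exists_mem_ne_zero_of_ne_bot h2
  refine ⟨y, hy0, ?_, ?_⟩
  · exact Submodule.inner_right_of_mem_orthogonal (Submodule.subset_span (by simp)) hy
  · exact Submodule.inner_right_of_mem_orthogonal (Submodule.subset_span (by simp)) hy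

private theorem curv_pair {v v' : E} (hv : ‖v‖ = 1) (hv' : ‖v'‖ = 1)
    (ho : inner ℝ v v' = (0 : ℝ)) (h : OD O (ro v v) (ro v' v')) (hn : 3 ≤ Module.finrank ℝ E) :
    ∃ a a' : E →L[ℝ] E, RR O a a' ∧ ro v v * a * mid (ro v v) (ro v' v') = a ∧
      mid (ro v v) (ro v' v') * a' * ro v' v' = a' ∧ a * a' ≠ 0 := by
  set e := ro v v with he
  set e' := ro v' v' with he'
  set f := mid e e' with hf
  have hvv : inner ℝ v v = (1 : ℝ) := by rw [real_inner_self_eq_norm_sq, hv]; norm_num
  have hvv' : inner ℝ v' v' = (1 : ℝ) := by rw [real_inner_self_eq_norm_sq, hv']; norm_num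
  have ho' : inner ℝ v' v = (0 : ℝ) := by rw [real_inner_comm]; exact ho
  have hee : e * e = e := by
    ext x
    rw [mx, he, ro_apply v v x, map_smul, ro_apply, hvv, one_smul]
  have hee' : e' * e' = e' := by
    ext x
    rw [mx, he', ro_apply v' v' x, map_smul, ro_apply, hvv', one_smul]
  have hff : f * f = f := by
    ext x
    simp only [hf, he, he', mx, mid_apply, ro_apply, inner_sub_right,
      inner_smul_right, hvv, hvv', ho, ho']
    module
  have hfr : RR O f f := rr_mid h
  by_contra hcon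
  push Not at hcon
  -- the pairs of the corner
  have hcor : ∀ x x' : E →L[ℝ] E, RR O x x' → RR O (e * x * f) (f * x' * e') := by
    intro x x' hx
    have h1 := rr_mul (rr_mul h.rat hx) hfr
    rwa [← mul_assoc] at h1
  have hz : ∀ a a' : E →L[ℝ] E, RR O a a' → e * a * f = a → f * a' * e' = a' → a * a' = 0 := hcon
  have hkey : ∀ x x' y y' : E →L[ℝ] E, RR O x x' → RR O y y' → e * x * f * y' * e' = 0 := by
    intro x x' y y' hx hy
    obtain ⟨r, hr, hsq⟩ := rr_sqrt h.ox
    set a := e * x * f with ha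
    set a' := f * x' * e' with ha'
    set c := e * y * f with hc
    set c' := f * y' * e' with hc'
    have ra : RR O a a' := hcor x x' hx
    have rc : RR O c c' := hcor y y' hy
    have a1 : e * a * f = a := by
      rw [ha]
      calc e * (e * x * f) * f = (e * e) * x * (f * f) := by noncomm_ring
        _ = _ := by rw [hee, hff]
    have c1 : e * c * f = c := by
      rw [hc]
      calc e * (e * y * f) * f = (e * e) * y * (f * f) := by noncomm_ring
        _ = _ := by rw [hee, hff]
    have a2 : f * a' * e' = a' := by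
      rw [ha']
      calc f * (f * x' * e') * e' = (f * f) * x' * (e' * e') := by noncomm_ring
        _ = _ := by rw [hee', hff]
    have c2 : f * c' * e' = c' := by
      rw [hc']
      calc f * (f * y' * e') * e' = (f * f) * y' * (e' * e') := by noncomm_ring
        _ = _ := by rw [hee', hff]
    have h1 := hz a a' ra a1 a2
    have h2 := hz c c' rc c1 c2
    have h3 := hz (a + c) (a' + c') (rr_add ra rc) (by rw [mul_add, add_mul, a1, c1])
      (by rw [mul_add, add_mul, a2, c2])
    have h4 := hz (a + r • c) (a' + -(r • c')) (rr_add ra (hsq c c' rc))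
      (by rw [mul_add, add_mul, a1, mul_smul_comm, smul_mul_assoc, c1])
      (by rw [mul_add, add_mul, a2, mul_neg, neg_mul, mul_smul_comm, smul_mul_assoc, c2])
    have h5 : a * c' + c * a' = 0 := by
      have e1 : (a + c) * (a' + c') = a * a' + c * c' + (a * c' + c * a') := by noncomm_ring
      rw [e1, h1, h2, zero_add, zero_add] at h3
      exact h3
    have h6 : r • (c * a' - a * c') = 0 := by
      have e1 : (a + r • c) * (a' + -(r • c')) =
          a * a' - (r * r) • (c * c') + r • (c * a' - a * c') := by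
        rw [add_mul, mul_add, mul_add, mul_neg, mul_neg, mul_smul_comm, smul_mul_assoc,
          smul_mul_smul_comm, smul_sub]
        abel
      rw [e1, h1, h2, smul_zero, sub_zero, zero_add] at h4
      exact h4
    have h7 : c * a' - a * c' = 0 := (smul_eq_zero.1 h6).resolve_left hr.ne'
    have h8 : a * c' = 0 := by
      have e1 : (2 : ℝ) • (a * c') = (a * c' + c * a') - (c * a' - a * c') := by
        rw [two_smul]; abel
      rw [h5, h7, sub_zero] at e1
      exact (smul_eq_zero.1 e1).resolve_left (by norm_num)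
    have h9 : e * x * f * y' * e' = a * c' := by
      rw [ha, hc']
      calc e * x * f * y' * e' = e * x * (f) * y' * e' := rfl
        _ = e * x * (f * f) * y' * e' := by rw [hff]
        _ = _ := by noncomm_ring
    rw [h9, h8]
  have hkey2 : ∀ z y y' : E →L[ℝ] E, RR O y y' → e * z * f * y' * e' = 0 := by
    intro z y y' hy
    refine curv_dual _ fun g => ?_
    have h1 := rr_corner1 h.ox (g ∘ₗ LinearMap.mulRight ℝ (y' * e')) e f (by
      intro a a' ha
      have h2 := hkey a a' y y' ha hy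
      simp only [LinearMap.comp_apply, LinearMap.mulRight_apply]
      rw [← mul_assoc, h2, map_zero]) z
    simp only [LinearMap.comp_apply, LinearMap.mulRight_apply] at h1
    rwa [← mul_assoc] at h1
  have hkey3 : ∀ z w : E →L[ℝ] E, e * z * f * w * e' = 0 := by
    intro z w
    refine curv_dual _ fun g => ?_
    exact rr_corner1 h.ox g (e * z * f) e' (by
      intro a a' ha
      rw [hkey2 z a' a (rr_swap h.ox ha), map_zero]) w
  obtain ⟨y0, hy0, hy1, hy2⟩ := curv_orth (v := v) (v' := v') hn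
  have h1 := congrArg (fun T : E →L[ℝ] E => T v') (hkey3 (ro y0 v) (ro v' y0))
  simp only [mx, he, he', hf, mid_apply, ro_apply, hvv', one_smul,
    inner_smul_right, hvv, hy1, hy2, zero_smul, sub_zero, mul_one, zero_apply] at h1
  have h2 : (inner ℝ y0 y0 : ℝ) ≠ 0 := inner_self_ne_zero.2 hy0
  have hv0 : v ≠ 0 := by
    intro h0
    rw [h0, norm_zero] at hv
    exact zero_ne_one hv
  exact (smul_ne_zero h2 hv0) h1

theorem curve_O {v v' : E} (hv : ‖v‖ = 1) (hv' : ‖v'‖ = 1) (ho : inner ℝ v v' = (0 : ℝ))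
    (h : OD O (ro v v) (ro v' v')) (hn : 3 ≤ Module.finrank ℝ E) {G : Subgroup (GE E)}
    (hG : G ∈ CCO O) : ∃ (q η : E) (g : ℕ → GE E), inner ℝ v q = (0 : ℝ) ∧
    inner ℝ v' q = (0 : ℝ) ∧ inner ℝ v η = (0 : ℝ) ∧ inner ℝ v' η = (0 : ℝ) ∧
    inner ℝ q η ≠ (0 : ℝ) ∧ g 0 = 1 ∧ (∀ i, g i ∈ G) ∧
    (∀ (i : ℕ) (x : E), inner ℝ v (((g i)⁻¹ : GE E) x) = (inner ℝ v x : ℝ) -
      i * (inner ℝ q x : ℝ) + (i : ℝ) ^ 2 * ((inner ℝ q η : ℝ) / 2 * (inner ℝ v' x : ℝ))) ∧
    ∀ i : ℕ, g i v' = v' + (i : ℝ) • η + ((i : ℝ) ^ 2 * ((inner ℝ q η : ℝ) / 2)) • v := by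
  have hvv : inner ℝ v v = (1 : ℝ) := by rw [real_inner_self_eq_norm_sq, hv]; norm_num
  have hvv' : inner ℝ v' v' = (1 : ℝ) := by rw [real_inner_self_eq_norm_sq, hv']; norm_num
  have ho' : inner ℝ v' v = (0 : ℝ) := by rw [real_inner_comm]; exact ho
  obtain ⟨a, a', hr, ha, ha', hne⟩ := curv_pair hv hv' ho h hn
  -- the vector of `a`
  set q0 : E := (InnerProductSpace.toDual ℝ E).symm ((innerSL ℝ v) ∘L a) with hq0
  have hq : ∀ x, inner ℝ q0 x = (inner ℝ v (a x) : ℝ) := by
    intro x
    rw [hq0, InnerProductSpace.toDual_symm_apply]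
    rfl
  have hav : ∀ x, a x = (inner ℝ q0 x : ℝ) • v := by
    intro x
    have h1 := congrArg (fun T : E →L[ℝ] E => T x) ha
    have h2 := congrArg (fun T : E →L[ℝ] E => T x) ha
    simp only [mx, ro_apply] at h1
    rw [hq]
    conv_lhs => rw [← h1]
    conv_rhs => rw [← h1]
    rw [inner_smul_right, hvv, mul_one]
  have hfv : mid (ro v v) (ro v' v') v = 0 := by
    rw [mid_apply, ro_apply, ro_apply, hvv, ho', one_smul, zero_smul, sub_self, sub_zero]
  have hfv' : mid (ro v v) (ro v' v') v' = 0 := by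
    rw [mid_apply, ro_apply, ro_apply, hvv', ho, one_smul, zero_smul, sub_zero, sub_self]
  have hqv : inner ℝ q0 v = (0 : ℝ) := by
    rw [hq]
    have h1 := congrArg (fun T : E →L[ℝ] E => T v) ha
    simp only [mx, hfv, map_zero] at h1
    rw [← h1, inner_zero_right]
  have hqv' : inner ℝ q0 v' = (0 : ℝ) := by
    rw [hq]
    have h1 := congrArg (fun T : E →L[ℝ] E => T v') ha
    simp only [mx, hfv', map_zero] at h1
    rw [← h1, inner_zero_right]
  -- the vector of `a'`
  set η0 : E := a' v' with hη0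
  have hav' : ∀ x, a' x = (inner ℝ v' x : ℝ) • η0 := by
    intro x
    have h1 := congrArg (fun T : E →L[ℝ] E => T x) ha'
    have h2 := congrArg (fun T : E →L[ℝ] E => T v') ha'
    simp only [mx, ro_apply, map_smul, hvv', one_smul] at h1 h2
    rw [← h1, h2]
  have hfη : mid (ro v v) (ro v' v') η0 = η0 := by
    have h2 := congrArg (fun T : E →L[ℝ] E => T v') ha'
    simp only [mx, ro_apply, map_smul, hvv', one_smul] at h2
    exact h2
  have hvη : inner ℝ v η0 = (0 : ℝ) := by
    rw [← hfη]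
    simp only [mid_apply, ro_apply, inner_sub_right, inner_smul_right, hvv, ho]
    ring
  have hv'η : inner ℝ v' η0 = (0 : ℝ) := by
    rw [← hfη]
    simp only [mid_apply, ro_apply, inner_sub_right, inner_smul_right, hvv', ho']
    ring
  have hqη : inner ℝ q0 η0 ≠ (0 : ℝ) := by
    intro h0
    apply hne
    ext x
    rw [mx, hav, hav', inner_smul_right, h0, mul_zero, zero_smul]
    rfl
  -- the operator
  set X : E →L[ℝ] E := a - a' with hX
  have hXx : ∀ x, X x = (inner ℝ q0 x : ℝ) • v - (inner ℝ v' x : ℝ) • η0 := by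
    intro x
    rw [hX, sub_apply, hav, hav']
  have hXv : X v = 0 := by rw [hXx, hqv, ho', zero_smul, zero_smul, sub_zero]
  have hXη : X η0 = (inner ℝ q0 η0 : ℝ) • v := by rw [hXx, hv'η, zero_smul, sub_zero]
  have hXX : ∀ x, X (X x) = -((inner ℝ v' x : ℝ) * (inner ℝ q0 η0 : ℝ)) • v := by
    intro x
    rw [hXx x, map_sub, map_smul, map_smul, hXv, hXη, smul_zero, zero_sub, smul_smul, neg_smul]
  have hcube : X ∘L X ∘L X = 0 := by
    ext x
    rw [ContinuousLinearMap.comp_apply, ContinuousLinearMap.comp_apply, hXX x, map_smul, hXv,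
      smul_zero]
    rfl
  have hrX : RR O X (-X) := by
    have h1 := rr_sub hr (rr_swap h.ox hr)
    rwa [← neg_sub a a'] at h1
  obtain ⟨M, hM, hte⟩ := cco_te h.ox hG hcube hrX
  have hM0 : (M : ℝ) ≠ 0 := Nat.cast_ne_zero.2 hM
  refine ⟨(M : ℝ) • q0, -((M : ℝ) • η0), fun i => te ((((M * i : ℕ) : ℤ) : ℝ) • X), ?_, ?_, ?_, ?_,
    ?_, ?_, ?_, ?_, ?_⟩
  · rw [inner_smul_right, real_inner_comm, hqv, mul_zero]
  · rw [inner_smul_right, real_inner_comm, hqv', mul_zero]
  · rw [inner_neg_right, inner_smul_right, hvη, mul_zero, neg_zero]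
  · rw [inner_neg_right, inner_smul_right, hv'η, mul_zero, neg_zero]
  · rw [inner_neg_right, inner_smul_right, real_inner_smul_left]
    exact neg_ne_zero.2 (mul_ne_zero hM0 (mul_ne_zero hM0 hqη))
  · apply ContinuousLinearEquiv.ext
    funext x
    rw [te_apply (te_smul_cube hcube _)]
    simp
    rfl
  · intro i
    exact hte _ ⟨(i : ℤ), by push_cast; ring⟩
  · intro i x
    rw [te_inv_apply (te_smul_cube hcube _)]
    simp only [smul_apply, map_smul, hXX, hXx, inner_add_right, inner_sub_right, inner_smul_right,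
      inner_neg_right, real_inner_smul_left, hvv, hvη, hqv]
    push_cast
    ring
  · intro i
    rw [te_apply (te_smul_cube hcube _)]
    have hX1 : X v' = -η0 := by rw [hXx, hqv', hvv', zero_smul, one_smul, zero_sub]
    simp only [smul_apply, map_smul, hX1, map_neg, hXη, inner_neg_right, inner_smul_right,
      real_inner_smul_left]
    push_cast
    module

end
end LatLin
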