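import Pool.Agent.Lib.MP_2392aa_gt.L.Defs

/-!
MP_2392aa_gt, formal linearization, outer type, isotropic vectors of rank one: definitions.

Standard position: `v, v'` orthonormal, `N = {v, v'}^⊥`. `uu v v'` is the two step nilpotent algebra of
the operators `x ↦ ⟪q, x⟫ v + ⟪v', x⟫ η` with `q ⟂ v`, `η ⟂ v'`: the flag is `ℝ v ⊆ v'^⊥`.
-/

open scoped ContDiff Topology

namespace LatLin

section
variable {E : Type*} [NormedAddCommGroup E] [InnerProductSpace ℝ E] {k : ℕ}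

/-- `a ↦ xd a w` as a linear map -/
noncomputable def xdL (w : HM E k) : (E →L[ℝ] E) →ₗ[ℝ] HM E k where
  toFun a := xd a w
  map_add' a b := by
    ext x
    simp only [Submodule.coe_add, Pi.add_apply, xd_apply, add_apply, map_add]
    abel
  map_smul' c a := by
    ext x
    simp only [SetLike.val_smul, Pi.smul_apply, xd_apply, smul_apply, map_smul, smul_sub,
      RingHom.id_apply]

@[simp] theorem xdL_apply (w : HM E k) (a : E →L[ℝ] E) : xdL w a = xd a w := rfl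

/-- the nilpotent algebra of the flag `ℝ v ⊆ v'^⊥` -/
def uu (v v' : E) : Submodule ℝ (E →L[ℝ] E) where
  carrier := {a | a v = 0 ∧ (∀ x, inner ℝ v' (a x) = (0 : ℝ)) ∧
    ∀ x, inner ℝ v' x = (0 : ℝ) → a x = (inner ℝ v (a x) : ℝ) • v}
  add_mem' := by
    rintro a b ⟨h1, h2, h3⟩ ⟨h4, h5, h6⟩
    refine ⟨by simp [h1, h4], fun x => by simp [inner_add_right, h2, h5], fun x hx => ?_⟩
    rw [add_apply, inner_add_right, add_smul, ← h3 x hx, ← h6 x hx]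
  zero_mem' := ⟨by simp, fun x => by simp, fun x _ => by simp⟩
  smul_mem' := by
    rintro c a ⟨h1, h2, h3⟩
    refine ⟨by simp [h1], fun x => by simp [inner_smul_right, h2], fun x hx => ?_⟩
    rw [smul_apply, inner_smul_right, mul_smul, ← h3 x hx]

/-- standard position of a torus element -/
structure Std (v v' : E) (lam mu : ℝ) (t : GE E) : Prop where
  nv : ‖v‖ = 1
  nv' : ‖v'‖ = 1
  orth : inner ℝ v v' = (0 : ℝ)
  l1 : 1 < |lam|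
  m0 : 0 < |mu|
  m1 : |mu| < 1
  tv : t v = lam • v
  tv' : t v' = lam • v'
  tN : ∀ y, inner ℝ v y = (0 : ℝ) → inner ℝ v' y = (0 : ℝ) → t y = mu • y
  big : ∃ y, y ≠ 0 ∧ inner ℝ v y = (0 : ℝ) ∧ inner ℝ v' y = (0 : ℝ)

/-- equivariant cocycles of the Lie algebra `uu v v'` -/
structure UCoc (v v' : E) (t : GE E) (β : (E →L[ℝ] E) →ₗ[ℝ] HM E k) : Prop where
  coc : ∀ a ∈ uu v v', ∀ a' ∈ uu v v',
    xd a (β a') - xd a' (β a) = β (a ∘L a' - a' ∘L a)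
  eq : ∀ a ∈ uu v v',
    β ((t : E →L[ℝ] E) ∘L a ∘L ((t⁻¹ : GE E) : E →L[ℝ] E)) = pi k t (β a)

/-- what the gluing argument needs: `S'` are the elements of `G` in the unipotent group of the flag
`ℝ v' ⊆ v^⊥` -/
structure OGlue (G : Subgroup (GE E)) (v v' : E) (S' : Set (GE E)) : Prop where
  nv : ‖v‖ = 1
  nv' : ‖v'‖ = 1
  orth : inner ℝ v v' = (0 : ℝ)
  sub : ∀ s ∈ S', s ∈ G
  kl : ∀ (k : ℕ) (w : HM E k), (∀ s ∈ S', pi k s w = w) → w ∈ kil k (uu v' v)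
  cj : ∀ g ∈ G, (∀ a ∈ uu v' v,
      (g : E →L[ℝ] E) ∘L a ∘L ((g⁻¹ : GE E) : E →L[ℝ] E) ∈ uu v' v) →
    ∀ s ∈ S', g * s * g⁻¹ ∈ S'
  pair : ∀ γ ∈ G, inner ℝ v (γ v') ≠ (0 : ℝ) → inner ℝ v ((γ⁻¹ : GE E) v') ≠ (0 : ℝ) ∧
    ∃ t ∈ G, ∃ lam mu : ℝ, 1 < |lam| ∧ 0 < |mu| ∧ |mu| < 1 ∧ t v' = lam • v' ∧
      t (γ v') = lam • γ v' ∧
      ∀ y, inner ℝ v y = (0 : ℝ) → inner ℝ v ((γ⁻¹ : GE E) y) = (0 : ℝ) → t y = mu • y
  curve : ∃ (q η : E) (g : ℕ → GE E), inner ℝ v q = (0 : ℝ) ∧ inner ℝ v' q = (0 : ℝ) ∧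
    inner ℝ v η = (0 : ℝ) ∧ inner ℝ v' η = (0 : ℝ) ∧ inner ℝ q η ≠ (0 : ℝ) ∧ g 0 = 1 ∧
    (∀ i, g i ∈ G) ∧
    (∀ (i : ℕ) (x : E), inner ℝ v (((g i)⁻¹ : GE E) x) = (inner ℝ v x : ℝ) -
      i * (inner ℝ q x : ℝ) + (i : ℝ) ^ 2 * ((inner ℝ q η : ℝ) / 2 * (inner ℝ v' x : ℝ))) ∧
    ∀ i : ℕ, g i v' = v' + (i : ℝ) • η + ((i : ℝ) ^ 2 * ((inner ℝ q η : ℝ) / 2)) • v
  mov : ∀ y, y ≠ 0 → inner ℝ v y = (0 : ℝ) → inner ℝ v' y = (0 : ℝ) →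
    ∃ h ∈ G, inner ℝ v (h y) ≠ (0 : ℝ) ∧ h v = v

end
end LatLin
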