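import Pool.Agent.Lib.MP_2392aa_gt.L.Fix

/-!
MP_2392aa_gt, formal linearization, outer type: definitions (helper69).

`E = V + N + V'`, `e`, `e'` are the orthogonal projections onto `V` and `V'`, `mid e e'` is the
projection onto `N`. `uO e e'` is the Lie algebra of the block upper unipotent group
(`a V = 0`, `a N ⊆ V`, `a V' ⊆ V + N`), `uO e' e` the opposite one.
-/

open scoped ContDiff Topology

namespace LatLin

section
variable {E : Type*} [NormedAddCommGroup E] [InnerProductSpace ℝ E]

/-- two orthogonal projections with orthogonal ranges -/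
structure PP (e e' : E →L[ℝ] E) : Prop where
  pr : IsPr e
  pr' : IsPr e'
  o : ∀ x, e (e' x) = 0
  o' : ∀ x, e' (e x) = 0

theorem PP.symm {e e' : E →L[ℝ] E} (h : PP e e') : PP e' e := ⟨h.pr', h.pr, h.o', h.o⟩

/-- the projection onto the middle block -/
noncomputable def mid (e e' : E →L[ℝ] E) : E →L[ℝ] E := ContinuousLinearMap.id ℝ E - e - e'

@[simp] theorem mid_apply (e e' : E →L[ℝ] E) (x : E) : mid e e' x = x - e x - e' x := rfl

theorem mid_symm (e e' : E →L[ℝ] E) : mid e e' = mid e' e := by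
  ext x
  simp only [mid_apply]
  abel

/-- the Lie algebra of the block upper unipotent group -/
def uO (e e' : E →L[ℝ] E) : Submodule ℝ (E →L[ℝ] E) := uT e ⊔ uS e'

open Classical in
/-- the element `1 + a + a ^ 2 / 2` of the linear group, for `a ^ 3 = 0` (and `1` if `a ^ 3 ≠ 0`) -/
noncomputable def te (a : E →L[ℝ] E) : GE E :=
  if h : a ∘L a ∘L a = 0 then
    ContinuousLinearEquiv.equivOfInverse
      (ContinuousLinearMap.id ℝ E + a + (1 / 2 : ℝ) • (a ∘L a))
      (ContinuousLinearMap.id ℝ E - a + (1 / 2 : ℝ) • (a ∘L a))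
      (fun x => by
        have h1 : a (a (a x)) = 0 := by simpa using congrArg (fun f => f x) h
        simp only [add_apply, sub_apply, smul_apply, ContinuousLinearMap.comp_apply, map_add,
          map_smul, ContinuousLinearMap.id_apply, h1, map_zero, smul_zero, add_zero]
        module)
      (fun x => by
        have h1 : a (a (a x)) = 0 := by simpa using congrArg (fun f => f x) h
        simp only [add_apply, sub_apply, smul_apply, ContinuousLinearMap.comp_apply, map_add,
          map_sub, map_smul, ContinuousLinearMap.id_apply, h1, map_zero, smul_zero, add_zero]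
        module)
  else 1

theorem te_apply {a : E →L[ℝ] E} (h : a ∘L a ∘L a = 0) (x : E) :
    te a x = x + a x + (1 / 2 : ℝ) • a (a x) := by
  unfold te
  rw [dif_pos h]
  rfl

theorem te_inv_apply {a : E →L[ℝ] E} (h : a ∘L a ∘L a = 0) (x : E) :
    (te a)⁻¹ x = x - a x + (1 / 2 : ℝ) • a (a x) := by
  unfold te
  rw [dif_pos h]
  rfl

/-- the elements `te a`, `a ∈ u` -/
def tes (u : Submodule ℝ (E →L[ℝ] E)) : Set (GE E) := {g | ∃ a ∈ u, g = te a}

/-- all triple products of elements of `u` vanish, and `u` is a Lie algebra -/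
structure N3 (u : Submodule ℝ (E →L[ℝ] E)) : Prop where
  cube : ∀ a ∈ u, ∀ a' ∈ u, ∀ a'' ∈ u, a ∘L a' ∘L a'' = 0
  br : ∀ a ∈ u, ∀ a' ∈ u, a ∘L a' - a' ∘L a ∈ u

/-- lattice data for a two step unipotent group: `te a ∈ G` for all `a` in the integer span of a
real basis of `u`, this span is closed under half the bracket, and every `a ∈ u` with `te a ∈ G`
has a multiple in it -/
def Lat2 (G : Subgroup (GE E)) (u : Submodule ℝ (E →L[ℝ] E)) : Prop :=
  ∃ (n : ℕ) (c : Fin n → (E →L[ℝ] E)), LinearIndependent ℝ c ∧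
    Submodule.span ℝ (Set.range c) = u ∧
    (∀ a ∈ Submodule.span ℤ (Set.range c), te a ∈ G) ∧
    (∀ a ∈ Submodule.span ℤ (Set.range c), ∀ a' ∈ Submodule.span ℤ (Set.range c),
      (1 / 2 : ℝ) • (a ∘L a' - a' ∘L a) ∈ Submodule.span ℤ (Set.range c)) ∧
    ∀ a ∈ u, te a ∈ G → ∃ M : ℕ, M ≠ 0 ∧ (M : ℤ) • a ∈ Submodule.span ℤ (Set.range c)

/-- block diagonal elements -/
def blkL (e e' : E →L[ℝ] E) : Set (GE E) :=
  {g | (∀ x, e (g x) = g (e x)) ∧ ∀ x, e' (g x) = g (e' x)}

/-- block diagonal elements which are the identity on the middle block -/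
def blk2 (e e' : E →L[ℝ] E) : Set (GE E) :=
  {g | g ∈ blkL e e' ∧ ∀ x, e x = 0 → e' x = 0 → g x = x}

private theorem sc_aux {e e' : E →L[ℝ] E} (h : PP e e') {α β α' β' : ℝ} (hα : α' * α = 1)
    (hβ : β' * β = 1) (x : E) :
    (α' • (e + e') + β' • mid e e') ((α • (e + e') + β • mid e e') x) = x := by
  obtain ⟨⟨h1, -⟩, ⟨h2, -⟩, h3, h4⟩ := h
  have e1 : e ((α • (e + e') + β • mid e e') x) = α • e x := by
    simp only [add_apply, smul_apply, mid_apply, map_add, map_smul, map_sub, h1, h2, h3, h4]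
    module
  have e2 : e' ((α • (e + e') + β • mid e e') x) = α • e' x := by
    simp only [add_apply, smul_apply, mid_apply, map_add, map_smul, map_sub, h1, h2, h3, h4]
    module
  have e3 : (α • (e + e') + β • mid e e') x = α • e x + α • e' x + β • (x - e x - e' x) := by
    simp only [add_apply, smul_apply, mid_apply]
    module
  calc (α' • (e + e') + β' • mid e e') ((α • (e + e') + β • mid e e') x)
      = α' • (e ((α • (e + e') + β • mid e e') x) + e' ((α • (e + e') + β • mid e e') x)) +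
        β' • ((α • (e + e') + β • mid e e') x - e ((α • (e + e') + β • mid e e') x) -
          e' ((α • (e + e') + β • mid e e') x)) := rfl
    _ = α' • (α • e x + α • e' x) + β' • (β • (x - e x - e' x)) := by
        rw [e1, e2, e3]
        congr 2
        abel
    _ = (α' * α) • (e x + e' x) + (β' * β) • (x - e x - e' x) := by module
    _ = x := by
        rw [hα, hβ]
        module

open Classical in
/-- the element which is `α` on `V` and `V'` and `β` on `N` (and `1` if the data are wrong) -/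
noncomputable def sc (e e' : E →L[ℝ] E) (α β : ℝ) : GE E :=
  if h : (PP e e' ∧ α ≠ 0 ∧ β ≠ 0) then
    ContinuousLinearEquiv.equivOfInverse
      (α • (e + e') + β • mid e e') (α⁻¹ • (e + e') + β⁻¹ • mid e e')
      (fun x => sc_aux h.1 (inv_mul_cancel₀ h.2.1) (inv_mul_cancel₀ h.2.2) x)
      (fun x => sc_aux h.1 (mul_inv_cancel₀ h.2.1) (mul_inv_cancel₀ h.2.2) x)
  else 1

theorem sc_apply {e e' : E →L[ℝ] E} (h : PP e e') {α β : ℝ} (hα : α ≠ 0) (hβ : β ≠ 0) (x : E) :
    sc e e' α β x = α • (e x + e' x) + β • (x - e x - e' x) := by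
  unfold sc
  rw [dif_pos ⟨h, hα, hβ⟩]
  rfl

theorem sc_inv {e e' : E →L[ℝ] E} (h : PP e e') {α β : ℝ} (hα : α ≠ 0) (hβ : β ≠ 0) (x : E) :
    (sc e e' α β)⁻¹ x = α⁻¹ • (e x + e' x) + β⁻¹ • (x - e x - e' x) := by
  unfold sc
  rw [dif_pos ⟨h, hα, hβ⟩]
  rfl

end

section
universe u
variable {E : Type u} [NormedAddCommGroup E] [InnerProductSpace ℝ E]

/-- density of the elements of `G` acting on `V` and `V'` only, for polynomial representations:
invariants modulo a submodule are invariant under all transvections of `V` and of `V'` -/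
def Dn2 (G : Subgroup (GE E)) (e e' : E →L[ℝ] E) : Prop :=
  ∀ (X : Type u) [AddCommGroup X] [Module ℝ X] [FiniteDimensional ℝ X]
    (π : GE E →* Module.End ℝ X), PRep π → ∀ B : Submodule ℝ X,
    (∀ g ∈ blk2 e e', ∀ y ∈ B, π g y ∈ B) → ∀ x : X,
    (∀ γ ∈ G, γ ∈ blk2 e e' → π γ x - x ∈ B) →
    ∀ q u : E, inner ℝ q u = (0 : ℝ) → ((e q = q ∧ e u = u) ∨ (e' q = q ∧ e' u = u)) →
      π (tv q u) x - x ∈ B

end
end LatLin
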