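import Pool.Agent.Lib.MP_2392aa_gt.O.DivDef

/-!
MP_2392aa_gt, formal linearization, outer type, module DivDet (about 260 lines): the determinants of
the elements of the order take finitely many values in a bounded region. (The proof of
`LatN.det_outer` in LatN/OuDet is the model.)

PROOF. If `δ` is empty the set has one element. Let `d := card δ ≥ 1`, `n := 2 d ^ 2`, `b` the basis from
`hD.ord`, `N`, `D` from `hD.sqrt` (`D ≥ 1`). For `x = (a, op c) ∈ D0` the left multiplication `L_x` of the real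
algebra `DM δ`, `(y, op z) ↦ (a y, op (z c))`, maps `D0` to `D0`, so its matrix in the basis `b` is an integer
matrix `X`; the left multiplication by `N (√D, op (-√D))` has an integer matrix `S`. Let
`Y := (N D) (X + 1) + √D (X - 1) S`, a matrix over `ℤ√D` (`Zsqrtd D`), and `φ₊`, `φ₋` the two ring homomorphisms
`ℤ√D → ℝ` (`Zsqrtd.lift`). By `RingHom.map_det` `φ₊ (det Y)` is the determinant of the real operator
`N D (L_x + 1) + √D (L_x - 1) L_s`, `L_s` = multiplication by `N √D` on the first factor and by `- N √D` on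
the second one. On the first factor this operator is `2 N D L_x`, on the second one `2 N D`. The
determinant of `y ↦ a y` on `M_δ(ℝ)` is `(det a) ^ d` (it acts on the columns: `Matrix.det_blockDiagonal`, or
`LinearMap.det_pi`), the determinant of `z ↦ z c` is `(det c) ^ d`. So `φ₊ (det Y) = (2 N D) ^ n (det a) ^ d`,
and in the same way `φ₋ (det Y) = (2 N D) ^ n (det c) ^ d`. With `det Y = p + q √D`: `2 p` and `2 q √D` are the
sum and the difference, bounded by a constant depending on `B` only, so there are finitely many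
`(p, q)`, finitely many values of `((det a) ^ d, (det c) ^ d)`, and finitely many values of
`(det a, det c)` (`t ^ d = const` has at most two real solutions; e.g. the set is contained in the
preimage of a finite set, roots of the nonzero polynomials `X ^ d - C r`).
`det_T`: the determinant of the linear map `(y, op z) ↦ (a y, op (z c))` of `DM δ` is `(det a) ^ d (det c) ^ d`;
`det_R`: the same for `(y, op z) ↦ (y a, op (c z))`.
-/

open MulOpposite
open LatN (DM)

namespace LatLin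

section aux

/-- the matrix of a linear map preserving the lattice has integer entries -/
private theorem intm {ι V : Type*} [Fintype ι] [DecidableEq ι] [AddCommGroup V] [Module ℝ V]
    (b : Module.Basis ι ℝ V) (T : V →ₗ[ℝ] V)
    (hT : ∀ x ∈ Submodule.span ℤ (Set.range b), T x ∈ Submodule.span ℤ (Set.range b)) :
    ∃ A : Matrix ι ι ℤ, LinearMap.toMatrix b b T = A.map (Int.cast : ℤ → ℝ) := by
  have h : ∀ i j, ∃ n : ℤ, LinearMap.toMatrix b b T i j = (n : ℝ) := by
    intro i j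
    have h1 := hT (b j) (Submodule.subset_span ⟨j, rfl⟩)
    rw [b.mem_span_iff_repr_mem ℤ] at h1
    obtain ⟨n, hn⟩ := h1 i
    exact ⟨n, by rw [LinearMap.toMatrix_apply, ← hn]; simp⟩
  choose A hA using h
  exact ⟨A, by ext i j; rw [hA]; rfl⟩

variable {δ : Type*} [Fintype δ] [DecidableEq δ]

/-- left multiplication -/
private noncomputable def LM (A : Matrix δ δ ℝ) : Matrix δ δ ℝ →ₗ[ℝ] Matrix δ δ ℝ :=
  LinearMap.mulLeft ℝ A

/-- right multiplication -/
private noncomputable def RM (A : Matrix δ δ ℝ) : Matrix δ δ ℝ →ₗ[ℝ] Matrix δ δ ℝ :=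
  LinearMap.mulRight ℝ A

private theorem det_LM (A : Matrix δ δ ℝ) :
    LinearMap.det (LM A) = A.det ^ Fintype.card δ := by
  rw [← LinearMap.det_toMatrix (Matrix.stdBasis ℝ δ δ)]
  have h : LinearMap.toMatrix (Matrix.stdBasis ℝ δ δ) (Matrix.stdBasis ℝ δ δ) (LM A)
      = Matrix.kroneckerMap (fun x y => x * y) A (1 : Matrix δ δ ℝ) := by
    ext ⟨i, j⟩ ⟨k, l⟩
    rw [LinearMap.toMatrix_apply, Matrix.stdBasis_eq_single, LM, LinearMap.mulLeft_apply]
    simp [Matrix.stdBasis, Matrix.mul_apply, Matrix.single_apply, Matrix.one_apply]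
    by_cases hjl : j = l
    · subst hjl
      simp
    · rw [if_neg hjl]
      refine Finset.sum_eq_zero fun x _ => if_neg fun h => hjl h.2.symm
  rw [h]
  have h2 := Matrix.det_kronecker A (1 : Matrix δ δ ℝ)
  rw [Matrix.det_one, one_pow, mul_one] at h2
  exact h2

private theorem det_RM (A : Matrix δ δ ℝ) :
    LinearMap.det (RM A) = A.det ^ Fintype.card δ := by
  rw [← LinearMap.det_toMatrix (Matrix.stdBasis ℝ δ δ)]
  have h : LinearMap.toMatrix (Matrix.stdBasis ℝ δ δ) (Matrix.stdBasis ℝ δ δ) (RM A)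
      = Matrix.kroneckerMap (fun x y => x * y) (1 : Matrix δ δ ℝ) A.transpose := by
    ext ⟨i, j⟩ ⟨k, l⟩
    rw [LinearMap.toMatrix_apply, Matrix.stdBasis_eq_single, RM, LinearMap.mulRight_apply]
    simp [Matrix.stdBasis, Matrix.mul_apply, Matrix.single_apply, Matrix.one_apply]
    by_cases hik : i = k
    · subst hik
      simp
    · rw [if_neg hik]
      refine Finset.sum_eq_zero fun x _ => if_neg fun h => hik h.1.symm
  rw [h]
  have h2 := Matrix.det_kronecker (1 : Matrix δ δ ℝ) A.transpose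
  rw [Matrix.det_one, one_pow, one_mul, Matrix.det_transpose] at h2
  exact h2

/-- the identification of `DM δ` with pairs of matrices -/
private noncomputable def eDM : (Matrix δ δ ℝ × Matrix δ δ ℝ) ≃ₗ[ℝ] DM δ :=
  LinearEquiv.prodCongr (LinearEquiv.refl ℝ (Matrix δ δ ℝ)) (MulOpposite.opLinearEquiv ℝ)

omit [DecidableEq δ] in
private theorem det_pair (f g : Matrix δ δ ℝ →ₗ[ℝ] Matrix δ δ ℝ) (T : DM δ →ₗ[ℝ] DM δ)
    (h : ∀ x : DM δ, T x = (f x.1, op (g (unop x.2)))) :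
    LinearMap.det T = LinearMap.det f * LinearMap.det g := by
  have h1 : T = (eDM (δ := δ)).toLinearMap ∘ₗ (LinearMap.prodMap f g) ∘ₗ
      (eDM (δ := δ)).symm.toLinearMap := by
    apply LinearMap.ext
    intro x
    rw [h x]
    rfl
  rw [h1, LinearMap.det_conj, LinearMap.det_prodMap]

end aux

section
variable {δ : Type*} [Fintype δ] [DecidableEq δ]

/-- `(y, op z) ↦ (a y, op (z c))` -/
def TL (a c : Matrix δ δ ℝ) : DM δ →ₗ[ℝ] DM δ where
  toFun x := (a * x.1, op (unop x.2 * c))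
  map_add' x y := by
    ext1
    · exact mul_add _ _ _
    · apply unop_injective
      exact add_mul _ _ _
  map_smul' t x := by
    ext1
    · exact Matrix.mul_smul _ _ _
    · apply unop_injective
      exact Matrix.smul_mul _ _ _

/-- `(y, op z) ↦ (y a, op (c z))` -/
def TR (a c : Matrix δ δ ℝ) : DM δ →ₗ[ℝ] DM δ where
  toFun x := (x.1 * a, op (c * unop x.2))
  map_add' x y := by
    ext1
    · exact add_mul _ _ _
    · apply unop_injective
      exact mul_add _ _ _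
  map_smul' t x := by
    ext1
    · exact Matrix.smul_mul _ _ _
    · apply unop_injective
      exact Matrix.mul_smul _ _ _

theorem det_TL (a c : Matrix δ δ ℝ) :
    LinearMap.det (TL a c) = a.det ^ Fintype.card δ * c.det ^ Fintype.card δ := by
  rw [det_pair (LM a) (RM c) (TL a c) (fun _ => rfl), det_LM, det_RM]

theorem det_TR (a c : Matrix δ δ ℝ) :
    LinearMap.det (TR a c) = a.det ^ Fintype.card δ * c.det ^ Fintype.card δ := by
  rw [det_pair (RM a) (LM c) (TR a c) (fun _ => rfl), det_RM, det_LM]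

private theorem TL_mul (x y : DM δ) : TL x.1 (unop x.2) y = x * y := rfl

/-- the operator which is `2 t a` on the first factor and `2 t` on the second one -/
private theorem op_plus {D : ℕ} (N : ℤ) (a c : Matrix δ δ ℝ) :
    (((N * (D : ℤ) : ℤ) : ℝ) • (TL a c + 1) +
      Real.sqrt D • ((TL a c - 1) * TL (N • (Real.sqrt D • (1 : Matrix δ δ ℝ)))
        (N • (-(Real.sqrt D • (1 : Matrix δ δ ℝ)))))) =
      TL ((2 * ((N * (D : ℤ) : ℤ) : ℝ)) • a) ((2 * ((N * (D : ℤ) : ℤ) : ℝ)) • 1) := by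
  have hD : Real.sqrt D * Real.sqrt D = (D : ℝ) := Real.mul_self_sqrt (Nat.cast_nonneg D)
  have hz : ∀ y : Matrix δ δ ℝ, N • y = (N : ℝ) • y := fun y => (Int.cast_smul_eq_zsmul ℝ N y).symm
  apply LinearMap.ext
  intro x
  ext1
  · show ((N * (D : ℤ) : ℤ) : ℝ) • (a * x.1 + x.1) + Real.sqrt D •
      (a * ((N • (Real.sqrt D • (1 : Matrix δ δ ℝ))) * x.1) -
        (N • (Real.sqrt D • (1 : Matrix δ δ ℝ))) * x.1) =
      ((2 * ((N * (D : ℤ) : ℤ) : ℝ)) • a) * x.1
    rw [hz, smul_smul, Matrix.smul_mul, one_mul, Matrix.mul_smul, Matrix.smul_mul, ← smul_sub,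
      smul_smul]
    have h1 : Real.sqrt D * ((N : ℝ) * Real.sqrt D) = ((N * (D : ℤ) : ℤ) : ℝ) := by
      push_cast
      linear_combination (N : ℝ) * hD
    rw [h1, two_mul, add_smul, smul_add, smul_sub]
    abel
  · apply unop_injective
    show ((N * (D : ℤ) : ℤ) : ℝ) • (unop x.2 * c + unop x.2) + Real.sqrt D •
      ((unop x.2 * (N • (-(Real.sqrt D • (1 : Matrix δ δ ℝ))))) * c -
        (unop x.2 * (N • (-(Real.sqrt D • (1 : Matrix δ δ ℝ)))))) =
      unop x.2 * ((2 * ((N * (D : ℤ) : ℤ) : ℝ)) • 1)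
    rw [hz, ← neg_smul, smul_smul, Matrix.mul_smul, mul_one, Matrix.smul_mul, Matrix.mul_smul,
      mul_one, ← smul_sub, smul_smul]
    have h1 : Real.sqrt D * ((N : ℝ) * -Real.sqrt D) = -((N * (D : ℤ) : ℤ) : ℝ) := by
      push_cast
      linear_combination (-(N : ℝ)) * hD
    rw [h1, two_mul, add_smul, smul_add, neg_smul, smul_sub]
    abel

/-- the operator which is `2 t` on the first factor and `2 t c` on the second one -/
private theorem op_minus {D : ℕ} (N : ℤ) (a c : Matrix δ δ ℝ) :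
    (((N * (D : ℤ) : ℤ) : ℝ) • (TL a c + 1) +
      (-Real.sqrt D) • ((TL a c - 1) * TL (N • (Real.sqrt D • (1 : Matrix δ δ ℝ)))
        (N • (-(Real.sqrt D • (1 : Matrix δ δ ℝ)))))) =
      TL ((2 * ((N * (D : ℤ) : ℤ) : ℝ)) • 1) ((2 * ((N * (D : ℤ) : ℤ) : ℝ)) • c) := by
  have hD : Real.sqrt D * Real.sqrt D = (D : ℝ) := Real.mul_self_sqrt (Nat.cast_nonneg D)
  have hz : ∀ y : Matrix δ δ ℝ, N • y = (N : ℝ) • y := fun y => (Int.cast_smul_eq_zsmul ℝ N y).symm
  apply LinearMap.ext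
  intro x
  ext1
  · show ((N * (D : ℤ) : ℤ) : ℝ) • (a * x.1 + x.1) + (-Real.sqrt D) •
      (a * ((N • (Real.sqrt D • (1 : Matrix δ δ ℝ))) * x.1) -
        (N • (Real.sqrt D • (1 : Matrix δ δ ℝ))) * x.1) =
      ((2 * ((N * (D : ℤ) : ℤ) : ℝ)) • 1) * x.1
    rw [hz, smul_smul, Matrix.smul_mul, one_mul, Matrix.mul_smul, Matrix.smul_mul, one_mul,
      ← smul_sub, smul_smul]
    have h1 : -Real.sqrt D * ((N : ℝ) * Real.sqrt D) = -((N * (D : ℤ) : ℤ) : ℝ) := by
      push_cast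
      linear_combination (-(N : ℝ)) * hD
    rw [h1, two_mul, add_smul, smul_add, neg_smul, smul_sub]
    abel
  · apply unop_injective
    show ((N * (D : ℤ) : ℤ) : ℝ) • (unop x.2 * c + unop x.2) + (-Real.sqrt D) •
      ((unop x.2 * (N • (-(Real.sqrt D • (1 : Matrix δ δ ℝ))))) * c -
        (unop x.2 * (N • (-(Real.sqrt D • (1 : Matrix δ δ ℝ)))))) =
      unop x.2 * ((2 * ((N * (D : ℤ) : ℤ) : ℝ)) • c)
    rw [hz, ← neg_smul, smul_smul, Matrix.mul_smul, mul_one, Matrix.smul_mul, Matrix.mul_smul,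
      ← smul_sub, smul_smul]
    have h1 : -Real.sqrt D * ((N : ℝ) * -Real.sqrt D) = ((N * (D : ℤ) : ℤ) : ℝ) := by
      push_cast
      linear_combination (N : ℝ) * hD
    rw [h1, two_mul, add_smul, smul_add, smul_sub]
    abel

theorem div_det {D0 : Subring (DM δ)} (hD : DivOO δ D0) (B : ℝ) :
    {p : ℝ × ℝ | ∃ x ∈ D0, p = (x.1.det, (unop x.2).det) ∧ |p.1| ≤ B ∧ |p.2| ≤ B}.Finite := by
  rcases isEmpty_or_nonempty δ with he | hne
  · refine (Set.finite_singleton ((1 : ℝ), (1 : ℝ))).subset ?_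
    rintro p ⟨x, -, rfl, -, -⟩
    rw [Matrix.det_isEmpty, Matrix.det_isEmpty]
    rfl
  obtain ⟨b, hb⟩ := hD.ord
  obtain ⟨D, N, hDsq, hN, hs⟩ := hD.sqrt
  have hD0 : 0 < D := by
    rcases Nat.eq_zero_or_pos D with h0 | h0
    · exact absurd (by rw [h0]; exact ⟨0, rfl⟩) hDsq
    · exact h0
  have hDr : (0 : ℝ) < D := by exact_mod_cast hD0
  have hDD : Real.sqrt D * Real.sqrt D = (D : ℝ) := Real.mul_self_sqrt hDr.le
  have hr1 : (1 : ℝ) ≤ Real.sqrt D := by
    rw [Real.one_le_sqrt]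
    exact_mod_cast hD0
  -- integer matrices of left multiplications
  have hint : ∀ x ∈ D0, ∃ A : Matrix ((δ × δ) ⊕ (δ × δ)) ((δ × δ) ⊕ (δ × δ)) ℤ,
      LinearMap.toMatrix b b (TL x.1 (unop x.2)) = A.map (Int.cast : ℤ → ℝ) := by
    intro x hx
    refine intm b _ fun y hy => ?_
    rw [← hb] at hy ⊢
    rw [TL_mul]
    exact D0.mul_mem hx hy
  obtain ⟨S, hS⟩ := hint _ hs
  set Ls : DM δ →ₗ[ℝ] DM δ := TL (N • (Real.sqrt D • (1 : Matrix δ δ ℝ)))
        (N • (-(Real.sqrt D • (1 : Matrix δ δ ℝ)))) with hLs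
  have hS' : LinearMap.toMatrix b b Ls = S.map (Int.cast : ℤ → ℝ) := hS
  set d := Fintype.card δ with hd
  have hd1 : d ≠ 0 := Fintype.card_ne_zero
  set t : ℝ := ((N * (D : ℤ) : ℤ) : ℝ) with ht
  have ht0 : t ≠ 0 := by
    rw [ht]
    exact_mod_cast mul_ne_zero hN (by exact_mod_cast hD0.ne')
  -- the two homomorphisms
  let φp : ℤ√(D : ℤ) →+* ℝ := Zsqrtd.lift ⟨Real.sqrt D, by rw [hDD]; push_cast; rfl⟩
  let φm : ℤ√(D : ℤ) →+* ℝ := Zsqrtd.lift ⟨-Real.sqrt D, by rw [neg_mul_neg, hDD]; push_cast; rfl⟩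
  have hφp : ∀ z : ℤ√(D : ℤ), φp z = z.re + z.im * Real.sqrt D := fun z => rfl
  have hφm : ∀ z : ℤ√(D : ℤ), φm z = z.re + z.im * (-Real.sqrt D) := fun z => rfl
  set W : ℝ := (((2 * t) ^ d) ^ d) * (((2 * t) ^ d) ^ d) with hW
  have hW0 : 0 < W := by
    have h1 : ((2 * t) ^ d) ^ d ≠ 0 := pow_ne_zero _ (pow_ne_zero _ (mul_ne_zero two_ne_zero ht0))
    exact mul_self_pos.2 h1
  have key : ∀ x ∈ D0, ∃ p q : ℤ, W * x.1.det ^ d = p + q * Real.sqrt D ∧
      W * (unop x.2).det ^ d = p - q * Real.sqrt D := by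
    intro x hx
    obtain ⟨X, hX⟩ := hint x hx
    let c : ℤ →+* ℤ√(D : ℤ) := Int.castRingHom _
    let Y : Matrix ((δ × δ) ⊕ (δ × δ)) ((δ × δ) ⊕ (δ × δ)) (ℤ√(D : ℤ)) :=
      ((N * (D : ℤ) : ℤ) : ℤ√(D : ℤ)) • (c.mapMatrix X + 1) +
      (Zsqrtd.sqrtd : ℤ√(D : ℤ)) • ((c.mapMatrix X - 1) * c.mapMatrix S)
    have hcomp : ∀ (φ : ℤ√(D : ℤ) →+* ℝ) (Q : Matrix ((δ × δ) ⊕ (δ × δ)) ((δ × δ) ⊕ (δ × δ)) ℤ),
        φ.mapMatrix (c.mapMatrix Q) = Q.map (Int.cast : ℤ → ℝ) := by
      intro φ Q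
      ext i j
      simp [c]
    have hmap : ∀ (φ : ℤ√(D : ℤ) →+* ℝ), φ.mapMatrix Y =
        LinearMap.toMatrix b b (t • (TL x.1 (unop x.2) + 1) +
          (φ Zsqrtd.sqrtd) • ((TL x.1 (unop x.2) - 1) * Ls)) := by
      intro φ
      have hsm : ∀ (z : ℤ√(D : ℤ)) (Q : Matrix ((δ × δ) ⊕ (δ × δ)) ((δ × δ) ⊕ (δ × δ)) (ℤ√(D : ℤ))),
          φ.mapMatrix (z • Q) = φ z • φ.mapMatrix Q := by
        intro z Q
        ext i j
        simp
      have hR : LinearMap.toMatrix b b (t • (TL x.1 (unop x.2) + 1) +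
          (φ Zsqrtd.sqrtd) • ((TL x.1 (unop x.2) - 1) * Ls)) =
          t • (X.map (Int.cast : ℤ → ℝ) + 1) +
          (φ Zsqrtd.sqrtd) • ((X.map (Int.cast : ℤ → ℝ) - 1) * S.map (Int.cast : ℤ → ℝ)) := by
        rw [map_add, map_smul, map_smul, map_add, LinearMap.toMatrix_mul, map_sub,
          LinearMap.toMatrix_one, hX, hS']
      rw [hR]
      show φ.mapMatrix (((N * (D : ℤ) : ℤ) : ℤ√(D : ℤ)) • (c.mapMatrix X + 1) +
        (Zsqrtd.sqrtd : ℤ√(D : ℤ)) • ((c.mapMatrix X - 1) * c.mapMatrix S)) = _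
      rw [map_add, hsm, hsm, map_add, map_mul, map_sub, map_one, hcomp, hcomp, map_intCast]
    have hdp : φp Y.det = W * x.1.det ^ d := by
      rw [RingHom.map_det, hmap, LinearMap.det_toMatrix]
      have h1 : φp Zsqrtd.sqrtd = Real.sqrt D := by rw [hφp]; simp
      rw [h1, ht, hLs, op_plus, ← ht, det_TL, Matrix.det_smul, Matrix.det_smul, Matrix.det_one, hW,
        ← hd]
      ring
    have hdm : φm Y.det = W * (unop x.2).det ^ d := by
      rw [RingHom.map_det, hmap, LinearMap.det_toMatrix]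
      have h1 : φm Zsqrtd.sqrtd = -Real.sqrt D := by rw [hφm]; simp
      rw [h1, ht, hLs, op_minus, ← ht, det_TL, Matrix.det_smul, Matrix.det_smul, Matrix.det_one, hW,
        ← hd]
      ring
    refine ⟨Y.det.re, Y.det.im, ?_, ?_⟩
    · rw [← hdp, hφp]
    · rw [← hdm, hφm]
      ring
  -- finiteness
  have hBm : 0 ≤ |B| ^ d := by positivity
  set P : Set ℤ := {p : ℤ | |(p : ℝ)| ≤ W * |B| ^ d} with hP
  have hPfin : P.Finite := by
    refine (Set.finite_Icc (-⌈W * |B| ^ d⌉) ⌈W * |B| ^ d⌉).subset ?_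
    intro p hp
    have h1 : |(p : ℝ)| ≤ W * |B| ^ d := hp
    obtain ⟨h2, h3⟩ := abs_le.1 h1
    have h4 := Int.le_ceil (W * |B| ^ d)
    constructor
    · have : (-(⌈W * |B| ^ d⌉ : ℤ) : ℝ) ≤ p := by linarith
      exact_mod_cast this
    · have : (p : ℝ) ≤ (⌈W * |B| ^ d⌉ : ℤ) := by linarith
      exact_mod_cast this
  have hroot : ∀ α : ℝ, {z : ℝ | z ^ d = α}.Finite := by
    intro α
    refine ((Polynomial.X ^ d - Polynomial.C α).roots.toFinset.finite_toSet).subset ?_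
    intro z hz
    have h0 : (Polynomial.X ^ d - Polynomial.C α : Polynomial ℝ) ≠ 0 :=
      Polynomial.X_pow_sub_C_ne_zero (Nat.pos_of_ne_zero hd1) α
    rw [Finset.mem_coe, Multiset.mem_toFinset, Polynomial.mem_roots h0, Polynomial.IsRoot.def,
      Polynomial.eval_sub, Polynomial.eval_pow, Polynomial.eval_X, Polynomial.eval_C, sub_eq_zero]
    exact hz
  refine ((hPfin.prod hPfin).biUnion fun pq _ =>
    (hroot ((pq.1 + pq.2 * Real.sqrt D) / W)).prod
      (hroot ((pq.1 - pq.2 * Real.sqrt D) / W))).subset ?_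
  rintro _ ⟨x, hx, rfl, h1, h2⟩
  obtain ⟨p, q, hp, hq⟩ := key x hx
  have hb1 : |x.1.det ^ d| ≤ |B| ^ d := by
    rw [abs_pow]
    exact pow_le_pow_left₀ (abs_nonneg _) (h1.trans (le_abs_self _)) d
  have hb2 : |(unop x.2).det ^ d| ≤ |B| ^ d := by
    rw [abs_pow]
    exact pow_le_pow_left₀ (abs_nonneg _) (h2.trans (le_abs_self _)) d
  have hb1' : |W * x.1.det ^ d| ≤ W * |B| ^ d := by
    rw [abs_mul, abs_of_pos hW0]
    exact mul_le_mul_of_nonneg_left hb1 hW0.le
  have hb2' : |W * (unop x.2).det ^ d| ≤ W * |B| ^ d := by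
    rw [abs_mul, abs_of_pos hW0]
    exact mul_le_mul_of_nonneg_left hb2 hW0.le
  have hpP : p ∈ P := by
    show |(p : ℝ)| ≤ W * |B| ^ d
    have h3 : (p : ℝ) = (W * x.1.det ^ d + W * (unop x.2).det ^ d) / 2 := by
      rw [hp, hq]
      ring
    rw [h3]
    obtain ⟨h4, h5⟩ := abs_le.1 hb1'
    obtain ⟨h6, h7⟩ := abs_le.1 hb2'
    exact abs_le.2 ⟨by linarith, by linarith⟩
  have hqP : q ∈ P := by
    show |(q : ℝ)| ≤ W * |B| ^ d
    have h3 : (q : ℝ) * Real.sqrt D = (W * x.1.det ^ d - W * (unop x.2).det ^ d) / 2 := by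
      rw [hp, hq]
      ring
    have h8 : |(q : ℝ) * Real.sqrt D| ≤ W * |B| ^ d := by
      rw [h3]
      obtain ⟨h4, h5⟩ := abs_le.1 hb1'
      obtain ⟨h6, h7⟩ := abs_le.1 hb2'
      exact abs_le.2 ⟨by linarith, by linarith⟩
    rw [abs_mul, abs_of_pos (by linarith : (0 : ℝ) < Real.sqrt D)] at h8
    have h9 : |(q : ℝ)| * 1 ≤ |(q : ℝ)| * Real.sqrt D :=
      mul_le_mul_of_nonneg_left hr1 (abs_nonneg _)
    linarith
  refine Set.mem_biUnion (x := (p, q)) ⟨hpP, hqP⟩ ?_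
  refine ⟨?_, ?_⟩
  · show x.1.det ^ d = (p + q * Real.sqrt D) / W
    rw [← hp, mul_div_cancel_left₀ _ hW0.ne']
  · show (unop x.2).det ^ d = (p - q * Real.sqrt D) / W
    rw [← hq, mul_div_cancel_left₀ _ hW0.ne']

end
end LatLin
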