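import Pool.Agent.Lib.MP_2392aa_gt.O.Mink
import Pool.Agent.Lib.MP_2392aa_gt.O.DivDet

/-!
MP_2392aa_gt, formal linearization, outer type, module DivCoc (about 380 lines): the group of units of
determinant one is cocompact in `SL_d(ℝ) × SL_d(ℝ)` (compare L/ArCoc).

PROOF. If `δ` is empty everything is trivial. `d := card δ ≥ 1`, `b` the basis of `hD.ord`, `n = 2 d ^ 2` its
number of elements.
(1) There is `C` such that for all `g = (g1, g2) ∈ SL × SL` there is `x = (x1, op x2) ∈ D0`, `x ≠ 0`, with all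
entries of `g1 x1` and of `x2 g2⁻¹` at most `C` in absolute value: let `M` be the matrix in the basis `b`
of `TL g1 g2⁻¹`, of determinant `1` (`det_TL`); `mink_int` (reindex the basis by `Fin n`) gives integers
`x_p`, not all zero, such that the coordinates of `TL g1 g2⁻¹ (∑ x_p b_p)` in the basis `b` are at most
`2`; so its entries are at most `C := 2 ∑_p max |entries of b_p|`.
(2) Then `|det x1| = |det (g1 x1)| ≤ B := d ! C ^ d`, `|det x2| ≤ B`; both are nonzero (`hD.div`).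
(3) For `x ∈ D0`, `x ≠ 0`: right multiplication `y ↦ y x` maps `D0` to `D0`; its matrix `A` in the basis `b` is
an integer matrix, `det A = (det x1) ^ d (det x2) ^ d` (`det_TR x1 x2`), a nonzero integer of absolute
value at most `B ^ (2 d)`; the adjugate of `A` gives `|det A| D0 ⊆ D0 x`. With `N0 := (⌈B ^ (2 d)⌉)!`
every left ideal `D0 x` with `x` as in (2) contains `N0 D0`; `D0 / N0 D0` is finite, so these are finitely
many left ideals.
(4) So the triples `(D0 x, det x1, det x2)`, `x` as in (2), take finitely many values ((3) and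
`div_det`). Choose one `x_i` for each value. If `x` has the same value as `x_i`: `x = γ̂ x_i`, `x_i = γ̂' x` with
`γ̂, γ̂' ∈ D0`, `γ̂ γ̂' = 1` (`x` is invertible in `DM δ`), and the determinants of both components of
`γ̂ = (γ1, op γ2)` are `1`. `γ := (γ1, γ2⁻¹) ∈ U0 D0`.
(5) `x1 = γ1 x_i1`, `x2 = x_i2 γ2`. `g1 γ1 = (g1 x1) x_i1⁻¹` is bounded, `γ2 g2⁻¹ = x_i2⁻¹ (x2 g2⁻¹)` is bounded, so
`g2 γ2⁻¹ = (γ2 g2⁻¹)⁻¹` is bounded (determinant one: the inverse is the adjugate). So `g γ` is bounded, by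
a constant independent of `g`.
(6) `H`: `γ⁻¹ = c h` with `h ∈ H` and `c` in a finite set of representatives (finite relative index), so
`g h⁻¹ = g γ c` is bounded.
-/

open scoped Nat
open MulOpposite
open LatN (DM)

namespace LatLin

section aux

/-- the matrix of a linear map preserving the lattice has integer entries -/
private theorem intm {ι V : Type*} [Fintype ι] [DecidableEq ι] [AddCommGroup V] [Module ℝ V]
    (b : Module.Basis ι ℝ V) (T : V →ₗ[ℝ] V)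
    (hT : ∀ x ∈ Submodule.span ℤ (Set.range b), T x ∈ Submodule.span ℤ (Set.range b)) :
    ∃ A : Matrix ι ι ℤ, LinearMap.toMatrix b b T = A.map (Int.cast : ℤ → ℝ) := by
  have h : ∀ i j, ∃ n : ℤ, LinearMap.toMatrix b b T i j = (n : ℝ) := by
    intro i j
    have h1 := hT (b j) (Submodule.subset_span ⟨j, rfl⟩)
    rw [b.mem_span_iff_repr_mem ℤ] at h1
    obtain ⟨n, hn⟩ := h1 i
    exact ⟨n, by rw [LinearMap.toMatrix_apply, ← hn]; simp⟩
  choose A hA using h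
  exact ⟨A, by ext i j; rw [hA]; rfl⟩

/-- for a nonsingular linear map preserving the lattice, multiples of a lattice vector are in the
image -/
private theorem intadj {ι V : Type*} [Fintype ι] [DecidableEq ι] [AddCommGroup V] [Module ℝ V]
    (b : Module.Basis ι ℝ V) (T : V →ₗ[ℝ] V) (hd : LinearMap.det T ≠ 0)
    (hT : ∀ x ∈ Submodule.span ℤ (Set.range b), T x ∈ Submodule.span ℤ (Set.range b))
    (v : V) (hv : v ∈ Submodule.span ℤ (Set.range b)) :
    ∃ N : ℤ, N ≠ 0 ∧ ∃ y ∈ Submodule.span ℤ (Set.range b), T y = N • v := by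
  obtain ⟨A, hA⟩ := intm b T hT
  have hdet : (A.det : ℝ) = LinearMap.det T := by
    rw [← LinearMap.det_toMatrix b T, hA]
    exact (Int.castRingHom ℝ).map_det A
  refine ⟨A.det, fun h => hd (by rw [← hdet, h]; simp), ?_⟩
  set B : Matrix ι ι ℝ := A.adjugate.map (Int.cast : ℤ → ℝ) with hB
  have hS : ∀ x ∈ Submodule.span ℤ (Set.range b),
      Matrix.toLin b b B x ∈ Submodule.span ℤ (Set.range b) := by
    intro x hx
    refine Submodule.span_induction ?_ ?_ ?_ ?_ hx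
    · rintro _ ⟨j, rfl⟩
      rw [Matrix.toLin_self]
      refine Submodule.sum_mem _ fun i _ => ?_
      have h1 : B i j • b i = A.adjugate i j • b i := by
        rw [hB, Matrix.map_apply, Int.cast_smul_eq_zsmul]
      rw [h1]
      exact Submodule.smul_mem _ _ (Submodule.subset_span ⟨i, rfl⟩)
    · rw [map_zero]
      exact Submodule.zero_mem _
    · intro x y _ _ h1 h2
      rw [map_add]
      exact Submodule.add_mem _ h1 h2
    · intro n x _ h1
      rw [map_zsmul]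
      exact Submodule.smul_mem _ _ h1
  refine ⟨Matrix.toLin b b B v, hS v hv, ?_⟩
  have h1 : T ∘ₗ Matrix.toLin b b B = (A.det : ℝ) • LinearMap.id := by
    apply (LinearMap.toMatrix b b).injective
    rw [LinearMap.toMatrix_comp b b b, LinearMap.toMatrix_toLin, hA, map_smul,
      LinearMap.toMatrix_id, hB]
    have h2 : (A * A.adjugate).map (Int.cast : ℤ → ℝ) = ((A.det) • (1 : Matrix ι ι ℤ)).map
        (Int.cast : ℤ → ℝ) := by rw [Matrix.mul_adjugate]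
    have h3 : (A * A.adjugate).map (Int.cast : ℤ → ℝ)
        = A.map (Int.cast : ℤ → ℝ) * A.adjugate.map (Int.cast : ℤ → ℝ) :=
      (Matrix.map_mul (f := Int.castRingHom ℝ))
    rw [← h3, h2]
    ext i j
    rw [Matrix.map_apply, Matrix.smul_apply, Matrix.smul_apply]
    by_cases hij : i = j
    · subst hij
      rw [Matrix.one_apply_eq, Matrix.one_apply_eq, smul_eq_mul, smul_eq_mul, mul_one, mul_one]
    · rw [Matrix.one_apply_ne hij, Matrix.one_apply_ne hij, smul_zero, smul_zero, Int.cast_zero]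
  have h2 := LinearMap.congr_fun h1 v
  rw [LinearMap.comp_apply, LinearMap.smul_apply, LinearMap.id_apply, Int.cast_smul_eq_zsmul] at h2
  exact h2

end aux

section mats

variable {δ : Type*} [Fintype δ] [DecidableEq δ]

omit [DecidableEq δ] in
private theorem ent (x y : Matrix δ δ ℝ) (K L : ℝ) (hK : 0 ≤ K) (hx : ∀ i j, |x i j| ≤ K)
    (hy : ∀ i j, |y i j| ≤ L) (i j : δ) : |(x * y) i j| ≤ Fintype.card δ * (K * L) := by
  rw [Matrix.mul_apply]
  refine (Finset.abs_sum_le_sum_abs _ _).trans ?_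
  refine (Finset.sum_le_sum (g := fun _ => K * L) fun l _ => ?_).trans ?_
  · rw [abs_mul]
    exact mul_le_mul (hx i l) (hy l j) (abs_nonneg _) hK
  · rw [Finset.sum_const, Finset.card_univ, nsmul_eq_mul]

private theorem detB (x : Matrix δ δ ℝ) (K : ℝ) (hx : ∀ i j, |x i j| ≤ K) :
    |x.det| ≤ (Fintype.card δ)! * K ^ Fintype.card δ := by
  have h := Matrix.det_le (A := x) (abv := AbsoluteValue.abs) (x := K) hx
  rw [nsmul_eq_mul] at h
  exact h

private theorem adjB (x : Matrix δ δ ℝ) (K : ℝ) (hx : ∀ i j, |x i j| ≤ K) (i j : δ) :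
    |x.adjugate i j| ≤ (Fintype.card δ)! * (max K 1) ^ Fintype.card δ := by
  rw [Matrix.adjugate_apply]
  refine detB _ _ fun p q => ?_
  rw [Matrix.updateRow_apply]
  split_ifs with h
  · rw [Pi.single_apply]
    split_ifs
    · rw [abs_one]
      exact le_max_right _ _
    · rw [abs_zero]
      exact zero_le_one.trans (le_max_right _ _)
  · exact (hx p q).trans (le_max_left _ _)

/-- the entries of an element of `DM δ` -/
private noncomputable def ph : DM δ ≃ₗ[ℝ] ((δ × δ) ⊕ (δ × δ) → ℝ) :=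
  (LinearEquiv.prodCongr (LinearEquiv.curry ℝ ℝ δ δ).symm
    ((MulOpposite.opLinearEquiv ℝ).symm ≪≫ₗ (LinearEquiv.curry ℝ ℝ δ δ).symm)) ≪≫ₗ
    (LinearEquiv.sumArrowLequivProdArrow (δ × δ) (δ × δ) ℝ ℝ).symm

omit [Fintype δ] [DecidableEq δ] in
private theorem ph_inl (x : DM δ) (p : δ × δ) : ph x (Sum.inl p) = x.1 p.1 p.2 := rfl

omit [Fintype δ] [DecidableEq δ] in
private theorem ph_inr (x : DM δ) (p : δ × δ) : ph x (Sum.inr p) = (unop x.2) p.1 p.2 := rfl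

/-- Minkowski for pairs of matrices -/
private theorem minkO [Nonempty δ] {D0 : Subring (DM δ)}
    (b : Module.Basis ((δ × δ) ⊕ (δ × δ)) ℝ (DM δ))
    (hb : ∀ x, x ∈ D0 ↔ x ∈ Submodule.span ℤ (Set.range b)) :
    ∃ C : ℝ, 0 ≤ C ∧ ∀ T : DM δ →ₗ[ℝ] DM δ, LinearMap.det T = 1 →
      ∃ x ∈ D0, x ≠ 0 ∧ ∀ p, |ph (T x) p| ≤ C := by
  classical
  set e := Fintype.equivFin ((δ × δ) ⊕ (δ × δ)) with he
  set b' := b.reindex e with hb'
  have hr : Set.range b' = Set.range b := b.range_reindex e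
  refine ⟨2 * ∑ i, ∑ p, |ph (b' i) p|, by positivity, fun T hT => ?_⟩
  obtain ⟨z, hz0, hz⟩ := mink_int (Fintype.card ((δ × δ) ⊕ (δ × δ))) Fintype.card_pos
    (LinearMap.toMatrix b' b' T) (by rw [LinearMap.det_toMatrix, hT, abs_one])
  have hrep : ∀ j, b'.repr (∑ i, z i • b' i) j = (z j : ℝ) := by
    intro j
    rw [map_sum, Finsupp.finsetSum_apply]
    have h6 : ∀ q, (b'.repr (z q • b' q)) j = if q = j then (z q : ℝ) else 0 := by
      intro q
      rw [map_zsmul, Finsupp.smul_apply, Module.Basis.repr_self, Finsupp.single_apply]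
      split_ifs <;> simp
    rw [Finset.sum_congr rfl fun q _ => h6 q, Finset.sum_ite_eq', if_pos (Finset.mem_univ _)]
  refine ⟨∑ i, z i • b' i, ?_, ?_, ?_⟩
  · rw [hb, ← hr]
    exact Submodule.sum_mem _ fun p _ =>
      Submodule.smul_mem _ _ (Submodule.subset_span ⟨p, rfl⟩)
  · intro h
    apply hz0
    funext j
    have h1 := hrep j
    rw [h, map_zero, Finsupp.zero_apply] at h1
    exact_mod_cast h1.symm
  · intro p
    set x : DM δ := ∑ i, z i • b' i with hx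
    have h1 : ∀ i, |b'.repr (T x) i| ≤ 2 := by
      intro i
      rw [← LinearMap.toMatrix_mulVec_repr b' b' T x, Matrix.mulVec, dotProduct]
      simp only [hrep]
      exact hz i
    have h2 : T x = ∑ i, b'.repr (T x) i • b' i := (b'.sum_repr (T x)).symm
    rw [h2, map_sum, Finset.sum_apply, Finset.mul_sum]
    refine (Finset.abs_sum_le_sum_abs _ _).trans (Finset.sum_le_sum fun i _ => ?_)
    rw [map_smul, Pi.smul_apply, smul_eq_mul, abs_mul]
    refine mul_le_mul (h1 i) ?_ (abs_nonneg _) zero_le_two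
    exact Finset.single_le_sum (f := fun p => |ph (b' i) p|) (fun _ _ => abs_nonneg _)
      (Finset.mem_univ p)

/-- bounded sets of the order are finite -/
private theorem finO {D0 : Subring (DM δ)}
    (b : Module.Basis ((δ × δ) ⊕ (δ × δ)) ℝ (DM δ))
    (hb : ∀ x, x ∈ D0 ↔ x ∈ Submodule.span ℤ (Set.range b)) (K : ℝ) :
    {c : DM δ | c ∈ D0 ∧ ∀ p, |ph c p| ≤ K}.Finite := by
  have h1 := ZSpan.setFinite_inter (b.map ph)
    (Metric.isBounded_closedBall (x := (0 : (δ × δ) ⊕ (δ × δ) → ℝ)) (r := max K 0))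
  refine (h1.image ph.symm).subset ?_
  rintro c ⟨hc1, hc2⟩
  refine ⟨ph c, ⟨?_, ?_⟩, ph.symm_apply_apply c⟩
  · rw [mem_closedBall_zero_iff, pi_norm_le_iff_of_nonneg (le_max_right _ _)]
    exact fun p => (hc2 p).trans (le_max_left _ _)
  · rw [hb, b.mem_span_iff_repr_mem ℤ] at hc1
    rw [SetLike.mem_coe, (b.map ph).mem_span_iff_repr_mem ℤ]
    intro i
    rw [Module.Basis.map_repr, LinearEquiv.trans_apply, ph.symm_apply_apply]
    exact hc1 i

private theorem TR_mul (x y : DM δ) : TR x.1 (unop x.2) y = y * x := rfl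

/-- elements of the order divide integers -/
private theorem divN {D0 : Subring (DM δ)} (hD : DivOO δ D0) (c : DM δ)
    (hc : c ∈ D0) (hc0 : c ≠ 0) : ∃ N : ℤ, N ≠ 0 ∧ ∃ y ∈ D0, y * c = N • (1 : DM δ) := by
  obtain ⟨b, hb⟩ := hD.ord
  have hd : LinearMap.det (TR c.1 (unop c.2)) ≠ 0 := by
    rw [det_TR]
    exact mul_ne_zero (pow_ne_zero _ (hD.div c hc hc0).1) (pow_ne_zero _ (hD.div c hc hc0).2)
  obtain ⟨N, hN, y, hy, hyc⟩ := intadj b (TR c.1 (unop c.2)) hd (fun x hx => by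
    rw [← hb] at hx ⊢
    exact D0.mul_mem hx hc) 1 ((hb _).1 D0.one_mem)
  exact ⟨N, hN, y, (hb _).2 hy, hyc⟩

/-- the residue classes of a left ideal -/
private def cls {D0 : Subring (DM δ)} (b : Module.Basis ((δ × δ) ⊕ (δ × δ)) ℝ (DM δ))
    (N : ℕ) (a : DM δ) : Set ((δ × δ) ⊕ (δ × δ) → ZMod N) :=
  {v | ∃ y ∈ D0, ∃ n : (δ × δ) ⊕ (δ × δ) → ℤ, (∀ p, b.repr (y * a) p = (n p : ℝ)) ∧
    ∀ p, ((n p : ℤ) : ZMod N) = v p}

private theorem cls_mem {D0 : Subring (DM δ)}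
    (b : Module.Basis ((δ × δ) ⊕ (δ × δ)) ℝ (DM δ))
    (hb : ∀ x, x ∈ D0 ↔ x ∈ Submodule.span ℤ (Set.range b)) (N : ℕ)
    (a a' : DM δ) (ha : a ∈ D0)
    (hz : ∃ z ∈ D0, z * a' = (N : ℤ) • (1 : DM δ))
    (h : cls (D0 := D0) b N a = cls (D0 := D0) b N a') : ∃ γ ∈ D0, a = γ * a' := by
  have h1 := ha
  rw [hb, b.mem_span_iff_repr_mem ℤ] at h1
  choose n hn using h1
  have h2 : (fun p => ((n p : ℤ) : ZMod N)) ∈ cls (D0 := D0) b N a := by
    refine ⟨1, D0.one_mem, n, fun p => ?_, fun p => rfl⟩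
    rw [one_mul, ← hn]
    simp
  rw [h] at h2
  obtain ⟨y, hy, k, hk, hkn⟩ := h2
  have h3 : ∀ p, ∃ w : ℤ, n p - k p = N * w := by
    intro p
    have h4 : ((n p - k p : ℤ) : ZMod N) = 0 := by
      rw [Int.cast_sub, hkn p, sub_self]
    exact (ZMod.intCast_zmod_eq_zero_iff_dvd _ _).1 h4
  choose w hw using h3
  obtain ⟨z, hz, hza⟩ := hz
  set W : DM δ := ∑ p, w p • b p with hW
  have hWm : W ∈ D0 := by
    rw [hb, hW]
    exact Submodule.sum_mem _ fun p _ =>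
      Submodule.smul_mem _ _ (Submodule.subset_span ⟨p, rfl⟩)
  have h5 : a - y * a' = (N : ℤ) • W := by
    apply b.repr.injective
    ext p
    rw [map_sub, Finsupp.sub_apply, hk, map_zsmul, Finsupp.smul_apply, hW, map_sum,
      Finsupp.finsetSum_apply]
    have h6 : ∀ q, (b.repr (w q • b q)) p = if q = p then (w q : ℝ) else 0 := by
      intro q
      rw [map_zsmul, Finsupp.smul_apply, Module.Basis.repr_self, Finsupp.single_apply]
      split_ifs <;> simp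
    rw [Finset.sum_congr rfl fun q _ => h6 q, Finset.sum_ite_eq' , if_pos (Finset.mem_univ _),
      ← hn]
    have h7 := hw p
    have h8 : ((n p : ℤ) : ℝ) - (k p : ℝ) = (N : ℝ) * (w p : ℝ) := by exact_mod_cast h7
    simpa using h8
  refine ⟨y + W * z, D0.add_mem hy (D0.mul_mem hWm hz), ?_⟩
  rw [add_mul, mul_assoc, hza, mul_smul_comm, mul_one, ← h5]
  abel

private theorem cocV [Nonempty δ] {D0 : Subring (DM δ)} (hD : DivOO δ D0) :
    ∃ R : ℝ, 0 ≤ R ∧ ∀ g : Matrix.SpecialLinearGroup δ ℝ × Matrix.SpecialLinearGroup δ ℝ,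
      ∃ γ ∈ U0 D0, ∀ i j, |(g * γ).1.1 i j| ≤ R ∧ |(g * γ).2.1 i j| ≤ R := by
  classical
  have hD' := hD
  obtain ⟨b, hb⟩ := hD.ord
  obtain ⟨C, hC0, hC⟩ := minkO b hb
  set F : Set (DM δ) := {c | c ∈ D0 ∧ ∀ p, |ph c p| ≤ Fintype.card δ * (C * C)} with hF
  have hFf : F.Finite := finO b hb _
  have h1 : ∀ c : DM δ, ∃ N : ℕ, N ≠ 0 ∧
      (c ∈ D0 → c ≠ 0 → ∃ y ∈ D0, y * c = (N : ℤ) • (1 : DM δ)) := by
    intro c
    by_cases h : c ∈ D0 ∧ c ≠ 0
    · obtain ⟨N, hN, y, hy, hyc⟩ := divN hD' c h.1 h.2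
      refine ⟨N.natAbs, Int.natAbs_ne_zero.2 hN, fun _ _ => ?_⟩
      rcases abs_choice N with hn | hn
      · refine ⟨y, hy, ?_⟩
        rw [hyc, Int.natCast_natAbs, hn]
      · refine ⟨-y, D0.neg_mem hy, ?_⟩
        rw [neg_mul, hyc, Int.natCast_natAbs, hn, neg_smul]
    · exact ⟨1, one_ne_zero, fun h2 h3 => absurd ⟨h2, h3⟩ h⟩
  choose Nc hNc0 hNc using h1
  set N0 : ℕ := ∏ c ∈ hFf.toFinset, Nc c with hN0d
  have hN0 : N0 ≠ 0 := Finset.prod_ne_zero_iff.2 fun c _ => hNc0 c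
  have : NeZero N0 := ⟨hN0⟩
  set Bd : ℝ := (Fintype.card δ)! * C ^ Fintype.card δ with hBd
  let good : DM δ → Prop := fun a => a ∈ D0 ∧ (a.1.det ≠ 0 ∧ (unop a.2).det ≠ 0) ∧
    (∃ z ∈ D0, z * a = (N0 : ℤ) • (1 : DM δ)) ∧ |a.1.det| ≤ Bd ∧ |(unop a.2).det| ≤ Bd
  have hgood : ∀ g : Matrix.SpecialLinearGroup δ ℝ × Matrix.SpecialLinearGroup δ ℝ,
      ∃ a, good a ∧ (∀ i j, |(g.1.1 * a.1) i j| ≤ C) ∧
        ∀ i j, |(unop a.2 * g.2⁻¹.1) i j| ≤ C := by
    intro g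
    obtain ⟨a, ha, ha0, haC⟩ := hC (TL g.1.1 g.2⁻¹.1) (by
      rw [det_TL, g.1.2, g.2⁻¹.2, one_pow, one_mul])
    obtain ⟨c, hc, hc0, hcC⟩ := hC (TR g.1⁻¹.1 g.2.1) (by
      rw [det_TR, g.1⁻¹.2, g.2.2, one_pow, one_mul])
    have ha1 : ∀ i j, |(g.1.1 * a.1) i j| ≤ C := fun i j => haC (Sum.inl (i, j))
    have ha2 : ∀ i j, |(unop a.2 * g.2⁻¹.1) i j| ≤ C := fun i j => haC (Sum.inr (i, j))
    have hc1 : ∀ i j, |(c.1 * g.1⁻¹.1) i j| ≤ C := fun i j => hcC (Sum.inl (i, j))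
    have hc2 : ∀ i j, |(g.2.1 * unop c.2) i j| ≤ C := fun i j => hcC (Sum.inr (i, j))
    have hda := hD'.div a ha ha0
    have hdc := hD'.div c hc hc0
    have hca1 : (c.1 * g.1⁻¹.1) * (g.1.1 * a.1) = c.1 * a.1 := by
      rw [mul_assoc, ← mul_assoc g.1⁻¹.1, ← Matrix.SpecialLinearGroup.coe_mul, inv_mul_cancel,
        Matrix.SpecialLinearGroup.coe_one, one_mul]
    have hca2 : (unop a.2 * g.2⁻¹.1) * (g.2.1 * unop c.2) = unop a.2 * unop c.2 := by
      rw [mul_assoc, ← mul_assoc g.2⁻¹.1, ← Matrix.SpecialLinearGroup.coe_mul, inv_mul_cancel,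
        Matrix.SpecialLinearGroup.coe_one, one_mul]
    have hcaF : c * a ∈ F := by
      refine ⟨D0.mul_mem hc ha, fun p => ?_⟩
      rcases p with p | p
      · rw [ph_inl]
        show |(c.1 * a.1) p.1 p.2| ≤ _
        rw [← hca1]
        exact ent _ _ C C hC0 hc1 ha1 _ _
      · rw [ph_inr]
        show |(unop a.2 * unop c.2) p.1 p.2| ≤ _
        rw [← hca2]
        exact ent _ _ C C hC0 ha2 hc2 _ _
    have hca0 : c * a ≠ 0 := by
      intro h
      have h2 : (c.1 * a.1).det = 0 := by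
        have h3 : c.1 * a.1 = 0 := congrArg Prod.fst h
        rw [h3, Matrix.det_zero]
      rw [Matrix.det_mul] at h2
      exact (mul_ne_zero hdc.1 hda.1) h2
    obtain ⟨y, hy, hyca⟩ := hNc (c * a) (D0.mul_mem hc ha) hca0
    obtain ⟨q, hq⟩ : Nc (c * a) ∣ N0 := Finset.dvd_prod_of_mem _ (hFf.mem_toFinset.2 hcaF)
    refine ⟨a, ⟨ha, hda, ⟨(q : ℤ) • (y * c), D0.zsmul_mem (D0.mul_mem hy hc) _, ?_⟩, ?_, ?_⟩,
      ha1, ha2⟩
    · rw [smul_mul_assoc, mul_assoc, hyca, smul_smul, hq, Nat.cast_mul, mul_comm]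
    · have h2 : a.1.det = (g.1.1 * a.1).det := by rw [Matrix.det_mul, g.1.2, one_mul]
      rw [h2]
      exact detB _ _ ha1
    · have h2 : (unop a.2).det = (unop a.2 * g.2⁻¹.1).det := by
        rw [Matrix.det_mul, g.2⁻¹.2, mul_one]
      rw [h2]
      exact detB _ _ ha2
  let key : DM δ → Set ((δ × δ) ⊕ (δ × δ) → ZMod N0) × ℝ × ℝ :=
    fun a => (cls (D0 := D0) b N0 a, a.1.det, (unop a.2).det)
  have hrep : ∀ k, ∃ r : DM δ, (∃ a, good a ∧ key a = k) → good r ∧ key r = k := by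
    intro k
    by_cases h : ∃ a, good a ∧ key a = k
    · obtain ⟨a, h⟩ := h
      exact ⟨a, fun _ => h⟩
    · exact ⟨0, fun h' => absurd h' h⟩
  choose rep hrep using hrep
  have hKf : {k | ∃ a, good a ∧ key a = k}.Finite := by
    refine ((Set.finite_univ (α := Set ((δ × δ) ⊕ (δ × δ) → ZMod N0))).prod
      (div_det hD' Bd)).subset ?_
    rintro _ ⟨a, hga, rfl⟩
    exact ⟨Set.mem_univ _, a, hga.1, rfl, hga.2.2.2.1, hga.2.2.2.2⟩
  obtain ⟨B1, hB1⟩ := ((hKf.prod (Set.finite_univ (α := δ × δ))).image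
    (fun p => |(rep p.1).1⁻¹ p.2.1 p.2.2|)).bddAbove
  obtain ⟨B2, hB2⟩ := ((hKf.prod (Set.finite_univ (α := δ × δ))).image
    (fun p => |(unop (rep p.1).2)⁻¹ p.2.1 p.2.2|)).bddAbove
  have hB1' : ∀ k ∈ {k | ∃ a, good a ∧ key a = k}, ∀ i j, |(rep k).1⁻¹ i j| ≤ max B1 0 :=
    fun k hk i j => (hB1 ⟨(k, i, j), ⟨hk, Set.mem_univ _⟩, rfl⟩).trans (le_max_left _ _)
  have hB2' : ∀ k ∈ {k | ∃ a, good a ∧ key a = k}, ∀ i j, |(unop (rep k).2)⁻¹ i j| ≤ max B2 0 :=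
    fun k hk i j => (hB2 ⟨(k, i, j), ⟨hk, Set.mem_univ _⟩, rfl⟩).trans (le_max_left _ _)
  set R1 : ℝ := Fintype.card δ * (C * max B1 0) with hR1
  set K2 : ℝ := Fintype.card δ * (max B2 0 * C) with hK2
  set R2 : ℝ := (Fintype.card δ)! * (max K2 1) ^ Fintype.card δ with hR2
  refine ⟨max R1 R2, le_max_of_le_left (by positivity), fun g => ?_⟩
  obtain ⟨a, hag, ha1, ha2⟩ := hgood g
  obtain ⟨hrg, hrk⟩ := hrep (key a) ⟨a, hag, rfl⟩
  have hkK : key a ∈ {k | ∃ a, good a ∧ key a = k} := ⟨a, hag, rfl⟩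
  have hb1 := hB1' _ hkK
  have hb2 := hB2' _ hkK
  set r := rep (key a) with hr
  have hcls : cls (D0 := D0) b N0 r = cls (D0 := D0) b N0 a := congrArg Prod.fst hrk
  have hd1 : r.1.det = a.1.det := congrArg (fun k => k.2.1) hrk
  have hd2 : (unop r.2).det = (unop a.2).det := congrArg (fun k => k.2.2) hrk
  obtain ⟨γ, hγ, hγa⟩ := cls_mem b hb N0 a r hag.1 hrg.2.2.1 hcls.symm
  obtain ⟨γ', hγ', hγa'⟩ := cls_mem b hb N0 r a hrg.1 hag.2.2.1 hcls
  have hua1 : IsUnit a.1.det := isUnit_iff_ne_zero.2 hag.2.1.1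
  have hua2 : IsUnit (unop a.2).det := isUnit_iff_ne_zero.2 hag.2.1.2
  have hur1 : IsUnit r.1.det := isUnit_iff_ne_zero.2 hrg.2.1.1
  have hur2 : IsUnit (unop r.2).det := isUnit_iff_ne_zero.2 hrg.2.1.2
  -- componentwise equations
  have e1 : a.1 = γ.1 * r.1 := congrArg Prod.fst hγa
  have e2 : unop a.2 = unop r.2 * unop γ.2 := congrArg (fun k : DM δ => unop k.2) hγa
  have e3 : r.1 = γ'.1 * a.1 := congrArg Prod.fst hγa'
  have e4 : unop r.2 = unop a.2 * unop γ'.2 := congrArg (fun k : DM δ => unop k.2) hγa'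
  have hgg1 : γ.1 * γ'.1 = 1 := by
    have h2 : (γ.1 * γ'.1) * a.1 = a.1 := by rw [mul_assoc, ← e3, ← e1]
    calc γ.1 * γ'.1 = (γ.1 * γ'.1) * (a.1 * a.1⁻¹) := by rw [Matrix.mul_nonsing_inv _ hua1, mul_one]
      _ = 1 := by rw [← mul_assoc, h2, Matrix.mul_nonsing_inv _ hua1]
  have hgg2 : unop γ'.2 * unop γ.2 = 1 := by
    have h2 : unop a.2 * (unop γ'.2 * unop γ.2) = unop a.2 := by rw [← mul_assoc, ← e4, ← e2]
    calc unop γ'.2 * unop γ.2 = ((unop a.2)⁻¹ * unop a.2) * (unop γ'.2 * unop γ.2) := by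
          rw [Matrix.nonsing_inv_mul _ hua2, one_mul]
      _ = 1 := by rw [mul_assoc, h2, Matrix.nonsing_inv_mul _ hua2]
  have hdet1 : γ.1.det = 1 := by
    have h2 : a.1.det = γ.1.det * r.1.det := by rw [← Matrix.det_mul, ← e1]
    rw [← hd1] at h2
    exact (mul_eq_right₀ hrg.2.1.1).1 h2.symm
  have hdet2 : (unop γ.2).det = 1 := by
    have h2 : (unop a.2).det = (unop r.2).det * (unop γ.2).det := by rw [← Matrix.det_mul, ← e2]
    rw [← hd2] at h2
    exact (mul_eq_left₀ hrg.2.1.2).1 h2.symm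
  set G1 : Matrix.SpecialLinearGroup δ ℝ := ⟨γ.1, hdet1⟩ with hG1
  set G2 : Matrix.SpecialLinearGroup δ ℝ := ⟨unop γ.2, hdet2⟩ with hG2
  have hG1i : G1⁻¹.1 = γ'.1 := by
    have h2 : G1⁻¹.1 * γ.1 = 1 := by
      rw [show γ.1 = G1.1 from rfl, ← Matrix.SpecialLinearGroup.coe_mul, inv_mul_cancel,
        Matrix.SpecialLinearGroup.coe_one]
    calc G1⁻¹.1 = G1⁻¹.1 * (γ.1 * γ'.1) := by rw [hgg1, mul_one]
      _ = γ'.1 := by rw [← mul_assoc, h2, one_mul]
  have hG2i : G2⁻¹.1 = unop γ'.2 := by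
    have h2 : unop γ.2 * G2⁻¹.1 = 1 := by
      rw [show unop γ.2 = G2.1 from rfl, ← Matrix.SpecialLinearGroup.coe_mul, mul_inv_cancel,
        Matrix.SpecialLinearGroup.coe_one]
    calc G2⁻¹.1 = (unop γ'.2 * unop γ.2) * G2⁻¹.1 := by rw [hgg2, one_mul]
      _ = unop γ'.2 := by rw [mul_assoc, h2, mul_one]
  refine ⟨(G1, G2⁻¹), ⟨?_, ?_⟩, fun i j => ⟨?_, ?_⟩⟩
  · show ((G1.1, op (G2⁻¹)⁻¹.1) : DM δ) ∈ D0
    rw [inv_inv]
    exact hγ
  · show ((G1⁻¹.1, op G2⁻¹.1) : DM δ) ∈ D0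
    rw [hG1i, hG2i]
    exact hγ'
  · show |(g.1 * G1).1 i j| ≤ _
    have h2 : (g.1 * G1).1 = (g.1.1 * a.1) * r.1⁻¹ := by
      rw [Matrix.SpecialLinearGroup.coe_mul, mul_assoc, e1, mul_assoc,
        Matrix.mul_nonsing_inv _ hur1, mul_one]
    rw [h2]
    exact (ent _ _ C (max B1 0) hC0 ha1 hb1 i j).trans (le_max_left _ _)
  · show |(g.2 * G2⁻¹).1 i j| ≤ _
    have h2 : (G2 * g.2⁻¹).1 = (unop r.2)⁻¹ * (unop a.2 * g.2⁻¹.1) := by
      rw [Matrix.SpecialLinearGroup.coe_mul, e2, mul_assoc (unop r.2), ← mul_assoc (unop r.2)⁻¹,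
        Matrix.nonsing_inv_mul _ hur2, one_mul]
    have h3 : ∀ p q, |(G2 * g.2⁻¹).1 p q| ≤ K2 := by
      intro p q
      rw [h2]
      exact ent _ _ (max B2 0) C (le_max_right _ _) hb2 ha2 p q
    have h4 : g.2 * G2⁻¹ = (G2 * g.2⁻¹)⁻¹ := by rw [mul_inv_rev, inv_inv]
    rw [h4]
    have h5 : ((G2 * g.2⁻¹)⁻¹).1 = (G2 * g.2⁻¹).1.adjugate := rfl
    rw [h5]
    exact (adjB _ K2 h3 i j).trans (le_max_right _ _)

end mats

theorem coc_OO {δ : Type*} [Fintype δ] [DecidableEq δ] {D0 : Subring (DM δ)} (hD : DivOO δ D0)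
    (H : Subgroup (Matrix.SpecialLinearGroup δ ℝ × Matrix.SpecialLinearGroup δ ℝ))
    (hH : H.relIndex (U0 D0) ≠ 0) :
    ∃ R : ℝ, ∀ g : Matrix.SpecialLinearGroup δ ℝ × Matrix.SpecialLinearGroup δ ℝ, ∃ γ ∈ H,
      ∀ i j, |(g * γ⁻¹).1.1 i j| ≤ R ∧ |(g * γ⁻¹).2.1 i j| ≤ R := by
  classical
  rcases isEmpty_or_nonempty δ with he | hne
  · exact ⟨0, fun g => ⟨1, H.one_mem, fun i => he.elim i⟩⟩
  obtain ⟨R, hR0, hR⟩ := cocV hD
  have hidx : (H.subgroupOf (U0 D0)).index ≠ 0 := hH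
  have : (H.subgroupOf (U0 D0)).FiniteIndex := ⟨hidx⟩
  have : Finite (U0 D0 ⧸ H.subgroupOf (U0 D0)) := inferInstance
  obtain ⟨B1, hB1⟩ := (Set.finite_range (fun p : (U0 D0 ⧸ H.subgroupOf (U0 D0)) × δ × δ =>
    |(p.1.out : Matrix.SpecialLinearGroup δ ℝ × Matrix.SpecialLinearGroup δ ℝ).1.1
      p.2.1 p.2.2|)).bddAbove
  obtain ⟨B2, hB2⟩ := (Set.finite_range (fun p : (U0 D0 ⧸ H.subgroupOf (U0 D0)) × δ × δ =>
    |(p.1.out : Matrix.SpecialLinearGroup δ ℝ × Matrix.SpecialLinearGroup δ ℝ).2.1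
      p.2.1 p.2.2|)).bddAbove
  refine ⟨max (Fintype.card δ * (R * B1)) (Fintype.card δ * (R * B2)), fun g => ?_⟩
  obtain ⟨γ, hγ, hgR⟩ := hR g
  set u : U0 D0 := ⟨γ, hγ⟩ with hu
  obtain ⟨h, hh⟩ := QuotientGroup.mk_out_eq_mul (H.subgroupOf (U0 D0)) u⁻¹
  set r : U0 D0 := ((u⁻¹ : U0 D0) : U0 D0 ⧸ H.subgroupOf (U0 D0)).out with hr
  have h1 : u * r = h := by rw [hh]; group
  have h2 : γ * (r : Matrix.SpecialLinearGroup δ ℝ × Matrix.SpecialLinearGroup δ ℝ) ∈ H := by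
    have h3 : (u * r) ∈ H.subgroupOf (U0 D0) := by
      rw [h1]
      exact h.2
    exact Subgroup.mem_subgroupOf.1 h3
  refine ⟨(γ * (r : Matrix.SpecialLinearGroup δ ℝ × Matrix.SpecialLinearGroup δ ℝ))⁻¹,
    H.inv_mem h2, fun i j => ?_⟩
  rw [inv_inv, ← mul_assoc]
  refine ⟨?_, ?_⟩
  · show |((g * γ).1.1 * (r : Matrix.SpecialLinearGroup δ ℝ ×
      Matrix.SpecialLinearGroup δ ℝ).1.1) i j| ≤ _
    exact (ent _ _ R B1 hR0 (fun i j => (hgR i j).1) (fun i j => hB1 ⟨(_, i, j), rfl⟩) i j).trans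
      (le_max_left _ _)
  · show |((g * γ).2.1 * (r : Matrix.SpecialLinearGroup δ ℝ ×
      Matrix.SpecialLinearGroup δ ℝ).2.1) i j| ≤ _
    exact (ent _ _ R B2 hR0 (fun i j => (hgR i j).2) (fun i j => hB2 ⟨(_, i, j), rfl⟩) i j).trans
      (le_max_right _ _)

end LatLin
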