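import Pool.Agent.Lib.LatN.OrdDefs

/-!
MP_2392aa_gt, formal linearization, outer type: orders of division algebras with real quadratic
centre, as subrings of `M_δ(ℝ) × M_δ(ℝ)ᵒᵖ` (helper69).
-/

open MulOpposite
open LatN (DM)

namespace LatLin

section
variable (δ : Type*) [Fintype δ] [DecidableEq δ]

/-- an order without zero divisors which contains a multiple of `(√D, - √D)` -/
structure DivOO (D0 : Subring (DM δ)) : Prop where
  ord : ∃ b : Module.Basis ((δ × δ) ⊕ (δ × δ)) ℝ (DM δ),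
    ∀ x, x ∈ D0 ↔ x ∈ Submodule.span ℤ (Set.range b)
  sqrt : ∃ (D : ℕ) (N : ℤ), ¬ IsSquare D ∧ N ≠ 0 ∧
    (N • (Real.sqrt D • (1 : Matrix δ δ ℝ), op (-(Real.sqrt D • (1 : Matrix δ δ ℝ)))) : DM δ) ∈ D0
  div : ∀ x ∈ D0, x ≠ 0 → x.1.det ≠ 0 ∧ (unop x.2).det ≠ 0

variable {δ}

/-- pairs of matrices of determinant one: the elements `(a, c)` such that `(a, op c⁻¹)` is a unit of
the order -/
def U0 (D0 : Subring (DM δ)) :
    Subgroup (Matrix.SpecialLinearGroup δ ℝ × Matrix.SpecialLinearGroup δ ℝ) where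
  carrier := {g | ((g.1.1, op g.2⁻¹.1) : DM δ) ∈ D0 ∧ ((g.1⁻¹.1, op g.2.1) : DM δ) ∈ D0}
  mul_mem' := by
    rintro a b ⟨h1, h2⟩ ⟨h3, h4⟩
    refine ⟨?_, ?_⟩
    · have h := D0.mul_mem h1 h3
      rw [Prod.mk_mul_mk, ← op_mul, ← Matrix.SpecialLinearGroup.coe_mul,
        ← Matrix.SpecialLinearGroup.coe_mul, ← mul_inv_rev] at h
      exact h
    · have h := D0.mul_mem h4 h2
      rw [Prod.mk_mul_mk, ← op_mul, ← Matrix.SpecialLinearGroup.coe_mul,
        ← Matrix.SpecialLinearGroup.coe_mul, ← mul_inv_rev] at h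
      exact h
  one_mem' := by
    refine ⟨?_, ?_⟩
    · change (((1 : Matrix.SpecialLinearGroup δ ℝ).1,
        op ((1 : Matrix.SpecialLinearGroup δ ℝ)⁻¹).1) : DM δ) ∈ D0
      rw [inv_one, Matrix.SpecialLinearGroup.coe_one]
      exact D0.one_mem
    · change ((((1 : Matrix.SpecialLinearGroup δ ℝ)⁻¹).1,
        op (1 : Matrix.SpecialLinearGroup δ ℝ).1) : DM δ) ∈ D0
      rw [inv_one, Matrix.SpecialLinearGroup.coe_one]
      exact D0.one_mem
  inv_mem' := by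
    rintro a ⟨h1, h2⟩
    refine ⟨?_, ?_⟩
    · change ((a.1⁻¹.1, op (a.2⁻¹)⁻¹.1) : DM δ) ∈ D0
      rw [inv_inv]
      exact h2
    · change (((a.1⁻¹)⁻¹.1, op a.2⁻¹.1) : DM δ) ∈ D0
      rw [inv_inv]
      exact h1

end
end LatLin
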