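import Pool.Agent.Lib.MP_2392aa_gt.O.ComO

/-!
MP_2392aa_gt, formal linearization, outer type, module LatO (about 350 lines): lattice data of the
unipotent group, and the Pell torus.

Write `f := mid e e'`, `u := uO e e'`. `RR O f f` (`rr_mid`), `RR O e e'`, `RR O e' e`.
PROOF of `lat_O`. Let `R_u` be the set of all `X ∈ u` with `RR O X (-X)`.
(1) The real span of `R_u` is `u`. For `RR O a a'`: `X := e a f - f a' e'` is in `u` and `RR O X (-X)`: the pair
`(e a f, op (f a' e')) = (e, op e') (a, op a') (f, op f)` is rational, and so is its exchange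
`(f a' e', op (e a f))` (`rr_swap`); subtract. With `rr_sqrt` (`r = √D`) also `r e a f + r f a' e' ∈ R_u`
(apply the same to the rational pair `(r a, - r a')`). So `e a f` and `f a' e'` are in the real span of
`R_u` for all rational `(a, a')`, so (`rr_corner1`, applied to linear functionals vanishing on the
span; `a'` is also the first component of a rational pair) `e x f` and `f x e'` for all operators `x`.
Similarly `e a e' - e a' e'` and `r e a e' + r e a' e'` are in `R_u`, so `e x e'` is in the span for all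
`x`. By `mem_uO` every `a ∈ u` is `e a f + f a e' + e a e'`.
(2) Choose a finite real basis `c i` of `u` in `R_u` (`exists_linearIndependent` etc.), `Λ0 :=` its integer
span. By `rr_ex` there is `K1 ≥ 1` with `(K1 x, - K1 x) ∈ O` for all `x ∈ Λ0`. For `x, y ∈ Λ0`: `[x, y] :=
x y - y x ∈ u` (`uO_N3`) and `RR O [x, y] (-[x, y])` (`rr_mul`: `(x, -x) (y, -y) = (x y, op (y x))`). By
`rr_int_span` (`F = DE E`, vectors `(K1 c i, op (- K1 c i))`; multiply by integers to be in `O`) every rational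
`X ∈ u` has a nonzero multiple in `Λ0`; so there is `K ≥ 1` with `K • (1/2) [c i, c j] ∈ Λ0` for all
`i, j`, hence `(K / 2) [x, y] ∈ Λ0` for `x, y ∈ Λ0`. For `m` divisible by `2 K1 ^ 2` and `x ∈ Λ0`:
`(te (m x), op (te (m x))⁻¹) = 1 + (m x, - m x) + (m ^ 2 / 2) (x ^ 2, op (x ^ 2)) ∈ O`, the same for the inverse
(`te_neg`), and the determinant is `1` (see `g0_te` in ComO: `te y - 1` is nilpotent), so
`te (m x) ∈ G0O O`; with `M` from `cco_pow`: `te (M m x) = te (m x) ^ M ∈ G` (`te_nat`). Let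
`Λ := K M m Λ0`, basis `(K M m) • c i`. `te x ∈ G` for `x ∈ Λ`, and
`(1/2) [K M m x, K M m y] = K M m • (M m • ((K / 2) [x, y])) ∈ Λ`. If `a ∈ u`, `te a ∈ G`, then `te a ∈ GQO O`,
`RR O a (-a)` (`gqo_te`), so a multiple of `a` is in `Λ0`, and in `Λ`.
`span_O`: (1). `lat_O'` is `lat_O` for `h.symm`.
PROOF of `pell_O`. `D` from `h.ox.sqrt`, `s := (√D, op (- √D)) ∈ O`. Pell (`Pell.exists_of_not_isSquare`):
`x ^ 2 - D y ^ 2 = 1`, `x, y ≥ 1`; `ε := x + y √D > 1`, `ε⁻¹ = x - y √D`, `(ε, op ε⁻¹) = x + y s ∈ O`; for all `m`: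
`(ε ^ m, op ε ^ (-m)) = x_m + y_m s` with integers. Let `N ≥ 1` be such that `N (e + e', op (e + e')) ∈ O` and
`N (f, op f) ∈ O`. There is `m ≥ 1` with `x_m ≡ 1`, `y_m ≡ 0` modulo `N` (pigeonhole: the pairs
`(x_m, y_m)` modulo `N` take finitely many values, two powers agree, divide). `A := ε ^ m`:
`(A - 1, op (A⁻¹ - 1)) = N z`, `z ∈ O` (scalars), and then `(A ^ j - 1, op (A ^ (-j) - 1)) ∈ N O` for all integers
`j`. `p := dim N`, `q := dim V + dim V'`. `τ := sc e e' (A ^ p) (A ^ q)⁻¹`: `(τ, op τ⁻¹) = 1 +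
(A ^ p - 1, A ^ (-p) - 1) (e + e', op (e + e')) + (A ^ (-q) - 1, A ^ q - 1) (f, op f) ∈ O`, the same for `τ⁻¹`,
`det τ = A ^ (p (dim V + dim V')) A ^ (- q dim N) = 1`, so `τ ∈ G0O O`. `M` from `cco_pow`: `τ ^ M ∈ G`, and
`τ ^ M = sc e e' ((A ^ M) ^ p) ((A ^ M) ^ q)⁻¹`.
-/

open scoped ContDiff Topology Nat
open MulOpposite

namespace LatLin

section
variable {E : Type*} [NormedAddCommGroup E] [InnerProductSpace ℝ E] [FiniteDimensional ℝ E]
  {O : Subring (DE E)} {e e' : E →L[ℝ] E}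

/-! algebra of the idempotents -/

private theorem lt_ee (h : PP e e') : e * e = e := by
  ext x
  exact h.pr.idem x

private theorem lt_ee' (h : PP e e') : e' * e' = e' := by
  ext x
  exact h.pr'.idem x

private theorem lt_eo (h : PP e e') : e * e' = 0 := by
  ext x
  exact h.o x

private theorem lt_eo' (h : PP e e') : e' * e = 0 := by
  ext x
  exact h.o' x

private theorem lt_f (e e' : E →L[ℝ] E) : mid e e' = 1 - e - e' := rfl

private theorem lt_one (e e' : E →L[ℝ] E) : mid e e' + e' + e = 1 := by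
  rw [lt_f]
  abel

private theorem lt_ef (h : PP e e') : e * mid e e' = 0 := by
  rw [lt_f, mul_sub, mul_sub, mul_one, lt_ee h, lt_eo h, sub_self, sub_zero]

private theorem lt_ef' (h : PP e e') : e' * mid e e' = 0 := by
  rw [lt_f, mul_sub, mul_sub, mul_one, lt_ee' h, lt_eo' h, sub_zero, sub_self]

private theorem lt_fe (h : PP e e') : mid e e' * e = 0 := by
  rw [lt_f, sub_mul, sub_mul, one_mul, lt_ee h, lt_eo' h, sub_self, sub_zero]

private theorem lt_fe' (h : PP e e') : mid e e' * e' = 0 := by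
  rw [lt_f, sub_mul, sub_mul, one_mul, lt_ee' h, lt_eo h, sub_zero, sub_self]

private theorem lt_ff (h : PP e e') : mid e e' * mid e e' = mid e e' := by
  nth_rewrite 1 [lt_f]
  rw [sub_mul, sub_mul, one_mul, lt_ef h, lt_ef' h, sub_zero, sub_zero]

private theorem lt_mem (h : PP e e') {a : E →L[ℝ] E} :
    a ∈ uO e e' ↔ a * e = 0 ∧ e' * a = 0 ∧ e * a * mid e e' = a * mid e e' := by
  rw [mem_uO h]
  constructor
  · rintro ⟨h1, h2, h3⟩
    refine ⟨?_, ?_, ?_⟩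
    · ext x
      exact h1 x
    · ext x
      exact h2 x
    · ext x
      exact h3 x
  · rintro ⟨h1, h2, h3⟩
    refine ⟨fun x => ?_, fun x => ?_, fun x => ?_⟩
    · exact congrArg (fun f : E →L[ℝ] E => f x) h1
    · exact congrArg (fun f : E →L[ℝ] E => f x) h2
    · exact congrArg (fun f : E →L[ℝ] E => f x) h3

private theorem lt_mem1 (h : PP e e') (x : E →L[ℝ] E) : e * x * mid e e' ∈ uO e e' := by
  rw [lt_mem h]
  refine ⟨?_, ?_, ?_⟩
  · rw [mul_assoc, lt_fe h, mul_zero]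
  · rw [← mul_assoc, ← mul_assoc, lt_eo' h, zero_mul, zero_mul]
  · rw [← mul_assoc, ← mul_assoc, lt_ee h]

private theorem lt_mem2 (h : PP e e') (x : E →L[ℝ] E) : mid e e' * x * e' ∈ uO e e' := by
  rw [lt_mem h]
  refine ⟨?_, ?_, ?_⟩
  · rw [mul_assoc, lt_eo' h, mul_zero]
  · rw [← mul_assoc, ← mul_assoc, lt_ef' h, zero_mul, zero_mul]
  · rw [← mul_assoc, ← mul_assoc, lt_ef h]
    rw [mul_assoc, lt_ef' h, mul_zero, mul_assoc, lt_ef' h, mul_zero]

private theorem lt_mem3 (h : PP e e') (x : E →L[ℝ] E) : e * x * e' ∈ uO e e' := by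
  rw [lt_mem h]
  refine ⟨?_, ?_, ?_⟩
  · rw [mul_assoc, lt_eo' h, mul_zero]
  · rw [← mul_assoc, ← mul_assoc, lt_eo' h, zero_mul, zero_mul]
  · rw [← mul_assoc, ← mul_assoc, lt_ee h]

private theorem lt_dec (h : PP e e') {a : E →L[ℝ] E} (ha : a ∈ uO e e') :
    a = e * a * mid e e' + (e * a * e' + mid e e' * a * e') := by
  obtain ⟨h1, h2, h3⟩ := (lt_mem h).1 ha
  calc a = (mid e e' + e' + e) * a * (mid e e' + e' + e) := by rw [lt_one, one_mul, mul_one]
    _ = a * mid e e' + (e * a * e' + mid e e' * a * e') := by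
        have e1 : (mid e e' + e' + e) * a * (mid e e' + e' + e) =
          ((mid e e' + e' + e) * a) * mid e e' + (mid e e' * a * e' + e' * a * e' + e * a * e') +
            (mid e e' + e' + e) * (a * e) := by noncomm_ring
        rw [e1, lt_one, one_mul, h1, h2, mul_zero, zero_mul]
        abel
    _ = e * a * mid e e' + (e * a * e' + mid e e' * a * e') := by rw [h3]

/-- the set of rational elements of `u` -/
private def ltR (O : Subring (DE E)) (e e' : E →L[ℝ] E) : Set (E →L[ℝ] E) :=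
  {X : E →L[ℝ] E | X ∈ uO e e' ∧ RR O X (-X)}

private theorem lt_half {S : Submodule ℝ (E →L[ℝ] E)} {r : ℝ} (hr : 0 < r) {x y : E →L[ℝ] E}
    (h1 : x - y ∈ S) (h2 : r • x + r • y ∈ S) : x ∈ S ∧ y ∈ S := by
  have h3 : x + y ∈ S := by
    have h4 := S.smul_mem r⁻¹ h2
    rw [← smul_add, smul_smul, inv_mul_cancel₀ hr.ne', one_smul] at h4
    exact h4
  have e1 : x = (1 / 2 : ℝ) • ((x - y) + (x + y)) := by module
  have e2 : y = (1 / 2 : ℝ) • ((x + y) - (x - y)) := by module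
  refine ⟨?_, ?_⟩
  · rw [e1]
    exact S.smul_mem _ (S.add_mem h1 h3)
  · rw [e2]
    exact S.smul_mem _ (S.sub_mem h3 h1)

private theorem lt_key1 (h : OD O e e') {a a' : E →L[ℝ] E} (ha : RR O a a') :
    e * a * mid e e' - mid e e' * (a' * e') ∈ ltR O e e' := by
  refine ⟨?_, ?_⟩
  · rw [← mul_assoc]
    exact Submodule.sub_mem _ (lt_mem1 h.pp a) (lt_mem2 h.pp a')
  · have h1 := rr_mul (rr_mul h.rat ha) (rr_mid h)
    have h2 := rr_sub h1 (rr_swap h.ox h1)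
    rw [neg_sub]
    exact h2

private theorem lt_key2 (h : OD O e e') {a a' : E →L[ℝ] E} (ha : RR O a a') :
    e * a * e' - e * (a' * e') ∈ ltR O e e' := by
  refine ⟨?_, ?_⟩
  · rw [← mul_assoc]
    exact Submodule.sub_mem _ (lt_mem3 h.pp a) (lt_mem3 h.pp a')
  · have h1 := rr_mul (rr_mul h.rat ha) (rr_swap h.ox h.rat)
    have h2 := rr_sub h1 (rr_swap h.ox h1)
    rw [neg_sub]
    exact h2

private theorem lt_key (h : OD O e e') {a a' : E →L[ℝ] E} (ha : RR O a a') :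
    e * a * mid e e' ∈ Submodule.span ℝ (ltR O e e') ∧
    mid e e' * a' * e' ∈ Submodule.span ℝ (ltR O e e') ∧
    e * a * e' ∈ Submodule.span ℝ (ltR O e e') := by
  obtain ⟨r, hr, hsq⟩ := rr_sqrt h.ox
  have h1 := Submodule.subset_span (R := ℝ) (lt_key1 h ha)
  have h2 := Submodule.subset_span (R := ℝ) (lt_key1 h (hsq a a' ha))
  have h3 := Submodule.subset_span (R := ℝ) (lt_key2 h ha)
  have h4 := Submodule.subset_span (R := ℝ) (lt_key2 h (hsq a a' ha))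
  rw [neg_mul, mul_neg, sub_neg_eq_add, mul_smul_comm, smul_mul_assoc, smul_mul_assoc,
    mul_smul_comm] at h2 h4
  obtain ⟨h5, h6⟩ := lt_half hr h1 h2
  obtain ⟨h7, h8⟩ := lt_half hr h3 h4
  refine ⟨h5, ?_, h7⟩
  rw [mul_assoc]
  exact h6

private theorem lt_corner (h : OX O) (S : Submodule ℝ (E →L[ℝ] E)) (p q : E →L[ℝ] E)
    (hS : ∀ a a', RR O a a' → p * a * q ∈ S) (x : E →L[ℝ] E) : p * x * q ∈ S := by
  by_contra hx
  obtain ⟨f, hf, hS'⟩ := Submodule.exists_le_ker_of_notMem hx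
  exact hf (rr_corner1 h f p q (fun a a' ha => hS' (hS a a' ha)) x)

theorem span_O (h : OD O e e') :
    Submodule.span ℝ {X : E →L[ℝ] E | X ∈ uO e e' ∧ RR O X (-X)} = uO e e' := by
  apply le_antisymm
  · rw [Submodule.span_le]
    rintro x ⟨hx, -⟩
    exact hx
  · intro a ha
    rw [lt_dec h.pp ha]
    refine Submodule.add_mem _ ?_ (Submodule.add_mem _ ?_ ?_)
    · exact lt_corner h.ox _ e (mid e e') (fun a a' ha => (lt_key h ha).1) a
    · exact lt_corner h.ox _ e e' (fun a a' ha => (lt_key h ha).2.2) a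
    · exact lt_corner h.ox _ (mid e e') e' (fun a a' ha => (lt_key h (rr_swap h.ox ha)).2.1) a


/-! unipotent elements -/

private theorem lt_te {a : E →L[ℝ] E} (ha : a ∘L a ∘L a = 0) :
    (te a : E →L[ℝ] E) = 1 + a + (1 / 2 : ℝ) • (a * a) := by
  ext x
  rw [ContinuousLinearEquiv.coe_coe, te_apply ha]
  rfl

private theorem lt_te' {a : E →L[ℝ] E} (ha : a ∘L a ∘L a = 0) :
    ((te a)⁻¹ : GE E) = (1 - a + (1 / 2 : ℝ) • (a * a) : E →L[ℝ] E) := by
  ext x
  rw [ContinuousLinearEquiv.coe_coe, te_inv_apply ha]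
  rfl

/-- the determinant -/
private noncomputable def ltd (E : Type*) [NormedAddCommGroup E] [InnerProductSpace ℝ E]
    [FiniteDimensional ℝ E] : GE E →* ℝ where
  toFun g := LinearMap.det ((g : E →L[ℝ] E) : E →ₗ[ℝ] E)
  map_one' := LinearMap.det_id
  map_mul' a b := by
    have e1 : (((a * b : GE E) : E →L[ℝ] E) : E →ₗ[ℝ] E) =
        ((a : E →L[ℝ] E) : E →ₗ[ℝ] E) * ((b : E →L[ℝ] E) : E →ₗ[ℝ] E) := rfl
    rw [e1, map_mul]

private theorem lt_det (h : OX O) {a : E →L[ℝ] E} (ha : a ∘L a ∘L a = 0) (hr : RR O a (-a)) :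
    ltd E (te a) = 1 := by
  obtain ⟨M, hM, hm⟩ := g0_te h ha hr
  have h1 : ltd E (te (((M : ℤ) : ℝ) • a)) = 1 := (hm M (dvd_refl _)).2.2
  rw [Int.cast_natCast, te_nat ha, map_pow] at h1
  have h2 : te a = te ((1 / 2 : ℝ) • a) * te ((1 / 2 : ℝ) • a) := by
    rw [te_add_smul ha]
    norm_num
  have h3 : 0 ≤ ltd E (te a) := by
    rw [h2, map_mul]
    exact mul_self_nonneg _
  exact (pow_eq_one_iff_of_nonneg h3 hM).1 h1

private theorem lt_g0 (h : OX O) {a : E →L[ℝ] E} (ha : a ∘L a ∘L a = 0) {K : ℕ} (hK : K ≠ 0)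
    (hr : ((((K : ℝ) • a, op (-((K : ℝ) • a))) : DE E) ∈ O)) :
    te (((2 * K ^ 2 : ℕ) : ℝ) • a) ∈ G0O O := by
  have hrr : RR O a (-a) := by
    refine ⟨K, Int.natCast_ne_zero.2 hK, ?_⟩
    have e1 : ((K : ℤ) • ((a, op (-a)) : DE E)) = (((K : ℝ) • a, op (-((K : ℝ) • a))) : DE E) := by
      rw [← Int.cast_smul_eq_zsmul ℝ, Int.cast_natCast, Prod.smul_mk, ← op_smul, smul_neg]
    rw [e1]
    exact hr
  have hcube := te_smul_cube ha ((2 * K ^ 2 : ℕ) : ℝ)
  have hdet : ltd E (te (((2 * K ^ 2 : ℕ) : ℝ) • a)) = 1 := by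
    rw [te_nat ha, map_pow, lt_det h ha hrr, one_pow]
  set w : E →L[ℝ] E := (K : ℝ) • a with hw
  have hW2 := O.mul_mem hr hr
  rw [Prod.mk_mul_mk, ← op_mul, neg_mul_neg] at hW2
  have h1 := O.nsmul_mem hr (2 * K)
  have h2 := O.nsmul_mem hW2 (2 * K ^ 2)
  rw [← Nat.cast_smul_eq_nsmul ℝ, Prod.smul_mk, ← op_smul] at h1 h2
  have e1 : ((2 * K ^ 2 : ℕ) : ℝ) • a = ((2 * K : ℕ) : ℝ) • w := by
    rw [hw, smul_smul]
    congr 1
    push_cast
    ring
  have e2 : (1 / 2 : ℝ) • ((((2 * K ^ 2 : ℕ) : ℝ) • a) * (((2 * K ^ 2 : ℕ) : ℝ) • a)) =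
      ((2 * K ^ 2 : ℕ) : ℝ) • (w * w) := by
    rw [hw, smul_mul_smul_comm, smul_mul_smul_comm, smul_smul, smul_smul]
    congr 1
    push_cast
    ring
  refine ⟨?_, ?_, hdet⟩
  · rw [lt_te hcube, lt_te' hcube, e2, e1]
    have h3 := O.add_mem (O.add_mem O.one_mem h1) h2
    have e3 : ((1 : DE E) + (((2 * K : ℕ) : ℝ) • w, op (((2 * K : ℕ) : ℝ) • -w)) +
        (((2 * K ^ 2 : ℕ) : ℝ) • (w * w), op (((2 * K ^ 2 : ℕ) : ℝ) • (w * w)))) =
        ((1 + ((2 * K : ℕ) : ℝ) • w + ((2 * K ^ 2 : ℕ) : ℝ) • (w * w),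
          op (1 - ((2 * K : ℕ) : ℝ) • w + ((2 * K ^ 2 : ℕ) : ℝ) • (w * w))) : DE E) := by
      refine Prod.ext rfl ?_
      show (1 : (E →L[ℝ] E)ᵐᵒᵖ) + op (((2 * K : ℕ) : ℝ) • -w) +
        op (((2 * K ^ 2 : ℕ) : ℝ) • (w * w)) = _
      rw [smul_neg, op_neg, op_add, op_sub, op_one, ← sub_eq_add_neg]
    rw [e3] at h3
    exact h3
  · rw [lt_te hcube, lt_te' hcube, e2, e1]
    have h3 := O.add_mem (O.sub_mem O.one_mem h1) h2
    have e3 : ((1 : DE E) - (((2 * K : ℕ) : ℝ) • w, op (((2 * K : ℕ) : ℝ) • -w)) +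
        (((2 * K ^ 2 : ℕ) : ℝ) • (w * w), op (((2 * K ^ 2 : ℕ) : ℝ) • (w * w)))) =
        ((1 - ((2 * K : ℕ) : ℝ) • w + ((2 * K ^ 2 : ℕ) : ℝ) • (w * w),
          op (1 + ((2 * K : ℕ) : ℝ) • w + ((2 * K ^ 2 : ℕ) : ℝ) • (w * w))) : DE E) := by
      refine Prod.ext rfl ?_
      show (1 : (E →L[ℝ] E)ᵐᵒᵖ) - op (((2 * K : ℕ) : ℝ) • -w) +
        op (((2 * K ^ 2 : ℕ) : ℝ) • (w * w)) = _
      rw [smul_neg, op_neg, op_add, op_add, op_one, sub_neg_eq_add]
    rw [e3] at h3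
    exact h3

private theorem lt_pair {m : ℤ} {a : E →L[ℝ] E}
    (h : ((((m : ℝ) • a, op ((m : ℝ) • -a)) : DE E) ∈ O)) :
    ((((m : ℝ) • a, op (-((m : ℝ) • a))) : DE E) ∈ O) := by
  rw [smul_neg] at h
  exact h

/-- the map `x ↦ (x, op (-x))` -/
private def ltJ (E : Type*) [NormedAddCommGroup E] [InnerProductSpace ℝ E] :
    (E →L[ℝ] E) →ₗ[ℝ] DE E where
  toFun x := (x, op (-x))
  map_add' x y := by
    refine Prod.ext rfl ?_
    show op (-(x + y)) = op (-x) + op (-y)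
    rw [← op_add, neg_add]
  map_smul' c x := by
    refine Prod.ext rfl ?_
    show op (-(c • x)) = c • op (-x)
    rw [← op_smul, smul_neg]

private theorem lt_br (h : OD O e e') {x y : E →L[ℝ] E} (hx : x ∈ uO e e' ∧ RR O x (-x))
    (hy : y ∈ uO e e' ∧ RR O y (-y)) :
    (1 / 2 : ℝ) • (x * y - y * x) ∈ uO e e' ∧
      RR O ((1 / 2 : ℝ) • (x * y - y * x)) (-((1 / 2 : ℝ) • (x * y - y * x))) := by
  refine ⟨Submodule.smul_mem _ _ ((uO_N3 h.pp).br x hx.1 y hy.1), ?_⟩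
  have h1 := rr_sub (rr_mul hx.2 hy.2) (rr_mul hy.2 hx.2)
  rw [neg_mul_neg, neg_mul_neg] at h1
  have h2 := rr_rat h1 (1 / 2)
  have e1 : (((1 / 2 : ℚ) : ℝ)) = (1 / 2 : ℝ) := by norm_num
  rw [e1, ← neg_sub (x * y) (y * x), smul_neg] at h2
  exact h2

theorem lat_O (h : OD O e e') {G : Subgroup (GE E)} (hG : G ∈ CCO O) : Lat2 G (uO e e') := by
  classical
  obtain ⟨s, hsR, hsspan, hsli⟩ := exists_linearIndependent ℝ
    {X : E →L[ℝ] E | X ∈ uO e e' ∧ RR O X (-X)}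
  rw [span_O h] at hsspan
  have hsfin : s.Finite := hsli.setFinite
  have := hsfin.fintype
  obtain ⟨n, c0, hc0li, hc0r⟩ : ∃ (n : ℕ) (c0 : Fin n → (E →L[ℝ] E)), LinearIndependent ℝ c0 ∧
      Set.range c0 = s := by
    refine ⟨Fintype.card s, fun i => ((Fintype.equivFin s).symm i : E →L[ℝ] E),
      hsli.comp _ (Equiv.injective _), ?_⟩
    ext x
    constructor
    · rintro ⟨i, rfl⟩
      exact Subtype.coe_prop _
    · intro hx
      exact ⟨Fintype.equivFin s ⟨x, hx⟩, by simp⟩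
  rw [← hc0r] at hsspan hsR
  have hci : ∀ i, c0 i ∈ uO e e' ∧ RR O (c0 i) (-(c0 i)) := fun i => hsR ⟨i, rfl⟩
  -- rational elements
  have hR : ∀ x ∈ Submodule.span ℤ (Set.range c0), x ∈ uO e e' ∧ RR O x (-x) := by
    intro x hx
    induction hx using Submodule.span_induction with
    | mem x hx =>
      obtain ⟨i, rfl⟩ := hx
      exact hci i
    | zero => exact ⟨Submodule.zero_mem _, by rw [neg_zero]; exact rr_zero O⟩
    | add x y _ _ hx hy =>
      refine ⟨Submodule.add_mem _ hx.1 hy.1, ?_⟩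
      rw [neg_add]
      exact rr_add hx.2 hy.2
    | smul m x _ hx =>
      rw [← Int.cast_smul_eq_zsmul ℝ]
      refine ⟨Submodule.smul_mem _ _ hx.1, ?_⟩
      have h1 := rr_rat hx.2 (m : ℚ)
      rw [Rat.cast_intCast, smul_neg] at h1
      exact h1
  -- the denominator
  obtain ⟨K1, hK1, hK1O⟩ : ∃ K1 : ℕ, K1 ≠ 0 ∧ ∀ x ∈ Submodule.span ℤ (Set.range c0),
      ((((K1 : ℝ) • x, op (-((K1 : ℝ) • x))) : DE E) ∈ O) := by
    choose M hM hMO using fun i => rr_ex (hci i).2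
    refine ⟨∏ i, M i, Finset.prod_ne_zero_iff.2 fun i _ => hM i, fun x hx => ?_⟩
    induction hx using Submodule.span_induction with
    | mem x hx =>
      obtain ⟨i, rfl⟩ := hx
      have h1 := lt_pair (hMO i ((∏ i, M i : ℕ) : ℤ)
        (Int.natCast_dvd_natCast.2 (Finset.dvd_prod_of_mem M (Finset.mem_univ i))))
      rw [Int.cast_natCast] at h1
      exact h1
    | zero =>
      rw [smul_zero, neg_zero, op_zero]
      exact O.zero_mem
    | add x y _ _ hx hy =>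
      have h1 := O.add_mem hx hy
      rw [Prod.mk_add_mk, ← smul_add, ← op_add, ← neg_add, ← smul_add] at h1
      exact h1
    | smul m x _ hx =>
      have h1 := O.zsmul_mem hx m
      rw [← Int.cast_smul_eq_zsmul ℝ, Prod.smul_mk, ← op_smul, smul_neg, smul_comm] at h1
      rw [← Int.cast_smul_eq_zsmul ℝ]
      exact h1
  -- multiples
  have hmul : ∀ X ∈ uO e e', RR O X (-X) → ∃ M : ℕ, M ≠ 0 ∧
      (M : ℤ) • X ∈ Submodule.span ℤ (Set.range c0) := by
    intro X hX hXR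
    obtain ⟨n', b, hb⟩ := h.ox.ord
    obtain ⟨m, hm, hmO⟩ := rr_ex hXR
    have hmX := lt_pair (hmO m (dvd_refl _))
    rw [Int.cast_natCast] at hmX
    have hK1r : (K1 : ℝ) ≠ 0 := Nat.cast_ne_zero.2 hK1
    let L : (E →L[ℝ] E) →ₗ[ℝ] DE E := ltJ E ∘ₗ ((K1 : ℝ) • LinearMap.id)
    have hL : ∀ x, L x = (((K1 : ℝ) • x, op (-((K1 : ℝ) • x))) : DE E) := fun _ => rfl
    have hker : LinearMap.ker L = ⊥ := by
      rw [LinearMap.ker_eq_bot']
      intro x hx
      have h1 : (K1 : ℝ) • x = 0 := congrArg Prod.fst hx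
      exact (smul_eq_zero.1 h1).resolve_left hK1r
    obtain ⟨M, hM, hMs⟩ := rr_int_span b (L ∘ c0) (hc0li.map' L hker)
      (fun i => (hb _).1 (hK1O _ (Submodule.subset_span ⟨i, rfl⟩)))
      (v := (((m : ℝ) • X, op (-((m : ℝ) • X))) : DE E)) ((hb _).1 hmX) (by
        rw [Set.range_comp, ← Submodule.map_span, hsspan]
        refine ⟨((K1 : ℝ)⁻¹ * (m : ℝ)) • X, Submodule.smul_mem _ _ hX, ?_⟩
        rw [hL, smul_smul, ← mul_assoc, mul_inv_cancel₀ hK1r, one_mul])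
    refine ⟨M * m, mul_ne_zero hM hm, ?_⟩
    have hfst : ∀ z ∈ Submodule.span ℤ (Set.range (L ∘ c0)),
        z.1 ∈ Submodule.span ℤ (Set.range c0) := by
      intro z hz
      induction hz using Submodule.span_induction with
      | mem z hz =>
        obtain ⟨i, rfl⟩ := hz
        show (K1 : ℝ) • c0 i ∈ _
        rw [Nat.cast_smul_eq_nsmul]
        exact Submodule.smul_of_tower_mem _ K1 (Submodule.subset_span ⟨i, rfl⟩)
      | zero => exact Submodule.zero_mem _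
      | add x y _ _ hx hy => exact Submodule.add_mem _ hx hy
      | smul m x _ hx => exact Submodule.smul_mem _ m hx
    have h1 := hfst _ hMs
    have e1 : ((M : ℤ) • (((m : ℝ) • X, op (-((m : ℝ) • X))) : DE E)).1 =
        ((M * m : ℕ) : ℤ) • X := by
      show (M : ℤ) • ((m : ℝ) • X) = ((M * m : ℕ) : ℤ) • X
      rw [← Int.cast_smul_eq_zsmul ℝ, ← Int.cast_smul_eq_zsmul ℝ, smul_smul]
      congr 1
      push_cast
      ring
    rw [e1] at h1
    exact h1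
  -- half brackets
  obtain ⟨K, hK, hKbr⟩ : ∃ K : ℕ, K ≠ 0 ∧ ∀ x ∈ Submodule.span ℤ (Set.range c0),
      ∀ y ∈ Submodule.span ℤ (Set.range c0),
      (K : ℝ) • (1 / 2 : ℝ) • (x * y - y * x) ∈ Submodule.span ℤ (Set.range c0) := by
    choose M hM hMO using fun p : Fin n × Fin n =>
      hmul _ (lt_br h (hci p.1) (hci p.2)).1 (lt_br h (hci p.1) (hci p.2)).2
    refine ⟨∏ p, M p, Finset.prod_ne_zero_iff.2 fun i _ => hM i, fun x hx y hy => ?_⟩
    have hb1 : ∀ i, ∀ y ∈ Submodule.span ℤ (Set.range c0),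
        ((∏ p, M p : ℕ) : ℝ) • (1 / 2 : ℝ) • (c0 i * y - y * c0 i) ∈
          Submodule.span ℤ (Set.range c0) := by
      intro i y hy
      induction hy using Submodule.span_induction with
      | mem y hy =>
        obtain ⟨j, rfl⟩ := hy
        obtain ⟨t, ht⟩ := Finset.dvd_prod_of_mem M (Finset.mem_univ (i, j))
        have h1 := Submodule.smul_mem _ (t : ℤ) (hMO (i, j))
        rw [smul_smul, ← Int.cast_smul_eq_zsmul ℝ] at h1
        have e1 : (((t : ℤ) * (M (i, j) : ℤ) : ℤ) : ℝ) = ((∏ p, M p : ℕ) : ℝ) := by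
          rw [ht]
          push_cast
          ring
        rw [e1] at h1
        exact h1
      | zero =>
        rw [mul_zero, zero_mul, sub_zero, smul_zero, smul_zero]
        exact Submodule.zero_mem _
      | add x y _ _ hx hy =>
        have e1 : c0 i * (x + y) - (x + y) * c0 i = (c0 i * x - x * c0 i) +
            (c0 i * y - y * c0 i) := by noncomm_ring
        rw [e1, smul_add, smul_add]
        exact Submodule.add_mem _ hx hy
      | smul m x _ hx =>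
        have e1 : c0 i * (m • x) - (m • x) * c0 i = m • (c0 i * x - x * c0 i) := by
          rw [smul_sub, mul_smul_comm, smul_mul_assoc]
        rw [e1, smul_comm (1 / 2 : ℝ) m, smul_comm _ m]
        exact Submodule.smul_mem _ m hx
    induction hx using Submodule.span_induction with
    | mem x hx =>
      obtain ⟨i, rfl⟩ := hx
      exact hb1 i y hy
    | zero =>
      rw [mul_zero, zero_mul, sub_zero, smul_zero, smul_zero]
      exact Submodule.zero_mem _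
    | add x x' _ _ hx hx' =>
      have e1 : (x + x') * y - y * (x + x') = (x * y - y * x) +
          (x' * y - y * x') := by noncomm_ring
      rw [e1, smul_add, smul_add]
      exact Submodule.add_mem _ hx hx'
    | smul m x _ hx =>
      have e1 : (m • x) * y - y * (m • x) = m • (x * y - y * x) := by
        rw [smul_sub, mul_smul_comm, smul_mul_assoc]
      rw [e1, smul_comm (1 / 2 : ℝ) m, smul_comm _ m]
      exact Submodule.smul_mem _ m hx
  obtain ⟨M, hM, hMG⟩ := cco_pow hG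
  have hN3 := uO_N3 h.pp
  -- membership in the group
  have hteG : ∀ x ∈ Submodule.span ℤ (Set.range c0),
      te (((M * (2 * K1 ^ 2) : ℕ) : ℝ) • x) ∈ G := by
    intro x hx
    have hx3 : x ∘L x ∘L x = 0 := hN3.cube x (hR x hx).1 x (hR x hx).1 x (hR x hx).1
    have h1 := hMG _ (lt_g0 h.ox hx3 hK1 (hK1O x hx))
    rw [← te_nat (te_smul_cube hx3 _), smul_smul, ← Nat.cast_mul] at h1
    exact h1
  obtain ⟨N0, hN0⟩ : ∃ N0 : ℕ, N0 = K * (M * (2 * K1 ^ 2)) := ⟨_, rfl⟩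
  have hN0' : N0 ≠ 0 := by
    rw [hN0]
    positivity
  have hN0r : (N0 : ℝ) ≠ 0 := Nat.cast_ne_zero.2 hN0'
  have hsp1 : ∀ x ∈ Submodule.span ℤ (Set.range c0),
      (N0 : ℝ) • x ∈ Submodule.span ℤ (Set.range fun i => (N0 : ℝ) • c0 i) := by
    intro x hx
    induction hx using Submodule.span_induction with
    | mem x hx =>
      obtain ⟨i, rfl⟩ := hx
      exact Submodule.subset_span ⟨i, rfl⟩
    | zero =>
      rw [smul_zero]
      exact Submodule.zero_mem _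
    | add x y _ _ hx hy =>
      rw [smul_add]
      exact Submodule.add_mem _ hx hy
    | smul m x _ hx =>
      rw [smul_comm]
      exact Submodule.smul_mem _ m hx
  have hsp2 : ∀ a ∈ Submodule.span ℤ (Set.range fun i => (N0 : ℝ) • c0 i),
      ∃ x ∈ Submodule.span ℤ (Set.range c0), a = (N0 : ℝ) • x := by
    intro a ha
    induction ha using Submodule.span_induction with
    | mem x hx =>
      obtain ⟨i, rfl⟩ := hx
      exact ⟨c0 i, Submodule.subset_span ⟨i, rfl⟩, rfl⟩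
    | zero => exact ⟨0, Submodule.zero_mem _, by rw [smul_zero]⟩
    | add x y _ _ hx hy =>
      obtain ⟨x', hx', rfl⟩ := hx
      obtain ⟨y', hy', rfl⟩ := hy
      exact ⟨x' + y', Submodule.add_mem _ hx' hy', by rw [smul_add]⟩
    | smul m x _ hx =>
      obtain ⟨x', hx', rfl⟩ := hx
      exact ⟨m • x', Submodule.smul_mem _ m hx', by rw [smul_comm]⟩
  have hnat : ∀ (m : ℕ), ∀ x ∈ Submodule.span ℤ (Set.range c0),
      (m : ℝ) • x ∈ Submodule.span ℤ (Set.range c0) := by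
    intro m x hx
    rw [Nat.cast_smul_eq_nsmul]
    exact Submodule.smul_of_tower_mem _ m hx
  refine ⟨n, fun i => (N0 : ℝ) • c0 i, ?_, ?_, ?_, ?_, ?_⟩
  · have hk : LinearMap.ker ((N0 : ℝ) • (LinearMap.id : (E →L[ℝ] E) →ₗ[ℝ] (E →L[ℝ] E))) = ⊥ := by
      rw [LinearMap.ker_eq_bot']
      intro x hx
      rw [LinearMap.smul_apply, LinearMap.id_apply] at hx
      exact (smul_eq_zero.1 hx).resolve_left hN0r
    have h1 := hc0li.map' _ hk
    exact h1
  · apply le_antisymm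
    · rw [Submodule.span_le]
      rintro _ ⟨i, rfl⟩
      exact Submodule.smul_mem _ _ (hci i).1
    · rw [← hsspan, Submodule.span_le]
      rintro _ ⟨i, rfl⟩
      have h1 : c0 i = (N0 : ℝ)⁻¹ • ((N0 : ℝ) • c0 i) := by
        rw [smul_smul, inv_mul_cancel₀ hN0r, one_smul]
      rw [h1]
      exact Submodule.smul_mem _ _ (Submodule.subset_span ⟨i, rfl⟩)
  · intro a ha
    obtain ⟨x, hx, rfl⟩ := hsp2 a ha
    have h1 := hteG _ (hnat K x hx)
    rw [smul_smul, ← Nat.cast_mul, mul_comm, ← hN0] at h1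
    exact h1
  · intro a ha a' ha'
    obtain ⟨x, hx, rfl⟩ := hsp2 a ha
    obtain ⟨y, hy, rfl⟩ := hsp2 a' ha'
    have h1 := hsp1 _ (hnat (M * (2 * K1 ^ 2)) _ (hKbr x hx y hy))
    have e1 : (1 / 2 : ℝ) • (((N0 : ℝ) • x) ∘L ((N0 : ℝ) • y) - ((N0 : ℝ) • y) ∘L ((N0 : ℝ) • x)) =
        (N0 : ℝ) • ((M * (2 * K1 ^ 2) : ℕ) : ℝ) • (K : ℝ) • (1 / 2 : ℝ) • (x * y - y * x) := by
      have e2 : ((N0 : ℝ) • x) ∘L ((N0 : ℝ) • y) - ((N0 : ℝ) • y) ∘L ((N0 : ℝ) • x) =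
          ((N0 : ℝ) * (N0 : ℝ)) • (x * y - y * x) := by
        show ((N0 : ℝ) • x) * ((N0 : ℝ) • y) - ((N0 : ℝ) • y) * ((N0 : ℝ) • x) = _
        rw [smul_mul_smul_comm, smul_mul_smul_comm, smul_sub]
      rw [e2, smul_smul, smul_smul, smul_smul, smul_smul]
      congr 1
      have e3 : (N0 : ℝ) = (K : ℝ) * ((M * (2 * K1 ^ 2) : ℕ) : ℝ) := by
        rw [hN0, Nat.cast_mul]
      rw [e3]
      ring
    rw [e1]
    exact h1
  · intro a ha hta
    have ha3 : a ∘L a ∘L a = 0 := hN3.cube a ha a ha a ha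
    obtain ⟨m, hm, hma⟩ := hmul a ha ((gqo_te h.ox ha3).1 (hG.1 _ hta))
    refine ⟨N0 * m, mul_ne_zero hN0' hm, ?_⟩
    have h1 := hsp1 _ hma
    have e1 : (N0 : ℝ) • ((m : ℤ) • a) = ((N0 * m : ℕ) : ℤ) • a := by
      rw [← Int.cast_smul_eq_zsmul ℝ, ← Int.cast_smul_eq_zsmul ℝ, smul_smul]
      congr 1
      push_cast
      ring
    rw [e1] at h1
    exact h1


/-! scalars -/

/-- the pair of scalars -/
private def ltS (E : Type*) [NormedAddCommGroup E] [InnerProductSpace ℝ E] (α β : ℝ) : DE E :=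
  (α • 1, op (β • 1))

private theorem ltS_mul (α β α' β' : ℝ) : ltS E α β * ltS E α' β' = ltS E (α * α') (β * β') := by
  unfold ltS
  rw [Prod.mk_mul_mk, ← op_mul, smul_mul_smul_comm, smul_mul_smul_comm, one_mul, mul_comm β' β]

private theorem ltS_one : ltS E 1 1 = 1 := by
  unfold ltS
  rw [one_smul]
  rfl

private theorem ltS_add (α β α' β' : ℝ) : ltS E α β + ltS E α' β' = ltS E (α + α') (β + β') := by
  unfold ltS
  rw [Prod.mk_add_mk, ← op_add, ← add_smul, ← add_smul]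

private theorem ltS_zsmul (m : ℤ) (α β : ℝ) : m • ltS E α β = ltS E (m * α) (m * β) := by
  unfold ltS
  rw [← Int.cast_smul_eq_zsmul ℝ, Prod.smul_mk, ← op_smul, smul_smul, smul_smul]

private theorem ltS_neg (α β : ℝ) : - ltS E α β = ltS E (-α) (-β) := by
  unfold ltS
  rw [Prod.neg_mk, ← op_neg, neg_smul, neg_smul]

private theorem ltS_sub_one (α β : ℝ) : ltS E α β - 1 = ltS E (α - 1) (β - 1) := by
  rw [← ltS_one, sub_eq_add_neg, ltS_neg, ltS_add, sub_eq_add_neg, sub_eq_add_neg]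

private theorem ltS_pow (α β : ℝ) (m : ℕ) : ltS E α β ^ m = ltS E (α ^ m) (β ^ m) := by
  induction m with
  | zero => rw [pow_zero, pow_zero, pow_zero, ltS_one]
  | succ m ih => rw [pow_succ, ih, ltS_mul, pow_succ, pow_succ]

private theorem lt_pellseq {r x y : ℝ} {D : ℤ} (hr : r * r = D) {X Y : ℤ} (hx : x = X + Y * r)
    (hy : y = X - Y * r) (m : ℕ) : ∃ u v : ℤ, x ^ m = u + v * r ∧ y ^ m = u - v * r := by
  induction m with
  | zero => exact ⟨1, 0, by simp, by simp⟩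
  | succ m ih =>
    obtain ⟨u, v, h1, h2⟩ := ih
    refine ⟨u * X + v * Y * D, u * Y + v * X, ?_, ?_⟩
    · rw [pow_succ, h1, hx]
      push_cast
      linear_combination ((v : ℝ) * Y) * hr
    · rw [pow_succ, h2, hy]
      push_cast
      linear_combination ((v : ℝ) * Y) * hr

/-- congruent to `1` modulo `N` -/
private def ltU (O : Subring (DE E)) (N : ℕ) (α β : ℝ) : Prop :=
  ∃ z ∈ O, ltS E α β - 1 = (N : ℤ) • z

private theorem ltU_mul {N : ℕ} {α β α' β' : ℝ} (h : ltU O N α β) (h' : ltU O N α' β') :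
    ltU O N (α * α') (β * β') := by
  obtain ⟨z, hz, h1⟩ := h
  obtain ⟨z', hz', h2⟩ := h'
  refine ⟨(1 + (N : ℤ) • z) * z' + z, O.add_mem (O.mul_mem (O.add_mem O.one_mem
    (O.zsmul_mem hz _)) hz') hz, ?_⟩
  rw [← ltS_mul]
  have e1 : ltS E α β = 1 + (N : ℤ) • z := by rw [← h1]; abel
  have e2 : ltS E α' β' = 1 + (N : ℤ) • z' := by rw [← h2]; abel
  rw [e1, e2]
  simp only [smul_add, mul_add, add_mul, mul_one, one_mul, smul_mul_assoc, mul_smul_comm]
  abel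

private theorem ltU_one (N : ℕ) : ltU O N 1 1 := by
  refine ⟨0, O.zero_mem, ?_⟩
  rw [ltS_one, sub_self, smul_zero]

private theorem ltU_pow {N : ℕ} {α β : ℝ} (h : ltU O N α β) (m : ℕ) :
    ltU O N (α ^ m) (β ^ m) := by
  induction m with
  | zero => rw [pow_zero, pow_zero]; exact ltU_one N
  | succ m ih => rw [pow_succ, pow_succ]; exact ltU_mul ih h

private theorem lt_pell (h : OX O) {N : ℕ} (hN : N ≠ 0) :
    ∃ A : ℝ, 1 < A ∧ ltU O N A A⁻¹ ∧ ltU O N A⁻¹ A := by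
  obtain ⟨D, hD, hS⟩ := h.sqrt
  have hD0 : 0 < D := by
    rcases Nat.eq_zero_or_pos D with h0 | h0
    · exact absurd ⟨0, by rw [h0]⟩ hD
    · exact h0
  obtain ⟨r, hrdef⟩ : ∃ r, r = Real.sqrt D := ⟨_, rfl⟩
  have hr0 : 0 < r := by
    rw [hrdef]
    exact Real.sqrt_pos.2 (Nat.cast_pos.2 hD0)
  have hrr : r * r = ((D : ℤ) : ℝ) := by
    rw [hrdef, Int.cast_natCast]
    exact Real.mul_self_sqrt (Nat.cast_nonneg D)
  have hS' : ltS E r (-r) ∈ O := by
    rw [← hrdef, ← neg_smul] at hS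
    exact hS
  obtain ⟨x, y, hxy, hy0⟩ := Pell.exists_of_not_isSquare (d := (D : ℤ)) (by exact_mod_cast hD0)
    (by
      rintro ⟨t, ht⟩
      apply hD
      refine ⟨t.natAbs, ?_⟩
      zify
      rw [ht, ← abs_mul_abs_self t])
  have hX : (|x| : ℤ) ^ 2 - D * (|y| : ℤ) ^ 2 = 1 := by rw [sq_abs, sq_abs]; exact hxy
  have hY1 : 1 ≤ |y| := Int.one_le_abs hy0
  have hX1 : 1 ≤ |x| := by
    have hx0 : x ≠ 0 := by
      rintro rfl
      nlinarith [sq_nonneg y]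
    exact Int.one_le_abs hx0
  obtain ⟨X, hXd⟩ : ∃ X : ℤ, X = |x| := ⟨_, rfl⟩
  obtain ⟨Y, hYd⟩ : ∃ Y : ℤ, Y = |y| := ⟨_, rfl⟩
  rw [← hXd, ← hYd] at hX
  rw [← hXd] at hX1
  rw [← hYd] at hY1
  have hXr : (1 : ℝ) ≤ X := by exact_mod_cast hX1
  have hYr : (1 : ℝ) ≤ Y := by exact_mod_cast hY1
  obtain ⟨ε, hε⟩ : ∃ ε : ℝ, ε = X + Y * r := ⟨_, rfl⟩
  obtain ⟨δ, hδ⟩ : ∃ δ : ℝ, δ = X - Y * r := ⟨_, rfl⟩
  have hεδ : ε * δ = 1 := by
    have h1 : ((X : ℝ)) ^ 2 - ((D : ℤ) : ℝ) * (Y : ℝ) ^ 2 = 1 := by exact_mod_cast hX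
    rw [hε, hδ]
    linear_combination h1 - ((Y : ℝ) ^ 2) * hrr
  have hε1 : 1 < ε := by
    rw [hε]
    nlinarith
  have hT : ltS E ε δ ∈ O := by
    have h1 := O.add_mem (O.zsmul_mem O.one_mem X) (O.zsmul_mem hS' Y)
    rw [← ltS_one, ltS_zsmul, ltS_zsmul, ltS_add] at h1
    have e1 : (X : ℝ) * 1 + Y * r = ε := by rw [hε]; ring
    have e2 : (X : ℝ) * 1 + Y * -r = δ := by rw [hδ]; ring
    rw [e1, e2] at h1
    exact h1
  have hT' : ltS E δ ε ∈ O := by
    have h1 := O.add_mem (O.zsmul_mem O.one_mem X) (O.zsmul_mem hS' (-Y))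
    rw [← ltS_one, ltS_zsmul, ltS_zsmul, ltS_add] at h1
    have e1 : (X : ℝ) * 1 + ((-Y : ℤ) : ℝ) * r = δ := by rw [hδ]; push_cast; ring
    have e2 : (X : ℝ) * 1 + ((-Y : ℤ) : ℝ) * -r = ε := by rw [hε]; push_cast; ring
    rw [e1, e2] at h1
    exact h1
  choose u v hu hv using lt_pellseq hrr hε hδ
  have : NeZero N := ⟨hN⟩
  obtain ⟨m1, m2, hne, heq⟩ := Finite.exists_ne_map_eq_of_infinite
    (fun m : ℕ => (((u m : ZMod N), (v m : ZMod N)) : ZMod N × ZMod N))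
  obtain ⟨m1, m2, hlt, heq⟩ : ∃ m1 m2 : ℕ, m1 < m2 ∧
      (((u m1 : ZMod N), (v m1 : ZMod N)) : ZMod N × ZMod N) = ((u m2 : ZMod N), (v m2 : ZMod N)) := by
    rcases Nat.lt_or_gt_of_ne hne with h1 | h1
    · exact ⟨m1, m2, h1, heq⟩
    · exact ⟨m2, m1, h1, heq.symm⟩
  rw [Prod.mk.injEq, ZMod.intCast_eq_intCast_iff_dvd_sub, ZMod.intCast_eq_intCast_iff_dvd_sub] at heq
  obtain ⟨⟨a, ha⟩, ⟨b, hb⟩⟩ := heq
  have har : (u m2 : ℝ) - u m1 = N * a := by exact_mod_cast ha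
  have hbr : (v m2 : ℝ) - v m1 = N * b := by exact_mod_cast hb
  obtain ⟨m, rfl⟩ : ∃ m, m2 = m1 + (m + 1) := ⟨m2 - m1 - 1, by omega⟩
  have hεm : ∀ j : ℕ, ε ^ j * δ ^ j = 1 := by
    intro j
    rw [← mul_pow, hεδ, one_pow]
  have hε0 : ε ≠ 0 := by positivity
  have hinv : (ε ^ (m + 1))⁻¹ = δ ^ (m + 1) := inv_eq_of_mul_eq_one_right (hεm _)
  have hab : ltS E (a + b * r) (a - b * r) ∈ O := by
    have h1 := O.add_mem (O.zsmul_mem O.one_mem a) (O.zsmul_mem hS' b)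
    rw [← ltS_one, ltS_zsmul, ltS_zsmul, ltS_add] at h1
    have e1 : (a : ℝ) * 1 + b * r = a + b * r := by ring
    have e2 : (a : ℝ) * 1 + b * -r = a - b * r := by ring
    rw [e1, e2] at h1
    exact h1
  have g1 : ε ^ (m + 1) - 1 = N * ((a + b * r) * δ ^ m1) := by
    have h1 : ε ^ (m1 + (m + 1)) - ε ^ m1 = N * (a + b * r) := by
      rw [hu, hu]
      linear_combination har + r * hbr
    have h2 : ε ^ (m + 1) - 1 = (ε ^ (m1 + (m + 1)) - ε ^ m1) * δ ^ m1 := by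
      rw [sub_mul, hεm, pow_add]
      linear_combination (-ε ^ (m + 1)) * hεm m1
    rw [h2, h1]
    ring
  have g2 : δ ^ (m + 1) - 1 = N * ((a - b * r) * ε ^ m1) := by
    have h1 : δ ^ (m1 + (m + 1)) - δ ^ m1 = N * (a - b * r) := by
      rw [hv, hv]
      linear_combination har - r * hbr
    have h2 : δ ^ (m + 1) - 1 = (δ ^ (m1 + (m + 1)) - δ ^ m1) * ε ^ m1 := by
      rw [sub_mul, mul_comm (δ ^ m1) (ε ^ m1), hεm, pow_add]
      linear_combination (-δ ^ (m + 1)) * hεm m1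
    rw [h2, h1]
    ring
  refine ⟨ε ^ (m + 1), one_lt_pow₀ hε1 (by omega), ?_, ?_⟩
  · rw [hinv]
    refine ⟨ltS E (a + b * r) (a - b * r) * ltS E δ ε ^ m1, O.mul_mem hab (O.pow_mem hT' _), ?_⟩
    rw [ltS_pow, ltS_mul, ltS_zsmul, ltS_sub_one, g1, g2, Int.cast_natCast]
  · rw [hinv]
    refine ⟨-(ltS E (a + b * r) (a - b * r) * ltS E δ ε ^ m1 * ltS E δ ε ^ (m + 1)),
      O.neg_mem (O.mul_mem (O.mul_mem hab (O.pow_mem hT' _)) (O.pow_mem hT' _)), ?_⟩
    rw [ltS_pow, ltS_pow, ltS_mul, ltS_mul, ltS_neg, ltS_zsmul, ltS_sub_one, Int.cast_natCast]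
    congr 1
    · linear_combination (-δ ^ (m + 1)) * g1 + hεm (m + 1)
    · linear_combination (-ε ^ (m + 1)) * g2 + hεm (m + 1)

/-! determinants -/

private theorem lt_det1 (f : E →ₗ[ℝ] E) (hf : IsIdempotentElem f) (α : ℝ) :
    LinearMap.det (1 + (α - 1) • f) = α ^ Module.finrank ℝ (LinearMap.range f) := by
  let ψ := Submodule.prodEquivOfIsCompl (LinearMap.range f) (LinearMap.ker f) (LinearMap.IsIdempotentElem.isCompl hf)
  have h1 : (1 + (α - 1) • f : E →ₗ[ℝ] E) = (ψ : (LinearMap.range f × LinearMap.ker f) →ₗ[ℝ] E) ∘ₗ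
      (LinearMap.prodMap (α • LinearMap.id) LinearMap.id) ∘ₗ (ψ.symm : E →ₗ[ℝ] (LinearMap.range f × LinearMap.ker f)) := by
    apply LinearMap.ext
    intro x
    obtain ⟨⟨v, w⟩, rfl⟩ := ψ.surjective x
    have hv : f (v : E) = v := by
      obtain ⟨y, hy⟩ := v.2
      rw [← hy]
      exact LinearMap.congr_fun hf y
    have hw : f (w : E) = 0 := w.2
    simp only [LinearMap.comp_apply, LinearEquiv.coe_coe, LinearEquiv.symm_apply_apply]
    show (ψ (v, w) : E) + (α - 1) • f (ψ (v, w)) = ψ (α • v, w)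
    have e1 : (ψ (v, w) : E) = v + w := rfl
    have e2 : (ψ (α • v, w) : E) = α • (v : E) + w := rfl
    rw [e1, e2, map_add, hv, hw]
    module
  rw [h1, LinearMap.det_conj, LinearMap.det_prodMap, LinearMap.det_smul, LinearMap.det_id,
    LinearMap.det_id, mul_one, mul_one]

private theorem lt_sc (h : PP e e') {α β : ℝ} (hα : α ≠ 0) (hβ : β ≠ 0) :
    (sc e e' α β : E →L[ℝ] E) = 1 + (α - 1) • (e + e') + (β - 1) • mid e e' := by
  ext x
  rw [ContinuousLinearEquiv.coe_coe, sc_apply h hα hβ]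
  show _ = x + (α - 1) • (e x + e' x) + (β - 1) • (x - e x - e' x)
  module

private theorem lt_sc' (h : PP e e') {α β : ℝ} (hα : α ≠ 0) (hβ : β ≠ 0) :
    (((sc e e' α β)⁻¹ : GE E) : E →L[ℝ] E) =
      1 + (α⁻¹ - 1) • (e + e') + (β⁻¹ - 1) • mid e e' := by
  ext x
  rw [ContinuousLinearEquiv.coe_coe, sc_inv h hα hβ]
  show _ = x + (α⁻¹ - 1) • (e x + e' x) + (β⁻¹ - 1) • (x - e x - e' x)
  module

private theorem lt_detsc (h : PP e e') {α β : ℝ} (hα : α ≠ 0) (hβ : β ≠ 0) :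
    LinearMap.det ((sc e e' α β : E →L[ℝ] E) : E →ₗ[ℝ] E) =
      α ^ (Module.finrank ℝ (LinearMap.range (e : E →ₗ[ℝ] E)) +
        Module.finrank ℝ (LinearMap.range (e' : E →ₗ[ℝ] E))) *
      β ^ Module.finrank ℝ (LinearMap.range ((mid e e' : E →L[ℝ] E) : E →ₗ[ℝ] E)) := by
  have e1 : ((sc e e' α β : E →L[ℝ] E) : E →ₗ[ℝ] E) =
      (1 + (α - 1) • (e : E →ₗ[ℝ] E)) * (1 + (α - 1) • (e' : E →ₗ[ℝ] E)) *
        (1 + (β - 1) • ((mid e e' : E →L[ℝ] E) : E →ₗ[ℝ] E)) := by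
    apply LinearMap.ext
    intro x
    have h1 : (sc e e' α β : E →L[ℝ] E) =
        (1 + (α - 1) • e) * (1 + (α - 1) • e') * (1 + (β - 1) • mid e e') := by
      rw [lt_sc h hα hβ]
      simp only [mul_add, add_mul, mul_one, one_mul, smul_mul_assoc, mul_smul_comm, lt_eo h,
        lt_ef h, lt_ef' h, smul_zero, add_zero]
      rw [smul_add]
      abel
    exact congrArg (fun f : E →L[ℝ] E => f x) h1
  have i1 : IsIdempotentElem (e : E →ₗ[ℝ] E) := LinearMap.ext fun x => h.pr.idem x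
  have i2 : IsIdempotentElem (e' : E →ₗ[ℝ] E) := LinearMap.ext fun x => h.pr'.idem x
  have i3 : IsIdempotentElem ((mid e e' : E →L[ℝ] E) : E →ₗ[ℝ] E) :=
    LinearMap.ext fun x => congrArg (fun f : E →L[ℝ] E => f x) (lt_ff h)
  rw [e1, map_mul, map_mul, lt_det1 _ i1, lt_det1 _ i2, lt_det1 _ i3, pow_add]

private theorem lt_scmem {N : ℕ} (hP : (N : ℤ) • ((e + e', op (e + e')) : DE E) ∈ O)
    (hf : (N : ℤ) • ((mid e e', op (mid e e')) : DE E) ∈ O) {α β α' β' : ℝ}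
    (h1 : ltU O N α α') (h2 : ltU O N β β') :
    (((1 + (α - 1) • (e + e') + (β - 1) • mid e e',
      op (1 + (α' - 1) • (e + e') + (β' - 1) • mid e e')) : DE E) ∈ O) := by
  obtain ⟨z, hz, h3⟩ := h1
  obtain ⟨w, hw, h4⟩ := h2
  have h5 := O.add_mem (O.add_mem O.one_mem (O.mul_mem hz hP)) (O.mul_mem hw hf)
  rw [mul_smul_comm, ← smul_mul_assoc, mul_smul_comm, ← smul_mul_assoc, ← h3, ← h4, ltS_sub_one,
    ltS_sub_one] at h5
  have e1 : (1 : DE E) + ltS E (α - 1) (α' - 1) * ((e + e', op (e + e')) : DE E) +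
      ltS E (β - 1) (β' - 1) * ((mid e e', op (mid e e')) : DE E) =
      (1 + (α - 1) • (e + e') + (β - 1) • mid e e',
      op (1 + (α' - 1) • (e + e') + (β' - 1) • mid e e')) := by
    unfold ltS
    rw [Prod.mk_mul_mk, Prod.mk_mul_mk, ← op_mul, ← op_mul]
    simp only [smul_mul_assoc, one_mul, mul_smul_comm, mul_one]
    refine Prod.ext rfl ?_
    show (1 : (E →L[ℝ] E)ᵐᵒᵖ) + op ((α' - 1) • (e + e')) + op ((β' - 1) • mid e e') = _
    rw [op_add, op_add, op_one]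
  rw [e1] at h5
  exact h5

theorem pell_O (h : OD O e e') (hN : ∃ x : E, x ≠ 0 ∧ e x = 0 ∧ e' x = 0) {G : Subgroup (GE E)}
    (hG : G ∈ CCO O) :
    ∃ (A : ℝ) (p q : ℕ), 1 < A ∧ 1 ≤ p ∧ 1 ≤ q ∧
      p = Module.finrank ℝ (LinearMap.range ((mid e e' : E →L[ℝ] E) : E →ₗ[ℝ] E)) ∧
      q = Module.finrank ℝ (LinearMap.range (e : E →ₗ[ℝ] E)) +
        Module.finrank ℝ (LinearMap.range (e' : E →ₗ[ℝ] E)) ∧
      sc e e' (A ^ p) ((A ^ q)⁻¹) ∈ G ∧ sc e e' (A ^ p) ((A ^ q)⁻¹) ∈ G0O O := by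
  have hPR : RR O (e + e') (e + e') := by
    have h1 := rr_add h.rat (rr_swap h.ox h.rat)
    rw [add_comm e' e] at h1
    exact h1
  obtain ⟨N1, hN1, hN1O⟩ := rr_ex hPR
  obtain ⟨N2, hN2, hN2O⟩ := rr_ex (rr_mid h)
  obtain ⟨N, hNd⟩ : ∃ N : ℕ, N = N1 * N2 := ⟨_, rfl⟩
  have hN0 : N ≠ 0 := by rw [hNd]; exact mul_ne_zero hN1 hN2
  have hP : (N : ℤ) • ((e + e', op (e + e')) : DE E) ∈ O := by
    have h1 := hN1O (N : ℤ) (by rw [hNd]; exact Int.natCast_dvd_natCast.2 (dvd_mul_right _ _))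
    rw [← Int.cast_smul_eq_zsmul ℝ, Prod.smul_mk, ← op_smul]
    exact h1
  have hf : (N : ℤ) • ((mid e e', op (mid e e')) : DE E) ∈ O := by
    have h1 := hN2O (N : ℤ) (by rw [hNd]; exact Int.natCast_dvd_natCast.2 (dvd_mul_left _ _))
    rw [← Int.cast_smul_eq_zsmul ℝ, Prod.smul_mk, ← op_smul]
    exact h1
  obtain ⟨A, hA, hU, hU'⟩ := lt_pell h.ox hN0
  obtain ⟨p, hp⟩ : ∃ p, p = Module.finrank ℝ
    (LinearMap.range ((mid e e' : E →L[ℝ] E) : E →ₗ[ℝ] E)) := ⟨_, rfl⟩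
  obtain ⟨q, hq⟩ : ∃ q, q = Module.finrank ℝ (LinearMap.range (e : E →ₗ[ℝ] E)) +
        Module.finrank ℝ (LinearMap.range (e' : E →ₗ[ℝ] E)) := ⟨_, rfl⟩
  have hp1 : 1 ≤ p := by
    rw [hp, Submodule.one_le_finrank_iff]
    obtain ⟨x, hx, hx1, hx2⟩ := hN
    intro h0
    apply hx
    have h1 : x ∈ LinearMap.range ((mid e e' : E →L[ℝ] E) : E →ₗ[ℝ] E) := by
      refine ⟨x, ?_⟩
      show x - e x - e' x = x
      rw [hx1, hx2, sub_zero, sub_zero]
    rw [h0] at h1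
    exact (Submodule.mem_bot ℝ).1 h1
  have hq1 : 1 ≤ q := by
    have h1 : 1 ≤ Module.finrank ℝ (LinearMap.range (e : E →ₗ[ℝ] E)) := by
      rw [Submodule.one_le_finrank_iff]
      intro h0
      apply h.ne
      ext x
      have h1 : e x ∈ LinearMap.range (e : E →ₗ[ℝ] E) := ⟨x, rfl⟩
      rw [h0] at h1
      exact (Submodule.mem_bot ℝ).1 h1
    omega
  have hA0 : 0 < A := by linarith
  have hα : A ^ p ≠ 0 := by positivity
  have hβ : (A ^ q)⁻¹ ≠ 0 := by positivity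
  have hτ : sc e e' (A ^ p) ((A ^ q)⁻¹) ∈ G0O O := by
    have u1 := ltU_pow hU p
    have u2 := ltU_pow hU' p
    have u3 := ltU_pow hU q
    have u4 := ltU_pow hU' q
    rw [inv_pow] at u1 u2 u3 u4
    refine ⟨?_, ?_, ?_⟩
    · rw [lt_sc h.pp hα hβ, lt_sc' h.pp hα hβ, inv_inv]
      exact lt_scmem hP hf u1 u4
    · rw [lt_sc h.pp hα hβ, lt_sc' h.pp hα hβ, inv_inv]
      exact lt_scmem hP hf u2 u3
    · rw [lt_detsc h.pp hα hβ, ← hp, ← hq, inv_pow, ← pow_mul, ← pow_mul, mul_comm q p]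
      exact mul_inv_cancel₀ (by positivity)
  obtain ⟨M, hM, hMG⟩ := cco_pow hG
  have hpw : ∀ j : ℕ, (sc e e' (A ^ p) ((A ^ q)⁻¹)) ^ (j + 1) =
      sc e e' ((A ^ (j + 1)) ^ p) (((A ^ (j + 1)) ^ q)⁻¹) := by
    intro j
    induction j with
    | zero => rw [zero_add, pow_one, pow_one]
    | succ j ih =>
      rw [pow_succ, ih, sc_mul h.pp (by positivity) (by positivity) hα hβ, ← mul_pow,
        ← mul_inv, ← mul_pow, ← pow_succ]
  obtain ⟨j, rfl⟩ : ∃ j, M = j + 1 := ⟨M - 1, by omega⟩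
  refine ⟨A ^ (j + 1), p, q, one_lt_pow₀ hA (by omega), hp1, hq1, hp, hq, ?_, ?_⟩
  · rw [← hpw]
    exact hMG _ hτ
  · rw [← hpw]
    exact (G0O O).pow_mem hτ _

end
end LatLin
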