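import Pool.Agent.Lib.MP_2392aa_gt.O.DivCoc
import Pool.Agent.Lib.MP_2392aa_gt.O.LatO
import Pool.Agent.Lib.MP_2392aa_gt.O.CornO
import Pool.Agent.Lib.MP_2392aa_gt.L.Dense

/-!
MP_2392aa_gt, formal linearization, outer type, module DnO (about 450 lines): density of the units of
the corner algebra in `SL(V) × SL(V')`.

PROOF. `d := dim V = dim V'` (`corn_dim`), `δ := Fin d`, `v i`, `v' i` orthonormal bases of `V`, `V'` (as vectors
of `E`). For `y ∈ M_δ(ℝ)` let `Φ1 y := ∑ y i j • ro (v j) (v i)`, `Φ2 z := ∑ z i j • ro (v' j) (v' i)`: injective,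
additive, multiplicative, `Φ1 1 = e`, `Φ2 1 = e'`, range: the operators with `e a e = a` (resp.
`e' a e' = a`). `Φ (y, op z) := (Φ1 y, op (Φ2 z)) : DM δ → DE E`, `ε := Φ 1 = (e, op e')`. Let `N ≥ 1`, `N ε ∈ O`.
(1) THE ORDER. `D0 := {x | ∃ k : ℤ, Φ x - k ε ∈ O}` is a subring (`(k ε + o) (k' ε + o') = k k' ε + k o' + k' o + o o'`,
where `o = Φ x - k ε` satisfies `ε o = o ε = o`). `DivOO (Fin d) D0`: `ord`: let `S := {x | Φ x ∈ O}`. For `o ∈ O`:
`N ^ 2 ε o ε = (N ε) o (N ε) ∈ O` is in the range of `Φ`, so (`h.ox.ord`: `O` spans `DE E`) the real span of `S` is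
`DM δ`. `S` is contained in the integer span of a basis of `DE E` (through `Φ`), `S ⊆ D0 ⊆ (1 / N) S`; so
`D0` is a finitely generated free group, its integral basis is independent over `ℝ` (a family in the
integer span of a real basis which is independent over `ℤ` is independent over `ℝ`) and spans:
`2 d ^ 2` elements, reindex. `sqrt`: `s = (√D, op (-√D)) ∈ O`, `s (N ε) = N Φ (√D, op (-√D)) ∈ O`. `div`: `x ≠ 0` in `D0`:
`Φ x` is rational, nonzero, in the corner; its first component is nonzero (`rr_uniq2`, exchange),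
`h.div` gives an inverse `(c, op c')`: `Φ1 y c = e`, and `c' Φ2 z = e'`.. (`rr_uniq2`), so `det y, det z ≠ 0`.
(2) THE HOMOMORPHISM. `Ψ : SL × SL →* GE E`, `Ψ (a, c) :=` the operator `Φ1 a + Φ2 c + mid`, in `blk2 e e'`, of
determinant one. `H := G.comap Ψ`. `H.relIndex (U0 D0) ≠ 0`: let `U0(M)` be the subgroup of the `(a, c) ∈ U0 D0`
with `(a, op c⁻¹) - 1 ∈ M D0` and `(a⁻¹, op c) - 1 ∈ M D0`, of finite index in `U0 D0` (`D0 / M D0` is finite; see
`congO`). For `(a, c) ∈ U0(M)`, `g = Ψ (a, c)`: `(g, op g⁻¹) - 1 = (Φ (a, op c⁻¹) - ε) + (Φ (a⁻¹, op c) - ε)*`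
(exchange: `(Φ1 a⁻¹, op (Φ2 c))* = (Φ2 c, op (Φ1 a⁻¹))`), and this is in `O` if `N` times the factor of
`h.ox.swap` divides `M` (`N Φ x ∈ O` for `x ∈ D0`); the same for `g⁻¹`. So `Ψ (U0(M)) ⊆ G0O O`, and
`G.relIndex (G0O O) ≠ 0` gives the claim (`Subgroup.relIndex_comap`, transitivity).
(3) `coc_OO` for `H`: a constant `R`. Let `q, u` be both in `V` (or both in `V'`), `⟪q, u⟫ = 0`, `s` real.
`tv q (s • u) = Ψ (a, 1)` (or `Ψ (1, a)`) with `a = 1 + s u q^T` of determinant one. Take `γ ∈ H` with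
`(a, 1) γ⁻¹` bounded by `R`: `tv q (s • u) = β_s Ψ γ` with `Ψ γ ∈ G ∩ blk2`, `β_s ∈ blk2`, and the norms of `β_s`,
`β_s⁻¹` are bounded independently of `s` (the inverse of a matrix of determinant one is its
adjugate).
(4) As in `dn_bdd` (L/Dense): let `f` be a linear functional on `X` vanishing on `B`.
`f (π (tv q (s • u)) x) = f (π β_s x) + f (π β_s (π (Ψ γ) x - x)) = f (π β_s x)` is bounded in `s` (`PRep.bdd`) and
polynomial in `s` (`PRep.poly`, `tv q (s • u) = tw (s • ro q u)`), hence constant; `s = 1`, `s = 0`: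
`f (π (tv q u) x - x) = 0` for all such `f`.
-/

open scoped ContDiff Topology Nat
open MulOpposite
open LatN (DM)

namespace LatLin

section
universe u
variable {E : Type u} [NormedAddCommGroup E] [InnerProductSpace ℝ E] [FiniteDimensional ℝ E]
  {O : Subring (DE E)} {e e' : E →L[ℝ] E}

variable {d : ℕ}

/-- the coordinates with respect to an orthonormal family -/
private noncomputable def co (v : Fin d → E) : E →ₗ[ℝ] (Fin d → ℝ) :=
  LinearMap.pi fun i => (innerSL ℝ (v i) : E →ₗ[ℝ] ℝ)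

/-- the vector with given coordinates -/
private noncomputable def vs (v : Fin d → E) : (Fin d → ℝ) →ₗ[ℝ] E :=
  Fintype.linearCombination ℝ v

omit [FiniteDimensional ℝ E] in
private theorem co_apply (v : Fin d → E) (x : E) (i : Fin d) : co v x i = inner ℝ (v i) x := rfl

omit [FiniteDimensional ℝ E] in
private theorem vs_apply (v : Fin d → E) (w : Fin d → ℝ) : vs v w = ∑ i, w i • v i := rfl

/-- an orthonormal basis of the range of `e` -/
private structure ON (e : E →L[ℝ] E) (v : Fin d → E) : Prop where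
  o : ∀ w, co v (vs v w) = w
  r : ∀ x, vs v (co v x) = e x

private theorem onb (he : IsPr e)
    (hd : Module.finrank ℝ (LinearMap.range (e : E →ₗ[ℝ] E)) = d) :
    ∃ v : Fin d → E, ON e v := by
  set b := (stdOrthonormalBasis ℝ (LinearMap.range (e : E →ₗ[ℝ] E))).reindex (finCongr hd) with hb
  refine ⟨fun i => (b i : E), ⟨fun w => ?_, fun x => ?_⟩⟩
  · funext i
    rw [co_apply, vs_apply]
    have h1 : Orthonormal ℝ (fun i => (b i : E)) :=
      b.orthonormal.comp_linearIsometry (Submodule.subtypeₗᵢ _)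
    exact h1.inner_right_fintype w i
  · rw [vs_apply]
    have h1 := b.sum_repr' ⟨e x, ⟨x, rfl⟩⟩
    have h2 := congrArg (Submodule.subtype _) h1
    rw [map_sum] at h2
    refine Eq.trans (Finset.sum_congr rfl fun i _ => ?_) h2
    rw [map_smul]
    congr 1
    obtain ⟨y, hy⟩ := (b i).2
    have hy' : e y = (b i : E) := hy
    have h3 : e (b i : E) = (b i : E) := by rw [← hy', he.idem]
    have h4 : (inner ℝ (b i) (⟨e x, ⟨x, rfl⟩⟩ : LinearMap.range (e : E →ₗ[ℝ] E)) : ℝ) =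
      inner ℝ (b i : E) (e x) := rfl
    rw [h4, ← he.sym, h3]
    rfl

/-- the operator of a matrix -/
private noncomputable def ph (v : Fin d → E) : Matrix (Fin d) (Fin d) ℝ →ₗ[ℝ] (E →L[ℝ] E) where
  toFun y := LinearMap.toContinuousLinearMap (vs v ∘ₗ Matrix.toLin' y ∘ₗ co v)
  map_add' y z := by
    ext x
    simp
  map_smul' c y := by
    ext x
    simp

private theorem ph_apply (v : Fin d → E) (y : Matrix (Fin d) (Fin d) ℝ) (x : E) :
    ph v y x = vs v (y.mulVec (co v x)) := rfl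

/-- the matrix of an operator -/
private noncomputable def mt (v : Fin d → E) : (E →L[ℝ] E) →ₗ[ℝ] Matrix (Fin d) (Fin d) ℝ where
  toFun a := LinearMap.toMatrix' (co v ∘ₗ (a : E →ₗ[ℝ] E) ∘ₗ vs v)
  map_add' a b := by
    rw [← map_add]
    congr 1
    ext x
    simp
  map_smul' c a := by
    rw [RingHom.id_apply, ← map_smul]
    congr 1
    ext x
    simp

omit [FiniteDimensional ℝ E] in
private theorem mt_mulVec (v : Fin d → E) (a : E →L[ℝ] E) (w : Fin d → ℝ) :
    (mt v a).mulVec w = co v (a (vs v w)) := by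
  have h : Matrix.toLin' (mt v a) w = co v (a (vs v w)) := by
    change Matrix.toLin' (LinearMap.toMatrix' (co v ∘ₗ (a : E →ₗ[ℝ] E) ∘ₗ vs v)) w = _
    rw [Matrix.toLin'_toMatrix']
    rfl
  exact h

private theorem mt_ph {v : Fin d → E} (hv : ON e v) (y : Matrix (Fin d) (Fin d) ℝ) :
    mt v (ph v y) = y := by
  apply Matrix.mulVec_injective
  funext w
  rw [mt_mulVec, ph_apply, hv.o, hv.o]

private theorem ph_mt {v : Fin d → E} (hv : ON e v) (a : E →L[ℝ] E) :
    ph v (mt v a) = e * a * e := by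
  ext x
  rw [ph_apply, mt_mulVec, hv.r, hv.r]
  rfl

private theorem ph_mul {v : Fin d → E} (hv : ON e v) (y z : Matrix (Fin d) (Fin d) ℝ) :
    ph v (y * z) = ph v y * ph v z := by
  ext x
  rw [mul_apply_eq_comp, ph_apply, ph_apply, ph_apply, hv.o, Matrix.mulVec_mulVec]

private theorem ph_one {v : Fin d → E} (hv : ON e v) : ph v 1 = e := by
  ext x
  rw [ph_apply, Matrix.one_mulVec, hv.r]

private theorem mt_mul_left {v : Fin d → E} (hv : ON e v) (y : Matrix (Fin d) (Fin d) ℝ)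
    (a : E →L[ℝ] E) : mt v (ph v y * a) = y * mt v a := by
  apply Matrix.mulVec_injective
  funext w
  rw [mt_mulVec, mul_apply_eq_comp, ph_apply, hv.o, ← Matrix.mulVec_mulVec, mt_mulVec]

private theorem mt_mul_right {v : Fin d → E} (hv : ON e v) (y : Matrix (Fin d) (Fin d) ℝ)
    (a : E →L[ℝ] E) : mt v (a * ph v y) = mt v a * y := by
  apply Matrix.mulVec_injective
  funext w
  rw [mt_mulVec, mul_apply_eq_comp, ph_apply, hv.o, ← Matrix.mulVec_mulVec, mt_mulVec]

private theorem mt_e {v : Fin d → E} (hv : ON e v) : mt v e = 1 := by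
  rw [← ph_one hv, mt_ph hv]

private theorem ph_el {v : Fin d → E} (hv : ON e v) (y : Matrix (Fin d) (Fin d) ℝ) :
    e * ph v y = ph v y := by
  rw [← ph_one hv, ← ph_mul hv, one_mul]

private theorem ph_er {v : Fin d → E} (hv : ON e v) (y : Matrix (Fin d) (Fin d) ℝ) :
    ph v y * e = ph v y := by
  conv_lhs => rw [← ph_one hv, ← ph_mul hv, mul_one]

private theorem ph_vec {v : Fin d → E} (hv : ON e v) {q u : E} (hq : e q = q)
    (hu : e u = u) : ph v (Matrix.vecMulVec (co v u) (co v q)) = ro q u := by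
  ext x
  rw [ph_apply, Matrix.vecMulVec_mulVec, ro_apply]
  have h1 : co v q ⬝ᵥ co v x = inner ℝ q x := by
    conv_rhs => rw [← hq, ← hv.r q, vs_apply, sum_inner]
    unfold dotProduct
    refine Finset.sum_congr rfl fun i _ => ?_
    rw [real_inner_smul_left]
    rfl
  rw [h1]
  have h2 : MulOpposite.op (inner ℝ q x : ℝ) • co v u = (inner ℝ q x : ℝ) • co v u := by
    ext i
    simp [mul_comm]
  rw [h2, map_smul, hv.r, hu]

/-- the embedding of pairs of matrices -/
private noncomputable def PH (v v' : Fin d → E) : DM (Fin d) →ₗ[ℝ] DE E where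
  toFun x := (ph v x.1, op (ph v' (unop x.2)))
  map_add' x y := by
    refine Prod.ext ?_ ?_
    · exact map_add (ph v) x.1 y.1
    · change op (ph v' (unop x.2 + unop y.2)) = _
      rw [map_add]
      rfl
  map_smul' c x := by
    refine Prod.ext ?_ ?_
    · exact map_smul (ph v) c x.1
    · change op (ph v' (c • unop x.2)) = _
      rw [map_smul]
      rfl

/-- the matrices of a pair of operators -/
private noncomputable def MT (v v' : Fin d → E) : DE E →ₗ[ℝ] DM (Fin d) where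
  toFun x := (mt v x.1, op (mt v' (unop x.2)))
  map_add' x y := by
    refine Prod.ext ?_ ?_
    · exact map_add (mt v) x.1 y.1
    · change op (mt v' (unop x.2 + unop y.2)) = _
      rw [map_add]
      rfl
  map_smul' c x := by
    refine Prod.ext ?_ ?_
    · exact map_smul (mt v) c x.1
    · change op (mt v' (c • unop x.2)) = _
      rw [map_smul]
      rfl

private theorem PH_apply (v v' : Fin d → E) (x : DM (Fin d)) :
    PH v v' x = (ph v x.1, op (ph v' (unop x.2))) := rfl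

omit [FiniteDimensional ℝ E] in
private theorem MT_apply (v v' : Fin d → E) (x : DE E) :
    MT v v' x = (mt v x.1, op (mt v' (unop x.2))) := rfl

private theorem MT_PH {v v' : Fin d → E} (hv : ON e v) (hv' : ON e' v') (x : DM (Fin d)) :
    MT v v' (PH v v' x) = x := by
  rw [PH_apply, MT_apply, mt_ph hv, unop_op, mt_ph hv']
  rfl

private theorem PH_inj {v v' : Fin d → E} (hv : ON e v) (hv' : ON e' v') :
    Function.Injective (PH v v') := by
  intro x y h
  rw [← MT_PH hv hv' x, h, MT_PH hv hv']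

private theorem PH_mul {v v' : Fin d → E} (hv : ON e v) (hv' : ON e' v') (x y : DM (Fin d)) :
    PH v v' (x * y) = PH v v' x * PH v v' y := by
  refine Prod.ext (ph_mul hv _ _) ?_
  change op (ph v' (unop y.2 * unop x.2)) = op (ph v' (unop x.2)) * op (ph v' (unop y.2))
  rw [ph_mul hv', op_mul]

private theorem PH_one {v v' : Fin d → E} (hv : ON e v) (hv' : ON e' v') :
    PH v v' 1 = ((e, op e') : DE E) := by
  rw [PH_apply]
  change (ph v 1, op (ph v' 1)) = _
  rw [ph_one hv, ph_one hv']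

private theorem PH_MT {v v' : Fin d → E} (hv : ON e v) (hv' : ON e' v') (x : DE E) :
    PH v v' (MT v v' x) = ((e, op e') : DE E) * x * ((e, op e') : DE E) := by
  rw [MT_apply, PH_apply, ph_mt hv]
  change (e * x.1 * e, op (ph v' (mt v' (unop x.2)))) = _
  rw [ph_mt hv']
  refine Prod.ext rfl ?_
  change op (e' * unop x.2 * e') = op e' * x.2 * op e'
  rw [op_mul, op_mul, op_unop, mul_assoc]

/-- the order of the corner -/
private noncomputable def D0 (O : Subring (DE E)) {v v' : Fin d → E} (hv : ON e v)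
    (hv' : ON e' v') : Subring (DM (Fin d)) where
  carrier := {x | ∃ k : ℤ, PH v v' x - k • ((e, op e') : DE E) ∈ O}
  one_mem' := by
    refine ⟨1, ?_⟩
    rw [PH_one hv hv', one_smul, sub_self]
    exact O.zero_mem
  zero_mem' := by
    refine ⟨0, ?_⟩
    rw [map_zero, zero_smul, sub_self]
    exact O.zero_mem
  add_mem' := by
    rintro x y ⟨k, hk⟩ ⟨l, hl⟩
    refine ⟨k + l, ?_⟩
    have h := O.add_mem hk hl
    rw [map_add, add_smul]
    convert h using 1
    abel
  neg_mem' := by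
    rintro x ⟨k, hk⟩
    refine ⟨-k, ?_⟩
    have h := O.neg_mem hk
    rw [map_neg, neg_smul]
    convert h using 1
    abel
  mul_mem' := by
    rintro x y ⟨k, hk⟩ ⟨l, hl⟩
    refine ⟨k * l, ?_⟩
    have h := O.add_mem (O.add_mem (O.zsmul_mem hl k) (O.zsmul_mem hk l)) (O.mul_mem hk hl)
    convert h using 1
    have e1 : ((e, op e') : DE E) * PH v v' y = PH v v' y := by
      rw [← PH_one hv hv', ← PH_mul hv hv', one_mul]
    have e2 : PH v v' x * ((e, op e') : DE E) = PH v v' x := by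
      rw [← PH_one hv hv', ← PH_mul hv hv', mul_one]
    have e3 : ((e, op e') : DE E) * ((e, op e') : DE E) = ((e, op e') : DE E) := by
      rw [← PH_one hv hv', ← PH_mul hv hv', one_mul]
    rw [PH_mul hv hv', sub_mul, mul_sub, mul_sub, smul_mul_assoc, mul_smul_comm, smul_mul_assoc,
      mul_smul_comm, e1, e2, e3, smul_sub, smul_sub, smul_smul, smul_smul, mul_comm l k]
    abel

private theorem mem_D0 {v v' : Fin d → E} (hv : ON e v) (hv' : ON e' v') (x : DM (Fin d)) :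
    x ∈ D0 O hv hv' ↔ ∃ k : ℤ, PH v v' x - k • ((e, op e') : DE E) ∈ O := Iff.rfl

omit [FiniteDimensional ℝ E] in
/-- a factor for the idempotent -/
private theorem fac (h : OD O e e') : ∃ N : ℕ, N ≠ 0 ∧ (N : ℤ) • ((e, op e') : DE E) ∈ O := by
  obtain ⟨M, hM, h1⟩ := h.rat
  refine ⟨M.natAbs, Int.natAbs_ne_zero.2 hM, ?_⟩
  rcases Int.natAbs_eq M with h2 | h2
  · rw [← h2]
    exact h1
  · have h3 : ((M.natAbs : ℕ) : ℤ) = -M := by omega
    rw [h3, neg_smul]
    exact O.neg_mem h1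

private theorem PH_D0 {v v' : Fin d → E} (hv : ON e v) (hv' : ON e' v') {N : ℕ}
    (hN : (N : ℤ) • ((e, op e') : DE E) ∈ O) {x : DM (Fin d)} (hx : x ∈ D0 O hv hv') :
    (N : ℤ) • PH v v' x ∈ O := by
  obtain ⟨k, hk⟩ := hx
  have h := O.add_mem (O.zsmul_mem hk N) (O.zsmul_mem hN k)
  convert h using 1
  rw [smul_sub, smul_smul, smul_smul, mul_comm k]
  abel

/-- the lattice property -/
private theorem ord0 (h : OD O e e') {v v' : Fin d → E} (hv : ON e v) (hv' : ON e' v') :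
    ∃ b : Module.Basis ((Fin d × Fin d) ⊕ (Fin d × Fin d)) ℝ (DM (Fin d)),
      ∀ x, x ∈ D0 O hv hv' ↔ x ∈ Submodule.span ℤ (Set.range b) := by
  classical
  obtain ⟨N, hN, hNO⟩ := fac h
  obtain ⟨n, b, hb⟩ := h.ox.ord
  -- coordinates of pairs of matrices
  set ι := (Fin d × Fin d) ⊕ (Fin d × Fin d) with hι
  set b1 : Module.Basis ι ℝ (DM (Fin d)) :=
    (Matrix.stdBasis ℝ (Fin d) (Fin d)).prod
      ((Matrix.stdBasis ℝ (Fin d) (Fin d)).map (opLinearEquiv ℝ)) with hb1
  set u : DM (Fin d) ≃ₗ[ℝ] (ι → ℝ) := b1.equivFun with hu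
  set L : Submodule ℤ (ι → ℝ) :=
    { carrier := {w | u.symm w ∈ D0 O hv hv'}
      add_mem' := fun {x y} hx hy => by
        change u.symm (x + y) ∈ D0 O hv hv'
        rw [map_add]
        exact add_mem hx hy
      zero_mem' := by
        change u.symm 0 ∈ D0 O hv hv'
        rw [map_zero]
        exact zero_mem _
      smul_mem' := fun c x hx => by
        change u.symm (c • x) ∈ D0 O hv hv'
        rw [map_zsmul]
        exact zsmul_mem hx c } with hL
  have hLm : ∀ w, w ∈ L ↔ u.symm w ∈ D0 O hv hv' := fun w => Iff.rfl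
  set T : (ι → ℝ) →ₗ[ℝ] (Fin n → ℝ) :=
    b.equivFun.toLinearMap ∘ₗ ((N : ℝ) • PH v v') ∘ₗ u.symm.toLinearMap with hT
  have hTi : Function.Injective T := by
    intro x y hxy
    apply u.symm.injective
    apply PH_inj hv hv'
    have h1 : ((N : ℝ) • PH v v' (u.symm x)) = (N : ℝ) • PH v v' (u.symm y) :=
      b.equivFun.injective hxy
    exact smul_right_injective _ (Nat.cast_ne_zero.2 hN) h1
  have hle : L ≤ ZLattice.comap ℝ (Submodule.span ℤ (Set.range (Pi.basisFun ℝ (Fin n)))) T := by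
    intro w hw
    change T w ∈ Submodule.span ℤ (Set.range (Pi.basisFun ℝ (Fin n)))
    rw [Module.Basis.mem_span_iff_repr_mem]
    intro i
    have h1 := PH_D0 hv hv' hNO ((hLm w).1 hw)
    rw [hb, b.mem_span_iff_repr_mem ℤ] at h1
    have h2 := h1 i
    rw [← Int.cast_smul_eq_zsmul ℝ, Int.cast_natCast] at h2
    exact h2
  have hdis : DiscreteTopology L := by
    have h1 : DiscreteTopology
        (ZLattice.comap ℝ (Submodule.span ℤ (Set.range (Pi.basisFun ℝ (Fin n)))) T) :=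
      ZLattice.comap_discreteTopology _ _ (LinearMap.continuous_of_finiteDimensional T) hTi
    exact DiscreteTopology.of_subset h1 hle
  have htop : Submodule.span ℝ (L : Set (ι → ℝ)) = ⊤ := by
    by_contra hc
    obtain ⟨f, hf, hf'⟩ := Submodule.exists_le_ker_of_lt_top _ (lt_top_iff_ne_top.2 hc)
    apply hf
    have h1 := rr_span h.ox (f ∘ₗ u.toLinearMap ∘ₗ MT v v') (by
      rintro a a' ⟨M, hM, hMO⟩
      have h2 : (((N : ℤ) * N * M : ℤ) • MT v v' (a, op a')) ∈ D0 O hv hv' := by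
        refine ⟨0, ?_⟩
        rw [map_zsmul, PH_MT hv hv', zero_smul, sub_zero]
        have h3 := O.mul_mem (O.mul_mem hNO hMO) hNO
        rw [smul_mul_smul_comm, smul_mul_smul_comm] at h3
        convert h3 using 2
        ring
      have h3 : u (((N : ℤ) * N * M : ℤ) • MT v v' (a, op a')) ∈ L := by
        rw [hLm, LinearEquiv.symm_apply_apply]
        exact h2
      have h4 := hf' (Submodule.subset_span h3)
      rw [LinearMap.mem_ker, map_zsmul, map_zsmul] at h4
      have h5 := (smul_eq_zero.1 h4).resolve_left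
        (mul_ne_zero (mul_ne_zero (by exact_mod_cast hN) (by exact_mod_cast hN)) hM)
      exact h5)
    apply LinearMap.ext
    intro w
    have h2 := LinearMap.congr_fun h1 (PH v v' (u.symm w))
    change f (u (MT v v' (PH v v' (u.symm w)))) = 0 at h2
    rw [MT_PH hv hv', LinearEquiv.apply_symm_apply] at h2
    exact h2
  have hZ : IsZLattice ℝ L := ⟨htop⟩
  have hfree : Module.Free ℤ L := ZLattice.module_free ℝ L
  have hfin : Module.Finite ℤ L := ZLattice.module_finite ℝ L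
  set c := Module.Free.chooseBasis ℤ L with hc
  set b2 := c.ofZLatticeBasis ℝ L with hb2
  set eq := b2.indexEquiv (Pi.basisFun ℝ ι) with heq
  refine ⟨(b2.reindex eq).map u.symm, fun x => ?_⟩
  have h1 : Set.range ((b2.reindex eq).map u.symm) = u.symm '' (Set.range b2) := by
    ext y
    constructor
    · rintro ⟨i, rfl⟩
      exact ⟨b2 (eq.symm i), ⟨_, rfl⟩, by simp⟩
    · rintro ⟨_, ⟨i, rfl⟩, rfl⟩
      exact ⟨eq i, by simp⟩
  have h2 : Submodule.span ℤ (u.symm '' (Set.range b2)) =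
      (Submodule.span ℤ (Set.range b2)).map (u.symm.toLinearMap.restrictScalars ℤ) := by
    rw [Submodule.map_span]
    rfl
  rw [h1, h2, hb2, Module.Basis.ofZLatticeBasis_span]
  constructor
  · intro hx
    refine ⟨u x, ?_, ?_⟩
    · change u.symm (u x) ∈ D0 O hv hv'
      rw [LinearEquiv.symm_apply_apply]
      exact hx
    · exact u.symm_apply_apply x
  · rintro ⟨w, hw, rfl⟩
    exact hw

private theorem divOO (h : OD O e e') {v v' : Fin d → E} (hv : ON e v) (hv' : ON e' v') :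
    DivOO (Fin d) (D0 O hv hv') := by
  obtain ⟨N, hN, hNO⟩ := fac h
  refine ⟨ord0 h hv hv', ?_, ?_⟩
  · obtain ⟨D, hD, hs⟩ := h.ox.sqrt
    refine ⟨D, N, hD, by exact_mod_cast hN, 0, ?_⟩
    have h1 := O.mul_mem hs hNO
    rw [zero_smul, sub_zero, map_zsmul, PH_apply]
    convert h1 using 1
    rw [mul_smul_comm]
    congr 1
    refine Prod.ext ?_ ?_
    · change ph v (Real.sqrt D • (1 : Matrix (Fin d) (Fin d) ℝ)) =
        (Real.sqrt D • (1 : E →L[ℝ] E)) * e
      rw [map_smul, ph_one hv, smul_mul_assoc, one_mul]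
    · change op (ph v' (-(Real.sqrt D • (1 : Matrix (Fin d) (Fin d) ℝ)))) =
        op (-(Real.sqrt D • (1 : E →L[ℝ] E))) * op e'
      rw [map_neg, map_smul, ph_one hv', ← op_mul, mul_neg, mul_smul_comm, mul_one]
  · intro x hx hx0
    have h1 : RR O (ph v x.1) (ph v' (unop x.2)) :=
      ⟨N, by exact_mod_cast hN, PH_D0 hv hv' hNO hx⟩
    have h2 : ph v x.1 ≠ 0 := by
      intro h3
      rw [h3] at h1
      have h4 := rr_uniq h.ox h1
      apply hx0
      apply PH_inj hv hv'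
      rw [map_zero, PH_apply, h3, h4]
      rfl
    obtain ⟨c, c', hc, hc1, hc2, hc3, hc4⟩ := h.div _ _ h1
      (by rw [ph_el hv, ph_er hv]) (by rw [ph_el hv', ph_er hv']) h2
    have h5 := rr_mul h1 hc
    rw [hc3] at h5
    have h6 := rr_uniq2 h.ox h5 h.rat
    have h7 : x.1 * mt v c = 1 := by
      rw [← mt_mul_left hv, hc3, mt_e hv]
    have h8 : mt v' c' * unop x.2 = 1 := by
      rw [← mt_mul_right hv', h6, mt_e hv']
    constructor
    · intro h9
      have h10 := congrArg Matrix.det h7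
      rw [Matrix.det_mul, h9, zero_mul, Matrix.det_one] at h10
      exact zero_ne_one h10
    · intro h9
      have h10 := congrArg Matrix.det h8
      rw [Matrix.det_mul, h9, mul_zero, Matrix.det_one] at h10
      exact zero_ne_one h10

/-- the pair of a pair of matrices -/
private noncomputable abbrev PS (g : Matrix.SpecialLinearGroup (Fin d) ℝ ×
    Matrix.SpecialLinearGroup (Fin d) ℝ) : DM (Fin d) :=
  ((g.1.1, op g.2⁻¹.1) : DM (Fin d))

private theorem ps_mul (g h : Matrix.SpecialLinearGroup (Fin d) ℝ ×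
    Matrix.SpecialLinearGroup (Fin d) ℝ) : PS (g * h) = PS g * PS h := by
  refine Prod.ext ?_ ?_
  · change (g.1 * h.1).1 = g.1.1 * h.1.1
    rw [Matrix.SpecialLinearGroup.coe_mul]
  · change op (g.2 * h.2)⁻¹.1 = op g.2⁻¹.1 * op h.2⁻¹.1
    rw [mul_inv_rev, Matrix.SpecialLinearGroup.coe_mul, op_mul]

private theorem ps_one : PS (1 : Matrix.SpecialLinearGroup (Fin d) ℝ ×
    Matrix.SpecialLinearGroup (Fin d) ℝ) = 1 := by
  refine Prod.ext ?_ ?_
  · change (1 : Matrix.SpecialLinearGroup (Fin d) ℝ).1 = 1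
    rw [Matrix.SpecialLinearGroup.coe_one]
  · change op ((1 : Matrix.SpecialLinearGroup (Fin d) ℝ)⁻¹).1 = 1
    rw [inv_one, Matrix.SpecialLinearGroup.coe_one]
    rfl

private theorem mem_U0 {D : Subring (DM (Fin d))} {g : Matrix.SpecialLinearGroup (Fin d) ℝ ×
    Matrix.SpecialLinearGroup (Fin d) ℝ} : g ∈ U0 D ↔ PS g ∈ D ∧ PS g⁻¹ ∈ D := by
  have h : PS g⁻¹ = ((g.1⁻¹.1, op g.2.1) : DM (Fin d)) := by
    change ((g.1⁻¹.1, op (g.2⁻¹)⁻¹.1) : DM (Fin d)) = _
    rw [inv_inv]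
  rw [h]
  exact Iff.rfl

/-- principal congruence subgroups have finite index -/
private theorem cong0 {D : Subring (DM (Fin d))} {ι : Type*} [Finite ι]
    (b : Module.Basis ι ℝ (DM (Fin d)))
    (hb : ∀ x, x ∈ D ↔ x ∈ Submodule.span ℤ (Set.range b)) (M : ℕ) (hM : M ≠ 0)
    (K : Subgroup (Matrix.SpecialLinearGroup (Fin d) ℝ × Matrix.SpecialLinearGroup (Fin d) ℝ))
    (hK : ∀ g ∈ U0 D, (∃ y ∈ D, PS g - 1 = (M : ℤ) • y) → (∃ y ∈ D, PS g⁻¹ - 1 = (M : ℤ) • y) →
      g ∈ K) : K.relIndex (U0 D) ≠ 0 := by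
  classical
  have : NeZero M := ⟨hM⟩
  have hM' : (M : ℝ) ≠ 0 := Nat.cast_ne_zero.2 hM
  let f : (U0 D ⧸ K.subgroupOf (U0 D)) → (ι → ZMod M) := fun c p =>
    ((⌊b.repr (PS (c.out : Matrix.SpecialLinearGroup (Fin d) ℝ ×
      Matrix.SpecialLinearGroup (Fin d) ℝ)) p⌋ : ℤ) : ZMod M)
  have hf : Function.Injective f := by
    intro c c' hcc
    have hint : ∀ x ∈ D, ∀ p, b.repr x p = ((⌊b.repr x p⌋ : ℤ) : ℝ) := by
      intro x hx p
      obtain ⟨n, hn⟩ := (b.mem_span_iff_repr_mem ℤ x).1 ((hb x).1 hx) p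
      rw [← hn]
      simp
    have hg := mem_U0.1 (c.out).2
    have hg' := mem_U0.1 (c'.out).2
    set g : Matrix.SpecialLinearGroup (Fin d) ℝ × Matrix.SpecialLinearGroup (Fin d) ℝ :=
      (c.out : Matrix.SpecialLinearGroup (Fin d) ℝ × Matrix.SpecialLinearGroup (Fin d) ℝ)
      with hgdef
    set g' : Matrix.SpecialLinearGroup (Fin d) ℝ × Matrix.SpecialLinearGroup (Fin d) ℝ :=
      (c'.out : Matrix.SpecialLinearGroup (Fin d) ℝ × Matrix.SpecialLinearGroup (Fin d) ℝ)
      with hgdef'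
    obtain ⟨z, hz, hz'⟩ : ∃ z ∈ D, PS g' - PS g = (M : ℤ) • z := by
      refine ⟨(M : ℝ)⁻¹ • (PS g' - PS g), ?_, ?_⟩
      · rw [hb, b.mem_span_iff_repr_mem ℤ]
        intro p
        have e := congrFun hcc p
        have e1 : ((⌊b.repr (PS g') p⌋ - ⌊b.repr (PS g) p⌋ : ℤ) : ZMod M) = 0 := by
          rw [Int.cast_sub, sub_eq_zero]
          exact e.symm
        rw [ZMod.intCast_zmod_eq_zero_iff_dvd] at e1
        obtain ⟨k, hk⟩ := e1
        refine ⟨k, ?_⟩
        rw [map_smul, map_sub, Finsupp.smul_apply, Finsupp.sub_apply, hint _ hg'.1 p,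
          hint _ hg.1 p, ← Int.cast_sub, hk]
        simp only [algebraMap_int_eq, eq_intCast, Int.cast_mul, Int.cast_natCast, smul_eq_mul]
        field_simp
      · rw [← Int.cast_smul_eq_zsmul ℝ, smul_smul, Int.cast_natCast, mul_inv_cancel₀ hM', one_smul]
    have hmem : g⁻¹ * g' ∈ K := by
      refine hK _ ((U0 D).mul_mem ((U0 D).inv_mem (c.out).2) (c'.out).2)
        ⟨PS g⁻¹ * z, D.mul_mem hg.2 hz, ?_⟩ ⟨-(PS g'⁻¹ * z), D.neg_mem (D.mul_mem hg'.2 hz), ?_⟩
      · rw [ps_mul, ← mul_smul_comm, ← hz', mul_sub, ← ps_mul, ← ps_mul, inv_mul_cancel, ps_one]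
      · have e2 : (g⁻¹ * g')⁻¹ = g'⁻¹ * g := by group
        change PS (g⁻¹ * g')⁻¹ - 1 = _
        rw [e2, ps_mul, smul_neg, ← mul_smul_comm, ← hz', mul_sub, ← ps_mul, ← ps_mul,
          inv_mul_cancel, ps_one, neg_sub]
    have e2 : (QuotientGroup.mk c.out : U0 D ⧸ K.subgroupOf (U0 D)) =
        QuotientGroup.mk c'.out := by
      rw [QuotientGroup.eq, Subgroup.mem_subgroupOf]
      exact hmem
    rw [QuotientGroup.out_eq', QuotientGroup.out_eq'] at e2
    exact e2
  have : Finite (U0 D ⧸ K.subgroupOf (U0 D)) := Finite.of_injective f hf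
  exact Subgroup.index_ne_zero_of_finite

/-- the operator of a pair of matrices -/
private noncomputable def BB (e e' : E →L[ℝ] E) (v v' : Fin d → E)
    (y z : Matrix (Fin d) (Fin d) ℝ) : E →L[ℝ] E := ph v y + ph v' z + mid e e'

private theorem ph_ph {v v' : Fin d → E} (h0 : e * e' = 0) (hv : ON e v) (hv' : ON e' v')
    (y z : Matrix (Fin d) (Fin d) ℝ) : ph v y * ph v' z = 0 := by
  rw [← ph_er hv, ← ph_el hv', mul_assoc, ← mul_assoc e, h0, zero_mul, mul_zero]

private theorem BB_mul (h : PP e e') {v v' : Fin d → E} (hv : ON e v) (hv' : ON e' v')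
    (y z y' z' : Matrix (Fin d) (Fin d) ℝ) :
    BB e e' v v' y z * BB e e' v v' y' z' = BB e e' v v' (y * y') (z * z') := by
  have h1 : e * e = e := by
    ext x
    exact h.pr.idem x
  have h2 : e' * e' = e' := by
    ext x
    exact h.pr'.idem x
  have h3 : e * e' = 0 := by
    ext x
    exact h.o x
  have h4 : e' * e = 0 := by
    ext x
    exact h.o' x
  have hm : mid e e' = 1 - e - e' := rfl
  have a1 : e * mid e e' = 0 := by
    rw [hm, mul_sub, mul_sub, mul_one, h1, h3, sub_self, sub_zero]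
  have a2 : mid e e' * e = 0 := by
    rw [hm, sub_mul, sub_mul, one_mul, h1, h4, sub_self, sub_zero]
  have a3 : e' * mid e e' = 0 := by
    rw [hm, mul_sub, mul_sub, mul_one, h2, h4, sub_zero, sub_self]
  have a4 : mid e e' * e' = 0 := by
    rw [hm, sub_mul, sub_mul, one_mul, h2, h3, sub_zero, sub_self]
  have m1 : ∀ y, ph v y * mid e e' = 0 := by
    intro y
    rw [← ph_er hv, mul_assoc, a1, mul_zero]
  have m2 : ∀ y, mid e e' * ph v y = 0 := by
    intro y
    rw [← ph_el hv, ← mul_assoc, a2, zero_mul]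
  have m3 : ∀ y, ph v' y * mid e e' = 0 := by
    intro y
    rw [← ph_er hv', mul_assoc, a3, mul_zero]
  have m4 : ∀ y, mid e e' * ph v' y = 0 := by
    intro y
    rw [← ph_el hv', ← mul_assoc, a4, zero_mul]
  have m5 : mid e e' * mid e e' = mid e e' := by
    conv_lhs => rw [hm, sub_mul, sub_mul, one_mul, ← hm, a1, a3, sub_zero, sub_zero]
  unfold BB
  rw [mul_add, mul_add, add_mul, add_mul, add_mul, add_mul, add_mul, add_mul, m1, m2, m3, m4, m5,
    ph_ph h3 hv hv', ph_ph h4 hv' hv, ← ph_mul hv, ← ph_mul hv']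
  abel

private theorem BB_one {v v' : Fin d → E} (hv : ON e v) (hv' : ON e' v') :
    BB e e' v v' 1 1 = 1 := by
  unfold BB
  rw [ph_one hv, ph_one hv']
  change e + e' + (1 - e - e') = 1
  abel

private theorem det1 {v : Fin d → E} (hv : ON e v) (y : Matrix (Fin d) (Fin d) ℝ) :
    LinearMap.det ((ph v y + (1 - e) : E →L[ℝ] E) : E →ₗ[ℝ] E) = y.det := by
  set b := Module.finBasis ℝ E with hb
  set P := LinearMap.toMatrix b (Pi.basisFun ℝ (Fin d)) (co v) with hP
  set J := LinearMap.toMatrix (Pi.basisFun ℝ (Fin d)) b (vs v ∘ₗ Matrix.toLin' (y - 1)) with hJ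
  have h1 : ((ph v y + (1 - e) : E →L[ℝ] E) : E →ₗ[ℝ] E) =
      1 + (vs v ∘ₗ Matrix.toLin' (y - 1)) ∘ₗ co v := by
    apply LinearMap.ext
    intro x
    change vs v (y.mulVec (co v x)) + (x - e x) = x + vs v ((y - 1).mulVec (co v x))
    rw [Matrix.sub_mulVec, Matrix.one_mulVec, map_sub, hv.r]
    abel
  rw [← LinearMap.det_toMatrix b, h1, map_add, LinearMap.toMatrix_one,
    LinearMap.toMatrix_comp b (Pi.basisFun ℝ (Fin d)) b, ← hP, ← hJ,
    Matrix.det_one_add_mul_comm]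
  have h2 : P * J = y - 1 := by
    rw [hP, hJ, ← LinearMap.toMatrix_comp]
    apply Matrix.mulVec_injective
    funext w
    have h3 : co v ∘ₗ vs v ∘ₗ Matrix.toLin' (y - 1) = Matrix.toLin' (y - 1) := by
      apply LinearMap.ext
      intro w
      exact hv.o _
    rw [h3, LinearMap.toMatrix_eq_toMatrix', LinearMap.toMatrix'_toLin']
  rw [h2, add_sub_cancel]

private theorem BB_det (h : PP e e') {v v' : Fin d → E} (hv : ON e v) (hv' : ON e' v')
    (y z : Matrix (Fin d) (Fin d) ℝ) :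
    LinearMap.det ((BB e e' v v' y z : E →L[ℝ] E) : E →ₗ[ℝ] E) = y.det * z.det := by
  have h1 : BB e e' v v' y z = (ph v y + (1 - e)) * (ph v' z + (1 - e')) := by
    have e1 : BB e e' v v' y z = BB e e' v v' y 1 * BB e e' v v' 1 z := by
      rw [BB_mul h hv hv', mul_one, one_mul]
    have e2 : BB e e' v v' y 1 = ph v y + (1 - e) := by
      unfold BB
      rw [ph_one hv']
      change ph v y + e' + (1 - e - e') = _
      abel
    have e3 : BB e e' v v' 1 z = ph v' z + (1 - e') := by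
      unfold BB
      rw [ph_one hv]
      change e + ph v' z + (1 - e - e') = _
      abel
    rw [e1, e2, e3]
  have h2 : ((BB e e' v v' y z : E →L[ℝ] E) : E →ₗ[ℝ] E) =
      ((ph v y + (1 - e) : E →L[ℝ] E) : E →ₗ[ℝ] E) *
        ((ph v' z + (1 - e') : E →L[ℝ] E) : E →ₗ[ℝ] E) := by
    rw [h1]
    rfl
  rw [h2, map_mul, det1 hv, det1 hv']

/-- the homomorphism -/
private theorem psi (h : PP e e') {v v' : Fin d → E} (hv : ON e v) (hv' : ON e' v') :
    ∃ Ψ : (Matrix.SpecialLinearGroup (Fin d) ℝ × Matrix.SpecialLinearGroup (Fin d) ℝ) →* GE E,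
      ∀ g, ((Ψ g : GE E) : E →L[ℝ] E) = BB e e' v v' g.1.1 g.2.1 := by
  have h1 : ∀ (g g' : Matrix.SpecialLinearGroup (Fin d) ℝ × Matrix.SpecialLinearGroup (Fin d) ℝ)
      (_ : g * g' = 1) (x : E),
      BB e e' v v' g.1.1 g.2.1 (BB e e' v v' g'.1.1 g'.2.1 x) = x := by
    intro g g' hg x
    have h2 : BB e e' v v' g.1.1 g.2.1 * BB e e' v v' g'.1.1 g'.2.1 = 1 := by
      rw [BB_mul h hv hv', ← Matrix.SpecialLinearGroup.coe_mul, ← Matrix.SpecialLinearGroup.coe_mul,
        ← Prod.fst_mul, ← Prod.snd_mul, hg]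
      exact BB_one hv hv'
    exact congrArg (fun f => f x) h2
  refine ⟨⟨⟨fun g => ContinuousLinearEquiv.equivOfInverse (BB e e' v v' g.1.1 g.2.1)
    (BB e e' v v' g⁻¹.1.1 g⁻¹.2.1) (h1 _ _ (inv_mul_cancel g)) (h1 _ _ (mul_inv_cancel g)), ?_⟩,
    ?_⟩, fun g => ?_⟩
  · apply ContinuousLinearEquiv.ext
    funext x
    exact congrArg (fun f => f x) (BB_one (e := e) (e' := e') hv hv')
  · intro g g'
    apply ContinuousLinearEquiv.ext
    funext x
    exact congrArg (fun f => f x) (BB_mul h hv hv' g.1.1 g.2.1 g'.1.1 g'.2.1).symm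
  · rfl

/-- the exchange of the components -/
private def sw (x : DE E) : DE E := (unop x.2, op x.1)

omit [FiniteDimensional ℝ E] in
private theorem sw_add (x y : DE E) : sw (x + y) = sw x + sw y := rfl

private theorem psi_mem (h : OD O e e') {v v' : Fin d → E} (hv : ON e v) (hv' : ON e' v')
    {Ψ : (Matrix.SpecialLinearGroup (Fin d) ℝ × Matrix.SpecialLinearGroup (Fin d) ℝ) →* GE E}
    (hΨ : ∀ g, ((Ψ g : GE E) : E →L[ℝ] E) = BB e e' v v' g.1.1 g.2.1) :
    ((G0O O).comap Ψ).relIndex (U0 (D0 O hv hv')) ≠ 0 := by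
  obtain ⟨N, hN, hNO⟩ := fac h
  obtain ⟨N', hN', hsw⟩ := h.ox.swap
  obtain ⟨b, hb⟩ := ord0 h hv hv'
  -- the exchange for a natural number
  have hsw' : ∀ x ∈ O, (N'.natAbs : ℤ) • sw x ∈ O := by
    intro x hx
    rcases Int.natAbs_eq N' with h2 | h2
    · rw [← h2]
      exact hsw x hx
    · have h3 : ((N'.natAbs : ℕ) : ℤ) = -N' := by omega
      rw [h3, neg_smul]
      exact O.neg_mem (hsw x hx)
  have key : ∀ g : Matrix.SpecialLinearGroup (Fin d) ℝ × Matrix.SpecialLinearGroup (Fin d) ℝ,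
      (∃ y ∈ D0 O hv hv', PS g - 1 = ((N * N'.natAbs : ℕ) : ℤ) • y) →
      (∃ y ∈ D0 O hv hv', PS g⁻¹ - 1 = ((N * N'.natAbs : ℕ) : ℤ) • y) →
      ((((Ψ g : GE E) : E →L[ℝ] E), op ((Ψ g⁻¹ : GE E) : E →L[ℝ] E)) : DE E) ∈ O := by
    rintro g ⟨y, hy, hy'⟩ ⟨z, hz, hz'⟩
    have h1 : ((((Ψ g : GE E) : E →L[ℝ] E), op ((Ψ g⁻¹ : GE E) : E →L[ℝ] E)) : DE E) =
        1 + PH v v' (PS g - 1) + sw (PH v v' (PS g⁻¹ - 1)) := by
      rw [hΨ, hΨ, map_sub, map_sub, PH_one hv hv']
      refine Prod.ext ?_ ?_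
      · change ph v g.1.1 + ph v' g.2.1 + (1 - e - e') =
          1 + (ph v g.1.1 - e) + (ph v' ((g.2⁻¹)⁻¹).1 - e')
        rw [inv_inv]
        abel
      · change op (ph v (g.1⁻¹).1 + ph v' (g.2⁻¹).1 + (1 - e - e')) =
          op (1 + (ph v' (g.2⁻¹).1 - e') + (ph v (g.1⁻¹).1 - e))
        congr 1
        abel
    have h2 : PH v v' (PS g - 1) ∈ O := by
      rw [hy', map_zsmul, Nat.cast_mul, mul_comm, mul_smul]
      exact O.zsmul_mem (PH_D0 hv hv' hNO hy) _
    have h3 : sw (PH v v' (PS g⁻¹ - 1)) ∈ O := by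
      have h4 : sw (PH v v' (PS g⁻¹ - 1)) = (N'.natAbs : ℤ) • sw ((N : ℤ) • PH v v' z) := by
        rw [hz', map_zsmul, Nat.cast_mul, mul_comm, mul_smul]
        rfl
      rw [h4]
      exact hsw' _ (PH_D0 hv hv' hNO hz)
    rw [h1]
    exact O.add_mem (O.add_mem O.one_mem h2) h3
  refine cong0 b hb (N * N'.natAbs) (mul_ne_zero hN (Int.natAbs_ne_zero.2 hN')) _ ?_
  intro g _ h1 h2
  have k1 := key g h1 h2
  have k2 := key g⁻¹ h2 (by rw [inv_inv]; exact h1)
  rw [inv_inv] at k2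
  rw [map_inv] at k1 k2
  refine ⟨k1, k2, ?_⟩
  have k3 := BB_det h.pp hv hv' g.1.1 g.2.1
  rw [g.1.2, g.2.2, mul_one] at k3
  change LinearMap.det (((Ψ g : GE E) : E →L[ℝ] E) : E →ₗ[ℝ] E) = 1
  rw [hΨ]
  exact k3

private theorem bound {v v' : Fin d → E}
    {Ψ : (Matrix.SpecialLinearGroup (Fin d) ℝ × Matrix.SpecialLinearGroup (Fin d) ℝ) →* GE E}
    (hΨ : ∀ g, ((Ψ g : GE E) : E →L[ℝ] E) = BB e e' v v' g.1.1 g.2.1) (R : ℝ) :
    ∃ C : ℝ, ∀ g, (∀ i j, |g.1.1 i j| ≤ R ∧ |g.2.1 i j| ≤ R) →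
      ‖((Ψ g : GE E) : E →L[ℝ] E)‖ ≤ C ∧ ‖(((Ψ g)⁻¹ : GE E) : E →L[ℝ] E)‖ ≤ C := by
  have hK : IsCompact (Set.univ.pi fun _ : Fin d => Set.univ.pi fun _ : Fin d => Set.Icc (-R) R) :=
    isCompact_univ_pi fun _ => isCompact_univ_pi fun _ => isCompact_Icc
  have c1 : Continuous (fun A : Matrix (Fin d) (Fin d) ℝ => ph v A) :=
    LinearMap.continuous_of_finiteDimensional _
  have c2 : Continuous (fun A : Matrix (Fin d) (Fin d) ℝ => ph v' A) :=
    LinearMap.continuous_of_finiteDimensional _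
  have c3 : Continuous (fun A : Matrix (Fin d) (Fin d) ℝ => ph v A.adjugate) :=
    c1.comp continuous_id.matrix_adjugate
  have c4 : Continuous (fun A : Matrix (Fin d) (Fin d) ℝ => ph v' A.adjugate) :=
    c2.comp continuous_id.matrix_adjugate
  obtain ⟨C1, hC1⟩ := hK.exists_bound_of_continuousOn c1.continuousOn
  obtain ⟨C2, hC2⟩ := hK.exists_bound_of_continuousOn c2.continuousOn
  obtain ⟨C3, hC3⟩ := hK.exists_bound_of_continuousOn c3.continuousOn
  obtain ⟨C4, hC4⟩ := hK.exists_bound_of_continuousOn c4.continuousOn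
  refine ⟨max (C1 + C2 + ‖mid e e'‖) (C3 + C4 + ‖mid e e'‖), fun g hg => ?_⟩
  have m1 : g.1.1 ∈ (Set.univ.pi fun _ : Fin d => Set.univ.pi fun _ : Fin d => Set.Icc (-R) R) := by
    intro a _ b _
    exact abs_le.1 (hg a b).1
  have m2 : g.2.1 ∈ (Set.univ.pi fun _ : Fin d => Set.univ.pi fun _ : Fin d => Set.Icc (-R) R) := by
    intro a _ b _
    exact abs_le.1 (hg a b).2
  constructor
  · rw [hΨ]
    refine le_trans ?_ (le_max_left _ _)
    exact (norm_add_le _ _).trans (add_le_add ((norm_add_le _ _).trans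
      (add_le_add (hC1 _ m1) (hC2 _ m2))) le_rfl)
  · rw [← map_inv, hΨ]
    refine le_trans ?_ (le_max_right _ _)
    exact (norm_add_le _ _).trans (add_le_add ((norm_add_le _ _).trans
      (add_le_add (hC3 _ m1) (hC4 _ m2))) le_rfl)

private theorem psi_blk (h : PP e e') {v v' : Fin d → E} (hv : ON e v) (hv' : ON e' v')
    {Ψ : (Matrix.SpecialLinearGroup (Fin d) ℝ × Matrix.SpecialLinearGroup (Fin d) ℝ) →* GE E}
    (hΨ : ∀ g, ((Ψ g : GE E) : E →L[ℝ] E) = BB e e' v v' g.1.1 g.2.1)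
    (g : Matrix.SpecialLinearGroup (Fin d) ℝ × Matrix.SpecialLinearGroup (Fin d) ℝ) :
    Ψ g ∈ blk2 e e' := by
  have h0 : ∀ x, Ψ g x = ph v g.1.1 x + ph v' g.2.1 x + (x - e x - e' x) := by
    intro x
    exact congrArg (fun f => f x) (hΨ g)
  have a1 : ∀ y x, e (ph v y x) = ph v y x := fun y x => congrArg (fun f => f x) (ph_el hv y)
  have a2 : ∀ y x, ph v y (e x) = ph v y x := fun y x => congrArg (fun f => f x) (ph_er hv y)
  have a3 : ∀ y x, e' (ph v' y x) = ph v' y x := fun y x => congrArg (fun f => f x) (ph_el hv' y)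
  have a4 : ∀ y x, ph v' y (e' x) = ph v' y x := fun y x => congrArg (fun f => f x) (ph_er hv' y)
  have b1 : ∀ y x, e' (ph v y x) = 0 := by
    intro y x
    rw [← a1, h.o']
  have b2 : ∀ y x, e (ph v' y x) = 0 := by
    intro y x
    rw [← a3, h.o]
  have b3 : ∀ y x, ph v y (e' x) = 0 := by
    intro y x
    rw [← a2, h.o, map_zero]
  have b4 : ∀ y x, ph v' y (e x) = 0 := by
    intro y x
    rw [← a4, h.o', map_zero]
  refine ⟨⟨fun x => ?_, fun x => ?_⟩, fun x hx hx' => ?_⟩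
  · rw [h0, h0, map_add, map_add, a1, b2, a2, b4, map_sub, map_sub, h.pr.idem, h.o, h.o']
  · rw [h0, h0, map_add, map_add, a3, b1, a4, b3, map_sub, map_sub, h.pr'.idem, h.o, h.o']
  · rw [h0, ← a2, ← a4, hx, hx', map_zero, map_zero]
    abel

private theorem det_vec {q u : Fin d → ℝ} (h : q ⬝ᵥ u = 0) :
    (1 + Matrix.vecMulVec u q : Matrix (Fin d) (Fin d) ℝ).det = 1 := by
  rw [Matrix.vecMulVec_eq Unit, Matrix.det_one_add_replicateCol_mul_replicateRow, h, add_zero]

omit [FiniteDimensional ℝ E] in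
private theorem dot_co {v : Fin d → E} (hv : ON e v) {q : E} (hq : e q = q) (u : E) :
    co v q ⬝ᵥ co v u = inner ℝ q u := by
  conv_rhs => rw [← hq, ← hv.r q, vs_apply, sum_inner]
  unfold dotProduct
  refine Finset.sum_congr rfl fun i _ => ?_
  rw [real_inner_smul_left]
  rfl

private theorem tv_psi {v v' : Fin d → E} (hv : ON e v) (hv' : ON e' v')
    {Ψ : (Matrix.SpecialLinearGroup (Fin d) ℝ × Matrix.SpecialLinearGroup (Fin d) ℝ) →* GE E}
    (hΨ : ∀ g, ((Ψ g : GE E) : E →L[ℝ] E) = BB e e' v v' g.1.1 g.2.1) {q u : E}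
    (hqu : inner ℝ q u = (0 : ℝ)) (hc : (e q = q ∧ e u = u) ∨ (e' q = q ∧ e' u = u)) :
    ∃ α, tv q u = Ψ α := by
  rcases hc with ⟨hq, hu⟩ | ⟨hq, hu⟩
  · have hd : co v q ⬝ᵥ co v u = 0 := by rw [dot_co hv hq, hqu]
    refine ⟨(⟨1 + Matrix.vecMulVec (co v u) (co v q), det_vec hd⟩, 1), ?_⟩
    apply ContinuousLinearEquiv.ext
    funext x
    rw [tv_apply hqu]
    have h1 := congrArg (fun f => f x)
      (hΨ (⟨1 + Matrix.vecMulVec (co v u) (co v q), det_vec hd⟩, 1))
    refine Eq.trans ?_ h1.symm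
    change _ = (ph v (1 + Matrix.vecMulVec (co v u) (co v q)) + ph v' 1 + mid e e') x
    rw [map_add, ph_one hv, ph_one hv', ph_vec hv hq hu]
    change _ = e x + ro q u x + e' x + (x - e x - e' x)
    rw [ro_apply]
    abel
  · have hd : co v' q ⬝ᵥ co v' u = 0 := by rw [dot_co hv' hq, hqu]
    refine ⟨(1, ⟨1 + Matrix.vecMulVec (co v' u) (co v' q), det_vec hd⟩), ?_⟩
    apply ContinuousLinearEquiv.ext
    funext x
    rw [tv_apply hqu]
    have h1 := congrArg (fun f => f x)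
      (hΨ (1, ⟨1 + Matrix.vecMulVec (co v' u) (co v' q), det_vec hd⟩))
    refine Eq.trans ?_ h1.symm
    change _ = (ph v 1 + ph v' (1 + Matrix.vecMulVec (co v' u) (co v' q)) + mid e e') x
    rw [map_add, ph_one hv, ph_one hv', ph_vec hv' hq hu]
    change _ = e x + (e' x + ro q u x) + (x - e x - e' x)
    rw [ro_apply]
    abel

omit [FiniteDimensional ℝ E] in
private theorem smul_ro' (s : ℝ) (q u : E) : s • ro q u = ro q (s • u) := by
  ext x
  simp [smul_smul, mul_comm]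

omit [FiniteDimensional ℝ E] in
private theorem tw_smul_ro' (s : ℝ) (q u : E) : tw (s • ro q u) = tv q (s • u) := by
  rw [smul_ro']; rfl

omit [FiniteDimensional ℝ E] in
private theorem tv_zero' (q : E) : tv q (0 : E) = 1 := by
  apply ContinuousLinearEquiv.ext
  funext x
  rw [tv_apply (inner_zero_right _), smul_zero, add_zero]
  rfl

private theorem mem_of_functional' {X : Type*} [AddCommGroup X] [Module ℝ X] (B : Submodule ℝ X)
    (y : X) (h : ∀ f : X →ₗ[ℝ] ℝ, (∀ b ∈ B, f b = 0) → f y = 0) : y ∈ B := by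
  by_contra hy
  obtain ⟨f, hf, hB⟩ := Submodule.exists_le_ker_of_notMem hy
  exact hf (h f fun b hb => LinearMap.mem_ker.1 (hB hb))

theorem dn_O (h : OD O e e') {G : Subgroup (GE E)} (hG : G ∈ CCO O) : Dn2 G e e' := by
  obtain ⟨v, hv⟩ := onb h.pp.pr rfl
  obtain ⟨v', hv'⟩ := onb h.pp.pr' (corn_dim h).symm
  obtain ⟨Ψ, hΨ⟩ := psi h.pp hv hv'
  have hH : (G.comap Ψ).relIndex (U0 (D0 O hv hv')) ≠ 0 := by
    refine Subgroup.relIndex_ne_zero_trans ?_ (psi_mem h hv hv' hΨ)
    rw [Subgroup.relIndex_comap]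
    exact fun h0 => hG.2 (Subgroup.relIndex_eq_zero_of_le_right (Subgroup.map_comap_le _ _) h0)
  obtain ⟨R, hR⟩ := coc_OO (divOO h hv hv') _ hH
  obtain ⟨C0, hC0⟩ := bound (e := e) (e' := e') (v := v) (v' := v') hΨ R
  intro X _ _ _ π hπ B hB x hx q u hqu hc
  apply mem_of_functional'
  intro f hf
  have hpoly := hπ.poly (ro q u) (ro_sq hqu) f x
  obtain ⟨C, hC⟩ := hπ.bdd C0 f x
  have hbd : ∀ s : ℝ, |f (π (tw (s • ro q u)) x)| ≤ C := by
    intro s
    rw [tw_smul_ro']
    have hsu : inner ℝ q (s • u) = (0 : ℝ) := by rw [inner_smul_right, hqu, mul_zero]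
    have hc' : (e q = q ∧ e (s • u) = s • u) ∨ (e' q = q ∧ e' (s • u) = s • u) := by
      rcases hc with ⟨h1, h2⟩ | ⟨h1, h2⟩
      · exact Or.inl ⟨h1, by rw [map_smul, h2]⟩
      · exact Or.inr ⟨h1, by rw [map_smul, h2]⟩
    obtain ⟨α, hα⟩ := tv_psi hv hv' hΨ hsu hc'
    obtain ⟨γ, hγ, hb⟩ := hR α
    obtain ⟨h1, h2⟩ := hC0 (α * γ⁻¹) hb
    have h3 : π (tv q (s • u)) x = π (Ψ (α * γ⁻¹)) x
        + π (Ψ (α * γ⁻¹)) (π (Ψ γ) x - x) := by
      rw [← map_add, add_sub_cancel, ← Module.End.mul_apply, ← map_mul, ← map_mul,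
        inv_mul_cancel_right, hα]
    rw [h3, map_add, hf _ (hB _ (psi_blk h.pp hv hv' hΨ _) _
      (hx (Ψ γ) hγ (psi_blk h.pp hv hv' hΨ _))), add_zero]
    exact hC _ h1 h2
  have h1 := IsPoly.const_of_bdd hpoly C hbd 1
  simp only [one_smul, zero_smul] at h1
  have h0 : tw (0 : E →L[ℝ] E) = 1 := by
    have := tw_smul_ro' 0 q u
    rw [zero_smul, zero_smul, tv_zero'] at this
    exact this
  rw [h0, map_one, Module.End.one_apply] at h1
  rw [map_sub, sub_eq_zero]
  exact h1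

end
end LatLin
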