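import Pool.Agent.Lib.MP_2392aa_gt.O.GlueO
import Pool.Agent.Lib.MP_2392aa_gt.O.LatO

/-!
MP_2392aa_gt, outer type, module FLO1 (about 120 lines): formal linearization for isotropic idempotents of
rank one.

PROOF. `pr_one`: let `v` be a unit vector of the range of `e` (dimension one), so `e v = v` and `e x = s v` for
every `x`, with `s = ⟪v, e x⟫ = ⟪e v, x⟫ = ⟪v, x⟫`. `fl_O1`: `pr_one` for `e` and for `e'` (`rank_eq`, `h.pp`); `v`, `v'`
are orthogonal: `⟪v, v'⟫ v = e v' = e (e' v') = 0`. Substitute `e = ro v v`, `e' = ro v' v'`, and apply `fl_O1aux` with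
`lat_O h hG`, `lat_O h.symm hG`.
-/

open scoped ContDiff Topology
open MulOpposite

namespace LatLin

section
variable {E : Type*} [NormedAddCommGroup E] [InnerProductSpace ℝ E] [FiniteDimensional ℝ E]
  {O : Subring (DE E)} {e e' : E →L[ℝ] E} {k : ℕ}

theorem pr_one (he : IsPr e) (h1 : Module.finrank ℝ (LinearMap.range (e : E →ₗ[ℝ] E)) = 1) :
    ∃ v : E, ‖v‖ = 1 ∧ e = ro v v := by
  obtain ⟨⟨w, hw⟩, hw0, hw1⟩ := finrank_eq_one_iff'.1 h1
  have hwn : w ≠ 0 := fun h => hw0 (Subtype.ext h)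
  have hn : ‖w‖ ≠ 0 := norm_ne_zero_iff.2 hwn
  have hew : e w = w := by
    obtain ⟨z, hz⟩ := hw
    have hz' : e z = w := hz
    rw [← hz', he.idem]
  refine ⟨‖w‖⁻¹ • w, ?_, ?_⟩
  · rw [norm_smul, norm_inv, norm_norm, inv_mul_cancel₀ hn]
  · ext x
    obtain ⟨c, hc⟩ := hw1 ⟨e x, ⟨x, rfl⟩⟩
    have hc' : c • w = e x := congrArg Subtype.val hc
    have h2 : (inner ℝ w x : ℝ) = c * ‖w‖ ^ 2 := by
      have h3 : (inner ℝ (e w) x : ℝ) = inner ℝ w (e x) := he.sym w x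
      rw [hew, ← hc', inner_smul_right, real_inner_self_eq_norm_sq] at h3
      exact h3
    rw [ro_apply, real_inner_smul_left, h2, smul_smul, ← hc']
    congr 1
    field_simp

theorem fl_O1 (hk : 2 ≤ k) (h : OD O e e')
    (h1 : Module.finrank ℝ (LinearMap.range (e : E →ₗ[ℝ] E)) = 1)
    (hn : 3 ≤ Module.finrank ℝ E) {G : Subgroup (GE E)} (hG : G ∈ CCO O) (b : GE E → HM E k)
    (hb : IsCoc G b) : ∃ w : HM E k, Triv b w (G : Set (GE E)) := by
  obtain ⟨v, hv, rfl⟩ := pr_one h.pp.pr h1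
  obtain ⟨v', hv', rfl⟩ := pr_one h.pp.pr' ((rank_eq h).symm.trans h1)
  have ho : inner ℝ v v' = (0 : ℝ) := by
    have h2 := h.pp.o v'
    rw [ro_apply, ro_apply, real_inner_self_eq_norm_sq, hv', one_pow, one_smul] at h2
    have hv0 : v ≠ 0 := fun h0 => by
      rw [h0, norm_zero] at hv
      exact zero_ne_one hv
    exact (smul_eq_zero.1 h2).resolve_right hv0
  exact fl_O1aux hv hv' ho h hn hG (lat_O h hG) (lat_O h.symm hG) hk b hb

end
end LatLin
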