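import Pool.Agent.Lib.MP_2392aa_gt.O.Quad

/-!
MP_2392aa_gt, outer type, module Glue (about 300 lines): gluing homogeneous maps given on hyperplanes.

PROOF. For a linear form `η` and `p : HM E k`, `η • p : HM E (k+1)` is the map `x ↦ η x • p x` (private).
* `div_many` (private). Let `η_0, ..., η_(r-1)` be linear forms, pairwise linearly independent and not zero, and
  let `p : HM E k` vanish on every `ker η_i`. Then either `r ≤ k` and `p x = (∏_i η_i x) • q x` for some
  `q : HM E (k - r)`, or `r > k` and `p = 0`. Induction on `r`, for all `k`. Step from `r` to `r + 1`: if `k = 0`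
  then `p` is constant (`p (0 • x) = 0^0 • p x`) and vanishes at `0`, so `p = 0`. If `k = k' + 1` divide by
  `η_r`: choose `u0` with `η_r u0 = 1`; `hm_div` gives `p x = η_r x • q x` with `q : HM E k'`, since
  `x - η_r x • u0 ∈ ker η_r`. For `i < r` the map `q` vanishes on `ker η_i` outside `ker η_r`, so on all of
  `ker η_i`: there is `y ∈ ker η_i` with `η_r y ≠ 0` (independence), and `x + s y`, `s → 0`, `s ≠ 0`, is outside
  `ker η_r` for small `s ≠ 0` when `η_r x = 0`; continuity of `q`. Apply the induction hypothesis to `q`.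
* `glue`. CLAIM: for every `r` there is `p_r : HM E k` with `p_r = w_i` on `ker ξ_i` for all `i < r`. `p_0 = 0`.
  Step: let `P x = x - ξ_r x • u0`, `ξ_r u0 = 1` (a projection onto `ker ξ_r`), and
  `δ := (w_r - p_r) ∘ P` (in `HM E k`). With `η_i := ξ_i ∘ P`, `i < r`: `δ` vanishes on `ker η_i`, as then
  `P x ∈ ker ξ_r ∩ ker ξ_i`, where `w_r = w_i = p_r`. The `η_i` are not zero and pairwise independent: a relation
  `a η_i + b η_j = 0` says that `a ξ_i + b ξ_j` vanishes on `ker ξ_r`, so it is a multiple of `ξ_r`, and the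
  three forms are independent. By `div_many` either `δ = (∏_(i<r) η_i) • q` and
  `p_(r+1) := p_r + (∏_(i<r) ξ_i) • q`, or `δ = 0` and `p_(r+1) := p_r`: it is equal to `p_r` on `ker ξ_i`, `i < r`,
  and to `w_r` on `ker ξ_r` (there `P x = x`). Finally `p := p_(k+1)` is equal to `w_i` on `ker ξ_i` for all
  `i`: for `i ≥ k + 1` the map `(w_i - p) ∘ P` (with the projection `P` onto `ker ξ_i`) vanishes on the kernels of
  the `k + 1` pairwise independent forms `ξ_j ∘ P`, `j ≤ k`, so it is `0` by `div_many`.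
-/

open scoped ContDiff Topology

namespace LatLin

section aux
variable {E : Type*} [NormedAddCommGroup E] [InnerProductSpace ℝ E] {k : ℕ}

/-- three independent forms have a dual vector -/
private theorem gl_dual {a b c : E →L[ℝ] ℝ} (h : LinearIndependent ℝ ![a, b, c]) :
    ∃ y, a y = 0 ∧ b y = 0 ∧ c y = 1 := by
  by_contra hcon
  push Not at hcon
  have h1 : ∀ y, a y = 0 → b y = 0 → c y = 0 := by
    intro y ha hb
    by_contra hc
    refine hcon ((c y)⁻¹ • y) (by rw [map_smul, ha, smul_zero]) (by rw [map_smul, hb, smul_zero]) ?_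
    rw [map_smul, smul_eq_mul, inv_mul_cancel₀ hc]
  have h2 : (c : E →ₗ[ℝ] ℝ) ∈ Submodule.span ℝ (Set.range ![(a : E →ₗ[ℝ] ℝ), (b : E →ₗ[ℝ] ℝ)]) := by
    apply mem_span_of_iInf_ker_le_ker
    intro y hy
    rw [Submodule.mem_iInf] at hy
    exact h1 y (hy 0) (hy 1)
  have h3 : Set.range ![(a : E →ₗ[ℝ] ℝ), (b : E →ₗ[ℝ] ℝ)] =
      {(a : E →ₗ[ℝ] ℝ), (b : E →ₗ[ℝ] ℝ)} := by
    ext z
    simp only [Set.mem_range, Fin.exists_fin_two, Matrix.cons_val_zero, Matrix.cons_val_one,
      Set.mem_insert_iff, Set.mem_singleton_iff, eq_comm (b := z)]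
  rw [h3, Submodule.mem_span_pair] at h2
  obtain ⟨s, t, hst⟩ := h2
  have h4 : s • a + t • b + (-1 : ℝ) • c = 0 := by
    ext y
    have := congrArg (fun f => f y) hst
    simp only [LinearMap.add_apply, LinearMap.smul_apply, ContinuousLinearMap.coe_coe,
      smul_eq_mul] at this
    simp only [add_apply, smul_apply, smul_eq_mul]
    rw [this]
    simp
  have h5 := Fintype.linearIndependent_iff.1 h ![s, t, -1] (by
    rw [Fin.sum_univ_three]
    exact h4) 2
  simp at h5

omit [InnerProductSpace ℝ E] in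
private theorem gl_limit {g : ℝ → E} (hg : Continuous g) {c : E} (h : ∀ t : ℝ, t ≠ 0 → g t = c) :
    g 0 = c := by
  have h1 : Filter.Tendsto g (𝓝[≠] (0 : ℝ)) (𝓝 (g 0)) :=
    (hg.tendsto 0).mono_left nhdsWithin_le_nhds
  have h2 : Filter.Tendsto g (𝓝[≠] (0 : ℝ)) (𝓝 c) := by
    refine tendsto_const_nhds.congr' ?_
    filter_upwards [self_mem_nhdsWithin] with t ht
    exact (h t ht).symm
  exact tendsto_nhds_unique h1 h2

private theorem gl_mulP (η : ℕ → (E →L[ℝ] ℝ)) {k : ℕ} {q : E → E} (hq : HomMap k q) (r : ℕ) :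
    HomMap (k + r) (fun x => (∏ i ∈ Finset.range r, η i x) • q x) := by
  induction r with
  | zero => simpa using hq
  | succ r ih =>
    obtain ⟨h1, h2⟩ := ih
    have e1 : (fun x => (∏ i ∈ Finset.range (r + 1), η i x) • q x) =
        fun x => η r x • ((∏ i ∈ Finset.range r, η i x) • q x) := by
      funext x
      rw [Finset.prod_range_succ, smul_smul, mul_comm]
    rw [e1]
    refine ⟨(η r).contDiff.smul h1, fun t x => ?_⟩
    have h3 := h2 t x
    dsimp only at h3 ⊢
    rw [h3, map_smul, smul_eq_mul, smul_smul, smul_smul (t ^ (k + (r + 1)))]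
    rw [← smul_smul, smul_smul, ← add_assoc, pow_succ]
    rw [smul_smul, smul_smul]
    congr 1
    ring

end aux

section
variable {E : Type*} [NormedAddCommGroup E] [InnerProductSpace ℝ E] [FiniteDimensional ℝ E] {k : ℕ}

private theorem div_many (r : ℕ) : ∀ (k : ℕ) (η : ℕ → (E →L[ℝ] ℝ)) (p : E → E), HomMap k p →
    (∀ i < r, ∃ u, η i u = 1) → (∀ i < r, ∀ j < r, i ≠ j → ∃ y, η i y = 0 ∧ η j y ≠ 0) →
    (∀ i < r, ∀ x, η i x = 0 → p x = 0) →
    (∃ (k' : ℕ) (q : E → E), k = k' + r ∧ HomMap k' q ∧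
      ∀ x, p x = (∏ i ∈ Finset.range r, η i x) • q x) ∨ ∀ x, p x = 0 := by
  induction r with
  | zero =>
    intro k η p hp _ _ _
    exact Or.inl ⟨k, p, rfl, hp, fun x => by simp⟩
  | succ r ih =>
    intro k η p hp hu hy hv
    rcases k with _ | k
    · right
      intro x
      have h1 := hp.2 0 x
      rw [pow_zero, one_smul, zero_smul] at h1
      rw [← h1]
      exact hv r (Nat.lt_succ_self r) 0 (map_zero _)
    · obtain ⟨u0, hu0⟩ := hu r (Nat.lt_succ_self r)
      obtain ⟨D, hD⟩ := hm_div (k := k) (η r) u0 hu0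
      set q : E → E := (D ⟨p, hp⟩).1 with hq
      have hq1 : HomMap k q := (D ⟨p, hp⟩).2
      have hpq : ∀ x, p x = η r x • q x := by
        intro x
        have h1 := hD ⟨p, hp⟩ x
        have h2 : p (x - η r x • u0) = 0 := by
          apply hv r (Nat.lt_succ_self r)
          rw [map_sub, map_smul, hu0, smul_eq_mul, mul_one, sub_self]
        dsimp only at h1
        rw [h2, zero_add] at h1
        exact h1
      have hqc : Continuous q := hq1.1.continuous
      have hqv0 : ∀ i < r, ∀ x, η i x = 0 → η r x ≠ 0 → q x = 0 := by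
        intro i hi x hx hxr
        have h1 := hpq x
        rw [hv i (by omega) x hx] at h1
        exact (smul_eq_zero.1 h1.symm).resolve_left hxr
      have hqv : ∀ i < r, ∀ x, η i x = 0 → q x = 0 := by
        intro i hi x hx
        by_cases hxr : η r x = 0
        · obtain ⟨y, hy1, hy2⟩ := hy i (by omega) r (Nat.lt_succ_self r) (by omega)
          have hcont : Continuous fun s : ℝ => q (x + s • y) := by fun_prop
          have h3 := gl_limit hcont (c := 0) (fun s hs => by
            apply hqv0 i hi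
            · rw [map_add, map_smul, hx, hy1, smul_zero, add_zero]
            · rw [map_add, map_smul, hxr, zero_add, smul_eq_mul]
              exact mul_ne_zero hs hy2)
          rwa [zero_smul, add_zero] at h3
        · exact hqv0 i hi x hx hxr
      rcases ih k η q hq1 (fun i hi => hu i (by omega))
        (fun i hi j hj => hy i (by omega) j (by omega)) hqv with ⟨k', q', h1, h2, h3⟩ | h1
      · refine Or.inl ⟨k', q', by omega, h2, fun x => ?_⟩
        rw [hpq, h3, Finset.prod_range_succ, smul_smul, mul_comm]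
      · exact Or.inr fun x => by rw [hpq, h1, smul_zero]

/-- the projection along `u` -/
private noncomputable def gp (ξ : E →L[ℝ] ℝ) (u : E) : E →L[ℝ] E :=
  ContinuousLinearMap.id ℝ E - ξ.smulRight u

omit [FiniteDimensional ℝ E] in
private theorem gp_apply (ξ : E →L[ℝ] ℝ) (u x : E) : gp ξ u x = x - ξ x • u := rfl

private theorem gl_step (ξ : ℕ → (E →L[ℝ] ℝ))
    (h3 : ∀ i j l : ℕ, i ≠ j → i ≠ l → j ≠ l → LinearIndependent ℝ ![ξ i, ξ j, ξ l])
    (w : ℕ → HM E k)
    (hw : ∀ i j x, ξ i x = 0 → ξ j x = 0 → (w i).1 x = (w j).1 x) (r l : ℕ) (hl : r ≤ l)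
    (p : HM E k) (hp : ∀ i < r, ∀ x, ξ i x = 0 → p.1 x = (w i).1 x) :
    (∃ (k' : ℕ) (q : E → E), k = k' + r ∧ HomMap k' q ∧
      ∀ x, ξ l x = 0 → (w l).1 x - p.1 x = (∏ i ∈ Finset.range r, ξ i x) • q x) ∨
    ∀ x, ξ l x = 0 → (w l).1 x = p.1 x := by
  obtain ⟨u0, -, -, hu0⟩ := gl_dual (h3 (l + 1) (l + 2) l (by omega) (by omega) (by omega))
  have hP0 : ∀ x, ξ l (gp (ξ l) u0 x) = 0 := by
    intro x
    rw [gp_apply, map_sub, map_smul, hu0, smul_eq_mul, mul_one, sub_self]
  have hP1 : ∀ x, ξ l x = 0 → gp (ξ l) u0 x = x := by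
    intro x hx
    rw [gp_apply, hx, zero_smul, sub_zero]
  have hδ : HomMap k (fun x => (w l).1 (gp (ξ l) u0 x) - p.1 (gp (ξ l) u0 x)) := by
    refine ⟨((w l).2.1.comp (gp (ξ l) u0).contDiff).sub (p.2.1.comp (gp (ξ l) u0).contDiff),
      fun t x => ?_⟩
    dsimp only
    rw [map_smul, (w l).2.2, p.2.2, smul_sub]
  have g1 : ∀ i < r, ∃ u, ((ξ i).comp (gp (ξ l) u0)) u = 1 := by
    intro i hi
    obtain ⟨y, -, hy1, hy2⟩ := gl_dual (h3 (l + 1) l i (by omega) (by omega) (by omega))
    refine ⟨y, ?_⟩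
    rw [ContinuousLinearMap.comp_apply, hP1 y hy1, hy2]
  have g2 : ∀ i < r, ∀ j < r, i ≠ j → ∃ y, ((ξ i).comp (gp (ξ l) u0)) y = 0 ∧
      ((ξ j).comp (gp (ξ l) u0)) y ≠ 0 := by
    intro i hi j hj hij
    obtain ⟨y, hy0, hy1, hy2⟩ := gl_dual (h3 i l j (by omega) hij (by omega))
    refine ⟨y, ?_, ?_⟩
    · rw [ContinuousLinearMap.comp_apply, hP1 y hy1, hy0]
    · rw [ContinuousLinearMap.comp_apply, hP1 y hy1, hy2]
      exact one_ne_zero
  have g3 : ∀ i < r, ∀ x, ((ξ i).comp (gp (ξ l) u0)) x = 0 →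
      (fun x => (w l).1 (gp (ξ l) u0 x) - p.1 (gp (ξ l) u0 x)) x = 0 := by
    intro i hi x hx
    rw [ContinuousLinearMap.comp_apply] at hx
    dsimp only
    rw [hw l i _ (hP0 x) hx, hp i hi _ hx, sub_self]
  rcases div_many r k (fun i => (ξ i).comp (gp (ξ l) u0)) _ hδ g1 g2 g3 with
    ⟨k', q, h1, h2, h4⟩ | h1
  · refine Or.inl ⟨k', q, h1, h2, fun x hx => ?_⟩
    have h5 := h4 x
    simp only [ContinuousLinearMap.comp_apply, hP1 x hx] at h5
    exact h5
  · refine Or.inr fun x hx => ?_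
    have h5 := h1 x
    rw [hP1 x hx] at h5
    exact sub_eq_zero.1 h5

theorem glue (ξ : ℕ → (E →L[ℝ] ℝ))
    (h3 : ∀ i j l : ℕ, i ≠ j → i ≠ l → j ≠ l → LinearIndependent ℝ ![ξ i, ξ j, ξ l])
    (w : ℕ → HM E k)
    (hw : ∀ i j x, ξ i x = 0 → ξ j x = 0 → (w i).1 x = (w j).1 x) :
    ∃ p : HM E k, ∀ i x, ξ i x = 0 → p.1 x = (w i).1 x := by
  have main : ∀ r : ℕ, ∃ p : HM E k, ∀ i < r, ∀ x, ξ i x = 0 → p.1 x = (w i).1 x := by
    intro r
    induction r with
    | zero => exact ⟨0, fun i hi => absurd hi (Nat.not_lt_zero i)⟩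
    | succ r ih =>
      obtain ⟨p, hp⟩ := ih
      rcases gl_step ξ h3 w hw r r le_rfl p hp with ⟨k', q, h1, h2, h4⟩ | h1
      · subst h1
        refine ⟨p + ⟨_, gl_mulP ξ h2 r⟩, fun i hi x hx => ?_⟩
        show p.1 x + (∏ i ∈ Finset.range r, ξ i x) • q x = (w i).1 x
        rcases Nat.lt_succ_iff_lt_or_eq.1 hi with hir | rfl
        · rw [Finset.prod_eq_zero (Finset.mem_range.2 hir) hx, zero_smul, add_zero]
          exact hp i hir x hx
        · rw [← h4 x hx]
          abel
      · refine ⟨p, fun i hi x hx => ?_⟩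
        rcases Nat.lt_succ_iff_lt_or_eq.1 hi with hir | rfl
        · exact hp i hir x hx
        · exact (h1 x hx).symm
  obtain ⟨p, hp⟩ := main (k + 1)
  refine ⟨p, fun i x hx => ?_⟩
  by_cases hi : i < k + 1
  · exact hp i hi x hx
  · rcases gl_step ξ h3 w hw (k + 1) i (by omega) p hp with ⟨k', q, h1, h2, h4⟩ | h1
    · omega
    · exact (h1 x hx).symm

end
end LatLin
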