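import Pool.Agent.Lib.MP_2392aa_gt.L.HFin

/-!
MP_2392aa_gt, outer type, module VanC (about 200 lines): hyperplanes on a moment curve.

PROOF.
* `curve_indep`: a relation `a ξ_i + b ξ_j + c ξ_l = 0` gives by independence of `ξ0, ξ1, ξ2` the equations
  `a + b + c = 0`, `a i + b j + c l = 0`, `a i² + b j² + c l² = 0` (Vandermonde), so `a = b = c = 0`.
* `van_curve`: let `ζ x0 = 0`. If `ξ0 x0 = ξ1 x0 = ξ2 x0 = 0` use `h` with any `j ∈ J`. Otherwise let
  `Ξ x = (ξ0 x, ξ1 x, ξ2 x)`; `Ξ : E → ℝ³` is onto (independence), so the image of `ker ζ` (codimension at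
  most one) has dimension at least two and there is `y` with `ζ y = 0` and `Ξ y`, `Ξ x0` linearly
  independent. [If all `Ξ y`, `y ∈ ker ζ`, were multiples of `Ξ x0`, choose two independent forms
  `a, b` on `ℝ³` vanishing on `Ξ x0`; `a ∘ Ξ` and `b ∘ Ξ` are independent and vanish on `ker ζ`, so both are
  multiples of `ζ`: contradiction.] Put `a j = ξ0 x0 + j ξ1 x0 + j² ξ2 x0` and `b j` the same for `y`. Only finitely
  many `j` have `b j = 0` (`Ξ y ≠ 0`). For the other `j ∈ J` put `s_j = - a j / b j`; then `x0 + s_j y` satisfies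
  both equations and `p (x0 + s_j y) = 0`. The set of the `s_j` is infinite: otherwise some `s` is attained for
  infinitely many `j`, so the polynomial `a j + s b j` of degree `≤ 2` in `j` has infinitely many roots,
  `Ξ x0 + s Ξ y = 0`: contradiction. So the polynomial `s ↦ p (x0 + s y)` (`poly_line`, apply linear forms) has
  infinitely many zeros: it is zero, and `p x0 = 0`.
-/

open scoped ContDiff Topology

namespace LatLin

section
variable {E : Type*} [NormedAddCommGroup E] [InnerProductSpace ℝ E] [FiniteDimensional ℝ E] {k : ℕ}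

private theorem vc_mult (ζ φ : E →L[ℝ] ℝ) (h : ∀ y, ζ y = 0 → φ y = 0) :
    ∃ c : ℝ, ∀ v, φ v = c * ζ v := by
  by_cases hz : ∀ v, ζ v = 0
  · exact ⟨0, fun v => by rw [h v (hz v)]; ring⟩
  · push Not at hz
    obtain ⟨e, he⟩ := hz
    refine ⟨φ e / ζ e, fun v => ?_⟩
    have h1 : ζ (v - (ζ v / ζ e) • e) = 0 := by
      rw [map_sub, map_smul, smul_eq_mul]
      field_simp
      ring
    have h2 := h _ h1
    rw [map_sub, map_smul, smul_eq_mul] at h2
    have h3 : φ v = ζ v / ζ e * φ e := by linarith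
    rw [h3]
    ring

private theorem vc_li {ξ0 ξ1 ξ2 : E →L[ℝ] ℝ} (hli : LinearIndependent ℝ ![ξ0, ξ1, ξ2])
    (a b c : ℝ) (h : ∀ v, a * ξ0 v + b * ξ1 v + c * ξ2 v = 0) : a = 0 ∧ b = 0 ∧ c = 0 := by
  rw [Fintype.linearIndependent_iff] at hli
  have key := hli ![a, b, c] (by
    ext v
    simpa [Fin.sum_univ_three] using h v)
  exact ⟨key 0, key 1, key 2⟩

theorem curve_indep (ξ0 ξ1 ξ2 : E →L[ℝ] ℝ) (hli : LinearIndependent ℝ ![ξ0, ξ1, ξ2])
    (i j l : ℕ) (hij : i ≠ j) (hil : i ≠ l) (hjl : j ≠ l) :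
    LinearIndependent ℝ ![ξ0 + (i : ℝ) • ξ1 + (i : ℝ) ^ 2 • ξ2,
      ξ0 + (j : ℝ) • ξ1 + (j : ℝ) ^ 2 • ξ2, ξ0 + (l : ℝ) • ξ1 + (l : ℝ) ^ 2 • ξ2] := by
  rw [Fintype.linearIndependent_iff]
  intro g hg
  have hg' : ∀ v, g 0 * (ξ0 v + i * ξ1 v + (i : ℝ) ^ 2 * ξ2 v) +
      g 1 * (ξ0 v + j * ξ1 v + (j : ℝ) ^ 2 * ξ2 v) +
      g 2 * (ξ0 v + l * ξ1 v + (l : ℝ) ^ 2 * ξ2 v) = 0 := by
    intro v
    have := congrArg (fun f : E →L[ℝ] ℝ => f v) hg
    simp [Fin.sum_univ_three] at this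
    linear_combination this
  obtain ⟨h0, h1, h2⟩ := vc_li hli (g 0 + g 1 + g 2) (g 0 * i + g 1 * j + g 2 * l)
    (g 0 * (i : ℝ) ^ 2 + g 1 * (j : ℝ) ^ 2 + g 2 * (l : ℝ) ^ 2) (fun v => by
      rw [← hg' v]
      ring)
  have e1 : (i : ℝ) - j ≠ 0 := sub_ne_zero.2 (fun h => hij (by exact_mod_cast h))
  have e2 : (i : ℝ) - l ≠ 0 := sub_ne_zero.2 (fun h => hil (by exact_mod_cast h))
  have e3 : (j : ℝ) - l ≠ 0 := sub_ne_zero.2 (fun h => hjl (by exact_mod_cast h))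
  have k0 : g 0 * (((i : ℝ) - j) * ((i : ℝ) - l)) = 0 := by
    linear_combination h2 - ((j : ℝ) + l) * h1 + (j : ℝ) * l * h0
  have k1 : g 1 * (((i : ℝ) - j) * ((j : ℝ) - l)) = 0 := by
    linear_combination -(h2 - ((i : ℝ) + l) * h1 + (i : ℝ) * l * h0)
  have k2 : g 2 * (((i : ℝ) - l) * ((j : ℝ) - l)) = 0 := by
    linear_combination h2 - ((i : ℝ) + j) * h1 + (i : ℝ) * j * h0
  intro m
  fin_cases m
  · exact (mul_eq_zero.1 k0).resolve_right (mul_ne_zero e1 e2)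
  · exact (mul_eq_zero.1 k1).resolve_right (mul_ne_zero e1 e3)
  · exact (mul_eq_zero.1 k2).resolve_right (mul_ne_zero e2 e3)

private theorem vc_exists {ξ0 ξ1 ξ2 : E →L[ℝ] ℝ} (hli : LinearIndependent ℝ ![ξ0, ξ1, ξ2])
    (ζ : E →L[ℝ] ℝ) (a0 a1 a2 : ℝ) (ha : ¬(a0 = 0 ∧ a1 = 0 ∧ a2 = 0)) :
    ∃ y, ζ y = 0 ∧ ¬(a0 * ξ1 y - a1 * ξ0 y = 0 ∧ a0 * ξ2 y - a2 * ξ0 y = 0 ∧
      a1 * ξ2 y - a2 * ξ1 y = 0) := by
  by_contra hcon
  push Not at hcon
  have h01 : ∀ y, ζ y = 0 → (a0 • ξ1 - a1 • ξ0) y = 0 := fun y hy => by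
    simpa using (hcon y hy).1
  have h02 : ∀ y, ζ y = 0 → (a0 • ξ2 - a2 • ξ0) y = 0 := fun y hy => by
    simpa using (hcon y hy).2.1
  have h12 : ∀ y, ζ y = 0 → (a1 • ξ2 - a2 • ξ1) y = 0 := fun y hy => by
    simpa using (hcon y hy).2.2
  obtain ⟨c01, k01⟩ := vc_mult ζ _ h01
  obtain ⟨c02, k02⟩ := vc_mult ζ _ h02
  obtain ⟨c12, k12⟩ := vc_mult ζ _ h12
  have k01' : ∀ v, a0 * ξ1 v - a1 * ξ0 v = c01 * ζ v := fun v => by simpa using k01 v
  have k02' : ∀ v, a0 * ξ2 v - a2 * ξ0 v = c02 * ζ v := fun v => by simpa using k02 v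
  have k12' : ∀ v, a1 * ξ2 v - a2 * ξ1 v = c12 * ζ v := fun v => by simpa using k12 v
  obtain ⟨u1, u2, u3⟩ := vc_li hli (c01 * a2 - c02 * a1) (c02 * a0) (-(c01 * a0)) (fun v => by
    linear_combination c02 * k01' v - c01 * k02' v)
  obtain ⟨w1, w2, w3⟩ := vc_li hli (-(c12 * a1)) (c12 * a0 + c01 * a2) (-(c01 * a1)) (fun v => by
    linear_combination c12 * k01' v - c01 * k12' v)
  obtain ⟨z1, z2, z3⟩ := vc_li hli (-(c12 * a2)) (c02 * a2) (c12 * a0 - c02 * a1) (fun v => by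
    linear_combination c12 * k02' v - c02 * k12' v)
  apply ha
  by_cases hc : c01 = 0
  · subst hc
    obtain ⟨r1, r2, -⟩ := vc_li hli (-a1) a0 0 (fun v => by
      linear_combination k01' v)
    have ha1 : a1 = 0 := by linarith
    refine ⟨r2, ha1, ?_⟩
    by_contra ha2
    have hc12 : c12 = 0 := by
      rcases mul_eq_zero.1 (neg_eq_zero.1 z1) with h | h
      · exact h
      · exact absurd h ha2
    subst hc12
    obtain ⟨-, r4, -⟩ := vc_li hli 0 (-a2) a1 (fun v => by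
      linear_combination k12' v)
    exact ha2 (by linarith)
  · have ha0 : a0 = 0 := (mul_eq_zero.1 (neg_eq_zero.1 u3)).resolve_left hc
    have ha1 : a1 = 0 := (mul_eq_zero.1 (neg_eq_zero.1 w3)).resolve_left hc
    have ha2 : a2 = 0 := by
      rw [ha1, mul_zero, sub_zero] at u1
      exact (mul_eq_zero.1 u1).resolve_left hc
    exact ⟨ha0, ha1, ha2⟩

theorem van_curve (ξ0 ξ1 ξ2 : E →L[ℝ] ℝ) (hli : LinearIndependent ℝ ![ξ0, ξ1, ξ2])
    (ζ : E →L[ℝ] ℝ) (p : HM E k) (J : Set ℕ) (hJ : J.Infinite)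
    (h : ∀ j ∈ J, ∀ x, ζ x = 0 → (ξ0 + (j : ℝ) • ξ1 + (j : ℝ) ^ 2 • ξ2) x = 0 → p.1 x = 0)
    (x : E) (hx : ζ x = 0) : p.1 x = 0 := by
  classical
  by_cases hxi : ξ0 x = 0 ∧ ξ1 x = 0 ∧ ξ2 x = 0
  · obtain ⟨j, hj⟩ := hJ.nonempty
    obtain ⟨h0, h1, h2⟩ := hxi
    exact h j hj x hx (by simp [h0, h1, h2])
  by_contra hpx
  obtain ⟨y, hy, hmin⟩ := vc_exists hli ζ _ _ _ hxi
  apply hmin
  -- the polynomial of `s`
  have hpoly := (poly_line p x y).lin ((innerSL ℝ (p.1 x)).toLinearMap)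
  obtain ⟨P, hP⟩ := hpoly.exists_eval
  have hP0 : P ≠ 0 := by
    rintro rfl
    have := hP 0
    simp at this
    exact hpx this
  -- the two polynomials of `j`
  let A : Polynomial ℝ := Polynomial.C (ξ0 x) + Polynomial.C (ξ1 x) * Polynomial.X +
    Polynomial.C (ξ2 x) * Polynomial.X ^ 2
  let B : Polynomial ℝ := Polynomial.C (ξ0 y) + Polynomial.C (ξ1 y) * Polynomial.X +
    Polynomial.C (ξ2 y) * Polynomial.X ^ 2
  have hAe : ∀ t : ℝ, A.eval t = ξ0 x + ξ1 x * t + ξ2 x * t ^ 2 := fun t => by simp [A]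
  have hBe : ∀ t : ℝ, B.eval t = ξ0 y + ξ1 y * t + ξ2 y * t ^ 2 := fun t => by simp [B]
  let Q : Polynomial ℝ := B * ∏ s ∈ P.roots.toFinset, (A + Polynomial.C s * B)
  have hQroot : ∀ j ∈ J, Q.IsRoot (j : ℝ) := by
    intro j hj
    rw [Polynomial.IsRoot.def]
    by_cases hb : B.eval (j : ℝ) = 0
    · simp [Q, hb]
    · have hs : -(A.eval (j : ℝ)) / B.eval (j : ℝ) ∈ P.roots.toFinset := by
        rw [Multiset.mem_toFinset, Polynomial.mem_roots hP0, Polynomial.IsRoot.def, ← hP]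
        have hz : ζ (x + (-(A.eval (j : ℝ)) / B.eval (j : ℝ)) • y) = 0 := by
          rw [map_add, map_smul, hx, hy]
          simp
        have hv := h j hj _ hz (by
          have e : A.eval (j : ℝ) + (-(A.eval (j : ℝ)) / B.eval (j : ℝ)) * B.eval (j : ℝ) = 0 := by
            field_simp
            ring
          set s := -(A.eval (j : ℝ)) / B.eval (j : ℝ)
          rw [hAe, hBe] at e
          simp only [_root_.add_apply, _root_.smul_apply, map_add, map_smul, smul_eq_mul]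
          linear_combination e)
        rw [hv, map_zero]
      simp only [Q]
      rw [Polynomial.eval_mul, Polynomial.eval_prod, Finset.prod_eq_zero hs, mul_zero]
      rw [Polynomial.eval_add, Polynomial.eval_mul, Polynomial.eval_C]
      field_simp
      ring
  have hQ0 : Q = 0 := by
    apply Polynomial.eq_zero_of_infinite_isRoot
    refine (hJ.image (Nat.cast_injective (R := ℝ)).injOn).mono ?_
    rintro _ ⟨j, hj, rfl⟩
    exact hQroot j hj
  have hcA : ∀ n, A.coeff n = if n = 0 then ξ0 x else if n = 1 then ξ1 x else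
      if n = 2 then ξ2 x else 0 := by
    intro n
    rcases n with _ | _ | _ | n <;> simp [A, Polynomial.coeff_X, Polynomial.coeff_C]
  have hcB : ∀ n, B.coeff n = if n = 0 then ξ0 y else if n = 1 then ξ1 y else
      if n = 2 then ξ2 y else 0 := by
    intro n
    rcases n with _ | _ | _ | n <;> simp [B, Polynomial.coeff_X, Polynomial.coeff_C]
  rcases mul_eq_zero.1 hQ0 with hB | hprod
  · have b0 : ξ0 y = 0 := by simpa [hcB] using congrArg (fun R => Polynomial.coeff R 0) hB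
    have b1 : ξ1 y = 0 := by simpa [hcB] using congrArg (fun R => Polynomial.coeff R 1) hB
    have b2 : ξ2 y = 0 := by simpa [hcB] using congrArg (fun R => Polynomial.coeff R 2) hB
    simp [b0, b1, b2]
  · obtain ⟨s, -, hs⟩ := Finset.prod_eq_zero_iff.1 hprod
    have b0 : ξ0 x + s * ξ0 y = 0 := by
      simpa [hcB, hcA] using congrArg (fun R => Polynomial.coeff R 0) hs
    have b1 : ξ1 x + s * ξ1 y = 0 := by
      simpa [hcB, hcA] using congrArg (fun R => Polynomial.coeff R 1) hs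
    have b2 : ξ2 x + s * ξ2 y = 0 := by
      simpa [hcB, hcA] using congrArg (fun R => Polynomial.coeff R 2) hs
    refine ⟨?_, ?_, ?_⟩
    · linear_combination ξ1 y * b0 - ξ0 y * b1
    · linear_combination ξ2 y * b0 - ξ0 y * b2
    · linear_combination ξ2 y * b1 - ξ1 y * b2

end
end LatLin
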