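import Pool.Agent.Lib.MP_2392aa_gt.O.Pair
import Pool.Agent.Lib.MP_2392aa_gt.O.Glue
import Pool.Agent.Lib.MP_2392aa_gt.O.VanC

/-!
MP_2392aa_gt, outer type, module Main1 (about 350 lines): gluing the local trivializers.

Notation: `q, η, g` from `h.curve`, `c0 = ⟪q, η⟫ ≠ 0`, `ξ0 = ⟪v, ·⟫`, `ξ1 = - ⟪q, ·⟫`, `ξ2 = (c0 /
2) ⟪v', ·⟫`: linearly
independent (`v, q, v'` are orthogonal and not zero). `ξ_i := ξ0 + i ξ1 + i² ξ2 = ⟪v, (g i)⁻¹ ·⟫`.
`w_g := pi g w' + b g`.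

PROOF of `fam`. For `i ≠ j`: `⟪v, (g i)⁻¹ (g j v')⟫ = ξ_i (g j v') = c0 j² / 2 - i j c0 + i² c0 /
2 = c0 (i - j)² / 2 ≠ 0`
(formulas of `h.curve`). So by `pair_agree2` `w_(g i) = w_(g j)` on `ker ξ_i ∩ ker ξ_j`. By
`curve_indep` and `glue`
there is `p` with `p = w_(g i)` on `ker ξ_i`.

PROOF of `glue_main`. Let `p` be as in `fam`, `b' γ := b γ - (p - pi γ p)`, a cocycle of `G`, and
`w'' := w' - p`, so
`Triv b' w'' S'` and `w''_g := pi g w'' + b' g = w_g - p`, which vanishes on `ker ξ_i` for `g = g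
i`. It is enough to
show `b' γ = 0` for all `γ ∈ G`.
(1) If `⟪v, (g j)⁻¹ γ (g i) v'⟫ ≠ 0` and `⟪v, (g j)⁻¹ x⟫ = 0 = ⟪v, (γ g i)⁻¹ x⟫` then `b' γ x =
0`: by `pair_agree2` (for
`b'`, `w''`, the elements `g j` and `γ * g i`) `w''_(g j) x = w''_(γ g i) x`; the left side is
`0`, the right side is
`γ (w''_(g i) (γ⁻¹ x)) + b' γ x`, and `w''_(g i) (γ⁻¹ x) = 0` because `ξ_i (γ⁻¹ x) = 0`.
(2) Let `K = {z | ⟪v, z⟫ = ⟪q, z⟫ = ⟪v', z⟫ = 0}`. If `z := γ (g i v') ∉ K` then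
`⟪v, (g j)⁻¹ z⟫ = ⟪v, z⟫ - j ⟪q, z⟫ + j² (c0 / 2) ⟪v', z⟫` is a polynomial in `j` which is not
zero, so it is `≠ 0` for all
`j` in an infinite set `J`; by (1) and `van_curve` with `ζ = ⟪v, (γ g i)⁻¹ ·⟫`: `b' γ x = 0` if
`⟪v, (g i)⁻¹ (γ⁻¹ x)⟫ = 0`, i.e. if `ξ_i (γ⁻¹ x) = 0`.
(3) Assume that one of `γ v'`, `γ η`, `γ v` is not in `K` (`γ` is good). As `γ (g i v') = γ v' + i
γ η + i² (c0 / 2) γ v`,
one of the linear forms `⟪v, ·⟫, ⟪q, ·⟫, ⟪v', ·⟫` gives a nonzero polynomial in `i`, so `γ (g i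
v') ∉ K` for infinitely
many `i`. For these `i` the map `y ↦ b' γ (γ y)` (`pj id γ (b' γ)`) vanishes on `ker ξ_i` by (2);
by `van_curve` with
`ζ = 0` it is zero. So `b' γ = 0`.
(4) Otherwise `z := γ v ∈ K`, `z ≠ 0`; by `h.mov` there is `h' ∈ G` with `⟪v, h' z⟫ ≠ 0` and `h' v
= v`. Then `h'` is good
(`h' v = v ∉ K`) and `h' γ` is good (`h' γ v ∉ K`), so `0 = b' (h' γ) = b' h' + pi h' (b' γ) = pi
h' (b' γ)` and
`b' γ = 0`.
-/

open scoped ContDiff Topology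

namespace LatLin

private theorem inf_quad {a0 a1 a2 : ℝ} (h : ¬(a0 = 0 ∧ a1 = 0 ∧ a2 = 0)) :
    {j : ℕ | a0 + j * a1 + (j : ℝ) ^ 2 * a2 ≠ 0}.Infinite := by
  intro hf
  obtain ⟨N, hN⟩ := hf.bddAbove
  have key : ∀ m : ℕ, N < m → a0 + m * a1 + (m : ℝ) ^ 2 * a2 = 0 := by
    intro m hm
    by_contra hne
    exact absurd (hN hne) (not_le.2 hm)
  have e1 := key (N + 1) (by omega)
  have e2 := key (N + 2) (by omega)
  have e3 := key (N + 3) (by omega)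
  push_cast at e1 e2 e3
  have h2 : a2 = 0 := by linear_combination (e1 - 2 * e2 + e3) / 2
  subst h2
  have h1 : a1 = 0 := by linear_combination e2 - e1
  subst h1
  exact h ⟨by linear_combination e1, rfl, rfl⟩

section
variable {E : Type*} [NormedAddCommGroup E] [InnerProductSpace ℝ E] [FiniteDimensional ℝ E] {k : ℕ}

omit [FiniteDimensional ℝ E] in
private theorem m1_li {v v' q : E} {c : ℝ} (hv : ‖v‖ = 1) (hv' : ‖v'‖ = 1)
    (ho : inner ℝ v v' = (0 : ℝ)) (h1 : inner ℝ v q = (0 : ℝ)) (h2 : inner ℝ v' q = (0 : ℝ))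
    (hq : q ≠ 0) (hc : c ≠ 0) :
    LinearIndependent ℝ ![innerSL ℝ v, -(innerSL ℝ q), c • innerSL ℝ v'] := by
  rw [Fintype.linearIndependent_iff]
  intro a ha
  have key : ∀ x, a 0 * inner ℝ v x - a 1 * inner ℝ q x + a 2 * (c * inner ℝ v' x) = (0 : ℝ) := by
    intro x
    have := congrArg (fun f : E →L[ℝ] ℝ => f x) ha
    simp [Fin.sum_univ_three] at this
    linear_combination this
  have nv : inner ℝ v v = (1 : ℝ) := by rw [real_inner_self_eq_norm_sq, hv, one_pow]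
  have nv' : inner ℝ v' v' = (1 : ℝ) := by rw [real_inner_self_eq_norm_sq, hv', one_pow]
  have nq : inner ℝ q q ≠ (0 : ℝ) := by
    rw [Ne, inner_self_eq_zero]
    exact hq
  have e0 := key v
  have e1 := key q
  have e2 := key v'
  rw [nv, real_inner_comm v q, h1, real_inner_comm v v', ho] at e0
  rw [h1, h2] at e1
  rw [ho, real_inner_comm v' q, h2, nv'] at e2
  have f0 : a 0 = 0 := by linear_combination e0
  have f1 : a 1 = 0 := by
    have : a 1 * inner ℝ q q = 0 := by linear_combination -e1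
    exact (mul_eq_zero.1 this).resolve_right nq
  have f2 : a 2 = 0 := by
    have : a 2 * c = 0 := by linear_combination e2
    exact (mul_eq_zero.1 this).resolve_right hc
  intro i
  fin_cases i
  · exact f0
  · exact f1
  · exact f2

theorem fam (hk : 2 ≤ k) {G : Subgroup (GE E)} {v v' : E} {S' : Set (GE E)}
    (h : OGlue G v v' S') (b : GE E → HM E k) (hb : IsCoc G b) (w' : HM E k) (hw : Triv b w' S')
    (q η : E) (g : ℕ → GE E) (h1 : inner ℝ v q = (0 : ℝ)) (h2 : inner ℝ v' q = (0 : ℝ))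
    (h3 : inner ℝ v η = (0 : ℝ)) (h4 : inner ℝ v' η = (0 : ℝ)) (h5 : inner ℝ q η ≠ (0 : ℝ))
    (h6 : ∀ i, g i ∈ G)
    (h7 : ∀ (i : ℕ) (x : E), inner ℝ v (((g i)⁻¹ : GE E) x) = (inner ℝ v x : ℝ) -
      i * (inner ℝ q x : ℝ) + (i : ℝ) ^ 2 * ((inner ℝ q η : ℝ) / 2 * (inner ℝ v' x : ℝ)))
    (h8 : ∀ i : ℕ, g i v' = v' + (i : ℝ) • η + ((i : ℝ) ^ 2 * ((inner ℝ q η : ℝ) / 2)) • v) :
    ∃ p : HM E k, ∀ (i : ℕ) (x : E), inner ℝ v (((g i)⁻¹ : GE E) x) = (0 : ℝ) →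
      p.1 x = (pi k (g i) w' + b (g i)).1 x := by
  have hq : q ≠ 0 := by
    rintro rfl
    exact h5 (inner_zero_left _)
  have hc : (inner ℝ q η : ℝ) / 2 ≠ 0 := div_ne_zero h5 two_ne_zero
  have hli := m1_li h.nv h.nv' h.orth h1 h2 hq hc
  have hxi : ∀ (i : ℕ) (x : E), (innerSL ℝ v + (i : ℝ) • (-(innerSL ℝ q)) +
      (i : ℝ) ^ 2 • (((inner ℝ q η : ℝ) / 2) • innerSL ℝ v')) x =
      inner ℝ v (((g i)⁻¹ : GE E) x) := by
    intro i x
    rw [h7]
    simp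
    ring
  obtain ⟨p, hp⟩ := glue (fun i : ℕ => innerSL ℝ v + (i : ℝ) • (-(innerSL ℝ q)) +
      (i : ℝ) ^ 2 • (((inner ℝ q η : ℝ) / 2) • innerSL ℝ v'))
    (fun i j l hij hil hjl => curve_indep _ _ _ hli i j l hij hil hjl)
    (fun i => pi k (g i) w' + b (g i)) (by
      intro i j x hi hj
      rw [hxi] at hi hj
      rcases eq_or_ne i j with rfl | hij
      · rfl
      · refine pair_agree2 hk h b hb w' hw (g i) (g j) (h6 i) (h6 j) ?_ x hi hj
        have e1 : (((g i)⁻¹ * g j : GE E) v') = ((g i)⁻¹ : GE E) (g j v') := rfl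
        have nv : inner ℝ v v = (1 : ℝ) := by rw [real_inner_self_eq_norm_sq, h.nv, one_pow]
        have nv' : inner ℝ v' v' = (1 : ℝ) := by rw [real_inner_self_eq_norm_sq, h.nv', one_pow]
        have ho' : inner ℝ v' v = (0 : ℝ) := by rw [real_inner_comm, h.orth]
        have h1' : inner ℝ q v = (0 : ℝ) := by rw [real_inner_comm, h1]
        have h2' : inner ℝ q v' = (0 : ℝ) := by rw [real_inner_comm, h2]
        rw [e1, h7, h8]
        simp only [inner_add_right, inner_smul_right, nv, nv', ho', h1', h2', h3, h4, h.orth]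
        have e2 : (0 + (j : ℝ) * 0 + (j : ℝ) ^ 2 * ((inner ℝ q η : ℝ) / 2) * 1 -
            (i : ℝ) * (0 + (j : ℝ) * inner ℝ q η + (j : ℝ) ^ 2 * ((inner ℝ q η : ℝ) / 2) * 0) +
            (i : ℝ) ^ 2 * ((inner ℝ q η : ℝ) / 2 *
              (1 + (j : ℝ) * 0 + (j : ℝ) ^ 2 * ((inner ℝ q η : ℝ) / 2) * 0))) =
            (inner ℝ q η : ℝ) / 2 * ((i : ℝ) - j) ^ 2 := by ring
        rw [e2]
        have e3 : (i : ℝ) - j ≠ 0 := sub_ne_zero.2 (fun h => hij (by exact_mod_cast h))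
        exact mul_ne_zero hc (pow_ne_zero _ e3))
  refine ⟨p, fun i x hx => hp i x ?_⟩
  rw [hxi]
  exact hx

theorem glue_main (hk : 2 ≤ k) {G : Subgroup (GE E)} {v v' : E} {S' : Set (GE E)}
    (h : OGlue G v v' S') (b : GE E → HM E k) (hb : IsCoc G b) (w' : HM E k)
    (hw : Triv b w' S') : ∃ p : HM E k, Triv b p (G : Set (GE E)) := by
  obtain ⟨q, η, g, h1, h2, h3, h4, h5, -, h6, h7, h8⟩ := h.curve
  obtain ⟨p, hp⟩ := fam hk h b hb w' hw q η g h1 h2 h3 h4 h5 h6 h7 h8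
  have hq : q ≠ 0 := by
    rintro rfl
    exact h5 (inner_zero_left _)
  have hc : (inner ℝ q η : ℝ) / 2 ≠ 0 := div_ne_zero h5 two_ne_zero
  have hli := m1_li h.nv h.nv' h.orth h1 h2 hq hc
  have hxi : ∀ (i : ℕ) (x : E), (innerSL ℝ v + (i : ℝ) • (-(innerSL ℝ q)) +
      (i : ℝ) ^ 2 • (((inner ℝ q η : ℝ) / 2) • innerSL ℝ v')) x =
      inner ℝ v (((g i)⁻¹ : GE E) x) := by
    intro i x
    rw [h7]
    simp
    ring
  have nv : inner ℝ v v = (1 : ℝ) := by rw [real_inner_self_eq_norm_sq, h.nv, one_pow]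
  -- the new cocycle
  obtain ⟨b', hb'⟩ : ∃ b' : GE E → HM E k, ∀ γ, b' γ = b γ - (p - pi k γ p) := ⟨_, fun _ => rfl⟩
  have hcoc : IsCoc G b' := by
    intro x hx y hy
    rw [hb', hb', hb', hb x hx y hy, map_mul, Module.End.mul_apply, map_sub, map_sub]
    abel
  have htr : Triv b' (w' - p) S' := by
    intro s hs
    rw [hb', hw s hs, map_sub]
    abel
  -- (0)
  have H0 : ∀ (i : ℕ) (x : E), inner ℝ v (((g i)⁻¹ : GE E) x) = (0 : ℝ) →
      (pi k (g i) (w' - p) + b' (g i)).1 x = 0 := by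
    intro i x hx
    have e1 : pi k (g i) (w' - p) + b' (g i) = (pi k (g i) w' + b (g i)) - p := by
      rw [hb', map_sub]
      abel
    rw [e1]
    have e2 := hp i x hx
    have e3 : ((pi k (g i) w' + b (g i)) - p).1 x = (pi k (g i) w' + b (g i)).1 x - p.1 x := rfl
    rw [e3, e2, sub_self]
  -- (1)
  have H1 : ∀ γ ∈ G, ∀ (i j : ℕ) (x : E), inner ℝ v (((g j)⁻¹ : GE E) (γ (g i v'))) ≠ (0 : ℝ) →
      inner ℝ v (((g j)⁻¹ : GE E) x) = (0 : ℝ) →
      inner ℝ v (((g i)⁻¹ : GE E) ((γ⁻¹ : GE E) x)) = (0 : ℝ) → (b' γ).1 x = 0 := by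
    intro γ hγ i j x hne hx hx'
    have e1 := pair_agree2 hk h b' hcoc (w' - p) htr (g j) (γ * g i) (h6 j)
      (G.mul_mem hγ (h6 i)) hne x hx (by rw [mul_inv_rev]; exact hx')
    rw [H0 j x hx, hcoc γ hγ (g i) (h6 i), map_mul, Module.End.mul_apply] at e1
    have e2 : (pi k γ (pi k (g i) (w' - p)) + (b' γ + pi k γ (b' (g i)))) =
        pi k γ (pi k (g i) (w' - p) + b' (g i)) + b' γ := by
      rw [map_add]
      abel
    rw [e2] at e1
    have e3 : (pi k γ (pi k (g i) (w' - p) + b' (g i)) + b' γ).1 x =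
        γ ((pi k (g i) (w' - p) + b' (g i)).1 ((γ⁻¹ : GE E) x)) + (b' γ).1 x := rfl
    rw [e3, H0 i _ hx', map_zero, zero_add] at e1
    exact e1.symm
  -- (2)
  have H2 : ∀ γ ∈ G, ∀ i : ℕ, ¬(inner ℝ v (γ (g i v')) = (0 : ℝ) ∧
      inner ℝ v' (γ (g i v')) = (0 : ℝ)) → ∀ x : E,
      inner ℝ v (((g i)⁻¹ : GE E) ((γ⁻¹ : GE E) x)) = (0 : ℝ) → (b' γ).1 x = 0 := by
    intro γ hγ i hne x hx
    have hJ : {j : ℕ | inner ℝ v (((g j)⁻¹ : GE E) (γ (g i v'))) ≠ (0 : ℝ)}.Infinite := by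
      have e1 : ¬((inner ℝ v (γ (g i v')) : ℝ) = 0 ∧ -(inner ℝ q (γ (g i v')) : ℝ) = 0 ∧
          (inner ℝ q η : ℝ) / 2 * (inner ℝ v' (γ (g i v')) : ℝ) = 0) := by
        rintro ⟨f1, -, f3⟩
        exact hne ⟨f1, (mul_eq_zero.1 f3).resolve_left hc⟩
      refine (inf_quad e1).mono ?_
      intro j hj
      simp only [Set.mem_ofPred_eq] at hj ⊢
      rw [h7]
      intro h0
      apply hj
      rw [← h0]
      ring
    refine van_curve _ _ _ hli ((innerSL ℝ v) ∘L (((g i)⁻¹ : GE E) : E →L[ℝ] E) ∘L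
      ((γ⁻¹ : GE E) : E →L[ℝ] E)) (b' γ) _ hJ ?_ x hx
    intro j hj y hy1 hy2
    rw [hxi] at hy2
    exact H1 γ hγ i j y hj hy2 hy1
  -- (3)
  have H3 : ∀ γ ∈ G, ¬(inner ℝ v (γ v) = (0 : ℝ) ∧ inner ℝ v' (γ v) = (0 : ℝ)) → b' γ = 0 := by
    intro γ hγ hne
    have hI : {i : ℕ | ¬(inner ℝ v (γ (g i v')) = (0 : ℝ) ∧
        inner ℝ v' (γ (g i v')) = (0 : ℝ))}.Infinite := by
      have key : ∀ u : E, inner ℝ u (γ v) ≠ (0 : ℝ) →
          {i : ℕ | inner ℝ u (γ (g i v')) ≠ (0 : ℝ)}.Infinite := by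
        intro u hu
        have e1 : ¬((inner ℝ u (γ v') : ℝ) = 0 ∧ (inner ℝ u (γ η) : ℝ) = 0 ∧
            (inner ℝ q η : ℝ) / 2 * (inner ℝ u (γ v) : ℝ) = 0) := by
          rintro ⟨-, -, f3⟩
          exact hu ((mul_eq_zero.1 f3).resolve_left hc)
        refine (inf_quad e1).mono ?_
        intro i hi
        simp only [Set.mem_ofPred_eq] at hi ⊢
        rw [h8, map_add, map_add, map_smul, map_smul, inner_add_right, inner_add_right,
          inner_smul_right, inner_smul_right]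
        intro h0
        apply hi
        rw [← h0]
        ring
      by_cases hv : inner ℝ v (γ v) = (0 : ℝ)
      · refine (key v' (fun h0 => hne ⟨hv, h0⟩)).mono ?_
        intro i hi hi'
        exact hi hi'.2
      · refine (key v hv).mono ?_
        intro i hi hi'
        exact hi hi'.1
    have key : ∀ y, (pj (ContinuousLinearMap.id ℝ E) (γ : E →L[ℝ] E) (b' γ)).1 y = 0 := by
      intro y
      refine van_curve _ _ _ hli 0 _ _ hI ?_ y rfl
      intro i hi z _ hz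
      rw [hxi] at hz
      rw [pj_apply]
      refine H2 γ hγ i hi (γ z) ?_
      have e1 : (γ⁻¹ : GE E) (γ z) = z := γ.symm_apply_apply z
      rw [e1]
      exact hz
    ext x
    have e1 := key ((γ⁻¹ : GE E) x)
    rw [pj_apply] at e1
    have e2 : (γ : E →L[ℝ] E) ((γ⁻¹ : GE E) x) = x := γ.apply_symm_apply x
    rw [e2] at e1
    exact e1
  -- (4)
  have H4 : ∀ γ ∈ G, b' γ = 0 := by
    intro γ hγ
    by_cases hne : inner ℝ v (γ v) = (0 : ℝ) ∧ inner ℝ v' (γ v) = (0 : ℝ)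
    · have hz : γ v ≠ 0 := by
        intro h0
        have : v = 0 := by
          apply γ.injective
          rw [h0, map_zero]
        rw [this, inner_zero_left] at nv
        exact zero_ne_one nv
      obtain ⟨h', hG, e1, e2⟩ := h.mov (γ v) hz hne.1 hne.2
      have f1 : b' h' = 0 := H3 h' hG (by
        rw [e2, nv]
        exact fun h0 => one_ne_zero h0.1)
      have f2 : b' (h' * γ) = 0 := H3 (h' * γ) (G.mul_mem hG hγ) (fun h0 => e1 h0.1)
      rw [hcoc h' hG γ hγ, f1, zero_add] at f2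
      have f3 : pi k h'⁻¹ (pi k h' (b' γ)) = b' γ := by
        rw [← Module.End.mul_apply, ← map_mul, inv_mul_cancel, map_one, Module.End.one_apply]
      rw [← f3, f2, map_zero]
    · exact H3 γ hγ hne
  refine ⟨p, fun γ hγ => ?_⟩
  have e1 := H4 γ hγ
  rw [hb', sub_eq_zero] at e1
  exact e1

end
end LatLin
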