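import Pool.Agent.Lib.MP_2392aa_gt.O.PairO
import Pool.Agent.Lib.MP_2392aa_gt.O.CurvO
import Pool.Agent.Lib.MP_2392aa_gt.O.Main1

/-!
MP_2392aa_gt, outer type, module GlueO (about 200 lines): rank one, assembly.

PROOF of `oglue_of`. `kl`: `fixU_kl` with `v, v'` exchanged. `cj`: an element of `S'` is `te a`, `a ∈ uO (ro v' v') (ro
v v) = uu v' v` (`uO_uu`), `a³ = 0` (`uO_N3`, `pp_ro`), and `g (te a) g⁻¹ = te (g a g⁻¹)` (`te_conj`) is in `G` and, by
the assumption on `g`, in `tes`. `pair`: `pair_tor`. `curve`: `curve_O`. `mov`: let `n`, `c` be the lattice data of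
`hL`, `u = uu v v'`. `ro y v ∈ u` (`ro_mem_uu` with `η = 0`) and `⟪v, ro y v y⟫ = ‖y‖² ≠ 0`, so, as `u` is the real span
of the `c i`, there is `i` with `⟪v, c i y⟫ ≠ 0`. Put `h := te (c i) ∈ G`. `c i v = 0`, so `h v = v`. `⟪v', y⟫ = 0`, so
`c i y` is a multiple of `v`, `c i (c i y) = 0` and `h y = y + c i y`, `⟪v, h y⟫ = ⟪v, c i y⟫ ≠ 0`.
PROOF of `fl_O1aux`: `tor_std` gives `t ∈ G` and `Std v v' lam mu t`; then `Std v' v lam mu t` (symmetric); `fixU`
with `v, v'` exchanged gives `w'` with `Triv b w'` on `S' = G ∩ tes (uO (ro v' v') (ro v v))`, and `glue_main`.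
PROOF of `noinv_O1aux`: by `fixU_kl` twice `w ∈ kil (uu v v') ∩ kil (uu v' v)`; `kilU_opp` (a vector `y ≠ 0`
orthogonal to `v, v'` exists since `3 ≤ n`).
-/

open scoped ContDiff Topology
open MulOpposite

namespace LatLin

section
variable {E : Type*} [NormedAddCommGroup E] [InnerProductSpace ℝ E] [FiniteDimensional ℝ E]
  {O : Subring (DE E)} {k : ℕ}

private theorem exists_orth (hn : 3 ≤ Module.finrank ℝ E) (v v' : E) :
    ∃ y : E, y ≠ 0 ∧ inner ℝ v y = (0 : ℝ) ∧ inner ℝ v' y = (0 : ℝ) := by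
  classical
  have hK : Module.finrank ℝ (Submodule.span ℝ (({v, v'} : Finset E) : Set E)) ≤ 2 :=
    (finrank_span_finset_le_card _).trans Finset.card_le_two
  have hne : (Submodule.span ℝ (({v, v'} : Finset E) : Set E))ᗮ ≠ ⊥ := by
    intro h0
    have h1 := Submodule.finrank_add_finrank_orthogonal
      (Submodule.span ℝ (({v, v'} : Finset E) : Set E))
    rw [h0, finrank_bot] at h1
    omega
  obtain ⟨y, hy, hy0⟩ := Submodule.exists_mem_ne_zero_of_ne_bot hne
  refine ⟨y, hy0, ?_, ?_⟩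
  · exact Submodule.inner_right_of_mem_orthogonal (Submodule.subset_span (by simp)) hy
  · exact Submodule.inner_right_of_mem_orthogonal (Submodule.subset_span (by simp)) hy

theorem oglue_of {v v' : E} (hv : ‖v‖ = 1) (hv' : ‖v'‖ = 1) (ho : inner ℝ v v' = (0 : ℝ))
    (h : OD O (ro v v) (ro v' v')) (hn : 3 ≤ Module.finrank ℝ E) {G : Subgroup (GE E)}
    (hG : G ∈ CCO O) (hL : Lat2 G (uO (ro v v) (ro v' v')))
    (hL' : Lat2 G (uO (ro v' v') (ro v v))) :
    OGlue G v v' {g | g ∈ G ∧ g ∈ tes (uO (ro v' v') (ro v v))} := by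
  have ho' : inner ℝ v' v = (0 : ℝ) := by
    rw [real_inner_comm]
    exact ho
  have hpp' : PP (ro v' v') (ro v v) := pp_ro hv' hv ho'
  have hpp : PP (ro v v) (ro v' v') := pp_ro hv hv' ho
  have hN : N3 (uO (ro v' v') (ro v v)) := uO_N3 hpp'
  have hu : uO (ro v' v') (ro v v) = uu v' v := uO_uu hv' hv ho'
  refine ⟨hv, hv', ho, fun s hs => hs.1, fun k w hw => fixU_kl hv' hv ho' G hL' w hw, ?_,
    fun γ hγ hne => pair_tor hv hv' ho h hn hG γ hγ hne, curve_O hv hv' ho h hn hG, ?_⟩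
  · rintro g hg hc s ⟨hs, a, ha, rfl⟩
    refine ⟨G.mul_mem (G.mul_mem hg hs) (G.inv_mem hg), _, ?_,
      te_conj g (hN.cube a ha a ha a ha)⟩
    rw [hu] at ha ⊢
    exact hc a ha
  · intro y hy hvy hv'y
    obtain ⟨n, c, -, hspan, hG', -, -⟩ := hL
    have huu : uO (ro v v) (ro v' v') = uu v v' := uO_uu hv hv' ho
    have hmem : ro y v + ro v' 0 ∈ uu v v' :=
      ro_mem_uu hv hv' ho hvy (inner_zero_right v')
    have hex : ∃ i, inner ℝ v (c i y) ≠ (0 : ℝ) := by
      by_contra hcon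
      have hcon' : ∀ i, inner ℝ v (c i y) = (0 : ℝ) := fun i => by
        by_contra hi
        exact hcon ⟨i, hi⟩
      have hz : ∀ a ∈ uO (ro v v) (ro v' v'), inner ℝ v (a y) = (0 : ℝ) := by
        intro a ha
        rw [← hspan] at ha
        induction ha using Submodule.span_induction with
        | mem x hx =>
          obtain ⟨i, rfl⟩ := hx
          exact hcon' i
        | zero => exact inner_zero_right v
        | add a b _ _ h1 h2 =>
          rw [add_apply, inner_add_right, h1, h2, add_zero]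
        | smul r a _ h1 =>
          rw [smul_apply, inner_smul_right, h1, mul_zero]
      rw [huu] at hz
      have h1 := hz _ hmem
      rw [add_apply, ro_apply, ro_apply, smul_zero, add_zero,
        inner_smul_right, real_inner_self_eq_norm_sq, real_inner_self_eq_norm_sq, hv] at h1
      have h2 : ‖y‖ ≠ 0 := norm_ne_zero_iff.2 hy
      have h3 : ‖y‖ ^ 2 ≠ 0 := pow_ne_zero 2 h2
      apply h3
      linarith
    obtain ⟨i, hi⟩ := hex
    have hci : c i ∈ uO (ro v v) (ro v' v') := by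
      rw [← hspan]
      exact Submodule.subset_span ⟨i, rfl⟩
    have hci' : c i ∈ uu v v' := by
      rw [← huu]
      exact hci
    obtain ⟨a1, a2, a3⟩ := hci'
    have hcube := (uO_N3 hpp).cube _ hci _ hci _ hci
    refine ⟨te (c i), hG' _ (Submodule.subset_span ⟨i, rfl⟩), ?_, ?_⟩
    · have h1 : c i (c i y) = 0 := by
        rw [a3 y hv'y, map_smul, a1, smul_zero]
      rw [te_apply hcube, h1, smul_zero, add_zero, inner_add_right, hvy, zero_add]
      exact hi
    · rw [te_apply hcube, a1, map_zero, smul_zero, add_zero, add_zero]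

theorem fl_O1aux {v v' : E} (hv : ‖v‖ = 1) (hv' : ‖v'‖ = 1) (ho : inner ℝ v v' = (0 : ℝ))
    (h : OD O (ro v v) (ro v' v')) (hn : 3 ≤ Module.finrank ℝ E) {G : Subgroup (GE E)}
    (hG : G ∈ CCO O) (hL : Lat2 G (uO (ro v v) (ro v' v')))
    (hL' : Lat2 G (uO (ro v' v') (ro v v))) (hk : 2 ≤ k) (b : GE E → HM E k)
    (hb : IsCoc G b) : ∃ w : HM E k, Triv b w (G : Set (GE E)) := by
  have ho' : inner ℝ v' v = (0 : ℝ) := by
    rw [real_inner_comm]
    exact ho
  obtain ⟨t, ht, lam, mu, hs⟩ := tor_std hv hv' ho h hn hG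
  obtain ⟨y, h1, h2, h3⟩ := hs.big
  have hs' : Std v' v lam mu t :=
    ⟨hv', hv, ho', hs.l1, hs.m0, hs.m1, hs.tv', hs.tv, fun y h1 h2 => hs.tN y h2 h1,
      ⟨y, h1, h3, h2⟩⟩
  obtain ⟨w', hw'⟩ := fixU (le_trans one_le_two hk) hs' G ht b hb hL'
  exact glue_main hk (oglue_of hv hv' ho h hn hG hL hL') b hb w' hw'

theorem noinv_O1aux {v v' : E} (hv : ‖v‖ = 1) (hv' : ‖v'‖ = 1) (ho : inner ℝ v v' = (0 : ℝ))
    (hn : 3 ≤ Module.finrank ℝ E) {G : Subgroup (GE E)}
    (hL : Lat2 G (uO (ro v v) (ro v' v')))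
    (hL' : Lat2 G (uO (ro v' v') (ro v v))) (hk : 2 ≤ k) (w : HM E k)
    (hw : ∀ g ∈ G, pi k g w = w) : w = 0 := by
  have ho' : inner ℝ v' v = (0 : ℝ) := by
    rw [real_inner_comm]
    exact ho
  have h1 := fixU_kl hv hv' ho G hL w (fun s hs => hw s hs.1)
  have h2 := fixU_kl hv' hv ho' G hL' w (fun s hs => hw s hs.1)
  exact kilU_opp hv hv' ho (exists_orth hn v v') hk w h1 h2

end
end LatLin
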