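import Pool.Agent.Lib.MP_2392aa_gt.O.SchO
import Pool.Agent.Lib.MP_2392aa_gt.O.GlueO
import Pool.Agent.Lib.MP_2392aa_gt.O.UnipO
import Pool.Agent.Lib.MP_2392aa_gt.L.ToForm
import Pool.Agent.Lib.MP_2392aa_gt.C.FinDef

/-!
MP_2392aa_gt, formal linearization, outer type: assembly (helper69).
-/

open scoped ContDiff Topology
open MulOpposite
open LatN (En DM OutO unitO)

namespace LatLin

section
variable {E : Type*} [NormedAddCommGroup E] [InnerProductSpace ℝ E] [FiniteDimensional ℝ E]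

/-- an orthogonal projection of rank one -/
private theorem rank_one {e : E →L[ℝ] E} (he : IsPr e)
    (hr : Module.finrank ℝ (LinearMap.range (e : E →ₗ[ℝ] E)) = 1) :
    ∃ v : E, ‖v‖ = 1 ∧ e = ro v v := by
  obtain ⟨v0, hv0⟩ := finrank_eq_one_iff'.1 hr
  obtain ⟨hne, hall⟩ := hv0
  have hne' : (v0 : E) ≠ 0 := fun h => hne (Subtype.ext h)
  have hn : ‖(v0 : E)‖ ≠ 0 := norm_ne_zero_iff.2 hne'
  set v : E := ‖(v0 : E)‖⁻¹ • (v0 : E) with hv
  have hv1 : ‖v‖ = 1 := by
    rw [hv, norm_smul, norm_inv, norm_norm, inv_mul_cancel₀ hn]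
  have hev0 : e (v0 : E) = v0 := by
    obtain ⟨y, hy⟩ := v0.2
    have hy' : e y = (v0 : E) := hy
    rw [← hy', he.idem]
  have hev : e v = v := by rw [hv, map_smul, hev0]
  refine ⟨v, hv1, ?_⟩
  ext x
  obtain ⟨c, hc⟩ := hall ⟨e x, ⟨x, rfl⟩⟩
  have hc' : e x = c • (v0 : E) := (congrArg Subtype.val hc).symm
  have hcv : e x = (c * ‖(v0 : E)‖) • v := by
    rw [hc', hv, smul_smul, mul_assoc, mul_inv_cancel₀ hn, mul_one]
  have h1 : (inner ℝ v x : ℝ) = c * ‖(v0 : E)‖ := by
    have h2 : (inner ℝ v x : ℝ) = inner ℝ v (e x) := by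
      rw [← he.sym, hev]
    rw [h2, hcv, real_inner_smul_right, real_inner_self_eq_norm_sq, hv1]
    ring
  rw [ro_apply, h1, hcv]

/-- an orthogonal projection of rank at least two -/
private theorem big_of {e : E →L[ℝ] E} (he : IsPr e)
    (hr : 2 ≤ Module.finrank ℝ (LinearMap.range (e : E →ₗ[ℝ] E))) : Big e := by
  intro v
  set R := LinearMap.range (e : E →ₗ[ℝ] E) with hR
  let f : R →ₗ[ℝ] ℝ := (innerSL ℝ v : E →L[ℝ] ℝ).toLinearMap ∘ₗ R.subtype
  have hker : LinearMap.ker f ≠ ⊥ := by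
    intro h0
    have hinj : Function.Injective f := LinearMap.ker_eq_bot.1 h0
    have := LinearMap.finrank_le_finrank_of_injective hinj
    rw [Module.finrank_self] at this
    omega
  obtain ⟨u, hu, hu0⟩ := Submodule.exists_mem_ne_zero_of_ne_bot hker
  refine ⟨u, ?_, fun h => hu0 (Subtype.ext h), ?_⟩
  · obtain ⟨y, hy⟩ := u.2
    have hy' : e y = (u : E) := hy
    rw [← hy', he.idem]
  · have h1 : (inner ℝ v (u : E) : ℝ) = 0 := hu
    rw [real_inner_comm]
    exact h1

end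

section
universe u
variable {E : Type u} [NormedAddCommGroup E] [InnerProductSpace ℝ E] [FiniteDimensional ℝ E]
  {O : Subring (DE E)} {e e' : E →L[ℝ] E} {k : ℕ}

/-- vanishing of the cohomology of arithmetic groups of outer type -/
theorem fl_O (hk : 2 ≤ k) (h : OD O e e') (hn : 3 ≤ Module.finrank ℝ E) {G : Subgroup (GE E)}
    (hG : G ∈ CCO O) (b : GE E → HM E k) (hb : IsCoc G b) :
    ∃ w : HM E k, Triv b w (G : Set (GE E)) := by
  have hd := corn_dim h
  by_cases h1 : Module.finrank ℝ (LinearMap.range (e : E →ₗ[ℝ] E)) = 1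
  · obtain ⟨v, hv, rfl⟩ := rank_one h.pp.pr h1
    obtain ⟨v', hv', rfl⟩ := rank_one h.pp.pr' (hd ▸ h1)
    have ho : inner ℝ v v' = (0 : ℝ) := by
      have h2 := h.pp.o v'
      have h3 : (ro v' v') v' = v' := by
        rw [ro_apply, real_inner_self_eq_norm_sq, hv', one_pow, one_smul]
      rw [h3, ro_apply] at h2
      rcases smul_eq_zero.1 h2 with h4 | h4
      · exact h4
      · rw [h4, norm_zero] at hv
        exact absurd hv (by norm_num)
    exact fl_O1aux hv hv' ho h hn hG (lat_O h hG) (lat_O h.symm hG) hk b hb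
  · have h0 : Module.finrank ℝ (LinearMap.range (e : E →ₗ[ℝ] E)) ≠ 0 := by
      intro h2
      have h3 : LinearMap.range (e : E →ₗ[ℝ] E) = ⊥ := Submodule.finrank_eq_zero.1 h2
      apply h.ne
      ext x
      have h4 : e x ∈ LinearMap.range (e : E →ₗ[ℝ] E) := ⟨x, rfl⟩
      rw [h3, Submodule.mem_bot] at h4
      rw [h4]
      rfl
    have h2 : 2 ≤ Module.finrank ℝ (LinearMap.range (e : E →ₗ[ℝ] E)) := by omega
    exact fl_O2 hk h (big_of h.pp.pr h2) (big_of h.pp.pr' (hd ▸ h2)) hG b hb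

end

section
variable {ν : Type*} [Fintype ν] [DecidableEq ν] {O' : Subring (DM ν)}

/-- conjugation by `L` -/
private noncomputable def cjHom (L : GE (En ν))
    (G1 : Subgroup (Matrix.SpecialLinearGroup ν ℝ)) : G1 →* cjG L⁻¹ (G1.map (slG ν)) where
  toFun g := ⟨L * slG ν g.1 * L⁻¹, by
    rw [mem_cjG]
    have h : L⁻¹ * (L * slG ν g.1 * L⁻¹) * (L⁻¹)⁻¹ = slG ν g.1 := by group
    rw [h]
    exact ⟨g.1, g.2, rfl⟩⟩
  map_one' := by
    apply Subtype.ext
    change L * slG ν 1 * L⁻¹ = 1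
    rw [map_one]
    group
  map_mul' a c := by
    apply Subtype.ext
    change L * slG ν (a.1 * c.1) * L⁻¹ = (L * slG ν a.1 * L⁻¹) * (L * slG ν c.1 * L⁻¹)
    rw [map_mul]
    group

private theorem cjHom_bij (L : GE (En ν)) (hi : Function.Injective (slG ν))
    (G1 : Subgroup (Matrix.SpecialLinearGroup ν ℝ)) : Function.Bijective (cjHom L G1) := by
  constructor
  · intro a c hac
    have h1 : L * slG ν a.1 * L⁻¹ = L * slG ν c.1 * L⁻¹ := congrArg Subtype.val hac
    exact Subtype.ext (hi (mul_left_cancel (mul_right_cancel h1)))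
  · rintro ⟨g, hg⟩
    obtain ⟨a, ha, hag⟩ := mem_cjG.1 hg
    refine ⟨⟨a, ha⟩, ?_⟩
    apply Subtype.ext
    change L * slG ν a * L⁻¹ = g
    rw [hag]
    group

private theorem sl_inj : Function.Injective (slG ν) := by
  intro a b h
  apply Subtype.ext
  have h1 : om a.1 = om b.1 := by
    ext x : 1
    have h2 := congrArg (fun g : GE (En ν) => g x) h
    exact h2
  exact (Matrix.toEuclideanCLM (n := ν) (𝕜 := ℝ)).injective h1

/-- formal linearization for the arithmetic groups of outer type which contain a nontrivial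
unipotent element -/
theorem fl_unitO (hn : 3 ≤ Fintype.card ν) (hO : OutO ν O') {g : Matrix.SpecialLinearGroup ν ℝ}
    (hg : g ∈ unitO O') (hg1 : g ≠ 1) (hgn : IsNilpotent (g.1 - 1))
    (G1 : Subgroup (Matrix.SpecialLinearGroup ν ℝ)) (h1 : G1 ≤ unitO O')
    (h2 : G1.relIndex (unitO O') ≠ 0) : FormLin (stdR G1) ∧ NoInv (stdR G1) := by
  obtain ⟨O, e, e', L, hOD, hcc⟩ := unip_O hO hg hg1 hgn
  have hG := hcc G1 h1 h2
  have hn' : 3 ≤ Module.finrank ℝ (En ν) := by
    rw [finrank_euclideanSpace]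
    exact hn
  let f : G1 ≃* cjG L⁻¹ (G1.map (slG ν)) := MulEquiv.ofBijective _ (cjHom_bij L sl_inj G1)
  have hL : ∀ (γ : G1) (x : En ν), L (stdR G1 γ x) =
      (cjG L⁻¹ (G1.map (slG ν))).subtype (f γ) (L x) := by
    intro γ x
    change L (slG ν γ.1 x) = L (slG ν γ.1 (L.symm (L x)))
    rw [L.symm_apply_apply]
  exact ⟨formLin_transport L f (stdR G1) _ hL
      (formLin_of _ fun k hk b hb => fl_O hk hOD hn' hG b hb),
    noInv_transport L f (stdR G1) _ hL
      (noInv_of _ fun k hk w hw => noinv_O hk hOD hG w hw)⟩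

end
end LatLin
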