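import Pool.Agent.Lib.MP_2392aa_gt.O.Te
import Pool.Agent.Lib.MP_2392aa_gt.L.Inv

/-!
MP_2392aa_gt, formal linearization, outer type, module InvO (about 260 lines): invariants.

Write `x = v + y + v'`, `v = e x`, `v' = e' x`, `y = mid x`; `v'` etc. in the ranges.
`inv_O2`: `hw` says (as `pi k (tv q u) w = w`) `w (x + ⟪q, x⟫ u) = w x + ⟪q, w x⟫ u` for `⟪q, u⟫ = 0`, `q, u` both in
`V` or both in `V'`. So, as in `inv_blocks` of L/Inv (transitivity of the transvections on the nonzero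
vectors of `V`, `dim V ≥ 2`): the components `mid (w x)` and `e' (w x)` do not depend on `v`, and
`e (w x) = c • v` with `c` depending on `y`, `v'` only; the same with `V` and `V'` exchanged. So
`e (w x) = f(y) v`, `mid (w x) = g(y)`, `e' (w x) = f'(y) v'`, first for `v, v' ≠ 0`, then everywhere by
continuity. `g(y) = mid (w y)` is smooth and homogeneous of degree `k`; with a unit vector `v0 ∈ V`:
`f(y) = ⟪v0, w (v0 + y)⟫` is smooth and `f(t y) = t ^ (k - 1) f(y)` for `t ≠ 0` (since `w (t v0 + t y) =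
t ^ k w (v0 + y)` and `e (w (t v0 + t y)) = f(t y) t v0`).
First case (`hN`: `e x + e' x = x` for all `x`, i.e. `N = 0`): `f = f(0) = 0` because `f(t 0) = t ^ (k-1) f(0)`,
`k ≥ 2`; so `w = 0`. Second case: `pi k (sc e e' α β) w = w` says `w (α v + β y + α v') =
α e (w x) + β mid (w x) + α e' (w x)`, so `f(β y) α v = α f(y) v`, `f(β y) = f(y)`, `f(y) = f(β ^ m y) → f(0) = 0`
(`0 < β < 1`, continuity); and `β ^ k g(y) = g(β y) = β g(y)`, `g = 0` as `β ^ k ≠ β`.
`inv_tau`: for `v' ≠ 0` in the range of `e'` and `z ∈ V + N` (`e' z = 0`): `a := ‖v'‖⁻² • ro v' z ∈ uS e'`, so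
`xd a w = 0`, `pi k (tw a) w = w` (`pi_of_xd`), i.e. `w (v' + z) = w v' + a (w v')`. And
`sc e e' α β v' = α v'` with `α := A ^ p > 1`, `β := (A ^ q)⁻¹ < 1`: `α ^ k w v' = w (α v') = α e (w v') +
β mid (w v') + α e' (w v')`; as `α ^ k ≠ α` and `α ^ k > 1 > β`: `w v' = 0`. So `w (v' + z) = 0` whenever
`v' ≠ 0`; these points are dense (`e' ≠ 0`), `w` is continuous.
`inv_opp`: `kil k (uO e e')` is contained in `kil k (uT e)`, and `kil k (uO e' e)` in `kil k (uS e)`
(`kil_uO`); `inv_TS`.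
-/

open scoped ContDiff Topology

namespace LatLin

section aux
variable {E : Type*} [NormedAddCommGroup E] [InnerProductSpace ℝ E] {k : ℕ}

/-- transitivity of the transvections on pairs which are not proportional -/
private theorem io_trans_pair {e : E →L[ℝ] E} {z z' : E} (hz : e z = z)
    (hz' : e z' = z') (hz0 : z ≠ 0) (hne : ∀ a : ℝ, z' ≠ a • z) :
    ∃ q u : E, inner ℝ q u = (0 : ℝ) ∧ e q = q ∧ e u = u ∧ z + (inner ℝ q z : ℝ) • u = z' := by
  set a : ℝ := inner ℝ z z' / inner ℝ z z with ha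
  set w : E := z' - a • z with hw
  have hzz : (inner ℝ z z : ℝ) ≠ 0 := fun h => hz0 (inner_self_eq_zero.1 h)
  have hw0 : w ≠ 0 := fun h => hne a (sub_eq_zero.1 h)
  have hww : (inner ℝ w w : ℝ) ≠ 0 := fun h => hw0 (inner_self_eq_zero.1 h)
  have hzw : (inner ℝ z w : ℝ) = 0 := by
    rw [hw, inner_sub_right, inner_smul_right, ha, div_mul_cancel₀ _ hzz, sub_self]
  have hwz : (inner ℝ w z : ℝ) = 0 := by rw [real_inner_comm, hzw]
  have hz'e : z' = a • z + w := by rw [hw]; abel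
  have hew : e w = w := by rw [hw, map_sub, map_smul, hz, hz']
  have h1 : (inner ℝ ((inner ℝ z z : ℝ)⁻¹ • z + ((1 - a) * (inner ℝ w w : ℝ)⁻¹) • w) z : ℝ) = 1 := by
    rw [inner_add_left, real_inner_smul_left, real_inner_smul_left, hwz, mul_zero, add_zero,
      inv_mul_cancel₀ hzz]
  have h2 : (inner ℝ ((inner ℝ z z : ℝ)⁻¹ • z + ((1 - a) * (inner ℝ w w : ℝ)⁻¹) • w) z' : ℝ) = 1 := by
    rw [hz'e, inner_add_right, inner_smul_right, h1, inner_add_left, real_inner_smul_left,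
      real_inner_smul_left, hzw, mul_zero, zero_add, mul_assoc, inv_mul_cancel₀ hww]
    ring
  refine ⟨(inner ℝ z z : ℝ)⁻¹ • z + ((1 - a) * (inner ℝ w w : ℝ)⁻¹) • w, z' - z, ?_, ?_, ?_, ?_⟩
  · rw [inner_sub_right, h1, h2, sub_self]
  · rw [map_add, map_smul, map_smul, hz, hew]
  · rw [map_sub, hz, hz']
  · rw [h1, one_smul]
    abel

/-- a function invariant under transvections is constant off zero -/
private theorem io_f1 {X : Type*} {e : E →L[ℝ] E} (hbig : Big e) (h : E → X)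
    (hinv : ∀ q u z : E, inner ℝ q u = (0 : ℝ) → e q = q → e u = u → e z = z →
      h (z + (inner ℝ q z : ℝ) • u) = h z) {z z' : E} (hz : e z = z) (hz' : e z' = z')
    (hz0 : z ≠ 0) (hz0' : z' ≠ 0) : h z = h z' := by
  by_cases hne : ∀ a : ℝ, z' ≠ a • z
  · obtain ⟨q, u, hqu, hq, hu, hzz⟩ := io_trans_pair hz hz' hz0 hne
    rw [← hzz, hinv q u z hqu hq hu hz]
  · push Not at hne
    obtain ⟨a, rfl⟩ := hne
    have ha : a ≠ 0 := fun h => hz0' (by rw [h, zero_smul])
    obtain ⟨w, hw, hw0, hwz⟩ := hbig z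
    have h1 : ∀ b : ℝ, w ≠ b • z := by
      intro b hb
      rw [hb, real_inner_smul_left] at hwz
      have hzz : (inner ℝ z z : ℝ) ≠ 0 := fun h => hz0 (inner_self_eq_zero.1 h)
      rcases mul_eq_zero.1 hwz with hb0 | h0
      · exact hw0 (by rw [hb, hb0, zero_smul])
      · exact hzz h0
    have h2 : ∀ b : ℝ, w ≠ b • (a • z) := by
      intro b hb
      rw [smul_smul] at hb
      exact h1 _ hb
    obtain ⟨q, u, hqu, hq, hu, hzz⟩ := io_trans_pair hz hw hz0 h1
    obtain ⟨q', u', hqu', hq', hu', hzz'⟩ := io_trans_pair hz' hw hz0' h2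
    rw [← hinv q u z hqu hq hu hz, hzz, ← hzz', hinv q' u' _ hqu' hq' hu' hz']

/-- an equivariant map is a scalar off zero -/
private theorem io_f2 {e : E →L[ℝ] E} (hbig : Big e) (r : E → E)
    (hr : ∀ q u z : E, inner ℝ q u = (0 : ℝ) → e q = q → e u = u → e z = z →
      r (z + (inner ℝ q z : ℝ) • u) = r z + (inner ℝ q (r z) : ℝ) • u)
    (hV : ∀ z, e z = z → e (r z) = r z) : ∃ c : ℝ, ∀ z, e z = z → z ≠ 0 → r z = c • z := by
  have h1 : ∀ z, e z = z → z ≠ 0 → r z = (inner ℝ z (r z) / inner ℝ z z : ℝ) • z := by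
    intro z hz hz0
    have hzz : (inner ℝ z z : ℝ) ≠ 0 := fun h => hz0 (inner_self_eq_zero.1 h)
    set c : ℝ := inner ℝ z (r z) / inner ℝ z z with hc
    have hq1 : (inner ℝ (r z - c • z) z : ℝ) = 0 := by
      rw [inner_sub_left, real_inner_smul_left, hc, div_mul_cancel₀ _ hzz, real_inner_comm, sub_self]
    have hq2 : e (r z - c • z) = r z - c • z := by
      rw [map_sub, map_smul, hz, hV z hz]
    have h2 := hr (r z - c • z) z z hq1 hq2 hz hz
    rw [hq1, zero_smul, add_zero] at h2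
    have h3 : (inner ℝ (r z - c • z) (r z) : ℝ) • z = 0 := by
      have := h2.symm
      rwa [add_eq_left] at this
    have h4 : (inner ℝ (r z - c • z) (r z) : ℝ) = 0 := (smul_eq_zero.1 h3).resolve_right hz0
    have h5 : (inner ℝ (r z - c • z) (r z - c • z) : ℝ) = 0 := by
      rw [inner_sub_right, inner_smul_right, h4, hq1, mul_zero, sub_zero]
    exact sub_eq_zero.1 (inner_self_eq_zero.1 h5)
  obtain ⟨z0, hz0, hz00, -⟩ := hbig 0
  refine ⟨inner ℝ z0 (r z0) / inner ℝ z0 z0, fun z hz hzne => ?_⟩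
  have h2 : (inner ℝ z (r z) / inner ℝ z z : ℝ) = inner ℝ z0 (r z0) / inner ℝ z0 z0 := by
    refine io_f1 hbig (fun z => (inner ℝ z (r z) / inner ℝ z z : ℝ)) ?_ hz hz0 hzne hz00
    intro q u z hqu hq hu hz
    by_cases hzz0 : z = 0
    · rw [hzz0, inner_zero_right, zero_smul, add_zero]
    have hl : z + (inner ℝ q z : ℝ) • u ≠ 0 := by
      intro h
      have h3 : (inner ℝ q (z + (inner ℝ q z : ℝ) • u) : ℝ) = inner ℝ q z := by
        rw [inner_add_right, inner_smul_right, hqu, mul_zero, add_zero]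
      rw [h, inner_zero_right] at h3
      rw [← h3, zero_smul, add_zero] at h
      exact hzz0 h
    have hll : (inner ℝ (z + (inner ℝ q z : ℝ) • u) (z + (inner ℝ q z : ℝ) • u) : ℝ) ≠ 0 :=
      fun h => hl (inner_self_eq_zero.1 h)
    have h3 := hr q u z hqu hq hu hz
    have h4 := h1 z hz hzz0
    set c : ℝ := inner ℝ z (r z) / inner ℝ z z with hc
    have h5 : r (z + (inner ℝ q z : ℝ) • u) = c • (z + (inner ℝ q z : ℝ) • u) := by
      rw [h3, h4, inner_smul_right, smul_add, smul_smul]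
    show (inner ℝ (z + (inner ℝ q z : ℝ) • u) (r (z + (inner ℝ q z : ℝ) • u)) /
      inner ℝ (z + (inner ℝ q z : ℝ) • u) (z + (inner ℝ q z : ℝ) • u) : ℝ) = c
    rw [h5, inner_smul_right, mul_div_assoc, div_self hll, mul_one]
  rw [h1 z hz hzne, h2]

omit [InnerProductSpace ℝ E] in
private theorem io_limit {g : ℝ → E} (hg : Continuous g) {c : E} (h : ∀ t : ℝ, t ≠ 0 → g t = c) :
    g 0 = c := by
  have h1 : Filter.Tendsto g (𝓝[≠] (0 : ℝ)) (𝓝 (g 0)) :=
    (hg.tendsto 0).mono_left nhdsWithin_le_nhds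
  have h2 : Filter.Tendsto g (𝓝[≠] (0 : ℝ)) (𝓝 c) := by
    refine tendsto_const_nhds.congr' ?_
    filter_upwards [self_mem_nhdsWithin] with t ht
    exact (h t ht).symm
  exact tendsto_nhds_unique h1 h2

private theorem io_cont (p : HM E k) : Continuous p.1 := p.2.1.continuous

/-- invariance under `1 + a` -/
private theorem io_tw {a : E →L[ℝ] E} (ha : a ∘L a = 0) (w : HM E k) (hw : pi k (tw a) w = w)
    (x : E) : w.1 (x + a x) = w.1 x + a (w.1 x) := by
  have h1 : (pi k (tw a) w).1 (x + a x) = w.1 (x + a x) := by rw [hw]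
  have h2 : a (a x) = 0 := by simpa using congrArg (fun f => f x) ha
  rw [← h1, pi_apply, tw_inv_apply ha, map_add, h2, add_zero, add_sub_cancel_right, tw_apply ha]

private theorem io_tv {q u : E} (h : inner ℝ q u = (0 : ℝ)) (w : HM E k)
    (hw : pi k (tv q u) w = w) (x : E) :
    w.1 (x + (inner ℝ q x : ℝ) • u) = w.1 x + (inner ℝ q (w.1 x) : ℝ) • u := by
  have h1 := io_tw (ro_sq h) w hw x
  rw [ro_apply, ro_apply] at h1
  exact h1

private theorem io_zero (hk : 2 ≤ k) (w : HM E k) : w.1 0 = 0 := by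
  have h1 := w.2.2 0 0
  rwa [zero_smul, zero_pow (by omega), zero_smul] at h1

end aux

section aux2
variable {E : Type*} [NormedAddCommGroup E] [InnerProductSpace ℝ E] {k : ℕ}

private theorem io_pow_ne {k : ℕ} (hk : 2 ≤ k) {t : ℝ} (ht : 0 < t) (ht1 : t ≠ 1) : t ^ k ≠ t := by
  obtain ⟨j, rfl⟩ : ∃ j, k = j + 1 := ⟨k - 1, by omega⟩
  intro h
  rw [pow_succ] at h
  have h1 : (t ^ j - 1) * t = 0 := by rw [sub_mul, h, one_mul, sub_self]
  have h2 := (mul_eq_zero.1 h1).resolve_right ht.ne'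
  have h3 : t ^ j = 1 := sub_eq_zero.1 h2
  exact ht1 ((pow_eq_one_iff_of_nonneg ht.le (by omega)).1 h3)

private theorem io_smul_eq {s t : ℝ} (hst : s ≠ t) {x : E} (h : s • x = t • x) : x = 0 := by
  have h1 : (s - t) • x = 0 := by rw [sub_smul, h, sub_self]
  exact (smul_eq_zero.1 h1).resolve_left (sub_ne_zero.2 hst)

private theorem io_equi {g : GE E} (w : HM E k) (hw : pi k g w = w) (x : E) :
    w.1 (g x) = g (w.1 x) := by
  have h1 : (pi k g w).1 (g x) = w.1 (g x) := by rw [hw]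
  have h2 : (g⁻¹ : GE E) (g x) = x := g.symm_apply_apply x
  rw [← h1, pi_apply, h2]

/-- the components outside `V` do not depend on `e x` -/
private theorem io_A {e : E →L[ℝ] E} (he : IsPr e) (hbig : Big e) (w : HM E k)
    (hinv : ∀ q u x : E, inner ℝ q u = (0 : ℝ) → e q = q → e u = u →
      w.1 (x + (inner ℝ q x : ℝ) • u) = w.1 x + (inner ℝ q (w.1 x) : ℝ) • u)
    (P : E →L[ℝ] E) (hP : ∀ x, P (e x) = 0) (x : E) : P (w.1 x) = P (w.1 (x - e x)) := by
  have hr : e (x - e x) = 0 := by rw [map_sub, he.idem, sub_self]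
  have hqr : ∀ q, e q = q → (inner ℝ q (x - e x) : ℝ) = 0 := by
    intro q hq
    rw [← hq, he.sym, hr, inner_zero_right]
  have hconst : ∀ {z z' : E}, e z = z → e z' = z' → z ≠ 0 → z' ≠ 0 →
      P (w.1 (z + (x - e x))) = P (w.1 (z' + (x - e x))) := by
    intro z z' hz hz' hz0 hz0'
    refine io_f1 hbig (fun z => P (w.1 (z + (x - e x)))) ?_ hz hz' hz0 hz0'
    intro q u y hqu hq hu hy
    have h1 := hinv q u (y + (x - e x)) hqu hq hu
    have h2 : (inner ℝ q (y + (x - e x)) : ℝ) = inner ℝ q y := by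
      rw [inner_add_right, hqr q hq, add_zero]
    rw [h2] at h1
    show P (w.1 (y + (inner ℝ q y : ℝ) • u + (x - e x))) = P (w.1 (y + (x - e x)))
    have h3 : y + (inner ℝ q y : ℝ) • u + (x - e x) = y + (x - e x) + (inner ℝ q y : ℝ) • u := by
      abel
    rw [h3, h1, map_add, map_smul, ← hu, hP, smul_zero, add_zero]
  have hcw := io_cont w
  have hx : x = e x + (x - e x) := by abel
  by_cases h0 : e x = 0
  · rw [h0, sub_zero]
  · have hcont : Continuous fun s : ℝ => P (w.1 (s • e x + (x - e x))) := by fun_prop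
    have h3 := io_limit hcont (c := P (w.1 (e x + (x - e x)))) (fun s hs =>
      hconst (by rw [map_smul, he.idem]) (he.idem x) (smul_ne_zero hs h0) h0)
    rw [zero_smul, zero_add, ← hx] at h3
    exact h3.symm

/-- the component in `V` is linear in `e x` -/
private theorem io_C {e : E →L[ℝ] E} (he : IsPr e) (hbig : Big e) (w : HM E k)
    (hinv : ∀ q u x : E, inner ℝ q u = (0 : ℝ) → e q = q → e u = u →
      w.1 (x + (inner ℝ q x : ℝ) • u) = w.1 x + (inner ℝ q (w.1 x) : ℝ) • u)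
    (r : E) (hr : e r = 0) : ∃ c : ℝ, ∀ z, e z = z → e (w.1 (z + r)) = c • z := by
  have hqr : ∀ q, e q = q → (inner ℝ q r : ℝ) = 0 := by
    intro q hq
    rw [← hq, he.sym, hr, inner_zero_right]
  obtain ⟨c, hc⟩ : ∃ c : ℝ, ∀ z, e z = z → z ≠ 0 → e (w.1 (z + r)) = c • z := by
    refine io_f2 hbig (fun z => e (w.1 (z + r))) ?_ (fun z _ => he.idem _)
    intro q u z hqu hq hu hz
    have h1 := hinv q u (z + r) hqu hq hu
    have h2 : (inner ℝ q (z + r) : ℝ) = inner ℝ q z := by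
      rw [inner_add_right, hqr q hq, add_zero]
    rw [h2] at h1
    show e (w.1 (z + (inner ℝ q z : ℝ) • u + r)) =
      e (w.1 (z + r)) + (inner ℝ q (e (w.1 (z + r))) : ℝ) • u
    have h3 : z + (inner ℝ q z : ℝ) • u + r = z + r + (inner ℝ q z : ℝ) • u := by abel
    rw [h3, h1, map_add, map_smul, hu, ← he.sym, hq]
  refine ⟨c, fun z hz => ?_⟩
  by_cases hz' : z = 0
  · obtain ⟨z0, hz0, hz00, -⟩ := hbig 0
    have hcw := io_cont w
    have hcont : Continuous fun s : ℝ => e (w.1 (s • z0 + r)) - (s * c) • z0 := by fun_prop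
    have h3 := io_limit hcont (c := 0) (fun s hs => by
      rw [hc (s • z0) (by rw [map_smul, hz0]) (smul_ne_zero hs hz00), smul_smul, mul_comm,
        sub_self])
    rw [zero_smul, zero_mul, zero_smul, sub_zero] at h3
    rw [hz', h3, smul_zero]
  · exact hc z hz hz'

/-- the component in `V` vanishes -/
private theorem io_E (hk : 2 ≤ k) {e e' : E →L[ℝ] E} (h : PP e e') (hbig : Big e) (hbig' : Big e')
    (w : HM E k)
    (hinv : ∀ q u x : E, inner ℝ q u = (0 : ℝ) → e q = q → e u = u →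
      w.1 (x + (inner ℝ q x : ℝ) • u) = w.1 x + (inner ℝ q (w.1 x) : ℝ) • u)
    (hinv' : ∀ q u x : E, inner ℝ q u = (0 : ℝ) → e' q = q → e' u = u →
      w.1 (x + (inner ℝ q x : ℝ) • u) = w.1 x + (inner ℝ q (w.1 x) : ℝ) • u)
    (hN : (∀ x, e x + e' x = x) ∨
      ∃ α β : ℝ, 1 < α ∧ 0 < β ∧ β < 1 ∧ ∀ x,
        w.1 (α • (e x + e' x) + β • (x - e x - e' x)) =
          α • (e (w.1 x) + e' (w.1 x)) + β • (w.1 x - e (w.1 x) - e' (w.1 x))) (x : E) :
    e (w.1 x) = 0 := by
  have h1 : e (w.1 x) = e (w.1 (x - e' x)) := io_A h.pr' hbig' w hinv' e h.o x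
  have hx : x - e' x = e x + (x - e x - e' x) := by abel
  have hy : e (x - e x - e' x) = 0 := by rw [map_sub, map_sub, h.pr.idem, h.o, sub_self, sub_zero]
  have hy' : e' (x - e x - e' x) = 0 := by
    rw [map_sub, map_sub, h.pr'.idem, h.o', sub_zero, sub_self]
  obtain ⟨c, hc⟩ := io_C h.pr hbig w hinv (x - e x - e' x) hy
  rw [h1, hx, hc (e x) (h.pr.idem x)]
  rcases hN with hN | ⟨α, β, hα, hβ, hβ1, hsc⟩
  · have hy0 : x - e x - e' x = 0 := by
      rw [sub_sub, hN x, sub_self]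
    rw [hy0] at hc
    have h2 := hc ((2 : ℝ) • e x) (by rw [map_smul, h.pr.idem])
    have h3 := hc (e x) (h.pr.idem x)
    rw [add_zero] at h2 h3
    rw [w.2.2, map_smul, h3, smul_comm c] at h2
    exact io_smul_eq (io_pow_ne hk two_pos (by norm_num)) h2
  · set y : E := x - e x - e' x with hydef
    have hev := h.pr.idem x
    have hev' : e' (e x) = 0 := h.o' x
    -- homogeneity
    have h2 := hc (β⁻¹ • e x) (by rw [map_smul, hev])
    have h3 : e (w.1 (e x + β • y)) = β ^ k • (c • (β⁻¹ • e x)) := by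
      rw [← h2, ← map_smul, ← w.2.2, smul_add, smul_inv_smul₀ hβ.ne']
    -- scaling
    have hα0 : α ≠ 0 := (zero_lt_one.trans hα).ne'
    have h4 := hsc (α⁻¹ • e x + y)
    have h5 := hc (α⁻¹ • e x) (by rw [map_smul, hev])
    have e1 : e (α⁻¹ • e x + y) = α⁻¹ • e x := by rw [map_add, map_smul, hev, hy, add_zero]
    have e2 : e' (α⁻¹ • e x + y) = 0 := by
      rw [map_add, map_smul, hev', hy', smul_zero, add_zero]
    rw [e1, e2, add_zero, sub_zero, add_sub_cancel_left, smul_inv_smul₀ hα0] at h4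
    have h6 := congrArg (fun z => e z) h4
    have h7 : e (w.1 (e x + β • y)) = α • (c • (α⁻¹ • e x)) := by
      rw [← h5]
      refine h6.trans ?_
      show e (α • (e (w.1 (α⁻¹ • e x + y)) + e' (w.1 (α⁻¹ • e x + y))) +
        β • (w.1 (α⁻¹ • e x + y) - e (w.1 (α⁻¹ • e x + y)) - e' (w.1 (α⁻¹ • e x + y)))) = _
      rw [map_add, map_smul, map_smul, map_add, map_sub, map_sub, h.pr.idem, h.o, sub_self,
        sub_zero, smul_zero, add_zero, add_zero]
    have h8 : β ^ k • (c • (β⁻¹ • e x)) = (β ^ k * β⁻¹) • (c • e x) := by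
      rw [smul_comm c, smul_smul]
    have h9 : α • (c • (α⁻¹ • e x)) = (1 : ℝ) • (c • e x) := by
      rw [smul_comm c, smul_smul, mul_inv_cancel₀ hα0]
    rw [h3, h8, h9] at h7
    refine io_smul_eq ?_ h7
    intro h10
    have h11 : β ^ k = β := by
      have := congrArg (fun t => t * β) h10
      simpa [mul_assoc, inv_mul_cancel₀ hβ.ne'] using this
    exact io_pow_ne hk hβ hβ1.ne h11

end aux2

section
variable {E : Type*} [NormedAddCommGroup E] [InnerProductSpace ℝ E] [FiniteDimensional ℝ E] {k : ℕ}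

theorem inv_O2 (hk : 2 ≤ k) {e e' : E →L[ℝ] E} (h : PP e e') (hbig : Big e) (hbig' : Big e')
    (w : HM E k)
    (hw : ∀ q u : E, inner ℝ q u = (0 : ℝ) → ((e q = q ∧ e u = u) ∨ (e' q = q ∧ e' u = u)) →
      pi k (tv q u) w = w)
    (hN : (∀ x, e x + e' x = x) ∨
      ∃ α β : ℝ, 1 < α ∧ 0 < β ∧ β < 1 ∧ pi k (sc e e' α β) w = w) : w = 0 := by
  have hinv : ∀ q u x : E, inner ℝ q u = (0 : ℝ) → e q = q → e u = u →
      w.1 (x + (inner ℝ q x : ℝ) • u) = w.1 x + (inner ℝ q (w.1 x) : ℝ) • u :=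
    fun q u x hqu hq hu => io_tv hqu w (hw q u hqu (Or.inl ⟨hq, hu⟩)) x
  have hinv' : ∀ q u x : E, inner ℝ q u = (0 : ℝ) → e' q = q → e' u = u →
      w.1 (x + (inner ℝ q x : ℝ) • u) = w.1 x + (inner ℝ q (w.1 x) : ℝ) • u :=
    fun q u x hqu hq hu => io_tv hqu w (hw q u hqu (Or.inr ⟨hq, hu⟩)) x
  have hN1 : (∀ x, e x + e' x = x) ∨
      ∃ α β : ℝ, 1 < α ∧ 0 < β ∧ β < 1 ∧ ∀ x,
        w.1 (α • (e x + e' x) + β • (x - e x - e' x)) =
          α • (e (w.1 x) + e' (w.1 x)) + β • (w.1 x - e (w.1 x) - e' (w.1 x)) := by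
    rcases hN with hN | ⟨α, β, hα, hβ, hβ1, hs⟩
    · exact Or.inl hN
    · refine Or.inr ⟨α, β, hα, hβ, hβ1, fun x => ?_⟩
      have h1 := io_equi w hs x
      rw [sc_apply h (zero_lt_one.trans hα).ne' hβ.ne',
        sc_apply h (zero_lt_one.trans hα).ne' hβ.ne'] at h1
      exact h1
  have hN1' : (∀ x, e' x + e x = x) ∨
      ∃ α β : ℝ, 1 < α ∧ 0 < β ∧ β < 1 ∧ ∀ x,
        w.1 (α • (e' x + e x) + β • (x - e' x - e x)) =
          α • (e' (w.1 x) + e (w.1 x)) + β • (w.1 x - e' (w.1 x) - e (w.1 x)) := by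
    rcases hN1 with hN | ⟨α, β, hα, hβ, hβ1, hs⟩
    · exact Or.inl (fun x => by rw [add_comm, hN x])
    · refine Or.inr ⟨α, β, hα, hβ, hβ1, fun x => ?_⟩
      have h1 := hs x
      rw [add_comm (e' x), sub_right_comm x (e' x), add_comm (e' (w.1 x)),
        sub_right_comm (w.1 x) (e' (w.1 x))]
      exact h1
  have hE := io_E hk h hbig hbig' w hinv hinv' hN1
  have hE' := io_E hk h.symm hbig' hbig w hinv' hinv hN1'
  -- the middle component
  have hM : ∀ x, w.1 x - e (w.1 x) - e' (w.1 x) = 0 := by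
    rcases hN1 with hN | ⟨α, β, hα, hβ, hβ1, hs⟩
    · intro x
      rw [sub_sub, hN, sub_self]
    · have hmid : ∀ x, mid e e' (e x) = 0 := by
        intro x
        rw [mid_apply, h.pr.idem, h.o', sub_self, sub_zero]
      have hmid' : ∀ x, mid e e' (e' x) = 0 := by
        intro x
        rw [mid_apply, h.pr'.idem, h.o, sub_zero, sub_self]
      intro x
      have h1 : mid e e' (w.1 x) = mid e e' (w.1 (x - e x)) :=
        io_A h.pr hbig w hinv (mid e e') hmid x
      have h2 : mid e e' (w.1 (x - e x)) = mid e e' (w.1 (x - e x - e' (x - e x))) :=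
        io_A h.pr' hbig' w hinv' (mid e e') hmid' (x - e x)
      have h3 : e' (x - e x) = e' x := by rw [map_sub, h.o', sub_zero]
      rw [h3] at h2
      rw [← mid_apply, h1, h2]
      set y : E := x - e x - e' x with hydef
      have hy : e y = 0 := by
        rw [hydef, map_sub, map_sub, h.pr.idem, h.o, sub_self, sub_zero]
      have hy' : e' y = 0 := by
        rw [hydef, map_sub, map_sub, h.pr'.idem, h.o', sub_zero, sub_self]
      have h4 := hs y
      rw [hy, hy', hE, hE', add_zero, smul_zero, zero_add, sub_zero, sub_zero, sub_zero, sub_zero,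
        w.2.2, zero_add] at h4
      have h5 : w.1 y = 0 := io_smul_eq (io_pow_ne hk hβ hβ1.ne) h4
      rw [h5, map_zero]
  ext x
  have h1 := hM x
  rw [hE, hE', sub_zero, sub_zero] at h1
  exact h1

theorem inv_tau (hk : 2 ≤ k) {e e' : E →L[ℝ] E} (h : PP e e') (hne : e' ≠ 0) {A : ℝ} (hA : 1 < A)
    {p q : ℕ} (hp : 1 ≤ p) (hq : 1 ≤ q) (w : HM E k) (hw : w ∈ kil k (uS e'))
    (hτ : pi k (sc e e' (A ^ p) ((A ^ q)⁻¹)) w = w) : w = 0 := by
  have hA0 : 0 < A := zero_lt_one.trans hA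
  have hα : 1 < A ^ p := one_lt_pow₀ hA (by omega)
  have hq1 : 1 < A ^ q := one_lt_pow₀ hA (by omega)
  have hβ0 : 0 < (A ^ q)⁻¹ := inv_pos.2 (zero_lt_one.trans hq1)
  have hβ1 : (A ^ q)⁻¹ < 1 := inv_lt_one_of_one_lt₀ hq1
  have hα0 : 0 < A ^ p := zero_lt_one.trans hα
  set α : ℝ := A ^ p with hαdef
  set β : ℝ := (A ^ q)⁻¹ with hβdef
  -- on `V'`
  have hV : ∀ v, e' v = v → w.1 v = 0 := by
    intro v hv
    have hev : e v = 0 := by rw [← hv, h.o]
    have h1 := io_equi w hτ v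
    rw [sc_apply h hα0.ne' hβ0.ne', sc_apply h hα0.ne' hβ0.ne', hev, hv, zero_add, sub_zero,
      sub_self, smul_zero, add_zero, w.2.2] at h1
    have h2 := congrArg (fun z => e z) h1
    have h3 : α ^ k • e (w.1 v) = α • e (w.1 v) := by
      rw [← map_smul]
      refine h2.trans ?_
      show e (α • (e (w.1 v) + e' (w.1 v)) + β • (w.1 v - e (w.1 v) - e' (w.1 v))) = _
      rw [map_add, map_smul, map_smul, map_add, map_sub, map_sub, h.pr.idem, h.o, sub_self,
        sub_zero, smul_zero, add_zero, add_zero]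
    have h4 : e (w.1 v) = 0 := io_smul_eq (io_pow_ne hk hα0 hα.ne') h3
    have h5 := congrArg (fun z => e' z) h1
    have h6 : α ^ k • e' (w.1 v) = α • e' (w.1 v) := by
      rw [← map_smul]
      refine h5.trans ?_
      show e' (α • (e (w.1 v) + e' (w.1 v)) + β • (w.1 v - e (w.1 v) - e' (w.1 v))) = _
      rw [map_add, map_smul, map_smul, map_add, map_sub, map_sub, h.pr'.idem, h.o', sub_zero,
        sub_self, smul_zero, add_zero, zero_add]
    have h7 : e' (w.1 v) = 0 := io_smul_eq (io_pow_ne hk hα0 hα.ne') h6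
    rw [h4, h7, add_zero, smul_zero, zero_add, sub_zero, sub_zero] at h1
    refine io_smul_eq ?_ h1
    have h8 : 1 < α ^ k := one_lt_pow₀ hα (by omega)
    exact (hβ1.trans h8).ne'
  -- off the kernel of `e'`
  have hO : ∀ x, e' x ≠ 0 → w.1 x = 0 := by
    intro x hx
    have hvv : (inner ℝ (e' x) (e' x) : ℝ) ≠ 0 := fun h => hx (inner_self_eq_zero.1 h)
    set a : E →L[ℝ] E := (inner ℝ (e' x) (e' x) : ℝ)⁻¹ • ro (e' x) (x - e' x) with hadef
    have haa : ∀ y, a y = ((inner ℝ (e' x) (e' x) : ℝ)⁻¹ * (inner ℝ (e' x) y : ℝ)) • (x - e' x) := by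
      intro y
      rw [hadef, smul_apply, ro_apply, smul_smul]
    have hau : a ∈ uS e' := by
      refine ⟨fun y => ?_, fun y => ?_⟩
      · rw [haa, map_smul, map_sub, h.pr'.idem, sub_self, smul_zero]
      · have e1 : (inner ℝ (e' x) (e' y) : ℝ) = inner ℝ (e' x) y := by
          rw [← h.pr'.sym, h.pr'.idem]
        rw [haa, haa, e1]
    have h1 := io_tw (uS_sq hau) w (pi_of_xd (uS_sq hau) w (hw a hau)) (e' x)
    rw [hV (e' x) (h.pr'.idem x), map_zero, add_zero, haa, inv_mul_cancel₀ hvv, one_smul,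
      add_sub_cancel] at h1
    exact h1
  obtain ⟨x0, hx0⟩ : ∃ x0, e' x0 ≠ 0 := by
    by_contra hcon
    push Not at hcon
    exact hne (by ext x; simpa using hcon x)
  ext x
  show w.1 x = 0
  by_cases hx : e' x = 0
  · have hcw := io_cont w
    have hcont : Continuous fun s : ℝ => w.1 (x + s • e' x0) := by fun_prop
    have h3 := io_limit hcont (c := 0) (fun s hs => hO _ (by
      rw [map_add, hx, zero_add, map_smul, h.pr'.idem]
      exact smul_ne_zero hs hx0))
    rwa [zero_smul, add_zero] at h3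
  · exact hO x hx

theorem inv_opp (hk : 2 ≤ k) {e e' : E →L[ℝ] E} (h : PP e e') (hne : e ≠ 0) (hne' : e' ≠ 0)
    (w : HM E k) (h1 : w ∈ kil k (uO e e')) (h2 : w ∈ kil k (uO e' e)) : w = 0 := by
  obtain ⟨x0, hx0⟩ : ∃ x0, e x0 ≠ 0 := by
    by_contra hcon
    push Not at hcon
    exact hne (by ext x; simpa using hcon x)
  obtain ⟨x1, hx1⟩ : ∃ x1, e' x1 ≠ 0 := by
    by_contra hcon
    push Not at hcon
    exact hne' (by ext x; simpa using hcon x)
  refine inv_TS hk h.pr ⟨e x0, hx0, h.pr.idem x0⟩ ⟨e' x1, hx1, h.o x1⟩ w ?_ ?_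
  · intro a ha
    exact h1 a (Submodule.mem_sup_left ha)
  · intro a ha
    exact h2 a (Submodule.mem_sup_right ha)

end
end LatLin
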