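import Pool.Agent.Lib.MP_2392aa_gt.O.Uni2
import Pool.Agent.Lib.MP_2392aa_gt.O.InvO
import Pool.Agent.Lib.MP_2392aa_gt.L.CR
import Pool.Agent.Lib.MP_2392aa_gt.L.LemT
import Pool.Agent.Lib.MP_2392aa_gt.L.LemS

/-!
MP_2392aa_gt, formal linearization, outer type, module FixO (about 380 lines): blocks of dimension at
least two, a cocycle is trivial on the unipotent group `G ∩ tes (uO e e')`.

PROOF (compare L/Fix). Put `u := uO e e'`, `τ := sc e e' α β` in the second case of `hN` (with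
`α = A ^ p > 1`, `β = (A ^ q)⁻¹ < 1`), and let `S` be the set of the group elements `tv q v` with
`⟪q, v⟫ = 0`, `q, v` both in `V` or both in `V'`, together with `τ` (only in the second case). All
elements of `S` are in `blkL e e'`; the adjoint of `tv q v` is `tv v q`, `τ` is self-adjoint (also the
inverses). `uni2_main` (`uO_N3`) gives `β0`. Let `p : (E →L E) →ₗ (E →L E)`,
`p a := e ∘ a ∘ (1 - e) + mid ∘ a ∘ e'`: it has values in `u` (`e a (1 - e) ∈ uT e`, `mid a e' ∈ uS e'`), `p a = a`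
for `a ∈ u` (`mem_uO`), and `p (g⁻¹ a g) = g⁻¹ (p a) g` for `g ∈ blkL e e'` (`g` commutes with `e`, `e'`). Let
`X := (E →L E) →ₗ HM E k`, `z := β0 ∘ₗ p ∈ X`, `B :=` the submodule of `X` of all `a ↦ xd (p a) w`, `w ∈ HM E k`. For
`g ∈ blkL e e'`: `piH k g (a ↦ xd (p a) w) = (a ↦ xd (p a) (pi k g w))` (`pi_xd3`), so `B` is stable. For
`γ ∈ G ∩ blkL e e'`: (3) of `uni2_main` (`uO_conj`) with `a` replaced by `γ⁻¹ a γ`:
`(piH k γ z) a = pi k γ (β0 (γ⁻¹ (p a) γ)) = β0 (p a) + xd (p a) (b γ)`, so `piH k γ z - z ∈ B`. This applies to `τ`, and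
with `Dn2` (`X`, `piH k`, `prep_piH`) to all `tv q v` in `S`. The abstract lemma `cr` of L/CR with `exists_ipH`
(see the proof of `cr_H`; for `τ`: `adjoint τ = τ`, `adjoint τ⁻¹ = τ⁻¹`) gives `w1` such that
`z' := z - (a ↦ xd (p a) w1)` is fixed by `piH k g`, `g ∈ S`. On `u`: `z' a = β0 a - xd a w1`;
(i) `z' (a a' - a' a) = xd a (z' a') - xd a' (z' a)` for `a, a' ∈ u` (`xd_br`);
(ii) `z' (g a g⁻¹) = pi k g (z' a)` for `g ∈ S`, `a ∈ u`.
CLAIM `z' = 0` on `uT e`. For `a, a' ∈ uT e`: `a a' = 0`, so `xd a (z' a') = xd a' (z' a)`; for `tv q v`, `q, v ∈ V`: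
`(tv q v) a (tv q v)⁻¹ = (tv q v) a` (`tv_T`), so `lemT` gives `w2` with `xd a w2 = z' a` for `a ∈ uT e`. For `g ∈ S`:
`g w2 - w2 ∈ B1 := kil k (uT e)`: `xd a (g w2) = g (xd (g⁻¹ a g) w2) = g (z' (g⁻¹ a g)) = z' a = xd a w2` (`g⁻¹ a g` is
again in `uT e`). `B1` is stable under `S`. `cr` with `exists_ip` (see `cr_HM`): there is `b1 ∈ B1` with
`w2 - b1` fixed by all `pi k g`, `g ∈ S`, so `w2 = b1` by `inv_O2`, and `z' a = xd a b1 = 0` on `uT e`.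
CLAIM `z' = 0` on `uS e'`: the same with `lemS` for the projection `e'` (`tv_S`; `k ≥ 2`).
So `z' = 0` on `u`, i.e. `β0 a = xd a w1 = - xd a (- w1)`, and (1) of `uni2_main` with `w := - w1`.
-/

open scoped ContDiff Topology

namespace LatLin

section
universe u
variable {E : Type u} [NormedAddCommGroup E] [InnerProductSpace ℝ E] [FiniteDimensional ℝ E] {k : ℕ}

/-- `a ↦ xd a w` -/
private noncomputable def fo_xdL (w : HM E k) : (E →L[ℝ] E) →ₗ[ℝ] HM E k where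
  toFun a := xd a w
  map_add' a a' := by
    ext x
    show (a + a') (w.1 x) - fderiv ℝ w.1 x ((a + a') x) =
      (a (w.1 x) - fderiv ℝ w.1 x (a x)) + (a' (w.1 x) - fderiv ℝ w.1 x (a' x))
    rw [add_apply, add_apply, map_add]
    abel
  map_smul' c a := by
    ext x
    show (c • a) (w.1 x) - fderiv ℝ w.1 x ((c • a) x) =
      c • (a (w.1 x) - fderiv ℝ w.1 x (a x))
    rw [smul_apply, smul_apply, map_smul, smul_sub]

/-- `w ↦ (a ↦ xd (p a) w)` -/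
private noncomputable def fo_W (p : (E →L[ℝ] E) →ₗ[ℝ] (E →L[ℝ] E)) :
    HM E k →ₗ[ℝ] ((E →L[ℝ] E) →ₗ[ℝ] HM E k) where
  toFun w := (fo_xdL w) ∘ₗ p
  map_add' w w' := by
    apply LinearMap.ext
    intro a
    show xd (p a) (w + w') = xd (p a) w + xd (p a) w'
    rw [map_add]
  map_smul' c w := by
    apply LinearMap.ext
    intro a
    show xd (p a) (c • w) = c • xd (p a) w
    rw [map_smul]

private theorem fo_W_apply (p : (E →L[ℝ] E) →ₗ[ℝ] (E →L[ℝ] E)) (w : HM E k) (a : E →L[ℝ] E) :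
    fo_W p w a = xd (p a) w := rfl

private theorem fo_inv_apply (g : GE E) (y : E) : g ((g⁻¹ : GE E) y) = y := g.apply_symm_apply y

private theorem fo_inv_apply' (g : GE E) (y : E) : (g⁻¹ : GE E) (g y) = y := g.symm_apply_apply y

private theorem fo_conj (g : GE E) (a : E →L[ℝ] E) : (g : E →L[ℝ] E) ∘L
    (((g⁻¹ : GE E) : E →L[ℝ] E) ∘L a ∘L (g : E →L[ℝ] E)) ∘L ((g⁻¹ : GE E) : E →L[ℝ] E) = a := by
  ext x
  show g ((g⁻¹ : GE E) (a (g ((g⁻¹ : GE E) x)))) = a x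
  rw [fo_inv_apply, fo_inv_apply]

private theorem fo_conj' (g : GE E) (a : E →L[ℝ] E) : ((g⁻¹ : GE E) : E →L[ℝ] E) ∘L
    ((g : E →L[ℝ] E) ∘L a ∘L ((g⁻¹ : GE E) : E →L[ℝ] E)) ∘L (g : E →L[ℝ] E) = a := by
  ext x
  show (g⁻¹ : GE E) (g (a ((g⁻¹ : GE E) (g x)))) = a x
  rw [fo_inv_apply', fo_inv_apply']

private theorem fo_adj_tv {q u : E} (h : inner ℝ q u = (0 : ℝ)) :
    ContinuousLinearMap.adjoint ((tv q u : GE E) : E →L[ℝ] E) = ((tv u q : GE E) : E →L[ℝ] E) := by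
  have h' : inner ℝ u q = (0 : ℝ) := by rw [real_inner_comm]; exact h
  symm
  rw [ContinuousLinearMap.eq_adjoint_iff]
  intro x y
  change inner ℝ (tv u q x) y = inner ℝ x (tv q u y)
  rw [tv_apply h, tv_apply h', inner_add_left, inner_add_right, inner_smul_left,
    inner_smul_right]
  simp only [conj_trivial]
  rw [real_inner_comm x u, real_inner_comm y q]
  ring

private theorem fo_adj_tv_inv {q u : E} (h : inner ℝ q u = (0 : ℝ)) :
    ContinuousLinearMap.adjoint (((tv q u)⁻¹ : GE E) : E →L[ℝ] E) =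
      (((tv u q)⁻¹ : GE E) : E →L[ℝ] E) := by
  have h' : inner ℝ u q = (0 : ℝ) := by rw [real_inner_comm]; exact h
  symm
  rw [ContinuousLinearMap.eq_adjoint_iff]
  intro x y
  change inner ℝ ((tv u q)⁻¹ x) y = inner ℝ x ((tv q u)⁻¹ y)
  rw [tv_inv_apply h, tv_inv_apply h', inner_sub_left, inner_sub_right, inner_smul_left,
    inner_smul_right]
  simp only [conj_trivial]
  rw [real_inner_comm x u, real_inner_comm y q]
  ring

private theorem fo_sa {e e' : E →L[ℝ] E} (h : PP e e') (α β : ℝ) (x y : E) :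
    inner ℝ (α • (e x + e' x) + β • (x - e x - e' x)) y =
      (inner ℝ x (α • (e y + e' y) + β • (y - e y - e' y)) : ℝ) := by
  simp only [inner_add_left, inner_add_right, inner_sub_left, inner_sub_right,
    real_inner_smul_left, real_inner_smul_right, h.pr.sym, h.pr'.sym]

private theorem fo_adj_sc {e e' : E →L[ℝ] E} (h : PP e e') {α β : ℝ} (hα : α ≠ 0) (hβ : β ≠ 0) :
    ContinuousLinearMap.adjoint ((sc e e' α β : GE E) : E →L[ℝ] E) =
      ((sc e e' α β : GE E) : E →L[ℝ] E) := by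
  symm
  rw [ContinuousLinearMap.eq_adjoint_iff]
  intro x y
  change inner ℝ (sc e e' α β x) y = inner ℝ x (sc e e' α β y)
  rw [sc_apply h hα hβ, sc_apply h hα hβ, fo_sa h]

private theorem fo_adj_sc_inv {e e' : E →L[ℝ] E} (h : PP e e') {α β : ℝ} (hα : α ≠ 0)
    (hβ : β ≠ 0) :
    ContinuousLinearMap.adjoint (((sc e e' α β)⁻¹ : GE E) : E →L[ℝ] E) =
      (((sc e e' α β)⁻¹ : GE E) : E →L[ℝ] E) := by
  symm
  rw [ContinuousLinearMap.eq_adjoint_iff]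
  intro x y
  change inner ℝ ((sc e e' α β)⁻¹ x) y = inner ℝ x ((sc e e' α β)⁻¹ y)
  rw [sc_inv h hα hβ, sc_inv h hα hβ, fo_sa h]

/-- `S` is closed under adjoints -/
private def FoAdj (S : Set (GE E)) : Prop :=
  ∀ g ∈ S, ∃ g' ∈ S, ContinuousLinearMap.adjoint (g : E →L[ℝ] E) = (g' : E →L[ℝ] E) ∧
    ContinuousLinearMap.adjoint ((g⁻¹ : GE E) : E →L[ℝ] E) = ((g'⁻¹ : GE E) : E →L[ℝ] E)

private theorem fo_adj_symm {S : Set (GE E)} (hS : FoAdj S) : ∀ g ∈ S, ∃ g' ∈ S,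
    ContinuousLinearMap.adjoint (g : E →L[ℝ] E) = (g' : E →L[ℝ] E) ∧
    ContinuousLinearMap.adjoint ((g⁻¹ : GE E) : E →L[ℝ] E) = ((g'⁻¹ : GE E) : E →L[ℝ] E) ∧
    ContinuousLinearMap.adjoint (g' : E →L[ℝ] E) = (g : E →L[ℝ] E) ∧
    ContinuousLinearMap.adjoint ((g'⁻¹ : GE E) : E →L[ℝ] E) = ((g⁻¹ : GE E) : E →L[ℝ] E) := by
  intro g hg
  obtain ⟨g', hg', h1, h2⟩ := hS g hg
  refine ⟨g', hg', h1, h2, ?_, ?_⟩
  · rw [← h1, ContinuousLinearMap.adjoint_adjoint]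
  · rw [← h2, ContinuousLinearMap.adjoint_adjoint]

private theorem fo_pi_eq_pj (g : GE E) (p : HM E k) :
    pi k g p = pj (g : E →L[ℝ] E) ((g⁻¹ : GE E) : E →L[ℝ] E) p := rfl

private theorem fo_piH_eq_opH (g : GE E) (β : (E →L[ℝ] E) →ₗ[ℝ] HM E k) :
    piH k g β = opH (g : E →L[ℝ] E) ((g⁻¹ : GE E) : E →L[ℝ] E) ((g⁻¹ : GE E) : E →L[ℝ] E)
      (g : E →L[ℝ] E) β := rfl

private theorem fo_cr_HM (S : Set (GE E)) (hS : FoAdj S) (B : Submodule ℝ (HM E k))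
    (hB : ∀ g ∈ S, ∀ y ∈ B, pi k g y ∈ B) (z : HM E k)
    (hz : ∀ g ∈ S, pi k g z - z ∈ B) :
    ∃ b ∈ B, ∀ g ∈ S, pi k g (z - b) = z - b := by
  obtain ⟨ip, h1, h2, h3⟩ := exists_ip (E := E) k
  obtain ⟨b, hb, hb'⟩ := cr ip h1 h2 {T | ∃ g ∈ S, T = pi k g} (by
    rintro T ⟨g, hg, rfl⟩
    obtain ⟨g', hg', h4, h5⟩ := hS g hg
    refine ⟨pi k g', ⟨g', hg', rfl⟩, fun x y => ?_⟩
    rw [fo_pi_eq_pj, h3, h4, h5, ← fo_pi_eq_pj]) B (by
    rintro T ⟨p, hp, rfl⟩ y hy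
    exact hB p hp y hy) z (by
    rintro T ⟨p, hp, rfl⟩
    exact hz p hp)
  exact ⟨b, hb, fun p hp => hb' _ ⟨p, hp, rfl⟩⟩

private theorem fo_cr_H (S : Set (GE E)) (hS : FoAdj S)
    (B : Submodule ℝ ((E →L[ℝ] E) →ₗ[ℝ] HM E k))
    (hB : ∀ g ∈ S, ∀ y ∈ B, piH k g y ∈ B) (z : (E →L[ℝ] E) →ₗ[ℝ] HM E k)
    (hz : ∀ g ∈ S, piH k g z - z ∈ B) :
    ∃ b ∈ B, ∀ g ∈ S, piH k g (z - b) = z - b := by
  obtain ⟨ip, h1, h2, h3⟩ := exists_ipH (E := E) k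
  obtain ⟨b, hb, hb'⟩ := cr ip h1 h2 {T | ∃ g ∈ S, T = piH k g} (by
    rintro T ⟨g, hg, rfl⟩
    obtain ⟨g', hg', h4, h5⟩ := hS g hg
    refine ⟨piH k g', ⟨g', hg', rfl⟩, fun x y => ?_⟩
    rw [fo_piH_eq_opH, h3, h4, h5, ← fo_piH_eq_opH]) B (by
    rintro T ⟨p, hp, rfl⟩ y hy
    exact hB p hp y hy) z (by
    rintro T ⟨p, hp, rfl⟩
    exact hz p hp)
  exact ⟨b, hb, fun p hp => hb' _ ⟨p, hp, rfl⟩⟩

/-- a fixed map which is a coboundary on `v` vanishes on `v` -/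
private theorem fo_zero (S : Set (GE E)) (hS : FoAdj S)
    (hinv : ∀ w : HM E k, (∀ g ∈ S, pi k g w = w) → w = 0) (z : (E →L[ℝ] E) →ₗ[ℝ] HM E k)
    (hconj : ∀ g ∈ S, ∀ a : E →L[ℝ] E,
      z ((g : E →L[ℝ] E) ∘L a ∘L ((g⁻¹ : GE E) : E →L[ℝ] E)) = pi k g (z a))
    (v : Submodule ℝ (E →L[ℝ] E))
    (hv : ∀ g ∈ S, ∀ a ∈ v, ((g⁻¹ : GE E) : E →L[ℝ] E) ∘L a ∘L (g : E →L[ℝ] E) ∈ v)
    (hw : ∃ w : HM E k, ∀ a ∈ v, z a = xd a w) : ∀ a ∈ v, z a = 0 := by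
  obtain ⟨w2, hw2⟩ := hw
  obtain ⟨b1, hb1, hb2⟩ := fo_cr_HM S hS (kil k v) (by
    intro g hg y hy a ha
    rw [← pi_xd, hy _ (hv g hg a ha), map_zero]) w2 (by
    intro g hg a ha
    rw [map_sub, ← pi_xd, ← hw2 _ (hv g hg a ha), ← hconj g hg, fo_conj, hw2 a ha, sub_self])
  have h0 : w2 - b1 = 0 := hinv _ hb2
  intro a ha
  rw [hw2 a ha, sub_eq_zero.1 h0]
  exact hb1 a ha

private theorem fo_core (hk : 2 ≤ k) {e e' : E →L[ℝ] E} (h : PP e e') (hbig : Big e)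
    (hbig' : Big e') (G : Subgroup (GE E)) (b : GE E → HM E k) (hb : IsCoc G b)
    (hL : Lat2 G (uO e e')) (S : Set (GE E)) (hS : S ⊆ blkL e e')
    (htv : ∀ q u : E, inner ℝ q u = (0 : ℝ) → ((e q = q ∧ e u = u) ∨ (e' q = q ∧ e' u = u)) →
      tv q u ∈ S) (hadj : FoAdj S)
    (hz : ∀ (z : (E →L[ℝ] E) →ₗ[ℝ] HM E k) (B : Submodule ℝ ((E →L[ℝ] E) →ₗ[ℝ] HM E k)),
      (∀ g ∈ blkL e e', ∀ y ∈ B, piH k g y ∈ B) →
      (∀ γ ∈ G, γ ∈ blkL e e' → piH k γ z - z ∈ B) → ∀ g ∈ S, piH k g z - z ∈ B)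
    (hinv : ∀ w : HM E k, (∀ g ∈ S, pi k g w = w) → w = 0) :
    ∃ w : HM E k, Triv b w {g | g ∈ G ∧ g ∈ tes (uO e e')} := by
  obtain ⟨β, h1, h2, h3⟩ := uni2_main G b hb (uO e e') (uO_N3 h) hL
  let p : (E →L[ℝ] E) →ₗ[ℝ] (E →L[ℝ] E) :=
    { toFun := fun a => e ∘L a ∘L (ContinuousLinearMap.id ℝ E - e) + mid e e' ∘L a ∘L e'
      map_add' := fun a a' => by
        ext x
        simp only [ContinuousLinearMap.comp_apply, add_apply, map_add]
        abel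
      map_smul' := fun c a => by
        ext x
        simp only [ContinuousLinearMap.comp_apply, smul_apply, add_apply, map_smul,
          RingHom.id_apply, smul_add] }
  have hp : ∀ (a : E →L[ℝ] E) (x : E), p a x = e (a (x - e x)) +
      (a (e' x) - e (a (e' x)) - e' (a (e' x))) := fun _ _ => rfl
  have hee : ∀ x, e (e x) = e x := h.pr.idem
  have hee' : ∀ x, e' (e' x) = e' x := h.pr'.idem
  have ho : ∀ x, e (e' x) = 0 := h.o
  have ho' : ∀ x, e' (e x) = 0 := h.o'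
  have hp1 : ∀ a, p a ∈ uO e e' := by
    intro a
    rw [mem_uO h]
    refine ⟨fun x => ?_, fun x => ?_, fun x => ?_⟩
    · rw [hp, hee, ho']
      simp
    · rw [hp]
      simp only [map_add, map_sub, ho', hee']
      simp
    · rw [hp]
      have h4 : e' (x - e x - e' x) = 0 := by
        rw [map_sub, map_sub, ho', hee']
        simp
      rw [h4]
      simp only [map_zero, sub_zero, add_zero]
      rw [hee]
  have hp2 : ∀ a ∈ uO e e', p a = a := by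
    intro a ha
    obtain ⟨ha1, ha2, ha3⟩ := (mem_uO h).1 ha
    ext x
    rw [hp, ha2, sub_zero, map_sub a, ha1, sub_zero]
    have h4 := ha3 x
    rw [map_sub a, map_sub a, ha1, sub_zero, map_sub] at h4
    -- h4 : e (a x) - e (a (e' x)) = a x - a (e' x)
    have h5 : e (a x) + (a (e' x) - e (a (e' x))) = (e (a x) - e (a (e' x))) + a (e' x) := by abel
    rw [h5, h4]
    abel
  have hp3 : ∀ g ∈ blkL e e', ∀ a : E →L[ℝ] E,
      p (((g⁻¹ : GE E) : E →L[ℝ] E) ∘L a ∘L (g : E →L[ℝ] E)) =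
        ((g⁻¹ : GE E) : E →L[ℝ] E) ∘L p a ∘L (g : E →L[ℝ] E) := by
    intro g hg a
    have hg' := blkL_inv hg
    ext x
    rw [hp]
    show e ((g⁻¹ : GE E) (a (g (x - e x)))) + ((g⁻¹ : GE E) (a (g (e' x))) -
      e ((g⁻¹ : GE E) (a (g (e' x)))) - e' ((g⁻¹ : GE E) (a (g (e' x))))) =
        (g⁻¹ : GE E) (p a (g x))
    rw [hp, hg'.1, hg'.1, hg'.2, map_sub g, ← hg.1, ← hg.2]
    simp only [map_add, map_sub]
  have hstab : ∀ g ∈ blkL e e', ∀ y ∈ LinearMap.range (fo_W (k := k) p),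
      piH k g y ∈ LinearMap.range (fo_W (k := k) p) := by
    rintro g hg _ ⟨w, rfl⟩
    refine ⟨pi k g w, ?_⟩
    apply LinearMap.ext
    intro a
    rw [piH_apply, fo_W_apply, fo_W_apply, hp3 g hg, pi_xd]
  have hz0 : ∀ γ ∈ G, γ ∈ blkL e e' →
      piH k γ (β ∘ₗ p) - β ∘ₗ p ∈ LinearMap.range (fo_W (k := k) p) := by
    intro γ hγ hγb
    refine ⟨b γ, ?_⟩
    apply LinearMap.ext
    intro a
    rw [LinearMap.sub_apply, piH_apply, fo_W_apply, LinearMap.comp_apply, LinearMap.comp_apply]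
    have h4 := h3 γ hγ (fun a ha => uO_conj h hγb ha)
      (p (((γ⁻¹ : GE E) : E →L[ℝ] E) ∘L a ∘L (γ : E →L[ℝ] E))) (hp1 _)
    rw [hp3 γ hγb, fo_conj] at h4
    rw [hp3 γ hγb, h4]
    abel
  obtain ⟨b1, ⟨w1, rfl⟩, hb1⟩ := fo_cr_H (k := k) S hadj (LinearMap.range (fo_W (k := k) p))
    (fun g hg y hy => hstab g (hS hg) y hy) (β ∘ₗ p) (hz _ _ hstab hz0)
  obtain ⟨z, hzdef⟩ : ∃ z, z = β ∘ₗ p - fo_W p w1 := ⟨_, rfl⟩
  have hval : ∀ a ∈ uO e e', z a = β a - xd a w1 := by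
    intro a ha
    rw [hzdef, LinearMap.sub_apply, LinearMap.comp_apply, fo_W_apply, hp2 a ha]
  have hbr : ∀ a ∈ uO e e', ∀ a' ∈ uO e e',
      z (a ∘L a' - a' ∘L a) = xd a (z a') - xd a' (z a) := by
    intro a ha a' ha'
    rw [hval _ ((uO_N3 h).br a ha a' ha'), hval a ha, hval a' ha', h2 a ha a' ha', xd_br,
      map_sub, map_sub]
    abel
  have hconj : ∀ g ∈ S, ∀ a : E →L[ℝ] E,
      z ((g : E →L[ℝ] E) ∘L a ∘L ((g⁻¹ : GE E) : E →L[ℝ] E)) = pi k g (z a) := by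
    intro g hg a
    have h4 := hb1 g hg
    rw [← hzdef] at h4
    have h5 : (piH k g z) ((g : E →L[ℝ] E) ∘L a ∘L ((g⁻¹ : GE E) : E →L[ℝ] E)) =
        z ((g : E →L[ℝ] E) ∘L a ∘L ((g⁻¹ : GE E) : E →L[ℝ] E)) := by rw [h4]
    rw [piH_apply, fo_conj'] at h5
    exact h5.symm
  have hT : ∀ a ∈ uT e, z a = 0 := by
    refine fo_zero S hadj hinv z hconj (uT e) ?_ ?_
    · intro g hg a ha
      have hgb := hS hg
      refine ⟨fun x => ?_, fun x => ?_⟩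
      · show e ((g⁻¹ : GE E) (a (g x))) = (g⁻¹ : GE E) (a (g x))
        rw [(blkL_inv hgb).1, ha.1]
      · show (g⁻¹ : GE E) (a (g (e x))) = 0
        rw [← hgb.1, ha.2, map_zero]
    · refine lemT h.pr hbig z ?_ ?_
      · intro a ha a' ha'
        have e1 : ∀ {a a' : E →L[ℝ] E}, a ∈ uT e → a' ∈ uT e → a ∘L a' = 0 := by
          intro a a' ha ha'
          ext x
          show a (a' x) = 0
          rw [← ha'.1 x]
          exact ha.2 _
        have h4 := hbr a (Submodule.mem_sup_left ha) a' (Submodule.mem_sup_left ha')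
        rw [e1 ha ha', e1 ha' ha, sub_self, map_zero] at h4
        exact (sub_eq_zero.1 h4.symm)
      · intro q u hqu hq hu a ha
        have h4 := hconj (tv q u) (htv q u hqu (Or.inl ⟨hq, hu⟩)) a
        rw [(tv_T h.pr hqu hq hu ha).1] at h4
        exact h4
  have hSS : ∀ a ∈ uS e', z a = 0 := by
    refine fo_zero S hadj hinv z hconj (uS e') ?_ ?_
    · intro g hg a ha
      have hgb := hS hg
      refine ⟨fun x => ?_, fun x => ?_⟩
      · show e' ((g⁻¹ : GE E) (a (g x))) = 0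
        rw [(blkL_inv hgb).2, ha.1, map_zero]
      · show (g⁻¹ : GE E) (a (g (e' x))) = (g⁻¹ : GE E) (a (g x))
        rw [← hgb.2, ha.2]
    · refine lemS hk h.pr' hbig' z ?_ ?_
      · intro a ha a' ha'
        have e1 : ∀ {a a' : E →L[ℝ] E}, a ∈ uS e' → a' ∈ uS e' → a ∘L a' = 0 := by
          intro a a' ha ha'
          ext x
          show a (a' x) = 0
          rw [← ha.2, ha'.1, map_zero]
        have h4 := hbr a (Submodule.mem_sup_right ha) a' (Submodule.mem_sup_right ha')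
        rw [e1 ha ha', e1 ha' ha, sub_self, map_zero] at h4
        exact (sub_eq_zero.1 h4.symm)
      · intro q u hqu hq hu a ha
        have h4 := hconj (tv q u) (htv q u hqu (Or.inr ⟨hq, hu⟩)) a
        rw [← ContinuousLinearMap.comp_assoc, (tv_S h.pr' hqu hq hu ha).1] at h4
        exact h4
  refine ⟨-w1, ?_⟩
  rintro g ⟨hgG, a, ha, rfl⟩
  refine h1 _ (fun a ha => ?_) a ha hgG
  have h4 : z a = 0 := by
    obtain ⟨a1, ha1, a2, ha2, rfl⟩ := Submodule.mem_sup.1 ha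
    rw [map_add, hT a1 ha1, hSS a2 ha2, add_zero]
  rw [hval a ha] at h4
  rw [map_neg, neg_neg]
  exact sub_eq_zero.1 h4

/-- the transvections of `V` and of `V'` -/
private def foS (e e' : E →L[ℝ] E) : Set (GE E) :=
  {g | ∃ q u : E, inner ℝ q u = (0 : ℝ) ∧ ((e q = q ∧ e u = u) ∨ (e' q = q ∧ e' u = u)) ∧
    g = tv q u}

private theorem foS_blkL {e e' : E →L[ℝ] E} (h : PP e e') : foS e e' ⊆ blkL e e' := by
  rintro g ⟨q, u, hqu, hq, rfl⟩
  have hz : ∀ {f : E →L[ℝ] E}, IsPr f → f q = q → f u = u → ∀ x, f (tv q u x) = tv q u (f x) := by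
    intro f hf hq hu x
    rw [tv_apply hqu, tv_apply hqu, map_add, map_smul, hu]
    congr 2
    rw [← hf.sym, hq]
  have hz' : ∀ {f f' : E →L[ℝ] E}, IsPr f → IsPr f' → (∀ x, f (f' x) = 0) → f' q = q → f' u = u →
      ∀ x, f (tv q u x) = tv q u (f x) := by
    intro f f' hf hf' ho hq hu x
    have h1 : f u = 0 := by rw [← hu, ho]
    have h2 : f q = 0 := by rw [← hq, ho]
    rw [tv_apply hqu, tv_apply hqu, map_add, map_smul, h1, ← hf.sym, h2, inner_zero_left]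
    simp
  rcases hq with ⟨hq, hu⟩ | ⟨hq, hu⟩
  · exact ⟨hz h.pr hq hu, hz' h.pr' h.pr h.o' hq hu⟩
  · exact ⟨hz' h.pr h.pr' h.o hq hu, hz h.pr' hq hu⟩

private theorem foS_adj (e e' : E →L[ℝ] E) {g : GE E} (hg : g ∈ foS e e') :
    ∃ g' ∈ foS e e', ContinuousLinearMap.adjoint (g : E →L[ℝ] E) = (g' : E →L[ℝ] E) ∧
    ContinuousLinearMap.adjoint ((g⁻¹ : GE E) : E →L[ℝ] E) = ((g'⁻¹ : GE E) : E →L[ℝ] E) := by
  obtain ⟨q, u, hqu, hq, rfl⟩ := hg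
  refine ⟨tv u q, ⟨u, q, by rw [real_inner_comm]; exact hqu, ?_, rfl⟩, fo_adj_tv hqu,
    fo_adj_tv_inv hqu⟩
  rcases hq with ⟨hq, hu⟩ | ⟨hq, hu⟩
  · exact Or.inl ⟨hu, hq⟩
  · exact Or.inr ⟨hu, hq⟩

theorem fixO (hk : 2 ≤ k) {e e' : E →L[ℝ] E} (h : PP e e') (hbig : Big e) (hbig' : Big e')
    (G : Subgroup (GE E)) (b : GE E → HM E k) (hb : IsCoc G b) (hL : Lat2 G (uO e e'))
    (hD : Dn2 G e e')
    (hN : (∀ x, e x + e' x = x) ∨ ∃ (A : ℝ) (p q : ℕ), 1 < A ∧ 1 ≤ p ∧ 1 ≤ q ∧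
      sc e e' (A ^ p) ((A ^ q)⁻¹) ∈ G) :
    ∃ w : HM E k, Triv b w {g | g ∈ G ∧ g ∈ tes (uO e e')} := by
  have hfd : FiniteDimensional ℝ ((E →L[ℝ] E) →ₗ[ℝ] HM E k) := inferInstance
  have hzS : ∀ (z : (E →L[ℝ] E) →ₗ[ℝ] HM E k) (B : Submodule ℝ ((E →L[ℝ] E) →ₗ[ℝ] HM E k)),
      (∀ g ∈ blkL e e', ∀ y ∈ B, piH k g y ∈ B) →
      (∀ γ ∈ G, γ ∈ blkL e e' → piH k γ z - z ∈ B) → ∀ g ∈ foS e e', piH k g z - z ∈ B := by
    rintro z B hB hz g ⟨q, u, hqu, hq, rfl⟩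
    exact hD ((E →L[ℝ] E) →ₗ[ℝ] HM E k) (piH k) prep_piH B (fun g hg => hB g hg.1) z
      (fun γ hγ hγb => hz γ hγ hγb.1) q u hqu hq
  rcases hN with hN | ⟨A, p, q, hA, hp, hq, hτ⟩
  · refine fo_core hk h hbig hbig' G b hb hL (foS e e') (foS_blkL h)
      (fun q u hqu hq => ⟨q, u, hqu, hq, rfl⟩) (fun g hg => foS_adj e e' hg) hzS ?_
    intro w hw
    exact inv_O2 hk h hbig hbig' w (fun q u hqu hq => hw _ ⟨q, u, hqu, hq, rfl⟩) (Or.inl hN)
  · have hα1 : 1 < A ^ p := one_lt_pow₀ hA (by omega)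
    have hβ0 : 1 < A ^ q := one_lt_pow₀ hA (by omega)
    have hα : A ^ p ≠ 0 := by positivity
    have hβ : (A ^ q)⁻¹ ≠ 0 := by positivity
    refine fo_core hk h hbig hbig' G b hb hL (foS e e' ∪ {sc e e' (A ^ p) ((A ^ q)⁻¹)}) ?_
      (fun q u hqu hq => Or.inl ⟨q, u, hqu, hq, rfl⟩) ?_ ?_ ?_
    · rintro g (hg | hg)
      · exact foS_blkL h hg
      · rw [Set.mem_singleton_iff] at hg
        rw [hg]
        exact sc_mem h hα hβ
    · rintro g (hg | hg)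
      · obtain ⟨g', hg', h4⟩ := foS_adj e e' hg
        exact ⟨g', Or.inl hg', h4⟩
      · rw [Set.mem_singleton_iff] at hg
        subst hg
        exact ⟨_, Or.inr rfl, fo_adj_sc h hα hβ, fo_adj_sc_inv h hα hβ⟩
    · rintro z B hB hz g (hg | hg)
      · exact hzS z B hB hz g hg
      · rw [Set.mem_singleton_iff] at hg
        subst hg
        exact hz _ hτ (sc_mem h hα hβ)
    · intro w hw
      exact inv_O2 hk h hbig hbig' w (fun q u hqu hq => hw _ (Or.inl ⟨q, u, hqu, hq, rfl⟩))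
        (Or.inr ⟨A ^ p, (A ^ q)⁻¹, hα1, by positivity, inv_lt_one_of_one_lt₀ hβ0,
          hw _ (Or.inr rfl)⟩)

end
end LatLin
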