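import Pool.Agent.Lib.MP_2392aa_gt.L.Ip

/-!
MP_2392aa_gt, outer type, module TNorm (about 120 lines): self adjoint elements act on `HM E k` by
diagonalizable operators.

PROOF. `exists_ip k` gives a symmetric positive definite form `ip` on `HM E k` (finite dimensional,
instance `hm_fin`). `T := pi k t` is `pj t t⁻¹`, and `t`, `t⁻¹` are self adjoint (`t⁻¹`: put `x = t x'`), so
by the adjoint property `ip (T p) q = ip p (T q)`.
* `tn_split`: `S := T - 1` is self adjoint for `ip`. `ker S` and `range S` are disjoint: if `S (S y) = 0`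
  then `ip (S y) (S y) = ip y (S (S y)) = 0`, so `S y = 0`. Their dimensions add up
  (`LinearMap.finrank_range_add_finrank_ker`), so `ker S ⊔ range S = ⊤` (`Submodule.eq_top_of_disjoint`).
  Write `z = z0 + S w'` with `S z0 = 0`; take `w = - w'`.
* `tn_eig`: `y0 := T y - ν y` satisfies `T y0 = ν y0` by assumption, so with `R := T - ν` (self adjoint)
  `ip y0 y0 = ip (R y) (R y) = ip y (R (R y)) = 0`, hence `y0 = 0`.
-/

open scoped ContDiff Topology

namespace LatLin

section
variable {E : Type*} [NormedAddCommGroup E] [InnerProductSpace ℝ E] [FiniteDimensional ℝ E] {k : ℕ}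

/-- self adjoint endomorphisms: the kernel of the square is the kernel -/
private theorem tn_ker {V : Type*} [AddCommGroup V] [Module ℝ V] (ip : V →ₗ[ℝ] V →ₗ[ℝ] ℝ)
    (hp : ∀ p, p ≠ 0 → 0 < ip p p) (S : Module.End ℝ V) (hS : ∀ p q, ip (S p) q = ip p (S q))
    (y : V) (h : S (S y) = 0) : S y = 0 := by
  by_contra h1
  have h2 := hp _ h1
  rw [hS, h, map_zero] at h2
  exact lt_irrefl _ h2

private theorem tn_dec {V : Type*} [AddCommGroup V] [Module ℝ V] [FiniteDimensional ℝ V]
    (ip : V →ₗ[ℝ] V →ₗ[ℝ] ℝ) (hp : ∀ p, p ≠ 0 → 0 < ip p p) (S : Module.End ℝ V)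
    (hS : ∀ p q, ip (S p) q = ip p (S q)) (z : V) : ∃ z0 w, S z0 = 0 ∧ z = z0 + S w := by
  have hd : Disjoint (LinearMap.ker S) (LinearMap.range S) := by
    rw [Submodule.disjoint_def]
    rintro x hx ⟨y, rfl⟩
    exact tn_ker ip hp S hS y hx
  have hdim : Module.finrank ℝ (LinearMap.ker S) + Module.finrank ℝ (LinearMap.range S) =
      Module.finrank ℝ V := by
    rw [add_comm]
    exact LinearMap.finrank_range_add_finrank_ker S
  have htop := Submodule.eq_top_of_disjoint _ _ hdim.ge hd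
  have hz : z ∈ LinearMap.ker S ⊔ LinearMap.range S := by
    rw [htop]
    exact Submodule.mem_top
  obtain ⟨z0, hz0, y, ⟨w, rfl⟩, h⟩ := Submodule.mem_sup.1 hz
  exact ⟨z0, w, hz0, h.symm⟩

/-- `pi k t` is self adjoint -/
private theorem tn_adj (ip : HM E k →ₗ[ℝ] HM E k →ₗ[ℝ] ℝ)
    (ha : ∀ (g h : E →L[ℝ] E) (p q : HM E k), ip (pj g h p) q =
      ip p (pj (ContinuousLinearMap.adjoint g) (ContinuousLinearMap.adjoint h) q))
    (t : GE E) (ht : ∀ x y : E, inner ℝ (t x) y = (inner ℝ x (t y) : ℝ)) (p q : HM E k) :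
    ip (pi k t p) q = ip p (pi k t q) := by
  have h1 : (t : E →L[ℝ] E) = ContinuousLinearMap.adjoint (t : E →L[ℝ] E) :=
    (ContinuousLinearMap.eq_adjoint_iff _ _).2 ht
  have h2 : ((t⁻¹ : GE E) : E →L[ℝ] E) =
      ContinuousLinearMap.adjoint ((t⁻¹ : GE E) : E →L[ℝ] E) := by
    refine (ContinuousLinearMap.eq_adjoint_iff _ _).2 fun x y => ?_
    have h3 := ht ((t⁻¹ : GE E) x) ((t⁻¹ : GE E) y)
    have h4 : t ((t⁻¹ : GE E) x) = x := t.apply_symm_apply x
    have h5 : t ((t⁻¹ : GE E) y) = y := t.apply_symm_apply y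
    rw [h4, h5] at h3
    exact h3.symm
  have h3 := ha (t : E →L[ℝ] E) ((t⁻¹ : GE E) : E →L[ℝ] E) p q
  rw [← h1, ← h2] at h3
  exact h3

theorem tn_split (t : GE E) (ht : ∀ x y : E, inner ℝ (t x) y = (inner ℝ x (t y) : ℝ))
    (z : HM E k) : ∃ w z0 : HM E k, pi k t z0 = z0 ∧ z = z0 + (w - pi k t w) := by
  obtain ⟨ip, -, hp, ha⟩ := exists_ip (E := E) k
  have hS : ∀ p q, ip ((pi k t - 1) p) q = ip p ((pi k t - 1) q) := by
    intro p q
    rw [LinearMap.sub_apply, LinearMap.sub_apply, Module.End.one_apply, Module.End.one_apply,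
      map_sub, map_sub, LinearMap.sub_apply, tn_adj ip ha t ht]
  obtain ⟨z0, w, h1, h2⟩ := tn_dec ip hp (pi k t - 1) hS z
  refine ⟨-w, z0, ?_, ?_⟩
  · rw [LinearMap.sub_apply, Module.End.one_apply] at h1
    exact sub_eq_zero.1 h1
  · rw [h2, LinearMap.sub_apply, Module.End.one_apply, map_neg]
    abel

theorem tn_eig (t : GE E) (ht : ∀ x y : E, inner ℝ (t x) y = (inner ℝ x (t y) : ℝ)) (ν : ℝ)
    (y : HM E k) (h : pi k t (pi k t y - ν • y) = ν • (pi k t y - ν • y)) :
    pi k t y = ν • y := by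
  obtain ⟨ip, -, hp, ha⟩ := exists_ip (E := E) k
  have hS : ∀ p q, ip ((pi k t - ν • (1 : Module.End ℝ (HM E k))) p) q =
      ip p ((pi k t - ν • (1 : Module.End ℝ (HM E k))) q) := by
    intro p q
    rw [LinearMap.sub_apply, LinearMap.sub_apply, LinearMap.smul_apply, LinearMap.smul_apply,
      Module.End.one_apply, Module.End.one_apply, map_sub, map_sub, LinearMap.sub_apply, map_smul,
      map_smul, LinearMap.smul_apply, tn_adj ip ha t ht]
  have h1 := tn_ker ip hp _ hS y (by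
    rw [LinearMap.sub_apply, LinearMap.sub_apply, LinearMap.smul_apply, LinearMap.smul_apply,
      Module.End.one_apply, Module.End.one_apply]
    exact sub_eq_zero.2 h)
  rw [LinearMap.sub_apply, LinearMap.smul_apply, Module.End.one_apply] at h1
  exact sub_eq_zero.1 h1

end
end LatLin
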