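import Pool.Agent.Lib.MP_2392aa_gt.O.Te

/-!
MP_2392aa_gt, formal linearization, outer type, module Uni2 (about 420 lines): cocycles on two step
unipotent groups `te a`, `a ∈ u` (the analogue of L/Uni; read that module first).

NOTATION. `P s a := pi k (te (s • a))`, `IsPoly` in `s` on every vector (`poly_te`), `te_deriv`.
Let `c`, `n` be the lattice data and `Λ` the integer span of the `c i`.
(A) For `a ∈ Λ` (or any `a ∈ u` with `te a ∈ G`): `b (te (m • a)) = ∑ j < m, P j a (b (te a))` for natural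
`m` (cocycle identity and `te_nat`), a polynomial in `m` (`IsPoly.sum_nat`): call it `f_a : ℝ → HM E k`,
`f_a m = b (te (m • a))` for natural `m`; then `f_a (s + t) = f_a s + P s a (f_a t)` for naturals, so for
all reals (see `uni_one` in L/Uni, the same proof). `d a := f_a'(0)` (`IsPoly.deriv0`, evaluations).
For integers `m < 0`: `b (te (m • a)) = f_a m` also (from the functional equation and `b 1 = 0`,
`b g⁻¹ = - g⁻¹ b g`).
(B) `f_(j • a) s = f_a (j * s)` for integers `j` (both polynomials agree at naturals), so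
`d (j • a) = j d a`.
(C) Let `a, a' ∈ Λ`, `z := (1 / 2) • (a ∘ a' - a' ∘ a) ∈ Λ`. By `te_mul`:
`te (m • a) * te (m • a') = te (m • (a + a') + m ^ 2 • z) = te (m • (a + a')) * te (m ^ 2 • z)`
(the bracket of `a + a'` and `z` is zero, all triple products vanish), so for natural `m`:
`f_a m + P m a (f_a' m) = f_(a + a') m + P m (a + a') (f_z (m ^ 2))`; both sides are polynomials in `m`
(the second terms: `P m a` applied to a polynomial: write the polynomial as `∑ m ^ i • c_i` and use
`poly_te` for each `c_i`; products of polynomials), so this holds for all real `m`; derivative at `0`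
(evaluate at `x : E`; `f_a 0 = 0` and `s ↦ f_z (s ^ 2)` has derivative `0` at `0`):
`d a + d a' = d (a + a')`.
(D) `te (m • a) * te (m' • a') = te (m' • a') * te (m • a) * te ((m * m') • w)`, `w := a ∘ a' - a' ∘ a = 2 • z ∈ Λ`,
for naturals `m, m'` (`te_mul` three times). So
`f_a s + P s a (f_a' t) = f_a' t + P t a' (f_a s + P s a (f_w (s * t)))` for natural, hence real `s`, `t`.
Derivative in `s` at `s = 0`: `d a + xd a (f_a' t) = P t a' (d a + t • d w)`; derivative in `t` at `0`:
`xd a (d a') = xd a' (d a) + d w`, that is `d (a ∘ a' - a' ∘ a) = xd a (d a') - xd a' (d a)`.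
(E) `β` := a linear map with `β (c i) = d (c i)` (extend from the independent family). `β a = d a` on `Λ` by
additivity, and for every `a ∈ u` with `te a ∈ G` (use `M • a ∈ Λ`, (B) for `a`).
(1) Let `β a = - xd a w` on `u`, `a ∈ u`, `te a ∈ G`, `g s := f_a s - (w - P s a w)`: `g (s + t) = g s +
P s a (g t)`, `g 0 = 0`, `g'(0) = β a + xd a w = 0`, so `g' = 0`, `g = 0`; `s = 1`.
(2) by (D) for the `c i` and bilinearity. (3) For `g ∈ G` normalizing `u`, `a = c i`, `a' := g a g⁻¹`:
`te (m • a') = g (te (m • a)) g⁻¹ ∈ G`, `b (te (m • a')) = b g + g b (te (m • a)) - te (m • a') b g`, so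
`f_a' s = g f_a s + b g - P s a' (b g)`; derivative at `0`: `β a' = g β a - xd a' (b g)`; linearity in `a`.
`defect2`: for `g ∈ G` normalizing `u` from both sides and `w` with `Triv b w` on `G ∩ tes u`: for
`g' ∈ G ∩ tes u`, `g'' := g⁻¹ g' g ∈ G ∩ tes u`: `b (g g'') = b (g' g)`, so `α := pi k g w + b g - w` satisfies
`g' α = α` (see L/Delta `defect`); `kil_of_lat2`.
-/

open scoped ContDiff Topology

namespace LatLin

section aux
variable {E : Type*} [NormedAddCommGroup E] [InnerProductSpace ℝ E] {k : ℕ}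

private theorem te_z {a : E →L[ℝ] E} (h : a ∘L a ∘L a = 0) : te ((0 : ℝ) • a) = 1 := by
  have := te_nat h 0
  simpa using this

private theorem te_zero : te (0 : E →L[ℝ] E) = 1 := by
  have := te_z (a := (0 : E →L[ℝ] E)) (by simp)
  simpa using this

/-- the action of `te (s • a)` -/
private noncomputable def P (a : E →L[ℝ] E) (s : ℝ) : HM E k →ₗ[ℝ] HM E k := pi k (te (s • a))

private theorem P_zero {a : E →L[ℝ] E} (h : a ∘L a ∘L a = 0) (p : HM E k) : P a 0 p = p := by
  unfold P
  rw [te_z h, map_one]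
  rfl

private theorem P_add {a : E →L[ℝ] E} (h : a ∘L a ∘L a = 0) (s t : ℝ) (p : HM E k) :
    P a s (P a t p) = P a (s + t) p := by
  unfold P
  rw [← te_add_smul h, map_mul]
  rfl

private theorem coc_one {G : Subgroup (GE E)} {b : GE E → HM E k} (hb : IsCoc G b) :
    b 1 = 0 := by
  have h := hb 1 G.one_mem 1 G.one_mem
  rw [mul_one, map_one] at h
  simpa using h

private theorem xd_add (a a' : E →L[ℝ] E) (w : HM E k) : xd (a + a') w = xd a w + xd a' w := by
  ext x
  rw [xd_apply]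
  have : (xd a w + xd a' w).1 x = (xd a w).1 x + (xd a' w).1 x := rfl
  rw [this, xd_apply, xd_apply]
  simp only [add_apply, map_add]
  abel

private theorem xd_smul (c : ℝ) (a : E →L[ℝ] E) (w : HM E k) : xd (c • a) w = c • xd a w := by
  ext x
  rw [xd_apply]
  have : (c • xd a w).1 x = c • (xd a w).1 x := rfl
  rw [this, xd_apply]
  simp only [smul_apply, map_smul, smul_sub]

private theorem xd_zero (w : HM E k) : xd (0 : E →L[ℝ] E) w = 0 := by
  have := xd_smul (0 : ℝ) (0 : E →L[ℝ] E) w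
  rwa [zero_smul, zero_smul] at this

/-- evaluation at a point -/
private def ev (x : E) : HM E k →ₗ[ℝ] E where
  toFun p := p.1 x
  map_add' _ _ := rfl
  map_smul' _ _ := rfl

private theorem ev_apply (x : E) (p : HM E k) : ev x p = p.1 x := rfl

private theorem poly_sum {X : Type*} [AddCommGroup X] [Module ℝ X] (K : ℕ) (f : ℕ → ℝ → X)
    (hf : ∀ i, IsPoly (f i)) : IsPoly (fun s => ∑ i ∈ Finset.range K, f i s) := by
  induction K with
  | zero => simpa using IsPoly.const (0 : X)
  | succ K ih =>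
    simp only [Finset.sum_range_succ]
    exact ih.add (hf K)

private theorem poly_pow (i : ℕ) : IsPoly (fun s : ℝ => s ^ i) := by
  have := IsPoly.of_eval (Polynomial.X ^ i : Polynomial ℝ)
  simpa using this

/-- polynomials in `s ^ 2` are polynomials -/
private theorem poly_sq {X : Type*} [AddCommGroup X] [Module ℝ X] {f : ℝ → X} (hf : IsPoly f) :
    IsPoly (fun s => f (s ^ 2)) := by
  obtain ⟨K, c, hc⟩ := hf
  have h1 : (fun s => f (s ^ 2)) = fun s : ℝ => ∑ i ∈ Finset.range K, s ^ (2 * i) • c i := by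
    funext s
    rw [hc]
    refine Finset.sum_congr rfl fun i _ => ?_
    rw [pow_mul]
  rw [h1]
  exact poly_sum K _ fun i => (poly_pow (2 * i)).smul (IsPoly.const (c i))

/-- a polynomial which vanishes at `0` is `s • g s` -/
private theorem factor {X : Type*} [AddCommGroup X] [Module ℝ X] {f : ℝ → X} (hf : IsPoly f)
    (h0 : f 0 = 0) : ∃ (K : ℕ) (c : ℕ → X), ∀ s, f s = s • ∑ i ∈ Finset.range K, s ^ i • c i := by
  obtain ⟨K, c, hc⟩ := hf
  rcases K with _ | K
  · exact ⟨0, c, fun s => by simp [hc]⟩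
  · refine ⟨K, fun i => c (i + 1), fun s => ?_⟩
    have h1 := hc 0
    rw [h0, Finset.sum_range_succ'] at h1
    simp at h1
    rw [hc, Finset.sum_range_succ', ← h1, smul_zero, add_zero, Finset.smul_sum]
    refine Finset.sum_congr rfl fun i _ => ?_
    rw [smul_smul, pow_succ']

/-- the derivative of `f` at `0` is `d`, in the weak sense -/
private def Der (f : ℝ → HM E k) (d : HM E k) : Prop :=
  ∀ L : HM E k →ₗ[ℝ] E, HasDerivAt (fun s => L (f s)) (L d) 0

/-- uniqueness of the derivative -/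
private theorem der_unique {f g : ℝ → HM E k} {d d' : HM E k}
    (h : Der f d) (h' : Der g d') (he : ∀ s, f s = g s) : d = d' := by
  obtain rfl : f = g := funext he
  ext x
  exact (h (ev x)).unique (h' (ev x))

private theorem Der.add {f g : ℝ → HM E k} {d d' : HM E k} (h : Der f d) (h' : Der g d') :
    Der (fun s => f s + g s) (d + d') := by
  intro L
  simp only [map_add]
  exact (h L).add (h' L)

private theorem Der.scale {f : ℝ → HM E k} {d : HM E k} (h : Der f d) (t : ℝ) :
    Der (fun s => f (s * t)) (t • d) := by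
  intro L
  have h1 : HasDerivAt (fun s : ℝ => s * t) t 0 := by
    simpa using (hasDerivAt_id (0 : ℝ)).mul_const t
  have h2 : HasDerivAt (fun s => L (f s)) (L d) ((0 : ℝ) * t) := by
    rw [zero_mul]
    exact h L
  have h3 := HasDerivAt.scomp (h := fun s : ℝ => s * t) 0 h2 h1
  rw [map_smul]
  exact h3

private theorem Der.sq {f : ℝ → HM E k} {d : HM E k} (h : Der f d) :
    Der (fun s => f (s ^ 2)) 0 := by
  intro L
  have h1 : HasDerivAt (fun s : ℝ => s ^ 2) 0 0 := by
    simpa using hasDerivAt_pow 2 (0 : ℝ)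
  have h2 : HasDerivAt (fun s => L (f s)) (L d) ((0 : ℝ) ^ 2) := by
    rw [zero_pow two_ne_zero]
    exact h L
  have h3 := HasDerivAt.scomp (h := fun s : ℝ => s ^ 2) 0 h2 h1
  rw [zero_smul] at h3
  rw [map_zero]
  exact h3

end aux

section
variable {E : Type*} [NormedAddCommGroup E] [InnerProductSpace ℝ E] [FiniteDimensional ℝ E] {k : ℕ}

private theorem poly_P {a : E →L[ℝ] E} (h : a ∘L a ∘L a = 0) (p : HM E k) :
    IsPoly (fun s : ℝ => P a s p) := poly_te h p

private theorem P_deriv {a : E →L[ℝ] E} (h : a ∘L a ∘L a = 0) (p : HM E k) (x : E) (s : ℝ) :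
    HasDerivAt (fun s : ℝ => (P a s p).1 x) ((P a s (xd a p)).1 x) s := te_deriv h p x s

private theorem P_deriv0 {a : E →L[ℝ] E} (h : a ∘L a ∘L a = 0) (p : HM E k) (x : E) :
    HasDerivAt (fun s : ℝ => (P a s p).1 x) ((xd a p).1 x) 0 := by
  have h1 := P_deriv h p x 0
  rw [P_zero h] at h1
  exact h1

private theorem poly_PP {a : E →L[ℝ] E} (h : a ∘L a ∘L a = 0) {g : ℝ → HM E k} (hg : IsPoly g) :
    IsPoly (fun s : ℝ => P a s (g s)) := by
  obtain ⟨K, c, hc⟩ := hg
  have h1 : (fun s : ℝ => P a s (g s)) = fun s => ∑ i ∈ Finset.range K, s ^ i • P a s (c i) := by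
    funext s
    rw [hc, map_sum]
    simp only [map_smul]
  rw [h1]
  exact poly_sum K _ fun i => (poly_pow i).smul (poly_P h (c i))

omit [FiniteDimensional ℝ E] in
private theorem der_smul {g : ℝ → HM E k} (hg : IsPoly g) : Der (fun s => s • g s) (g 0) := by
  intro L
  obtain ⟨e, he⟩ := hg.deriv0 (fun L : HM E k →ₗ[ℝ] E => L)
  have h4 := (hasDerivAt_id (0 : ℝ)).smul (he L)
  simp only [id_eq, zero_smul, zero_add, one_smul] at h4
  refine h4.congr_of_eventuallyEq (Filter.Eventually.of_forall fun s => ?_)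
  simp

/-- the product rule -/
private theorem Der.P {a : E →L[ℝ] E} (h : a ∘L a ∘L a = 0) {f : ℝ → HM E k} {d : HM E k}
    (hf : IsPoly f) (h0 : f 0 = 0) (hd : Der f d) : Der (fun s : ℝ => P a s (f s)) d := by
  obtain ⟨K, c, hc⟩ := factor hf h0
  set g : ℝ → HM E k := fun s => ∑ i ∈ Finset.range K, s ^ i • LatLin.P a s (c i) with hg
  have hgp : IsPoly g := poly_sum K _ fun i => (poly_pow i).smul (poly_P h (c i))
  have h1 : ∀ s, LatLin.P a s (f s) = s • g s := by
    intro s
    rw [hc, map_smul, map_sum, hg]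
    simp only [map_smul]
  have h5 : d = g 0 := by
    have h6 : IsPoly (fun s : ℝ => ∑ i ∈ Finset.range K, s ^ i • c i) := ⟨K, c, fun s => rfl⟩
    have h7 := der_unique hd (der_smul h6) hc
    rw [h7, hg]
    simp [P_zero h]
  simp only [h1]
  rw [h5]
  exact der_smul hgp

/-- the data attached to `a`: the polynomial `f` and its derivative `d` at `0` -/
private structure Inf (b : GE E → HM E k) (a : E →L[ℝ] E) (f : ℝ → HM E k) (d : HM E k) : Prop where
  poly : IsPoly f
  nat : ∀ m : ℕ, b (te ((m : ℝ) • a)) = f m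
  coc : ∀ s t : ℝ, f (s + t) = f s + P a s (f t)
  der : Der f d

private theorem exists_inf (G : Subgroup (GE E)) (b : GE E → HM E k) (hb : IsCoc G b)
    {a : E →L[ℝ] E} (h : a ∘L a ∘L a = 0) (hG : te a ∈ G) : ∃ f d, Inf b a f d := by
  have hGm : ∀ m : ℕ, te ((m : ℝ) • a) ∈ G := fun m => by
    rw [te_nat h]
    exact G.pow_mem hG m
  obtain ⟨f, hf, hfm⟩ := IsPoly.sum_nat (poly_P h (b (te a)))
  have h1 : ∀ m : ℕ, b (te ((m : ℝ) • a)) = f m := by
    intro m
    rw [hfm]
    induction m with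
    | zero => simp [te_zero, coc_one hb]
    | succ m ih =>
      rw [Finset.sum_range_succ, ← ih, te_nat h, pow_succ, ← te_nat h, hb _ (hGm m) _ hG]
      rfl
  have h2 : ∀ m n : ℕ, f (m + n) = f m + P a m (f n) := by
    intro m n
    have h3 : te (((m + n : ℕ) : ℝ) • a) = te ((m : ℝ) • a) * te ((n : ℝ) • a) := by
      rw [te_nat h, te_nat h, te_nat h, pow_add]
    have h4 := h1 (m + n)
    rw [h3, hb _ (hGm m) _ (hGm n), h1, h1] at h4
    push_cast at h4
    exact h4.symm
  have h3 : ∀ (s : ℝ) (n : ℕ), f (s + n) = f s + P a s (f n) := by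
    intro s n
    have e1 : IsPoly (fun s : ℝ => f (s + n)) := by
      have := hf.comp_aff 1 n
      simpa using this
    exact IsPoly.eq_of_nat e1 (hf.add (poly_P h (f n))) (fun m => h2 m n) s
  obtain ⟨d, hd⟩ := hf.deriv0 (fun L : HM E k →ₗ[ℝ] E => L)
  refine ⟨f, d, hf, h1, fun s t => ?_, hd⟩
  have e1 : IsPoly (fun t : ℝ => f (s + t)) := by
    have := hf.comp_aff 1 s
    simpa [add_comm] using this
  exact IsPoly.eq_of_nat e1 ((IsPoly.const (f s)).add (hf.lin (P a s))) (fun n => h3 s n) t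

omit [FiniteDimensional ℝ E] in
private theorem Inf.zero {b : GE E → HM E k} {a : E →L[ℝ] E} (h0 : a ∘L a ∘L a = 0)
    {f : ℝ → HM E k} {d : HM E k} (h : Inf b a f d) : f 0 = 0 := by
  have := h.coc 0 0
  rw [P_zero h0, add_zero] at this
  simpa using this

omit [FiniteDimensional ℝ E] in
private theorem te_mem {G : Subgroup (GE E)} {a : E →L[ℝ] E} (h : a ∘L a ∘L a = 0)
    (hG : te a ∈ G) (m : ℕ) : te ((m : ℝ) • a) ∈ G := by
  rw [te_nat h]
  exact G.pow_mem hG m

omit [FiniteDimensional ℝ E] in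
/-- (B) multiples -/
private theorem Inf.mul {b : GE E → HM E k} {a : E →L[ℝ] E} {f f' : ℝ → HM E k} {d d' : HM E k}
    (h : Inf b a f d) (j : ℕ) (h' : Inf b ((j : ℝ) • a) f' d') : d' = (j : ℝ) • d := by
  have h1 : ∀ s, f' s = f (s * j) := by
    intro s
    have e1 : IsPoly (fun s : ℝ => f (s * j)) := by
      have := h.poly.comp_aff (j : ℝ) 0
      simpa [mul_comm] using this
    refine IsPoly.eq_of_nat h'.poly e1 (fun m => ?_) s
    have e2 := h.nat (m * j)
    rw [Nat.cast_mul] at e2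
    rw [← h'.nat, smul_smul, ← e2]
  exact der_unique h'.der (h.der.scale (j : ℝ)) h1

omit [FiniteDimensional ℝ E] in
/-- triple products -/
private theorem tri {u : Submodule ℝ (E →L[ℝ] E)} (hu : N3 u) {a a' a'' : E →L[ℝ] E}
    (ha : a ∈ u) (ha' : a' ∈ u) (ha'' : a'' ∈ u) (y : E) : a (a' (a'' y)) = 0 := by
  simpa using congrArg (fun f => f y) (hu.cube a ha a' ha' a'' ha'')

omit [FiniteDimensional ℝ E] in
set_option linter.unusedSimpArgs false in
private theorem te_add_id {u : Submodule ℝ (E →L[ℝ] E)} (hu : N3 u) {a a' : E →L[ℝ] E}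
    (ha : a ∈ u) (ha' : a' ∈ u) (m : ℝ) : te (m • a) * te (m • a') =
      te (m • (a + a')) * te ((m ^ 2) • ((1 / 2 : ℝ) • (a ∘L a' - a' ∘L a))) := by
  have hz := hu.br a ha a' ha'
  rw [te_mul hu (u.smul_mem m ha) (u.smul_mem m ha'),
    te_mul hu (u.smul_mem m (u.add_mem ha ha')) (u.smul_mem (m ^ 2) (u.smul_mem _ hz))]
  congr 1
  have t1 := tri hu ha ha ha
  have t2 := tri hu ha ha ha'
  have t3 := tri hu ha ha' ha
  have t4 := tri hu ha ha' ha'
  have t5 := tri hu ha' ha ha
  have t6 := tri hu ha' ha ha'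
  have t7 := tri hu ha' ha' ha
  have t8 := tri hu ha' ha' ha'
  ext x
  simp only [add_apply, sub_apply, smul_apply, ContinuousLinearMap.comp_apply, map_add, map_sub,
    map_smul, t1, t2, t3, t4, t5, t6, t7, t8, smul_zero, add_zero, sub_zero]
  module

omit [FiniteDimensional ℝ E] in
set_option linter.unusedSimpArgs false in
private theorem te_br_id {u : Submodule ℝ (E →L[ℝ] E)} (hu : N3 u) {a a' : E →L[ℝ] E}
    (ha : a ∈ u) (ha' : a' ∈ u) (m n : ℝ) : te (m • a) * te (n • a') =
      te (n • a') * (te (m • a) * te ((m * n) • (a ∘L a' - a' ∘L a))) := by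
  have hz := hu.br a ha a' ha'
  have t1 := tri hu ha ha ha
  have t2 := tri hu ha ha ha'
  have t3 := tri hu ha ha' ha
  have t4 := tri hu ha ha' ha'
  have t5 := tri hu ha' ha ha
  have t6 := tri hu ha' ha ha'
  have t7 := tri hu ha' ha' ha
  have t8 := tri hu ha' ha' ha'
  have e1 : m • a + (m * n) • (a ∘L a' - a' ∘L a) + (1 / 2 : ℝ) •
      ((m • a) ∘L ((m * n) • (a ∘L a' - a' ∘L a)) - ((m * n) • (a ∘L a' - a' ∘L a)) ∘L (m • a)) =
      m • a + (m * n) • (a ∘L a' - a' ∘L a) := by
    ext x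
    simp only [add_apply, sub_apply, smul_apply, ContinuousLinearMap.comp_apply, map_add, map_sub,
      map_smul, t1, t2, t3, t4, t5, t6, t7, t8, smul_zero, add_zero, sub_zero]
  rw [te_mul hu (u.smul_mem m ha) (u.smul_mem n ha'),
    te_mul hu (u.smul_mem m ha) (u.smul_mem (m * n) hz), e1,
    te_mul hu (u.smul_mem n ha') (u.add_mem (u.smul_mem m ha) (u.smul_mem (m * n) hz))]
  congr 1
  ext x
  simp only [add_apply, sub_apply, smul_apply, ContinuousLinearMap.comp_apply, map_add, map_sub,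
    map_smul, t1, t2, t3, t4, t5, t6, t7, t8, smul_zero, add_zero, sub_zero]
  module

/-- (C) additivity -/
private theorem Inf.add {b : GE E → HM E k} {G : Subgroup (GE E)} (hb : IsCoc G b)
    {u : Submodule ℝ (E →L[ℝ] E)} (hu : N3 u)
    {a a' : E →L[ℝ] E} {f f' f'' fz : ℝ → HM E k} {d d' d'' dz : HM E k}
    (ha : a ∈ u) (ha' : a' ∈ u)
    (h : Inf b a f d) (h' : Inf b a' f' d') (h'' : Inf b (a + a') f'' d'')
    (hz : Inf b ((1 / 2 : ℝ) • (a ∘L a' - a' ∘L a)) fz dz)
    (hG : te a ∈ G) (hG' : te a' ∈ G) (hG'' : te (a + a') ∈ G)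
    (hGz : te ((1 / 2 : ℝ) • (a ∘L a' - a' ∘L a)) ∈ G) : d'' = d + d' := by
  have haa := hu.cube a ha a ha a ha
  have haa' := hu.cube a' ha' a' ha' a' ha'
  have hs := u.add_mem ha ha'
  have haa'' := hu.cube _ hs _ hs _ hs
  have hzu := u.smul_mem (1 / 2 : ℝ) (hu.br a ha a' ha')
  have hzz := hu.cube _ hzu _ hzu _ hzu
  have h5 : ∀ m : ℕ, f m + P a m (f' m) = f'' m + P (a + a') m (fz ((m : ℝ) ^ 2)) := by
    intro m
    have e1 := congrArg b (te_add_id hu ha ha' (m : ℝ))
    have e2 : te (((m : ℝ) ^ 2) • ((1 / 2 : ℝ) • (a ∘L a' - a' ∘L a))) ∈ G := by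
      have := te_mem hzz hGz (m ^ 2)
      rwa [Nat.cast_pow] at this
    have e3 := hz.nat (m ^ 2)
    rw [Nat.cast_pow] at e3
    rw [hb _ (te_mem haa hG m) _ (te_mem haa' hG' m), hb _ (te_mem haa'' hG'' m) _ e2, h.nat,
      h'.nat, h''.nat, e3] at e1
    exact e1
  have h6 := IsPoly.eq_of_nat (h.poly.add (poly_PP haa h'.poly))
    (h''.poly.add (poly_PP haa'' (poly_sq hz.poly))) h5
  have h7 := der_unique (h.der.add (Der.P haa h'.poly (h'.zero haa') h'.der))
    (h''.der.add (Der.P haa'' (poly_sq hz.poly) (by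
      rw [zero_pow two_ne_zero]
      exact hz.zero hzz) hz.der.sq)) h6
  rw [h7, add_zero]

/-- (D) the bracket -/
private theorem Inf.br {b : GE E → HM E k} {G : Subgroup (GE E)} (hb : IsCoc G b)
    {u : Submodule ℝ (E →L[ℝ] E)} (hu : N3 u)
    {a a' : E →L[ℝ] E} {f f' fw : ℝ → HM E k} {d d' dw : HM E k}
    (ha : a ∈ u) (ha' : a' ∈ u)
    (h : Inf b a f d) (h' : Inf b a' f' d') (hw : Inf b (a ∘L a' - a' ∘L a) fw dw)
    (hG : te a ∈ G) (hG' : te a' ∈ G)
    (hGw : te (a ∘L a' - a' ∘L a) ∈ G) : dw = xd a d' - xd a' d := by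
  have haa := hu.cube a ha a ha a ha
  have haa' := hu.cube a' ha' a' ha' a' ha'
  have hwu := hu.br a ha a' ha'
  have hww := hu.cube _ hwu _ hwu _ hwu
  have h1 : ∀ m n : ℕ, f m + P a m (f' n) = f' n + P a' n (f m + P a m (fw (m * n))) := by
    intro m n
    have e1 := congrArg b (te_br_id hu ha ha' (m : ℝ) (n : ℝ))
    have e2 : te (((m : ℝ) * n) • (a ∘L a' - a' ∘L a)) ∈ G := by
      have := te_mem hww hGw (m * n)
      rwa [Nat.cast_mul] at this
    have e3 := hw.nat (m * n)
    rw [Nat.cast_mul] at e3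
    rw [hb _ (te_mem haa hG m) _ (te_mem haa' hG' n), hb _ (te_mem haa' hG' n) _
      (G.mul_mem (te_mem haa hG m) e2), hb _ (te_mem haa hG m) _ e2, h.nat, h'.nat, e3] at e1
    exact e1
  have hsc : ∀ t : ℝ, IsPoly (fun s : ℝ => fw (s * t)) := by
    intro t
    have := hw.poly.comp_aff t 0
    simpa [mul_comm] using this
  have hsc' : ∀ t : ℝ, IsPoly (fun s : ℝ => fw (t * s)) := by
    intro t
    have := hw.poly.comp_aff t 0
    simpa using this
  have h2 : ∀ (s : ℝ) (n : ℕ), f s + P a s (f' n) = f' n + P a' n (f s + P a s (fw (s * n))) := by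
    intro s n
    exact IsPoly.eq_of_nat (h.poly.add (poly_P haa (f' n)))
      ((IsPoly.const (f' n)).add ((h.poly.add (poly_PP haa (hsc n))).lin (P a' n)))
      (fun m => h1 m n) s
  have h3 : ∀ s t : ℝ, f s + P a s (f' t) = f' t + P a' t (f s + P a s (fw (s * t))) := by
    intro s t
    exact IsPoly.eq_of_nat ((IsPoly.const (f s)).add (h'.poly.lin (P a s)))
      (h'.poly.add (poly_PP haa' ((IsPoly.const (f s)).add ((hsc' s).lin (P a s)))))
      (fun n => h2 s n) t
  have h4 : ∀ t : ℝ, d + xd a (f' t) = P a' t (d + t • dw) := by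
    intro t
    ext x
    have e1 := (h.der (ev x)).add (P_deriv0 haa (f' t) x)
    have e0 : Der (fun s : ℝ => f s + P a s (fw (s * t))) (d + t • dw) :=
      h.der.add (Der.P haa (hsc t) (by rw [zero_mul]; exact hw.zero hww) (hw.der.scale t))
    have e2 := (e0 (ev x ∘ₗ P a' t)).const_add ((f' t).1 x)
    have e3 : (fun s => (f' t).1 x + (ev x ∘ₗ P a' t) (f s + P a s (fw (s * t)))) =
        (fun s => ev x (f s)) + fun s => (P a s (f' t)).1 x := by
      funext s
      exact (congrArg (fun p => p.1 x) (h3 s t)).symm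
    rw [e3] at e2
    exact e1.unique e2
  have h5 : xd a d' = xd a' d + dw := by
    ext x
    have e1 := (h'.der (ev x ∘ₗ xd a)).const_add (d.1 x)
    have e0 : Der (fun t : ℝ => t • dw) dw := der_smul (IsPoly.const dw)
    have e4 : IsPoly (fun t : ℝ => t • dw) := by
      have := (poly_pow 1).smul (IsPoly.const dw)
      simpa using this
    have e2 := (P_deriv0 haa' d x).add ((Der.P haa' e4 (zero_smul _ _) e0) (ev x))
    have e3 : (fun t => d.1 x + (ev x ∘ₗ xd a) (f' t)) =
        (fun t : ℝ => (P a' t d).1 x) + fun t => ev x (P a' t (t • dw)) := by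
      funext t
      have := congrArg (fun p => p.1 x) (h4 t)
      simp only [map_add] at this
      exact this
    rw [e3] at e1
    exact e1.unique e2
  rw [h5]
  abel

omit [FiniteDimensional ℝ E] in
private theorem coc_conj {G : Subgroup (GE E)} {b : GE E → HM E k} (hb : IsCoc G b) {g T : GE E}
    (hg : g ∈ G) (hT : T ∈ G) :
    b (g * T * g⁻¹) = b g + pi k g (b T) - pi k (g * T * g⁻¹) (b g) := by
  have h1 := hb g hg g⁻¹ (G.inv_mem hg)
  rw [mul_inv_cancel, coc_one hb] at h1
  have h2 : pi k g (b g⁻¹) = - b g := by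
    have := h1.symm
    rw [add_comm] at this
    exact eq_neg_of_add_eq_zero_left this
  rw [mul_assoc, hb g hg _ (G.mul_mem hT (G.inv_mem hg)), hb T hT _ (G.inv_mem hg), map_add]
  have h3 : pi k (g * (T * g⁻¹)) (b g) = - pi k g (pi k T (b g⁻¹)) := by
    rw [map_mul, map_mul]
    have h4 : b g = - pi k g (b g⁻¹) := by rw [h2, neg_neg]
    have h5 : pi k g⁻¹ (b g) = - b g⁻¹ := by
      rw [h4, map_neg]
      have h6 : pi k g⁻¹ (pi k g (b g⁻¹)) = (pi k (g⁻¹ * g)) (b g⁻¹) := by
        rw [map_mul]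
        rfl
      rw [h6, inv_mul_cancel, map_one]
      rfl
    show pi k g (pi k T (pi k g⁻¹ (b g))) = _
    rw [h5, map_neg, map_neg]
  rw [h3]
  abel

theorem uni2_main (G : Subgroup (GE E)) (b : GE E → HM E k) (hb : IsCoc G b)
    (u : Submodule ℝ (E →L[ℝ] E)) (hu : N3 u) (hL : Lat2 G u) :
    ∃ β : (E →L[ℝ] E) →ₗ[ℝ] HM E k,
      (∀ w : HM E k, (∀ a ∈ u, β a = - xd a w) → ∀ a ∈ u, te a ∈ G →
        b (te a) = w - pi k (te a) w) ∧
      (∀ a ∈ u, ∀ a' ∈ u, β (a ∘L a' - a' ∘L a) = xd a (β a') - xd a' (β a)) ∧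
      (∀ g ∈ G, (∀ a ∈ u, (g : E →L[ℝ] E) ∘L a ∘L ((g⁻¹ : GE E) : E →L[ℝ] E) ∈ u) → ∀ a ∈ u,
        β ((g : E →L[ℝ] E) ∘L a ∘L ((g⁻¹ : GE E) : E →L[ℝ] E)) = pi k g (β a) -
          xd ((g : E →L[ℝ] E) ∘L a ∘L ((g⁻¹ : GE E) : E →L[ℝ] E)) (b g)) := by
  obtain ⟨n, c, hc, hspan, hG, hbr, hM⟩ := hL
  have hcL : ∀ i, c i ∈ Submodule.span ℤ (Set.range c) := fun i =>
    Submodule.subset_span ⟨i, rfl⟩
  have hLu : ∀ a ∈ Submodule.span ℤ (Set.range c), a ∈ u := by
    intro a ha
    rw [← hspan]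
    exact Submodule.span_le_restrictScalars ℤ ℝ (Set.range c) ha
  have hcu : ∀ i, c i ∈ u := fun i => hLu _ (hcL i)
  have hcube : ∀ a ∈ u, a ∘L a ∘L a = 0 := fun a ha => hu.cube a ha a ha a ha
  have hex : ∀ a : E →L[ℝ] E, a ∈ u ∧ te a ∈ G → ∃ f d, Inf b a f d := fun a ha =>
    exists_inf G b hb (hcube a ha.1) ha.2
  choose! F D hF using hex
  have hFL : ∀ a ∈ Submodule.span ℤ (Set.range c), Inf b a (F a) (D a) := fun a ha =>
    hF a ⟨hLu a ha, hG a ha⟩
  have hadd : ∀ a ∈ Submodule.span ℤ (Set.range c), ∀ a' ∈ Submodule.span ℤ (Set.range c),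
      D (a + a') = D a + D a' := by
    intro a ha a' ha'
    exact Inf.add hb hu (hLu a ha) (hLu a' ha') (hFL a ha) (hFL a' ha')
      (hFL _ (Submodule.add_mem _ ha ha')) (hFL _ (hbr a ha a' ha')) (hG a ha) (hG a' ha')
      (hG _ (Submodule.add_mem _ ha ha')) (hG _ (hbr a ha a' ha'))
  have hD0 : D 0 = 0 := by
    have := hadd 0 (Submodule.zero_mem _) 0 (Submodule.zero_mem _)
    rw [add_zero] at this
    simpa using this
  obtain ⟨β, hβ⟩ : ∃ β : (E →L[ℝ] E) →ₗ[ℝ] HM E k, ∀ i, β (c i) = D (c i) := by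
    obtain ⟨β, hβ⟩ := LinearMap.exists_extend
      ((Module.Basis.span hc).constr ℝ (fun i => D (c i)))
    refine ⟨β, fun i => ?_⟩
    have h1 := congrArg (fun f => f ⟨c i, Submodule.subset_span ⟨i, rfl⟩⟩) hβ
    simp only [LinearMap.comp_apply, Submodule.subtype_apply] at h1
    rw [h1]
    have h2 : (⟨c i, Submodule.subset_span ⟨i, rfl⟩⟩ : Submodule.span ℝ (Set.range c)) =
        Module.Basis.span hc i := by
      apply Subtype.ext
      rw [Module.Basis.span_apply]
    rw [h2, Module.Basis.constr_basis]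
  have hβL : ∀ a ∈ Submodule.span ℤ (Set.range c), β a = D a := by
    let H : AddSubgroup (E →L[ℝ] E) :=
      { carrier := {a | a ∈ Submodule.span ℤ (Set.range c) ∧ D a = β a}
        add_mem' := by
          rintro a a' ⟨h1, h3⟩ ⟨h1', h3'⟩
          exact ⟨Submodule.add_mem _ h1 h1', by rw [hadd a h1 a' h1', h3, h3', map_add]⟩
        zero_mem' := ⟨Submodule.zero_mem _, by rw [hD0, map_zero]⟩
        neg_mem' := by
          rintro a ⟨h1, h3⟩
          refine ⟨Submodule.neg_mem _ h1, ?_⟩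
          have h4 := hadd a h1 (-a) (Submodule.neg_mem _ h1)
          rw [add_neg_cancel, hD0, h3] at h4
          rw [map_neg]
          exact (neg_eq_of_add_eq_zero_right h4.symm).symm }
    have hH : Submodule.span ℤ (Set.range c) ≤ AddSubgroup.toIntSubmodule H := by
      rw [Submodule.span_le]
      rintro _ ⟨i, rfl⟩
      exact ⟨hcL i, (hβ i).symm⟩
    exact fun a ha => (hH ha).2.symm
  have hβ1 : ∀ a ∈ u, te a ∈ G → β a = D a := by
    intro a ha hGa
    obtain ⟨M, hM0, hM1⟩ := hM a ha hGa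
    have e1 : (M : ℤ) • a = (M : ℝ) • a := by
      rw [natCast_zsmul, Nat.cast_smul_eq_nsmul]
    rw [e1] at hM1
    have h1 := hβL _ hM1
    rw [(hF a ⟨ha, hGa⟩).mul M (hFL _ hM1), map_smul] at h1
    exact smul_right_injective _ (Nat.cast_ne_zero.2 hM0 : (M : ℝ) ≠ 0) h1
  refine ⟨β, ?_, ?_, ?_⟩
  · -- (1)
    intro w hw a ha hGa
    have h := hF a ⟨ha, hGa⟩
    have haa := hcube a ha
    set f := F a with hf
    have hd : D a = - xd a w := by rw [← hβ1 a ha hGa, hw a ha]
    have hcoc : ∀ s t : ℝ, f (s + t) - w + P a (s + t) w =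
        (f s - w + P a s w) + P a s (f t - w + P a t w) := by
      intro s t
      rw [h.coc, map_add, map_sub, P_add haa]
      abel
    have hder0 : ∀ x, HasDerivAt (fun t => (f t - w + P a t w).1 x) 0 0 := by
      intro x
      have h1 := h.der (ev x)
      have h2 := (h1.sub_const (w.1 x)).add (P_deriv0 haa w x)
      have h3 : ev x (D a) + (xd a w).1 x = 0 := by
        rw [hd, ev_apply]
        show - (xd a w).1 x + (xd a w).1 x = 0
        exact neg_add_cancel _
      rw [h3] at h2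
      exact h2
    have hder : ∀ x s, HasDerivAt (fun s' => (f s' - w + P a s' w).1 x) 0 s := by
      intro x s
      have h1 := hder0 ((te (s • a))⁻¹ x)
      have h2 := ((te (s • a) : GE E) : E →L[ℝ] E).hasFDerivAt.comp_hasDerivAt (0 : ℝ) h1
      rw [map_zero] at h2
      have h3 : HasDerivAt (fun t => (f (s + t) - w + P a (s + t) w).1 x) 0 0 := by
        have h4 := h2.const_add ((f s - w + P a s w).1 x)
        refine h4.congr_of_eventuallyEq (Filter.Eventually.of_forall fun t => ?_)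
        exact congrArg (fun p => p.1 x) (hcoc s t)
      have h4 : HasDerivAt (fun s' : ℝ => s' - s) 1 s := by
        simpa using (hasDerivAt_id s).sub_const s
      have h5 : HasDerivAt (fun t => (f (s + t) - w + P a (s + t) w).1 x) 0 (s - s) := by
        rw [sub_self]
        exact h3
      have h6 := HasDerivAt.scomp (h := fun s' : ℝ => s' - s) s h5 h4
      rw [smul_zero] at h6
      refine h6.congr_of_eventuallyEq (Filter.Eventually.of_forall fun s' => ?_)
      simp only [Function.comp_apply, add_sub_cancel]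
    have h1 : f 1 - w + P a 1 w = 0 := by
      ext x
      have h2 := is_const_of_deriv_eq_zero (fun s => (hder x s).differentiableAt)
        (fun s => (hder x s).deriv) 1 0
      simp only [P_zero haa, h.zero haa, zero_sub, neg_add_cancel] at h2
      exact h2
    have h2 := h.nat 1
    rw [Nat.cast_one, one_smul] at h2
    rw [h2]
    have h3 : f 1 = w - P a 1 w := by
      have : f 1 = (f 1 - w + P a 1 w) + (w - P a 1 w) := by abel
      rw [h1, zero_add] at this
      exact this
    rw [h3]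
    unfold P
    rw [one_smul]
  · -- (2)
    have key : ∀ a ∈ Submodule.span ℤ (Set.range c), ∀ a' ∈ Submodule.span ℤ (Set.range c),
        β (a ∘L a' - a' ∘L a) = xd a (β a') - xd a' (β a) := by
      intro a ha a' ha'
      have h1 : a ∘L a' - a' ∘L a ∈ Submodule.span ℤ (Set.range c) := by
        have h2 := Submodule.smul_mem _ (2 : ℤ) (hbr a ha a' ha')
        have h3 : (2 : ℤ) • ((1 / 2 : ℝ) • (a ∘L a' - a' ∘L a)) = a ∘L a' - a' ∘L a := by
          rw [two_smul]
          module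
        rwa [h3] at h2
      rw [hβL _ h1, hβL a ha, hβL a' ha']
      exact Inf.br hb hu (hLu a ha) (hLu a' ha') (hFL a ha) (hFL a' ha') (hFL _ h1) (hG a ha)
        (hG a' ha') (hG _ h1)
    have h1 : ∀ i, ∀ a' ∈ u, β (c i ∘L a' - a' ∘L c i) = xd (c i) (β a') - xd a' (β (c i)) := by
      intro i a' ha'
      rw [← hspan] at ha'
      induction ha' using Submodule.span_induction with
      | mem x hx =>
        obtain ⟨j, rfl⟩ := hx
        exact key _ (hcL i) _ (hcL j)
      | zero => simp [xd_zero]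
      | add x y _ _ hx hy =>
        have e1 : c i ∘L (x + y) - (x + y) ∘L c i = (c i ∘L x - x ∘L c i) +
            (c i ∘L y - y ∘L c i) := by
          ext z
          simp only [add_apply, sub_apply, ContinuousLinearMap.comp_apply, map_add]
          abel
        rw [e1, map_add, hx, hy, map_add, map_add, xd_add]
        abel
      | smul t x _ hx =>
        have e1 : c i ∘L (t • x) - (t • x) ∘L c i = t • (c i ∘L x - x ∘L c i) := by
          ext z
          simp only [smul_apply, sub_apply, ContinuousLinearMap.comp_apply, map_smul, smul_sub]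
        rw [e1, map_smul, hx, map_smul, map_smul, xd_smul, smul_sub]
    intro a ha a' ha'
    rw [← hspan] at ha
    induction ha using Submodule.span_induction with
    | mem x hx =>
      obtain ⟨j, rfl⟩ := hx
      exact h1 j a' ha'
    | zero => simp [xd_zero]
    | add x y _ _ hx hy =>
      have e1 : (x + y) ∘L a' - a' ∘L (x + y) = (x ∘L a' - a' ∘L x) +
          (y ∘L a' - a' ∘L y) := by
        ext z
        simp only [add_apply, sub_apply, ContinuousLinearMap.comp_apply, map_add]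
        abel
      rw [e1, map_add, hx, hy, map_add, map_add, xd_add]
      abel
    | smul t x _ hx =>
      have e1 : (t • x) ∘L a' - a' ∘L (t • x) = t • (x ∘L a' - a' ∘L x) := by
        ext z
        simp only [smul_apply, sub_apply, ContinuousLinearMap.comp_apply, map_smul, smul_sub]
      rw [e1, map_smul, hx, map_smul, map_smul, xd_smul, smul_sub]
  · -- (3)
    intro g hg hgu a ha
    have key : ∀ i, D ((g : E →L[ℝ] E) ∘L c i ∘L ((g⁻¹ : GE E) : E →L[ℝ] E)) =
        pi k g (D (c i)) - xd ((g : E →L[ℝ] E) ∘L c i ∘L ((g⁻¹ : GE E) : E →L[ℝ] E)) (b g) := by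
      intro i
      have hci := hcube _ (hcu i)
      have hte := te_conj g hci
      set a' := (g : E →L[ℝ] E) ∘L c i ∘L ((g⁻¹ : GE E) : E →L[ℝ] E) with ha'
      have ha'u : a' ∈ u := hgu _ (hcu i)
      have ha'c := hcube _ ha'u
      have ha'G : te a' ∈ G := by
        rw [← hte]
        exact G.mul_mem (G.mul_mem hg (hG _ (hcL i))) (G.inv_mem hg)
      have h := hFL (c i) (hcL i)
      have h' := hF a' ⟨ha'u, ha'G⟩
      have h1 : ∀ m : ℕ, F a' m = b g + pi k g (F (c i) m) - P a' m (b g) := by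
        intro m
        have hGm : te ((m : ℝ) • c i) ∈ G := te_mem hci (hG _ (hcL i)) m
        have e1 : te ((m : ℝ) • a') = g * te ((m : ℝ) • c i) * g⁻¹ := by
          rw [te_conj g (te_smul_cube hci _), ha']
          congr 1
          ext x
          simp
        rw [← h'.nat, ← h.nat, e1, coc_conj hb hg hGm, ← e1]
        rfl
      have h2 : ∀ s : ℝ, F a' s = b g + pi k g (F (c i) s) - P a' s (b g) := by
        intro s
        have e1 : IsPoly (fun s : ℝ => b g + pi k g (F (c i) s) - P a' s (b g)) := by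
          have e2 := ((IsPoly.const (b g)).add (h.poly.lin (pi k g))).add
            ((poly_P ha'c (b g)).lin (- LinearMap.id))
          simpa [sub_eq_add_neg] using e2
        exact IsPoly.eq_of_nat h'.poly e1 h1 s
      ext x
      have e1 := h'.der (ev x)
      have e2 := ((h.der (ev x ∘ₗ pi k g)).const_add ((b g).1 x)).sub (P_deriv0 ha'c (b g) x)
      have e3 : (fun s => ev x (F a' s)) = (fun s => (b g).1 x + (ev x ∘ₗ pi k g) (F (c i) s)) -
          fun s : ℝ => (P a' s (b g)).1 x := by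
        funext s
        exact congrArg (fun p => p.1 x) (h2 s)
      rw [e3] at e1
      exact e1.unique e2
    have hcl : ∀ a₁ : E →L[ℝ] E, ∀ a₂, (g : E →L[ℝ] E) ∘L (a₁ + a₂) ∘L ((g⁻¹ : GE E) : E →L[ℝ] E) =
        (g : E →L[ℝ] E) ∘L a₁ ∘L ((g⁻¹ : GE E) : E →L[ℝ] E) +
        (g : E →L[ℝ] E) ∘L a₂ ∘L ((g⁻¹ : GE E) : E →L[ℝ] E) := by
      intro a₁ a₂
      ext x
      simp
    have hcs : ∀ (t : ℝ) (a₁ : E →L[ℝ] E), (g : E →L[ℝ] E) ∘L (t • a₁) ∘L
        ((g⁻¹ : GE E) : E →L[ℝ] E) =
        t • ((g : E →L[ℝ] E) ∘L a₁ ∘L ((g⁻¹ : GE E) : E →L[ℝ] E)) := by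
      intro t a₁
      ext x
      simp
    rw [← hspan] at ha
    induction ha using Submodule.span_induction with
    | mem x hx =>
      obtain ⟨i, rfl⟩ := hx
      have ha'u : (g : E →L[ℝ] E) ∘L c i ∘L ((g⁻¹ : GE E) : E →L[ℝ] E) ∈ u := hgu _ (hcu i)
      have ha'G : te ((g : E →L[ℝ] E) ∘L c i ∘L ((g⁻¹ : GE E) : E →L[ℝ] E)) ∈ G := by
        rw [← te_conj g (hcube _ (hcu i))]
        exact G.mul_mem (G.mul_mem hg (hG _ (hcL i))) (G.inv_mem hg)
      rw [hβ1 _ ha'u ha'G, hβ, key]
    | zero =>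
      have h0 : (g : E →L[ℝ] E) ∘L (0 : E →L[ℝ] E) ∘L ((g⁻¹ : GE E) : E →L[ℝ] E) = 0 := by
        ext x
        simp
      rw [h0, map_zero, map_zero, xd_zero, sub_zero]
    | add x y _ _ hx hy =>
      rw [hcl, map_add, map_add, map_add, xd_add, hx, hy]
      abel
    | smul t x _ hx =>
      rw [hcs, map_smul, map_smul, map_smul, xd_smul, hx, smul_sub]

theorem defect2 (G : Subgroup (GE E)) (b : GE E → HM E k) (hb : IsCoc G b)
    (u : Submodule ℝ (E →L[ℝ] E)) (hu : N3 u) (hL : Lat2 G u) (w : HM E k)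
    (hw : Triv b w {g | g ∈ G ∧ g ∈ tes u}) {g : GE E} (hg : g ∈ G)
    (hc : ∀ a ∈ u, ((g⁻¹ : GE E) : E →L[ℝ] E) ∘L a ∘L (g : E →L[ℝ] E) ∈ u) :
    pi k g w + b g - w ∈ kil k u := by
  refine kil_of_lat2 G u hu hL _ ?_
  rintro _ hT ⟨a, ha, rfl⟩
  have h1 : te (((g⁻¹ : GE E) : E →L[ℝ] E) ∘L a ∘L (g : E →L[ℝ] E)) = g⁻¹ * te a * g := by
    have := te_conj g⁻¹ (hu.cube a ha a ha a ha)
    rw [inv_inv] at this
    exact this.symm
  have hT' : g⁻¹ * te a * g ∈ G := G.mul_mem (G.mul_mem (G.inv_mem hg) hT) hg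
  have h2 : b (te a) = w - pi k (te a) w := hw _ ⟨hT, a, ha, rfl⟩
  have h3 : b (g⁻¹ * te a * g) = w - pi k (g⁻¹ * te a * g) w :=
    hw _ ⟨hT', _, hc a ha, h1.symm⟩
  have h4 : g * (g⁻¹ * te a * g) = te a * g := by group
  have h5 := hb g hg _ hT'
  rw [h4, hb _ hT g hg, h2, h3, map_sub] at h5
  have h6 : pi k g (pi k (g⁻¹ * te a * g) w) = pi k (te a) (pi k g w) := by
    have h7 : pi k g (pi k (g⁻¹ * te a * g) w) = pi k (g * (g⁻¹ * te a * g)) w := by
      rw [map_mul (pi k) g]
      rfl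
    rw [h7, h4, map_mul]
    rfl
  rw [h6] at h5
  rw [map_sub, map_add]
  have h8 : pi k (te a) (pi k g w) + pi k (te a) (b g) - pi k (te a) w =
      (w - pi k (te a) w + pi k (te a) (b g)) - w + pi k (te a) (pi k g w) := by abel
  rw [h8, h5]
  abel

end
end LatLin
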