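import Pool.Agent.Lib.MP_2392aa_gt.O.LemUc
import Pool.Agent.Lib.MP_2392aa_gt.O.TNorm
import Pool.Agent.Lib.MP_2392aa_gt.O.Uni2

/-!
MP_2392aa_gt, outer type, module FixU (about 300 lines): rank one, a cocycle is trivial on the unipotent
group of a flag.

PROOF.
* `pp_ro`: `ro v v x = ⟪v, x⟫ v`: direct.
* `uO_uu`: `mem_uO` for `e = ro v v`, `e' = ro v' v'`: `a (e x) = 0` for all `x` iff `a v = 0`; `e' (a x) = 0` iff
  `⟪v', a x⟫ = 0`; third condition: if `⟪v', x⟫ = 0` then `x = e x + mid x`, `a x = a (mid x)` is fixed by `e`, i.e.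
  `a x = ⟪v, a x⟫ v`; conversely `⟪v', mid x⟫ = 0`.
* `fixU`. `t` is self adjoint: `t x = lam ⟪v, x⟫ v + lam ⟪v', x⟫ v' + mu (x - ⟪v, x⟫ v - ⟪v', x⟫ v')`. `tn_split` for
  `z = b t`: `b t = z0 + (w0 - pi t w0)` with `pi t z0 = z0`. Put `b' g := b g - (w0 - pi g w0)`: a cocycle of `G`
  with `b' t = z0`. Put `u := uO (ro v v) (ro v' v') = uu v v'` and let `β` be from `uni2_main` for `b'`
  (`uO_N3`). `t` normalizes `u` (`t` is in `blkL`, `uO_conj`), so by (3)
  `β (t a t⁻¹) = pi t (β a) - xd (t a t⁻¹) z0` for `a ∈ u`.      (*)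
  Let `a ∈ u` with `t a t⁻¹ = ν a`, `ν ≠ 0`. Then (*) is `ν β a = pi t (β a) - ν xd a z0`. Now
  `pi t (xd a z0) = xd (t a t⁻¹) (pi t z0) = ν xd a z0` (`pi_xd3`), so `y := β a` satisfies
  `pi t y - ν y = ν xd a z0` and `pi t (pi t y - ν y) = ν (pi t y - ν y)`; by `tn_eig` `pi t y = ν y`, so
  `xd a z0 = 0` and `β (t a t⁻¹) = pi t (β a)`. By `uu_dec` every `a ∈ u` is
  `ro q v + ro v' η`, `q ⟂ v, v'`, `η ⟂ v'`, and `ro v' η = ro v' (η - ⟪v, η⟫ v) + ⟪v, η⟫ ro v' v`; the three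
  operators `ro q v`, `ro v' y` (`y ⟂ v, v'`), `ro v' v` are in `uu v v'` and eigenvectors for
  `ν = lam / mu`, `mu / lam`, `1`. So `xd a z0 = 0` and `β (t a t⁻¹) = pi t (β a)` for all `a ∈ u`, by
  linearity; together with (2) of `uni2_main`: `UCoc v v' t β`. `lemU` gives `w1` with `β a = xd a w1` on `u`, so
  by (1) of `uni2_main` with `- w1`: `b' (te a) = - w1 - pi (te a) (- w1)` for `a ∈ u`, `te a ∈ G`. Take
  `w := w0 - w1`.
* `fixU_kl`: from `kil_of_lat2`, `uO_N3`, `uO_uu`.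
-/

open scoped ContDiff Topology

namespace LatLin

section
variable {E : Type*} [NormedAddCommGroup E] [InnerProductSpace ℝ E]

theorem pp_ro {v v' : E} (hv : ‖v‖ = 1) (hv' : ‖v'‖ = 1) (h : inner ℝ v v' = (0 : ℝ)) :
    PP (ro v v) (ro v' v') := by
  have hvv : inner ℝ v v = (1 : ℝ) := by rw [real_inner_self_eq_norm_sq, hv]; norm_num
  have hvv' : inner ℝ v' v' = (1 : ℝ) := by rw [real_inner_self_eq_norm_sq, hv']; norm_num
  have ho : inner ℝ v' v = (0 : ℝ) := by rw [real_inner_comm]; exact h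
  refine ⟨⟨fun x => ?_, fun x y => ?_⟩, ⟨fun x => ?_, fun x y => ?_⟩, fun x => ?_, fun x => ?_⟩
  · simp only [ro_apply, inner_smul_right, hvv, mul_one]
  · simp only [ro_apply, inner_smul_right, real_inner_smul_left]
    rw [real_inner_comm v x]
    ring
  · simp only [ro_apply, inner_smul_right, hvv', mul_one]
  · simp only [ro_apply, inner_smul_right, real_inner_smul_left]
    rw [real_inner_comm v' x]
    ring
  · simp only [ro_apply, inner_smul_right, h, mul_zero, zero_smul]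
  · simp only [ro_apply, inner_smul_right, ho, mul_zero, zero_smul]

theorem uO_uu {v v' : E} (hv : ‖v‖ = 1) (hv' : ‖v'‖ = 1) (h : inner ℝ v v' = (0 : ℝ)) :
    uO (ro v v) (ro v' v') = uu v v' := by
  have hvv : inner ℝ v v = (1 : ℝ) := by rw [real_inner_self_eq_norm_sq, hv]; norm_num
  have hvv' : inner ℝ v' v' = (1 : ℝ) := by rw [real_inner_self_eq_norm_sq, hv']; norm_num
  have ho : inner ℝ v' v = (0 : ℝ) := by rw [real_inner_comm]; exact h
  have hv0 : v' ≠ 0 := by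
    intro h0
    rw [h0, norm_zero] at hv'
    norm_num at hv'
  ext a
  rw [mem_uO (pp_ro hv hv' h)]
  constructor
  · rintro ⟨h1, h2, h3⟩
    have g1 : a v = 0 := by
      have := h1 v
      rwa [ro_apply, hvv, one_smul] at this
    refine ⟨g1, fun x => ?_, fun x hx => ?_⟩
    · have := h2 x
      rw [ro_apply, smul_eq_zero] at this
      exact this.resolve_right hv0
    · have := h3 x
      rw [ro_apply, ro_apply, ro_apply, hx, zero_smul, sub_zero, map_sub, map_smul, g1,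
        smul_zero, sub_zero] at this
      exact this.symm
  · rintro ⟨g1, g2, g3⟩
    refine ⟨fun x => ?_, fun x => ?_, fun x => ?_⟩
    · rw [ro_apply, map_smul, g1, smul_zero]
    · rw [ro_apply, g2, zero_smul]
    · have h4 : inner ℝ v' (x - ro v v x - ro v' v' x) = (0 : ℝ) := by
        rw [inner_sub_right, inner_sub_right, ro_apply, ro_apply, inner_smul_right,
          inner_smul_right, ho, hvv']
        ring
      rw [ro_apply]
      exact (g3 _ h4).symm

private theorem fu_t {v v' : E} {lam mu : ℝ} {t : GE E} (hs : Std v v' lam mu t) (x : E) :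
    t x = (lam * (inner ℝ v x : ℝ)) • v + (lam * (inner ℝ v' x : ℝ)) • v' +
      mu • (x - (inner ℝ v x : ℝ) • v - (inner ℝ v' x : ℝ) • v') := by
  have hvv : inner ℝ v v = (1 : ℝ) := by rw [real_inner_self_eq_norm_sq, hs.nv]; norm_num
  have hvv' : inner ℝ v' v' = (1 : ℝ) := by rw [real_inner_self_eq_norm_sq, hs.nv']; norm_num
  have ho : inner ℝ v' v = (0 : ℝ) := by rw [real_inner_comm]; exact hs.orth
  have h1 := hs.tN (x - (inner ℝ v x : ℝ) • v - (inner ℝ v' x : ℝ) • v')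
    (by rw [inner_sub_right, inner_sub_right, inner_smul_right, inner_smul_right, hvv, hs.orth]
        ring)
    (by rw [inner_sub_right, inner_sub_right, inner_smul_right, inner_smul_right, hvv', ho]
        ring)
  rw [map_sub, map_sub, map_smul, map_smul, hs.tv, hs.tv', sub_sub, sub_eq_iff_eq_add] at h1
  rw [h1]
  module

private theorem fu_sa {v v' : E} {lam mu : ℝ} {t : GE E} (hs : Std v v' lam mu t) (x y : E) :
    inner ℝ (t x) y = (inner ℝ x (t y) : ℝ) := by
  rw [fu_t hs x, fu_t hs y]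
  simp only [inner_add_left, inner_add_right, inner_sub_left, inner_sub_right,
    real_inner_smul_left, inner_smul_right]
  rw [real_inner_comm x v, real_inner_comm x v']
  ring

private theorem fu_iv {v v' : E} {lam mu : ℝ} {t : GE E} (hs : Std v v' lam mu t) (x : E) :
    inner ℝ v (t x) = lam * (inner ℝ v x : ℝ) := by
  rw [← fu_sa hs, hs.tv, real_inner_smul_left]

private theorem fu_iv' {v v' : E} {lam mu : ℝ} {t : GE E} (hs : Std v v' lam mu t) (x : E) :
    inner ℝ v' (t x) = lam * (inner ℝ v' x : ℝ) := by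
  rw [← fu_sa hs, hs.tv', real_inner_smul_left]

private theorem fu_iN {v v' : E} {lam mu : ℝ} {t : GE E} (hs : Std v v' lam mu t) {q : E}
    (hq : inner ℝ v q = (0 : ℝ)) (hq' : inner ℝ v' q = (0 : ℝ)) (x : E) :
    inner ℝ q (t x) = mu * (inner ℝ q x : ℝ) := by
  rw [← fu_sa hs, hs.tN q hq hq', real_inner_smul_left]

variable [FiniteDimensional ℝ E] {k : ℕ}

omit [FiniteDimensional ℝ E] in
private theorem fu_xds (c : ℝ) (a : E →L[ℝ] E) (w : HM E k) : xd (c • a) w = c • xd a w := by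
  have := (xdL w).map_smul c a
  simpa only [xdL_apply] using this

theorem fixU (hk : 1 ≤ k) {v v' : E} {lam mu : ℝ} {t : GE E} (hs : Std v v' lam mu t)
    (G : Subgroup (GE E)) (ht : t ∈ G) (b : GE E → HM E k) (hb : IsCoc G b)
    (hL : Lat2 G (uO (ro v v) (ro v' v'))) :
    ∃ w : HM E k, Triv b w {g | g ∈ G ∧ g ∈ tes (uO (ro v v) (ro v' v'))} := by
  have hPP := pp_ro hs.nv hs.nv' hs.orth
  have huu := uO_uu hs.nv hs.nv' hs.orth
  have hN3 := uO_N3 hPP
  have ho : inner ℝ v' v = (0 : ℝ) := by rw [real_inner_comm]; exact hs.orth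
  have hvv : inner ℝ v v = (1 : ℝ) := by rw [real_inner_self_eq_norm_sq, hs.nv]; norm_num
  have hvv' : inner ℝ v' v' = (1 : ℝ) := by rw [real_inner_self_eq_norm_sq, hs.nv']; norm_num
  have hlam : lam ≠ 0 := by
    intro h
    have := hs.l1
    rw [h, abs_zero] at this
    linarith
  have hmu : mu ≠ 0 := abs_pos.1 hs.m0
  have hsa := fu_sa hs
  have htt : ∀ x : E, t ((t⁻¹ : GE E) x) = x := fun x => t.apply_symm_apply x
  obtain ⟨w0, z0, hz0, hbt⟩ := tn_split t hsa (b t)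
  set b' : GE E → HM E k := fun g => b g - (w0 - pi k g w0) with hb'
  have hb'c : IsCoc G b' := by
    intro g hg h hh
    simp only [hb']
    rw [hb g hg h hh, map_mul, Module.End.mul_apply, map_sub, map_sub]
    abel
  have hb't : b' t = z0 := by
    simp only [hb']
    rw [hbt]
    abel
  obtain ⟨β, h1, h2, h3⟩ := uni2_main G b' hb'c _ hN3 hL
  have htb : t ∈ blkL (ro v v) (ro v' v') := by
    refine ⟨fun x => ?_, fun x => ?_⟩
    · rw [ro_apply, ro_apply, fu_iv hs, map_smul, hs.tv, smul_smul, mul_comm]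
    · rw [ro_apply, ro_apply, fu_iv' hs, map_smul, hs.tv', smul_smul, mul_comm]
  have hnorm : ∀ a ∈ uO (ro v v) (ro v' v'),
      (t : E →L[ℝ] E) ∘L a ∘L ((t⁻¹ : GE E) : E →L[ℝ] E) ∈ uO (ro v v) (ro v' v') :=
    fun a ha => uO_conj hPP htb ha
  have hstar : ∀ a ∈ uO (ro v v) (ro v' v'),
      β ((t : E →L[ℝ] E) ∘L a ∘L ((t⁻¹ : GE E) : E →L[ℝ] E)) = pi k t (β a) -
        xd ((t : E →L[ℝ] E) ∘L a ∘L ((t⁻¹ : GE E) : E →L[ℝ] E)) z0 := by
    intro a ha
    have := h3 t ht hnorm a ha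
    rwa [hb't] at this
  have heig : ∀ a ∈ uO (ro v v) (ro v' v'), ∀ ν : ℝ, ν ≠ 0 →
      (t : E →L[ℝ] E) ∘L a ∘L ((t⁻¹ : GE E) : E →L[ℝ] E) = ν • a →
      β ((t : E →L[ℝ] E) ∘L a ∘L ((t⁻¹ : GE E) : E →L[ℝ] E)) = pi k t (β a) := by
    intro a ha ν hν hνa
    have h4 := hstar a ha
    have h5 := pi_xd3 t a z0
    rw [hνa, hz0, fu_xds] at h5
    rw [hνa, map_smul, fu_xds] at h4
    have h6 : pi k t (β a) - ν • β a = ν • xd a z0 := by
      rw [h4]
      abel
    have h7 : pi k t (pi k t (β a) - ν • β a) = ν • (pi k t (β a) - ν • β a) := by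
      rw [h6, map_smul, h5]
    have h8 := tn_eig t hsa ν (β a) h7
    rw [hνa, map_smul, h8]
  have heq : ∀ a ∈ uu v v',
      β ((t : E →L[ℝ] E) ∘L a ∘L ((t⁻¹ : GE E) : E →L[ℝ] E)) = pi k t (β a) := by
    intro a ha
    obtain ⟨q, η, hq, hq', hη, rfl⟩ := uu_dec hs.nv hs.nv' hs.orth ha
    set y : E := η - (inner ℝ v η : ℝ) • v with hy
    have hy1 : inner ℝ v y = (0 : ℝ) := by
      rw [hy, inner_sub_right, inner_smul_right, hvv]
      ring
    have hy2 : inner ℝ v' y = (0 : ℝ) := by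
      rw [hy, inner_sub_right, inner_smul_right, hη, ho]
      ring
    have hr0 : ∀ p : E, ro p (0 : E) = 0 := by
      intro p
      ext x
      simp
    have hr1 : ∀ p : E, ro (0 : E) p = 0 := by
      intro p
      ext x
      simp
    have m1 : ro q v ∈ uO (ro v v) (ro v' v') := by
      rw [huu]
      have := ro_mem_uu hs.nv hs.nv' hs.orth (q := q) (η := 0) hq (inner_zero_right _)
      rwa [hr0, add_zero] at this
    have m2 : ro v' y ∈ uO (ro v v) (ro v' v') := by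
      rw [huu]
      have := ro_mem_uu hs.nv hs.nv' hs.orth (q := 0) (η := y) (inner_zero_right _) hy2
      rwa [hr1, zero_add] at this
    have m3 : ro v' v ∈ uO (ro v v) (ro v' v') := by
      rw [huu]
      have := ro_mem_uu hs.nv hs.nv' hs.orth (q := 0) (η := v) (inner_zero_right _) ho
      rwa [hr1, zero_add] at this
    have e1 := heig _ m1 (lam / mu) (div_ne_zero hlam hmu) (by
      ext x
      show t ((inner ℝ q ((t⁻¹ : GE E) x) : ℝ) • v) = (lam / mu) • ((inner ℝ q x : ℝ) • v)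
      have h3 := fu_iN hs hq hq' ((t⁻¹ : GE E) x)
      rw [htt] at h3
      rw [map_smul, hs.tv, h3, smul_smul, smul_smul]
      congr 1
      field_simp)
    have e2 := heig _ m2 (mu / lam) (div_ne_zero hmu hlam) (by
      ext x
      show t ((inner ℝ v' ((t⁻¹ : GE E) x) : ℝ) • y) = (mu / lam) • ((inner ℝ v' x : ℝ) • y)
      have h3 := fu_iv' hs ((t⁻¹ : GE E) x)
      rw [htt] at h3
      rw [map_smul, hs.tN y hy1 hy2, h3, smul_smul, smul_smul]
      congr 1
      field_simp)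
    have e3 := heig _ m3 1 one_ne_zero (by
      ext x
      show t ((inner ℝ v' ((t⁻¹ : GE E) x) : ℝ) • v) = (1 : ℝ) • ((inner ℝ v' x : ℝ) • v)
      have h3 := fu_iv' hs ((t⁻¹ : GE E) x)
      rw [htt] at h3
      rw [map_smul, hs.tv, h3, smul_smul, smul_smul]
      congr 1
      ring)
    have hdec : ro q v + ro v' η = ro q v + (ro v' y + (inner ℝ v η : ℝ) • ro v' v) := by
      ext x
      simp only [add_apply, ro_apply, smul_apply, hy]
      module
    have hlin : ∀ a a' : E →L[ℝ] E, (t : E →L[ℝ] E) ∘L (a + a') ∘L ((t⁻¹ : GE E) : E →L[ℝ] E) =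
        (t : E →L[ℝ] E) ∘L a ∘L ((t⁻¹ : GE E) : E →L[ℝ] E) +
          (t : E →L[ℝ] E) ∘L a' ∘L ((t⁻¹ : GE E) : E →L[ℝ] E) := by
      intro a a'
      ext x
      simp
    have hlin2 : ∀ (c : ℝ) (a : E →L[ℝ] E),
        (t : E →L[ℝ] E) ∘L (c • a) ∘L ((t⁻¹ : GE E) : E →L[ℝ] E) =
        c • ((t : E →L[ℝ] E) ∘L a ∘L ((t⁻¹ : GE E) : E →L[ℝ] E)) := by
      intro c a
      ext x
      simp
    rw [hdec, hlin, hlin, hlin2]
    rw [map_add, map_add, map_smul, e1, e2, e3, map_add β, map_add β, map_smul β, map_add,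
      map_add, map_smul]
  have hU : UCoc v v' t β := by
    refine ⟨fun a ha a' ha' => ?_, heq⟩
    rw [← huu] at ha ha'
    exact (h2 a ha a' ha').symm
  obtain ⟨w1, -, hw1⟩ := lemU hs hk β hU
  have h5 := h1 (-w1) (fun a ha => by
    rw [huu] at ha
    rw [map_neg, neg_neg, hw1 a ha])
  refine ⟨w0 - w1, ?_⟩
  rintro g ⟨hgG, a, ha, rfl⟩
  have h6 := h5 a ha hgG
  simp only [hb'] at h6
  rw [map_neg, sub_eq_iff_eq_add] at h6
  rw [h6, map_sub]
  abel

theorem fixU_kl {v v' : E} (hv : ‖v‖ = 1) (hv' : ‖v'‖ = 1) (h : inner ℝ v v' = (0 : ℝ))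
    (G : Subgroup (GE E)) (hL : Lat2 G (uO (ro v v) (ro v' v'))) (w : HM E k)
    (hw : ∀ s ∈ {g | g ∈ G ∧ g ∈ tes (uO (ro v v) (ro v' v'))}, pi k s w = w) :
    w ∈ kil k (uu v v') := by
  rw [← uO_uu hv hv' h]
  exact kil_of_lat2 G _ (uO_N3 (pp_ro hv hv' h)) hL w fun g hg hgu => hw g ⟨hg, hgu⟩

end
end LatLin
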