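import Pool.Agent.Lib.MP_2392aa_gt.O.CornO

/-!
MP_2392aa_gt, formal linearization, outer type, module GenA (about 300 lines): generation of the
group of rational unitary elements, first part.

Write `f := mid e e'`, `C := Subgroup.closure (GenO O e e')`.
`up_gen`. Let `g ∈ GQO O` with `g V ⊆ V` (`e' g e = 0`, `f g e = 0`). Finite dimension: `g V = V`, so `g⁻¹ V = V`:
`e' g⁻¹ e = 0`, `f g⁻¹ e = 0`. The pair `x = (g, op g⁻¹)` is rational and so is its exchange
`(g⁻¹, op g)`. `(e', op e) x (f, op f) = (e' g f, op (f g⁻¹ e)) = (e' g f, 0)`, so `e' g f = 0` (`rr_uniq` after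
exchange). So `g` is block upper triangular, `updec` gives `g = u l`, `u ∈ tes (uO e e')`, `l ∈ blkL`,
`l x = e g e x + f g f x + e' g e' x`. `g⁻¹` is block upper triangular too, so `l⁻¹ = e g⁻¹ e + f g⁻¹ f +
e' g⁻¹ e'`, and `(l, op l⁻¹) = ∑ (p, op p') x (p, op p')` over `(p, p') = (e, e'), (f, f), (e', e)` (the second component
is `e' g⁻¹ e' + f g⁻¹ f + e g⁻¹ e`): rational, `l ∈ GQO O`, so `u = g l⁻¹ ∈ GQO O`. Both are in `GenO O e e'`.
`sig_ex`. `s, s'` from `corn_skew`, `σ := te s * te s' * te s` (`s ∈ uO e e'`, `s ∘ s = 0`, rational: `gqo_te`;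
`s' ∈ uO e' e`). For `v ∈ V`: `s v = 0`, `te s' v = v + s' v`, `te s (v + s' v) = v + s' v + s s' v = s' v`
(`s s' v = - v`). For `v' ∈ V'`: `te s v' = v' + s v'`, `te s' (v' + s v') = v' + s v' + s' s v' = s v'`
(`s' v' = 0`), `te s (s v') = s v'`. For `y ∈ N`: `s y = s' y = 0`, `σ y = y`. So `σ = s' + s + f` as an
operator.
`cell_gen`. Let `g ∈ GQO O`, `β := e' g e ≠ 0`. `β2 := e' g⁻¹ e`, `RR O β β2`; `γ, γ2` from `corn_inv`:
`γ β = e`, `β γ = e'`, `β2 γ2 = e'`, `γ2 β2 = e`. Put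
`X := f g e γ - γ2 e' g⁻¹ f + (1/2) (e g e γ - γ2 e' g⁻¹ e')`.
(a) `X ∈ uO e e'` (`mem_uO`), (b) `RR O X (-X)`: `ρ := (f, op f) (g, op g⁻¹) (e, op e') (γ, op γ2) =
(f g e γ, op (γ2 e' g⁻¹ f))` is rational, its exchange is `(γ2 e' g⁻¹ f, op (f g e γ))`; `X`'s first part is
`ρ - ρ*`. `η := (e, op e') (g, op g⁻¹) (e, op e') (γ, op γ2) = (e g e γ, op (γ2 e' g⁻¹ e'))`, its exchange is
`(γ2 e' g⁻¹ e', op (e g e γ))`; the second part of `X` is `(1/2) (η - η*)`.
(c) `g e = te X β` (as operators): for `v ∈ V`, `v' := β v`, `v = γ v'`. `te X v' = v' + X v' + X X v' / 2`.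
`X v' = f g v + (1/2) (e g v - γ2 e' g⁻¹ v')`, `X X v' = - γ2 e' g⁻¹ f g v` (`X` kills `V`). From
`0 = e' g⁻¹ g v = e' g⁻¹ (e g v + f g v + v')` and `e' g⁻¹ e = β2`, `γ2 β2 = e`: applying `γ2`:
`0 = e g v + γ2 e' g⁻¹ f g v + γ2 e' g⁻¹ v'`. So the `V`-component of `te X v'` is
`(1/2) (e g v - γ2 e' g⁻¹ v' - γ2 e' g⁻¹ f g v) = e g v`. Hence `te X v' = v' + f g v + e g v = g v`.
Now `g1 := σ⁻¹ (te X)⁻¹ g` maps `v ∈ V` to `σ⁻¹ β v ∈ V` (`σ` from `sig_ex`), it is in `GQO O`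
(`gqo_te`), so `g1 ∈ C` (`up_gen`), and `te X ∈ GenO O e e'`, `σ ∈ C`.
-/

open scoped ContDiff Topology
open MulOpposite

namespace LatLin

section
variable {E : Type*} [NormedAddCommGroup E] [InnerProductSpace ℝ E] {e e' : E →L[ℝ] E}

/-- the decomposition of a vector -/
private theorem dec (e e' : E →L[ℝ] E) (x : E) : x = e x + mid e e' x + e' x := by
  rw [mid_apply]
  abel

private theorem e_mid (h : PP e e') (x : E) : e (mid e e' x) = 0 := by
  simp only [mid_apply, map_sub, h.pr.idem, h.o]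
  abel

private theorem e'_mid (h : PP e e') (x : E) : e' (mid e e' x) = 0 := by
  simp only [mid_apply, map_sub, h.pr'.idem, h.o']
  abel

private theorem mid_e (h : PP e e') (x : E) : mid e e' (e x) = 0 := by
  simp only [mid_apply, h.pr.idem, h.o']
  abel

private theorem mid_e' (h : PP e e') (x : E) : mid e e' (e' x) = 0 := by
  simp only [mid_apply, h.pr'.idem, h.o]
  abel

private theorem mid_mid (h : PP e e') (x : E) : mid e e' (mid e e' x) = mid e e' x := by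
  have h1 := dec e e' (mid e e' x)
  rw [e_mid h, e'_mid h, zero_add, add_zero] at h1
  exact h1.symm

private theorem inv_apply (g : GE E) (x : E) : (g⁻¹ : GE E) (g x) = x := g.symm_apply_apply x

private theorem apply_inv (g : GE E) (x : E) : g ((g⁻¹ : GE E) x) = x := g.apply_symm_apply x

/-- an invertible map which preserves `V` -/
private theorem pres_inv [FiniteDimensional ℝ E] (h : PP e e') {g : GE E}
    (h1 : ∀ x, e (g (e x)) = g (e x)) (x : E) :
    e ((g⁻¹ : GE E) (e x)) = (g⁻¹ : GE E) (e x) := by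
  have h2 : (LinearMap.range (e : E →ₗ[ℝ] E)).map (g.toLinearEquiv : E →ₗ[ℝ] E) ≤
      LinearMap.range (e : E →ₗ[ℝ] E) := by
    rintro _ ⟨_, ⟨y, rfl⟩, rfl⟩
    exact ⟨g (e y), h1 y⟩
  have h3 := Submodule.eq_of_le_of_finrank_eq h2 (LinearEquiv.finrank_map_eq g.toLinearEquiv _)
  have h4 : e x ∈ (LinearMap.range (e : E →ₗ[ℝ] E)).map (g.toLinearEquiv : E →ₗ[ℝ] E) := by
    rw [h3]
    exact ⟨x, rfl⟩
  obtain ⟨_, ⟨y, rfl⟩, hy⟩ := h4
  have h5 : g (e y) = e x := hy
  rw [← h5, inv_apply, h.pr.idem]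

end

section
variable {E : Type*} [NormedAddCommGroup E] [InnerProductSpace ℝ E] [FiniteDimensional ℝ E]
  {O : Subring (DE E)} {e e' : E →L[ℝ] E}

/-- block triangular shape -/
private theorem tri0 (h : OD O e e') {g : GE E} (hg : g ∈ GQO O)
    (h1 : ∀ x, e (g (e x)) = g (e x)) (x : E) : e' (g (mid e e' x)) = 0 := by
  have hsw := rr_swap h.ox h.rat
  have h2 := rr_mul (rr_mul hsw hg.1) (rr_mid h)
  have h3 : mid e e' * (((g⁻¹ : GE E) : E →L[ℝ] E) * e) = 0 := by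
    ext y
    show mid e e' ((g⁻¹ : GE E) (e y)) = 0
    rw [← pres_inv h.pp h1 y, mid_e h.pp]
  rw [h3] at h2
  have h4 := rr_uniq h.ox (rr_swap h.ox h2)
  exact congrArg (fun f => f x) h4

theorem up_gen (h : OD O e e') {g : GE E} (hg : g ∈ GQO O)
    (h1 : ∀ x, e (g (e x)) = g (e x)) :
    (∃ u ∈ tes (uO e e'), u ∈ GQO O ∧ ∃ l ∈ blkL e e', l ∈ GQO O ∧ g = u * l) ∧
      g ∈ Subgroup.closure (GenO O e e') := by
  have hp := h.pp
  have hsw := rr_swap h.ox h.rat
  have h1' := pres_inv hp h1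
  have t1 := tri0 h hg h1
  have t2 := tri0 h (gqo_inv hg) h1'
  have k1 : ∀ x, e' (g (e x)) = 0 := fun x => by rw [← h1, hp.o']
  have k2 : ∀ x, mid e e' (g (e x)) = 0 := fun x => by rw [← h1, mid_e hp]
  have h2 : ∀ x, e' (g x) = e' (g (e' x)) := by
    intro x
    conv_lhs => rw [dec e e' x]
    rw [map_add, map_add, map_add, map_add, k1, t1, zero_add, zero_add]
  obtain ⟨u, hu, l, hl, hgul, hlx⟩ := updec hp g h1 h2
  have hlinv : ∀ x, (l⁻¹ : GE E) x = e ((g⁻¹ : GE E) (e x)) +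
      mid e e' ((g⁻¹ : GE E) (mid e e' x)) + e' ((g⁻¹ : GE E) (e' x)) := by
    intro x
    have h3 : l (e ((g⁻¹ : GE E) (e x)) +
      mid e e' ((g⁻¹ : GE E) (mid e e' x)) + e' ((g⁻¹ : GE E) (e' x))) = x := by
      rw [hlx]
      simp only [map_add, hp.pr.idem, hp.pr'.idem, hp.o, hp.o', e_mid hp, e'_mid hp,
        mid_e hp, mid_e' hp, mid_mid hp, map_zero, add_zero, zero_add]
      rw [h1' x, apply_inv, hp.pr.idem]
      have h4 : mid e e' (g (mid e e' ((g⁻¹ : GE E) (mid e e' x)))) = mid e e' x := by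
        have h5 := congrArg (fun z => mid e e' (g z)) (dec e e' ((g⁻¹ : GE E) (mid e e' x)))
        simp only [map_add, k2, t2, map_zero, add_zero, zero_add] at h5
        rw [← h5, apply_inv, mid_mid hp]
      have h6 : e' (g (e' ((g⁻¹ : GE E) (e' x)))) = e' x := by
        rw [← h2, apply_inv, hp.pr'.idem]
      rw [h4, h6]
      exact (dec e e' x).symm
    rw [← h3, inv_apply, h3]
  have hlG : l ∈ GQO O := by
    refine gqo_of h.ox ?_
    have r1 := rr_mul (rr_mul h.rat hg.1) h.rat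
    have r2 := rr_mul (rr_mul (rr_mid h) hg.1) (rr_mid h)
    have r3 := rr_mul (rr_mul hsw hg.1) hsw
    have r4 := rr_add (rr_add r1 r2) r3
    have e1 : (l : E →L[ℝ] E) = e * (g : E →L[ℝ] E) * e +
        mid e e' * (g : E →L[ℝ] E) * mid e e' + e' * (g : E →L[ℝ] E) * e' := by
      ext x
      exact hlx x
    have e2 : ((l⁻¹ : GE E) : E →L[ℝ] E) = e' * (((g⁻¹ : GE E) : E →L[ℝ] E) * e') +
        mid e e' * (((g⁻¹ : GE E) : E →L[ℝ] E) * mid e e') +
        e * (((g⁻¹ : GE E) : E →L[ℝ] E) * e) := by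
      ext x
      show (l⁻¹ : GE E) x = e' ((g⁻¹ : GE E) (e' x)) +
        mid e e' ((g⁻¹ : GE E) (mid e e' x)) + e ((g⁻¹ : GE E) (e x))
      rw [hlinv]
      abel
    rw [e1, e2]
    exact r4
  have huG : u ∈ GQO O := by
    have h3 : u = g * l⁻¹ := by rw [hgul, mul_inv_cancel_right]
    rw [h3]
    exact gqo_mul hg (gqo_inv hlG)
  refine ⟨⟨u, hu, huG, l, hl, hlG, hgul⟩, ?_⟩
  rw [hgul]
  exact Subgroup.mul_mem _ (Subgroup.subset_closure ⟨huG, Or.inl hu⟩)
    (Subgroup.subset_closure ⟨hlG, Or.inr (Or.inr hl)⟩)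

omit [FiniteDimensional ℝ E] in
private theorem te_sq {s : E →L[ℝ] E} (hs : s ∘L s = 0) (x : E) : te s x = x + s x := by
  rw [te_of_sq hs, tw_apply hs]

omit [FiniteDimensional ℝ E] in
private theorem cube_sq {s : E →L[ℝ] E} (hs : s ∘L s = 0) : s ∘L s ∘L s = 0 := by
  rw [hs, ContinuousLinearMap.comp_zero]

theorem sig_ex (h : OD O e e') : ∃ σ : GE E, σ ∈ GQO O ∧ σ ∈ Subgroup.closure (GenO O e e') ∧
    (∀ x, e (σ (e' x)) = σ (e' x)) ∧ (∀ x, e' (σ (e x)) = σ (e x)) ∧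
    (∀ x, e (σ⁻¹ (e' x)) = σ⁻¹ (e' x)) ∧ (∀ x, e' (σ⁻¹ (e x)) = σ⁻¹ (e x)) ∧
    ∀ x, σ (mid e e' x) = mid e e' x := by
  have hp := h.pp
  obtain ⟨s, s', -, -, hr, hr', hs, hs', k1, k2⟩ := corn_skew h
  have a1 : ∀ x, e (s (e' x)) = s x := fun x => congrArg (fun f => f x) hs
  have a2 : ∀ x, e' (s' (e x)) = s' x := fun x => congrArg (fun f => f x) hs'
  have b1 : ∀ x, s (s' x) = - e x := fun x => congrArg (fun f => f x) k1
  have b2 : ∀ x, s' (s x) = - e' x := fun x => congrArg (fun f => f x) k2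
  have c1 : ∀ x, s (e x) = 0 := fun x => by rw [← a1, hp.o', map_zero, map_zero]
  have c2 : ∀ x, s' (e' x) = 0 := fun x => by rw [← a2, hp.o, map_zero, map_zero]
  have c3 : ∀ x, e (s x) = s x := fun x => by rw [← a1, hp.pr.idem]
  have c4 : ∀ x, e' (s' x) = s' x := fun x => by rw [← a2, hp.pr'.idem]
  have c5 : ∀ x, s (mid e e' x) = 0 := fun x => by rw [← a1, e'_mid hp, map_zero, map_zero]
  have c6 : ∀ x, s' (mid e e' x) = 0 := fun x => by rw [← a2, e_mid hp, map_zero, map_zero]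
  have c7 : ∀ x, s (e' x) = s x := fun x => by rw [← a1 (e' x), hp.pr'.idem, a1]
  have c8 : ∀ x, s' (e x) = s' x := fun x => by rw [← a2 (e x), hp.pr.idem, a2]
  have hsT : s ∈ uT e := ⟨c3, c1⟩
  have hsT' : s' ∈ uT e' := ⟨c4, c2⟩
  have q1 := uT_sq hsT
  have q2 := uT_sq hsT'
  have q3 : ∀ x, s (s x) = 0 := fun x => congrArg (fun f => f x) q1
  have q4 : ∀ x, s' (s' x) = 0 := fun x => congrArg (fun f => f x) q2
  have g1 : te s ∈ GQO O := (gqo_te h.ox (cube_sq q1)).2 hr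
  have g2 : te s' ∈ GQO O := (gqo_te h.ox (cube_sq q2)).2 hr'
  have m1 : te s ∈ Subgroup.closure (GenO O e e') :=
    Subgroup.subset_closure ⟨g1, Or.inl ⟨s, Submodule.mem_sup_left hsT, rfl⟩⟩
  have m2 : te s' ∈ Subgroup.closure (GenO O e e') :=
    Subgroup.subset_closure ⟨g2, Or.inr (Or.inl ⟨s', Submodule.mem_sup_left hsT', rfl⟩)⟩
  have hx : ∀ x, (te s * te s' * te s) x = mid e e' x + s x + s' x := by
    intro x
    show te s (te s' (te s x)) = _
    rw [te_sq q1, te_sq q2, te_sq q1]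
    simp only [map_add, b1, b2, q3, map_neg, c7, mid_apply]
    abel
  have hx' : ∀ x, ((te s * te s' * te s)⁻¹ : GE E) x = mid e e' x - s x - s' x := by
    intro x
    have h3 : (te s * te s' * te s) (mid e e' x - s x - s' x) = x := by
      rw [hx]
      simp only [map_sub, mid_mid hp, c5, c6, q3, q4, b1, b2]
      rw [← c3 x, mid_e hp, ← c4 x, mid_e' hp, mid_apply]
      abel
    rw [← h3, inv_apply, h3]
  refine ⟨te s * te s' * te s, gqo_mul (gqo_mul g1 g2) g1,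
    Subgroup.mul_mem _ (Subgroup.mul_mem _ m1 m2) m1, ?_, ?_, ?_, ?_, ?_⟩
  · intro x
    rw [hx, mid_e' hp, c2, zero_add, add_zero, c3]
  · intro x
    rw [hx, mid_e hp, c1, zero_add, zero_add, c4]
  · intro x
    rw [hx', mid_e' hp, c2, zero_sub, sub_zero, map_neg, c3]
  · intro x
    rw [hx', mid_e hp, c1, sub_zero, zero_sub, map_neg, c4]
  · intro x
    rw [hx, mid_mid hp, c5, c6, add_zero, add_zero]

/-- the big cell -/
theorem cell_ex (h : OD O e e') {g : GE E} (hg : g ∈ GQO O) (h0 : ∃ x, e' (g (e x)) ≠ 0) :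
    ∃ u ∈ tes (uO e e'), u ∈ GQO O ∧ ∀ x, g (e x) = u (e' (g (e x))) := by
  have hp := h.pp
  have hsw := rr_swap h.ox h.rat
  set G : E →L[ℝ] E := (g : E →L[ℝ] E) with hG
  set H : E →L[ℝ] E := ((g⁻¹ : GE E) : E →L[ℝ] E) with hH
  have GH : ∀ x, G (H x) = x := apply_inv g
  have HG : ∀ x, H (G x) = x := inv_apply g
  have hβ := rr_mul (rr_mul hsw hg.1) h.rat
  obtain ⟨γ, γ2, hγ, hγ1, hγ2, k1, k2, k3, k4⟩ := corn_inv h hβ (by
    ext x
    show e' (e' (G (e (e x)))) = e' (G (e x))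
    rw [hp.pr.idem, hp.pr'.idem]) (by
    intro hc
    obtain ⟨x, hx⟩ := h0
    exact hx (congrArg (fun f => f x) hc))
  have a1 : ∀ x, e (γ (e' x)) = γ x := fun x => congrArg (fun f => f x) hγ1
  have a2 : ∀ x, e (γ2 (e' x)) = γ2 x := fun x => congrArg (fun f => f x) hγ2
  have c1 : ∀ x, γ (e x) = 0 := fun x => by rw [← a1, hp.o', map_zero, map_zero]
  have c3 : ∀ x, e (γ x) = γ x := fun x => by rw [← a1, hp.pr.idem]
  have c4 : ∀ x, e (γ2 x) = γ2 x := fun x => by rw [← a2, hp.pr.idem]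
  have c5 : ∀ x, γ (mid e e' x) = 0 := fun x => by rw [← a1, e'_mid hp, map_zero, map_zero]
  have c6 : ∀ x, mid e e' (γ2 x) = 0 := fun x => by rw [← a2, mid_e hp]
  have c7 : ∀ x, e' (γ2 x) = 0 := fun x => by rw [← a2, hp.o']
  have f1 : ∀ x, γ (e' (G (e x))) = e x := fun x => congrArg (fun f => f x) k1
  have f3 : ∀ x, γ2 (e' (H (e x))) = e x := fun x => congrArg (fun f => f x) k4
  set X : E →L[ℝ] E := (mid e e' * G * e * γ - γ2 * (e' * (H * mid e e'))) +
    ((1 / 2 : ℚ) : ℝ) • (e * G * e * γ - γ2 * (e' * (H * e'))) with hXd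
  have hX : ∀ y, X y = mid e e' (G (e (γ y))) - γ2 (e' (H (mid e e' y))) +
      (1 / 2 : ℝ) • (e (G (e (γ y))) - γ2 (e' (H (e' y)))) := by
    intro y
    rw [hXd]
    push_cast
    rfl
  have x1 : ∀ y, X (e y) = 0 := by
    intro y
    rw [hX, c1, mid_e hp, hp.o']
    simp
  have x2 : ∀ y, X (mid e e' y) = - γ2 (e' (H (mid e e' y))) := by
    intro y
    rw [hX, c5, mid_mid hp, e'_mid hp]
    simp
  have hXu : X ∈ uO e e' := by
    rw [mem_uO hp]
    refine ⟨x1, fun y => ?_, fun y => ?_⟩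
    · rw [hX]
      simp only [map_add, map_sub, map_smul, e'_mid hp, c7, hp.o']
      simp
    · have h3 := x2 y
      rw [mid_apply] at h3
      rw [h3, map_neg, c4]
  have hXr : RR O X (-X) := by
    have r1 := rr_mul (rr_mul (rr_mul (rr_mid h) hg.1) h.rat) hγ
    have r2 := rr_sub r1 (rr_swap h.ox r1)
    have r3 := rr_mul (rr_mul (rr_mul h.rat hg.1) h.rat) hγ
    have r4 := rr_rat (rr_sub r3 (rr_swap h.ox r3)) (1 / 2)
    have r5 := rr_add r2 r4
    have e1 : -X = (γ2 * (e' * (H * mid e e')) - mid e e' * G * e * γ) +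
        ((1 / 2 : ℚ) : ℝ) • (γ2 * (e' * (H * e')) - e * G * e * γ) := by
      rw [hXd]
      module
    rw [e1]
    exact r5
  have hX3 : X ∘L X ∘L X = 0 := (uO_N3 hp).cube X hXu X hXu X hXu
  refine ⟨te X, ⟨X, hXu, rfl⟩, (gqo_te h.ox hX3).2 hXr, fun x => ?_⟩
  have f4 : e (G (e x)) + γ2 (e' (H (mid e e' (G (e x))))) +
      γ2 (e' (H (e' (G (e x))))) = 0 := by
    have h3 := congrArg (fun z => γ2 (e' (H z))) (dec e e' (G (e x)))
    simp only [map_add, f3] at h3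
    rw [← h3, HG, hp.o', map_zero]
  have hXc : X (e' (G (e x))) = mid e e' (G (e x)) +
      (1 / 2 : ℝ) • (e (G (e x)) - γ2 (e' (H (e' (G (e x)))))) := by
    rw [hX, f1, hp.pr.idem, mid_e' hp, hp.pr'.idem]
    simp
  have hXX : X (X (e' (G (e x)))) = - γ2 (e' (H (mid e e' (G (e x))))) := by
    rw [hXc, map_add, map_smul, map_sub, x1, x2]
    rw [← c4 (e' (H (e' (G (e x))))), x1]
    simp
  show G (e x) = te X (e' (G (e x)))
  rw [te_apply hX3, hXX, hXc]
  have h5 : - γ2 (e' (H (mid e e' (G (e x))))) = e (G (e x)) +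
      γ2 (e' (H (e' (G (e x))))) := by
    rw [neg_eq_iff_add_eq_zero, ← f4]
    abel
  rw [h5]
  conv_lhs => rw [dec e e' (G (e x))]
  module

theorem cell_gen (h : OD O e e') {g : GE E} (hg : g ∈ GQO O) (h0 : ∃ x, e' (g (e x)) ≠ 0) :
    g ∈ Subgroup.closure (GenO O e e') := by
  obtain ⟨u, hu, huG, hx⟩ := cell_ex h hg h0
  obtain ⟨σ, hσ, hσC, -, -, s3, -, -⟩ := sig_ex h
  have h1 : σ⁻¹ * (u⁻¹ * g) ∈ GQO O := gqo_mul (gqo_inv hσ) (gqo_mul (gqo_inv huG) hg)
  have h2 := (up_gen h h1 (fun x => by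
    have h3 : (σ⁻¹ * (u⁻¹ * g)) (e x) = (σ⁻¹ : GE E) (e' (g (e x))) := by
      show (σ⁻¹ : GE E) ((u⁻¹ : GE E) (g (e x))) = _
      rw [hx x, inv_apply, ← hx x]
    rw [h3, s3])).2
  have h3 : g = u * (σ * (σ⁻¹ * (u⁻¹ * g))) := by group
  rw [h3]
  exact Subgroup.mul_mem _ (Subgroup.subset_closure ⟨huG, Or.inl hu⟩)
    (Subgroup.mul_mem _ hσC h2)

/-- `GQO` is generated by the unipotent and the block diagonal elements: if `e' g e = 0` multiply `g` from
the left by an element of the lower unipotent group. If `e g e ≠ 0`: `te s'` with `s'` from `corn_skew`: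
`e' (te s') g e = s' (e g e)`, not zero since `s s' = - e`. If `e g e = 0`: then `f g e ≠ 0` (`g` is injective, `e ≠ 0`);
take `x` with `f g e x ≠ 0`, `r, r'` from `corn_vec` for `y := g (e x)`, `X' := r - r'`: `X' ∈ uO e' e`, `RR O X' (-X')`
(`rr_swap`), `te X' y = y + X' y + X' X' y / 2`, `y = f y`, `X' y = r y ∈ V'`, `X' X' y = 0`, so
`e' (te X' y) = r y ≠ 0`. In both cases `cell_gen` applies to the product, and the factor is in `GenO O e e'`. -/
theorem gen_O (h : OD O e e') {g : GE E} (hg : g ∈ GQO O) :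
    g ∈ Subgroup.closure (GenO O e e') := by
  have hp := h.pp
  by_cases h0 : ∃ x, e' (g (e x)) ≠ 0
  · exact cell_gen h hg h0
  push Not at h0
  have key : ∀ X : E →L[ℝ] E, X ∈ uO e' e → RR O X (-X) → (∃ x, e' (te X (g (e x))) ≠ 0) →
      g ∈ Subgroup.closure (GenO O e e') := by
    intro X hX hr hx
    have hX3 : X ∘L X ∘L X = 0 := (uO_N3 hp.symm).cube X hX X hX X hX
    have h1 : te X ∈ GQO O := (gqo_te h.ox hX3).2 hr
    have h2 : te X ∈ Subgroup.closure (GenO O e e') :=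
      Subgroup.subset_closure ⟨h1, Or.inr (Or.inl ⟨X, hX, rfl⟩)⟩
    have h3 : te X * g ∈ Subgroup.closure (GenO O e e') := cell_gen h (gqo_mul h1 hg) hx
    have h4 : g = (te X)⁻¹ * (te X * g) := by group
    rw [h4]
    exact Subgroup.mul_mem _ (Subgroup.inv_mem _ h2) h3
  by_cases h1 : ∃ x, e (g (e x)) ≠ 0
  · obtain ⟨x, hx⟩ := h1
    obtain ⟨s, s', -, -, hr, hr', hs, hs', k1, k2⟩ := corn_skew h
    have a2 : ∀ x, e' (s' (e x)) = s' x := fun x => congrArg (fun f => f x) hs'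
    have b1 : ∀ x, s (s' x) = - e x := fun x => congrArg (fun f => f x) k1
    have c2 : ∀ x, s' (e' x) = 0 := fun x => by rw [← a2, hp.o, map_zero, map_zero]
    have c4 : ∀ x, e' (s' x) = s' x := fun x => by rw [← a2, hp.pr'.idem]
    have hsT' : s' ∈ uT e' := ⟨c4, c2⟩
    refine key s' (Submodule.mem_sup_left hsT') hr' ⟨x, fun hc => hx ?_⟩
    rw [te_sq (uT_sq hsT'), map_add, h0, zero_add, c4] at hc
    have h2 := b1 (g (e x))
    rw [hc, map_zero] at h2
    exact neg_eq_zero.1 h2.symm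
  · push Not at h1
    obtain ⟨x, hx⟩ : ∃ x, e x ≠ 0 := by
      by_contra hc
      push Not at hc
      apply h.ne
      ext x
      exact hc x
    have hy : mid e e' (g (e x)) = g (e x) := by
      rw [mid_apply, h1, h0, sub_zero, sub_zero]
    have hy0 : g (e x) ≠ 0 := fun hc => hx (by
      have := congrArg (fun z => (g⁻¹ : GE E) z) hc
      simp only [inv_apply, map_zero] at this
      exact this)
    obtain ⟨r, r', hr, k1, k2, hry⟩ := corn_vec h (y := g (e x)) (by rw [hy]; exact hy0)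
    have a1 : ∀ x, e' (r (mid e e' x)) = r x := fun x => congrArg (fun f => f x) k1
    have a2 : ∀ x, mid e e' (r' (e x)) = r' x := fun x => congrArg (fun f => f x) k2
    have c1 : ∀ x, r (e' x) = 0 := fun x => by rw [← a1, mid_e' hp, map_zero, map_zero]
    have c2 : ∀ x, r' (e' x) = 0 := fun x => by rw [← a2, hp.o, map_zero, map_zero]
    have c3 : ∀ x, e (r x) = 0 := fun x => by rw [← a1, hp.o]
    have c4 : ∀ x, e (r' x) = 0 := fun x => by rw [← a2, e_mid hp]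
    have c5 : ∀ x, r' (mid e e' x) = 0 := fun x => by rw [← a2, e_mid hp, map_zero, map_zero]
    have c6 : ∀ x, e' (r x) = r x := fun x => by rw [← a1, hp.pr'.idem]
    have hXu : r - r' ∈ uO e' e := by
      rw [mem_uO hp.symm]
      refine ⟨fun y => ?_, fun y => ?_, fun y => ?_⟩
      · rw [sub_apply, c1, c2, sub_zero]
      · rw [sub_apply, map_sub, c3, c4, sub_zero]
      · have h3 : y - e' y - e y = mid e e' y := by
          rw [mid_apply]
          abel
        rw [h3, sub_apply, c5, sub_zero, c6]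
    have hXr : RR O (r - r') (-(r - r')) := by
      rw [neg_sub]
      exact rr_sub hr (rr_swap h.ox hr)
    have hX3 := (uO_N3 hp.symm).cube _ hXu _ hXu _ hXu
    refine key (r - r') hXu hXr ⟨x, ?_⟩
    have h3 : (r - r') (g (e x)) = r (g (e x)) := by
      have h4 : r' (g (e x)) = 0 := by
        rw [← hy, c5]
      rw [sub_apply, h4, sub_zero]
    have h4 : (r - r') (r (g (e x))) = 0 := by
      rw [← c6, sub_apply, c1, c2, sub_zero]
    rw [te_apply hX3, h3, h4, smul_zero, add_zero, map_add, h0, zero_add, c6]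
    exact hry

end
end LatLin
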