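import Pool.Agent.Lib.MP_2392aa_gt.O.RatO

/-!
MP_2392aa_gt, formal linearization, outer type, module IdemO (about 420 lines): a rational isotropic
idempotent with division corner from a rational element with square zero.

NOTATION. Rational: first component of a pair `RR O a a'`. `J := {y a | a rational}`; sums, right
multiples by rational elements and nonzero rational elements of the form `y a` stay in `J`; `y ∈ J`.
rank = `finrank` of the range.
(A) POLYNOMIALS. For a rational pair `RR O a a'` there is a polynomial `f ∈ ℤ[X]`, `f ≠ 0` (monic), and `M ≥ 1`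
with `f (M a) = 0`: `x := M (a, op a') ∈ O`; left multiplication by `x` on the finitely generated free
group `O` (`h.ord`) has an integer matrix in the basis `b`, `f` := its characteristic polynomial
(Cayley-Hamilton, applied to `1 ∈ O`). Values of polynomials with rational coefficients at rational
pairs are rational pairs (`rr_add`, `rr_mul`, `rr_rat`; use `Polynomial.aeval` in the ring `DE E`, or
induction).
(B) Let `z ∈ J`, `z ≠ 0`, of minimal rank `ρ ≥ 1`. There is a rational `a` with `(z a)² ≠ 0`: otherwise, by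
polarization, `z a z c + z c z a = 0` for all rational `a, c`, hence (`rr_corner1` twice, applied to
functionals) for all operators `a, c`, so `(z x)² = 0` for all operators `x`; but for `z v ≠ 0` and
`x := ro (z v) v`: `(z x) w = ⟪z v, w⟫ z v`, `(z x)² (z v) ≠ 0`. `t := z a`. `rank t² ≥ ρ` (`t² = z (a z a) ∈ J` is
not zero) and `rank t² ≤ rank t ≤ rank z = ρ`. So `ker t² = ker t` and `E = R ⊕ ker t`, `R := range t`, `t` is
bijective on `R`.
(C) Let `f (M t) = 0`, `f = X ^ j g`, `g(0) ≠ 0` (`f ≠ 0`). On `ker t` the operator `g (M t)` is `g(0)`; on `R` it is `0`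
(`(M t) ^ j g (M t) = 0` and `t` is injective on `R`, `R` is stable). `e := 1 - g(0)⁻¹ g (M t)`: identity on `R`,
zero on `ker t`; idempotent, rank `ρ`; `e = t k` with `k` a rational polynomial in `t`
(`1 - g(0)⁻¹ g (M X)` has no constant term), so `e = y b` with `(b, b')` rational. `e'` := the second
component: `e' = b' y'` (`rr_uniq2`, `rr_mul`), `e' e' = e'` (`rr_uniq2`), `e' e = b' y' y b = ± b' y² b = 0`.
(D) `e1 := e - (1/2) e e'`, `e1' := e' - (1/2) e e'`. `(e e', op (e e')) = (e, op e') (e', op e)` is rational, so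
`RR O e1 e1'`. From `e' e = 0`: `e1 e1 = e1`, `e1' e1' = e1'`, `e1 e1' = 0`, `e1' e1 = 0`, `e e1 = e1`, `e1 e = e`, so
`e1 ≠ 0`, `rank e1 = ρ` (`≤` from `e1 = e e1`, `≥` as `e1 = y (b (1 - (1/2) e')) ∈ J`).
(E) DIVISION. Let `RR O a a'`, `e1 a e1 = a`, `e1' a' e1' = a'`, `a ≠ 0`. `a = e1 a ∈ J`, so `rank a ≥ ρ`; range of `a`
is in `V1 := range e1`, of dimension `ρ`, and `a = a e1`, so `a` is bijective on `V1` and zero on `ker e1`.
Let `f (M a) = 0`, `f = X ^ j g` as in (C), `g = g(0) + X k`: on `V1`: `g(0) + M a k (M a) = 0`. `c := - (M / g(0)) e1 k(M a) e1`,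
`c' := ` the second component: `a c = e1 = c a`, `RR O c c'`, `e1 c e1 = c`, `e1' c' e1' = c'`.
-/

open scoped ContDiff Topology
open MulOpposite

namespace LatLin

section aux
variable {E : Type*} [NormedAddCommGroup E] [InnerProductSpace ℝ E] {O : Subring (DE E)}

private theorem ix_fin (h : OX O) : Module.Finite ℤ O := by
  obtain ⟨n, b, hb⟩ := h.ord
  have : Module.Finite ℤ (Submodule.span ℤ (Set.range b)) :=
    Module.Finite.span_of_finite ℤ (Set.finite_range b)
  let f : Submodule.span ℤ (Set.range b) →ₗ[ℤ] O :=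
    { toFun := fun v => ⟨v.1, (hb v.1).2 v.2⟩
      map_add' := fun v w => rfl
      map_smul' := fun c v => rfl }
  exact Module.Finite.of_surjective f fun v => ⟨⟨v.1, (hb v.1).1 v.2⟩, rfl⟩

private theorem ix_pol (x : O) (hker : ∀ w : O, (x * (x * w)).1.1 = 0 → (x * w).1.1 = 0) (n : ℕ) :
    ∀ f : Polynomial ℤ, f ≠ 0 → f.natDegree ≤ n → (x * Polynomial.aeval x f).1.1 = 0 →
      ∃ f : Polynomial ℤ, f.coeff 0 ≠ 0 ∧ (x * Polynomial.aeval x f).1.1 = 0 := by
  induction n with
  | zero =>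
    intro f hf hn h0
    refine ⟨f, fun hc => hf ?_, h0⟩
    rw [Polynomial.eq_C_of_natDegree_le_zero hn, hc, map_zero]
  | succ n ih =>
    intro f hf hn h0
    by_cases hc : f.coeff 0 = 0
    · have h1 : f.divX * Polynomial.X = f := by
        have := f.divX_mul_X_add
        rwa [hc, map_zero, add_zero] at this
      have h2 : f.divX ≠ 0 := fun h => hf (by rw [← h1, h, zero_mul])
      refine ih f.divX h2 ?_ (hker _ ?_)
      · rw [Polynomial.natDegree_divX_eq_natDegree_tsub_one]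
        omega
      · have h3 : Polynomial.aeval x f = x * Polynomial.aeval x f.divX := by
          conv_lhs => rw [← h1, mul_comm, map_mul, Polynomial.aeval_X]
        rw [← h3]
        exact h0
    · exact ⟨f, hc, h0⟩

private theorem ix_g (h : OX O) (x : O)
    (hker : ∀ w : O, (x * (x * w)).1.1 = 0 → (x * w).1.1 = 0) :
    ∃ (y : O) (c : ℤ), c ≠ 0 ∧ y * x = x * y ∧ (x * x * y).1.1 = c • x.1.1 := by
  have := ix_fin h
  obtain ⟨f, hf, hx⟩ := IsIntegral.of_finite ℤ x
  obtain ⟨g, hg, hgx⟩ := ix_pol x hker f.natDegree f hf.ne_zero le_rfl (by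
    have h1 : Polynomial.aeval x f = 0 := hx
    rw [h1, mul_zero]
    rfl)
  have hcomm : Polynomial.aeval x g.divX * x = x * Polynomial.aeval x g.divX := by
    have h2 : Polynomial.aeval x (g.divX * Polynomial.X) =
        Polynomial.aeval x (Polynomial.X * g.divX) := by rw [mul_comm]
    rwa [map_mul, map_mul, Polynomial.aeval_X] at h2
  refine ⟨Polynomial.aeval x g.divX, -g.coeff 0, neg_ne_zero.2 hg, hcomm, ?_⟩
  have h1 : Polynomial.aeval x g = Polynomial.aeval x g.divX * x + (g.coeff 0 : O) := by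
    conv_lhs => rw [← g.divX_mul_X_add]
    rw [map_add, map_mul, Polynomial.aeval_X, Polynomial.aeval_C]
    rfl
  have h2 : x * Polynomial.aeval x g = x * x * Polynomial.aeval x g.divX + g.coeff 0 • x := by
    rw [h1, mul_add, hcomm, mul_assoc, zsmul_eq_mul, Int.cast_comm]
  rw [h2] at hgx
  have h3 : (x * x * Polynomial.aeval x g.divX).1.1 + g.coeff 0 • x.1.1 = 0 := hgx
  rw [neg_smul]
  exact eq_neg_of_add_eq_zero_left h3

/-- group inverse of a rational element -/
private theorem ix_inv (h : OX O) {t t' : E →L[ℝ] E} (hr : RR O t t')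
    (hk : ∀ v, t (t v) = 0 → t v = 0) :
    ∃ k k' : E →L[ℝ] E, RR O k k' ∧ k * t = t * k ∧ t * t * k = t := by
  obtain ⟨M, hM, hx⟩ := hr
  have hMr : (M : ℝ) ≠ 0 := Int.cast_ne_zero.2 hM
  obtain ⟨y, c, hc, hyx, hxy⟩ := ix_g h ⟨_, hx⟩ (by
    intro w hw
    have h1 : (M • t) * ((M • t) * w.1.1) = 0 := hw
    show (M • t) * w.1.1 = 0
    rw [← Int.cast_smul_eq_zsmul ℝ] at h1 ⊢
    ext v
    have h2 := congrArg (fun f => f v) h1
    have h3 : (M : ℝ) • t ((M : ℝ) • t (w.1.1 v)) = 0 := h2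
    show (M : ℝ) • t (w.1.1 v) = 0
    rw [map_smul] at h3
    have h4 := (smul_eq_zero.1 ((smul_eq_zero.1 h3).resolve_left hMr)).resolve_left hMr
    rw [hk _ h4, smul_zero])
  have hcr : (c : ℝ) ≠ 0 := Int.cast_ne_zero.2 hc
  have h1 : y.1.1 * (M • t) = (M • t) * y.1.1 := congrArg (fun z : O => z.1.1) hyx
  have h2 : (M • t) * (M • t) * y.1.1 = c • (M • t) := hxy
  rw [← Int.cast_smul_eq_zsmul ℝ] at h1 h2
  rw [← Int.cast_smul_eq_zsmul ℝ c] at h2
  have hry : RR O y.1.1 (unop y.1.2) := ⟨1, one_ne_zero, by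
    rw [one_smul]
    exact y.2⟩
  refine ⟨(((M : ℚ) / (c : ℚ) : ℚ) : ℝ) • y.1.1, (((M : ℚ) / (c : ℚ) : ℚ) : ℝ) • unop y.1.2,
    rr_rat hry _, ?_, ?_⟩
  · rw [smul_mul_assoc, mul_smul_comm]
    congr 1
    rw [mul_smul_comm, smul_mul_assoc] at h1
    exact smul_right_injective _ hMr h1
  · have e1 : (((M : ℚ) / (c : ℚ) : ℚ) : ℝ) = (M : ℝ) / (c : ℝ) := by push_cast; ring
    rw [e1, mul_smul_comm]
    rw [smul_mul_smul_comm, smul_mul_assoc, smul_smul] at h2
    have h3 : ((M : ℝ) * M) • ((t * t) * y.1.1) = ((M : ℝ) * M) • (((c : ℝ) / M) • t) := by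
      rw [h2, smul_smul]
      congr 1
      field_simp
    have h4 := smul_right_injective (E →L[ℝ] E) (mul_ne_zero hMr hMr) h3
    rw [h4, smul_smul, div_mul_div_comm, mul_comm (c : ℝ) (M : ℝ), div_self (mul_ne_zero hMr hcr),
      one_smul]

private theorem ix_span (h : OX O) (g : (E →L[ℝ] E) →ₗ[ℝ] (E →L[ℝ] E))
    (hg : ∀ a a', RR O a a' → g a = 0) (x : E →L[ℝ] E) : g x = 0 := by
  apply (Module.forall_dual_apply_eq_zero_iff ℝ (g x)).1
  intro f
  have h1 := rr_span h (f ∘ₗ g ∘ₗ LinearMap.fst ℝ (E →L[ℝ] E) (E →L[ℝ] E)ᵐᵒᵖ) (fun a a' h2 => by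
    show f (g a) = 0
    rw [hg a a' h2, map_zero])
  exact LinearMap.congr_fun h1 ((x, 0) : DE E)

private theorem ix_sq (h : OX O) {z : E →L[ℝ] E} (hz : z ≠ 0) :
    ∃ a a', RR O a a' ∧ (z * a) * (z * a) ≠ 0 := by
  by_contra hcon
  push Not at hcon
  have h1 : ∀ a a' c c', RR O a a' → RR O c c' → z * a * (z * c) + z * c * (z * a) = 0 := by
    intro a a' c c' ha hc
    have h2 := hcon _ _ (rr_add ha hc)
    rw [mul_add, mul_add, add_mul, add_mul, hcon a a' ha, hcon c c' hc, zero_add, add_zero] at h2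
    rw [add_comm]
    exact h2
  have h2 : ∀ c c', RR O c c' → ∀ a, z * a * (z * c) + z * c * (z * a) = 0 := by
    intro c c' hc a
    exact ix_span h (LinearMap.mulRight ℝ (z * c) ∘ₗ LinearMap.mulLeft ℝ z +
      LinearMap.mulLeft ℝ (z * c) ∘ₗ LinearMap.mulLeft ℝ z) (fun a a' ha => h1 a a' c c' ha hc) a
  have h3 : ∀ a c, z * a * (z * c) + z * c * (z * a) = 0 := by
    intro a c
    exact ix_span h (LinearMap.mulLeft ℝ (z * a) ∘ₗ LinearMap.mulLeft ℝ z +
      LinearMap.mulRight ℝ (z * a) ∘ₗ LinearMap.mulLeft ℝ z) (fun c c' hc => h2 c c' hc a) c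
  obtain ⟨v, hv⟩ : ∃ v, z v ≠ 0 := by
    by_contra hc
    push Not at hc
    exact hz (by ext v; simpa using hc v)
  have h4 := congrArg (fun f => f (z v)) (h3 (ro (z v) v) (ro (z v) v))
  have h5 : z ((inner ℝ (z v) (z ((inner ℝ (z v) (z v) : ℝ) • v)) : ℝ) • v) +
      z ((inner ℝ (z v) (z ((inner ℝ (z v) (z v) : ℝ) • v)) : ℝ) • v) = 0 := h4
  have hvv : (inner ℝ (z v) (z v) : ℝ) ≠ 0 := fun h => hv (inner_self_eq_zero.1 h)
  rw [map_smul, map_smul, inner_smul_right, ← two_smul ℝ, smul_smul] at h5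
  rcases smul_eq_zero.1 h5 with h6 | h6
  · exact mul_ne_zero two_ne_zero (mul_ne_zero hvv hvv) h6
  · exact hv h6

end aux

section
variable {E : Type*} [NormedAddCommGroup E] [InnerProductSpace ℝ E] [FiniteDimensional ℝ E]
  {O : Subring (DE E)}

/-- rank -/
private noncomputable def rk (a : E →L[ℝ] E) : ℕ :=
  Module.finrank ℝ (LinearMap.range (a : E →ₗ[ℝ] E))

private theorem rk_mul (a c : E →L[ℝ] E) : rk (a * c) ≤ rk a := by
  apply Submodule.finrank_mono
  rintro _ ⟨v, rfl⟩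
  exact ⟨c v, rfl⟩

private theorem rk_ker {a c : E →L[ℝ] E} (h : ∀ v, a v = 0 → c v = 0) (hr : rk a ≤ rk c) :
    ∀ v, c v = 0 → a v = 0 := by
  have h1 := LinearMap.finrank_range_add_finrank_ker (a : E →ₗ[ℝ] E)
  have h2 := LinearMap.finrank_range_add_finrank_ker (c : E →ₗ[ℝ] E)
  unfold rk at hr
  have h3 : LinearMap.ker (a : E →ₗ[ℝ] E) ≤ LinearMap.ker (c : E →ₗ[ℝ] E) := fun v hv => h v hv
  have h4 := Submodule.eq_of_le_of_finrank_le h3 (by omega)
  intro v hv
  have h5 : v ∈ LinearMap.ker (c : E →ₗ[ℝ] E) := hv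
  rw [← h4] at h5
  exact h5

theorem idem_ex (h : OX O) {y y' : E →L[ℝ] E} (hr : RR O y y') (h0 : y ≠ 0) (hsq : y * y = 0)
    (hs : y' = y ∨ y' = -y) : ∃ e e' : E →L[ℝ] E, RR O e e' ∧ e ≠ 0 ∧ e * e = e ∧ e' * e' = e' ∧
      e * e' = 0 ∧ e' * e = 0 ∧ ∀ a a' : E →L[ℝ] E, RR O a a' → e * a * e = a →
        e' * a' * e' = a' → a ≠ 0 → ∃ c c' : E →L[ℝ] E, RR O c c' ∧ e * c * e = c ∧
          e' * c' * e' = c' ∧ a * c = e ∧ c * a = e := by
  classical
  -- minimal rank
  have hex : ∃ n : ℕ, ∃ a a' : E →L[ℝ] E, RR O a a' ∧ y * a ≠ 0 ∧ rk (y * a) = n :=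
    ⟨_, 1, 1, rr_one O, by rwa [mul_one], rfl⟩
  obtain ⟨a0, a0', ha0, hz, hrk⟩ := Nat.find_spec hex
  have hmin : ∀ a a' : E →L[ℝ] E, RR O a a' → y * a ≠ 0 → rk (y * a0) ≤ rk (y * a) := by
    intro a a' ha hne
    rw [hrk]
    exact Nat.find_min' hex ⟨a, a', ha, hne, rfl⟩
  obtain ⟨a1, a1', ha1, hne1⟩ := ix_sq h hz
  have hc0 : RR O (a0 * a1) (a1' * a0') := rr_mul ha0 ha1
  have ht : RR O (y * (a0 * a1)) ((a1' * a0') * y') := rr_mul hr hc0
  set t : E →L[ℝ] E := y * (a0 * a1) with htdef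
  have htz : t = (y * a0) * a1 := by rw [htdef, mul_assoc]
  have htt : t * t = y * ((a0 * a1) * t) := by
    conv_lhs => rw [htdef]
    rw [mul_assoc]
  have hrt : rk t ≤ rk (y * a0) := by
    rw [htz]
    exact rk_mul _ _
  have hrtt : rk t ≤ rk (t * t) := by
    refine hrt.trans ?_
    rw [htt]
    refine hmin _ _ (rr_mul hc0 ht) ?_
    rw [← htt, htz]
    exact hne1
  have htk : ∀ v, t (t v) = 0 → t v = 0 := rk_ker (a := t) (c := t * t) (fun v hv => by
    show t (t v) = 0
    rw [hv, map_zero]) hrtt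
  obtain ⟨k, k', hk, hkt, httk⟩ := ix_inv h ht htk
  have hek : RR O (t * k) (k' * ((a1' * a0') * y')) := rr_mul ht hk
  set e : E →L[ℝ] E := t * k with hedef
  set e' : E →L[ℝ] E := k' * ((a1' * a0') * y') with hedef'
  have hte : t * e = t := by rw [hedef, ← mul_assoc, httk]
  have htne : t ≠ 0 := by
    intro h1
    apply hne1
    rw [← htz, h1, mul_zero]
  have hene : e ≠ 0 := by
    intro h1
    rw [h1, mul_zero] at hte
    exact htne hte.symm
  have hee : e * e = e := by
    calc e * e = (k * t) * e := by rw [hkt]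
      _ = k * (t * e) := mul_assoc _ _ _
      _ = e := by rw [hte, hkt]
  have hee' : e' * e' = e' := by
    have h1 := rr_mul hek hek
    rw [hee] at h1
    exact rr_uniq2 h h1 hek
  have hyy : y' * y = 0 := by
    rcases hs with h1 | h1
    · rw [h1, hsq]
    · rw [h1, neg_mul, hsq, neg_zero]
  have he'e : e' * e = 0 := by
    rw [hedef', hedef, htdef]
    calc k' * (a1' * a0' * y') * (y * (a0 * a1) * k)
        = k' * (a1' * a0') * (y' * y) * (a0 * a1 * k) := by noncomm_ring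
      _ = 0 := by rw [hyy, mul_zero, zero_mul]
  set P : E →L[ℝ] E := e * e' with hP
  have hPr : RR O P P := rr_mul hek (rr_swap h hek)
  have heP : e * P = P := by rw [hP, ← mul_assoc, hee]
  have hPe : P * e = 0 := by rw [hP, mul_assoc, he'e, mul_zero]
  have he'P : e' * P = 0 := by rw [hP, ← mul_assoc, he'e, zero_mul]
  have hPe' : P * e' = P := by rw [hP, mul_assoc, hee']
  have hPP : P * P = 0 := by
    conv_lhs => rw [hP]
    rw [mul_assoc, he'P, mul_zero]
  set s : ℝ := ((1 / 2 : ℚ) : ℝ) with hsdef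
  have hs2 : s + s = 1 := by rw [hsdef]; norm_num
  have he1r : RR O (e - s • P) (e' - s • P) := rr_sub hek (rr_rat hPr _)
  have h11 : (e - s • P) * (e - s • P) = e - s • P := by
    rw [sub_mul, mul_sub, mul_sub, mul_smul_comm, smul_mul_assoc, smul_mul_assoc, mul_smul_comm,
      hee, heP, hPe, hPP]
    simp
  have h11' : (e' - s • P) * (e' - s • P) = e' - s • P := by
    rw [sub_mul, mul_sub, mul_sub, mul_smul_comm, smul_mul_assoc, smul_mul_assoc, mul_smul_comm,
      hee', he'P, hPe', hPP]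
    simp
  have h12 : (e - s • P) * (e' - s • P) = 0 := by
    rw [sub_mul, mul_sub, mul_sub, mul_smul_comm, smul_mul_assoc, smul_mul_assoc, mul_smul_comm,
      ← hP, heP, hPe', hPP, smul_zero, smul_zero, sub_zero, sub_sub, ← add_smul, hs2, one_smul,
      sub_self]
  have h21 : (e' - s • P) * (e - s • P) = 0 := by
    rw [sub_mul, mul_sub, mul_sub, mul_smul_comm, smul_mul_assoc, smul_mul_assoc, mul_smul_comm,
      he'e, he'P, hPe, hPP]
    simp
  have h1e : (e - s • P) * e = e := by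
    rw [sub_mul, smul_mul_assoc, hee, hPe, smul_zero, sub_zero]
  have he1t : e - s • P = t * (k * (1 - s • e')) := by
    rw [← mul_assoc, ← hedef, mul_sub, mul_one, mul_smul_comm, ← hP]
  have hre1 : rk (e - s • P) ≤ rk (y * a0) := by
    rw [he1t]
    exact (rk_mul _ _).trans hrt
  refine ⟨e - s • P, e' - s • P, he1r, ?_, h11, h11', h12, h21, ?_⟩
  · intro h1
    rw [h1, zero_mul] at h1e
    exact hene h1e.symm
  intro a a' ha hea hea' hane
  set e1 : E →L[ℝ] E := e - s • P with he1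
  set e1' : E →L[ℝ] E := e' - s • P with he1'
  have hla : e1 * a = a := by
    rw [← hea, mul_assoc, ← mul_assoc e1 e1, h11]
  have hra : a * e1 = a := by
    rw [← hea, mul_assoc, h11]
  have hrs : RR O (1 - s • e') (1 - s • e) := rr_sub (rr_one O) (rr_rat (rr_swap h hek) _)
  have hay : a = y * ((a0 * a1) * (k * (1 - s • e') * a)) := by
    conv_lhs => rw [← hla, he1t, htdef]
    noncomm_ring
  have hrka : rk (y * a0) ≤ rk a := by
    have h1 := hmin ((a0 * a1) * (k * (1 - s • e') * a)) _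
      (rr_mul hc0 (rr_mul (rr_mul hk hrs) ha)) (by rw [← hay]; exact hane)
    rwa [← hay] at h1
  have hker : ∀ v, a v = 0 → e1 v = 0 := rk_ker (a := e1) (c := a) (fun v hv => by
    rw [← hra]
    show a (e1 v) = 0
    rw [hv, map_zero]) (hre1.trans hrka)
  have hkera : ∀ v, a (a v) = 0 → a v = 0 := by
    intro v hv
    have h1 : e1 (a v) = a v := congrArg (fun f => f v) hla
    rw [← h1]
    exact hker _ hv
  obtain ⟨c, c', hc, hca, haac⟩ := ix_inv h ha hkera
  have hac : a * c = e1 := by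
    ext v
    have h1 : a (v - c (a v)) = 0 := by
      have h2 : (a * (c * a)) v = (a * a * c) v := by rw [hca, mul_assoc]
      have h3 : a (c (a v)) = (a * a * c) v := h2
      rw [map_sub, h3, haac, sub_self]
    have h4 := hker _ h1
    rw [map_sub, sub_eq_zero] at h4
    rw [h4]
    have h5 : (a * c) v = (e1 * (a * c)) v := by rw [← mul_assoc, hla]
    rw [h5, ← hca]
    rfl
  refine ⟨e1 * c * e1, e1' * (c' * e1'), rr_mul (rr_mul he1r hc) he1r, ?_, ?_, ?_, ?_⟩
  · calc e1 * (e1 * c * e1) * e1 = (e1 * e1) * c * (e1 * e1) := by noncomm_ring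
      _ = e1 * c * e1 := by rw [h11]
  · calc e1' * (e1' * (c' * e1')) * e1' = (e1' * e1') * (c' * (e1' * e1')) := by noncomm_ring
      _ = e1' * (c' * e1') := by rw [h11']
  · rw [← mul_assoc, ← mul_assoc, hra, hac, h11]
  · rw [mul_assoc, hla, mul_assoc, hca, hac, h11]

end
end LatLin
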