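import Pool.Agent.Lib.MP_2392aa_gt.O.Def1
import Pool.Agent.Lib.MP_2392aa_gt.L.Uni

/-!
MP_2392aa_gt, outer type, module KilU (about 260 lines): structure of `uu v v'` and of the maps killed by it.

Notation: `c = ⟪v', x⟫`, `B = {η | ⟪v', η⟫ = 0}`, `N = {v, v'}^⊥`.

PROOF.
* `ro_mem_uu`, `uu_dec`: let `a ∈ uu v v'`. Put `η = a v'` (`⟪v', η⟫ = 0` by the second condition) and let `q`
  be the vector with `⟪q, x⟫ = ⟪v, a (x - ⟪v', x⟫ v')⟫` for all `x` (Riesz, or the adjoint). Then `⟪v', q⟫ = 0`, and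
  `⟪v, q⟫ = ⟪v, a v⟫ = 0`. For every `x`: `a x = a (x - c v') + c a v' = ⟪q, x⟫ v + c η` by the third condition.
* `kilU`: for `η ⟂ v'` the operator `ro v' η` lies in `uu v v'` and has square zero, so
  `pi k (tv v' η) w = w` (`pi_of_xd`), which gives `w (x + c η) = w x + ⟪v', w x⟫ η` for all `x`
  (apply it at `x + c η`, or use `tv_inv_apply` with `- η`). For `c ≠ 0` apply this to `c v'` and
  `η = c⁻¹ (x - c v')`: `w x = w (c v') + ⟪v', w (c v')⟫ η = c^k w v' + κ c^(k-1) (x - c v')` with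
  `κ = ⟪v', w v'⟫`. For `q ∈ N`: `ro q v` lies in `uu v v'`, has square zero and kills `v'`, so
  `w v' = w v' + ⟪q, w v'⟫ v`: `w v'` is orthogonal to `N`, so `w v' = κ v' + β v` with `β = ⟪v, w v'⟫`.
  Altogether `w x = κ c^(k-1) x + β c^k v` for `c ≠ 0`; both sides are continuous and the `x` with `c ≠ 0` are
  dense (`x + s v'`, `s → 0`), so for all `x` (`1 ≤ k`).
* `kilU_zero`: from `kilU`, as `k - 1 ≥ 1`.
* `kilU_t`: by `kilU` at `v'`: `w v' = κ v' + β v`, and `t (w (t⁻¹ v')) = w v'`, where `t⁻¹ v' = lam⁻¹ v'`, so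
  `lam^(-k) lam (κ v' + β v) = κ v' + β v`; as `|lam| ^ (1 - k) < 1` this gives `κ = β = 0`.
* `kilU_opp`: `w x = κ c^(k-1) x + β c^k v` and `w x = κ' c'^(k-1) x + β' c'^k v'` with `c' = ⟪v, x⟫`
  (`kilU` with `v, v'` exchanged). At `x = v + y`, `y ∈ N` nonzero: `c = 0`, `c' = 1`:
  `0 = κ' (v + y) + β' v'`, so `κ' = β' = 0`.
-/

open scoped ContDiff Topology

namespace LatLin

section
variable {E : Type*} [NormedAddCommGroup E] [InnerProductSpace ℝ E] [FiniteDimensional ℝ E] {k : ℕ}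

omit [FiniteDimensional ℝ E] in
private theorem in1 {v : E} (hv : ‖v‖ = 1) : inner ℝ v v = (1 : ℝ) := by
  rw [real_inner_self_eq_norm_sq, hv, one_pow]

omit [FiniteDimensional ℝ E] in
theorem ro_mem_uu {v v' : E} (hv : ‖v‖ = 1) (hv' : ‖v'‖ = 1) (h : inner ℝ v v' = (0 : ℝ))
    {q η : E} (hq : inner ℝ v q = (0 : ℝ)) (hη : inner ℝ v' η = (0 : ℝ)) :
    ro q v + ro v' η ∈ uu v v' := by
  have h' : inner ℝ v' v = (0 : ℝ) := by rw [real_inner_comm]; exact h
  have hq' : inner ℝ q v = (0 : ℝ) := by rw [real_inner_comm]; exact hq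
  refine ⟨?_, fun x => ?_, fun x hx => ?_⟩
  · rw [add_apply, ro_apply, ro_apply, hq', h', zero_smul, zero_smul, add_zero]
  · rw [add_apply, ro_apply, ro_apply, inner_add_right, inner_smul_right, inner_smul_right, h', hη,
      mul_zero, mul_zero, add_zero]
  · rw [add_apply, ro_apply, ro_apply, hx, zero_smul, add_zero, inner_smul_right, in1 hv, mul_one]

theorem uu_dec {v v' : E} (hv : ‖v‖ = 1) (hv' : ‖v'‖ = 1) (h : inner ℝ v v' = (0 : ℝ))
    {a : E →L[ℝ] E} (ha : a ∈ uu v v') : ∃ q η : E, inner ℝ v q = (0 : ℝ) ∧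
      inner ℝ v' q = (0 : ℝ) ∧ inner ℝ v' η = (0 : ℝ) ∧ a = ro q v + ro v' η := by
  have : CompleteSpace E := FiniteDimensional.complete ℝ E
  have h' : inner ℝ v' v = (0 : ℝ) := by rw [real_inner_comm]; exact h
  obtain ⟨h1, h2, h3⟩ := ha
  obtain ⟨q, hq⟩ : ∃ q : E, ∀ x, inner ℝ q x =
      (inner ℝ v (a (x - (inner ℝ v' x : ℝ) • v')) : ℝ) := by
    refine ⟨(InnerProductSpace.toDual ℝ E).symm (innerSL ℝ v ∘L a ∘L
      (ContinuousLinearMap.id ℝ E - ro v' v')), fun x => ?_⟩
    rw [InnerProductSpace.toDual_symm_apply]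
    rfl
  refine ⟨q, a v', ?_, ?_, h2 v', ?_⟩
  · rw [real_inner_comm, hq, h', zero_smul, sub_zero, h1, inner_zero_right]
  · rw [real_inner_comm, hq, in1 hv', one_smul, sub_self, map_zero, inner_zero_right]
  · ext x
    rw [add_apply, ro_apply, ro_apply, hq, ← h3, ← map_smul, ← map_add, sub_add_cancel]
    rw [inner_sub_right, inner_smul_right, in1 hv', mul_one, sub_self]

/-- the maps killed by `uu v v'` under the transvections of `v'` -/
private theorem f1 {v v' : E} (hv : ‖v‖ = 1) (hv' : ‖v'‖ = 1) (h : inner ℝ v v' = (0 : ℝ))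
    (w : HM E k) (hw : w ∈ kil k (uu v v')) {η : E} (hη : inner ℝ v' η = (0 : ℝ)) (x : E) :
    w.1 (x + (inner ℝ v' x : ℝ) • η) = w.1 x + (inner ℝ v' (w.1 x) : ℝ) • η := by
  have h1 : ro v' η ∈ uu v v' := by
    have h2 := ro_mem_uu hv hv' h (q := 0) (η := η) (inner_zero_right v) hη
    have h3 : ro (0 : E) v = 0 := by
      ext y
      rw [ro_apply, inner_zero_left, zero_smul]
      rfl
    rwa [h3, zero_add] at h2
  have h2 : pi k (tv v' η) w = w := pi_of_xd (ro_sq hη) w (hw _ h1)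
  have h3 := congrArg (fun p => p.1 (x + (inner ℝ v' x : ℝ) • η)) h2
  simp only [pi_apply] at h3
  have h4 : (inner ℝ v' (x + (inner ℝ v' x : ℝ) • η) : ℝ) = inner ℝ v' x := by
    rw [inner_add_right, inner_smul_right, hη, mul_zero, add_zero]
  rw [tv_inv_apply hη, h4, add_sub_cancel_right, tv_apply hη] at h3
  exact h3.symm

private theorem f2 {v v' : E} (hv : ‖v‖ = 1) (hv' : ‖v'‖ = 1) (h : inner ℝ v v' = (0 : ℝ))
    (w : HM E k) (hw : w ∈ kil k (uu v v')) :
    w.1 v' = (inner ℝ v' (w.1 v') : ℝ) • v' + (inner ℝ v (w.1 v') : ℝ) • v := by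
  have h' : inner ℝ v' v = (0 : ℝ) := by rw [real_inner_comm]; exact h
  have hv0 : v ≠ 0 := by
    intro h0
    rw [h0, norm_zero] at hv
    exact zero_ne_one hv
  have key : ∀ q : E, inner ℝ v q = (0 : ℝ) → inner ℝ v' q = (0 : ℝ) →
      inner ℝ q (w.1 v') = (0 : ℝ) := by
    intro q hq hq'
    have hqv : inner ℝ q v = (0 : ℝ) := by rw [real_inner_comm]; exact hq
    have hqv' : inner ℝ q v' = (0 : ℝ) := by rw [real_inner_comm]; exact hq'
    have h1 : ro q v ∈ uu v v' := by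
      have h2 := ro_mem_uu hv hv' h (q := q) (η := 0) hq (inner_zero_right v')
      have h3 : ro v' (0 : E) = 0 := by
        ext y
        rw [ro_apply, smul_zero]
        rfl
      rwa [h3, add_zero] at h2
    have h2 : pi k (tv q v) w = w := pi_of_xd (ro_sq hqv) w (hw _ h1)
    have h3 := congrArg (fun p => p.1 v') h2
    simp only [pi_apply] at h3
    rw [tv_inv_apply hqv, hqv', zero_smul, sub_zero, tv_apply hqv] at h3
    have h4 : (inner ℝ q (w.1 v') : ℝ) • v = 0 := by
      rw [add_eq_left] at h3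
      exact h3
    exact (smul_eq_zero.1 h4).resolve_right hv0
  set κ : ℝ := inner ℝ v' (w.1 v') with hκ
  set β : ℝ := inner ℝ v (w.1 v') with hβ
  set y := w.1 v' - κ • v' - β • v with hy
  have e1 : inner ℝ v y = (0 : ℝ) := by
    rw [hy, inner_sub_right, inner_sub_right, inner_smul_right, inner_smul_right, h, in1 hv, ← hβ]
    ring
  have e2 : inner ℝ v' y = (0 : ℝ) := by
    rw [hy, inner_sub_right, inner_sub_right, inner_smul_right, inner_smul_right, h', in1 hv',
      ← hκ]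
    ring
  have e3 := key y e1 e2
  have e4 : inner ℝ y y = (0 : ℝ) := by
    have e5 : inner ℝ y (w.1 v' - κ • v' - β • v) = (0 : ℝ) := by
      rw [inner_sub_right, inner_sub_right, inner_smul_right, inner_smul_right, e3,
        real_inner_comm, e2, real_inner_comm, e1]
      ring
    exact e5
  have e5 := inner_self_eq_zero.1 e4
  rw [hy, sub_sub, sub_eq_zero] at e5
  exact e5

theorem kilU {v v' : E} (hv : ‖v‖ = 1) (hv' : ‖v'‖ = 1) (h : inner ℝ v v' = (0 : ℝ))
    (hk : 1 ≤ k) (w : HM E k) (hw : w ∈ kil k (uu v v')) : ∃ κ β : ℝ, ∀ x : E,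
      w.1 x = (κ * (inner ℝ v' x : ℝ) ^ (k - 1)) • x + (β * (inner ℝ v' x : ℝ) ^ k) • v := by
  obtain ⟨j, rfl⟩ : ∃ j, k = j + 1 := ⟨k - 1, by omega⟩
  have hF2 := f2 hv hv' h w hw
  refine ⟨inner ℝ v' (w.1 v'), inner ℝ v (w.1 v'), ?_⟩
  set κ : ℝ := inner ℝ v' (w.1 v') with hκ
  set β : ℝ := inner ℝ v (w.1 v') with hβ
  have key : ∀ x : E, (inner ℝ v' x : ℝ) ≠ 0 →
      w.1 x = (κ * (inner ℝ v' x : ℝ) ^ (j + 1 - 1)) • x +
        (β * (inner ℝ v' x : ℝ) ^ (j + 1)) • v := by
    intro x hx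
    set c : ℝ := inner ℝ v' x with hc
    have h1 : inner ℝ v' (c⁻¹ • (x - c • v')) = (0 : ℝ) := by
      rw [inner_smul_right, inner_sub_right, inner_smul_right, in1 hv', ← hc]
      ring
    have h2 := f1 hv hv' h w hw h1 (c • v')
    have h3 : (inner ℝ v' (c • v') : ℝ) = c := by
      rw [inner_smul_right, in1 hv', mul_one]
    have h4 : c • v' + c • c⁻¹ • (x - c • v') = x := by
      rw [smul_smul, mul_inv_cancel₀ hx, one_smul, add_sub_cancel]
    rw [h3, h4, w.2.2, inner_smul_right, ← hκ] at h2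
    rw [h2, hF2, add_tsub_cancel_right, smul_smul]
    have h5 : c ^ (j + 1) * κ * c⁻¹ = κ * c ^ j := by
      rw [pow_succ]
      field_simp
    rw [h5]
    module
  intro x
  by_cases hx : (inner ℝ v' x : ℝ) = 0
  · have h1 : (fun s : ℝ => w.1 (x + s • v')) = fun s : ℝ =>
        (κ * (inner ℝ v' (x + s • v') : ℝ) ^ (j + 1 - 1)) • (x + s • v') +
        (β * (inner ℝ v' (x + s • v') : ℝ) ^ (j + 1)) • v := by
      have hc0 : Continuous (fun s : ℝ => x + s • v') := by fun_prop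
      have hc1 : Continuous (fun s : ℝ => (inner ℝ v' (x + s • v') : ℝ)) :=
        continuous_const.inner hc0
      refine Continuous.ext_on (dense_compl_singleton (0 : ℝ)) (w.2.1.continuous.comp hc0)
        (((continuous_const.mul (hc1.pow _)).smul hc0).add
          ((continuous_const.mul (hc1.pow _)).smul continuous_const)) ?_
      intro s hs
      refine key (x + s • v') ?_
      rw [inner_add_right, inner_smul_right, hx, in1 hv', zero_add, mul_one]
      exact hs
    have h2 := congrFun h1 0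
    simp only [zero_smul, add_zero] at h2
    exact h2
  · exact key x hx

theorem kilU_zero {v v' : E} (hv : ‖v‖ = 1) (hv' : ‖v'‖ = 1) (h : inner ℝ v v' = (0 : ℝ))
    (hk : 2 ≤ k) (w : HM E k) (hw : w ∈ kil k (uu v v')) (x : E)
    (hx : inner ℝ v' x = (0 : ℝ)) : w.1 x = 0 := by
  obtain ⟨κ, β, h1⟩ := kilU hv hv' h (by omega) w hw
  rw [h1, hx, zero_pow (by omega), zero_pow (by omega), mul_zero, mul_zero, zero_smul, zero_smul,
    add_zero]

theorem kilU_t {v v' : E} {lam mu : ℝ} {t : GE E} (hs : Std v v' lam mu t) (hk : 2 ≤ k)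
    (w : HM E k) (hw : w ∈ kil k (uu v v')) (ht : pi k t w = w) : w = 0 := by
  obtain ⟨κ, β, h1⟩ := kilU hs.nv hs.nv' hs.orth (by omega) w hw
  have h' : inner ℝ v' v = (0 : ℝ) := by rw [real_inner_comm]; exact hs.orth
  have hl0 : lam ≠ 0 := by
    intro h0
    have := hs.l1
    rw [h0, abs_zero] at this
    linarith
  have hv' : w.1 v' = κ • v' + β • v := by
    rw [h1, in1 hs.nv', one_pow, one_pow, mul_one, mul_one]
  have h2 : (t⁻¹ : GE E) v' = lam⁻¹ • v' := by
    have h3 : t (lam⁻¹ • v') = v' := by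
      rw [map_smul, hs.tv', smul_smul, inv_mul_cancel₀ hl0, one_smul]
    conv_lhs => rw [← h3]
    exact t.symm_apply_apply _
  have h3 := congrArg (fun p => p.1 v') ht
  simp only [pi_apply] at h3
  have h4 : t (w.1 v') = lam • w.1 v' := by
    rw [hv', map_add, map_smul, map_smul, hs.tv, hs.tv', smul_add, smul_comm, smul_comm lam β]
  rw [h2, w.2.2, map_smul, h4, smul_smul] at h3
  have h5 : (lam⁻¹ ^ k * lam - 1) • w.1 v' = 0 := by
    rw [sub_smul, one_smul, h3, sub_self]
  have h6 : lam⁻¹ ^ k * lam - 1 ≠ 0 := by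
    intro h0
    have h7 : lam⁻¹ ^ k * lam = 1 := by linarith
    have h8 : lam = lam ^ k := by
      have := congrArg (fun z => lam ^ k * z) h7
      simp only [mul_one] at this
      rw [← mul_assoc, ← mul_pow, mul_inv_cancel₀ hl0, one_pow, one_mul] at this
      exact this
    have h9 : |lam| < |lam| ^ k := by
      have := pow_lt_pow_right₀ hs.l1 (show 1 < k by omega)
      rwa [pow_one] at this
    rw [← abs_pow, ← h8] at h9
    exact lt_irrefl _ h9
  have h7 : κ • v' + β • v = 0 := by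
    rw [← hv']
    exact (smul_eq_zero.1 h5).resolve_left h6
  have h8 : κ = 0 := by
    have := congrArg (fun z => (inner ℝ v' z : ℝ)) h7
    simp only [inner_add_right, inner_smul_right, in1 hs.nv', h', inner_zero_right] at this
    linarith
  have h9 : β = 0 := by
    have := congrArg (fun z => (inner ℝ v z : ℝ)) h7
    simp only [inner_add_right, inner_smul_right, in1 hs.nv, hs.orth, inner_zero_right] at this
    linarith
  ext x
  rw [h1, h8, h9, zero_mul, zero_mul, zero_smul, zero_smul, add_zero]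
  rfl

theorem kilU_opp {v v' : E} (hv : ‖v‖ = 1) (hv' : ‖v'‖ = 1) (h : inner ℝ v v' = (0 : ℝ))
    (hbig : ∃ y, y ≠ 0 ∧ inner ℝ v y = (0 : ℝ) ∧ inner ℝ v' y = (0 : ℝ)) (hk : 2 ≤ k)
    (w : HM E k) (hw : w ∈ kil k (uu v v')) (hw' : w ∈ kil k (uu v' v)) : w = 0 := by
  have h' : inner ℝ v' v = (0 : ℝ) := by rw [real_inner_comm]; exact h
  obtain ⟨y, hy0, hy, hy'⟩ := hbig
  obtain ⟨κ, β, h1⟩ := kilU hv' hv h' (by omega) w hw'
  have h2 : w.1 (v + y) = 0 := kilU_zero hv hv' h hk w hw _ (by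
    rw [inner_add_right, h', hy', add_zero])
  have h3 : (inner ℝ v (v + y) : ℝ) = 1 := by
    rw [inner_add_right, in1 hv, hy, add_zero]
  rw [h1, h3, one_pow, one_pow, mul_one, mul_one] at h2
  have h4 : κ = 0 := by
    have := congrArg (fun z => (inner ℝ v z : ℝ)) h2
    simp only [inner_add_right, inner_smul_right, in1 hv, h, hy, inner_zero_right] at this
    linarith
  have h5 : β = 0 := by
    have := congrArg (fun z => (inner ℝ v' z : ℝ)) h2
    simp only [inner_add_right, inner_smul_right, in1 hv', h', hy', inner_zero_right] at this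
    linarith
  ext x
  rw [h1, h4, h5, zero_mul, zero_mul, zero_smul, zero_smul, add_zero]
  rfl

end
end LatLin
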