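import Pool.Agent.Lib.MP_2392aa_gt.L.HFin

/-!
MP_2392aa_gt, outer type, module Quad (about 350 lines): division with remainder by a linear form and the
Poincare lemma along a hyperplane, for homogeneous smooth maps, without integrals (exact quadrature).

PROOF.
* `poly_deg`: `hm_taylor` and the expansion of the multilinear map `iteratedFDeriv ℝ k p.1 0` at
  `x + s • y` (as in `poly_line`): `p (x + s y) = ∑_S s^(#S) ...` over the subsets `S` of `Fin k`; group by the
  cardinality `i ≤ k`.
* `quad`: for the nodes `s_j = j`, `j < K`, the matrix `(s_j ^ i)_(i, j < K)` is a transposed Vandermonde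
  matrix, so it is invertible (`Matrix.det_vandermonde_ne_zero_iff`); solve for `w`.
* QUADRATURE (private): with `s, w` from `quad K`, for every `c : ℕ → E` and
  `f s = ∑_(i ≤ K) s^i • c i`: `f 1 - f 0 = ∑_j w_j • f' (s_j)`, `f' s = ∑_(1 ≤ i ≤ K) (i * s^(i-1)) • c i`.
* DERIVATIVES (private): for `p : HM E (k+1)` and `u : E` the map `x ↦ fderiv ℝ p.1 x u` is smooth and
  homogeneous of degree `k`: for `t ≠ 0` by the chain rule applied to `p (t x) = t^(k+1) p x`; for `t = 0` by
  continuity of both sides in `t`.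
* `hm_div`: put `P x = x - ξ x • u0`, `K = k + 1`, and
  `(D p) x = ∑_j w_j • fderiv ℝ p.1 (P x + (s_j * ξ x) • u0) u0`: smooth, homogeneous of degree `k`, linear in
  `p`. The function `f s = p (P x + (s * ξ x) • u0)` is a polynomial of degree `≤ k + 1` in `s` (`poly_deg`)
  with derivative `ξ x • fderiv ℝ p.1 (P x + (s * ξ x) • u0) u0`, so the quadrature formula gives
  `p x - p (P x) = f 1 - f 0 = ξ x • (D p) x`.
* `hm_poinc`: put `c = ⟪v', x⟫`, `P x = x - c v'` (so `⟪v', P x⟫ = 0`), `K = k + 1`, and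
  `F x = ∑_j w_j • (f (P x)).1 (s_j • P x + c • v')`. Expanding `f (P x)` in an orthonormal basis
  `b` of `E`, `f (P x) = ∑_l ⟪b l, P x⟫ • f (b l)`, shows that `F` is smooth; it is homogeneous of degree
  `k + 1`, and `F (c v') = 0` because `P (c v') = 0`. For `η ⟂ v'`: the derivative of `P x` in the direction
  `η` is `η`, that of `c` is `0`; with `y_j = s_j P x + c v'`
  `∂_η F (x) = ∑_j w_j [ (f η) (y_j) + s_j D(f (P x))(y_j) η ]`, and by assumption
  `D(f (P x))(y) η = D(f η)(y) (P x)` (as `P x, η ⟂ v'`). So the bracket is the derivative at `s = s_j` of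
  `g s = s • (f η) (s P x + c v')`, a polynomial of degree `≤ k + 1` in `s`, and the sum is
  `g 1 - g 0 = (f η) (P x + c v') = (f η) x`.
-/

open scoped ContDiff Topology

namespace LatLin

section
variable {E : Type*} [NormedAddCommGroup E] [InnerProductSpace ℝ E] [FiniteDimensional ℝ E] {k : ℕ}

open scoped Nat in
theorem poly_deg (p : HM E k) (x y : E) : ∃ c : ℕ → E, ∀ s : ℝ,
    p.1 (x + s • y) = ∑ i ∈ Finset.range (k + 1), s ^ i • c i := by
  classical
  have h1 : ∀ s : ℝ, p.1 (x + s • y) = ∑ S : Finset (Fin k), s ^ S.card • ((k ! : ℝ)⁻¹ •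
      iteratedFDeriv ℝ k p.1 0 (S.piecewise (fun _ => y) (fun _ => x))) := by
    intro s
    have h2 : (fun _ : Fin k => x + s • y) = (fun _ => s • y) + (fun _ => x) := by
      funext i
      exact add_comm _ _
    rw [hm_taylor, h2, ContinuousMultilinearMap.map_add_univ, Finset.smul_sum]
    refine Finset.sum_congr rfl fun S _ => ?_
    have h3 : (S.piecewise (fun _ => s • y) (fun _ => x) : Fin k → E) =
        S.piecewise (fun i => (fun _ : Fin k => s) i • (S.piecewise (fun _ => y) (fun _ => x) :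
          Fin k → E) i) (S.piecewise (fun _ => y) (fun _ => x)) := by
      funext i
      by_cases hi : i ∈ S
      · simp [Finset.piecewise_eq_of_mem _ _ _ hi]
      · simp [Finset.piecewise_eq_of_notMem _ _ _ hi]
    rw [h3, ContinuousMultilinearMap.map_piecewise_smul, Finset.prod_const, smul_comm]
  refine ⟨fun i => ∑ S ∈ (Finset.univ : Finset (Finset (Fin k))) with S.card = i, ((k ! : ℝ)⁻¹ •
      iteratedFDeriv ℝ k p.1 0 (S.piecewise (fun _ => y) (fun _ => x))), fun s => ?_⟩
  rw [h1 s, ← Finset.sum_fiberwise_of_maps_to (s := Finset.univ) (t := Finset.range (k + 1))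
    (g := fun S : Finset (Fin k) => S.card)]
  · refine Finset.sum_congr rfl fun i _ => ?_
    rw [Finset.smul_sum]
    refine Finset.sum_congr rfl fun S hS => ?_
    rw [(Finset.mem_filter.1 hS).2]
  · intro S _
    have h4 := Finset.card_le_univ S
    rw [Fintype.card_fin] at h4
    exact Finset.mem_range.2 (Nat.lt_succ_of_le h4)

theorem quad (K : ℕ) : ∃ (m : ℕ) (s w : Fin m → ℝ), ∀ i < K,
    ∑ j, w j * s j ^ i = ((i : ℝ) + 1)⁻¹ := by
  let s : Fin K → ℝ := fun j => (j : ℕ)
  let V : Matrix (Fin K) (Fin K) ℝ := Matrix.vandermonde s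
  have hs : Function.Injective s := by
    intro a b h
    apply Fin.ext
    have h' : ((a : ℕ) : ℝ) = ((b : ℕ) : ℝ) := h
    exact_mod_cast h'
  have hV : V.det ≠ 0 := Matrix.det_vandermonde_ne_zero_iff.2 hs
  let b : Fin K → ℝ := fun i => (((i : ℕ) : ℝ) + 1)⁻¹
  refine ⟨K, s, Matrix.vecMul b V⁻¹, fun i hi => ?_⟩
  have h1 : Matrix.vecMul (Matrix.vecMul b V⁻¹) V = b := by
    rw [Matrix.vecMul_vecMul, Matrix.nonsing_inv_mul V (isUnit_iff_ne_zero.2 hV),
      Matrix.vecMul_one]
  have h2 := congrFun h1 ⟨i, hi⟩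
  exact h2

/-- exact quadrature for polynomials of one variable -/
private theorem qd_aux {X : Type*} [NormedAddCommGroup X] [NormedSpace ℝ X] {K m : ℕ}
    {s w : Fin m → ℝ} (hq : ∀ i < K, ∑ j, w j * s j ^ i = ((i : ℝ) + 1)⁻¹) (f f' : ℝ → X)
    (hf : ∀ r, HasDerivAt f (f' r) r) (c : ℕ → X)
    (hc : ∀ r, f r = ∑ i ∈ Finset.range (K + 1), r ^ i • c i) :
    f 1 - f 0 = ∑ j, w j • f' (s j) := by
  have h1 : ∀ r, f' r = ∑ i ∈ Finset.range K, (((i : ℝ) + 1) * r ^ i) • c (i + 1) := by
    intro r
    have h2 : HasDerivAt f (∑ i ∈ Finset.range (K + 1), ((i : ℝ) * r ^ (i - 1)) • c i) r := by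
      have h3 : f = fun r => ∑ i ∈ Finset.range (K + 1), r ^ i • c i := funext hc
      rw [h3]
      refine HasDerivAt.fun_sum fun i _ => ?_
      exact (hasDerivAt_pow i r).smul_const (c i)
    rw [(hf r).unique h2, Finset.sum_range_succ']
    simp
  have h2 : f 1 - f 0 = ∑ i ∈ Finset.range K, c (i + 1) := by
    rw [hc, hc, Finset.sum_range_succ', Finset.sum_range_succ']
    simp
  rw [h2]
  simp only [h1, Finset.smul_sum, smul_smul]
  rw [Finset.sum_comm]
  refine Finset.sum_congr rfl fun i hi => ?_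
  rw [← Finset.sum_smul]
  have h3 : ∑ j, w j * (((i : ℝ) + 1) * s j ^ i) = 1 := by
    have h4 : ∑ j, w j * (((i : ℝ) + 1) * s j ^ i) = ((i : ℝ) + 1) * ∑ j, w j * s j ^ i := by
      rw [Finset.mul_sum]
      exact Finset.sum_congr rfl fun j _ => by ring
    rw [h4, hq i (Finset.mem_range.1 hi), mul_inv_cancel₀]
    positivity
  rw [h3, one_smul]

/-- the directional derivative of a homogeneous map -/
private noncomputable def dvu (u : E) : HM E (k + 1) →ₗ[ℝ] HM E k where
  toFun p := ⟨fun x => fderiv ℝ p.1 x u, by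
    refine ⟨(p.2.1.fderiv_right (m := ∞) (by simp)).clm_apply contDiff_const, fun t x => ?_⟩
    have hp : Differentiable ℝ p.1 := p.2.1.differentiable (by simp)
    have h0 : ∀ t : ℝ, t ≠ 0 → fderiv ℝ p.1 (t • x) u = t ^ k • fderiv ℝ p.1 x u := by
      intro t ht
      have h1 : HasDerivAt (fun s : ℝ => p.1 (t • x + s • (t • u)))
          (fderiv ℝ p.1 (t • x) (t • u)) 0 := by
        have h2 : HasDerivAt (fun s : ℝ => t • x + s • (t • u)) (t • u) 0 := by
          simpa using ((hasDerivAt_id (0 : ℝ)).smul_const (t • u)).const_add (t • x)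
        have h3 : HasFDerivAt p.1 (fderiv ℝ p.1 (t • x)) (t • x + (0 : ℝ) • (t • u)) := by
          simpa using (hp (t • x)).hasFDerivAt
        exact h3.comp_hasDerivAt (0 : ℝ) h2
      have h4 : HasDerivAt (fun s : ℝ => t ^ (k + 1) • p.1 (x + s • u))
          (t ^ (k + 1) • fderiv ℝ p.1 x u) 0 := by
        have h2 : HasDerivAt (fun s : ℝ => x + s • u) u 0 := by
          simpa using ((hasDerivAt_id (0 : ℝ)).smul_const u).const_add x
        have h3 : HasFDerivAt p.1 (fderiv ℝ p.1 x) (x + (0 : ℝ) • u) := by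
          simpa using (hp x).hasFDerivAt
        exact (h3.comp_hasDerivAt (0 : ℝ) h2).const_smul _
      have h5 : (fun s : ℝ => p.1 (t • x + s • (t • u))) =
          fun s => t ^ (k + 1) • p.1 (x + s • u) := by
        funext s
        rw [← p.2.2, smul_add, smul_comm s t]
      rw [h5] at h1
      have h6 := h1.unique h4
      rw [map_smul] at h6
      have h7 := congrArg (fun z => t⁻¹ • z) h6
      simp only [smul_smul] at h7
      rw [inv_mul_cancel₀ ht, one_smul, pow_succ, mul_comm (t ^ k) t, ← mul_assoc,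
        inv_mul_cancel₀ ht, one_mul] at h7
      exact h7
    have hc1 : Continuous fun t : ℝ => fderiv ℝ p.1 (t • x) u := by
      have h1 : Continuous fun y => fderiv ℝ p.1 y u :=
        ((p.2.1.fderiv_right (m := ∞) (by simp)).clm_apply contDiff_const).continuous
      exact h1.comp (continuous_id.smul continuous_const)
    have hc2 : Continuous fun t : ℝ => t ^ k • fderiv ℝ p.1 x u :=
      (continuous_id.pow k).smul continuous_const
    have h8 := hc1.ext_on (dense_compl_singleton (0 : ℝ)) hc2 (fun t ht => h0 t ht)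
    exact congrFun h8 t⟩
  map_add' p q := by
    apply Subtype.ext
    funext x
    have hp : DifferentiableAt ℝ p.1 x := (p.2.1.differentiable (by simp)) x
    have hq : DifferentiableAt ℝ q.1 x := (q.2.1.differentiable (by simp)) x
    have h : fderiv ℝ (p.1 + q.1) x = fderiv ℝ p.1 x + fderiv ℝ q.1 x := fderiv_add hp hq
    change fderiv ℝ (p.1 + q.1) x u = fderiv ℝ p.1 x u + fderiv ℝ q.1 x u
    rw [h]
    rfl
  map_smul' c p := by
    apply Subtype.ext
    funext x
    have hp : DifferentiableAt ℝ p.1 x := (p.2.1.differentiable (by simp)) x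
    have h : fderiv ℝ (c • p.1) x = c • fderiv ℝ p.1 x := fderiv_const_smul hp c
    change fderiv ℝ (c • p.1) x u = c • fderiv ℝ p.1 x u
    rw [h]
    rfl

/-- evaluation as a linear map -/
private def evL (x : E) : HM E k →ₗ[ℝ] E where
  toFun p := p.1 x
  map_add' _ _ := rfl
  map_smul' _ _ := rfl

omit [FiniteDimensional ℝ E] in
private theorem line_deriv (p : HM E k) (a b : E) (r : ℝ) :
    HasDerivAt (fun s : ℝ => p.1 (a + s • b)) (fderiv ℝ p.1 (a + r • b) b) r := by
  have hp : Differentiable ℝ p.1 := p.2.1.differentiable (by simp)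
  have h2 : HasDerivAt (fun s : ℝ => a + s • b) b r := by
    simpa using ((hasDerivAt_id r).smul_const b).const_add a
  exact (hp (a + r • b)).hasFDerivAt.comp_hasDerivAt r h2

theorem hm_div (ξ : E →L[ℝ] ℝ) (u0 : E) (h : ξ u0 = 1) :
    ∃ D : HM E (k + 1) →ₗ[ℝ] HM E k, ∀ (p : HM E (k + 1)) (x : E),
      p.1 x = p.1 (x - ξ x • u0) + ξ x • (D p).1 x := by
  have _ := h
  obtain ⟨m, s, w, hq⟩ := quad (k + 1)
  let L : Fin m → (E →L[ℝ] E) := fun j =>
    ContinuousLinearMap.id ℝ E + (s j - 1) • (ξ.smulRight u0)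
  refine ⟨∑ j, w j • ((pj (ContinuousLinearMap.id ℝ E) (L j)) ∘ₗ (dvu u0)), fun p x => ?_⟩
  obtain ⟨c, hc⟩ := poly_deg p (x - ξ x • u0) (ξ x • u0)
  have h1 := qd_aux hq (fun r => p.1 (x - ξ x • u0 + r • (ξ x • u0)))
    (fun r => fderiv ℝ p.1 (x - ξ x • u0 + r • (ξ x • u0)) (ξ x • u0))
    (fun r => line_deriv p _ _ r) c hc
  simp only [one_smul, sub_add_cancel, zero_smul, add_zero] at h1
  have h2 : ((∑ j, w j • ((pj (ContinuousLinearMap.id ℝ E) (L j)) ∘ₗ (dvu u0))) p).1 x =
      ∑ j, w j • fderiv ℝ p.1 (x - ξ x • u0 + s j • (ξ x • u0)) u0 := by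
    change evL x ((∑ j, w j • ((pj (ContinuousLinearMap.id ℝ E) (L j)) ∘ₗ (dvu u0))) p) = _
    rw [LinearMap.sum_apply, map_sum]
    refine Finset.sum_congr rfl fun j _ => ?_
    rw [LinearMap.smul_apply, map_smul]
    congr 1
    have h3 : L j x = x - ξ x • u0 + s j • (ξ x • u0) := by
      simp only [L, add_apply, smul_apply,
        ContinuousLinearMap.smulRight_apply, ContinuousLinearMap.id_apply]
      module
    change fderiv ℝ p.1 (L j x) u0 = _
    rw [h3]
  rw [h2, ← sub_eq_iff_eq_add', h1, Finset.smul_sum]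
  refine Finset.sum_congr rfl fun j _ => ?_
  rw [map_smul, smul_comm]

/-- multiplication by a linear form -/
private def mulF (φ : E →L[ℝ] ℝ) (q : HM E k) : HM E (k + 1) :=
  ⟨fun x => φ x • q.1 x, φ.contDiff.smul q.2.1, fun t x => by
    dsimp only
    rw [map_smul, q.2.2, smul_eq_mul, smul_smul, smul_smul, pow_succ]
    congr 1
    ring⟩

theorem hm_poinc (v' : E) (hv' : ‖v'‖ = 1) (f : E →ₗ[ℝ] HM E k)
    (hf : ∀ η η' : E, inner ℝ v' η = (0 : ℝ) → inner ℝ v' η' = (0 : ℝ) → ∀ x,
      fderiv ℝ (f η').1 x η = fderiv ℝ (f η).1 x η') :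
    ∃ F : HM E (k + 1), (∀ η : E, inner ℝ v' η = (0 : ℝ) → ∀ x, fderiv ℝ F.1 x η = (f η).1 x) ∧
      ∀ c : ℝ, F.1 (c • v') = 0 := by
  obtain ⟨m, s, w, hq⟩ := quad (k + 1)
  have hvv : inner ℝ v' v' = (1 : ℝ) := by
    rw [real_inner_self_eq_norm_sq, hv']
    norm_num
  let C : E →L[ℝ] E := (innerSL ℝ v').smulRight v'
  have hC : ∀ x, C x = (inner ℝ v' x : ℝ) • v' := fun x => rfl
  let P : E →L[ℝ] E := ContinuousLinearMap.id ℝ E - C
  have hP : ∀ x, P x = x - (inner ℝ v' x : ℝ) • v' := fun x => rfl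
  have hvP : ∀ x, inner ℝ v' (P x) = (0 : ℝ) := by
    intro x
    rw [hP, inner_sub_right, inner_smul_right, hvv]
    ring
  have hPη : ∀ η : E, inner ℝ v' η = (0 : ℝ) → P η = η := by
    intro η h
    rw [hP, h, zero_smul, sub_zero]
  let M : Fin m → (E →L[ℝ] E) := fun j => s j • P + C
  have hM : ∀ j x, M j x = s j • P x + C x := fun j x => rfl
  let b := stdOrthonormalBasis ℝ E
  let F : HM E (k + 1) := ∑ j, w j • ∑ l, mulF ((innerSL ℝ (b l)) ∘L P)
    (pj (ContinuousLinearMap.id ℝ E) (M j) (f (b l)))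
  have hF : ∀ x, F.1 x = ∑ j, w j • (f (P x)).1 (M j x) := by
    intro x
    change evL x F = _
    simp only [F, map_sum, map_smul]
    refine Finset.sum_congr rfl fun j _ => ?_
    congr 1
    have h1 : f (P x) = ∑ l, (inner ℝ (b l) (P x) : ℝ) • f (b l) := by
      have h2 := b.sum_repr' (P x)
      conv_lhs => rw [← h2]
      rw [map_sum]
      refine Finset.sum_congr rfl fun l _ => ?_
      rw [map_smul]
    change _ = evL (M j x) (f (P x))
    rw [h1, map_sum]
    refine Finset.sum_congr rfl fun l _ => ?_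
    rw [map_smul]
    rfl
  refine ⟨F, fun η hη x => ?_, fun c => ?_⟩
  · have hFd : DifferentiableAt ℝ F.1 x := (F.2.1.differentiable (by simp)) x
    have h1 : HasDerivAt (fun r : ℝ => F.1 (x + r • η)) (fderiv ℝ F.1 x η) 0 := by
      have h := line_deriv F x η 0
      simpa using h
    have h2 : HasDerivAt (fun r : ℝ => F.1 (x + r • η)) (∑ j, w j •
        (s j • fderiv ℝ (f (P x)).1 (M j x) η + (f η).1 (M j x))) 0 := by
      have h3 : (fun r : ℝ => F.1 (x + r • η)) = fun r : ℝ => ∑ j, w j •
          ((f (P x)).1 (M j x + r • (s j • η)) + r • (f η).1 (M j x + r • (s j • η))) := by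
        funext r
        rw [hF]
        refine Finset.sum_congr rfl fun j _ => ?_
        congr 1
        have h4 : P (x + r • η) = P x + r • η := by
          rw [map_add, map_smul, hPη η hη]
        have h5 : M j (x + r • η) = M j x + r • (s j • η) := by
          rw [map_add, map_smul]
          congr 2
          rw [hM, hPη η hη, hC, hη, zero_smul, add_zero]
        rw [h4, h5, map_add, map_smul]
        rfl
      rw [h3]
      refine HasDerivAt.fun_sum fun j _ => ?_
      refine HasDerivAt.const_smul (w j) ?_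
      have h6 : HasDerivAt (fun r : ℝ => (f (P x)).1 (M j x + r • (s j • η)))
          (s j • fderiv ℝ (f (P x)).1 (M j x) η) 0 := by
        have h := line_deriv (f (P x)) (M j x) (s j • η) 0
        simpa using h
      have h7 : HasDerivAt (fun r : ℝ => r • (f η).1 (M j x + r • (s j • η)))
          ((f η).1 (M j x)) 0 := by
        have h : HasDerivAt (fun r : ℝ => r • (f η).1 (M j x + r • (s j • η)))
            ((0 : ℝ) • fderiv ℝ (f η).1 (M j x + (0 : ℝ) • (s j • η)) (s j • η) +
              (1 : ℝ) • (f η).1 (M j x + (0 : ℝ) • (s j • η))) 0 :=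
          (hasDerivAt_id (0 : ℝ)).smul (line_deriv (f η) (M j x) (s j • η) 0)
        simpa using h
      exact h6.add h7
    rw [h1.unique h2]
    obtain ⟨c, hc⟩ := poly_deg (f η) (C x) (P x)
    have h8 := qd_aux hq (fun r => r • (f η).1 (C x + r • P x))
      (fun r => (f η).1 (C x + r • P x) + r • fderiv ℝ (f η).1 (C x + r • P x) (P x))
      (fun r => by
        have h := (hasDerivAt_id r).smul (line_deriv (f η) (C x) (P x) r)
        simp only [id, one_smul] at h
        rw [add_comm] at h
        exact h)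
      (fun i => if i = 0 then 0 else c (i - 1)) (fun r => by
        rw [hc r, Finset.sum_range_succ' _ (k + 1), Finset.smul_sum]
        simp [pow_succ, smul_smul, mul_comm])
    simp only [one_smul, zero_smul, sub_zero] at h8
    have h9 : C x + P x = x := by
      rw [hP, hC]
      module
    rw [h9] at h8
    rw [h8]
    refine Finset.sum_congr rfl fun j _ => ?_
    congr 1
    have h10 : M j x = C x + s j • P x := by
      rw [hM, add_comm]
    rw [h10, hf η (P x) hη (hvP x), add_comm]
  · rw [hF]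
    have h1 : P (c • v') = 0 := by
      rw [hP, inner_smul_right, hvv, mul_one, sub_self]
    refine Finset.sum_eq_zero fun j _ => ?_
    rw [h1, map_zero]
    exact smul_zero _

end
end LatLin
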