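import Pool.Agent.Lib.MP_2392aa_gt.O.Def1
import Pool.Agent.Lib.MP_2392aa_gt.O.Quad

/-!
MP_2392aa_gt, outer type, module LemUa (about 330 lines): equivariant cocycles of `uu v v'`, first step.

Notation: `c = ⟪v', x⟫`, `B = {η | ⟪v', η⟫ = 0}`, `f_η = β (ro v' η)` for `η ∈ E` (linear in `η`),
`φ_η x = ⟪v', f_η x⟫`. `ro v' η x = c η`, and `ro v' η ∈ uu v v'` for `η ∈ B`.

PROOF of `lemU_a`.
(i) For `η, η' ∈ B` the products `ro v' η ∘ ro v' η'` vanish, so `coc` says
`xd (ro v' η) f_η' = xd (ro v' η') f_η`, i.e. at every `x`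
`⟪v', f_η' x⟫ η - c D f_η' (x) η = ⟪v', f_η x⟫ η' - c D f_η (x) η'`.       (1)
Inner product with `v'`: `c ∂_η φ_η' = c ∂_η' φ_η`, so `∂_η φ_η' (x) = ∂_η' φ_η (x)` where `c ≠ 0`, and everywhere by
continuity (the `x` with `c ≠ 0` are dense: `x + s v'`).
(ii) At the points with `c = 0`, (1) is `φ_η' (x) η = φ_η (x) η'`. For `η ∈ B` not zero there is `η' ∈ B`
independent of `η` (`v` or a nonzero `y ⟂ v, v'`), so `φ_η (x) = 0`. So `φ_η = 0` on `c = 0`.
(iii) Let `D` be from `hm_div` with `ξ = ⟪v', ·⟫`, `u0 = v'`, and let `g_η := D (φ_η • v')`, where `φ_η • v'` is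
`pj (ro v' v') id f_η : HM E (k+1)`. For `η ∈ B`: `φ_η (x) v' = c g_η (x)` by (ii) (the point `x - c v'` has `c = 0`). So
`g_η x` is a multiple of `v'` (for `c ≠ 0`, then by continuity), and by (i), as `c` is constant along `B`,
`∂_η g_η' = ∂_η' g_η` for `η, η' ∈ B` (`c ≠ 0`, then by continuity). `η ↦ g_η` is linear on `E`.
(iv) `hm_poinc` for `g` gives `H : HM E (k+1)` with `∂_η H = g_η` for `η ∈ B` and `H (c v') = 0`. Put `h = ⟪v', H⟫` and
`w := - pj (ro v' v') id H`, i.e. `w x = - h x • v'`. Then `∂_η h = ⟪v', g_η⟫`, and at `x`, for `η ∈ B`,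
`⟪v', xd (ro v' η) w x⟫ = ⟪v', ⟪v', w x⟫ η⟫ - c ⟪v', D w(x) η⟫ = 0 + c ⟪v', g_η x⟫ = φ_η x`: this is the claim.
(v) `pi t w = w`: `t` maps `v ↦ lam v`, `v' ↦ lam v'`, `y ↦ mu y` on `N`, so it is self adjoint,
`⟪v', t⁻¹ x⟫ = lam⁻¹ c`, `⟪v', t x⟫ = lam c`, and `t`, `t⁻¹` preserve `B`. For `η ∈ B`:
`t ∘ ro v' η ∘ t⁻¹ = lam⁻¹ • ro v' (t η)`, so `eq` says `t (f_η (t⁻¹ x)) = lam⁻¹ f_(t η) x`. Inner product with `v'`:
`lam φ_η (t⁻¹ x) = lam⁻¹ φ_(t η) x`, i.e. `lam lam⁻¹ c g_η (t⁻¹ x) = lam⁻¹ c g_(t η) x`, so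
`g_η (t⁻¹ x) = lam⁻¹ g_(t η) x` (`c ≠ 0`, then all `x`). Both `h (t⁻¹ x)` and `lam⁻¹ h x` vanish on `ℝ v'`, and their
derivatives in the direction `η ∈ B` are `⟪v', g_(t⁻¹ η) (t⁻¹ x)⟫ = lam⁻¹ ⟪v', g_η x⟫` for both; functions with equal
derivatives in the directions of `B` and equal values at `c v'` are equal at `x = c v' + (x - c v')` (constant
along the segment). So `h (t⁻¹ x) = lam⁻¹ h x` and `pi t w (x) = t (- h (t⁻¹ x) v') = - lam lam⁻¹ h x v' = w x`.
-/

open scoped ContDiff Topology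

namespace LatLin

section
variable {E : Type*} [NormedAddCommGroup E] [InnerProductSpace ℝ E] {k : ℕ}

private theorem lua_self {v' : E} (h : ‖v'‖ = 1) : inner ℝ v' v' = (1 : ℝ) := by
  rw [real_inner_self_eq_norm_sq, h, one_pow]

private theorem lua_dens {v' : E} (h : ‖v'‖ = 1) {X : Type*} [TopologicalSpace X] [T2Space X]
    {F G : E → X} (hF : Continuous F) (hG : Continuous G)
    (hFG : ∀ x, inner ℝ v' x ≠ (0 : ℝ) → F x = G x) (x : E) : F x = G x := by
  have h1 : Continuous (fun s : ℝ => x + s • v') := by fun_prop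
  have h2 := Continuous.ext_on (dense_compl_singleton (-(inner ℝ v' x : ℝ))) (hF.comp h1)
    (hG.comp h1) (fun s hs => hFG _ (by
      rw [inner_add_right, inner_smul_right, lua_self h, mul_one]
      intro h3
      exact hs (by rw [Set.mem_singleton_iff]; linarith)))
  simpa using congrFun h2 0

private theorem lua_seg {v' : E} (h : ‖v'‖ = 1) {X : Type*} [NormedAddCommGroup X]
    [NormedSpace ℝ X] {F G : E → X} (hF : Differentiable ℝ F) (hG : Differentiable ℝ G)
    (hd : ∀ η : E, inner ℝ v' η = (0 : ℝ) → ∀ x, fderiv ℝ F x η = fderiv ℝ G x η)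
    (h0 : ∀ c : ℝ, F (c • v') = G (c • v')) (x : E) : F x = G x := by
  set c : ℝ := inner ℝ v' x with hc
  set η : E := x - c • v' with hη
  have hη0 : inner ℝ v' η = (0 : ℝ) := by
    rw [hη, inner_sub_right, inner_smul_right, lua_self h, mul_one, hc, sub_self]
  have h1 : ∀ s : ℝ, HasDerivAt (fun s : ℝ => F (c • v' + s • η) - G (c • v' + s • η)) 0 s := by
    intro s
    have h2 : HasDerivAt (fun s : ℝ => c • v' + s • η) η s := by
      simpa using ((hasDerivAt_id s).smul_const η).const_add (c • v')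
    have h3 := (hF (c • v' + s • η)).hasFDerivAt.comp_hasDerivAt s h2
    have h4 := (hG (c • v' + s • η)).hasFDerivAt.comp_hasDerivAt s h2
    have h5 := h3.sub h4
    rw [hd η hη0, sub_self] at h5
    exact h5
  have h6 := is_const_of_deriv_eq_zero (fun s => (h1 s).differentiableAt)
    (fun s => (h1 s).deriv) 1 0
  simp only [zero_smul, add_zero, one_smul] at h6
  rw [h0 c, sub_self, hη, add_sub_cancel] at h6
  exact sub_eq_zero.1 h6

private theorem lua_t {v v' : E} {lam mu : ℝ} {t : GE E} (hs : Std v v' lam mu t) (x : E) :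
    inner ℝ v' (t x) = lam * (inner ℝ v' x : ℝ) := by
  obtain ⟨y, hy⟩ : ∃ y, y = x - (inner ℝ v x : ℝ) • v - (inner ℝ v' x : ℝ) • v' := ⟨_, rfl⟩
  have hx : x = (inner ℝ v x : ℝ) • v + (inner ℝ v' x : ℝ) • v' + y := by rw [hy]; abel
  have ho : inner ℝ v' v = (0 : ℝ) := by rw [real_inner_comm]; exact hs.orth
  have h2 : inner ℝ v y = (0 : ℝ) := by
    rw [hy, inner_sub_right, inner_sub_right, inner_smul_right, inner_smul_right,
      lua_self hs.nv, hs.orth]
    ring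
  have h3 : inner ℝ v' y = (0 : ℝ) := by
    rw [hy, inner_sub_right, inner_sub_right, inner_smul_right, inner_smul_right,
      lua_self hs.nv', ho]
    ring
  have h4 : t x = (inner ℝ v x : ℝ) • (lam • v) + (inner ℝ v' x : ℝ) • (lam • v') + mu • y := by
    conv_lhs => rw [hx]
    rw [map_add, map_add, map_smul, map_smul, hs.tv, hs.tv', hs.tN y h2 h3]
  rw [h4, inner_add_right, inner_add_right, inner_smul_right, inner_smul_right, inner_smul_right,
    inner_smul_right, inner_smul_right, ho, h3, lua_self hs.nv']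
  ring

private theorem lua_lam {v v' : E} {lam mu : ℝ} {t : GE E} (hs : Std v v' lam mu t) :
    lam ≠ 0 := by
  intro h
  have := hs.l1
  rw [h, abs_zero] at this
  linarith

private theorem lua_ti {v v' : E} {lam mu : ℝ} {t : GE E} (hs : Std v v' lam mu t) (x : E) :
    inner ℝ v' ((t⁻¹ : GE E) x) = lam⁻¹ * (inner ℝ v' x : ℝ) := by
  have h1 : t ((t⁻¹ : GE E) x) = x := t.apply_symm_apply x
  have h2 := lua_t hs ((t⁻¹ : GE E) x)
  rw [h1] at h2
  rw [h2, inv_mul_cancel_left₀ (lua_lam hs)]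

private theorem lua_tiv {v v' : E} {lam mu : ℝ} {t : GE E} (hs : Std v v' lam mu t) :
    (t⁻¹ : GE E) v' = lam⁻¹ • v' := by
  have h1 : t (lam⁻¹ • v') = v' := by
    rw [map_smul, hs.tv', smul_smul, inv_mul_cancel₀ (lua_lam hs), one_smul]
  have h2 : (t⁻¹ : GE E) (t (lam⁻¹ • v')) = lam⁻¹ • v' := t.symm_apply_apply _
  rw [h1] at h2
  exact h2

private theorem lua_mem {v v' η : E} (ho : inner ℝ v' v = (0 : ℝ))
    (hη : inner ℝ v' η = (0 : ℝ)) : ro v' η ∈ uu v v' := by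
  refine ⟨by rw [ro_apply, ho, zero_smul], fun x => by
    rw [ro_apply, inner_smul_right, hη, mul_zero], fun x hx => ?_⟩
  rw [ro_apply, hx, zero_smul, inner_zero_right, zero_smul]

/-- `η ↦ ro v' η` -/
private noncomputable def lua_ro (v' : E) : E →ₗ[ℝ] (E →L[ℝ] E) where
  toFun η := ro v' η
  map_add' a b := by
    ext x
    simp [smul_add]
  map_smul' c a := by
    ext x
    simp [smul_comm c]

private theorem lua_diff (p : HM E k) : Differentiable ℝ p.1 :=
  p.2.1.differentiable (by simp)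

private theorem lua_cont (p : HM E k) (u : E) : Continuous (fun x => fderiv ℝ p.1 x u) :=
  (p.2.1.continuous_fderiv (by simp)).clm_apply continuous_const

end

section
variable {E : Type*} [NormedAddCommGroup E] [InnerProductSpace ℝ E] [FiniteDimensional ℝ E] {k : ℕ}

theorem lemU_a {v v' : E} {lam mu : ℝ} {t : GE E} (hs : Std v v' lam mu t)
    (β : (E →L[ℝ] E) →ₗ[ℝ] HM E (k + 1)) (hβ : UCoc v v' t β) :
    ∃ w : HM E (k + 1), pi (k + 1) t w = w ∧ ∀ η : E, inner ℝ v' η = (0 : ℝ) → ∀ x : E,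
      inner ℝ v' ((β (ro v' η) - xd (ro v' η) w).1 x) = (0 : ℝ) := by
  classical
  have ho : inner ℝ v' v = (0 : ℝ) := by rw [real_inner_comm]; exact hs.orth
  have hself : inner ℝ v' v' = (1 : ℝ) := lua_self hs.nv'
  have hlam := lua_lam hs
  -- the linear maps
  obtain ⟨f, hf⟩ : ∃ f : E →ₗ[ℝ] HM E (k + 1), ∀ η, f η = β (ro v' η) :=
    ⟨β ∘ₗ lua_ro v', fun η => rfl⟩
  obtain ⟨P, hP⟩ : ∃ P : E →ₗ[ℝ] HM E (k + 1), ∀ η,
      P η = pj (ro v' v') (ContinuousLinearMap.id ℝ E) (f η) :=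
    ⟨(pj (ro v' v') (ContinuousLinearMap.id ℝ E)) ∘ₗ f, fun η => rfl⟩
  have hPa : ∀ η x, (P η).1 x = (inner ℝ v' ((f η).1 x) : ℝ) • v' := by
    intro η x
    rw [hP, pj_apply, ro_apply]
    rfl
  have hPd : ∀ η x u, fderiv ℝ (P η).1 x u = (inner ℝ v' (fderiv ℝ (f η).1 x u) : ℝ) • v' := by
    intro η x u
    have h1 : HasFDerivAt (P η).1 ((ro v' v').comp (fderiv ℝ (f η).1 x)) x := by
      have h2 := (ro v' v').hasFDerivAt.comp x ((lua_diff (f η)) x).hasFDerivAt
      have h3 : (P η).1 = (ro v' v') ∘ (f η).1 := by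
        funext z
        rw [hPa]
        rfl
      rw [h3]
      exact h2
    rw [h1.fderiv]
    rfl
  -- step (i)
  have hcoc : ∀ η η' : E, inner ℝ v' η = (0 : ℝ) → inner ℝ v' η' = (0 : ℝ) → ∀ x,
      (inner ℝ v' ((f η').1 x) : ℝ) • η - (inner ℝ v' x : ℝ) • fderiv ℝ (f η').1 x η =
      (inner ℝ v' ((f η).1 x) : ℝ) • η' - (inner ℝ v' x : ℝ) • fderiv ℝ (f η).1 x η' := by
    intro η η' h1 h2 x
    have h3 := hβ.coc _ (lua_mem ho h1) _ (lua_mem ho h2)
    have h4 : ro v' η ∘L ro v' η' - ro v' η' ∘L ro v' η = (0 : E →L[ℝ] E) := by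
      ext z
      simp [h1, h2]
    rw [h4, map_zero, sub_eq_zero] at h3
    have h5 := congrArg (fun p : HM E (k + 1) => p.1 x) h3
    simp only [xd_apply, ro_apply, map_smul] at h5
    rw [hf, hf]
    exact h5
  -- step (ii)
  have hzero : ∀ η : E, inner ℝ v' η = (0 : ℝ) → ∀ x, inner ℝ v' x = (0 : ℝ) →
      inner ℝ v' ((f η).1 x) = (0 : ℝ) := by
    intro η hη x hx
    by_contra hne
    obtain ⟨y, hy0, hyv, hyv'⟩ := hs.big
    have h1 := hcoc η v hη ho x
    have h2 := hcoc η y hη hyv' x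
    rw [hx, zero_smul, zero_smul, sub_zero, sub_zero] at h1 h2
    have h3 := congrArg (fun z => (inner ℝ y z : ℝ)) h1
    simp only [inner_smul_right] at h3
    have hyv2 : inner ℝ y v = (0 : ℝ) := by rw [real_inner_comm]; exact hyv
    rw [hyv2, mul_zero] at h3
    have h4 := congrArg (fun z => (inner ℝ v z : ℝ)) h1
    simp only [inner_smul_right] at h4
    rw [lua_self hs.nv, mul_one] at h4
    have h5 := congrArg (fun z => (inner ℝ y z : ℝ)) h2
    simp only [inner_smul_right] at h5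
    rcases mul_eq_zero.1 h3 with h6 | h6
    · rw [h6, zero_mul] at h4
      exact hne h4.symm
    · rw [h6, mul_zero] at h5
      rcases mul_eq_zero.1 h5.symm with h7 | h7
      · exact hne h7
      · exact hy0 (inner_self_eq_zero.1 h7)
  -- closedness of `P`
  have hPc : ∀ η η' : E, inner ℝ v' η = (0 : ℝ) → inner ℝ v' η' = (0 : ℝ) → ∀ x,
      fderiv ℝ (P η').1 x η = fderiv ℝ (P η).1 x η' := by
    intro η η' h1 h2 x
    refine lua_dens hs.nv' (lua_cont (P η') η) (lua_cont (P η) η') (fun x hx => ?_) x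
    have h3 := congrArg (fun z => (inner ℝ v' z : ℝ)) (hcoc η η' h1 h2 x)
    simp only [inner_sub_right, inner_smul_right, h1, h2, mul_zero, zero_sub, neg_inj] at h3
    rw [hPd, hPd, mul_left_cancel₀ hx h3]
  -- step (iii)
  obtain ⟨D, hD⟩ := hm_div (k := k) (innerSL ℝ v') v' (by simpa using hself)
  obtain ⟨g, hg⟩ : ∃ g : E →ₗ[ℝ] HM E k, ∀ η, g η = D (P η) := ⟨D ∘ₗ P, fun η => rfl⟩
  have hPg : ∀ η : E, inner ℝ v' η = (0 : ℝ) → ∀ x,
      (P η).1 x = (inner ℝ v' x : ℝ) • (g η).1 x := by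
    intro η hη x
    have h1 := hD (P η) x
    rw [← hg] at h1
    rw [h1, innerSL_apply_apply, hPa, hzero η hη, zero_smul, zero_add]
    rw [inner_sub_right, inner_smul_right, hself, mul_one, sub_self]
  have hgc : ∀ η η' : E, inner ℝ v' η = (0 : ℝ) → inner ℝ v' η' = (0 : ℝ) → ∀ x,
      fderiv ℝ (g η').1 x η = fderiv ℝ (g η).1 x η' := by
    have h0 : ∀ η η' : E, inner ℝ v' η = (0 : ℝ) → inner ℝ v' η' = (0 : ℝ) → ∀ x,
        fderiv ℝ (P η).1 x η' = (inner ℝ v' x : ℝ) • fderiv ℝ (g η).1 x η' := by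
      intro η η' h1 h2 x
      have h3 : (P η).1 = fun z => (inner ℝ v' z : ℝ) • (g η).1 z := by
        funext z
        exact hPg η h1 z
      have h4 : HasFDerivAt (fun z : E => (inner ℝ v' z : ℝ)) (innerSL ℝ v') x :=
        (innerSL ℝ v').hasFDerivAt
      have h5 := h4.smul ((lua_diff (g η)) x).hasFDerivAt
      rw [h3]
      have h6 : fderiv ℝ (fun z => (inner ℝ v' z : ℝ) • (g η).1 z) x = _ := h5.fderiv
      rw [h6]
      simp [h2]
    intro η η' h1 h2 x
    refine lua_dens hs.nv' (lua_cont (g η') η) (lua_cont (g η) η') (fun x hx => ?_) x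
    have h3 := hPc η η' h1 h2 x
    rw [h0 η' η h2 h1, h0 η η' h1 h2] at h3
    exact smul_right_injective E hx h3
  -- step (iv)
  obtain ⟨H, hH1, hH2⟩ := hm_poinc v' hs.nv' g hgc
  have hga : ∀ η : E, inner ℝ v' η = (0 : ℝ) → ∀ x,
      (inner ℝ v' x : ℝ) * (inner ℝ v' ((g η).1 x) : ℝ) = inner ℝ v' ((f η).1 x) := by
    intro η hη x
    have h1 := congrArg (fun z => (inner ℝ v' z : ℝ)) (hPg η hη x)
    simp only [hPa, inner_smul_right, hself, mul_one] at h1
    exact h1.symm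
  -- equivariance of `g`
  have hge : ∀ η : E, inner ℝ v' η = (0 : ℝ) → ∀ x,
      lam * (inner ℝ v' ((g ((t⁻¹ : GE E) η)).1 ((t⁻¹ : GE E) x)) : ℝ) =
        inner ℝ v' ((g η).1 x) := by
    intro η hη
    have hη' : inner ℝ v' ((t⁻¹ : GE E) η) = (0 : ℝ) := by rw [lua_ti hs, hη, mul_zero]
    refine lua_dens hs.nv' ?_ ?_ (fun x hx => ?_)
    · exact continuous_const.mul (continuous_const.inner ((g _).2.1.continuous.comp
        (t⁻¹ : GE E).continuous))
    · exact continuous_const.inner (g η).2.1.continuous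
    have h1 := hβ.eq _ (lua_mem ho hη')
    have h2 : ((t : E →L[ℝ] E) ∘L ro v' ((t⁻¹ : GE E) η) ∘L ((t⁻¹ : GE E) : E →L[ℝ] E)) =
        lam⁻¹ • ro v' η := by
      ext z
      have h3 : t ((t⁻¹ : GE E) η) = η := t.apply_symm_apply η
      simp only [ContinuousLinearMap.comp_apply, ContinuousLinearEquiv.coe_coe, ro_apply,
        smul_apply, map_smul, lua_ti hs, h3, smul_smul]
    rw [h2, map_smul, ← hf, ← hf] at h1
    have h4 := congrArg (fun p : HM E (k + 1) => (inner ℝ v' (p.1 x) : ℝ)) h1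
    have h5 : (lam⁻¹ • f η).1 x = lam⁻¹ • (f η).1 x := rfl
    simp only [h5, pi_apply, inner_smul_right, lua_t hs] at h4
    rw [← hga η hη x, ← hga _ hη', lua_ti hs] at h4
    have h6 : (inner ℝ v' x : ℝ) * (lam⁻¹ * (inner ℝ v' ((g η).1 x) : ℝ)) =
        (inner ℝ v' x : ℝ) *
          (inner ℝ v' ((g ((t⁻¹ : GE E) η)).1 ((t⁻¹ : GE E) x)) : ℝ) := by
      calc (inner ℝ v' x : ℝ) * (lam⁻¹ * (inner ℝ v' ((g η).1 x) : ℝ))
          = lam⁻¹ * ((inner ℝ v' x : ℝ) * (inner ℝ v' ((g η).1 x) : ℝ)) := by ring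
        _ = lam * (lam⁻¹ * (inner ℝ v' x : ℝ) *
          (inner ℝ v' ((g ((t⁻¹ : GE E) η)).1 ((t⁻¹ : GE E) x)) : ℝ)) := h4
        _ = _ := by
          rw [mul_assoc, mul_inv_cancel_left₀ hlam]
    have h7 := mul_left_cancel₀ hx h6
    rw [← h7, mul_inv_cancel_left₀ hlam]
  -- the solution
  refine ⟨- pj (ro v' v') (ContinuousLinearMap.id ℝ E) H, ?_, ?_⟩
  · -- step (v)
    have hkey : ∀ x, lam * (inner ℝ v' (H.1 ((t⁻¹ : GE E) x)) : ℝ) = inner ℝ v' (H.1 x) := by
      have hA : ∀ x, HasFDerivAt (fun z => lam * (inner ℝ v' (H.1 ((t⁻¹ : GE E) z)) : ℝ))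
          (lam • (innerSL ℝ v').comp ((fderiv ℝ H.1 ((t⁻¹ : GE E) x)).comp
            ((t⁻¹ : GE E) : E →L[ℝ] E))) x := by
        intro x
        have h1 : HasFDerivAt (fun z => H.1 ((t⁻¹ : GE E) z))
            ((fderiv ℝ H.1 ((t⁻¹ : GE E) x)).comp ((t⁻¹ : GE E) : E →L[ℝ] E)) x :=
          ((lua_diff H) ((t⁻¹ : GE E) x)).hasFDerivAt.comp x
            ((t⁻¹ : GE E) : E →L[ℝ] E).hasFDerivAt
        have h2 := (innerSL ℝ v').hasFDerivAt.comp x h1
        exact h2.const_mul lam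
      have hB : ∀ x, HasFDerivAt (fun z => (inner ℝ v' (H.1 z) : ℝ))
          ((innerSL ℝ v').comp (fderiv ℝ H.1 x)) x := by
        intro x
        exact (innerSL ℝ v').hasFDerivAt.comp x ((lua_diff H) x).hasFDerivAt
      refine lua_seg hs.nv' (fun x => (hA x).differentiableAt)
        (fun x => (hB x).differentiableAt) (fun η hη x => ?_) (fun c => ?_)
      · rw [(hA x).fderiv, (hB x).fderiv]
        have hη' : inner ℝ v' ((t⁻¹ : GE E) η) = (0 : ℝ) := by rw [lua_ti hs, hη, mul_zero]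
        have h1 := hge η hη x
        rw [← hH1 η hη x, ← hH1 _ hη' ((t⁻¹ : GE E) x)] at h1
        simpa using h1
      · rw [hH2, map_smul, lua_tiv hs, smul_smul, hH2]
        simp
    apply Subtype.ext
    funext x
    have h1 : ∀ z, (- pj (ro v' v') (ContinuousLinearMap.id ℝ E) H : HM E (k + 1)).1 z =
        - ((inner ℝ v' (H.1 z) : ℝ) • v') := fun z => rfl
    rw [pi_apply, h1, h1, map_neg, map_smul, hs.tv', smul_smul, ← hkey x, mul_comm]
  · intro η hη x
    have h1 : (β (ro v' η) - xd (ro v' η)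
        (- pj (ro v' v') (ContinuousLinearMap.id ℝ E) H : HM E (k + 1))).1 x =
        (f η).1 x - (xd (ro v' η)
        (- pj (ro v' v') (ContinuousLinearMap.id ℝ E) H : HM E (k + 1))).1 x := by
      rw [hf]
      rfl
    have h2 : HasFDerivAt (- pj (ro v' v') (ContinuousLinearMap.id ℝ E) H : HM E (k + 1)).1
        (-((ro v' v').comp (fderiv ℝ H.1 x))) x := by
      exact ((ro v' v').hasFDerivAt.comp x ((lua_diff H) x).hasFDerivAt).neg
    rw [h1, xd_apply, h2.fderiv, inner_sub_right, inner_sub_right, ro_apply, inner_smul_right, hη,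
      mul_zero, zero_sub, sub_neg_eq_add, ro_apply, map_smul, inner_smul_right]
    have h3 : (-((ro v' v').comp (fderiv ℝ H.1 x))) η =
        - ((inner ℝ v' (fderiv ℝ H.1 x η) : ℝ) • v') := rfl
    rw [h3, inner_neg_right, inner_smul_right, hself, mul_one, hH1 η hη, mul_neg, hga η hη]
    ring

end
end LatLin
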