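import Pool.Agent.Lib.MP_2392aa_gt.O.Def1
import Pool.Agent.Lib.MP_2392aa_gt.O.Quad

/-!
MP_2392aa_gt, outer type, module LemUb (about 400 lines): equivariant cocycles of `uu v v'`, second step.

Notation: `c = ⟪v', x⟫`, `B = {η | ⟪v', η⟫ = 0}`, `N = {v, v'}^⊥`, `f_η = β (ro v' η)` (linear in `η`),
`e_q = β (ro q v)` for `q ∈ N`. `ro v' η x = c η`, `ro q v x = ⟪q, x⟫ v`. By assumption `⟪v', f_η x⟫ = 0` for `η ∈ B`.
Identities which hold for `c ≠ 0` hold everywhere by continuity (density of `x + s v'`).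

PROOF of `lemU_b`.
(i) `coc` for `ro v' η, ro v' η'` (`η, η' ∈ B`, products zero) is `c (∂_η f_η' - ∂_η' f_η) = 0`, so
`∂_η f_η' = ∂_η' f_η`. `hm_poinc` gives `F : HM E (k+2)` with `∂_η F = f_η` for `η ∈ B` and `F (c v') = 0`. As
`∂_η ⟪v', F⟫ = ⟪v', f_η⟫ = 0` and `F (c v') = 0`: `⟪v', F x⟫ = 0` for all `x`.
(ii) `t` is self adjoint, `⟪v', t⁻¹ x⟫ = lam⁻¹ c`, `t` preserves `B`; `t ∘ ro v' η ∘ t⁻¹ = lam⁻¹ ro v' (t η)`, so by `eq`
`t (f_η (t⁻¹ x)) = lam⁻¹ f_(t η) x` for `η ∈ B`. Hence `t (F (t⁻¹ x)) = lam⁻¹ F x`: both vanish on `ℝ v'` and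
have the derivatives `t f_(t⁻¹ η) (t⁻¹ x) = lam⁻¹ f_η x` in the directions `η ∈ B`.
(iii) Let `q ∈ N`, `η ∈ B`. `ro q v ∘ ro v' η = ⟪q, η⟫ ro v' v`, `ro v' η ∘ ro q v = 0` (`⟪v', v⟫ = 0`). So `coc` says
`[⟪q, f_η x⟫ v - ⟪q, x⟫ ∂_v f_η x] - [⟪v', e_q x⟫ η - c ∂_η e_q x] = ⟪q, η⟫ f_v x`.      (2)
Inner product with `v'`: `c ∂_η ⟪v', e_q⟫ = 0`, so `⟪v', e_q⟫` is constant along `B`: `⟪v', e_q x⟫ = ⟪v', e_q (c v')⟫ =
c^(k+1) ⟪v', e_q v'⟫`, which is `0` at `c = 0`. So (2) at a point `b ∈ B` is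
`⟪q, f_η b⟫ v - ⟪q, b⟫ ∂_v f_η b = ⟪q, η⟫ f_v b`.
The map `Ψ b = ⟪q, F b⟫ v - ⟪q, b⟫ f_v b` on `B` has `∂_η Ψ b = ⟪q, f_η b⟫ v - ⟪q, η⟫ f_v b - ⟪q, b⟫ ∂_η f_v b = 0` (using
`∂_η f_v = ∂_v f_η`) for `η ∈ B`, and `Ψ 0 = 0`. So for all `b ∈ B`, `q ∈ N`:
`⟪q, F b⟫ v = ⟪q, b⟫ f_v b`.      (3)
(iv) `F = 0` on `B`. By (3) for `n ∈ N`: `⟪q, b⟫ ⟪n, f_v b⟫ = 0`; the `b ∈ B` with `⟪q, b⟫ ≠ 0` (`q ≠ 0` fixed in `N`) are
dense in `B` (`b + s q`), so `⟪n, f_v b⟫ = 0`. Put `ψ b = ⟪v, f_v b⟫`; (3) says `⟪q, F b⟫ = ⟪q, b⟫ ψ b`. Derivative in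
the direction `v` (`⟪q, v⟫ = 0`, `∂_v F = f_v`): `0 = ⟪q, f_v b⟫ = ⟪q, b⟫ ∂_v ψ b`, so `∂_v ψ = 0` on `B` (density) and
`ψ b = ψ (b - ⟪v, b⟫ v)`. For `y ∈ N`: `t⁻¹ y = mu⁻¹ y`; (ii) for `η = v` is `t (f_v (t⁻¹ x)) = f_v x`, so
`lam ψ (mu⁻¹ y) = ψ y`, `lam mu^(-(k+1)) ψ y = ψ y`, and `|lam mu^(-(k+1))| > 1`, so `ψ y = 0`. Hence `ψ = 0` on `B`, and
`f_v b = 0` for `b ∈ B` (its components along `N`, `v`, `v'` vanish). By (3) `⟪q, F b⟫ = 0` for `q ∈ N`. Let
`Φ b = ⟪v, F b⟫`: `∂_v Φ = ⟪v, f_v⟫ = 0` on `B`, so `Φ b = Φ (b - ⟪v, b⟫ v)`, and by (ii) for `y ∈ N`: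
`lam mu^(-(k+2)) Φ y = lam⁻¹ Φ y`, so `Φ y = 0` (absolute values: `> 1` and `< 1`). So `F b = 0` for `b ∈ B`.
(v) `hm_div` with `ξ = ⟪v', ·⟫`, `u0 = v'`: `F x = c F1 x`, `F1 : HM E (k+1)`, and `⟪v', F1⟫ = 0`. Put `w := - F1`. For
`η ∈ B`: `xd (ro v' η) w x = ⟪v', w x⟫ η - c D w(x) η = c ∂_η F1 x = ∂_η (c F1) x = f_η x`. By (ii)
`c t (F1 (t⁻¹ x)) = c F1 x` (`F (t⁻¹ x) = lam⁻¹ c F1 (t⁻¹ x)`), so `pi t w = w`.
-/

open scoped ContDiff Topology

namespace LatLin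

section
variable {E : Type*} [NormedAddCommGroup E] [InnerProductSpace ℝ E] {k : ℕ}

private theorem ub_ext {X : Type*} [TopologicalSpace X] [T2Space X] {g1 g2 : ℝ → X}
    (h1 : Continuous g1) (h2 : Continuous g2) (s0 : ℝ) (h : ∀ s, s ≠ s0 → g1 s = g2 s) (s : ℝ) :
    g1 s = g2 s :=
  congrFun (h1.ext_on (dense_compl_singleton s0) h2 (fun t ht => h t ht)) s

private theorem ub_dens {X : Type*} [TopologicalSpace X] [T2Space X] {g1 g2 : E → X}
    (h1 : Continuous g1) (h2 : Continuous g2) (q u : E) (hqu : inner ℝ q u ≠ (0 : ℝ)) (x : E)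
    (h : ∀ s : ℝ, inner ℝ q (x + s • u) ≠ (0 : ℝ) → g1 (x + s • u) = g2 (x + s • u)) :
    g1 x = g2 x := by
  have hl : Continuous fun s : ℝ => x + s • u :=
    continuous_const.add (continuous_id.smul continuous_const)
  have h3 := ub_ext (h1.comp hl) (h2.comp hl) (-(inner ℝ q x / inner ℝ q u)) (fun s hs => by
    apply h
    rw [inner_add_right, inner_smul_right]
    intro h4
    apply hs
    field_simp
    linarith) 0
  simpa using h3

private theorem ub_line (p : HM E k) (a b : E) (r : ℝ) :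
    HasDerivAt (fun s : ℝ => p.1 (a + s • b)) (fderiv ℝ p.1 (a + r • b) b) r := by
  have hp : Differentiable ℝ p.1 := p.2.1.differentiable (by simp)
  have h2 : HasDerivAt (fun s : ℝ => a + s • b) b r := by
    simpa using ((hasDerivAt_id r).smul_const b).const_add a
  exact (hp (a + r • b)).hasFDerivAt.comp_hasDerivAt r h2

private theorem ub_cont (p : HM E k) : Continuous p.1 := p.2.1.continuous

private theorem ub_contd (p : HM E k) (u : E) : Continuous fun x => fderiv ℝ p.1 x u :=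
  ((p.2.1.fderiv_right (m := ∞) (by simp)).clm_apply contDiff_const).continuous

/-- functions of one variable with derivative zero -/
private theorem ub_const {X : Type*} [NormedAddCommGroup X] [NormedSpace ℝ X] {g g' : ℝ → X}
    (h : ∀ r, HasDerivAt g (g' r) r) (h0 : ∀ r, g' r = 0) (r : ℝ) : g r = g 0 := by
  refine is_const_of_deriv_eq_zero (fun r => (h r).differentiableAt) (fun r => ?_) r 0
  rw [(h r).deriv, h0]

section std
variable {v v' : E} {lam mu : ℝ} {t : GE E}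

private theorem ub_lam (hs : Std v v' lam mu t) : lam ≠ 0 := by
  intro h
  have := hs.l1
  rw [h, abs_zero] at this
  linarith

private theorem ub_mu (hs : Std v v' lam mu t) : mu ≠ 0 := abs_pos.1 hs.m0

private theorem ub_vv (hs : Std v v' lam mu t) : inner ℝ v v = (1 : ℝ) := by
  rw [real_inner_self_eq_norm_sq, hs.nv]
  norm_num

private theorem ub_vv' (hs : Std v v' lam mu t) : inner ℝ v' v' = (1 : ℝ) := by
  rw [real_inner_self_eq_norm_sq, hs.nv']
  norm_num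

private theorem ub_v'v (hs : Std v v' lam mu t) : inner ℝ v' v = (0 : ℝ) := by
  rw [real_inner_comm, hs.orth]

private theorem ub_tti (t : GE E) (x : E) : t ((t⁻¹ : GE E) x) = x :=
  ContinuousLinearEquiv.apply_symm_apply t x

private theorem ub_tit (t : GE E) (x : E) : (t⁻¹ : GE E) (t x) = x :=
  ContinuousLinearEquiv.symm_apply_apply t x

private theorem ub_inn (hs : Std v v' lam mu t) (x : E) :
    inner ℝ v (t x) = lam * inner ℝ v x ∧ inner ℝ v' (t x) = lam * inner ℝ v' x := by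
  have hy1 : inner ℝ v (x - (inner ℝ v x : ℝ) • v - (inner ℝ v' x : ℝ) • v') = (0 : ℝ) := by
    rw [inner_sub_right, inner_sub_right, inner_smul_right, inner_smul_right, ub_vv hs, hs.orth]
    ring
  have hy2 : inner ℝ v' (x - (inner ℝ v x : ℝ) • v - (inner ℝ v' x : ℝ) • v') = (0 : ℝ) := by
    rw [inner_sub_right, inner_sub_right, inner_smul_right, inner_smul_right, ub_vv' hs,
      ub_v'v hs]
    ring
  have hx : x = (inner ℝ v x : ℝ) • v + (inner ℝ v' x : ℝ) • v' +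
      (x - (inner ℝ v x : ℝ) • v - (inner ℝ v' x : ℝ) • v') := by abel
  have htx : t x = (inner ℝ v x * lam : ℝ) • v + (inner ℝ v' x * lam : ℝ) • v' +
      mu • (x - (inner ℝ v x : ℝ) • v - (inner ℝ v' x : ℝ) • v') := by
    conv_lhs => rw [hx]
    rw [map_add, map_add, map_smul, map_smul, hs.tv, hs.tv', hs.tN _ hy1 hy2, smul_smul,
      smul_smul]
  constructor
  · rw [htx, inner_add_right, inner_add_right, inner_smul_right, inner_smul_right,
      inner_smul_right, hy1, ub_vv hs, hs.orth]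
    ring
  · rw [htx, inner_add_right, inner_add_right, inner_smul_right, inner_smul_right,
      inner_smul_right, hy2, ub_vv' hs, ub_v'v hs]
    ring

private theorem ub_inn' (hs : Std v v' lam mu t) (x : E) :
    inner ℝ v' ((t⁻¹ : GE E) x) = lam⁻¹ * inner ℝ v' x := by
  have h1 := (ub_inn hs ((t⁻¹ : GE E) x)).2
  rw [ub_tti] at h1
  rw [h1, ← mul_assoc, inv_mul_cancel₀ (ub_lam hs), one_mul]

private theorem ub_tiN (hs : Std v v' lam mu t) (y : E) (h1 : inner ℝ v y = (0 : ℝ))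
    (h2 : inner ℝ v' y = (0 : ℝ)) : (t⁻¹ : GE E) y = mu⁻¹ • y := by
  have h3 : t (mu⁻¹ • y) = y := by
    rw [map_smul, hs.tN y h1 h2, smul_smul, inv_mul_cancel₀ (ub_mu hs), one_smul]
  have h4 := ub_tit t (mu⁻¹ • y)
  rw [h3] at h4
  exact h4

private theorem ub_tiv' (hs : Std v v' lam mu t) (c : ℝ) :
    (t⁻¹ : GE E) (c • v') = (lam⁻¹ * c) • v' := by
  have h3 : t ((lam⁻¹ * c) • v') = c • v' := by
    rw [map_smul, hs.tv', smul_smul, mul_comm, ← mul_assoc, mul_inv_cancel₀ (ub_lam hs), one_mul]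
  have h4 := ub_tit t ((lam⁻¹ * c) • v')
  rw [h3] at h4
  exact h4

/-- vectors are determined by their components -/
private theorem ub_zero (z : E) (h1 : inner ℝ v z = (0 : ℝ)) (h2 : inner ℝ v' z = (0 : ℝ))
    (h3 : ∀ n : E, inner ℝ v n = (0 : ℝ) → inner ℝ v' n = (0 : ℝ) → inner ℝ n z = (0 : ℝ)) :
    z = 0 :=
  inner_self_eq_zero.1 (h3 z h1 h2)

private theorem ub_mem1 (hs : Std v v' lam mu t) (η : E) (hη : inner ℝ v' η = (0 : ℝ)) :
    ro v' η ∈ uu v v' := by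
  refine ⟨?_, fun x => ?_, fun x hx => ?_⟩
  · rw [ro_apply, ub_v'v hs, zero_smul]
  · rw [ro_apply, inner_smul_right, hη, mul_zero]
  · rw [ro_apply, hx, zero_smul, inner_zero_right, zero_smul]

private theorem ub_mem2 (hs : Std v v' lam mu t) (q : E) (hq : inner ℝ v q = (0 : ℝ)) :
    ro q v ∈ uu v v' := by
  refine ⟨?_, fun x => ?_, fun x _ => ?_⟩
  · rw [ro_apply, real_inner_comm, hq, zero_smul]
  · rw [ro_apply, inner_smul_right, ub_v'v hs, mul_zero]
  · rw [ro_apply, inner_smul_right, ub_vv hs, mul_one]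

end std

/-- `η ↦ ro v' η` -/
private noncomputable def ub_ro (v' : E) : E →ₗ[ℝ] (E →L[ℝ] E) where
  toFun η := ro v' η
  map_add' a b := by
    ext x
    simp
  map_smul' c a := by
    ext x
    rw [ro_apply, RingHom.id_apply, smul_apply, ro_apply, smul_comm]

end

section
variable {E : Type*} [NormedAddCommGroup E] [InnerProductSpace ℝ E] [FiniteDimensional ℝ E] {k : ℕ}

theorem lemU_b {v v' : E} {lam mu : ℝ} {t : GE E} (hs : Std v v' lam mu t)
    (β : (E →L[ℝ] E) →ₗ[ℝ] HM E (k + 1)) (hβ : UCoc v v' t β)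
    (h0 : ∀ η : E, inner ℝ v' η = (0 : ℝ) → ∀ x : E,
      inner ℝ v' ((β (ro v' η)).1 x) = (0 : ℝ)) :
    ∃ w : HM E (k + 1), pi (k + 1) t w = w ∧ ∀ η : E, inner ℝ v' η = (0 : ℝ) →
      β (ro v' η) = xd (ro v' η) w := by
  have hlam := ub_lam hs
  have hmu := ub_mu hs
  have hvv := ub_vv hs
  have hvv' := ub_vv' hs
  have hv'v := ub_v'v hs
  let f : E →ₗ[ℝ] HM E (k + 1) := β ∘ₗ ub_ro v'
  have hf : ∀ η, f η = β (ro v' η) := fun η => rfl
  have h0' : ∀ η : E, inner ℝ v' η = (0 : ℝ) → ∀ x : E, inner ℝ v' ((f η).1 x) = (0 : ℝ) := h0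
  have h0d : ∀ η : E, inner ℝ v' η = (0 : ℝ) → ∀ x u : E,
      inner ℝ v' (fderiv ℝ (f η).1 x u) = (0 : ℝ) := by
    intro η hη x u
    have h1 : HasDerivAt (fun s : ℝ => (inner ℝ v' ((f η).1 (x + s • u)) : ℝ))
        (inner ℝ v' (fderiv ℝ (f η).1 (x + (0 : ℝ) • u) u)) 0 :=
      (innerSL ℝ v').hasFDerivAt.comp_hasDerivAt (0 : ℝ) (ub_line (f η) x u 0)
    have h2 : (fun s : ℝ => (inner ℝ v' ((f η).1 (x + s • u)) : ℝ)) = fun _ => 0 := by
      funext s
      exact h0' η hη _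
    rw [h2] at h1
    have h3 := h1.unique (hasDerivAt_const (0 : ℝ) (0 : ℝ))
    simpa using h3
  -- (i)
  have hsym : ∀ η η' : E, inner ℝ v' η = (0 : ℝ) → inner ℝ v' η' = (0 : ℝ) → ∀ x,
      fderiv ℝ (f η').1 x η = fderiv ℝ (f η).1 x η' := by
    intro η η' hη hη' x
    refine ub_dens (ub_contd (f η') η) (ub_contd (f η) η') v' v' (by rw [hvv']; exact one_ne_zero)
      x (fun s hc => ?_)
    generalize x + s • v' = y at hc ⊢
    have h1 := hβ.coc _ (ub_mem1 hs η hη) _ (ub_mem1 hs η' hη')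
    have h2 : ro v' η ∘L ro v' η' - ro v' η' ∘L ro v' η = 0 := by
      ext z
      simp [hη, hη']
    rw [h2, map_zero, sub_eq_zero, ← hf, ← hf] at h1
    have h3 : (xd (ro v' η) (f η')).1 y = (xd (ro v' η') (f η)).1 y := by rw [h1]
    rw [xd_apply, xd_apply, ro_apply, ro_apply, ro_apply, ro_apply, h0' η hη, h0' η' hη',
      zero_smul, zero_smul, zero_sub, zero_sub, neg_inj, map_smul, map_smul] at h3
    exact smul_right_injective E hc h3
  obtain ⟨F, hF, hF0⟩ := hm_poinc v' hs.nv' f hsym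
  -- constancy along `B`
  have hdec : ∀ x : E, inner ℝ v' (x - (inner ℝ v' x : ℝ) • v') = (0 : ℝ) := by
    intro x
    rw [inner_sub_right, inner_smul_right, hvv']
    ring
  have hF00 : F.1 0 = 0 := by
    have := hF0 0
    rwa [zero_smul] at this
  have hFv' : ∀ x, inner ℝ v' (F.1 x) = (0 : ℝ) := by
    intro x
    have h1 := ub_const (g := fun r : ℝ => (inner ℝ v' (F.1 ((inner ℝ v' x : ℝ) • v' +
        r • (x - (inner ℝ v' x : ℝ) • v'))) : ℝ))
      (g' := fun r => inner ℝ v' (fderiv ℝ F.1 ((inner ℝ v' x : ℝ) • v' +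
        r • (x - (inner ℝ v' x : ℝ) • v')) (x - (inner ℝ v' x : ℝ) • v')))
      (fun r => (innerSL ℝ v').hasFDerivAt.comp_hasDerivAt r (ub_line F _ _ r))
      (fun r => by rw [hF _ (hdec x)]; exact h0' _ (hdec x) _) 1
    simp only [one_smul, zero_smul, add_zero, add_sub_cancel, hF0, inner_zero_right] at h1
    exact h1
  -- (ii)
  have hfeqB : ∀ η : E, inner ℝ v' η = (0 : ℝ) → ∀ x,
      t ((f η).1 ((t⁻¹ : GE E) x)) = lam⁻¹ • (f (t η)).1 x := by
    intro η hη x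
    have h1 := hβ.eq _ (ub_mem1 hs η hη)
    have h2 : (t : E →L[ℝ] E) ∘L ro v' η ∘L ((t⁻¹ : GE E) : E →L[ℝ] E) =
        lam⁻¹ • ro v' (t η) := by
      ext z
      change t (ro v' η ((t⁻¹ : GE E) z)) = lam⁻¹ • ro v' (t η) z
      rw [ro_apply, ro_apply, map_smul, ub_inn' hs, smul_smul]
    rw [h2, map_smul] at h1
    have h3 : lam⁻¹ • (β (ro v' (t η))).1 x = (pi (k + 1) t (β (ro v' η))).1 x := by
      rw [← h1]
      rfl
    rw [pi_apply] at h3
    exact h3.symm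
  have hFeq : ∀ x : E, t (F.1 ((t⁻¹ : GE E) x)) = lam⁻¹ • F.1 x := by
    intro x
    have hd : ∀ r : ℝ, HasDerivAt (fun r : ℝ => t (F.1 ((t⁻¹ : GE E) ((inner ℝ v' x : ℝ) • v' +
        r • (x - (inner ℝ v' x : ℝ) • v')))) - lam⁻¹ • F.1 ((inner ℝ v' x : ℝ) • v' +
        r • (x - (inner ℝ v' x : ℝ) • v')))
        (t (fderiv ℝ F.1 ((t⁻¹ : GE E) ((inner ℝ v' x : ℝ) • v' +
          r • (x - (inner ℝ v' x : ℝ) • v'))) ((t⁻¹ : GE E) (x - (inner ℝ v' x : ℝ) • v'))) -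
          lam⁻¹ • fderiv ℝ F.1 ((inner ℝ v' x : ℝ) • v' +
          r • (x - (inner ℝ v' x : ℝ) • v')) (x - (inner ℝ v' x : ℝ) • v')) r := by
      intro r
      have h1 := ub_line F ((t⁻¹ : GE E) ((inner ℝ v' x : ℝ) • v'))
        ((t⁻¹ : GE E) (x - (inner ℝ v' x : ℝ) • v')) r
      simp only [← map_smul, ← map_add] at h1
      have h2 := (t : E →L[ℝ] E).hasFDerivAt.comp_hasDerivAt r h1
      exact h2.sub ((ub_line F _ _ r).const_smul lam⁻¹)
    have h1 := ub_const hd (fun r => by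
      have hB : inner ℝ v' ((t⁻¹ : GE E) (x - (inner ℝ v' x : ℝ) • v')) = (0 : ℝ) := by
        rw [ub_inn' hs, hdec, mul_zero]
      rw [hF _ hB, hF _ (hdec x), hfeqB _ hB, ub_tti, sub_self]) 1
    simp only [one_smul, zero_smul, add_zero, add_sub_cancel, hF0, smul_zero, sub_zero,
      ub_tiv' hs, map_zero] at h1
    exact sub_eq_zero.1 h1
  -- (iii)
  obtain ⟨q0, hq0, hq0v, hq0v'⟩ := hs.big
  have hqq : inner ℝ q0 q0 ≠ (0 : ℝ) := fun h => hq0 (inner_self_eq_zero.1 h)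
  have h2all : ∀ q : E, inner ℝ v q = (0 : ℝ) → inner ℝ v' q = (0 : ℝ) → ∀ η : E,
      inner ℝ v' η = (0 : ℝ) → ∀ x, ((inner ℝ q ((f η).1 x) : ℝ) • v -
      (inner ℝ q x : ℝ) • fderiv ℝ (f η).1 x v) - ((inner ℝ v' ((β (ro q v)).1 x) : ℝ) • η -
      (inner ℝ v' x : ℝ) • fderiv ℝ (β (ro q v)).1 x η) = (inner ℝ q η : ℝ) • (f v).1 x := by
    intro q hq hq' η hη x
    have h1 := hβ.coc _ (ub_mem2 hs q hq) _ (ub_mem1 hs η hη)
    have h2 : ro q v ∘L ro v' η - ro v' η ∘L ro q v = (inner ℝ q η : ℝ) • ro v' v := by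
      ext z
      change ro q v (ro v' η z) - ro v' η (ro q v z) = (inner ℝ q η : ℝ) • ro v' v z
      rw [ro_apply, ro_apply, ro_apply, ro_apply, ro_apply, inner_smul_right, inner_smul_right,
        hv'v, mul_zero, zero_smul, sub_zero, smul_smul, mul_comm]
    rw [h2, map_smul] at h1
    have h3 : (xd (ro q v) (β (ro v' η))).1 x - (xd (ro v' η) (β (ro q v))).1 x =
        (inner ℝ q η : ℝ) • (β (ro v' v)).1 x := congrArg (fun p : HM E (k + 1) => p.1 x) h1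
    rw [xd_apply, xd_apply, ro_apply, ro_apply, ro_apply, ro_apply, map_smul, map_smul] at h3
    exact h3
  have he0 : ∀ q : E, inner ℝ v q = (0 : ℝ) → inner ℝ v' q = (0 : ℝ) → ∀ b : E,
      inner ℝ v' b = (0 : ℝ) → inner ℝ v' ((β (ro q v)).1 b) = (0 : ℝ) := by
    intro q hq hq' b hb
    have h1 : ∀ η : E, inner ℝ v' η = (0 : ℝ) → ∀ x,
        inner ℝ v' (fderiv ℝ (β (ro q v)).1 x η) = (0 : ℝ) := by
      intro η hη x
      refine ub_dens ((continuous_const).inner (ub_contd (β (ro q v)) η)) continuous_const v' v'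
        (by rw [hvv']; exact one_ne_zero) x (fun s hc => ?_)
      generalize x + s • v' = y at hc ⊢
      have h2 := congrArg (fun z : E => (inner ℝ v' z : ℝ)) (h2all q hq hq' η hη y)
      simp only [inner_sub_right, inner_smul_right, hv'v, h0d η hη, hη, h0' v hv'v, mul_zero,
        sub_zero, zero_sub, neg_neg] at h2
      exact (mul_eq_zero.1 h2).resolve_left hc
    have h2 := ub_const (g := fun r : ℝ => (inner ℝ v' ((β (ro q v)).1 (0 + r • b)) : ℝ))
      (g' := fun r => inner ℝ v' (fderiv ℝ (β (ro q v)).1 (0 + r • b) b))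
      (fun r => (innerSL ℝ v').hasFDerivAt.comp_hasDerivAt r (ub_line (β (ro q v)) _ _ r))
      (fun r => h1 b hb _) 1
    have h3 : (β (ro q v)).1 0 = 0 := by
      have := (β (ro q v)).2.2 0 0
      simpa using this
    simp only [one_smul, zero_smul, add_zero, zero_add, h3, inner_zero_right] at h2
    exact h2
  have h2B : ∀ q : E, inner ℝ v q = (0 : ℝ) → inner ℝ v' q = (0 : ℝ) → ∀ η : E,
      inner ℝ v' η = (0 : ℝ) → ∀ b, inner ℝ v' b = (0 : ℝ) → (inner ℝ q ((f η).1 b) : ℝ) • v -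
      (inner ℝ q b : ℝ) • fderiv ℝ (f η).1 b v = (inner ℝ q η : ℝ) • (f v).1 b := by
    intro q hq hq' η hη b hb
    have h1 := h2all q hq hq' η hη b
    rwa [he0 q hq hq' b hb, hb, zero_smul, zero_smul, sub_zero, sub_zero] at h1
  have h3 : ∀ q : E, inner ℝ v q = (0 : ℝ) → inner ℝ v' q = (0 : ℝ) → ∀ b,
      inner ℝ v' b = (0 : ℝ) → (inner ℝ q (F.1 b) : ℝ) • v = (inner ℝ q b : ℝ) • (f v).1 b := by
    intro q hq hq' b hb
    have hd : ∀ r : ℝ, HasDerivAt (fun r : ℝ => (inner ℝ q (F.1 (0 + r • b)) : ℝ) • v -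
        (inner ℝ q (0 + r • b) : ℝ) • (f v).1 (0 + r • b))
        ((inner ℝ q (fderiv ℝ F.1 (0 + r • b) b) : ℝ) • v -
        ((inner ℝ q (0 + r • b) : ℝ) • fderiv ℝ (f v).1 (0 + r • b) b +
        (inner ℝ q b : ℝ) • (f v).1 (0 + r • b))) r := by
      intro r
      have h4 : HasDerivAt (fun r : ℝ => (inner ℝ q (F.1 (0 + r • b)) : ℝ))
          (inner ℝ q (fderiv ℝ F.1 (0 + r • b) b)) r :=
        (innerSL ℝ q).hasFDerivAt.comp_hasDerivAt r (ub_line F _ _ r)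
      have h5 : HasDerivAt (fun r : ℝ => (inner ℝ q (0 + r • b) : ℝ)) (inner ℝ q b) r := by
        have h6 : HasDerivAt (fun r : ℝ => 0 + r • b) b r := by
          simpa using ((hasDerivAt_id r).smul_const b).const_add (0 : E)
        exact (innerSL ℝ q).hasFDerivAt.comp_hasDerivAt r h6
      exact (h4.smul_const v).sub (h5.smul (ub_line (f v) _ _ r))
    have h1 := ub_const hd (fun r => by
      have hB : inner ℝ v' (0 + r • b) = (0 : ℝ) := by
        rw [zero_add, inner_smul_right, hb, mul_zero]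
      rw [hF _ hb, hsym b v hb hv'v, ← h2B q hq hq' b hb _ hB]
      abel) 1
    simp only [one_smul, zero_smul, add_zero, zero_add, hF00, inner_zero_right, sub_zero] at h1
    exact sub_eq_zero.1 h1
  -- (iv)
  have hBq : ∀ (s : ℝ) (b : E), inner ℝ v' b = (0 : ℝ) → inner ℝ v' (b + s • q0) = (0 : ℝ) := by
    intro s b hb
    rw [inner_add_right, inner_smul_right, hb, hq0v', mul_zero, add_zero]
  have hBv : ∀ (s : ℝ) (b : E), inner ℝ v' b = (0 : ℝ) → inner ℝ v' (b + s • v) = (0 : ℝ) := by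
    intro s b hb
    rw [inner_add_right, inner_smul_right, hb, hv'v, mul_zero, add_zero]
  have hnf : ∀ n : E, inner ℝ v n = (0 : ℝ) → inner ℝ v' n = (0 : ℝ) → ∀ b : E,
      inner ℝ v' b = (0 : ℝ) → inner ℝ n ((f v).1 b) = (0 : ℝ) := by
    intro n hn hn' b hb
    refine ub_dens (continuous_const.inner (ub_cont (f v))) continuous_const q0 q0 hqq b
      (fun s hc => ?_)
    have h4 := congrArg (fun z : E => (inner ℝ n z : ℝ)) (h3 q0 hq0v hq0v' _ (hBq s b hb))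
    have hnv : inner ℝ n v = (0 : ℝ) := by rw [real_inner_comm, hn]
    simp only [inner_smul_right] at h4
    rw [hnv, mul_zero] at h4
    exact (mul_eq_zero.1 h4.symm).resolve_left hc
  have hψ3 : ∀ q : E, inner ℝ v q = (0 : ℝ) → inner ℝ v' q = (0 : ℝ) → ∀ b,
      inner ℝ v' b = (0 : ℝ) → inner ℝ q (F.1 b) = (inner ℝ q b : ℝ) * inner ℝ v ((f v).1 b) := by
    intro q hq hq' b hb
    have h4 := congrArg (fun z : E => (inner ℝ v z : ℝ)) (h3 q hq hq' b hb)
    simp only [inner_smul_right] at h4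
    rwa [hvv, mul_one] at h4
  have hψd : ∀ b : E, inner ℝ v' b = (0 : ℝ) →
      inner ℝ v (fderiv ℝ (f v).1 b v) = (0 : ℝ) := by
    intro b hb
    refine ub_dens (continuous_const.inner (ub_contd (f v) v)) continuous_const q0 q0 hqq b
      (fun s hc => ?_)
    have hB := hBq s b hb
    generalize b + s • q0 = y at hc hB ⊢
    have hl : HasDerivAt (fun r : ℝ => y + r • v) v 0 := by
      simpa using ((hasDerivAt_id (0 : ℝ)).smul_const v).const_add y
    have h4 : HasDerivAt (fun r : ℝ => (inner ℝ q0 (F.1 (y + r • v)) : ℝ))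
        (inner ℝ q0 (fderiv ℝ F.1 (y + (0 : ℝ) • v) v)) 0 :=
      (innerSL ℝ q0).hasFDerivAt.comp_hasDerivAt (0 : ℝ) (ub_line F y v 0)
    have h5 : HasDerivAt (fun r : ℝ => (inner ℝ q0 (y + r • v) : ℝ)) (inner ℝ q0 v) 0 :=
      (innerSL ℝ q0).hasFDerivAt.comp_hasDerivAt (0 : ℝ) hl
    have h6 : HasDerivAt (fun r : ℝ => (inner ℝ v ((f v).1 (y + r • v)) : ℝ))
        (inner ℝ v (fderiv ℝ (f v).1 (y + (0 : ℝ) • v) v)) 0 :=
      (innerSL ℝ v).hasFDerivAt.comp_hasDerivAt (0 : ℝ) (ub_line (f v) y v 0)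
    have h7 := h5.mul h6
    have h8 : (fun r : ℝ => (inner ℝ q0 (F.1 (y + r • v)) : ℝ)) =
        (fun r : ℝ => (inner ℝ q0 (y + r • v) : ℝ)) *
        fun r : ℝ => (inner ℝ v ((f v).1 (y + r • v)) : ℝ) := by
      funext r
      exact hψ3 q0 hq0v hq0v' _ (hBv r y hB)
    rw [h8] at h4
    have h9 := h4.unique h7
    have hqv : inner ℝ q0 v = (0 : ℝ) := by rw [real_inner_comm, hq0v]
    rw [zero_smul, add_zero, hF v hv'v, hnf q0 hq0v hq0v' y hB, hqv,
      zero_mul, zero_add] at h9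
    exact (mul_eq_zero.1 h9.symm).resolve_left hc
  have hhom : ∀ {j : ℕ} (p : HM E j), (∀ b : E, inner ℝ v' b = (0 : ℝ) →
      inner ℝ v (fderiv ℝ p.1 b v) = (0 : ℝ)) → (∀ y : E, inner ℝ v y = (0 : ℝ) →
      inner ℝ v' y = (0 : ℝ) → inner ℝ v (p.1 y) = (0 : ℝ)) → ∀ b : E,
      inner ℝ v' b = (0 : ℝ) → inner ℝ v (p.1 b) = (0 : ℝ) := by
    intro j p hp hp' b hb
    have h1 := ub_const (g := fun r : ℝ => (inner ℝ v (p.1 (b - (inner ℝ v b : ℝ) • v +
        r • ((inner ℝ v b : ℝ) • v))) : ℝ))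
      (g' := fun r => inner ℝ v (fderiv ℝ p.1 (b - (inner ℝ v b : ℝ) • v +
        r • ((inner ℝ v b : ℝ) • v)) ((inner ℝ v b : ℝ) • v)))
      (fun r => (innerSL ℝ v).hasFDerivAt.comp_hasDerivAt r (ub_line p _ _ r))
      (fun r => by
        have hB : inner ℝ v' (b - (inner ℝ v b : ℝ) • v + r • ((inner ℝ v b : ℝ) • v)) =
            (0 : ℝ) := by
          rw [inner_add_right, inner_sub_right, inner_smul_right, inner_smul_right,
            inner_smul_right, hv'v, hb]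
          ring
        change inner ℝ v (fderiv ℝ p.1 _ ((inner ℝ v b : ℝ) • v)) = (0 : ℝ)
        rw [map_smul, inner_smul_right, hp _ hB, mul_zero]) 1
    simp only [one_smul, zero_smul, add_zero, sub_add_cancel] at h1
    rw [h1]
    refine hp' _ ?_ ?_
    · rw [inner_sub_right, inner_smul_right, hvv]
      ring
    · rw [inner_sub_right, inner_smul_right, hv'v, hb]
      ring
  have hψ : ∀ b : E, inner ℝ v' b = (0 : ℝ) → inner ℝ v ((f v).1 b) = (0 : ℝ) := by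
    refine hhom (f v) hψd fun y hy hy' => ?_
    have h4 := hfeqB v hv'v y
    have h5 : (f (t v)).1 y = lam • (f v).1 y := by
      rw [hs.tv, map_smul]
      rfl
    rw [h5, smul_smul, inv_mul_cancel₀ hlam, one_smul, ub_tiN hs y hy hy', (f v).2.2] at h4
    have h6 := congrArg (fun z : E => (inner ℝ v z : ℝ)) h4
    simp only [(ub_inn hs _).1, inner_smul_right] at h6
    have h7 : (lam * mu⁻¹ ^ (k + 1) - 1) * inner ℝ v ((f v).1 y) = (0 : ℝ) := by
      linear_combination h6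
    refine (mul_eq_zero.1 h7).resolve_left fun h8 => ?_
    have h9 : |lam * mu⁻¹ ^ (k + 1)| = 1 := by
      rw [sub_eq_zero.1 h8, abs_one]
    rw [abs_mul, abs_pow, abs_inv] at h9
    have h10 : 1 ≤ |mu|⁻¹ ^ (k + 1) := one_le_pow₀ ((one_le_inv₀ hs.m0).2 hs.m1.le)
    have h11 := hs.l1
    nlinarith
  have hfv : ∀ b : E, inner ℝ v' b = (0 : ℝ) → (f v).1 b = 0 := fun b hb =>
    ub_zero _ (hψ b hb) (h0' v hv'v b) fun n hn hn' => hnf n hn hn' b hb
  have hΦ : ∀ b : E, inner ℝ v' b = (0 : ℝ) → inner ℝ v (F.1 b) = (0 : ℝ) := by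
    refine hhom F (fun b hb => by rw [hF v hv'v]; exact hψ b hb) fun y hy hy' => ?_
    have h4 := hFeq y
    rw [ub_tiN hs y hy hy', F.2.2] at h4
    have h6 := congrArg (fun z : E => (inner ℝ v z : ℝ)) h4
    simp only [(ub_inn hs _).1, inner_smul_right] at h6
    have h7 : (lam * mu⁻¹ ^ (k + 1 + 1) - lam⁻¹) * inner ℝ v (F.1 y) = (0 : ℝ) := by
      linear_combination h6
    refine (mul_eq_zero.1 h7).resolve_left fun h8 => ?_
    have h9 : |lam * mu⁻¹ ^ (k + 1 + 1)| = |lam|⁻¹ := by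
      rw [sub_eq_zero.1 h8, abs_inv]
    rw [abs_mul, abs_pow, abs_inv] at h9
    have h10 : 1 ≤ |mu|⁻¹ ^ (k + 1 + 1) := one_le_pow₀ ((one_le_inv₀ hs.m0).2 hs.m1.le)
    have h11 := hs.l1
    have h12 : |lam|⁻¹ < 1 := inv_lt_one_of_one_lt₀ h11
    nlinarith
  have hFB : ∀ b : E, inner ℝ v' b = (0 : ℝ) → F.1 b = 0 := fun b hb =>
    ub_zero _ (hΦ b hb) (hFv' b) fun n hn hn' => by
      rw [hψ3 n hn hn' b hb, hψ b hb, mul_zero]
  -- (v)
  obtain ⟨D, hD⟩ := hm_div (k := k + 1) (innerSL ℝ v') v' hvv'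
  have hD1 : ∀ x, F.1 x = (inner ℝ v' x : ℝ) • (D F).1 x := by
    intro x
    have h4 := hD F x
    change F.1 x = F.1 (x - (inner ℝ v' x : ℝ) • v') + (inner ℝ v' x : ℝ) • (D F).1 x at h4
    rwa [hFB _ (hdec x), zero_add] at h4
  have hDv' : ∀ x, inner ℝ v' ((D F).1 x) = (0 : ℝ) := by
    intro x
    refine ub_dens (continuous_const.inner (ub_cont (D F))) continuous_const v' v'
      (by rw [hvv']; exact one_ne_zero) x (fun s hc => ?_)
    generalize x + s • v' = y at hc ⊢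
    have h4 := hFv' y
    rw [hD1, inner_smul_right] at h4
    exact (mul_eq_zero.1 h4).resolve_left hc
  refine ⟨-(D F), ?_, fun η hη => ?_⟩
  · rw [map_neg, neg_inj]
    apply Subtype.ext
    funext x
    rw [pi_apply]
    refine ub_dens (g1 := fun x => t ((D F).1 ((t⁻¹ : GE E) x))) (t.continuous.comp
      ((ub_cont (D F)).comp (t⁻¹ : GE E).continuous)) (ub_cont (D F)) v' v'
      (by rw [hvv']; exact one_ne_zero) x (fun s hc => ?_)
    generalize x + s • v' = y at hc ⊢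
    have h4 := hFeq y
    rw [hD1, hD1 y, ub_inn' hs, map_smul, mul_smul] at h4
    have h5 := smul_right_injective E (inv_ne_zero hlam) h4
    exact smul_right_injective E hc h5
  · apply Subtype.ext
    funext x
    have h4 : (xd (ro v' η) (-(D F))).1 x = (inner ℝ v' x : ℝ) • fderiv ℝ (D F).1 x η := by
      rw [map_neg]
      change -((xd (ro v' η) (D F)).1 x) = _
      rw [xd_apply, ro_apply, ro_apply, hDv', zero_smul, zero_sub, neg_neg, map_smul]
    rw [h4]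
    have h5 : fderiv ℝ F.1 x η = (f η).1 x := hF η hη x
    change (f η).1 x = _
    rw [← h5]
    have h6 := ub_line F x η 0
    have hl : HasDerivAt (fun r : ℝ => x + r • η) η 0 := by
      simpa using ((hasDerivAt_id (0 : ℝ)).smul_const η).const_add x
    have h7 : HasDerivAt (fun r : ℝ => (inner ℝ v' (x + r • η) : ℝ)) (inner ℝ v' η) 0 :=
      (innerSL ℝ v').hasFDerivAt.comp_hasDerivAt (0 : ℝ) hl
    have h8 := h7.smul (ub_line (D F) x η 0)
    have h9 : (fun r : ℝ => F.1 (x + r • η)) =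
        (fun r : ℝ => (inner ℝ v' (x + r • η) : ℝ)) • fun r : ℝ => (D F).1 (x + r • η) := by
      funext r
      exact hD1 _
    rw [h9] at h6
    have h10 := h6.unique h8
    rw [hη, zero_smul, zero_smul, add_zero, add_zero] at h10
    exact h10

end
end LatLin
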