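import Pool.Agent.Lib.MP_2392aa_gt.O.KilU
import Pool.Agent.Lib.MP_2392aa_gt.O.LemUa
import Pool.Agent.Lib.MP_2392aa_gt.O.LemUb
import Pool.Agent.Lib.MP_2392aa_gt.L.Fix

/-!
MP_2392aa_gt, outer type, module LemUc (about 220 lines): equivariant cocycles of `uu v v'`, last step.

PROOF.
* `lemU_c`: notation of `LemUb`. For `q ∈ N`, `η ∈ B`: `coc` for `ro q v`, `ro v' η` (with
  `ro q v ∘ ro v' η = ⟪q, η⟫ ro v' v` and `ro v' η ∘ ro q v = 0`) gives `xd (ro v' η) e_q = 0`, as all `f_η = 0`. Now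
  `ro v' η` has square zero, so `pi (tv v' η) e_q = e_q` (`pi_of_xd`), i.e. `e_q (x + c η) = e_q x + ⟪v', e_q x⟫ η`.
  For `c ≠ 0`, at the point `c v'` with `η = c⁻¹ (x - c v')`:
  `e_q x = c^k e_q v' + ⟪v', e_q v'⟫ c^(k-1) (x - c v')` (read `c^k c⁻¹`).
  `t ∘ ro q v ∘ t⁻¹ = (lam / mu) ro q v` (`t` is self adjoint: `⟪q, t⁻¹ x⟫ = mu⁻¹ ⟪q, x⟫`), so by `eq`
  `(lam / mu) e_q x = t (e_q (t⁻¹ x))`. At `x = v'`: `(lam / mu) e_q v' = lam^(-k) t (e_q v')`. The components of
  `e_q v'` along `v` and `v'`: `lam / mu` against `lam^(1-k)`, absolute values `> |lam|` and `≤ |lam|`: zero. Components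
  along `N`: `lam / mu` against `mu lam^(-k)`, absolute values `> 1` and `< 1`: zero. So `e_q v' = 0`, `e_q x = 0` for
  `c ≠ 0`, and `e_q = 0` by continuity. By `uu_dec` every `a ∈ uu v v'` is `ro q v + ro v' η`: `β a = e_q + f_η = 0`.
* `UCoc.sub` (private): if `pi t w = w` then `β - xdL w` is again a `UCoc`:
  `xd a (xd a' w) - xd a' (xd a w) = xd (a ∘ a' - a' ∘ a) w` (private; direct computation with second derivatives
  as in `Fix.xd_comm`, symmetry of the second derivative), and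
  `xd (t ∘ a ∘ t⁻¹) w = pi t (xd a w)` for `pi t w = w` (`Fix.pi_xd`).
* `lemU`: `lemU_a` gives `w1`, apply `lemU_b` to `β - xdL w1` to get `w2`, and `lemU_c` to
  `β - xdL w1 - xdL w2`; `w = w1 + w2`. (`k = j + 1` since `1 ≤ k`.)
-/

open scoped ContDiff Topology

namespace LatLin

section
variable {E : Type*} [NormedAddCommGroup E] [InnerProductSpace ℝ E] [FiniteDimensional ℝ E] {k : ℕ}

omit [FiniteDimensional ℝ E] in
private theorem uc_xd_bracket (a a' : E →L[ℝ] E) (w : HM E k) :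
    xd a (xd a' w) - xd a' (xd a w) = xd (a ∘L a' - a' ∘L a) w := by
  have key : ∀ (a a' : E →L[ℝ] E) (x : E),
      (xd a (xd a' w)).1 x = a (a' (w.1 x)) - a (fderiv ℝ w.1 x (a' x)) -
        a' (fderiv ℝ w.1 x (a x)) + fderiv ℝ w.1 x (a' (a x)) +
        fderiv ℝ (fderiv ℝ w.1) x (a x) (a' x) := by
    intro a a' x
    have hw1 : Differentiable ℝ w.1 := w.2.1.differentiable (by simp)
    have hw2 : Differentiable ℝ (fderiv ℝ w.1) :=
      (w.2.1.fderiv_right (m := ∞) (by simp)).differentiable (by simp)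
    have h1 : HasFDerivAt (xd a' w).1
        (a' ∘L (fderiv ℝ w.1 x) - ((fderiv ℝ w.1 x) ∘L a' +
          (fderiv ℝ (fderiv ℝ w.1) x).flip (a' x))) x := by
      have h2 : HasFDerivAt (fun y => a' (w.1 y)) (a' ∘L (fderiv ℝ w.1 x)) x :=
        a'.hasFDerivAt.comp x (hw1 x).hasFDerivAt
      have h3 : HasFDerivAt (fun y => fderiv ℝ w.1 y (a' y)) ((fderiv ℝ w.1 x) ∘L a' +
          (fderiv ℝ (fderiv ℝ w.1) x).flip (a' x)) x :=
        (hw2 x).hasFDerivAt.clm_apply a'.hasFDerivAt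
      exact h2.sub h3
    rw [xd_apply, h1.fderiv, xd_apply, map_sub]
    simp only [sub_apply, add_apply, ContinuousLinearMap.comp_apply,
      ContinuousLinearMap.flip_apply]
    abel
  ext x
  have h0 : (xd a (xd a' w) - xd a' (xd a w)).1 x =
      (xd a (xd a' w)).1 x - (xd a' (xd a w)).1 x := rfl
  rw [h0, key a a' x, key a' a x, xd_apply]
  have hsym : fderiv ℝ (fderiv ℝ w.1) x (a x) (a' x) = fderiv ℝ (fderiv ℝ w.1) x (a' x) (a x) :=
    (w.2.1.contDiffAt.isSymmSndFDerivAt (by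
      rw [minSmoothness_of_isRCLikeNormedField]
      exact WithTop.coe_le_coe.2 le_top)) _ _
  rw [hsym]
  simp only [sub_apply, ContinuousLinearMap.comp_apply, map_sub]
  abel

private theorem uc_sub {v v' : E} {t : GE E} {β : (E →L[ℝ] E) →ₗ[ℝ] HM E k}
    (hβ : UCoc v v' t β) {w : HM E k} (hw : pi k t w = w) : UCoc v v' t (β - xdL w) := by
  refine ⟨fun a ha a' ha' => ?_, fun a ha => ?_⟩
  · have h1 := hβ.coc a ha a' ha'
    have h2 := uc_xd_bracket a a' w
    rw [LinearMap.sub_apply, LinearMap.sub_apply, LinearMap.sub_apply, xdL_apply, xdL_apply,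
      xdL_apply, map_sub (xd a), map_sub (xd a'), ← h1, ← h2]
    abel
  · have h1 := hβ.eq a ha
    have h2 := pi_xd t ((t : E →L[ℝ] E) ∘L a ∘L ((t⁻¹ : GE E) : E →L[ℝ] E)) w
    have h3 : ((t⁻¹ : GE E) : E →L[ℝ] E) ∘L
        ((t : E →L[ℝ] E) ∘L a ∘L ((t⁻¹ : GE E) : E →L[ℝ] E)) ∘L (t : E →L[ℝ] E) = a := by
      ext x
      show (t⁻¹ : GE E) (t (a ((t⁻¹ : GE E) (t x)))) = a x
      rw [show (t⁻¹ : GE E) (t x) = x from t.symm_apply_apply x]
      exact t.symm_apply_apply (a x)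
    rw [h3, hw] at h2
    rw [LinearMap.sub_apply, LinearMap.sub_apply, xdL_apply, xdL_apply, h1, ← h2, map_sub]

omit [FiniteDimensional ℝ E] in
private theorem uc_t {v v' : E} {lam mu : ℝ} {t : GE E} (hs : Std v v' lam mu t) (x : E) :
    t x = (lam * (inner ℝ v x : ℝ)) • v + (lam * (inner ℝ v' x : ℝ)) • v' +
      mu • (x - (inner ℝ v x : ℝ) • v - (inner ℝ v' x : ℝ) • v') := by
  have hvv : inner ℝ v v = (1 : ℝ) := by rw [real_inner_self_eq_norm_sq, hs.nv]; norm_num
  have hvv' : inner ℝ v' v' = (1 : ℝ) := by rw [real_inner_self_eq_norm_sq, hs.nv']; norm_num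
  have ho : inner ℝ v' v = (0 : ℝ) := by rw [real_inner_comm]; exact hs.orth
  have h1 := hs.tN (x - (inner ℝ v x : ℝ) • v - (inner ℝ v' x : ℝ) • v')
    (by rw [inner_sub_right, inner_sub_right, inner_smul_right, inner_smul_right, hvv, hs.orth]
        ring)
    (by rw [inner_sub_right, inner_sub_right, inner_smul_right, inner_smul_right, hvv', ho]
        ring)
  rw [map_sub, map_sub, map_smul, map_smul, hs.tv, hs.tv', sub_sub, sub_eq_iff_eq_add] at h1
  rw [h1]
  module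

omit [FiniteDimensional ℝ E] in
private theorem uc_iv {v v' : E} {lam mu : ℝ} {t : GE E} (hs : Std v v' lam mu t) (x : E) :
    inner ℝ v (t x) = lam * (inner ℝ v x : ℝ) := by
  have hvv : inner ℝ v v = (1 : ℝ) := by rw [real_inner_self_eq_norm_sq, hs.nv]; norm_num
  rw [uc_t hs x]
  simp only [inner_add_right, inner_smul_right, inner_sub_right, hvv, hs.orth]
  ring

omit [FiniteDimensional ℝ E] in
private theorem uc_iv' {v v' : E} {lam mu : ℝ} {t : GE E} (hs : Std v v' lam mu t) (x : E) :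
    inner ℝ v' (t x) = lam * (inner ℝ v' x : ℝ) := by
  have hvv' : inner ℝ v' v' = (1 : ℝ) := by rw [real_inner_self_eq_norm_sq, hs.nv']; norm_num
  have ho : inner ℝ v' v = (0 : ℝ) := by rw [real_inner_comm]; exact hs.orth
  rw [uc_t hs x]
  simp only [inner_add_right, inner_smul_right, inner_sub_right, hvv', ho]
  ring

omit [FiniteDimensional ℝ E] in
private theorem uc_iN {v v' : E} {lam mu : ℝ} {t : GE E} (hs : Std v v' lam mu t) {q : E}
    (hq : inner ℝ v q = (0 : ℝ)) (hq' : inner ℝ v' q = (0 : ℝ)) (x : E) :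
    inner ℝ q (t x) = mu * (inner ℝ q x : ℝ) := by
  have h1 : inner ℝ q v = (0 : ℝ) := by rw [real_inner_comm]; exact hq
  have h2 : inner ℝ q v' = (0 : ℝ) := by rw [real_inner_comm]; exact hq'
  rw [uc_t hs x]
  simp only [inner_add_right, inner_smul_right, inner_sub_right, h1, h2]
  ring

private theorem uc_eq {v v' : E} {lam mu : ℝ} {t : GE E} (hs : Std v v' lam mu t)
    (β : (E →L[ℝ] E) →ₗ[ℝ] HM E k) (hβ : UCoc v v' t β)
    (h0 : ∀ η : E, inner ℝ v' η = (0 : ℝ) → β (ro v' η) = 0) {q : E}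
    (hq : inner ℝ v q = (0 : ℝ)) (hq' : inner ℝ v' q = (0 : ℝ)) :
    β (ro q v) = 0 := by
  have hvv : inner ℝ v v = (1 : ℝ) := by rw [real_inner_self_eq_norm_sq, hs.nv]; norm_num
  have hvv' : inner ℝ v' v' = (1 : ℝ) := by rw [real_inner_self_eq_norm_sq, hs.nv']; norm_num
  have ho : inner ℝ v' v = (0 : ℝ) := by rw [real_inner_comm]; exact hs.orth
  have hqv : inner ℝ q v = (0 : ℝ) := by rw [real_inner_comm]; exact hq
  have hlam : lam ≠ 0 := by
    intro h
    have := hs.l1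
    rw [h, abs_zero] at this
    linarith
  have hmu : mu ≠ 0 := abs_pos.1 hs.m0
  set e : HM E k := β (ro q v) with he
  have hmq : ro q v ∈ uu v v' := by
    have := ro_mem_uu hs.nv hs.nv' hs.orth (q := q) (η := 0) hq (inner_zero_right _)
    have h2 : ro v' (0 : E) = 0 := by
      ext x
      simp
    rwa [h2, add_zero] at this
  have hmη : ∀ η : E, inner ℝ v' η = (0 : ℝ) → ro v' η ∈ uu v v' := by
    intro η hη
    have := ro_mem_uu hs.nv hs.nv' hs.orth (q := 0) (η := η) (inner_zero_right _) hη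
    have h2 : ro (0 : E) v = 0 := by
      ext x
      simp
    rwa [h2, zero_add] at this
  -- the transvections fix `e`
  have hfix : ∀ η : E, inner ℝ v' η = (0 : ℝ) → pi k (tv v' η) e = e := by
    intro η hη
    have h1 := hβ.coc _ hmq _ (hmη η hη)
    have h2 : ro q v ∘L ro v' η - ro v' η ∘L ro q v = (inner ℝ q η : ℝ) • ro v' v := by
      ext x
      simp only [sub_apply, ContinuousLinearMap.comp_apply, ro_apply, smul_apply,
        inner_smul_right, ho, mul_zero, zero_smul, sub_zero, smul_smul]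
      rw [mul_comm]
    rw [h2, map_smul, h0 v ho, h0 η hη, smul_zero, map_zero, zero_sub, neg_eq_zero] at h1
    exact pi_of_xd (ro_sq hη) e h1
  have hval : ∀ η : E, inner ℝ v' η = (0 : ℝ) → ∀ x : E,
      e.1 (x + (inner ℝ v' x : ℝ) • η) = e.1 x + (inner ℝ v' (e.1 x) : ℝ) • η := by
    intro η hη x
    have h1 := congrArg (fun p : HM E k => p.1 (x + (inner ℝ v' x : ℝ) • η)) (hfix η hη)
    rw [pi_apply, tv_inv_apply hη, inner_add_right, inner_smul_right, hη, mul_zero, add_zero,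
      add_sub_cancel_right, tv_apply hη] at h1
    exact h1.symm
  -- equivariance
  have heq : (lam / mu) • e = pi k t e := by
    have h1 := hβ.eq _ hmq
    have h2 : (t : E →L[ℝ] E) ∘L ro q v ∘L ((t⁻¹ : GE E) : E →L[ℝ] E) =
        (lam / mu) • ro q v := by
      ext x
      show t ((inner ℝ q ((t⁻¹ : GE E) x) : ℝ) • v) = (lam / mu) • ((inner ℝ q x : ℝ) • v)
      have h3 := uc_iN hs hq hq' ((t⁻¹ : GE E) x)
      rw [show t ((t⁻¹ : GE E) x) = x from t.apply_symm_apply x] at h3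
      rw [map_smul, hs.tv, h3, smul_smul, smul_smul]
      congr 1
      field_simp
    rw [h2, map_smul] at h1
    exact h1
  set z : E := e.1 v' with hz
  have hz1 : (lam / mu) • z = (lam⁻¹) ^ k • t z := by
    have h1 := congrArg (fun p : HM E k => p.1 v') heq
    rw [pi_apply] at h1
    have h2 : (t⁻¹ : GE E) v' = lam⁻¹ • v' := by
      have h3 : t (lam⁻¹ • v') = v' := by
        rw [map_smul, hs.tv', smul_smul, inv_mul_cancel₀ hlam, one_smul]
      have h4 : (t⁻¹ : GE E) (t (lam⁻¹ • v')) = lam⁻¹ • v' := t.symm_apply_apply _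
      rw [h3] at h4
      exact h4
    rw [h2, e.2.2, map_smul] at h1
    exact h1
  have hk1 : |lam⁻¹ ^ k| ≤ 1 := by
    rw [abs_pow, abs_inv]
    exact pow_le_one₀ (inv_nonneg.2 (abs_nonneg _)) (inv_le_one_of_one_le₀ hs.l1.le)
  have hlm : |lam| < |lam / mu| := by
    rw [abs_div, lt_div_iff₀ hs.m0]
    have : 0 < |lam| := abs_pos.2 hlam
    nlinarith [hs.m1]
  have hzero : ∀ (r c : ℝ), |r| ≤ |lam| → lam / mu * c = lam⁻¹ ^ k * (r * c) → c = 0 := by
    intro r c hr hc
    by_contra hc0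
    have h1 : lam / mu = lam⁻¹ ^ k * r := by
      have : (lam / mu) * c = (lam⁻¹ ^ k * r) * c := by rw [hc]; ring
      exact mul_right_cancel₀ hc0 this
    have h2 : |lam / mu| ≤ |lam| := by
      rw [h1, abs_mul]
      calc |lam⁻¹ ^ k| * |r| ≤ 1 * |lam| :=
            mul_le_mul hk1 hr (abs_nonneg _) zero_le_one
        _ = |lam| := one_mul _
    linarith
  have hz2 : inner ℝ v z = (0 : ℝ) := by
    have h1 := congrArg (fun y : E => (inner ℝ v y : ℝ)) hz1
    rw [inner_smul_right, inner_smul_right, uc_iv hs] at h1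
    exact hzero lam _ le_rfl h1
  have hz3 : inner ℝ v' z = (0 : ℝ) := by
    have h1 := congrArg (fun y : E => (inner ℝ v' y : ℝ)) hz1
    rw [inner_smul_right, inner_smul_right, uc_iv' hs] at h1
    exact hzero lam _ le_rfl h1
  have hz4 : inner ℝ z z = (0 : ℝ) := by
    have h1 := congrArg (fun y : E => (inner ℝ z y : ℝ)) hz1
    rw [inner_smul_right, inner_smul_right, uc_iN hs hz2 hz3] at h1
    exact hzero mu _ (by linarith [hs.m1, hs.l1]) h1
  have hz5 : z = 0 := inner_self_eq_zero.1 hz4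
  -- vanishing off the hyperplane
  have hoff : ∀ x : E, inner ℝ v' x ≠ (0 : ℝ) → e.1 x = 0 := by
    intro x hx
    set c : ℝ := inner ℝ v' x with hc
    have h1 : inner ℝ v' (c⁻¹ • (x - c • v')) = (0 : ℝ) := by
      rw [inner_smul_right, inner_sub_right, inner_smul_right, hvv', ← hc]
      ring
    have h2 := hval _ h1 (c • v')
    have h3 : (inner ℝ v' (c • v') : ℝ) = c := by rw [inner_smul_right, hvv', mul_one]
    rw [h3, smul_smul, mul_inv_cancel₀ hx, one_smul, add_sub_cancel, e.2.2, ← hz, hz5,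
      smul_zero, inner_zero_right, zero_smul, add_zero] at h2
    exact h2
  ext x
  by_cases hx : inner ℝ v' x = (0 : ℝ)
  · have hcont : Continuous (fun s : ℝ => e.1 (x + s • v')) :=
      e.2.1.continuous.comp (continuous_const.add (continuous_id.smul continuous_const))
    have h1 : Filter.Tendsto (fun s : ℝ => e.1 (x + s • v')) (𝓝[≠] (0 : ℝ)) (𝓝 (e.1 x)) := by
      have := hcont.tendsto 0
      simp only [zero_smul, add_zero] at this
      exact this.mono_left nhdsWithin_le_nhds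
    have h2 : Filter.Tendsto (fun s : ℝ => e.1 (x + s • v')) (𝓝[≠] (0 : ℝ)) (𝓝 0) := by
      refine tendsto_const_nhds.congr' ?_
      filter_upwards [self_mem_nhdsWithin] with s hs'
      have h3 : inner ℝ v' (x + s • v') ≠ (0 : ℝ) := by
        rw [inner_add_right, inner_smul_right, hvv', hx, zero_add, mul_one]
        exact hs'
      exact (hoff _ h3).symm
    exact tendsto_nhds_unique h1 h2
  · exact hoff x hx

theorem lemU_c {v v' : E} {lam mu : ℝ} {t : GE E} (hs : Std v v' lam mu t)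
    (β : (E →L[ℝ] E) →ₗ[ℝ] HM E k) (hβ : UCoc v v' t β)
    (h0 : ∀ η : E, inner ℝ v' η = (0 : ℝ) → β (ro v' η) = 0) :
    ∀ a ∈ uu v v', β a = 0 := by
  intro a ha
  obtain ⟨q, η, hq, hq', hη, rfl⟩ := uu_dec hs.nv hs.nv' hs.orth ha
  rw [map_add, uc_eq hs β hβ h0 hq hq', h0 η hη, add_zero]

theorem lemU {v v' : E} {lam mu : ℝ} {t : GE E} (hs : Std v v' lam mu t) (hk : 1 ≤ k)
    (β : (E →L[ℝ] E) →ₗ[ℝ] HM E k) (hβ : UCoc v v' t β) :
    ∃ w : HM E k, pi k t w = w ∧ ∀ a ∈ uu v v', β a = xd a w := by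
  obtain ⟨j, rfl⟩ : ∃ j, k = j + 1 := ⟨k - 1, by omega⟩
  obtain ⟨w1, hw1, h1⟩ := lemU_a hs β hβ
  have hβ1 := uc_sub hβ hw1
  obtain ⟨w2, hw2, h2⟩ := lemU_b hs (β - xdL w1) hβ1 (by
    intro η hη x
    rw [LinearMap.sub_apply, xdL_apply]
    exact h1 η hη x)
  have hβ2 := uc_sub hβ1 hw2
  have h3 := lemU_c hs (β - xdL w1 - xdL w2) hβ2 (by
    intro η hη
    rw [LinearMap.sub_apply, h2 η hη, xdL_apply, sub_self])
  refine ⟨w1 + w2, by rw [map_add, hw1, hw2], fun a ha => ?_⟩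
  have h4 := h3 a ha
  rw [LinearMap.sub_apply, LinearMap.sub_apply, xdL_apply, xdL_apply, sub_sub, sub_eq_zero] at h4
  rw [h4, map_add]

end
end LatLin
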