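import Mathlib

/-!
MP_2392aa_gt, formal linearization, outer type, module Mink (about 150 lines, only Mathlib):
Minkowski's theorem for unimodular matrices.

PROOF. Let `M` be a real `N × N` matrix with `|det M| = 1`, `N ≥ 1`. The set `s = {y : Fin N → ℝ | ∀ i, |(M y) i| < 2}`
is convex, symmetric; its volume is `4 ^ N > 2 ^ N` (it is the preimage under `M` of the cube
`(-2, 2) ^ N`, `MeasureTheory.Measure.addHaar_preimage_linearMap` or
`Real.map_matrix_volume_pi_eq_smul_volume_pi`, `|det M| = 1`). Minkowski's theorem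
`MeasureTheory.exists_ne_zero_mem_lattice_of_measure_mul_two_pow_lt_measure` for the lattice `ℤ ^ N`
(fundamental domain of the standard basis: `ZSpan.isAddFundamentalDomain (Pi.basisFun ℝ (Fin N))`,
covolume `1`: `ZSpan.volume_real_fundamentalDomain` / `ZSpan.measure_fundamentalDomain` ) gives a nonzero
integer vector in `s`. (Members of the integer span of `Pi.basisFun` are integer vectors:
`Module.Basis.mem_span_iff_repr_mem`.)
-/

namespace LatLin

theorem mink_int (N : ℕ) (hN : 0 < N) (M : Matrix (Fin N) (Fin N) ℝ) (hM : |M.det| = 1) :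
    ∃ x : Fin N → ℤ, x ≠ 0 ∧ ∀ i, |∑ j, M i j * (x j : ℝ)| ≤ 2 := by
  have : Nonempty (Fin N) := ⟨⟨0, hN⟩⟩
  set b := Pi.basisFun ℝ (Fin N) with hb
  set T : (Fin N → ℝ) →ₗ[ℝ] (Fin N → ℝ) := Matrix.toLin' M with hT
  have hdT : |LinearMap.det T| = 1 := by rw [hT, LinearMap.det_toLin', hM]
  have hdet : LinearMap.det T ≠ 0 := by
    intro h
    rw [h, abs_zero] at hdT
    exact zero_ne_one hdT
  set s : Set (Fin N → ℝ) := T ⁻¹' Metric.closedBall 0 2 with hs
  have hcount : Countable ((Submodule.span ℤ (Set.range b)).toAddSubgroup) :=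
    (inferInstance : Countable (Submodule.span ℤ (Set.range b)))
  have hsymm : ∀ x ∈ s, -x ∈ s := by
    intro x hx
    rw [hs, Set.mem_preimage, mem_closedBall_zero_iff] at hx ⊢
    rwa [map_neg, norm_neg]
  have hconv : Convex ℝ s := (convex_closedBall (0 : Fin N → ℝ) 2).linear_preimage T
  have hfd : MeasureTheory.volume (ZSpan.fundamentalDomain b) = 1 := by
    rw [hb, ZSpan.volume_fundamentalDomain]
    have h1 : (Matrix.of (Pi.basisFun ℝ (Fin N)) : Matrix (Fin N) (Fin N) ℝ) = 1 := by
      ext i j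
      rw [Matrix.of_apply, Pi.basisFun_apply, Matrix.one_apply, Pi.single_apply]
      exact if_congr eq_comm rfl rfl
    rw [h1, Matrix.det_one, abs_one, ENNReal.ofReal_one]
  have hvol : MeasureTheory.volume (ZSpan.fundamentalDomain b) *
      2 ^ Module.finrank ℝ (Fin N → ℝ) < MeasureTheory.volume s := by
    rw [hfd, one_mul, hs, MeasureTheory.Measure.addHaar_preimage_linearMap
      MeasureTheory.volume hdet, abs_inv, hdT, inv_one, ENNReal.ofReal_one, one_mul,
      Real.volume_pi_closedBall _ (by norm_num), Module.finrank_pi, Fintype.card_fin]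
    have h2 : (2 : ENNReal) = ENNReal.ofReal 2 := by simp
    rw [h2, ← ENNReal.ofReal_pow (by norm_num)]
    refine (ENNReal.ofReal_lt_ofReal_iff (by positivity)).2 ?_
    exact pow_lt_pow_left₀ (by norm_num) (by norm_num) hN.ne'
  obtain ⟨x, hx0, hx⟩ :=
    MeasureTheory.exists_ne_zero_mem_lattice_of_measure_mul_two_pow_lt_measure
      (ZSpan.isAddFundamentalDomain' b MeasureTheory.volume) hsymm hconv hvol
  have hxm : (x : Fin N → ℝ) ∈ Submodule.span ℤ (Set.range b) := x.2
  rw [b.mem_span_iff_repr_mem ℤ] at hxm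
  choose z hz using hxm
  have h3 : ∀ (y : Fin N → ℝ) (i : Fin N), b.repr y i = y i := by
    intro y i
    rw [hb]
    exact Pi.basisFun_repr ℝ (Fin N) y i
  have hz' : ∀ i, ((z i : ℤ) : ℝ) = (x : Fin N → ℝ) i := by
    intro i
    have h4 := hz i
    rw [h3] at h4
    simpa using h4
  refine ⟨z, ?_, ?_⟩
  · intro h
    apply hx0
    apply Subtype.ext
    funext i
    rw [← hz' i, h]
    simp
  · intro i
    rw [hs, Set.mem_preimage, mem_closedBall_zero_iff] at hx
    have h1 : T (x : Fin N → ℝ) i = ∑ j, M i j * (z j : ℝ) := by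
      rw [hT, Matrix.toLin'_apply, Matrix.mulVec, dotProduct]
      exact Finset.sum_congr rfl fun j _ => by rw [hz']
    rw [← h1]
    exact (norm_le_pi_norm (T x) i).trans hx

end LatLin
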