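import Pool.Agent.Lib.MP_2392aa_gt.O.KilU
import Pool.Agent.Lib.MP_2392aa_gt.L.Scheme

/-!
MP_2392aa_gt, outer type, module Pair (about 260 lines): the local trivializers of opposite flags agree on
the intersection of the hyperplanes.

PROOF of `pair_agree`. Take `t ∈ G`, `lam`, `mu` from `h.pair`.
(a) `t` normalizes `uu v' v`: `t` preserves `ℝ v'` and `v^⊥`. Indeed every `x` is
`x = α v' + β γ v' + y` with `β = ⟪v, x⟫ / ⟪v, γ v'⟫`, `α = ⟪v, γ⁻¹ x⟫ / ⟪v, γ⁻¹ v'⟫` and `⟪v, y⟫ = 0 = ⟪v, γ⁻¹ y⟫`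
(`⟪v, v'⟫ = 0`), so `⟪v, t x⟫ = lam β ⟪v, γ v'⟫ + mu ⟪v, y⟫ = lam ⟪v, x⟫`, and in the same way
`⟪v, γ⁻¹ (t x)⟫ = lam ⟪v, γ⁻¹ x⟫`, `⟪v, t⁻¹ x⟫ = lam⁻¹ ⟪v, x⟫`. For `a ∈ uu v' v` (i.e. `a v' = 0`, `⟪v, a x⟫ = 0`, and
`a x = ⟪v', a x⟫ v'` if `⟪v, x⟫ = 0`) the operator `t a t⁻¹` satisfies the same three conditions [third: if
`⟪v, x⟫ = 0` then `⟪v, t⁻¹ x⟫ = 0`, so `a (t⁻¹ x)` is a multiple of `v'`, hence so is `t a t⁻¹ x`; a multiple
`s v'` of the unit vector `v'` is `⟪v', s v'⟫ v'`].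
(b) LEMMA (private). If `r ∈ G` normalizes `uu v' v` and so does `r⁻¹`, then `z := pi r w + b r - w` vanishes on
`v^⊥`. For `s ∈ S'`: `s' := r⁻¹ s r ∈ S'` (`h.cj` for `r⁻¹`) and `s = r s' r⁻¹`; by the cocycle identity
`b s = b r + pi r (b s') - pi s (b r)` (from `b (r s') = b (s r)`), and `b s' = w - pi s' w`, `b s = w - pi s w`; so
`pi s z = z`. By `h.kl` `z ∈ kil (uu v' v)` and by `kilU_zero` (with `v, v'` exchanged) `z x = 0` if `⟪v, x⟫ = 0`.
(c) (b) holds for `r = t` and for `r = γ⁻¹ t γ`: the latter preserves `ℝ v'` (`t (γ v') = lam γ v'`) and `v^⊥`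
(`⟪v, γ⁻¹ t γ x⟫ = lam ⟪v, x⟫` by (a)); both with inverses. With `wγ := pi γ w + b γ` and `r = γ⁻¹ t γ`, `t γ = γ r`:
`pi t wγ + b t - wγ = pi (tγ) w + b (tγ) - pi γ w - b γ = pi γ (pi r w + b r - w)`, which vanishes at the `x` with
`⟪v, γ⁻¹ x⟫ = 0`.
(d) Let `⟪v, y⟫ = 0 = ⟪v, γ⁻¹ y⟫`. Then `w y = (pi t w + b t) y` and `wγ y = (pi t wγ + b t) y`, so `δ := w - wγ`
satisfies `δ y = t (δ (t⁻¹ y)) = mu^(-k) t (δ y)`, i.e. `t (δ y) = mu^k δ y`. Write `δ y = α v' + β γ v' + y'` as in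
(a): `lam α = mu^k α`, `lam β = mu^k β`, `mu y' = mu^k y'` (uniqueness of the decomposition, or apply `⟪v, ·⟫` and
`⟪v, γ⁻¹ ·⟫`). As `|lam| > 1 > |mu^k|` and `|mu^(k-1)| < 1`: `δ y = 0`.
PROOF of `pair_agree2`: apply `pair_agree` to `g⁻¹ * h'` at `y = g⁻¹ x` and apply `g`: as
`pi g (b (g⁻¹ h')) = b h' - b g`.
-/

open scoped ContDiff Topology

namespace LatLin

section
variable {E : Type*} [NormedAddCommGroup E] [InnerProductSpace ℝ E] [FiniteDimensional ℝ E] {k : ℕ}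

omit [FiniteDimensional ℝ E] in
private theorem pa_mul (g h : GE E) (w : HM E k) :
    pi k (g * h) w = pi k g (pi k h w) := by
  rw [map_mul, Module.End.mul_apply]

omit [FiniteDimensional ℝ E] in
private theorem pa_inv_apply (g : GE E) (x : E) : (g⁻¹ : GE E) (g x) = x := g.symm_apply_apply x

omit [FiniteDimensional ℝ E] in
private theorem pa_apply_inv (g : GE E) (x : E) : g ((g⁻¹ : GE E) x) = x := g.apply_symm_apply x

omit [FiniteDimensional ℝ E] in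
private theorem pa_mul_apply (g h : GE E) (x : E) : (g * h : GE E) x = g (h x) := rfl

omit [FiniteDimensional ℝ E] in
/-- elements which preserve `ℝ v'` and `v^⊥` normalize `uu v' v` -/
private theorem pa_norm {v v' : E} (hv' : ‖v'‖ = 1) {r : GE E} {c d : ℝ} (hc : c ≠ 0) (hd : d ≠ 0)
    (h1 : r v' = c • v') (h2 : ∀ x, inner ℝ v (r x) = d * (inner ℝ v x : ℝ)) :
    ∀ a ∈ uu v' v, (r : E →L[ℝ] E) ∘L a ∘L ((r⁻¹ : GE E) : E →L[ℝ] E) ∈ uu v' v := by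
  rintro a ⟨ha1, ha2, ha3⟩
  have e1 : (r⁻¹ : GE E) v' = c⁻¹ • v' := by
    have e2 : v' = c⁻¹ • r v' := by rw [h1, smul_smul, inv_mul_cancel₀ hc, one_smul]
    conv_lhs => rw [e2]
    rw [map_smul, pa_inv_apply]
  refine ⟨?_, fun x => ?_, fun x hx => ?_⟩
  · show r (a ((r⁻¹ : GE E) v')) = 0
    rw [e1, map_smul, ha1, smul_zero, map_zero]
  · show inner ℝ v (r (a ((r⁻¹ : GE E) x))) = (0 : ℝ)
    rw [h2, ha2, mul_zero]
  · show r (a ((r⁻¹ : GE E) x)) = (inner ℝ v' (r (a ((r⁻¹ : GE E) x))) : ℝ) • v'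
    have e3 : inner ℝ v ((r⁻¹ : GE E) x) = (0 : ℝ) := by
      have e4 := h2 ((r⁻¹ : GE E) x)
      rw [pa_apply_inv, hx] at e4
      rcases mul_eq_zero.1 e4.symm with e5 | e5
      · exact absurd e5 hd
      · exact e5
    rw [ha3 _ e3, map_smul, h1, smul_smul, inner_smul_right, real_inner_self_eq_norm_sq, hv',
      one_pow, mul_one]

/-- local trivializers are moved by the normalizer within the maps vanishing on `v^⊥` -/
private theorem pa_z (hk : 2 ≤ k) {G : Subgroup (GE E)} {v v' : E} {S' : Set (GE E)}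
    (h : OGlue G v v' S') (b : GE E → HM E k) (hb : IsCoc G b) (w : HM E k) (hw : Triv b w S')
    {r : GE E} (hr : r ∈ G) {c d : ℝ} (hc : c ≠ 0) (hd : d ≠ 0)
    (h1 : r v' = c • v') (h2 : ∀ x, inner ℝ v (r x) = d * (inner ℝ v x : ℝ)) (x : E)
    (hx : inner ℝ v x = (0 : ℝ)) : (pi k r w + b r).1 x = w.1 x := by
  have h1' : (r⁻¹ : GE E) v' = c⁻¹ • v' := by
    have e2 : v' = c⁻¹ • r v' := by rw [h1, smul_smul, inv_mul_cancel₀ hc, one_smul]
    conv_lhs => rw [e2]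
    rw [map_smul, pa_inv_apply]
  have h2' : ∀ x, inner ℝ v ((r⁻¹ : GE E) x) = d⁻¹ * (inner ℝ v x : ℝ) := by
    intro x
    have e4 := h2 ((r⁻¹ : GE E) x)
    rw [pa_apply_inv] at e4
    rw [e4, ← mul_assoc, inv_mul_cancel₀ hd, one_mul]
  have h3 : ∀ s ∈ S', pi k s (pi k r w + b r - w) = pi k r w + b r - w := by
    intro s hs
    have e1 := h.cj r⁻¹ (G.inv_mem hr)
      (pa_norm h.nv' (inv_ne_zero hc) (inv_ne_zero hd) h1' h2') s hs
    rw [inv_inv] at e1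
    have e2 : r * (r⁻¹ * s * r) = s * r := by group
    have e3 := hb r hr _ (h.sub _ e1)
    have e4 := hb s (h.sub s hs) r hr
    rw [e2, e4, hw s hs, hw _ e1, map_sub, ← pa_mul, e2] at e3
    have e5 : pi k s (b r) = b r + (pi k r w - pi k (s * r) w) - (w - pi k s w) := by
      rw [← e3]
      abel
    rw [map_sub, map_add, e5, ← pa_mul]
    abel
  have h4 := kilU_zero h.nv' h.nv (by rw [real_inner_comm]; exact h.orth) hk _
    (h.kl k _ h3) x hx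
  have h5 : (pi k r w + b r).1 x - w.1 x = 0 := h4
  exact sub_eq_zero.1 h5

theorem pair_agree (hk : 2 ≤ k) {G : Subgroup (GE E)} {v v' : E} {S' : Set (GE E)}
    (h : OGlue G v v' S') (b : GE E → HM E k) (hb : IsCoc G b) (w : HM E k) (hw : Triv b w S')
    (γ : GE E) (hγ : γ ∈ G) (hne : inner ℝ v (γ v') ≠ (0 : ℝ)) (y : E)
    (hy : inner ℝ v y = (0 : ℝ)) (hy' : inner ℝ v ((γ⁻¹ : GE E) y) = (0 : ℝ)) :
    w.1 y = (pi k γ w + b γ).1 y := by
  obtain ⟨hne', t, ht, lam, mu, hl, hm0, hm1, htv, htg, htN⟩ := h.pair γ hγ hne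
  have hl0 : lam ≠ 0 := by
    intro h0
    rw [h0, abs_zero] at hl
    linarith
  have hm00 : mu ≠ 0 := abs_pos.1 hm0
  -- the decomposition of a vector
  have dec : ∀ x : E, ∃ (α β : ℝ) (u : E), inner ℝ v u = (0 : ℝ) ∧
      inner ℝ v ((γ⁻¹ : GE E) u) = (0 : ℝ) ∧ x = α • v' + β • γ v' + u := by
    intro x
    refine ⟨(inner ℝ v ((γ⁻¹ : GE E) x) : ℝ) / (inner ℝ v ((γ⁻¹ : GE E) v') : ℝ),
      (inner ℝ v x : ℝ) / (inner ℝ v (γ v') : ℝ), x -
      ((inner ℝ v ((γ⁻¹ : GE E) x) : ℝ) / (inner ℝ v ((γ⁻¹ : GE E) v') : ℝ)) • v' -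
      ((inner ℝ v x : ℝ) / (inner ℝ v (γ v') : ℝ)) • γ v', ?_, ?_, by abel⟩
    · rw [inner_sub_right, inner_sub_right, inner_smul_right, inner_smul_right, h.orth,
        div_mul_cancel₀ _ hne]
      ring
    · rw [map_sub, map_sub, map_smul, map_smul, pa_inv_apply, inner_sub_right, inner_sub_right,
        inner_smul_right, inner_smul_right, h.orth, div_mul_cancel₀ _ hne']
      ring
  have t1 : ∀ x, inner ℝ v (t x) = lam * (inner ℝ v x : ℝ) := by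
    intro x
    obtain ⟨α, β, u, hu, hu', hx⟩ := dec x
    rw [hx, map_add, map_add, map_smul, map_smul, htv, htg, htN u hu hu']
    simp only [inner_add_right, inner_smul_right, h.orth, hu]
    ring
  have t2 : ∀ x, inner ℝ v ((γ⁻¹ : GE E) (t x)) = lam * (inner ℝ v ((γ⁻¹ : GE E) x) : ℝ) := by
    intro x
    obtain ⟨α, β, u, hu, hu', hx⟩ := dec x
    rw [hx]
    simp only [map_add, map_smul, htv, htg, htN u hu hu', pa_inv_apply, inner_add_right,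
      inner_smul_right, h.orth, hu']
    ring
  have z1 := pa_z hk h b hb w hw ht hl0 hl0 htv t1
  have hr : γ⁻¹ * t * γ ∈ G := G.mul_mem (G.mul_mem (G.inv_mem hγ) ht) hγ
  have z2 := pa_z hk h b hb w hw hr hl0 hl0 (by
    rw [pa_mul_apply, pa_mul_apply, htg, map_smul, pa_inv_apply]) (by
    intro x
    rw [pa_mul_apply, pa_mul_apply, t2, pa_inv_apply])
  set wg : HM E k := pi k γ w + b γ with hwg
  have z3 : ∀ x, inner ℝ v ((γ⁻¹ : GE E) x) = (0 : ℝ) → (pi k t wg + b t).1 x = wg.1 x := by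
    intro x hx
    have e1 : pi k t wg + b t = pi k γ (pi k (γ⁻¹ * t * γ) w + b (γ⁻¹ * t * γ)) + b γ := by
      have e2 : γ * (γ⁻¹ * t * γ) = t * γ := by group
      have e3 := hb γ hγ _ hr
      have e4 := hb t ht γ hγ
      rw [e2, e4] at e3
      rw [hwg, map_add, map_add, ← pa_mul, ← pa_mul, e2]
      have e5 : pi k t (b γ) + b t = b γ + pi k γ (b (γ⁻¹ * t * γ)) := by
        rw [← e3]
        abel
      rw [add_assoc, e5]
      abel
    rw [e1]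
    show γ ((pi k (γ⁻¹ * t * γ) w + b (γ⁻¹ * t * γ)).1 ((γ⁻¹ : GE E) x)) + (b γ).1 x = _
    rw [z2 _ hx]
    rfl
  have hmy : t y = mu • y := htN y hy hy'
  have a1 : inner ℝ v (t y) = (0 : ℝ) := by rw [t1, hy, mul_zero]
  have a2 : inner ℝ v ((γ⁻¹ : GE E) (t y)) = (0 : ℝ) := by rw [t2, hy', mul_zero]
  have b1 : t (w.1 y) + (b t).1 (t y) = mu ^ k • w.1 y := by
    have e1 := z1 _ a1
    have e2 : (pi k t w + b t).1 (t y) = t (w.1 ((t⁻¹ : GE E) (t y))) + (b t).1 (t y) := rfl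
    rw [e2, pa_inv_apply] at e1
    rw [e1, hmy]
    exact w.2.2 mu y
  have b2 : t (wg.1 y) + (b t).1 (t y) = mu ^ k • wg.1 y := by
    have e1 := z3 _ a2
    have e2 : (pi k t wg + b t).1 (t y) = t (wg.1 ((t⁻¹ : GE E) (t y))) + (b t).1 (t y) := rfl
    rw [e2, pa_inv_apply] at e1
    rw [e1, hmy]
    exact wg.2.2 mu y
  have b3 : t (w.1 y - wg.1 y) = mu ^ k • (w.1 y - wg.1 y) := by
    rw [map_sub, smul_sub, ← b1, ← b2]
    abel
  have hmk : |mu ^ k| < 1 := by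
    rw [abs_pow]
    exact pow_lt_one₀ (abs_nonneg _) hm1 (by omega)
  have hlk : lam - mu ^ k ≠ 0 := by
    intro h0
    have : lam = mu ^ k := by linarith
    rw [this] at hl
    linarith
  have c1 : inner ℝ v (w.1 y - wg.1 y) = (0 : ℝ) := by
    have e1 := t1 (w.1 y - wg.1 y)
    rw [b3, inner_smul_right] at e1
    have e2 : (lam - mu ^ k) * (inner ℝ v (w.1 y - wg.1 y) : ℝ) = 0 := by linarith
    rcases mul_eq_zero.1 e2 with e3 | e3
    · exact absurd e3 hlk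
    · exact e3
  have c2 : inner ℝ v ((γ⁻¹ : GE E) (w.1 y - wg.1 y)) = (0 : ℝ) := by
    have e1 := t2 (w.1 y - wg.1 y)
    rw [b3, map_smul, inner_smul_right] at e1
    have e2 : (lam - mu ^ k) * (inner ℝ v ((γ⁻¹ : GE E) (w.1 y - wg.1 y)) : ℝ) = 0 := by linarith
    rcases mul_eq_zero.1 e2 with e3 | e3
    · exact absurd e3 hlk
    · exact e3
  have c3 := htN _ c1 c2
  rw [b3] at c3
  have c4 : (mu - mu ^ k) • (w.1 y - wg.1 y) = 0 := by
    rw [sub_smul, c3, sub_self]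
  rcases smul_eq_zero.1 c4 with c5 | c5
  · exfalso
    obtain ⟨j, rfl⟩ : ∃ j, k = j + 2 := ⟨k - 2, by omega⟩
    have c6 : mu * (1 - mu ^ (j + 1)) = 0 := by
      rw [← c5]
      ring
    rcases mul_eq_zero.1 c6 with c7 | c7
    · exact hm00 c7
    · have c8 : |mu ^ (j + 1)| < 1 := by
        rw [abs_pow]
        exact pow_lt_one₀ (abs_nonneg _) hm1 (by omega)
      have c9 : mu ^ (j + 1) = 1 := by linarith
      rw [c9, abs_one] at c8
      exact lt_irrefl _ c8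
  · exact sub_eq_zero.1 c5

theorem pair_agree2 (hk : 2 ≤ k) {G : Subgroup (GE E)} {v v' : E} {S' : Set (GE E)}
    (h : OGlue G v v' S') (b : GE E → HM E k) (hb : IsCoc G b) (w : HM E k) (hw : Triv b w S')
    (g h' : GE E) (hg : g ∈ G) (hh : h' ∈ G) (hne : inner ℝ v ((g⁻¹ * h' : GE E) v') ≠ (0 : ℝ))
    (x : E) (hx : inner ℝ v ((g⁻¹ : GE E) x) = (0 : ℝ))
    (hx' : inner ℝ v ((h'⁻¹ : GE E) x) = (0 : ℝ)) :
    (pi k g w + b g).1 x = (pi k h' w + b h').1 x := by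
  have e1 := pair_agree hk h b hb w hw (g⁻¹ * h') (G.mul_mem (G.inv_mem hg) hh) hne
    ((g⁻¹ : GE E) x) hx (by
      rw [mul_inv_rev, inv_inv, pa_mul_apply, pa_apply_inv]
      exact hx')
  have e2 := hb g hg (g⁻¹ * h') (G.mul_mem (G.inv_mem hg) hh)
  have e3 : g * (g⁻¹ * h') = h' := by group
  rw [e3] at e2
  have e4 : pi k h' w + b h' = pi k g (pi k (g⁻¹ * h') w + b (g⁻¹ * h')) + b g := by
    rw [e2, map_add, ← pa_mul, e3]
    abel
  rw [e4]
  show g (w.1 ((g⁻¹ : GE E) x)) + (b g).1 x =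
    g ((pi k (g⁻¹ * h') w + b (g⁻¹ * h')).1 ((g⁻¹ : GE E) x)) + (b g).1 x
  rw [e1]

end
end LatLin
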