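import Pool.Agent.Lib.MP_2392aa_gt.O.TorG
import Pool.Agent.Lib.MP_2392aa_gt.O.FixU

/-!
MP_2392aa_gt, outer type, module PairO (about 350 lines): opposite pairs.

Write `A` for the algebra of the pairs `(a, op a')` with `RR O a a'`; product
`(a, op a') (c, op c') = (a c, op (c' a'))`; `ε = (e, op e')`, `ε* = (e', op e)`. The corner `ε A
ε*` consists of
the pairs with `e a e' = a`, `e a' e' = a'`, the corner `ε* A ε` of the pairs with `e' a e = a`,
`e' a' e = a'`.

PROOFS.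
* `corner_ne` (any `c ≠ 0` with `e * c * e' = c`): there are `y, y'` with `RR O y y'`, `e' y e =
  y`, `e' y' e = y'`
  and `c y ≠ 0`. Otherwise `c (e' a e) = 0` for all rational pairs `(a, a')` (the pair
  `ε* (a, op a') ε = (e' a e, op (e' a' e))` is in the corner), so for all linear forms `f` on
  operators `x ↦ f (c x)`
  vanishes on `e' a e`; by `rr_corner1` (with `p = e'`, `q = e`) on `e' x e` for all `x`; so `c e'
  x e = c x e = 0`
  for all operators `x`, and `c = 0` since `e ≠ 0` (choose `x` of rank one mapping a vector of the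
  range of `e`
  to a vector `z` with `c z ≠ 0`).
* `corner_inv`. Let `RR O c c'`, `e c e' = c`, `e c' e' = c'`, `c ≠ 0`. With `y` from `corner_ne`
  the pair
  `(c y, op (y' c'))` is in `ε A ε` and `c y ≠ 0`; by `h.div` there is `(d, d')` rational in the
  same corner with
  `c y d = e`. Put `r := y d`, `r' := d' y'`: `RR O r r'` (`rr_mul`), `e' r e = r`, `e' r' e =
  r'`, `c r = e`. The pair
  `(c r, op (r' c')) = (e, op (r' c'))` is rational and so is `(e, op e')`, so `r' c' = e'`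
  (`rr_uniq2`).
* `rank_eq`: by `corner_ne` applied with the roles exchanged there is a nonzero pair in `ε A ε*`
  [if `e a e' = 0` for all rational `(a, a')` then `e x e' = 0` for all `x` (`rr_corner1`),
  impossible since
  `e, e' ≠ 0`; `(h.symm).ne` gives `e' ≠ 0`]. `corner_inv`: `c r = e` with `e c e' = c`: `c` maps
  the range of `e'` onto
  the range of `e`, so `finrank (range e) ≤ finrank (range e')`. The other inequality from `h.symm`.
* `pair_tor`. Put `e = ro v v`, `e' = ro v' v'`. The pair `ε (γ⁻¹, op γ) ε* = (e γ⁻¹ e', op (e γ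
  e'))` is rational; put
  `c = e γ⁻¹ e'`, `c' = e γ e'`; `c' x = ⟪v', x⟫ ⟪v, γ v'⟫ v ≠ 0`. If `c = 0` then `c' = 0` by
  `rr_uniq`; so `c ≠ 0`,
  i.e. `⟪v, γ⁻¹ v'⟫ ≠ 0`. `corner_inv`: `r, r'` with `e' r e = r`, `e' r' e = r'`, `c r = e`, `r'
  c' = e'`. Put
  `p := r γ⁻¹`, `p' := γ r'`: `RR O p p'` (product of the pairs `(r, op r')` and `(γ⁻¹, op γ)`).
  As `r = r e`,
  `r = e' r`: `p p = r (e γ⁻¹ e') r γ⁻¹ = r c r γ⁻¹ = r e γ⁻¹ = p`; `p' p' = γ r' (e γ e') r' = γ
  r' c' r' = γ e' r' = p'`;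
  `p p' = r r' = r e e' r' = 0`; `p' p = γ r' r γ⁻¹ = γ r' e e' r γ⁻¹ = 0`. `r` is `α ro v v'`
  with a number `α ≠ 0`
  (`e' r e = r`, `c r = e`), and `r' = α' ro v v'`; so the ranges of `p`, `p'` are the lines of
  `v'`, `γ v'`, of
  dimension one, `p v' = v'` (`p² = p` and `p v' ≠ 0` is a multiple of `v'`: `r γ⁻¹ v' = α ⟪v, γ⁻¹
  v'⟫ v'`),
  `p' v' = 0` (`⟪v, v'⟫ = 0`), `p' (γ v') = γ v'`, `p (γ v') = r v' = 0`; `p y = 0` if `⟪v, γ⁻¹ y⟫
  = 0`, `p' y = 0` if
  `⟪v, y⟫ = 0`. Apply `tor_gen` with `r = 1`: `lam = A ^ (n - 2) > 1`, `mu = (A ^ 2)⁻¹`.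
* `tor_std`: `tor_gen` with `p = ro v v`, `p' = ro v' v'`; a vector `y ≠ 0` orthogonal to `v, v'`
  exists because
  `n ≥ 3`.
-/

open scoped ContDiff Topology
open MulOpposite

namespace LatLin

section
variable {E : Type*} [NormedAddCommGroup E] [InnerProductSpace ℝ E] [FiniteDimensional ℝ E]
  {O : Subring (DE E)} {e e' : E →L[ℝ] E}

omit [FiniteDimensional ℝ E] in
private theorem ee (h : OD O e e') : e * e = e := ContinuousLinearMap.ext h.pp.pr.idem

omit [FiniteDimensional ℝ E] in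
private theorem ee' (h : OD O e e') : e' * e' = e' := ContinuousLinearMap.ext h.pp.pr'.idem

/-- if a corner expression vanishes on rational pairs then it vanishes -/
private theorem rr_zero_all (h : OX O) (c p q : E →L[ℝ] E)
    (hf : ∀ a a' : E →L[ℝ] E, RR O a a' → c * (p * a * q) = 0) (x : E →L[ℝ] E) :
    c * (p * x * q) = 0 := by
  rw [← Module.forall_dual_apply_eq_zero_iff ℝ]
  intro f
  exact rr_corner1 h (f ∘ₗ LinearMap.mulLeft ℝ c) p q (fun a a' ha => by
    rw [LinearMap.comp_apply, LinearMap.mulLeft_apply, hf a a' ha, map_zero]) x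

omit [FiniteDimensional ℝ E] in
/-- rank one operators separate -/
private theorem ro_sep {c q : E →L[ℝ] E} (hc : c ≠ 0) (hq : q ≠ 0) :
    ∃ x : E →L[ℝ] E, c * x * q ≠ 0 := by
  obtain ⟨z, hz⟩ : ∃ z, c z ≠ 0 := by
    by_contra hcon
    push Not at hcon
    exact hc (ContinuousLinearMap.ext hcon)
  obtain ⟨u, hu⟩ : ∃ u, q u ≠ 0 := by
    by_contra hcon
    push Not at hcon
    exact hq (ContinuousLinearMap.ext hcon)
  refine ⟨ro (q u) z, fun h0 => ?_⟩
  have h1 : (c * ro (q u) z * q) u = (inner ℝ (q u) (q u) : ℝ) • c z := by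
    change c (ro (q u) z (q u)) = _
    rw [ro_apply, map_smul]
  rw [h0] at h1
  have h2 : (inner ℝ (q u) (q u) : ℝ) • c z = 0 := h1.symm
  rcases smul_eq_zero.1 h2 with h3 | h3
  · exact hu (inner_self_eq_zero.1 h3)
  · exact hz h3

omit [FiniteDimensional ℝ E] in
private theorem rr_cut (h : OD O e e') {a a' : E →L[ℝ] E} (ha : RR O a a') :
    RR O (e' * a * e) (e' * a' * e) := by
  have h1 := rr_mul (rr_mul (rr_swap h.ox h.rat) ha) h.rat
  rwa [← mul_assoc] at h1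

omit [FiniteDimensional ℝ E] in
private theorem rr_cut2 (h : OD O e e') {a a' : E →L[ℝ] E} (ha : RR O a a') :
    RR O (e * a * e') (e * a' * e') := by
  have h1 := rr_mul (rr_mul h.rat ha) (rr_swap h.ox h.rat)
  rwa [← mul_assoc] at h1

theorem corner_ne (h : OD O e e') {c : E →L[ℝ] E} (hc : e * c * e' = c) (hc0 : c ≠ 0) :
    ∃ y y' : E →L[ℝ] E, RR O y y' ∧ e' * y * e = y ∧ e' * y' * e = y' ∧ c * y ≠ 0 := by
  by_contra hcon
  push Not at hcon
  have he := ee h
  have he' := ee' h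
  have hce : c * e' = c := by
    rw [← hc, mul_assoc, he']
  have key : ∀ a a' : E →L[ℝ] E, RR O a a' → c * (e' * a * e) = 0 := by
    intro a a' ha
    refine hcon _ _ (rr_cut h ha) ?_ ?_
    · rw [mul_assoc e' (e' * a * e) e, mul_assoc (e' * a) e e, he, ← mul_assoc, ← mul_assoc, he']
    · rw [mul_assoc e' (e' * a' * e) e, mul_assoc (e' * a') e e, he, ← mul_assoc, ← mul_assoc, he']
  have key2 := rr_zero_all h.ox c e' e key
  obtain ⟨x, hx⟩ := ro_sep hc0 h.ne
  apply hx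
  have h1 := key2 x
  rw [← mul_assoc, ← mul_assoc, hce] at h1
  exact h1

theorem corner_inv (h : OD O e e') {c c' : E →L[ℝ] E} (hr : RR O c c') (hc : e * c * e' = c)
    (hc' : e * c' * e' = c') (hc0 : c ≠ 0) :
    ∃ r r' : E →L[ℝ] E, RR O r r' ∧ e' * r * e = r ∧ e' * r' * e = r' ∧ c * r = e ∧
      r' * c' = e' := by
  obtain ⟨y, y', hy, h1, h2, h3⟩ := corner_ne h hc hc0
  have he := ee h
  have he' := ee' h
  have c1 : e * c = c := by rw [← hc, ← mul_assoc, ← mul_assoc, he]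
  have c2 : c' * e' = c' := by rw [← hc', mul_assoc, he']
  have y1 : e' * y = y := by rw [← h1, ← mul_assoc, ← mul_assoc, he']
  have y2 : y * e = y := by rw [← h1, mul_assoc, he]
  have y1' : e' * y' = y' := by rw [← h2, ← mul_assoc, ← mul_assoc, he']
  have y2' : y' * e = y' := by rw [← h2, mul_assoc, he]
  obtain ⟨d, d', hd, d1, d2, d3, d4⟩ := h.div (c * y) (y' * c') (rr_mul hr hy)
    (by rw [← mul_assoc, c1, mul_assoc, y2]) (by rw [← mul_assoc, y1', mul_assoc, c2]) h3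
  have e1 : d * e = d := by rw [← d1, mul_assoc, he]
  have e2 : e' * d' = d' := by rw [← d2, ← mul_assoc, ← mul_assoc, he']
  have hrr := rr_mul hy hd
  have hcr : c * (y * d) = e := by rw [← mul_assoc, d3]
  refine ⟨y * d, d' * y', hrr, ?_, ?_, hcr, ?_⟩
  · rw [← mul_assoc, y1, mul_assoc, e1]
  · rw [← mul_assoc, e2, mul_assoc, y2']
  · have h4 := rr_mul hr hrr
    rw [hcr] at h4
    exact rr_uniq2 h.ox h4 h.rat

private theorem rank_le (h : OD O e e') : Module.finrank ℝ (LinearMap.range (e : E →ₗ[ℝ] E)) ≤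
    Module.finrank ℝ (LinearMap.range (e' : E →ₗ[ℝ] E)) := by
  have he := ee h
  have he' := ee' h
  obtain ⟨c, c', hr, hc, hc', hc0⟩ : ∃ c c' : E →L[ℝ] E, RR O c c' ∧ e * c * e' = c ∧
      e * c' * e' = c' ∧ c ≠ 0 := by
    by_contra hcon
    push Not at hcon
    have key : ∀ a a' : E →L[ℝ] E, RR O a a' → 1 * (e * a * e') = 0 := by
      intro a a' ha
      rw [one_mul]
      refine hcon _ _ (rr_cut2 h ha) ?_ ?_
      · rw [mul_assoc e (e * a * e') e', mul_assoc (e * a) e' e', he', ← mul_assoc, ← mul_assoc,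
          he]
      · rw [mul_assoc e (e * a' * e') e', mul_assoc (e * a') e' e', he', ← mul_assoc, ← mul_assoc,
          he]
    have key2 := rr_zero_all h.ox 1 e e' key
    obtain ⟨x, hx⟩ := ro_sep h.ne h.symm.ne
    apply hx
    have h1 := key2 x
    rwa [one_mul] at h1
  obtain ⟨r, r', -, -, -, h1, -⟩ := corner_inv h hr hc hc' hc0
  have hce : c * e' = c := by rw [← hc, mul_assoc, he']
  have h2 : LinearMap.range (e : E →ₗ[ℝ] E) ≤
      (LinearMap.range (e' : E →ₗ[ℝ] E)).map (c : E →ₗ[ℝ] E) := by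
    rintro _ ⟨x, rfl⟩
    refine ⟨e' (r x), ⟨r x, rfl⟩, ?_⟩
    have h3 : (c * e') (r x) = c (r x) := by rw [hce]
    have h4 : (c * r) x = e x := by rw [h1]
    exact h3.trans h4
  exact (Submodule.finrank_mono h2).trans (Submodule.finrank_map_le _ _)

theorem rank_eq (h : OD O e e') : Module.finrank ℝ (LinearMap.range (e : E →ₗ[ℝ] E)) =
    Module.finrank ℝ (LinearMap.range (e' : E →ₗ[ℝ] E)) :=
  le_antisymm (rank_le h) (rank_le h.symm)

omit [FiniteDimensional ℝ E] in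
private theorem finrank_one {p : E →L[ℝ] E} {u : E} (hu : p u = u) (hu0 : u ≠ 0)
    (hp : ∀ x, ∃ s : ℝ, p x = s • u) :
    Module.finrank ℝ (LinearMap.range (p : E →ₗ[ℝ] E)) = 1 := by
  have h1 : LinearMap.range (p : E →ₗ[ℝ] E) = Submodule.span ℝ {u} := by
    apply le_antisymm
    · rintro _ ⟨x, rfl⟩
      obtain ⟨s, hs⟩ := hp x
      rw [ContinuousLinearMap.coe_coe, hs]
      exact Submodule.smul_mem _ _ (Submodule.mem_span_singleton_self u)
    · rw [Submodule.span_singleton_le_iff_mem]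
      exact ⟨u, hu⟩
  rw [h1, finrank_span_singleton hu0]

private theorem pow_facts {A : ℝ} (hA : 1 < A) {m : ℕ} (hm : m ≠ 0) :
    1 < |A ^ m| ∧ 0 < |(A ^ (2 * 1))⁻¹| ∧ |(A ^ (2 * 1))⁻¹| < 1 := by
  have h0 : 0 < A := lt_trans zero_lt_one hA
  refine ⟨?_, ?_, ?_⟩
  · rw [abs_of_pos (pow_pos h0 _)]
    exact one_lt_pow₀ hA hm
  · exact abs_pos.2 (inv_ne_zero (pow_ne_zero _ h0.ne'))
  · rw [abs_of_pos (inv_pos.2 (pow_pos h0 _))]
    exact inv_lt_one_of_one_lt₀ (one_lt_pow₀ hA (by norm_num))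

theorem pair_tor {v v' : E} (hv : ‖v‖ = 1) (hv' : ‖v'‖ = 1) (ho : inner ℝ v v' = (0 : ℝ))
    (h : OD O (ro v v) (ro v' v')) (hn : 3 ≤ Module.finrank ℝ E) {G : Subgroup (GE E)}
    (hG : G ∈ CCO O) (γ : GE E) (hγ : γ ∈ G) (hne : inner ℝ v (γ v') ≠ (0 : ℝ)) :
    inner ℝ v ((γ⁻¹ : GE E) v') ≠ (0 : ℝ) ∧ ∃ t ∈ G, ∃ lam mu : ℝ, 1 < |lam| ∧ 0 < |mu| ∧
      |mu| < 1 ∧ t v' = lam • v' ∧ t (γ v') = lam • γ v' ∧
      ∀ y, inner ℝ v y = (0 : ℝ) → inner ℝ v ((γ⁻¹ : GE E) y) = (0 : ℝ) → t y = mu • y := by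
  have nv : inner ℝ v v = (1 : ℝ) := by rw [real_inner_self_eq_norm_sq, hv, one_pow]
  have nv' : inner ℝ v' v' = (1 : ℝ) := by rw [real_inner_self_eq_norm_sq, hv', one_pow]
  have hv0 : v ≠ 0 := by
    rintro rfl
    rw [norm_zero] at hv
    exact zero_ne_one hv
  have hv0' : v' ≠ 0 := by
    rintro rfl
    rw [norm_zero] at hv'
    exact zero_ne_one hv'
  have hgq := hG.1 γ hγ
  have hcc := rr_cut2 h hgq.2
  have hc'v : (ro v v * (γ : E →L[ℝ] E) * ro v' v') v' = (inner ℝ v (γ v') : ℝ) • v := by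
    change ro v v (γ (ro v' v' v')) = _
    rw [ro_apply v' v', nv', one_smul, ro_apply]
  have hcx : ∀ x, (ro v v * ((γ⁻¹ : GE E) : E →L[ℝ] E) * ro v' v') x =
      ((inner ℝ v' x : ℝ) * (inner ℝ v ((γ⁻¹ : GE E) v') : ℝ)) • v := by
    intro x
    change ro v v ((γ⁻¹ : GE E) (ro v' v' x)) = _
    rw [ro_apply v' v', map_smul, ro_apply, inner_smul_right]
  have hc0 : ro v v * ((γ⁻¹ : GE E) : E →L[ℝ] E) * ro v' v' ≠ 0 := by
    intro h0
    rw [h0] at hcc
    have h1 := rr_uniq h.ox hcc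
    rw [h1] at hc'v
    exact smul_ne_zero hne hv0 hc'v.symm
  have hne' : inner ℝ v ((γ⁻¹ : GE E) v') ≠ (0 : ℝ) := by
    intro h0
    apply hc0
    ext x
    rw [hcx, h0, mul_zero, zero_smul]
    rfl
  refine ⟨hne', ?_⟩
  have he := ee h
  have he' := ee' h
  obtain ⟨r, r', hrr, hr1, hr2, hr3, hr4⟩ := corner_inv h hcc
    (by rw [mul_assoc (ro v v) (_ * _), mul_assoc (ro v v * _) (ro v' v') (ro v' v'), he',
      ← mul_assoc, ← mul_assoc, he])
    (by rw [mul_assoc (ro v v) (_ * _), mul_assoc (ro v v * _) (ro v' v') (ro v' v'), he',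
      ← mul_assoc, ← mul_assoc, he]) hc0
  obtain ⟨α, hα⟩ : ∃ α : ℝ, α = inner ℝ v' (r v) := ⟨_, rfl⟩
  obtain ⟨α', hα'⟩ : ∃ α' : ℝ, α' = inner ℝ v' (r' v) := ⟨_, rfl⟩
  have hrx : ∀ x, r x = ((inner ℝ v x : ℝ) * α) • v' := by
    intro x
    have h1 : r x = ro v' v' (r (ro v v x)) := by
      conv_lhs => rw [← hr1]
      rfl
    rw [h1, ro_apply v v, map_smul, map_smul, ro_apply, smul_smul, hα]
  have hrx' : ∀ x, r' x = ((inner ℝ v x : ℝ) * α') • v' := by
    intro x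
    have h1 : r' x = ro v' v' (r' (ro v v x)) := by
      conv_lhs => rw [← hr2]
      rfl
    rw [h1, ro_apply v v, map_smul, map_smul, ro_apply, smul_smul, hα']
  have a1 : α * inner ℝ v ((γ⁻¹ : GE E) v') = 1 := by
    have h1 : (ro v v * ((γ⁻¹ : GE E) : E →L[ℝ] E) * ro v' v') (r v) = v := by
      have h2 := congrArg (fun f : E →L[ℝ] E => f v) hr3
      have h3 : ro v v v = v := by rw [ro_apply, nv, one_smul]
      exact h2.trans h3
    rw [hcx, hrx, inner_smul_right, nv, nv', mul_one, one_mul] at h1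
    have h2 := congrArg (fun z => (inner ℝ v z : ℝ)) h1
    simp only [inner_smul_right, nv, mul_one] at h2
    exact h2
  have a1' : α' * inner ℝ v (γ v') = 1 := by
    have h1 : r' ((ro v v * (γ : E →L[ℝ] E) * ro v' v') v') = v' := by
      have h2 := congrArg (fun f : E →L[ℝ] E => f v') hr4
      have h3 : ro v' v' v' = v' := by rw [ro_apply, nv', one_smul]
      exact h2.trans h3
    rw [hc'v, hrx', inner_smul_right, nv, mul_one] at h1
    have h2 := congrArg (fun z => (inner ℝ v' z : ℝ)) h1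
    simp only [inner_smul_right, nv', mul_one] at h2
    rw [mul_comm]
    exact h2
  -- the projections
  obtain ⟨p, hp⟩ : ∃ p : E →L[ℝ] E, p = r * ((γ⁻¹ : GE E) : E →L[ℝ] E) := ⟨_, rfl⟩
  obtain ⟨p', hp'⟩ : ∃ p' : E →L[ℝ] E, p' = (γ : E →L[ℝ] E) * r' := ⟨_, rfl⟩
  have hpx : ∀ x, p x = ((inner ℝ v ((γ⁻¹ : GE E) x) : ℝ) * α) • v' := by
    intro x
    rw [hp]
    exact hrx _
  have hpx' : ∀ x, p' x = ((inner ℝ v x : ℝ) * α') • γ v' := by
    intro x
    rw [hp']
    change γ (r' x) = _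
    rw [hrx', map_smul]
  have gg : ∀ x, (γ⁻¹ : GE E) (γ x) = x := γ.symm_apply_apply
  have pv : p v' = v' := by
    rw [hpx, mul_comm, a1, one_smul]
  have pv' : p' (γ v') = γ v' := by
    rw [hpx', mul_comm, a1', one_smul]
  have pz : p (γ v') = 0 := by
    rw [hpx, gg, ho, zero_mul, zero_smul]
  have pz' : p' v' = 0 := by
    rw [hpx', ho, zero_mul, zero_smul]
  have hgv : γ v' ≠ 0 := by
    intro h0
    rw [h0, inner_zero_right] at hne
    exact hne rfl
  have q1 : p * p = p := by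
    ext x
    change p (p x) = p x
    rw [hpx x, map_smul, pv]
  have q2 : p' * p' = p' := by
    ext x
    change p' (p' x) = p' x
    rw [hpx' x, map_smul, pv']
  have q3 : p * p' = 0 := by
    ext x
    change p (p' x) = 0
    rw [hpx' x, map_smul, pz, smul_zero]
  have q4 : p' * p = 0 := by
    ext x
    change p' (p x) = 0
    rw [hpx x, map_smul, pz', smul_zero]
  have hrp : RR O p p' := by
    rw [hp, hp']
    exact rr_mul hrr hgq.2
  obtain ⟨t, ht, A, hA, htx⟩ := tor_gen h.ox hG hrp q1 q2 q3 q4 1 one_pos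
    (finrank_one pv hv0' (fun x => ⟨_, hpx x⟩)) (finrank_one pv' hgv (fun x => ⟨_, hpx' x⟩))
    (by omega)
  obtain ⟨f1, f2, f3⟩ := pow_facts hA (m := Module.finrank ℝ E - 2 * 1) (by omega)
  refine ⟨t, ht, _, _, f1, f2, f3, ?_, ?_, ?_⟩
  · rw [htx, pv, pz', sub_self, sub_zero, smul_zero, add_zero, add_zero]
  · rw [htx, pv', pz, sub_zero, sub_self, smul_zero, add_zero, zero_add]
  · intro y hy hy'
    rw [htx, hpx, hpx', hy, hy', zero_mul, zero_smul, zero_mul, zero_smul, add_zero, smul_zero,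
      zero_add, sub_zero, sub_zero]

theorem tor_std {v v' : E} (hv : ‖v‖ = 1) (hv' : ‖v'‖ = 1) (ho : inner ℝ v v' = (0 : ℝ))
    (h : OD O (ro v v) (ro v' v')) (hn : 3 ≤ Module.finrank ℝ E) {G : Subgroup (GE E)}
    (hG : G ∈ CCO O) : ∃ t ∈ G, ∃ lam mu : ℝ, Std v v' lam mu t := by
  have nv : inner ℝ v v = (1 : ℝ) := by rw [real_inner_self_eq_norm_sq, hv, one_pow]
  have nv' : inner ℝ v' v' = (1 : ℝ) := by rw [real_inner_self_eq_norm_sq, hv', one_pow]
  have ho' : inner ℝ v' v = (0 : ℝ) := by rw [real_inner_comm, ho]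
  have hv0 : v ≠ 0 := by
    rintro rfl
    rw [norm_zero] at hv
    exact zero_ne_one hv
  have hv0' : v' ≠ 0 := by
    rintro rfl
    rw [norm_zero] at hv'
    exact zero_ne_one hv'
  have pv : ro v v v = v := by rw [ro_apply, nv, one_smul]
  have pv' : ro v' v' v' = v' := by rw [ro_apply, nv', one_smul]
  have pz : ro v v v' = 0 := by rw [ro_apply, ho, zero_smul]
  have pz' : ro v' v' v = 0 := by rw [ro_apply, ho', zero_smul]
  obtain ⟨t, ht, A, hA, htx⟩ := tor_gen h.ox hG h.rat (ee h) (ee' h)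
    (ContinuousLinearMap.ext h.pp.o) (ContinuousLinearMap.ext h.pp.o') 1 one_pos
    (finrank_one pv hv0 (fun x => ⟨_, rfl⟩)) (finrank_one pv' hv0' (fun x => ⟨_, rfl⟩))
    (by omega)
  obtain ⟨f1, f2, f3⟩ := pow_facts hA (m := Module.finrank ℝ E - 2 * 1) (by omega)
  refine ⟨t, ht, _, _, ⟨hv, hv', ho, f1, f2, f3, ?_, ?_, ?_, ?_⟩⟩
  · rw [htx, pv, pz', sub_self, sub_zero, smul_zero, add_zero, add_zero]
  · rw [htx, pv', pz, sub_zero, sub_self, smul_zero, add_zero, zero_add]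
  · intro y hy hy'
    rw [htx, ro_apply, ro_apply, hy, hy', zero_smul, zero_smul, add_zero, smul_zero,
      zero_add, sub_zero, sub_zero]
  · have h1 : LinearMap.ker ((innerSL ℝ v : E →ₗ[ℝ] ℝ).prod (innerSL ℝ v' : E →ₗ[ℝ] ℝ)) ≠ ⊥ := by
      apply LinearMap.ker_ne_bot_of_finrank_lt
      rw [Module.finrank_prod, Module.finrank_self]
      omega
    obtain ⟨y, hy, hy0⟩ := Submodule.exists_mem_ne_zero_of_ne_bot h1
    rw [LinearMap.mem_ker, LinearMap.prod_apply] at hy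
    have h2 := Prod.mk.inj hy
    exact ⟨y, hy0, h2.1, h2.2⟩

end
end LatLin
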