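import Pool.Agent.Lib.MP_2392aa_gt.O.ArO

/-!
MP_2392aa_gt, formal linearization, outer type, module RatO (about 320 lines): the rational
structure.

PROOFS. `rr_add`, `rr_mul`: multiply the two integers (`(M a) (N c) = (M N) (a c)`, opposite order in the
second component); `rr_rat`: clear denominators; `rr_ex`: the definition (`M = N`). `rr_swap`: `M (a, op a') ∈ O`, so
`N M (a', op a) ∈ O`. `rr_uniq`: let `x = M (0, op a') ∈ O`, `s = (√D, - √D) ∈ O`: `s x = - √D x ∈ O`. In the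
coordinates of the basis `b` the vector `x` has integer coordinates `x_i` and `- √D x` has integer
coordinates `- √D x_i` (`b.repr`, `Module.Basis.mem_span_iff_repr_mem`); if some `x_i ≠ 0` then `√D`
is rational, so `D` is a square (`Nat` is a square if its root is rational: `irrational_sqrt_natCast_iff` or
similar), contradiction. So `x = 0`, `a' = 0`. `rr_uniq2`: subtract.
`rr_mid`: `1 - (e, op e') - (e', op e)`. `OD.symm`: `swap` of everything; `e' ≠ 0` because otherwise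
`(e, 0)` is rational, exchange: `(0, op e)` rational, `e = 0` by `rr_uniq`; `div`: given `a, a'` with `RR a a'`,
`e' a e' = a`, `e a' e = a'`, `a ≠ 0`: then `a' ≠ 0` (`rr_uniq` for the exchanged pair) and `h.div a' a` gives
`c, c'` with `a' c = e = c a'`; the pair `(c', op c)` is the inverse: `(c', op c) (a, op a') =
(c' a, op (a' c)) = (c' a, op e)`, and `RR e' e`, so `c' a = e'` (`rr_uniq2` for exchanged pairs), the same for
`a c'`.
`rr_span`: a real linear functional which vanishes on all rational pairs vanishes on the basis `b`.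
`rr_corner1`: `f` a linear functional on operators; suppose it vanishes on `p a q` for all rational
`(a, a')`; then it vanishes on `p x q` for all operators `x` (`rr_span` applied to `(x, y) ↦ f (p x q)`).
`rr_int_span`: `v` and the `c i` have integer coordinate vectors with respect to `b`; the `c i` are
independent over `ℝ`. If `m` is their number there are `m` coordinates such that the `m × m` integer
matrix of these coordinates of the `c i` is invertible (rank); Cramer's rule: `det • v` is an integer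
combination of the `c i` (compare these coordinates: `v = ∑ t i • c i` with real `t i`, and
`det * t i` is an integer).
-/

open scoped ContDiff Topology
open MulOpposite

namespace LatLin

section
variable {E : Type*} [NormedAddCommGroup E] [InnerProductSpace ℝ E] {O : Subring (DE E)}

private theorem zsm (M : ℤ) (a a' : E →L[ℝ] E) :
    M • ((a, op a') : DE E) = (((M : ℝ) • a, op ((M : ℝ) • a')) : DE E) := by
  rw [Int.cast_smul_eq_zsmul, Int.cast_smul_eq_zsmul]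
  rfl

private theorem rr_mk {a a' : E →L[ℝ] E} (M : ℤ) (hM : M ≠ 0)
    (h : ((((M : ℝ) • a, op ((M : ℝ) • a')) : DE E) ∈ O)) : RR O a a' :=
  ⟨M, hM, by rw [zsm]; exact h⟩

private theorem rr_get {a a' : E →L[ℝ] E} (h : RR O a a') : ∃ M : ℤ, M ≠ 0 ∧
    ((((M : ℝ) • a, op ((M : ℝ) • a')) : DE E) ∈ O) := by
  obtain ⟨M, hM, h1⟩ := h
  exact ⟨M, hM, by rw [zsm] at h1; exact h1⟩

theorem rr_zero (O : Subring (DE E)) : RR O 0 0 := by
  refine rr_mk 1 one_ne_zero ?_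
  rw [smul_zero]
  exact O.zero_mem

theorem rr_one (O : Subring (DE E)) : RR O 1 1 := by
  refine rr_mk 1 one_ne_zero ?_
  rw [Int.cast_one, one_smul]
  exact O.one_mem

theorem rr_add {a a' c c' : E →L[ℝ] E} (h1 : RR O a a') (h2 : RR O c c') :
    RR O (a + c) (a' + c') := by
  obtain ⟨M, hM, h3⟩ := rr_get h1
  obtain ⟨N, hN, h4⟩ := rr_get h2
  refine rr_mk (M * N) (mul_ne_zero hM hN) ?_
  have h5 := O.add_mem (O.zsmul_mem h3 N) (O.zsmul_mem h4 M)
  rw [zsm, zsm] at h5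
  have e1 : (((M * N : ℤ) : ℝ) • (a + c), op (((M * N : ℤ) : ℝ) • (a' + c'))) =
      ((((N : ℝ) • (M : ℝ) • a, op ((N : ℝ) • (M : ℝ) • a')) : DE E) +
        ((M : ℝ) • (N : ℝ) • c, op ((M : ℝ) • (N : ℝ) • c'))) := by
    rw [Prod.mk_add_mk, ← op_add, smul_smul, smul_smul, smul_smul, smul_smul, smul_add, smul_add,
      Int.cast_mul, mul_comm (N : ℝ) (M : ℝ)]
  rw [e1]
  exact h5

theorem rr_neg {a a' : E →L[ℝ] E} (h1 : RR O a a') : RR O (-a) (-a') := by
  obtain ⟨M, hM, h3⟩ := rr_get h1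
  refine rr_mk M hM ?_
  have h5 := O.neg_mem h3
  rw [Prod.neg_mk, ← op_neg] at h5
  rw [smul_neg, smul_neg]
  exact h5

theorem rr_sub {a a' c c' : E →L[ℝ] E} (h1 : RR O a a') (h2 : RR O c c') :
    RR O (a - c) (a' - c') := by
  rw [sub_eq_add_neg, sub_eq_add_neg]
  exact rr_add h1 (rr_neg h2)

theorem rr_mul {a a' c c' : E →L[ℝ] E} (h1 : RR O a a') (h2 : RR O c c') :
    RR O (a * c) (c' * a') := by
  obtain ⟨M, hM, h3⟩ := rr_get h1
  obtain ⟨N, hN, h4⟩ := rr_get h2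
  refine rr_mk (M * N) (mul_ne_zero hM hN) ?_
  have h5 := O.mul_mem h3 h4
  rw [Prod.mk_mul_mk, ← op_mul, smul_mul_smul_comm, smul_mul_smul_comm, mul_comm (N : ℝ) (M : ℝ),
    ← Int.cast_mul] at h5
  exact h5

theorem rr_rat {a a' : E →L[ℝ] E} (h1 : RR O a a') (q : ℚ) :
    RR O ((q : ℝ) • a) ((q : ℝ) • a') := by
  obtain ⟨M, hM, h3⟩ := rr_get h1
  refine rr_mk (q.den * M) (mul_ne_zero (Int.natCast_ne_zero.2 q.den_nz) hM) ?_
  have h5 := O.zsmul_mem h3 q.num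
  rw [zsm] at h5
  have e1 : (((q.den * M : ℤ) : ℝ)) * (q : ℝ) = (q.num : ℝ) * (M : ℝ) := by
    have e2 : (q : ℝ) = (q.num : ℝ) / (q.den : ℝ) := Rat.cast_def q
    have e3 : (q.den : ℝ) ≠ 0 := Nat.cast_ne_zero.2 q.den_nz
    rw [e2, Int.cast_mul, Int.cast_natCast]
    field_simp
  rw [smul_smul, smul_smul, e1, ← smul_smul, ← smul_smul]
  exact h5

theorem rr_ex {a a' : E →L[ℝ] E} (h1 : RR O a a') :
    ∃ M : ℕ, M ≠ 0 ∧ ∀ m : ℤ, (M : ℤ) ∣ m →
      ((((m : ℝ) • a, op ((m : ℝ) • a')) : DE E) ∈ O) := by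
  obtain ⟨M, hM, h3⟩ := rr_get h1
  refine ⟨M.natAbs, Int.natAbs_ne_zero.2 hM, fun m hm => ?_⟩
  obtain ⟨k, rfl⟩ := Int.natAbs_dvd.1 hm
  have h5 := O.zsmul_mem h3 k
  rw [zsm] at h5
  have e1 : ∀ x : E →L[ℝ] E, ((M * k : ℤ) : ℝ) • x = (k : ℝ) • (M : ℝ) • x := by
    intro x
    rw [smul_smul, Int.cast_mul, mul_comm]
  rw [e1, e1]
  exact h5

variable {e e' : E →L[ℝ] E}

theorem rr_swap (h : OX O) {a a' : E →L[ℝ] E} (h1 : RR O a a') : RR O a' a := by
  obtain ⟨M, hM, h3⟩ := rr_get h1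
  obtain ⟨N, hN, h4⟩ := h.swap
  refine rr_mk (N * M) (mul_ne_zero hN hM) ?_
  have h5 := h4 _ h3
  have e1 : ∀ x : E →L[ℝ] E, ((N * M : ℤ) : ℝ) • x = (N : ℝ) • (M : ℝ) • x := by
    intro x
    rw [smul_smul, Int.cast_mul]
  rw [e1, e1]
  rw [← zsm N ((M : ℝ) • a') ((M : ℝ) • a)]
  exact h5

theorem rr_uniq (h : OX O) {a' : E →L[ℝ] E} (h1 : RR O 0 a') : a' = 0 := by
  obtain ⟨M, hM, h3⟩ := rr_get h1
  obtain ⟨D, hD, h4⟩ := h.sqrt
  obtain ⟨n, b, hb⟩ := h.ord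
  have hir : Irrational (Real.sqrt D) := irrational_sqrt_natCast_iff.2 hD
  have h5 := O.mul_mem h4 h3
  set x : DE E := (((M : ℝ) • (0 : E →L[ℝ] E), op ((M : ℝ) • a')) : DE E) with hx
  have e1 : ((Real.sqrt D • (1 : E →L[ℝ] E), op (-(Real.sqrt D • (1 : E →L[ℝ] E)))) : DE E) * x =
      (-Real.sqrt D) • x := by
    rw [hx, Prod.mk_mul_mk, ← op_mul]
    refine Prod.ext ?_ ?_
    · change (Real.sqrt D • (1 : E →L[ℝ] E)) * ((M : ℝ) • (0 : E →L[ℝ] E)) =
        (-Real.sqrt D) • ((M : ℝ) • (0 : E →L[ℝ] E))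
      rw [smul_zero, mul_zero, smul_zero]
    · change op (((M : ℝ) • a') * (-(Real.sqrt D • (1 : E →L[ℝ] E)))) =
        (-Real.sqrt D) • op ((M : ℝ) • a')
      rw [← op_smul, mul_neg, mul_smul_comm, mul_one, neg_smul]
  rw [e1] at h5
  rw [hb, b.mem_span_iff_repr_mem ℤ] at h5 h3
  have h6 : x = 0 := by
    apply b.repr.injective
    rw [map_zero]
    ext i
    obtain ⟨u, hu⟩ := h3 i
    obtain ⟨w, hw⟩ := h5 i
    rw [map_smul, Finsupp.smul_apply, ← hu] at hw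
    rw [← hu, Finsupp.zero_apply]
    simp only [algebraMap_int_eq, eq_intCast, smul_eq_mul] at hw ⊢
    by_contra hne
    have hu0 : (u : ℝ) ≠ 0 := hne
    refine hir ⟨-(w : ℚ) / u, ?_⟩
    push_cast
    rw [div_eq_iff hu0]
    linarith
  have h7 : op ((M : ℝ) • a') = (0 : (E →L[ℝ] E)ᵐᵒᵖ) := congrArg Prod.snd h6
  have h8 : (M : ℝ) • a' = 0 := by
    rw [← op_zero] at h7
    exact op_injective h7
  exact (smul_eq_zero.1 h8).resolve_left (Int.cast_ne_zero.2 hM)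

theorem rr_uniq2 (h : OX O) {a a' a'' : E →L[ℝ] E} (h1 : RR O a a') (h2 : RR O a a'') :
    a' = a'' := by
  have h3 := rr_sub h1 h2
  rw [sub_self] at h3
  exact sub_eq_zero.1 (rr_uniq h h3)

theorem rr_mid (h : OD O e e') : RR O (mid e e') (mid e e') := by
  have h1 := rr_sub (rr_sub (rr_one O) h.rat) (rr_swap h.ox h.rat)
  rw [sub_right_comm (1 : E →L[ℝ] E) e' e] at h1
  exact h1

/-- the square root of `D` -/
theorem rr_sqrt (h : OX O) : ∃ r : ℝ, 0 < r ∧ ∀ a a' : E →L[ℝ] E, RR O a a' →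
    RR O (r • a) (-(r • a')) := by
  obtain ⟨D, hD, h4⟩ := h.sqrt
  have hD0 : 0 < D := by
    rcases Nat.eq_zero_or_pos D with h0 | h0
    · exact absurd ⟨0, by rw [h0]⟩ hD
    · exact h0
  refine ⟨Real.sqrt D, Real.sqrt_pos.2 (Nat.cast_pos.2 hD0), fun a a' h1 => ?_⟩
  have h5 : RR O (Real.sqrt D • (1 : E →L[ℝ] E)) (-(Real.sqrt D • (1 : E →L[ℝ] E))) := by
    refine rr_mk 1 one_ne_zero ?_
    rw [Int.cast_one, one_smul, one_smul]
    exact h4
  have h6 := rr_mul h5 h1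
  rw [smul_mul_assoc, one_mul, mul_neg, mul_smul_comm, mul_one] at h6
  exact h6

theorem OD.symm (h : OD O e e') : OD O e' e := by
  refine ⟨h.ox, h.pp.symm, fun h0 => ?_, rr_swap h.ox h.rat, fun a a' h1 h2 h3 h4 => ?_⟩
  · have h1 := rr_swap h.ox h.rat
    rw [h0] at h1
    exact h.ne (rr_uniq h.ox h1)
  · have h5 := rr_swap h.ox h1
    have h6 : a' ≠ 0 := by
      intro h0
      rw [h0] at h5
      exact h4 (rr_uniq h.ox h5)
    obtain ⟨c, c', g1, g2, g3, g4, g5⟩ := h.div a' a h5 h3 h2 h6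
    have g6 := rr_swap h.ox g1
    refine ⟨c', c, g6, g3, g2, ?_, ?_⟩
    · have g7 := rr_swap h.ox (rr_mul h1 g6)
      rw [g5] at g7
      exact rr_uniq2 h.ox g7 h.rat
    · have g7 := rr_swap h.ox (rr_mul g6 h1)
      rw [g4] at g7
      exact rr_uniq2 h.ox g7 h.rat

theorem rr_span (h : OX O) (f : DE E →ₗ[ℝ] ℝ) (hf : ∀ a a', RR O a a' → f (a, op a') = 0) :
    f = 0 := by
  obtain ⟨n, b, hb⟩ := h.ord
  apply b.ext
  intro i
  rw [LinearMap.zero_apply]
  have h1 : b i ∈ O := (hb _).2 (Submodule.subset_span ⟨i, rfl⟩)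
  have h2 : RR O (b i).1 (unop (b i).2) := by
    refine rr_mk 1 one_ne_zero ?_
    rw [Int.cast_one, one_smul, one_smul]
    exact h1
  exact hf _ _ h2

theorem rr_corner1 (h : OX O) (f : (E →L[ℝ] E) →ₗ[ℝ] ℝ) (p q : E →L[ℝ] E)
    (hf : ∀ a a', RR O a a' → f (p * a * q) = 0) (x : E →L[ℝ] E) : f (p * x * q) = 0 := by
  have h1 := rr_span h (f ∘ₗ (LinearMap.mulRight ℝ q ∘ₗ LinearMap.mulLeft ℝ p) ∘ₗ
    LinearMap.fst ℝ (E →L[ℝ] E) (E →L[ℝ] E)ᵐᵒᵖ) (fun a a' h2 => hf a a' h2)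
  exact LinearMap.congr_fun h1 ((x, 0) : DE E)

theorem rr_int_span {F : Type*} [AddCommGroup F] [Module ℝ F] {n m : ℕ}
    (b : Module.Basis (Fin n) ℝ F) (c : Fin m → F) (hli : LinearIndependent ℝ c)
    (hc : ∀ i, c i ∈ Submodule.span ℤ (Set.range b)) {v : F}
    (hv : v ∈ Submodule.span ℤ (Set.range b)) (hv' : v ∈ Submodule.span ℝ (Set.range c)) :
    ∃ M : ℕ, M ≠ 0 ∧ (M : ℤ) • v ∈ Submodule.span ℤ (Set.range c) := by
  classical
  obtain ⟨t, ht⟩ := (Submodule.mem_span_range_iff_exists_fun ℝ).1 hv'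
  have hw : ∀ k : ℕ, ∑ i, Int.fract ((k : ℝ) * t i) • c i =
      (k : ℤ) • v - ∑ i, ⌊(k : ℝ) * t i⌋ • c i := by
    intro k
    rw [← ht, Finset.smul_sum, ← Finset.sum_sub_distrib]
    refine Finset.sum_congr rfl fun i _ => ?_
    rw [Int.fract, sub_smul, ← Int.cast_smul_eq_zsmul ℝ (k : ℤ), smul_smul, Int.cast_natCast,
      ← Int.cast_smul_eq_zsmul ℝ ⌊(k : ℝ) * t i⌋]
  have hmem : ∀ k : ℕ, ∑ i, Int.fract ((k : ℝ) * t i) • c i ∈
      Submodule.span ℤ (Set.range b) := by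
    intro k
    rw [hw]
    exact Submodule.sub_mem _ (Submodule.smul_mem _ _ hv)
      (Submodule.sum_mem _ fun i _ => Submodule.smul_mem _ _ (hc i))
  have hint : ∀ k : ℕ, ∀ j, ∃ z : ℤ,
      b.repr (∑ i, Int.fract ((k : ℝ) * t i) • c i) j = (z : ℝ) := by
    intro k j
    obtain ⟨z, hz⟩ := (b.mem_span_iff_repr_mem ℤ _).1 (hmem k) j
    exact ⟨z, by rw [← hz]; simp⟩
  choose z hz using hint
  obtain ⟨B, hB⟩ := exists_nat_ge (∑ j, ∑ i, |b.repr (c i) j|)
  have hbd : ∀ k j, |(z k j : ℝ)| ≤ B := by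
    intro k j
    rw [← hz, map_sum, Finsupp.finsetSum_apply]
    calc |∑ i, (b.repr (Int.fract ((k : ℝ) * t i) • c i)) j|
        ≤ ∑ i, |(b.repr (Int.fract ((k : ℝ) * t i) • c i)) j| := Finset.abs_sum_le_sum_abs _ _
      _ ≤ ∑ i, |b.repr (c i) j| := by
          refine Finset.sum_le_sum fun i _ => ?_
          rw [map_smul, Finsupp.smul_apply, smul_eq_mul, abs_mul,
            abs_of_nonneg (Int.fract_nonneg _)]
          calc Int.fract ((k : ℝ) * t i) * |b.repr (c i) j| ≤ 1 * |b.repr (c i) j| :=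
                mul_le_mul_of_nonneg_right (Int.fract_lt_one _).le (abs_nonneg _)
            _ = |b.repr (c i) j| := one_mul _
      _ ≤ ∑ j, ∑ i, |b.repr (c i) j| :=
          Finset.single_le_sum (f := fun j => ∑ i, |b.repr (c i) j|)
            (fun j _ => Finset.sum_nonneg fun i _ => abs_nonneg _) (Finset.mem_univ j)
      _ ≤ B := hB
  have hfin : (Set.Icc (fun _ : Fin n => (-(B : ℤ))) (fun _ => (B : ℤ))).Finite :=
    Set.finite_Icc _ _
  have hni : ¬ Function.Injective z := by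
    intro hinj
    refine Set.infinite_of_injective_forall_mem hinj (fun k => ?_) hfin
    refine ⟨fun j => ?_, fun j => ?_⟩
    · have h1 := (abs_le.1 (hbd k j)).1
      exact_mod_cast h1
    · have h1 := (abs_le.1 (hbd k j)).2
      exact_mod_cast h1
  rw [Function.Injective] at hni
  push Not at hni
  obtain ⟨k, l, hkl, hne⟩ := hni
  have heq : ∑ i, Int.fract ((k : ℝ) * t i) • c i = ∑ i, Int.fract ((l : ℝ) * t i) • c i := by
    apply b.repr.injective
    ext j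
    rw [hz, hz, hkl]
  rw [hw, hw] at heq
  have h9 : ((k : ℤ) - (l : ℤ)) • v = ∑ i, (⌊(k : ℝ) * t i⌋ - ⌊(l : ℝ) * t i⌋) • c i := by
    simp only [sub_smul, Finset.sum_sub_distrib]
    rw [sub_eq_sub_iff_add_eq_add] at heq ⊢
    rw [heq, add_comm]
  have h10 : ((k : ℤ) - (l : ℤ)) • v ∈ Submodule.span ℤ (Set.range c) := by
    rw [h9]
    exact Submodule.sum_mem _ fun i _ => Submodule.smul_mem _ _ (Submodule.subset_span ⟨i, rfl⟩)
  have hne' : (k : ℤ) - (l : ℤ) ≠ 0 := by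
    intro h0
    apply hne
    omega
  refine ⟨((k : ℤ) - (l : ℤ)).natAbs, Int.natAbs_ne_zero.2 hne', ?_⟩
  rcases Int.natAbs_eq ((k : ℤ) - (l : ℤ)) with h11 | h11
  · rw [← h11]
    exact h10
  · have h12 : (((((k : ℤ) - (l : ℤ)).natAbs : ℕ) : ℤ)) = -((k : ℤ) - (l : ℤ)) := by omega
    rw [h12, neg_smul]
    exact Submodule.neg_mem _ h10

theorem gqo_mul {g h : GE E} (hg : g ∈ GQO O) (hh : h ∈ GQO O) : g * h ∈ GQO O := by
  have e1 : ((((g * h)⁻¹ : GE E)) : E →L[ℝ] E) =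
      ((h⁻¹ : GE E) : E →L[ℝ] E) * ((g⁻¹ : GE E) : E →L[ℝ] E) := by
    rw [mul_inv_rev]
    rfl
  refine ⟨?_, ?_⟩
  · rw [e1]
    exact rr_mul hg.1 hh.1
  · rw [e1]
    exact rr_mul hh.2 hg.2

theorem gqo_inv {g : GE E} (hg : g ∈ GQO O) : g⁻¹ ∈ GQO O := by
  refine ⟨?_, ?_⟩
  · rw [inv_inv]
    exact hg.2
  · rw [inv_inv]
    exact hg.1

theorem gqo_of (h : OX O) {g : GE E}
    (hg : RR O (g : E →L[ℝ] E) ((g⁻¹ : GE E) : E →L[ℝ] E)) : g ∈ GQO O := by
  exact ⟨hg, rr_swap h hg⟩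

theorem g0o_gqo {g : GE E} (hg : g ∈ G0O O) : g ∈ GQO O := by
  obtain ⟨h1, h2, -⟩ := hg
  refine ⟨rr_mk 1 one_ne_zero ?_, rr_mk 1 one_ne_zero ?_⟩
  · rw [Int.cast_one, one_smul, one_smul]
    exact h1
  · rw [Int.cast_one, one_smul, one_smul]
    exact h2

/-- rational unipotent elements -/
theorem gqo_te (h : OX O) {a : E →L[ℝ] E} (ha : a ∘L a ∘L a = 0) :
    te a ∈ GQO O ↔ RR O a (-a) := by
  have e1 : (te a : E →L[ℝ] E) = 1 + a + ((1 / 2 : ℚ) : ℝ) • (a * a) := by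
    ext x
    rw [ContinuousLinearEquiv.coe_coe, te_apply ha]
    simp
  have e2 : ((te a)⁻¹ : GE E) = (1 - a + ((1 / 2 : ℚ) : ℝ) • (a * a) : E →L[ℝ] E) := by
    ext x
    rw [ContinuousLinearEquiv.coe_coe, te_inv_apply ha]
    simp
  constructor
  · rintro ⟨h1, -⟩
    have h2 := rr_rat (rr_sub h1 (rr_swap h h1)) (1 / 2)
    rw [e1, e2] at h2
    have e3 : ((1 / 2 : ℚ) : ℝ) • ((1 + a + ((1 / 2 : ℚ) : ℝ) • (a * a)) -
        (1 - a + ((1 / 2 : ℚ) : ℝ) • (a * a))) = a := by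
      push_cast
      module
    have e4 : ((1 / 2 : ℚ) : ℝ) • ((1 - a + ((1 / 2 : ℚ) : ℝ) • (a * a)) -
        (1 + a + ((1 / 2 : ℚ) : ℝ) • (a * a))) = -a := by
      push_cast
      module
    rw [e3, e4] at h2
    exact h2
  · intro h1
    refine gqo_of h ?_
    rw [e1, e2]
    have h2 := rr_mul h1 h1
    rw [neg_mul_neg] at h2
    have h3 := rr_add (rr_add (rr_one O) h1) (rr_rat h2 (1 / 2))
    rw [← sub_eq_add_neg (1 : E →L[ℝ] E) a] at h3
    exact h3

end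
end LatLin
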