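import Pool.Agent.Lib.MP_2392aa_gt.O.CommonO
import Pool.Agent.Lib.MP_2392aa_gt.O.GenA
import Pool.Agent.Lib.MP_2392aa_gt.O.DnO

/-!
MP_2392aa_gt, formal linearization, outer type, module SchO (about 300 lines): blocks of dimension at
least two.

PROOF. `hN` of `commonO`/`fixO` for `G ∈ CCO O`: if `e x + e' x = x` for all `x`: first case, otherwise `pell_O`
(`x - e x - e' x ≠ 0` for some `x`). `e' ≠ 0` (`h.symm.ne`). `lat_O h hG`, `lat_O h.symm hG`, `dn_O h hG`.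
`noinv_O`: `w` fixed by `G`: `kil_of_lat2` for `uO e e'` and `uO e' e`, `inv_opp`.
`fl_O2`: `scheme` (L/Scheme) with `𝒞 = CCO O`, `𝒰 = {tes (uO e e'), tes (uO e' e)}`, `Gen = GenO O e e'`. `hcj`,
`hinv`: `cco_conj` (`gqo_inv`). `h1`: `commonO`. `h2`: as `noinv_O`. `hgen`: `gen_O` (elements of `G` are in `GQO O`).
`h3`: let `q ∈ Gen`, `G' := cjG q G ∈ CCO O`, `b = 0` on `G ∩ U`, `G ∩ U⁻` (`U = tes (uO e e')`,
`U⁻ = tes (uO e' e)`), `w` as there; `v := q⁻¹ w`, `b' g := q⁻¹ (b (q g q⁻¹))`, a cocycle on `G'` with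
`Triv b' v` on `G' ∩ U` and `G' ∩ U⁻`.
(i) `q ∈ blkL`: `q g q⁻¹ ∈ U` for `g ∈ U` (`uO_conj`, `te_conj`), so `b (q g q⁻¹) = 0` and `v = g v` for
`g ∈ G' ∩ U`; the same for `U⁻`; `v = 0` by `h2` for `G'`.
(ii) `q ∈ U` (or `U⁻`): by `trivLO` for `G`, `b`, `w = 0`: `b = 0` on `G ∩ blkL`; by `trivLO` for `G'`, `b'`, `v`:
`b' g = v - g v` on `G' ∩ blkL`. Let `g ∈ G ⊓ G'`, `g ∈ blkL`: `q g q⁻¹ = (q (g q⁻¹ g⁻¹)) g ∈ G`, so
`q (g q⁻¹ g⁻¹) ∈ G`, and it is in `U` (`te_conj`, `te_mul`, `te_neg`), so `b (q g q⁻¹) = 0 + 0 = 0`, `b' g = 0`,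
`v = g v`. `G ⊓ G' ∈ CCO O` (`cco_inf`): `dn_O` for `G ⊓ G'` with `X = HM E k`, `π = pi k`, `B = ⊥`, `prep_pi`: `v` is
fixed by the transvections of `V` and `V'`; the torus element from `pell_O` for `G ⊓ G'` is in `blkL`
(`sc_mem`) and fixes `v`; `inv_O2`: `v = 0`.
-/

open scoped ContDiff Topology
open MulOpposite

namespace LatLin

section
variable {E : Type*} [NormedAddCommGroup E] [InnerProductSpace ℝ E] {k : ℕ}

private theorem so_mul (g h : GE E) (w : HM E k) : pi k (g * h) w = pi k g (pi k h w) := by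
  rw [map_mul, Module.End.mul_apply]

private theorem so_inv' (g : GE E) (w : HM E k) : pi k g (pi k g⁻¹ w) = w := by
  rw [← so_mul, mul_inv_cancel, map_one, Module.End.one_apply]

private theorem so_coc {q : GE E} {G : Subgroup (GE E)} {b : GE E → HM E k} (hb : IsCoc G b) :
    IsCoc (cjG q G) (fun g => pi k q⁻¹ (b (q * g * q⁻¹))) := by
  intro g hg h hh
  rw [mem_cjG] at hg hh
  have h1 : q * (g * h) * q⁻¹ = (q * g * q⁻¹) * (q * h * q⁻¹) := by group
  simp only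
  rw [h1, hb _ hg _ hh, map_add, ← so_mul, ← so_mul]
  congr 3
  group

/-- a two step unipotent group normalized by the block diagonal elements -/
private structure SU (e e' : E →L[ℝ] E) (u : Submodule ℝ (E →L[ℝ] E)) : Prop where
  n3 : N3 u
  conj : ∀ q : GE E, q ∈ blkL e e' → ∀ a ∈ u,
    (q : E →L[ℝ] E) ∘L a ∘L ((q⁻¹ : GE E) : E →L[ℝ] E) ∈ u

private theorem su1 {e e' : E →L[ℝ] E} (h : PP e e') : SU e e' (uO e e') :=
  ⟨uO_N3 h, fun _ hq _ ha => uO_conj h hq ha⟩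

private theorem su2 {e e' : E →L[ℝ] E} (h : PP e e') : SU e e' (uO e' e) :=
  ⟨uO_N3 h.symm, fun _ hq _ ha => uO_conj h.symm ⟨hq.2, hq.1⟩ ha⟩

private theorem so_tes {e e' : E →L[ℝ] E} {u : Submodule ℝ (E →L[ℝ] E)} (hu : SU e e' u)
    {q : GE E} (hq : q ∈ blkL e e') {g : GE E} (hg : g ∈ tes u) : q * g * q⁻¹ ∈ tes u := by
  obtain ⟨a, ha, rfl⟩ := hg
  exact ⟨_, hu.conj q hq a ha, te_conj q (hu.n3.cube a ha a ha a ha)⟩

private theorem so_tmul {e e' : E →L[ℝ] E} {u : Submodule ℝ (E →L[ℝ] E)} (hu : SU e e' u)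
    {g h : GE E} (hg : g ∈ tes u) (hh : h ∈ tes u) : g * h ∈ tes u := by
  obtain ⟨a, ha, rfl⟩ := hg
  obtain ⟨c, hc, rfl⟩ := hh
  exact ⟨_, u.add_mem (u.add_mem ha hc) (u.smul_mem _ (hu.n3.br a ha c hc)), te_mul hu.n3 ha hc⟩

private theorem so_tinv {e e' : E →L[ℝ] E} {u : Submodule ℝ (E →L[ℝ] E)} (hu : SU e e' u)
    {g : GE E} (hg : g ∈ tes u) : g⁻¹ ∈ tes u := by
  obtain ⟨a, ha, rfl⟩ := hg
  exact ⟨-a, u.neg_mem ha, (te_neg (hu.n3.cube a ha a ha a ha)).symm⟩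

private theorem so_step {e e' : E →L[ℝ] E} {u : Submodule ℝ (E →L[ℝ] E)} (hu : SU e e' u)
    {G : Subgroup (GE E)} {b : GE E → HM E k} (hb : IsCoc G b)
    (hvan : ∀ g ∈ G, g ∈ tes u → b g = 0) (hcom : ∀ g ∈ G, g ∈ blkL e e' → b g = 0)
    {q : GE E} (hq : q ∈ tes u) {g : GE E} (hg : g ∈ G) (hg' : g ∈ cjG q G)
    (hge : g ∈ blkL e e') : b (q * g * q⁻¹) = 0 := by
  rw [mem_cjG] at hg'
  have h1 : q * g * q⁻¹ = (q * (g * q⁻¹ * g⁻¹)) * g := by group
  have h2 : q * (g * q⁻¹ * g⁻¹) ∈ tes u := so_tmul hu hq (so_tes hu hge (so_tinv hu hq))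
  have h3 : q * (g * q⁻¹ * g⁻¹) ∈ G := by
    have h4 : q * (g * q⁻¹ * g⁻¹) = (q * g * q⁻¹) * g⁻¹ := by group
    rw [h4]
    exact G.mul_mem hg' (G.inv_mem hg)
  rw [h1, hb _ h3 _ hg, hvan _ h3 h2, hcom _ hg hge, map_zero, add_zero]

end

section
universe u
variable {E : Type u} [NormedAddCommGroup E] [InnerProductSpace ℝ E] [FiniteDimensional ℝ E]
  {O : Subring (DE E)} {e e' : E →L[ℝ] E} {k : ℕ}

private theorem so_h2 (hk : 2 ≤ k) (h : OD O e e') {G : Subgroup (GE E)} (hG : G ∈ CCO O)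
    (w : HM E k) (h1 : ∀ g ∈ G, g ∈ tes (uO e e') → pi k g w = w)
    (h2 : ∀ g ∈ G, g ∈ tes (uO e' e) → pi k g w = w) : w = 0 :=
  inv_opp hk h.pp h.ne h.symm.ne w
    (kil_of_lat2 G _ (uO_N3 h.pp) (lat_O h hG) w h1)
    (kil_of_lat2 G _ (uO_N3 h.pp.symm) (lat_O h.symm hG) w h2)

theorem noinv_O (hk : 2 ≤ k) (h : OD O e e') {G : Subgroup (GE E)} (hG : G ∈ CCO O)
    (w : HM E k) (hw : ∀ g ∈ G, pi k g w = w) : w = 0 :=
  so_h2 hk h hG w (fun g hg _ => hw g hg) (fun g hg _ => hw g hg)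

private theorem so_N (h : OD O e e') {G : Subgroup (GE E)} (hG : G ∈ CCO O) :
    (∀ x, e x + e' x = x) ∨ ∃ (A : ℝ) (p q : ℕ), 1 < A ∧ 1 ≤ p ∧ 1 ≤ q ∧
      sc e e' (A ^ p) ((A ^ q)⁻¹) ∈ G := by
  by_cases hc : ∀ x, e x + e' x = x
  · exact Or.inl hc
  · right
    push Not at hc
    obtain ⟨x, hx⟩ := hc
    have hN : ∃ y : E, y ≠ 0 ∧ e y = 0 ∧ e' y = 0 := by
      refine ⟨x - e x - e' x, ?_, ?_, ?_⟩
      · intro h0
        apply hx
        rw [sub_sub, sub_eq_zero] at h0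
        exact h0.symm
      · rw [map_sub, map_sub, h.pp.pr.idem, h.pp.o, sub_self, sub_zero]
      · rw [map_sub, map_sub, h.pp.pr'.idem, h.pp.o', sub_zero, sub_self]
    obtain ⟨A, p, q, h1, h2, h3, -, -, h4, -⟩ := pell_O h hN hG
    exact ⟨A, p, q, h1, h2, h3, h4⟩

theorem fl_O2 (hk : 2 ≤ k) (h : OD O e e') (hbig : Big e) (hbig' : Big e')
    {G : Subgroup (GE E)} (hG : G ∈ CCO O) (b : GE E → HM E k) (hb : IsCoc G b) :
    ∃ w : HM E k, Triv b w (G : Set (GE E)) := by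
  let 𝒰 : Set (Set (GE E)) := {tes (uO e e'), tes (uO e' e)}
  have hUT : tes (uO e e') ∈ 𝒰 := Set.mem_insert _ _
  have hUS : tes (uO e' e) ∈ 𝒰 := Set.mem_insert_of_mem _ (Set.mem_singleton _)
  have h2 : ∀ G ∈ CCO O, ∀ w : HM E k,
      (∀ U ∈ 𝒰, ∀ g ∈ G, g ∈ U → pi k g w = w) → w = 0 := fun G hG w hw =>
    so_h2 hk h hG w (hw _ hUT) (hw _ hUS)
  refine scheme (CCO O) 𝒰 (GenO O e e') (fun q hq G hG => cco_conj h.ox hq.1 hG)
    (fun q hq G hG => cco_conj h.ox (gqo_inv hq.1) hG) ?_ h2 ?_ G hG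
    (fun g hg => gen_O h (hG.1 g hg)) b hb
  · intro G hG b hb
    obtain ⟨w, hw, hw'⟩ := commonO hk h.pp hbig hbig' G b hb (lat_O h hG) (lat_O h.symm hG)
      (dn_O h hG) (so_N h hG)
    refine ⟨w, ?_⟩
    intro U hU
    rcases hU with rfl | hU
    · exact hw
    · rw [Set.mem_singleton_iff] at hU
      subst hU
      exact hw'
  · intro q hq G hG b hb hvan w hw
    have hG' : cjG q G ∈ CCO O := cco_conj h.ox hq.1 hG
    set v : HM E k := pi k q⁻¹ w with hvdef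
    have hb' := so_coc (q := q) hb
    suffices hv : v = 0 by
      have h3 := so_inv' q w
      rw [← hvdef, hv, map_zero] at h3
      exact h3.symm
    have hconj : ∀ g : GE E, pi k q⁻¹ (w - pi k (q * g * q⁻¹) w) = v - pi k g v := by
      intro g
      rw [map_sub, ← so_mul, hvdef, ← so_mul]
      congr 3
      group
    have hcase : q ∈ blkL e e' ∨ ∃ u : Submodule ℝ (E →L[ℝ] E),
        SU e e' u ∧ tes u ∈ 𝒰 ∧ q ∈ tes u := by
      rcases hq.2 with hc | hc | hc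
      · exact Or.inr ⟨_, su1 h.pp, hUT, hc⟩
      · exact Or.inr ⟨_, su2 h.pp, hUS, hc⟩
      · exact Or.inl hc
    rcases hcase with hcomm | ⟨u, hu, huU, hqu⟩
    · refine h2 _ hG' v ?_
      intro U hU g hg hgU
      have hg2 := hg
      rw [mem_cjG] at hg2
      have h3 : q * g * q⁻¹ ∈ U := by
        rcases hU with rfl | hU
        · exact so_tes (su1 h.pp) hcomm hgU
        · rw [Set.mem_singleton_iff] at hU
          subst hU
          exact so_tes (su2 h.pp) hcomm hgU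
      have h4 := hw U hU g hg hgU
      rw [hvan U hU _ hg2 h3] at h4
      have h5 := hconj g
      rw [← h4, map_zero] at h5
      exact (sub_eq_zero.1 h5.symm).symm
    · have hL' : Triv (fun g => pi k q⁻¹ (b (q * g * q⁻¹))) v
          {g | g ∈ cjG q G ∧ g ∈ blkL e e'} := by
        refine trivLO hk h.pp h.ne h.symm.ne (cjG q G) _ hb' (lat_O h hG') (lat_O h.symm hG') v
          ?_ ?_
        · rintro g ⟨hg, hgU⟩
          show pi k q⁻¹ (b (q * g * q⁻¹)) = _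
          rw [hw _ hUT g hg hgU, hconj]
        · rintro g ⟨hg, hgU⟩
          show pi k q⁻¹ (b (q * g * q⁻¹)) = _
          rw [hw _ hUS g hg hgU, hconj]
      have hL : Triv b 0 {g | g ∈ G ∧ g ∈ blkL e e'} := by
        refine trivLO hk h.pp h.ne h.symm.ne G b hb (lat_O h hG) (lat_O h.symm hG) 0 ?_ ?_
        · rintro g ⟨hg, hgU⟩
          rw [hvan _ hUT g hg hgU, map_zero, sub_zero]
        · rintro g ⟨hg, hgU⟩
          rw [hvan _ hUS g hg hgU, map_zero, sub_zero]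
      have hcom : ∀ g ∈ G, g ∈ blkL e e' → b g = 0 := by
        intro g hg hge
        have h3 := hL g ⟨hg, hge⟩
        rwa [map_zero, sub_zero] at h3
      have hfix : ∀ g ∈ G ⊓ cjG q G, g ∈ blkL e e' → pi k g v = v := by
        intro g hg hge
        have h3 := hL' g ⟨hg.2, hge⟩
        have h4 := so_step hu hb (fun g hg hgU => hvan _ huU g hg hgU) hcom hqu hg.1 hg.2 hge
        have h5 : pi k q⁻¹ (b (q * g * q⁻¹)) = v - pi k g v := h3
        rw [h4, map_zero] at h5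
        exact (sub_eq_zero.1 h5.symm).symm
      have hGG : G ⊓ cjG q G ∈ CCO O := cco_inf hG hG'
      refine inv_O2 hk h.pp hbig hbig' v ?_ ?_
      · intro q' u' hqu' hc
        have h6 := dn_O h hGG (HM E k) (pi k) prep_pi ⊥
          (fun g _ y hy => by
            rw [Submodule.mem_bot] at hy ⊢
            rw [hy, map_zero]) v
          (fun γ hγ hγb => by
            rw [Submodule.mem_bot, sub_eq_zero]
            exact hfix γ hγ hγb.1) q' u' hqu' hc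
        rw [Submodule.mem_bot, sub_eq_zero] at h6
        exact h6
      · rcases so_N h hGG with hN | ⟨A, p, q', h3, h4, h5, h6⟩
        · exact Or.inl hN
        · have hA : 0 < A := lt_trans one_pos h3
          have hp : 1 < A ^ p := one_lt_pow₀ h3 (by omega)
          have hq' : 1 < A ^ q' := one_lt_pow₀ h3 (by omega)
          exact Or.inr ⟨A ^ p, (A ^ q')⁻¹, hp, inv_pos.2 (pow_pos hA q'),
            inv_lt_one_of_one_lt₀ hq',
            hfix _ h6 (sc_mem h.pp (pow_pos hA p).ne' (inv_pos.2 (pow_pos hA q')).ne')⟩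

end
end LatLin
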