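import Pool.Agent.Lib.MP_2392aa_gt.O.Defs

/-!
MP_2392aa_gt, formal linearization, outer type, module Te (about 300 lines): the elements
`te a = 1 + a + a ^ 2 / 2` (`a ^ 3 = 0`).

PROOFS. Everything in the first part is a direct computation at a vector `x` (`te_apply`,
`te_inv_apply`), `ContinuousLinearEquiv.ext`. `te_mul`: all triple products vanish, so both sides are
`x + a x + a' x + a a x / 2 + a' a' x / 2 + a a' x`. `te_conj`: `g (te a) g⁻¹`.
`mem_uO`: if the three conditions hold then `a = e ∘ a + (1 - e) ∘ a`, `e ∘ a ∈ uT e`,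
`(1 - e) ∘ a ∈ uS e'` (it kills `V + N`: `x - e' x = e x + mid x`, `a (e x) = 0`,
`(1 - e) a (mid x) = 0`). `uO_N3`: from `mem_uO`: `a'' x ∈ V + N`, `a' a'' x ∈ V`, `a a' a'' x = 0`; a product
`a a'` kills `V + N` and has values in `V`, so it is in `uT e`. `uO_conj`: `g ∈ blkL` commutes with `e`,
`e'`; `mem_uO`.
`kil_uO`: `xd` is additive in `a` (by `xd_apply` and linearity of the derivative).
`poly_te`: `pi k (te (s • a)) w`: evaluate: `(pi k (te (s • a)) w) x = (te (s a)) (w ((te (s a))⁻¹ x))`, and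
`s ↦ x - s a x + s² / 2 a a x` is a vector valued polynomial; `w` is a homogeneous smooth map, i.e. a
homogeneous polynomial map. See L/HFin (`poly_pj`, `ev_dual`, `IsPoly.of_dual`) for the case
`a ∘ a = 0` and proceed in the same way.
`te_deriv`: for every `x` the map `s ↦ (pi k (te (s • a)) w) x` has derivative `(xd a w) x` at `0`
(product and chain rule) and derivative `(pi k (te (s • a)) (xd a w)) x` at `s`
(`te ((s + t) • a) = te (s • a) * te (t • a)`).
`pi_of_xd3`: derivative `0`, so constant. `xd_of_pi3`: `pi k (te (m • a)) w = w` for natural `m` (powers), by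
`poly_te` and `IsPoly.eq_of_nat` for all real `s`, derivative at `0`.
`kil_of_lat2`: for `c i`: `te (c i) ∈ G ∩ tes u`, so `xd (c i) w = 0`; linearity of `xd` in `a`.
-/

open scoped ContDiff Topology

namespace LatLin

section
variable {E : Type*} [NormedAddCommGroup E] [InnerProductSpace ℝ E]


private theorem te_cb {a : E →L[ℝ] E} (h : a ∘L a ∘L a = 0) (x : E) : a (a (a x)) = 0 := by
  simpa using congrArg (fun f => f x) h

private theorem te_gx (g : GE E) (y : E) : g ((g⁻¹ : GE E) y) = y := g.apply_symm_apply y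

private theorem te_gx' (g : GE E) (y : E) : (g⁻¹ : GE E) (g y) = y := g.symm_apply_apply y

private theorem te_ml (g h : GE E) (y : E) : (g * h) y = g (h y) := rfl

private theorem te_ofz {a : E →L[ℝ] E} (h : ∀ x, a (a (a x)) = 0) : a ∘L a ∘L a = 0 := by
  ext x
  simpa using h x

theorem te_smul_cube {a : E →L[ℝ] E} (h : a ∘L a ∘L a = 0) (s : ℝ) :
    (s • a) ∘L (s • a) ∘L (s • a) = 0 := by

  ext x
  simp [te_cb h]

theorem te_of_sq {a : E →L[ℝ] E} (h : a ∘L a = 0) : te a = tw a := by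

  have h1 : ∀ x, a (a x) = 0 := fun x => by simpa using congrArg (fun f => f x) h
  have h2 : a ∘L a ∘L a = 0 := te_ofz fun x => h1 (a x)
  ext x
  rw [te_apply h2, tw_apply h, h1, smul_zero, add_zero]

theorem te_add_smul {a : E →L[ℝ] E} (h : a ∘L a ∘L a = 0) (s t : ℝ) :
    te (s • a) * te (t • a) = te ((s + t) • a) := by

  have hc := te_cb h
  ext x
  rw [te_ml, te_apply (te_smul_cube h _), te_apply (te_smul_cube h _),
    te_apply (te_smul_cube h _)]
  simp only [smul_apply, map_add, map_smul, hc, smul_zero, add_zero]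
  module

theorem te_nat {a : E →L[ℝ] E} (h : a ∘L a ∘L a = 0) (m : ℕ) : te ((m : ℝ) • a) = te a ^ m := by

  induction m with
  | zero =>
    ext x
    rw [te_apply (te_smul_cube h _)]
    have h0 : (te a ^ 0) x = x := by
      rw [pow_zero]
      rfl
    rw [h0]
    simp
  | succ m ih =>
    rw [pow_succ, ← ih]
    have h1 := te_add_smul h (m : ℝ) 1
    rw [one_smul] at h1
    rw [h1]
    push_cast
    rfl

theorem te_neg {a : E →L[ℝ] E} (h : a ∘L a ∘L a = 0) : te (-a) = (te a)⁻¹ := by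

  have h1 : (-a) ∘L (-a) ∘L (-a) = 0 := te_ofz fun x => by simp [te_cb h]
  ext x
  rw [te_apply h1, te_inv_apply h]
  simp [sub_eq_add_neg]

theorem te_conj (g : GE E) {a : E →L[ℝ] E} (h : a ∘L a ∘L a = 0) :
    g * te a * g⁻¹ = te ((g : E →L[ℝ] E) ∘L a ∘L ((g⁻¹ : GE E) : E →L[ℝ] E)) := by

  have h1 : ((g : E →L[ℝ] E) ∘L a ∘L ((g⁻¹ : GE E) : E →L[ℝ] E)) ∘L
      ((g : E →L[ℝ] E) ∘L a ∘L ((g⁻¹ : GE E) : E →L[ℝ] E)) ∘L
      ((g : E →L[ℝ] E) ∘L a ∘L ((g⁻¹ : GE E) : E →L[ℝ] E)) = 0 := by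
    refine te_ofz fun x => ?_
    show g (a (g⁻¹ (g (a (g⁻¹ (g (a (g⁻¹ x)))))))) = 0
    rw [te_gx', te_gx', te_cb h, map_zero]
  ext x
  rw [te_apply h1, te_ml, te_ml, te_apply h]
  show g (g⁻¹ x + a (g⁻¹ x) + (1 / 2 : ℝ) • a (a (g⁻¹ x))) =
    x + g (a (g⁻¹ x)) + (1 / 2 : ℝ) • g (a (g⁻¹ (g (a (g⁻¹ x)))))
  rw [te_gx', map_add, map_add, map_smul, te_gx]

theorem te_mul {u : Submodule ℝ (E →L[ℝ] E)} (hu : N3 u) {a a' : E →L[ℝ] E} (ha : a ∈ u)
    (ha' : a' ∈ u) : te a * te a' = te (a + a' + (1 / 2 : ℝ) • (a ∘L a' - a' ∘L a)) := by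

  have hm : a + a' + (1 / 2 : ℝ) • (a ∘L a' - a' ∘L a) ∈ u :=
    u.add_mem (u.add_mem ha ha') (u.smul_mem _ (hu.br a ha a' ha'))
  have h3 : ∀ b ∈ u, ∀ b' ∈ u, ∀ b'' ∈ u, ∀ x, b (b' (b'' x)) = 0 := fun b hb b' hb' b'' hb'' x => by
    simpa using congrArg (fun f => f x) (hu.cube b hb b' hb' b'' hb'')
  ext x
  rw [te_ml, te_apply (hu.cube a ha a ha a ha), te_apply (hu.cube a' ha' a' ha' a' ha'),
    te_apply (hu.cube _ hm _ hm _ hm)]
  simp only [add_apply, sub_apply, smul_apply, ContinuousLinearMap.comp_apply, map_add, map_sub,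
    map_smul, h3 a ha a ha a' ha', h3 a ha a' ha' a ha, h3 a ha a' ha' a' ha',
    h3 a' ha' a ha a ha, h3 a' ha' a ha a' ha', h3 a' ha' a' ha' a ha,
    map_zero, smul_zero, add_zero, sub_zero]
  module

theorem mem_uO {e e' : E →L[ℝ] E} (h : PP e e') {a : E →L[ℝ] E} :
    a ∈ uO e e' ↔ (∀ x, a (e x) = 0) ∧ (∀ x, e' (a x) = 0) ∧
      ∀ x, e (a (x - e x - e' x)) = a (x - e x - e' x) := by

  obtain ⟨⟨h1, -⟩, ⟨h2, -⟩, h3, h4⟩ := h
  constructor
  · intro ha
    obtain ⟨b, hb, c, hc, rfl⟩ := Submodule.mem_sup.1 ha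
    refine ⟨fun x => ?_, fun x => ?_, fun x => ?_⟩
    · rw [add_apply, hb.2, ← hc.2, h4, map_zero, add_zero]
    · rw [add_apply, map_add, hc.1, ← hb.1, h4, add_zero]
    · have h5 : c (x - e x - e' x) = 0 := by
        rw [← hc.2]
        simp only [map_sub, h2, h4, sub_zero, sub_self, map_zero]
      rw [add_apply, h5, add_zero, hb.1]
  · rintro ⟨ha1, ha2, ha3⟩
    refine Submodule.mem_sup.2 ⟨e ∘L a, ⟨fun x => ?_, fun x => ?_⟩, a - e ∘L a,
      ⟨fun x => ?_, fun x => ?_⟩, ?_⟩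
    · show e (e (a x)) = e (a x)
      rw [h1]
    · show e (a (e x)) = 0
      rw [ha1, map_zero]
    · show e' (a x - e (a x)) = 0
      rw [map_sub, ha2, h4, sub_zero]
    · show a (e' x) - e (a (e' x)) = a x - e (a x)
      have h5 : a x = a (x - e x - e' x) + a (e' x) := by
        rw [map_sub, map_sub, ha1]
        abel
      rw [h5, map_add, ha3]
      abel
    · abel


private theorem uO_mid {e e' : E →L[ℝ] E} (h : PP e e') {a : E →L[ℝ] E} (ha : a ∈ uO e e') {y : E}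
    (hy : e' y = 0) : e (a y) = a y := by
  obtain ⟨ha1, ha2, ha3⟩ := (mem_uO h).1 ha
  have h5 : a y = a (y - e y - e' y) := by
    rw [map_sub, map_sub, ha1, hy, map_zero, sub_zero, sub_zero]
  rw [h5, ha3]

private theorem uO_two {e e' : E →L[ℝ] E} (h : PP e e') {a a' : E →L[ℝ] E} (ha : a ∈ uO e e')
    (ha' : a' ∈ uO e e') {y : E} (hy : e' y = 0) : a (a' y) = 0 := by
  rw [← uO_mid h ha' hy, ((mem_uO h).1 ha).1]

private theorem uO_comp {e e' : E →L[ℝ] E} (h : PP e e') {a a' : E →L[ℝ] E} (ha : a ∈ uO e e')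
    (ha' : a' ∈ uO e e') : a ∘L a' ∈ uO e e' := by
  have h0 := (mem_uO h).1 ha
  have h0' := (mem_uO h).1 ha'
  refine (mem_uO h).2 ⟨fun x => ?_, fun x => ?_, fun x => ?_⟩
  · show a (a' (e x)) = 0
    rw [h0'.1, map_zero]
  · show e' (a (a' x)) = 0
    rw [h0.2.1]
  · show e (a (a' (x - e x - e' x))) = a (a' (x - e x - e' x))
    rw [uO_two h ha ha', map_zero]
    rw [map_sub, map_sub, h.o', h.pr'.idem, sub_zero, sub_self]

theorem uO_N3 {e e' : E →L[ℝ] E} (h : PP e e') : N3 (uO e e') := by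

  refine ⟨fun a ha a' ha' a'' ha'' => ?_, fun a ha a' ha' =>
    Submodule.sub_mem _ (uO_comp h ha ha') (uO_comp h ha' ha)⟩
  ext x
  show a (a' (a'' x)) = 0
  exact uO_two h ha ha' (((mem_uO h).1 ha'').2.1 x)


private theorem blkL_iv {e e' : E →L[ℝ] E} {g : GE E} (hg : g ∈ blkL e e') :
    (∀ x, e (g⁻¹ x) = g⁻¹ (e x)) ∧ ∀ x, e' (g⁻¹ x) = g⁻¹ (e' x) := by
  refine ⟨fun x => ?_, fun x => ?_⟩
  · rw [← te_gx' g (e (g⁻¹ x)), ← hg.1, te_gx]
  · rw [← te_gx' g (e' (g⁻¹ x)), ← hg.2, te_gx]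

theorem uO_conj {e e' : E →L[ℝ] E} (h : PP e e') {g : GE E} (hg : g ∈ blkL e e')
    {a : E →L[ℝ] E} (ha : a ∈ uO e e') :
    (g : E →L[ℝ] E) ∘L a ∘L ((g⁻¹ : GE E) : E →L[ℝ] E) ∈ uO e e' := by

  have hi := blkL_iv hg
  obtain ⟨ha1, ha2, ha3⟩ := (mem_uO h).1 ha
  refine (mem_uO h).2 ⟨fun x => ?_, fun x => ?_, fun x => ?_⟩
  · show g (a (g⁻¹ (e x))) = 0
    rw [← hi.1, ha1, map_zero]
  · show e' (g (a (g⁻¹ x))) = 0
    rw [hg.2, ha2, map_zero]
  · show e (g (a (g⁻¹ (x - e x - e' x)))) = g (a (g⁻¹ (x - e x - e' x)))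
    have h5 : g⁻¹ (x - e x - e' x) = g⁻¹ x - e (g⁻¹ x) - e' (g⁻¹ x) := by
      rw [map_sub, map_sub, hi.1, hi.2]
    rw [h5, hg.1, ha3]

theorem blkL_inv {e e' : E →L[ℝ] E} {g : GE E} (hg : g ∈ blkL e e') : g⁻¹ ∈ blkL e e' := by

  exact blkL_iv hg

theorem blkL_mul {e e' : E →L[ℝ] E} {g g' : GE E} (hg : g ∈ blkL e e') (hg' : g' ∈ blkL e e') :
    g * g' ∈ blkL e e' := by

  refine ⟨fun x => ?_, fun x => ?_⟩
  · rw [te_ml, te_ml, hg.1, hg'.1]
  · rw [te_ml, te_ml, hg.2, hg'.2]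


private theorem te_invW [FiniteDimensional ℝ E] (g : GE E) (W : Submodule ℝ E)
    (hW : ∀ x ∈ W, g x ∈ W) (x : E) (hx : x ∈ W) : g⁻¹ x ∈ W := by
  have h1 : W.map (g.toLinearEquiv : E →ₗ[ℝ] E) ≤ W := by
    rintro _ ⟨x, hx, rfl⟩
    exact hW x hx
  have h2 : W.map (g.toLinearEquiv : E →ₗ[ℝ] E) = W :=
    Submodule.eq_of_le_of_finrank_eq h1 (LinearEquiv.finrank_map_eq g.toLinearEquiv W)
  rw [← h2] at hx
  obtain ⟨y, hy, rfl⟩ := hx
  show g⁻¹ (g y) ∈ W
  rw [te_gx']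
  exact hy

private noncomputable def te_D (e e' g : E →L[ℝ] E) : E →L[ℝ] E :=
  e ∘L g ∘L e + mid e e' ∘L g ∘L mid e e' + e' ∘L g ∘L e'

private theorem te_D_apply (e e' g : E →L[ℝ] E) (x : E) :
    te_D e e' g x = e (g (e x)) + mid e e' (g (mid e e' x)) + e' (g (e' x)) := rfl

private theorem te_e_mid {e e' : E →L[ℝ] E} (h : PP e e') (x : E) : e (mid e e' x) = 0 := by
  rw [mid_apply, map_sub, map_sub, h.pr.idem, h.o, sub_zero, sub_self]

private theorem te_e'_mid {e e' : E →L[ℝ] E} (h : PP e e') (x : E) : e' (mid e e' x) = 0 := by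
  rw [mid_apply, map_sub, map_sub, h.pr'.idem, h.o', sub_zero, sub_self]

private theorem te_mid_mid {e e' : E →L[ℝ] E} (h : PP e e') (x : E) :
    mid e e' (mid e e' x) = mid e e' x := by
  rw [mid_apply e e' (mid e e' x), te_e_mid h, te_e'_mid h, sub_zero, sub_zero]

private theorem te_D_inv {e e' : E →L[ℝ] E} (h : PP e e') {g g' : E →L[ℝ] E}
    (hgg : ∀ x, g' (g x) = x)
    (h1 : ∀ x, e (g (e x)) = g (e x)) (h2 : ∀ x, e' (g x) = e' (g (e' x)))
    (h1' : ∀ x, e (g' (e x)) = g' (e x)) (h2' : ∀ x, e' (g' x) = e' (g' (e' x))) (x : E) :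
    te_D e e' g' (te_D e e' g x) = x := by
  have k1 : e (te_D e e' g x) = g (e x) := by
    rw [te_D_apply, map_add, map_add, h.pr.idem, te_e_mid h, h.o, add_zero, add_zero, h1]
  have k2 : e' (te_D e e' g x) = e' (g (e' x)) := by
    rw [te_D_apply, map_add, map_add, h.o', te_e'_mid h, h.pr'.idem, zero_add, zero_add]
  have k3 : mid e e' (te_D e e' g x) = mid e e' (g (mid e e' x)) := by
    rw [mid_apply e e' (te_D e e' g x), k1, k2, te_D_apply, h1]
    abel
  have k4 : e' (g (mid e e' x)) = 0 := by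
    rw [h2, te_e'_mid h, map_zero, map_zero]
  have k6 : ∀ z, mid e e' (g' (e z)) = 0 := by
    intro z
    rw [mid_apply, h1', ← h1' z, h.o', h1', sub_self, sub_zero]
  have k7 : mid e e' (g' (mid e e' (g (mid e e' x)))) = mid e e' x := by
    rw [mid_apply e e' (g (mid e e' x)), k4, sub_zero, map_sub, map_sub, hgg, k6, sub_zero,
      te_mid_mid h]
  rw [te_D_apply e e' g', k1, k2, k3, hgg, k7, ← h2', hgg, h.pr.idem, h.pr'.idem, mid_apply]
  abel

/-- block upper triangular elements are products of unipotent and block diagonal ones -/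
theorem updec {e e' : E →L[ℝ] E} (h : PP e e') [FiniteDimensional ℝ E] (g : GE E)
    (h1 : ∀ x, e (g (e x)) = g (e x)) (h2 : ∀ x, e' (g x) = e' (g (e' x))) :
    ∃ u ∈ tes (uO e e'), ∃ l ∈ blkL e e', g = u * l ∧
      (∀ x, l x = e (g (e x)) + mid e e' (g (mid e e' x)) + e' (g (e' x))) := by

  have hV : ∀ x, e (g⁻¹ (e x)) = g⁻¹ (e x) := by
    intro x
    have h3 := te_invW g (LinearMap.range (e : E →ₗ[ℝ] E)) (by
      rintro _ ⟨y, rfl⟩
      exact ⟨g (e y), h1 y⟩) (e x) ⟨x, rfl⟩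
    obtain ⟨y, hy⟩ := h3
    have hy' : e y = g⁻¹ (e x) := hy
    rw [← hy', h.pr.idem]
  have hW : ∀ x, e' (g⁻¹ x) = e' (g⁻¹ (e' x)) := by
    intro x
    have h3 := te_invW g (LinearMap.ker (e' : E →ₗ[ℝ] E)) (by
      intro y hy
      have hy' : e' y = 0 := hy
      show e' (g y) = 0
      rw [h2, hy', map_zero, map_zero]) (x - e' x) (by
      show e' (x - e' x) = 0
      rw [map_sub, h.pr'.idem, sub_self])
    have h4 : e' (g⁻¹ (x - e' x)) = 0 := h3
    rw [map_sub, map_sub] at h4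
    exact sub_eq_zero.1 h4
  let g1 : E →L[ℝ] E := (g : E →L[ℝ] E)
  let g2 : E →L[ℝ] E := ((g⁻¹ : GE E) : E →L[ℝ] E)
  let l : GE E := ContinuousLinearEquiv.equivOfInverse (te_D e e' g1) (te_D e e' g2)
    (fun x => te_D_inv h (g := g1) (g' := g2) (te_gx' g) h1 h2 hV hW x)
    (fun x => te_D_inv h (g := g2) (g' := g1) (te_gx g) hV hW h1 h2 x)
  have hl : ∀ x, l x = e (g (e x)) + mid e e' (g (mid e e' x)) + e' (g (e' x)) := fun x => rfl
  have hli : ∀ x, l⁻¹ x = e (g⁻¹ (e x)) + mid e e' (g⁻¹ (mid e e' x)) + e' (g⁻¹ (e' x)) :=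
    fun x => rfl
  have hlb : l ∈ blkL e e' := by
    refine ⟨fun x => ?_, fun x => ?_⟩
    · rw [hl, hl, map_add, map_add, h.pr.idem, te_e_mid h, h.o, h.pr.idem, h.o', map_zero,
        map_zero, mid_apply e e' (e x), h.pr.idem, h.o', sub_self, sub_zero, map_zero, map_zero]
    · rw [hl, hl, map_add, map_add, h.o', te_e'_mid h, h.pr'.idem, h.pr'.idem, h.o, map_zero,
        map_zero, mid_apply e e' (e' x), h.pr'.idem, h.o, sub_zero, sub_self, map_zero, map_zero]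
  let n : E →L[ℝ] E := g1 ∘L ((l⁻¹ : GE E) : E →L[ℝ] E) - ContinuousLinearMap.id ℝ E
  have hn : ∀ x, n x = g (l⁻¹ x) - x := fun x => rfl
  have hnu : n ∈ uO e e' := by
    refine (mem_uO h).2 ⟨fun x => ?_, fun x => ?_, fun x => ?_⟩
    · rw [hn, hli, h.pr.idem, h.o', map_zero, map_zero, mid_apply e e' (e x), h.pr.idem, h.o',
        sub_self, sub_zero, map_zero, map_zero, add_zero, add_zero, hV, te_gx, sub_self]
    · have h5 : e' (l⁻¹ x) = e' (g⁻¹ (e' x)) := by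
        rw [hli, map_add, map_add, h.o', te_e'_mid h, h.pr'.idem, zero_add, zero_add]
      rw [hn, map_sub, h2, h5, ← h2, te_gx, h.pr'.idem, sub_self]
    · have h5 : x - e x - e' x = mid e e' x := rfl
      have h6 : n (mid e e' x) = - g (e (g⁻¹ (mid e e' x))) := by
        rw [hn, hli, te_e_mid h, te_e'_mid h, te_mid_mid h, mid_apply e e' (g⁻¹ (mid e e' x)),
          hW (mid e e' x), te_e'_mid h]
        simp only [map_zero, map_sub, sub_zero, zero_add, add_zero, te_gx]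
        abel
      rw [h5, h6, map_neg, h1]
  have hc := te_cb ((uO_N3 h).cube n hnu n hnu n hnu)
  have hau : n - (1 / 2 : ℝ) • (n ∘L n) ∈ uO e e' :=
    Submodule.sub_mem _ hnu (Submodule.smul_mem _ _ (uO_comp h hnu hnu))
  have hte : te (n - (1 / 2 : ℝ) • (n ∘L n)) = g * l⁻¹ := by
    ext x
    have h7 : g (l⁻¹ x) = x + n x := by
      rw [hn]
      abel
    rw [te_apply ((uO_N3 h).cube _ hau _ hau _ hau), te_ml, h7]
    simp only [sub_apply, smul_apply, ContinuousLinearMap.comp_apply, map_sub, map_smul, hc,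
      map_zero, smul_zero, sub_zero]
    module
  refine ⟨te (n - (1 / 2 : ℝ) • (n ∘L n)), ⟨_, hau, rfl⟩, l, hlb, ?_, hl⟩
  rw [hte, inv_mul_cancel_right]

theorem sc_mem {e e' : E →L[ℝ] E} (h : PP e e') {α β : ℝ} (hα : α ≠ 0) (hβ : β ≠ 0) :
    sc e e' α β ∈ blkL e e' := by

  refine ⟨fun x => ?_, fun x => ?_⟩
  · rw [sc_apply h hα hβ, sc_apply h hα hβ]
    simp only [map_add, map_sub, map_smul, h.pr.idem, h.o, h.o', sub_self, smul_zero, add_zero]
  · rw [sc_apply h hα hβ, sc_apply h hα hβ]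
    simp only [map_add, map_sub, map_smul, h.pr'.idem, h.o, h.o', sub_self, sub_zero, smul_zero,
      add_zero, zero_add]

theorem sc_mul {e e' : E →L[ℝ] E} (h : PP e e') {α β α' β' : ℝ} (hα : α ≠ 0) (hβ : β ≠ 0)
    (hα' : α' ≠ 0) (hβ' : β' ≠ 0) :
    sc e e' α β * sc e e' α' β' = sc e e' (α * α') (β * β') := by

  ext x
  rw [te_ml, sc_apply h hα hβ, sc_apply h hα' hβ', sc_apply h (mul_ne_zero hα hα')
    (mul_ne_zero hβ hβ')]
  simp only [map_add, map_sub, map_smul, h.pr.idem, h.pr'.idem, h.o, h.o']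
  module

theorem sc_comm {e e' : E →L[ℝ] E} (h : PP e e') {α β : ℝ} (hα : α ≠ 0) (hβ : β ≠ 0) {g : GE E}
    (hg : g ∈ blkL e e') : sc e e' α β * g = g * sc e e' α β := by

  ext x
  rw [te_ml, te_ml, sc_apply h hα hβ, sc_apply h hα hβ]
  simp only [map_add, map_sub, map_smul, hg.1, hg.2]

theorem sc_symm (e e' : E →L[ℝ] E) (α β : ℝ) : sc e e' α β = sc e' e α β := by

  by_cases hc : PP e e' ∧ α ≠ 0 ∧ β ≠ 0
  · ext x
    rw [sc_apply hc.1 hc.2.1 hc.2.2, sc_apply hc.1.symm hc.2.1 hc.2.2]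
    module
  · have hc' : ¬ (PP e' e ∧ α ≠ 0 ∧ β ≠ 0) := fun hd => hc ⟨hd.1.symm, hd.2⟩
    unfold sc
    rw [dif_neg hc, dif_neg hc']

end

section
variable {E : Type*} [NormedAddCommGroup E] [InnerProductSpace ℝ E] [FiniteDimensional ℝ E] {k : ℕ}


private theorem te_xa (a a' : E →L[ℝ] E) (w : HM E k) : xd (a + a') w = xd a w + xd a' w := by
  ext x
  show (a + a') (w.1 x) - fderiv ℝ w.1 x ((a + a') x) =
    (a (w.1 x) - fderiv ℝ w.1 x (a x)) + (a' (w.1 x) - fderiv ℝ w.1 x (a' x))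
  rw [add_apply, add_apply, map_add]
  abel

private theorem te_xs (c : ℝ) (a : E →L[ℝ] E) (w : HM E k) : xd (c • a) w = c • xd a w := by
  ext x
  show (c • a) (w.1 x) - fderiv ℝ w.1 x ((c • a) x) =
    c • (a (w.1 x) - fderiv ℝ w.1 x (a x))
  rw [smul_apply, smul_apply, map_smul, smul_sub]

private theorem te_x0 (w : HM E k) : xd (0 : E →L[ℝ] E) w = 0 := by
  have := te_xs (0 : ℝ) (0 : E →L[ℝ] E) w
  rwa [zero_smul, zero_smul] at this

theorem kil_uO (e e' : E →L[ℝ] E) : kil (E := E) k (uO e e') = kil k (uT e) ⊓ kil k (uS e') := by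

  ext w
  constructor
  · intro hw
    exact ⟨fun a ha => hw a (Submodule.mem_sup_left ha),
      fun a ha => hw a (Submodule.mem_sup_right ha)⟩
  · rintro ⟨h1, h2⟩ a ha
    obtain ⟨b, hb, c, hc, rfl⟩ := Submodule.mem_sup.1 ha
    rw [te_xa, h1 b hb, h2 c hc, add_zero]


private theorem te_mono {X : Type*} [AddCommGroup X] [Module ℝ X] (n : ℕ) (c : X) :
    IsPoly (fun s : ℝ => s ^ n • c) := by
  refine ⟨n + 1, fun i => if i = n then c else 0, fun s => ?_⟩
  rw [Finset.sum_eq_single n]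
  · simp
  · intro i _ hi
    simp [hi]
  · intro h
    exact absurd (Finset.mem_range.2 (Nat.lt_succ_self n)) h

private theorem te_sum {X : Type*} [AddCommGroup X] [Module ℝ X] {ι : Type*} (S : Finset ι)
    (f : ι → ℝ → X) (h : ∀ i ∈ S, IsPoly (f i)) : IsPoly (fun s => ∑ i ∈ S, f i s) := by
  classical
  induction S using Finset.induction_on with
  | empty => simpa using IsPoly.const (0 : X)
  | insert i S hi ih =>
    have h1 := (h i (Finset.mem_insert_self _ _)).add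
      (ih fun j hj => h j (Finset.mem_insert_of_mem hj))
    simpa only [Finset.sum_insert hi] using h1

private theorem te_curve (p : HM E k) (v : Fin 3 → E) :
    IsPoly (fun s : ℝ => p.1 (∑ j : Fin 3, s ^ (j : ℕ) • v j)) := by
  classical
  have h1 : ∀ s : ℝ, p.1 (∑ j : Fin 3, s ^ (j : ℕ) • v j) =
      ∑ r : Fin k → Fin 3, s ^ (∑ i, (r i : ℕ)) • (((Nat.factorial k : ℕ) : ℝ)⁻¹ •
        iteratedFDeriv ℝ k p.1 0 (fun i => v (r i))) := by
    intro s
    have h2 := (iteratedFDeriv ℝ k p.1 0).map_sum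
      (fun (_ : Fin k) (j : Fin 3) => s ^ (j : ℕ) • v j)
    rw [hm_taylor, h2, Finset.smul_sum]
    refine Finset.sum_congr rfl fun r _ => ?_
    rw [ContinuousMultilinearMap.map_smul_univ, Finset.prod_pow_eq_pow_sum, smul_comm]
  simp only [h1]
  exact te_sum _ _ fun r _ => te_mono _ _

/-- the functional `z ↦ ⟪y, z⟫` -/
private noncomputable def te_in (y : E) : E →ₗ[ℝ] ℝ where
  toFun z := inner ℝ y z
  map_add' _ _ := inner_add_right _ _ _
  map_smul' c z := by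
    rw [inner_smul_right]
    rfl

private theorem te_pi {a : E →L[ℝ] E} (h : a ∘L a ∘L a = 0) (w : HM E k) (s : ℝ) (x : E) :
    (pi k (te (s • a)) w).1 x =
      w.1 (x - s • a x + (s ^ 2) • ((1 / 2 : ℝ) • a (a x))) +
      s • a (w.1 (x - s • a x + (s ^ 2) • ((1 / 2 : ℝ) • a (a x)))) +
      (s ^ 2) • ((1 / 2 : ℝ) • a (a (w.1 (x - s • a x + (s ^ 2) • ((1 / 2 : ℝ) • a (a x)))))) := by
  have h1 : x - (s • a) x + (1 / 2 : ℝ) • (s • a) ((s • a) x) =
      x - s • a x + (s ^ 2) • ((1 / 2 : ℝ) • a (a x)) := by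
    simp only [smul_apply, map_smul]
    module
  rw [pi_apply, te_inv_apply (te_smul_cube h s), te_apply (te_smul_cube h s), h1]
  simp only [smul_apply, map_smul]
  module

theorem poly_te {a : E →L[ℝ] E} (h : a ∘L a ∘L a = 0) (w : HM E k) :
    IsPoly (fun s : ℝ => pi k (te (s • a)) w) := by

  refine IsPoly.of_dual fun f' => ?_
  obtain ⟨n, x, y, hf⟩ := ev_dual f'
  simp only [hf]
  refine te_sum _ _ fun i _ => ?_
  have hz : IsPoly (fun s : ℝ =>
      w.1 (x i - s • a (x i) + (s ^ 2) • ((1 / 2 : ℝ) • a (a (x i))))) := by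
    have h1 := te_curve w ![x i, - a (x i), (1 / 2 : ℝ) • a (a (x i))]
    have h2 : (fun s : ℝ => w.1 (∑ j : Fin 3, s ^ (j : ℕ) •
        (![x i, - a (x i), (1 / 2 : ℝ) • a (a (x i))] : Fin 3 → E) j)) =
        fun s : ℝ => w.1 (x i - s • a (x i) + (s ^ 2) • ((1 / 2 : ℝ) • a (a (x i)))) := by
      funext s
      congr 1
      rw [Fin.sum_univ_three]
      simp [sub_eq_add_neg]
    rw [h2] at h1
    exact h1
  have hs : IsPoly (fun s : ℝ => s) := by simpa using te_mono (X := ℝ) 1 1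
  have hs2 : IsPoly (fun s : ℝ => s ^ 2) := by simpa using te_mono (X := ℝ) 2 1
  have h1 : ∀ s : ℝ, (inner ℝ (y i) ((pi k (te (s • a)) w).1 (x i)) : ℝ) =
      te_in (y i) (w.1 (x i - s • a (x i) + (s ^ 2) • ((1 / 2 : ℝ) • a (a (x i))))) +
      s • (te_in (y i) ∘ₗ a.toLinearMap)
        (w.1 (x i - s • a (x i) + (s ^ 2) • ((1 / 2 : ℝ) • a (a (x i))))) +
      (s ^ 2) • ((1 / 2 : ℝ) • (te_in (y i) ∘ₗ a.toLinearMap ∘ₗ a.toLinearMap))
        (w.1 (x i - s • a (x i) + (s ^ 2) • ((1 / 2 : ℝ) • a (a (x i))))) := by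
    intro s
    rw [te_pi h]
    simp only [te_in, LinearMap.coe_mk, AddHom.coe_mk, LinearMap.comp_apply,
      LinearMap.smul_apply, inner_add_right, inner_smul_right, smul_eq_mul]
    rfl
  simp only [h1]
  exact ((hz.lin _).add (hs.smul (hz.lin _))).add (hs2.smul (hz.lin _))


private theorem te_deriv0 {a : E →L[ℝ] E} (h : a ∘L a ∘L a = 0) (w : HM E k) (x : E) :
    HasDerivAt (fun s : ℝ => (pi k (te (s • a)) w).1 x) ((xd a w).1 x) 0 := by
  have hp : Differentiable ℝ w.1 := w.2.1.differentiable (by simp)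
  have h1 : HasDerivAt (fun s : ℝ => w.1 (x - s • a x + (s ^ 2) • ((1 / 2 : ℝ) • a (a x))))
      (fderiv ℝ w.1 x (-(a x))) 0 := by
    have h2 : HasDerivAt (fun s : ℝ => x - s • a x + (s ^ 2) • ((1 / 2 : ℝ) • a (a x)))
        (-(a x)) 0 := by
      have h3 := ((hasDerivAt_id (0 : ℝ)).smul_const (a x)).const_sub x
      have h4 := ((hasDerivAt_pow 2 (0 : ℝ))).smul_const ((1 / 2 : ℝ) • a (a x))
      have h5 : HasDerivAt (fun s : ℝ => x - s • a x + (s ^ 2) • ((1 / 2 : ℝ) • a (a x))) _ 0 :=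
        h3.add h4
      refine h5.congr_deriv ?_
      simp
    have h3 : HasFDerivAt w.1 (fderiv ℝ w.1 x)
        (x - (0 : ℝ) • a x + ((0 : ℝ) ^ 2) • ((1 / 2 : ℝ) • a (a x))) := by
      simpa using (hp x).hasFDerivAt
    exact h3.comp_hasDerivAt (0 : ℝ) h2
  have h4 := a.hasFDerivAt.comp_hasDerivAt (0 : ℝ) h1
  have h5 := (hasDerivAt_id (0 : ℝ)).smul h4
  have h6 := (a.hasFDerivAt.comp_hasDerivAt (0 : ℝ) h4).const_smul (1 / 2 : ℝ)
  have h7 := (hasDerivAt_pow 2 (0 : ℝ)).smul h6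
  have h8 := (h1.add h5).add h7
  have h9 : (fun s : ℝ => (pi k (te (s • a)) w).1 x) = _ := funext fun s => te_pi h w s x
  rw [h9]
  refine h8.congr_deriv ?_
  rw [xd_apply]
  simp [sub_eq_add_neg, add_comm]

private theorem te_pi_mul (g g' : GE E) (w : HM E k) (x : E) :
    (pi k (g * g') w).1 x = g ((pi k g' w).1 (g⁻¹ x)) := by
  rw [map_mul, Module.End.mul_apply, pi_apply]

private theorem te_zero : te (0 : E →L[ℝ] E) = 1 := by
  ext x
  rw [te_apply (by simp)]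
  have : (1 : GE E) x = x := rfl
  rw [this]
  simp

theorem te_deriv {a : E →L[ℝ] E} (h : a ∘L a ∘L a = 0) (w : HM E k) (x : E) (s : ℝ) :
    HasDerivAt (fun s : ℝ => (pi k (te (s • a)) w).1 x) ((pi k (te (s • a)) (xd a w)).1 x) s := by

  have h1 := te_deriv0 h w ((te (s • a))⁻¹ x)
  have h2 := (te (s • a) : E →L[ℝ] E).hasFDerivAt.comp_hasDerivAt (0 : ℝ) h1
  have h4 : HasDerivAt (fun s' : ℝ => s' - s) 1 s := by
    simpa using (hasDerivAt_id s).sub_const s
  have h5 : HasDerivAt (fun t : ℝ => te (s • a) ((pi k (te (t • a)) w).1 ((te (s • a))⁻¹ x)))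
      ((pi k (te (s • a)) (xd a w)).1 x) (s - s) := by
    rw [sub_self]
    exact h2
  have h6 := HasDerivAt.scomp (h := fun s' : ℝ => s' - s) s h5 h4
  rw [one_smul] at h6
  refine h6.congr_of_eventuallyEq (Filter.Eventually.of_forall fun s' => ?_)
  simp only [Function.comp_apply]
  rw [← te_pi_mul, te_add_smul h, add_sub_cancel]

theorem xd_of_pi3 {a : E →L[ℝ] E} (h : a ∘L a ∘L a = 0) (w : HM E k)
    (hw : pi k (te a) w = w) : xd a w = 0 := by

  have h1 : ∀ m : ℕ, pi k (te ((m : ℝ) • a)) w = w := by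
    intro m
    rw [te_nat h, map_pow]
    induction m with
    | zero => rfl
    | succ m ih => rw [pow_succ, Module.End.mul_apply, hw, ih]
  have h2 : ∀ s : ℝ, pi k (te (s • a)) w = w := fun s =>
    IsPoly.eq_of_nat (poly_te h w) (IsPoly.const w) h1 s
  ext x
  have h3 := te_deriv0 h w x
  have h4 : (fun s : ℝ => (pi k (te (s • a)) w).1 x) = fun _ => w.1 x := by
    funext s
    rw [h2]
  rw [h4] at h3
  rw [h3.unique (hasDerivAt_const (0 : ℝ) (w.1 x))]
  rfl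

theorem pi_of_xd3 {a : E →L[ℝ] E} (h : a ∘L a ∘L a = 0) (w : HM E k) (hw : xd a w = 0) :
    pi k (te a) w = w := by

  ext x
  have h1 : ∀ s : ℝ, HasDerivAt (fun s' : ℝ => (pi k (te (s' • a)) w).1 x) 0 s := by
    intro s
    have h2 := te_deriv h w x s
    rw [hw, map_zero] at h2
    exact h2
  have h3 := is_const_of_deriv_eq_zero (fun s => (h1 s).differentiableAt) (fun s => (h1 s).deriv)
    1 0
  simp only [one_smul, zero_smul, te_zero, map_one] at h3
  exact h3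

theorem kil_of_lat2 (G : Subgroup (GE E)) (u : Submodule ℝ (E →L[ℝ] E)) (hu : N3 u)
    (hL : Lat2 G u) (w : HM E k) (hw : ∀ g ∈ G, g ∈ tes u → pi k g w = w) : w ∈ kil k u := by

  obtain ⟨n, c, hc, hspan, hG, -, -⟩ := hL
  have hcu : ∀ i, c i ∈ u := fun i => by
    rw [← hspan]
    exact Submodule.subset_span ⟨i, rfl⟩
  intro a ha
  rw [← hspan] at ha
  induction ha using Submodule.span_induction with
  | mem x hx =>
    obtain ⟨i, rfl⟩ := hx
    exact xd_of_pi3 (hu.cube _ (hcu i) _ (hcu i) _ (hcu i)) w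
      (hw _ (hG _ (Submodule.subset_span ⟨i, rfl⟩)) ⟨c i, hcu i, rfl⟩)
  | zero => exact te_x0 w
  | add x y _ _ hx hy => rw [te_xa, hx, hy, add_zero]
  | smul t x _ hx => rw [te_xs, hx, smul_zero]

/-- the derived action and the action -/
theorem pi_xd3 (g : GE E) (a : E →L[ℝ] E) (w : HM E k) :
    pi k g (xd a w) = xd ((g : E →L[ℝ] E) ∘L a ∘L ((g⁻¹ : GE E) : E →L[ℝ] E)) (pi k g w) := by

  have h1 := pi_xd g ((g : E →L[ℝ] E) ∘L a ∘L ((g⁻¹ : GE E) : E →L[ℝ] E)) w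
  rw [← h1]
  refine congrArg (fun b => pi k g (xd b w)) ?_
  ext x
  show a x = g⁻¹ (g (a (g⁻¹ (g x))))
  rw [te_gx', te_gx']

theorem xd_br (a a' : E →L[ℝ] E) (w : HM E k) :
    xd (a ∘L a' - a' ∘L a) w = xd a (xd a' w) - xd a' (xd a w) := by

  have key : ∀ a a' : E →L[ℝ] E, ∀ x : E,
      (xd a (xd a' w)).1 x = a (a' (w.1 x)) - a (fderiv ℝ w.1 x (a' x)) -
        a' (fderiv ℝ w.1 x (a x)) + fderiv ℝ w.1 x (a' (a x)) +
        fderiv ℝ (fderiv ℝ w.1) x (a x) (a' x) := by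
    intro a a' x
    have hw1 : Differentiable ℝ w.1 := w.2.1.differentiable (by simp)
    have hw2 : Differentiable ℝ (fderiv ℝ w.1) :=
      (w.2.1.fderiv_right (m := ∞) (by simp)).differentiable (by simp)
    have h1 : HasFDerivAt (xd a' w).1
        (a' ∘L (fderiv ℝ w.1 x) - ((fderiv ℝ w.1 x) ∘L a' +
          (fderiv ℝ (fderiv ℝ w.1) x).flip (a' x))) x := by
      have h2 : HasFDerivAt (fun y => a' (w.1 y)) (a' ∘L (fderiv ℝ w.1 x)) x :=
        a'.hasFDerivAt.comp x (hw1 x).hasFDerivAt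
      have h3 : HasFDerivAt (fun y => fderiv ℝ w.1 y (a' y)) ((fderiv ℝ w.1 x) ∘L a' +
          (fderiv ℝ (fderiv ℝ w.1) x).flip (a' x)) x :=
        (hw2 x).hasFDerivAt.clm_apply a'.hasFDerivAt
      exact h2.sub h3
    rw [xd_apply, h1.fderiv, xd_apply, map_sub]
    simp only [sub_apply, add_apply, ContinuousLinearMap.comp_apply,
      ContinuousLinearMap.flip_apply]
    abel
  ext x
  have hsym : fderiv ℝ (fderiv ℝ w.1) x (a x) (a' x) = fderiv ℝ (fderiv ℝ w.1) x (a' x) (a x) :=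
    (w.2.1.contDiffAt.isSymmSndFDerivAt (by
      rw [minSmoothness_of_isRCLikeNormedField]
      exact WithTop.coe_le_coe.2 le_top)) _ _
  have h0 : (xd a (xd a' w) - xd a' (xd a w)).1 x =
      (xd a (xd a' w)).1 x - (xd a' (xd a w)).1 x := rfl
  rw [h0, key a a' x, key a' a x, hsym, xd_apply]
  simp only [sub_apply, ContinuousLinearMap.comp_apply, map_sub]
  abel

end
end LatLin
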