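import Pool.Agent.Lib.MP_2392aa_gt.O.ComO

/-!
MP_2392aa_gt, outer type, module TorG (about 350 lines): torus elements from Pell units, for arbitrary
rational isotropic idempotents.

PROOF. Let `D` be from `h.sqrt` (`D` is a natural number, not a square), `s := (√D, op (- √D)) ∈ O`. By
`Pell.exists_of_not_isSquare` there are integers `x0, y0` with `x0² - D y0² = 1`, `y0 ≠ 0`; changing signs
`x0, y0 > 0`. Put `ε = x0 + y0 √D > 1`, so `ε⁻¹ = x0 - y0 √D`. Define `x_j, y_j` by
`ε^j = x_j + y_j √D`, `ε^(-j) = x_j - y_j √D` (`x_(j+1) = x0 x_j + D y0 y_j`, `y_(j+1) = x0 y_j + y0 x_j`; or use the ring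
`ℤ√D` and its units).
Let `P := p + p'`. `P² = P`, and `RR O P P` (`rr_add` with `rr_swap`), so by `rr_ex` there is a natural `K ≠ 0` with
`κ := (K P, op (K P)) ∈ O`.
(a) There is `m ≥ 1` with `x_m ≡ 1`, `y_m ≡ 0` modulo `K`: the pairs `(x_j, y_j)` modulo `K` take finitely many
values, so `(x_i, y_i) ≡ (x_j, y_j)` for some `i < j`; then `m = j - i` (multiply with the inverse unit `ε^(-i)`:
`ε^(j-i) = (x_j + y_j √D)(x_i - y_i √D)`, which is congruent to `(x_i + y_i √D)(x_i - y_i √D) = 1`). All powers of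
`ε^m` have the same property, and so have their inverses `x_m - y_m √D`.
(b) Let `n = finrank ℝ E`, `λ := ε^(m (n - 2 r))`, `μ := ε^(- m 2 r)`: `λ = 1 + K (a + a1 √D)`, `λ⁻¹ = 1 + K (a - a1 √D)`,
`μ = 1 + K (c + c1 √D)`, `μ⁻¹ = 1 + K (c - c1 √D)` with integers `a, a1, c, c1`. The pair
`T := (λ P + μ (1 - P), op (λ⁻¹ P + μ⁻¹ (1 - P)))` is equal to
`1 + (a + a1 s) κ + (c + c1 s) (K - κ) ∈ O`, and in the same way `(λ⁻¹ P + μ⁻¹ (1 - P), op (λ P + μ (1 - P))) ∈ O`. Let
`t0` be the invertible operator `λ P + μ (1 - P)` with inverse `λ⁻¹ P + μ⁻¹ (1 - P)`. Its determinant is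
`λ^(2 r) μ^(n - 2 r) = 1`: `P` is a projection whose range is the direct sum of the ranges of `p` and `p'`
(`p p' = p' p = 0`), so of dimension `2 r`, and its kernel has dimension `n - 2 r`; `E` is their direct sum.
So `t0 ∈ G0O O`.
(c) By `cco_pow` `t := t0 ^ M ∈ G`, `M ≥ 1`: `t x = λ^M P x + μ^M (x - P x)`. Put `A := ε^(m M) > 1`.
-/

open scoped ContDiff Topology
open MulOpposite

namespace LatLin

section
variable {E : Type*} [NormedAddCommGroup E] [InnerProductSpace ℝ E] [FiniteDimensional ℝ E]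
  {O : Subring (DE E)}

private theorem det_proj {F : Type*} [AddCommGroup F] [Module ℝ F] [FiniteDimensional ℝ F]
    (f : F →ₗ[ℝ] F) (hf : IsIdempotentElem f) (α β : ℝ) :
    LinearMap.det (α • f + β • (LinearMap.id - f)) =
      α ^ (Module.finrank ℝ (LinearMap.range f)) * β ^ (Module.finrank ℝ (LinearMap.ker f)) := by
  have hp : LinearMap.IsProj (LinearMap.range f) f := (LinearMap.isProj_range_iff_isIdempotentElem _).2 hf
  have h1 := hp.eq_conj_prodMap
  have h2 : α • f + β • (LinearMap.id - f) =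
      (Submodule.prodEquivOfIsCompl (LinearMap.range f) (LinearMap.ker f) hp.isCompl).conj
      (LinearMap.prodMap (α • LinearMap.id) (β • LinearMap.id)) := by
    have h3 : (LinearMap.prodMap (α • LinearMap.id) (β • LinearMap.id) :
        (LinearMap.range f × LinearMap.ker f) →ₗ[ℝ] (LinearMap.range f × LinearMap.ker f)) =
        α • LinearMap.prodMap LinearMap.id 0 +
          β • (LinearMap.id - LinearMap.prodMap LinearMap.id 0) := by
      apply LinearMap.ext
      rintro ⟨x, y⟩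
      simp
    rw [h3, map_add, map_smul, map_smul, map_sub, ← h1, LinearEquiv.conj_id]
  rw [h2, LinearEquiv.conj_apply, LinearMap.comp_assoc, LinearMap.det_conj, LinearMap.det_prodMap, LinearMap.det_smul, LinearMap.det_smul,
    LinearMap.det_id, LinearMap.det_id, mul_one, mul_one]

private theorem zsm' (M : ℤ) (a a' : E →L[ℝ] E) :
    M • ((a, op a') : DE E) = (((M : ℝ) • a, op ((M : ℝ) • a')) : DE E) := by
  rw [Int.cast_smul_eq_zsmul, Int.cast_smul_eq_zsmul]
  rfl

/-- the value of a solution of Pell's equation -/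
private noncomputable def vP (D : ℕ) : Pell.Solution₁ (D : ℤ) →* ℝ where
  toFun b := b.x + b.y * Real.sqrt D
  map_one' := by simp
  map_mul' b c := by
    have h : Real.sqrt D * Real.sqrt D = D := Real.mul_self_sqrt (Nat.cast_nonneg D)
    rw [Pell.Solution₁.x_mul, Pell.Solution₁.y_mul]
    push_cast
    linear_combination (-(b.y : ℝ) * c.y) * h

private theorem vP_apply (D : ℕ) (b : Pell.Solution₁ (D : ℤ)) :
    vP D b = b.x + b.y * Real.sqrt D := rfl

private theorem vP_inv (D : ℕ) (b : Pell.Solution₁ (D : ℤ)) :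
    vP D b⁻¹ = b.x - b.y * Real.sqrt D := by
  rw [vP_apply, Pell.Solution₁.x_inv, Pell.Solution₁.y_inv]
  push_cast
  ring

/-- solutions congruent to one -/
private def cgP (D K : ℕ) : Subgroup (Pell.Solution₁ (D : ℤ)) where
  carrier := {b | (b.x : ZMod K) = 1 ∧ (b.y : ZMod K) = 0}
  one_mem' := by simp
  mul_mem' := by
    rintro b c ⟨h1, h2⟩ ⟨h3, h4⟩
    refine ⟨?_, ?_⟩
    · rw [Pell.Solution₁.x_mul]
      push_cast
      rw [h1, h2, h3, h4]
      ring
    · rw [Pell.Solution₁.y_mul]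
      push_cast
      rw [h1, h2, h3, h4]
      ring
  inv_mem' := by
    rintro b ⟨h1, h2⟩
    refine ⟨?_, ?_⟩
    · rw [Pell.Solution₁.x_inv]
      exact h1
    · rw [Pell.Solution₁.y_inv]
      push_cast
      rw [h2, neg_zero]

private theorem cgP_ex {D K : ℕ} {b : Pell.Solution₁ (D : ℤ)} (hb : b ∈ cgP D K) :
    ∃ u w : ℤ, b.x = 1 + K * u ∧ b.y = K * w := by
  obtain ⟨h1, h2⟩ := hb
  obtain ⟨w, hw⟩ := (ZMod.intCast_zmod_eq_zero_iff_dvd _ _).1 h2
  have h3 : ((b.x - 1 : ℤ) : ZMod K) = 0 := by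
    push_cast
    rw [h1, sub_self]
  obtain ⟨u, hu⟩ := (ZMod.intCast_zmod_eq_zero_iff_dvd _ _).1 h3
  exact ⟨u, w, by linarith, hw⟩

private theorem exists_pow_cg {D K : ℕ} (hK : K ≠ 0) (a : Pell.Solution₁ (D : ℤ)) :
    ∃ m : ℕ, m ≠ 0 ∧ a ^ m ∈ cgP D K := by
  have : NeZero K := ⟨hK⟩
  have hni : ¬ Function.Injective
      (fun j : ℕ => (((a ^ j).x : ZMod K), ((a ^ j).y : ZMod K))) :=
    not_injective_infinite_finite _
  have key : ∀ i j : ℕ, i < j → (((a ^ i).x : ZMod K), ((a ^ i).y : ZMod K)) =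
      (((a ^ j).x : ZMod K), ((a ^ j).y : ZMod K)) → a ^ (j - i) ∈ cgP D K := by
    intro i j hij heq
    have h1 := congrArg Prod.fst heq
    have h2 := congrArg Prod.snd heq
    simp only at h1 h2
    have h3 : a ^ (j - i) = a ^ j * (a ^ i)⁻¹ := by
      rw [eq_mul_inv_iff_mul_eq, ← pow_add, Nat.sub_add_cancel hij.le]
    have hprop := (a ^ i).prop
    have hp : ((a ^ i).x : ZMod K) ^ 2 - (D : ZMod K) * ((a ^ i).y : ZMod K) ^ 2 = 1 := by
      have := congrArg (fun z : ℤ => (z : ZMod K)) hprop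
      push_cast at this
      exact this
    rw [h3]
    refine ⟨?_, ?_⟩
    · rw [Pell.Solution₁.x_mul, Pell.Solution₁.x_inv, Pell.Solution₁.y_inv]
      push_cast
      rw [← h1, ← h2]
      linear_combination hp
    · rw [Pell.Solution₁.y_mul, Pell.Solution₁.x_inv, Pell.Solution₁.y_inv]
      push_cast
      rw [← h1, ← h2]
      ring
  rw [Function.Injective] at hni
  push Not at hni
  obtain ⟨i, j, hij, hne⟩ := hni
  rcases Nat.lt_or_gt_of_ne hne with h | h
  · exact ⟨j - i, by omega, key i j h hij⟩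
  · exact ⟨i - j, by omega, key j i h hij.symm⟩

private theorem mem_pell {D K : ℕ}
    (hs : ((Real.sqrt D • (1 : E →L[ℝ] E), op (-(Real.sqrt D • (1 : E →L[ℝ] E)))) : DE E) ∈ O)
    {Q : E →L[ℝ] E} (hQ : ((((K : ℝ) • Q, op ((K : ℝ) • Q)) : DE E) ∈ O)) (u w : ℤ) :
    (((((K : ℝ) * u + K * w * Real.sqrt D) • Q,
      op (((K : ℝ) * u - K * w * Real.sqrt D) • Q)) : DE E) ∈ O) := by
  have h1 := O.zsmul_mem hQ u
  have h2 := O.zsmul_mem (O.mul_mem hs hQ) w
  have h3 := O.add_mem h1 h2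
  have e1 : (((((K : ℝ) * u + K * w * Real.sqrt D) • Q,
      op (((K : ℝ) * u - K * w * Real.sqrt D) • Q)) : DE E)) =
      u • ((((K : ℝ) • Q, op ((K : ℝ) • Q)) : DE E)) +
      w • ((((Real.sqrt D • (1 : E →L[ℝ] E), op (-(Real.sqrt D • (1 : E →L[ℝ] E)))) : DE E)) *
        (((K : ℝ) • Q, op ((K : ℝ) • Q)) : DE E)) := by
    rw [Prod.mk_mul_mk, ← op_mul, zsm', zsm', Prod.mk_add_mk, ← op_add]
    refine Prod.ext ?_ ?_
    · show ((K : ℝ) * u + K * w * Real.sqrt D) • Q = _
      rw [smul_mul_assoc, one_mul]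
      module
    · show op (((K : ℝ) * u - K * w * Real.sqrt D) • Q) = _
      congr 1
      rw [mul_neg, mul_smul_comm, mul_one]
      module
  rw [e1]
  exact h3

theorem tor_gen (h : OX O) {G : Subgroup (GE E)} (hG : G ∈ CCO O) {p p' : E →L[ℝ] E}
    (hr : RR O p p') (h1 : p * p = p) (h2 : p' * p' = p') (h3 : p * p' = 0) (h4 : p' * p = 0)
    (r : ℕ) (hr0 : 0 < r) (hr1 : Module.finrank ℝ (LinearMap.range (p : E →ₗ[ℝ] E)) = r)
    (hr2 : Module.finrank ℝ (LinearMap.range (p' : E →ₗ[ℝ] E)) = r)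
    (hn : 2 * r < Module.finrank ℝ E) :
    ∃ t ∈ G, ∃ A : ℝ, 1 < A ∧ ∀ x, t x = A ^ (Module.finrank ℝ E - 2 * r) • (p x + p' x) +
      (A ^ (2 * r))⁻¹ • (x - p x - p' x) := by
  obtain ⟨D, hD, hs⟩ := h.sqrt
  -- the projection
  set P : E →L[ℝ] E := p + p' with hP
  have hPP : P * P = P := by
    rw [hP, add_mul, mul_add, mul_add, h1, h2, h3, h4]
    abel
  have hPx : ∀ x, P (P x) = P x := fun x => congrArg (fun f : E →L[ℝ] E => f x) hPP
  have hPrr : RR O P P := by
    have := rr_add hr (rr_swap h hr)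
    rwa [add_comm p' p] at this
  obtain ⟨K, hK, hKm⟩ := rr_ex hPrr
  have hκ : ((((K : ℝ) • P, op ((K : ℝ) • P)) : DE E) ∈ O) := by
    have := hKm K (dvd_refl _)
    simpa using this
  have hκ' : ((((K : ℝ) • (1 - P), op ((K : ℝ) • (1 - P))) : DE E) ∈ O) := by
    have h5 := O.sub_mem (O.zsmul_mem O.one_mem (K : ℤ)) hκ
    have e1 : ((((K : ℝ) • (1 - P), op ((K : ℝ) • (1 - P))) : DE E)) =
        (K : ℤ) • (1 : DE E) - (((K : ℝ) • P, op ((K : ℝ) • P)) : DE E) := by
      have e2 : (1 : DE E) = (((1 : E →L[ℝ] E), op (1 : E →L[ℝ] E)) : DE E) := rfl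
      rw [e2, zsm', Prod.mk_sub_mk, ← op_sub, smul_sub]
      simp
    rw [e1]
    exact h5
  -- the unit
  have hD0 : 0 < D := by
    rcases Nat.eq_zero_or_pos D with h0 | h0
    · exact absurd ⟨0, by rw [h0]⟩ hD
    · exact h0
  have hDsq : ¬ IsSquare (D : ℤ) := by
    intro hsq
    exact hD (Int.isSquare_natCast_iff.1 hsq)
  obtain ⟨a, hax, hay⟩ := Pell.Solution₁.exists_pos_of_not_isSquare
    (d := (D : ℤ)) (by exact_mod_cast hD0) hDsq
  obtain ⟨m, hm0, hm⟩ := exists_pow_cg hK a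
  have hval : 1 < vP D a := by
    rw [vP_apply]
    have e1 : (1 : ℝ) < a.x := by exact_mod_cast hax
    have e2 : (0 : ℝ) < a.y := by exact_mod_cast hay
    have e3 : 0 < Real.sqrt D := Real.sqrt_pos.2 (Nat.cast_pos.2 hD0)
    have e4 : 0 < (a.y : ℝ) * Real.sqrt D := mul_pos e2 e3
    linarith
  set A0 : ℝ := vP D (a ^ m) with hA0
  have hA01 : 1 < A0 := by
    rw [hA0, map_pow]
    exact one_lt_pow₀ hval hm0
  have hA0pos : 0 < A0 := by linarith
  -- the pairs
  have hmem : ∀ b ∈ cgP D K, ∀ c ∈ cgP D K,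
      (((vP D b • P + vP D c • (1 - P), op (vP D b⁻¹ • P + vP D c⁻¹ • (1 - P))) : DE E) ∈ O) := by
    intro b hb c hc
    obtain ⟨u, w, hbx, hby⟩ := cgP_ex hb
    obtain ⟨u', w', hcx, hcy⟩ := cgP_ex hc
    have h5 := O.add_mem (O.add_mem O.one_mem (mem_pell hs hκ u w)) (mem_pell hs hκ' u' w')
    have e1 : ((((vP D b • P + vP D c • (1 - P), op (vP D b⁻¹ • P + vP D c⁻¹ • (1 - P))) : DE E))) =
        (1 : DE E) + (((((K : ℝ) * u + K * w * Real.sqrt D) • P,
          op (((K : ℝ) * u - K * w * Real.sqrt D) • P)) : DE E)) +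
        (((((K : ℝ) * u' + K * w' * Real.sqrt D) • (1 - P),
          op (((K : ℝ) * u' - K * w' * Real.sqrt D) • (1 - P))) : DE E)) := by
      have e2 : (1 : DE E) = (((1 : E →L[ℝ] E), op (1 : E →L[ℝ] E)) : DE E) := rfl
      rw [e2, Prod.mk_add_mk, Prod.mk_add_mk, ← op_add, ← op_add, vP_inv, vP_inv, vP_apply,
        vP_apply, hbx, hby, hcx, hcy]
      push_cast
      refine Prod.ext ?_ ?_
      · show _ = (1 : E →L[ℝ] E) + ((K : ℝ) * u + K * w * Real.sqrt D) • P +
          ((K : ℝ) * u' + K * w' * Real.sqrt D) • (1 - P)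
        module
      · show op _ = op ((1 : E →L[ℝ] E) + ((K : ℝ) * u - K * w * Real.sqrt D) • P +
          ((K : ℝ) * u' - K * w' * Real.sqrt D) • (1 - P))
        congr 1
        module
    rw [e1]
    exact h5
  set n := Module.finrank ℝ E with hndef
  set b : Pell.Solution₁ (D : ℤ) := (a ^ m) ^ (n - 2 * r) with hb
  set c : Pell.Solution₁ (D : ℤ) := ((a ^ m) ^ (2 * r))⁻¹ with hc
  have hbm : b ∈ cgP D K := Subgroup.pow_mem _ hm _
  have hcm : c ∈ cgP D K := Subgroup.inv_mem _ (Subgroup.pow_mem _ hm _)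
  have hinv1 : ∀ z : Pell.Solution₁ (D : ℤ), vP D z⁻¹ * vP D z = 1 := fun z => by
    rw [← map_mul, inv_mul_cancel, map_one]
  have hinv2 : ∀ z : Pell.Solution₁ (D : ℤ), vP D z * vP D z⁻¹ = 1 := fun z => by
    rw [← map_mul, mul_inv_cancel, map_one]
  have haux : ∀ α β α' β' : ℝ, α' * α = 1 → β' * β = 1 → ∀ x : E,
      (α' • P + β' • (1 - P)) ((α • P + β • (1 - P)) x) = x := by
    intro α β α' β' hα hβ x
    have e1 : P ((α • P + β • (1 - P)) x) = α • P x := by
      show P (α • P x + β • (x - P x)) = α • P x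
      rw [map_add, map_smul, map_smul, map_sub, hPx, sub_self, smul_zero, add_zero]
    calc (α' • P + β' • (1 - P)) ((α • P + β • (1 - P)) x)
        = α' • P ((α • P + β • (1 - P)) x) +
          β' • (((α • P + β • (1 - P)) x) - P ((α • P + β • (1 - P)) x)) := rfl
      _ = α' • (α • P x) + β' • ((α • P x + β • (x - P x)) - α • P x) := by
          rw [e1]; rfl
      _ = (α' * α) • P x + (β' * β) • (x - P x) := by module
      _ = x := by
          rw [hα, hβ]
          module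
  let t0 : GE E := ContinuousLinearEquiv.equivOfInverse
    (vP D b • P + vP D c • (1 - P)) (vP D b⁻¹ • P + vP D c⁻¹ • (1 - P))
    (haux _ _ _ _ (hinv1 b) (hinv1 c)) (haux _ _ _ _ (hinv2 b) (hinv2 c))
  have ht0 : (t0 : E →L[ℝ] E) = vP D b • P + vP D c • (1 - P) := rfl
  have ht0i : ((t0⁻¹ : GE E) : E →L[ℝ] E) = vP D b⁻¹ • P + vP D c⁻¹ • (1 - P) := rfl
  have hvb : vP D b = A0 ^ (n - 2 * r) := by rw [hb, map_pow]
  have hvc : vP D c = (A0 ^ (2 * r))⁻¹ := by
    have h5 := hinv1 ((a ^ m) ^ (2 * r))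
    rw [map_pow] at h5
    exact eq_inv_of_mul_eq_one_left h5
  have htm : t0 ∈ G0O O := by
    refine ⟨?_, ?_, ?_⟩
    · rw [ht0, ht0i]
      exact hmem b hbm c hcm
    · rw [ht0, ht0i]
      have h5 := hmem b⁻¹ (Subgroup.inv_mem _ hbm) c⁻¹ (Subgroup.inv_mem _ hcm)
      have e5 : (b⁻¹)⁻¹ = b := inv_inv b
      have e6 : (c⁻¹)⁻¹ = c := inv_inv c
      rw [e5, e6] at h5
      exact h5
    · have hidem : IsIdempotentElem (P : E →ₗ[ℝ] E) := by
        apply LinearMap.ext
        intro x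
        exact hPx x
      have hcoe : (((t0 : GE E) : E →L[ℝ] E) : E →ₗ[ℝ] E) =
          vP D b • (P : E →ₗ[ℝ] E) + vP D c • (LinearMap.id - (P : E →ₗ[ℝ] E)) := rfl
      have hp1 : IsIdempotentElem (p : E →ₗ[ℝ] E) := by
        apply LinearMap.ext
        intro x
        exact congrArg (fun f : E →L[ℝ] E => f x) h1
      have hp2 : IsIdempotentElem (p' : E →ₗ[ℝ] E) := by
        apply LinearMap.ext
        intro x
        exact congrArg (fun f : E →L[ℝ] E => f x) h2
      have htr : ∀ f : E →ₗ[ℝ] E, IsIdempotentElem f →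
          LinearMap.trace ℝ E f = (Module.finrank ℝ (LinearMap.range f) : ℝ) := by
        intro f hf
        have hpf : LinearMap.IsProj (LinearMap.range f) f :=
          (LinearMap.isProj_range_iff_isIdempotentElem _).2 hf
        exact hpf.trace
      have hrk : Module.finrank ℝ (LinearMap.range (P : E →ₗ[ℝ] E)) = 2 * r := by
        have h5 := htr _ hidem
        have h6 : (P : E →ₗ[ℝ] E) = (p : E →ₗ[ℝ] E) + (p' : E →ₗ[ℝ] E) := rfl
        rw [h6, map_add, htr _ hp1, htr _ hp2, hr1, hr2, ← h6] at h5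
        have h7 : ((2 * r : ℕ) : ℝ) = (Module.finrank ℝ (LinearMap.range (P : E →ₗ[ℝ] E)) : ℝ) := by
          rw [← h5]
          push_cast
          ring
        exact_mod_cast h7.symm
      have hker : Module.finrank ℝ (LinearMap.ker (P : E →ₗ[ℝ] E)) = n - 2 * r := by
        have h5 := LinearMap.finrank_range_add_finrank_ker (P : E →ₗ[ℝ] E)
        rw [hrk] at h5
        omega
      rw [hcoe, det_proj _ hidem, hrk, hker, hvb, hvc, ← pow_mul, inv_pow, ← pow_mul,
        mul_comm (n - 2 * r) (2 * r)]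
      exact mul_inv_cancel₀ (pow_pos hA0pos _).ne'
  obtain ⟨M, hM0, hM⟩ := cco_pow hG
  have hpow : ∀ (k : ℕ) (x : E), (t0 ^ k) x = (vP D b) ^ k • P x + (vP D c) ^ k • (x - P x) := by
    intro k
    induction k with
    | zero =>
      intro x
      rw [pow_zero, pow_zero, pow_zero, one_smul, one_smul, add_sub_cancel]
      rfl
    | succ k ih =>
      intro x
      rw [pow_succ]
      show (t0 ^ k) (t0 x) = _
      rw [ih]
      have e0 : t0 x = vP D b • P x + vP D c • (x - P x) := rfl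
      have e1 : P (t0 x) = vP D b • P x := by
        rw [e0, map_add, map_smul, map_smul, map_sub, hPx, sub_self, smul_zero, add_zero]
      rw [e1, e0, pow_succ, pow_succ]
      module
  refine ⟨t0 ^ M, hM t0 htm, A0 ^ M, one_lt_pow₀ hA01 hM0, fun x => ?_⟩
  rw [hpow, hvb, hvc, inv_pow, ← pow_mul, ← pow_mul, ← pow_mul, ← pow_mul,
    mul_comm (n - 2 * r) M, mul_comm (2 * r) M]
  have e1 : P x = p x + p' x := rfl
  rw [e1, sub_sub]

end
end LatLin
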